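import Pool.Agent.MP_151d89_pr.H58.Spec3

/-!
Functions with small second differences are almost affine.
-/

set_option autoImplicit false
open MeasureTheory Finset Filter

namespace Pool.Agent.MP_151d89_pr.H58
open Pool.Agent.MP_151d89_pr.H82 Pool.Agent.MP_151d89_pr.H33 Pool.Agent.MP_151d89_pr.H67
  Pool.Agent.MP_151d89_pr.H30
open Classical

namespace AffP

theorem one (F : ℤ → ℝ) (c : ℝ) (r : ℕ) (hc : 0 ≤ c)
    (h : ∀ t : ℤ, |t| ≤ r → |F (t + 1) - F t| ≤ c) (t : ℤ) (ht : |t| ≤ r) :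
    |F t - F 0| ≤ c * r := by
  have k : ∀ n : ℕ, n ≤ r → |F n - F 0| ≤ c * n ∧ |F (-n) - F 0| ≤ c * n := by
    intro n
    induction n with
    | zero => simp
    | succ n ih =>
      intro hn
      obtain ⟨a, b⟩ := ih (by omega)
      have h1 := h n (abs_le.2 ⟨by omega, by omega⟩)
      have h2 := h (-((n + 1 : ℕ) : ℤ)) (abs_le.2 ⟨by omega, by omega⟩)
      rw [show -((n + 1 : ℕ) : ℤ) + 1 = -n by omega] at h2
      rw [show (n : ℤ) + 1 = ((n + 1 : ℕ) : ℤ) by omega] at h1
      rw [abs_le] at a b h1 h2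
      rw [abs_le, abs_le, Nat.cast_add (R := ℝ), Nat.cast_one]
      refine ⟨⟨?_, ?_⟩, ?_, ?_⟩ <;> linarith [a.1, a.2, b.1, b.2, h1.1, h1.2, h2.1, h2.2]
  have h3 : t.natAbs ≤ r := by rw [abs_le] at ht; omega
  have h4 : c * t.natAbs ≤ c * r := mul_le_mul_of_nonneg_left (by exact_mod_cast h3) hc
  rcases Int.natAbs_eq t with e | e
  · rw [e]; exact (k _ h3).1.trans h4
  · rw [e]; exact (k _ h3).2.trans h4

theorem two (G : ℤ × ℤ → ℝ) (c : ℝ) (x : ℤ × ℤ) (r : ℕ) (hc : 0 ≤ c)
    (h : ∀ b z, nrm (z - x) ≤ r → |G (z + dir b) - G z| ≤ c) (y : ℤ × ℤ)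
    (hy : nrm (y - x) ≤ r) : |G y - G x| ≤ 2 * c * r := by
  have y1 : |y.1 - x.1| ≤ r := (le_max_left _ _).trans hy
  have y2 : |y.2 - x.2| ≤ r := (le_max_right _ _).trans hy
  have h1 := one (fun t => G (x.1 + t, x.2)) c r hc (fun t ht => by
    have := h true (x.1 + t, x.2) (max_le (by simpa using ht) (by simp))
    simpa [dir, add_assoc] using this) _ y1
  have h2 := one (fun t => G (y.1, x.2 + t)) c r hc (fun t ht => by
    have := h false (y.1, x.2 + t) (max_le (by simpa using y1) (by simpa using ht))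
    simpa [dir, add_assoc] using this) _ y2
  simp only [add_sub_cancel, add_zero, Prod.mk.eta] at h1 h2
  rw [abs_le] at h1 h2 ⊢
  constructor <;> linarith [h1.1, h1.2, h2.1, h2.2]

end AffP

open AffP in
theorem aff_row : AffStmt := by
  intro P η x r _ h y hy
  have h0 : 0 ≤ η := (abs_nonneg _).trans (h true true x)
  have h1 := two (fun z => P z - pl (sl P x) (P x - pl (sl P x) 0 x) z) (2 * η * r) x r
    (by positivity) (fun b z hz => by
      have k := two (dd b P) η x r h0 (fun b' w _ => h b b' w) z hz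
      have e : P (z + dir b) - pl (sl P x) (P x - pl (sl P x) 0 x) (z + dir b) -
          (P z - pl (sl P x) (P x - pl (sl P x) 0 x) z) = dd b P z - dd b P x := by
        cases b <;> simp only [pl, sl, dd, dir, Prod.fst_add, Prod.snd_add] <;> push_cast <;> ring
      rw [e]
      exact k) y hy
  have e : P x - pl (sl P x) (P x - pl (sl P x) 0 x) x = 0 := by
    simp only [pl]; ring
  rw [e, sub_zero] at h1
  have : 0 ≤ η * (r : ℝ) ^ 2 := by positivity
  nlinarith

end Pool.Agent.MP_151d89_pr.H58
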