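import Pool.Agent.MP_151d89_pr.H58.Spec

/-!
Frozen sites are mostly predictable.
-/

set_option autoImplicit false
open MeasureTheory Finset

namespace Pool.Agent.MP_151d89_pr.H58
open Pool.Agent.MP_151d89_pr.H82 Pool.Agent.MP_151d89_pr.H33 Pool.Agent.MP_151d89_pr.H67
  Pool.Agent.MP_151d89_pr.H30
open Classical

namespace CntP

theorem pt_pt (b : Bool) (x : ℤ × ℤ) (s t : ℤ) : pt b (pt b x s) t = pt b x (s + t) := by
  simp only [pt, add_smul, add_assoc]

theorem pt_mem (b : Bool) {x y : ℤ × ℤ} {m n : ℕ} {t : ℤ} (h : y ∈ box x m) (h1 : t + m ≤ n)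
    (h2 : m - t ≤ n) : pt b y t ∈ box x n := by
  rw [mem_box] at h
  cases b <;> simp only [mem_box, pt_true, pt_false] <;> omega

theorem gap (T : ℤ × ℤ → Prop) (b : Bool) (σ : ℤ) (n : ℕ) (Z B : Finset (ℤ × ℤ))
    (h : ∀ z ∈ Z, T z ∧ (∀ j : ℕ, 1 ≤ j → j < n → ¬ T (pt b z (σ * j))) ∧
      ∀ j : ℕ, j < n → pt b z (σ * j) ∈ B) : Z.card * n ≤ B.card := by
  have key : ∀ z ∈ Z, ∀ z' ∈ Z, ∀ j j' : ℕ, j ≤ j' → j' < n → pt b z (σ * j) = pt b z' (σ * j') →
      z = z' ∧ j = j' := by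
    intro z hz z' hz' j j' hj hn e
    obtain ⟨d, rfl⟩ := Nat.exists_eq_add_of_le hj
    have e2 : z = pt b z' (σ * d) := by
      have := congrArg (fun w => pt b w (-(σ * j))) e
      simp only [pt_pt, add_neg_cancel, pt_zero] at this
      rw [this]
      congr 1
      push_cast
      ring
    rcases Nat.eq_zero_or_pos d with h0 | h0
    · subst h0
      simpa [pt_zero] using e2
    · exact absurd (e2 ▸ (h z hz).1) ((h z' hz').2.1 d h0 (by omega))
  rw [← card_range n, ← card_product]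
  refine card_le_card_of_injOn (fun p => pt b p.1 (σ * p.2)) (fun p hp => ?_) fun p hp q hq e => ?_
  · obtain ⟨h1, h2⟩ := mem_product.1 (mem_coe.1 hp)
    exact mem_coe.2 ((h _ h1).2.2 _ (mem_range.1 h2))
  · obtain ⟨h1, h2⟩ := mem_product.1 (mem_coe.1 hp)
    obtain ⟨h3, h4⟩ := mem_product.1 (mem_coe.1 hq)
    rcases le_total p.2 q.2 with hl | hl
    · obtain ⟨a, c⟩ := key _ h1 _ h3 _ _ hl (mem_range.1 h4) e
      exact Prod.ext a c
    · obtain ⟨a, c⟩ := key _ h3 _ h1 _ _ hl (mem_range.1 h2) e.symm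
      exact Prod.ext a.symm c.symm

/-- sites after the last turn -/
theorem last (T : ℤ × ℤ → Prop) (b : Bool) (k L ρ : ℕ) (x : ℤ × ℤ) (Y : Finset (ℤ × ℤ))
    (hk : k ≤ L) (h : ∀ y ∈ Y, y ∈ box x ρ ∧ (∃ i : ℕ, i ≤ k ∧ T (pt b y (-i))) ∧
      ∀ i : ℕ, 1 ≤ i → i < L → ¬ T (pt b y i)) :
    Y.card * L ≤ (k + 1) * (box x (ρ + 2 * L)).card := by
  have h1 := gap T b 1 L ((box x (ρ + L)).filter fun z => T z ∧
      ∀ j : ℕ, 1 ≤ j → j < L → ¬ T (pt b z (1 * j))) (box x (ρ + 2 * L)) fun z hz => by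
    obtain ⟨a, c, d⟩ := mem_filter.1 hz
    exact ⟨c, d, fun j hj => pt_mem b a (by push_cast; omega) (by push_cast; omega)⟩
  generalize hZ : ((box x (ρ + L)).filter fun z => T z ∧
      ∀ j : ℕ, 1 ≤ j → j < L → ¬ T (pt b z (1 * j))) = Z at h1
  have h2 : Y ⊆ (range (k + 1) ×ˢ Z).image fun p => pt b p.2 p.1 := by
    intro y hy
    obtain ⟨a, c, d⟩ := h y hy
    have hi := Nat.find_spec c
    have hm := fun j => Nat.find_min c (m := j)
    generalize Nat.find c = i at hi hm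
    refine mem_image.2 ⟨(i, pt b y (-i)), mem_product.2 ⟨mem_range.2 (by simp only; omega), ?_⟩,
      by simp only [pt_pt, neg_add_cancel, pt_zero]⟩
    rw [← hZ]
    refine mem_filter.2 ⟨pt_mem b a (by push_cast; omega) (by push_cast; omega), hi.2,
      fun j h3 h4 => ?_⟩
    rw [pt_pt]
    rcases le_or_gt j i with h5 | h5
    · obtain ⟨e, rfl⟩ := Nat.exists_eq_add_of_le h5
      have e1 : -((j + e : ℕ) : ℤ) + 1 * j = -e := by push_cast; ring
      rw [e1]
      exact fun h6 => hm e (by omega) ⟨by omega, h6⟩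
    · obtain ⟨e, rfl⟩ := Nat.exists_eq_add_of_le h5.le
      have e1 : -(i : ℤ) + 1 * ((i + e : ℕ) : ℤ) = e := by push_cast; ring
      rw [e1]
      exact d e (by omega) (by omega)
  have h3 := (card_le_card h2).trans card_image_le
  rw [card_product, card_range] at h3
  calc Y.card * L ≤ (k + 1) * Z.card * L := Nat.mul_le_mul_right _ h3
    _ = (k + 1) * (Z.card * L) := mul_assoc _ _ _
    _ ≤ _ := Nat.mul_le_mul_left _ h1

end CntP

open CntP

theorem cnt_row : CntStmt := by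
  intro r L ρ x f hr hL
  have h1 := gap (fun y => Tn true (pt true y (-1)) f) true (-1) r
    ((box x ρ).filter fun y => Trig r y f ∧ Tn true (pt true y (-1)) f) (box x (ρ + 2 * L))
    fun z hz => by
      obtain ⟨a, c, d⟩ := mem_filter.1 hz
      refine ⟨d, fun j h1 h2 => ?_, fun j hj => pt_mem true a (by push_cast; omega)
        (by push_cast; omega)⟩
      have e : -1 * (j : ℤ) + -1 = -((j + 1 : ℕ) : ℤ) := by push_cast; ring
      rw [pt_pt, e]
      exact c (j + 1) (by omega) (by omega)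
  have h2 := last (fun y => Tn true y f) true r L ρ x
    ((box x ρ).filter fun y => (∃ i : ℕ, i ≤ r ∧ Tn true (pt true y (-i)) f) ∧
      ∀ i : ℕ, 1 ≤ i → i < L → ¬ Tn true (pt true y i) f) hL.le fun y hy => mem_filter.1 hy
  have h3 := last (fun y => Tn false y f) false 1 L ρ x
    ((box x ρ).filter fun y => (∃ i : ℕ, i ≤ 1 ∧ Tn false (pt false y (-i)) f) ∧
      ∀ i : ℕ, 1 ≤ i → i < L → ¬ Tn false (pt false y i) f) (by omega) fun y hy => mem_filter.1 hy
  have h4 : ((box x ρ).filter fun y => Err r y f) ⊆ ((box x ρ).filter fun y => Liq L y f) ∪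
      (((box x ρ).filter fun y => Trig r y f ∧ Tn true (pt true y (-1)) f) ∪
      (((box x ρ).filter fun y => (∃ i : ℕ, i ≤ r ∧ Tn true (pt true y (-i)) f) ∧
        ∀ i : ℕ, 1 ≤ i → i < L → ¬ Tn true (pt true y i) f) ∪
      ((box x ρ).filter fun y => (∃ i : ℕ, i ≤ 1 ∧ Tn false (pt false y (-i)) f) ∧
        ∀ i : ℕ, 1 ≤ i → i < L → ¬ Tn false (pt false y i) f))) := by
    intro y hy
    obtain ⟨a, c⟩ := mem_filter.1 hy
    simp only [mem_union, mem_filter, a, true_and]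
    rcases c with c | ⟨c, d⟩
    · exact Or.inr (Or.inl c)
    have c' : ∃ i : ℕ, 2 ≤ i ∧ i ≤ r ∧ Tn true (pt true y (-i)) f := by
      by_contra h
      exact c fun i h5 h6 h7 => h ⟨i, h5, h6, h7⟩
    obtain ⟨i, i1, i2, i3⟩ := c'
    have d' : Tn false (pt false y (-((1 : ℕ) : ℤ))) f := by simpa using d
    by_cases e1 : ∃ i : ℕ, 1 ≤ i ∧ i < L ∧ Tn true (pt true y i) f
    · by_cases e2 : ∃ i : ℕ, 1 ≤ i ∧ i < L ∧ Tn false (pt false y i) f
      · refine Or.inl fun b => ?_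
        cases b
        · exact ⟨e2, 1, le_rfl, by omega, d'⟩
        · exact ⟨e1, i, by omega, by omega, i3⟩
      · exact Or.inr (Or.inr (Or.inr ⟨⟨1, le_rfl, d'⟩, fun j j1 j2 j3 => e2 ⟨j, j1, j2, j3⟩⟩))
    · exact Or.inr (Or.inr (Or.inl ⟨⟨i, i2, i3⟩, fun j j1 j2 j3 => e1 ⟨j, j1, j2, j3⟩⟩))
  have h5 := (card_le_card h4).trans ((card_union_le _ _).trans (Nat.add_le_add_left
    ((card_union_le _ _).trans (Nat.add_le_add_left (card_union_le _ _) _)) _))
  rw [card_box] at h1 h2 h3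
  unfold num
  generalize ((box x ρ).filter fun y => Err r y f).card = n0 at h5 ⊢
  generalize ((box x ρ).filter fun y => Liq L y f).card = n1 at h5 ⊢
  generalize ((box x ρ).filter fun y => Trig r y f ∧ Tn true (pt true y (-1)) f).card = n2 at h1 h5
  generalize ((box x ρ).filter fun y => (∃ i : ℕ, i ≤ r ∧ Tn true (pt true y (-i)) f) ∧
    ∀ i : ℕ, 1 ≤ i → i < L → ¬ Tn true (pt true y i) f).card = n3 at h2 h5
  generalize ((box x ρ).filter fun y => (∃ i : ℕ, i ≤ 1 ∧ Tn false (pt false y (-i)) f) ∧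
    ∀ i : ℕ, 1 ≤ i → i < L → ¬ Tn false (pt false y i) f).card = n4 at h3 h5
  have r0 : (0 : ℝ) < r := by exact_mod_cast hr
  have L0 : (0 : ℝ) < L := by exact_mod_cast (by omega : 0 < L)
  have g1 : (n2 : ℝ) * r ≤ (2 * (ρ + 2 * L) + 1) ^ 2 := by exact_mod_cast h1
  have g2 : (n3 : ℝ) * L ≤ (r + 1) * (2 * (ρ + 2 * L) + 1) ^ 2 := by exact_mod_cast h2
  have g3 : (n4 : ℝ) * L ≤ (1 + 1) * (2 * (ρ + 2 * L) + 1) ^ 2 := by exact_mod_cast h3
  have g5 : (n0 : ℝ) ≤ n1 + (n2 + (n3 + n4)) := by exact_mod_cast h5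
  generalize (2 * ((ρ : ℝ) + 2 * L) + 1) ^ 2 = B at g1 g2 g3 ⊢
  rw [← le_div_iff₀ r0] at g1
  rw [← le_div_iff₀ L0] at g2 g3
  have e : B * (1 / r + (r + 3) / L) = B / r + ((r + 1) * B / L + (1 + 1) * B / L) := by ring
  rw [e]
  linarith

end Pool.Agent.MP_151d89_pr.H58
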