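import Pool.Agent.MP_151d89_pr.H58.Spec

/-!
The covariance bound in a finite volume.
-/

set_option autoImplicit false
open MeasureTheory Finset

namespace Pool.Agent.MP_151d89_pr.H58
open Pool.Agent.MP_151d89_pr.H82 Pool.Agent.MP_151d89_pr.H33 Pool.Agent.MP_151d89_pr.H67
  Pool.Agent.MP_151d89_pr.H30
open Classical

namespace CovP

theorem av_SS {Λ : Finset (ℤ × ℤ)} {r K : ℕ} (h : box 0 (r + 9 * K) ⊆ Λ) (F : Conf → ℝ)
    (g : Conf) : av Λ (fun f => F f * SS r K f) g = ∑ m ∈ idx r K,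
      psi r K m * av Λ (fun f => ind (Av (-1) m f) * (F f - F (H30.flip m f))) g := by
  have e : ∀ f, F f * SS r K f = ∑ m ∈ idx r K, psi r K m * (dr m f * F f) := fun f => by
    rw [SS, mul_sum]
    exact sum_congr rfl fun m _ => by ring
  simp only [e]
  rw [av_sum]
  exact sum_congr rfl fun m hm => by rw [av_smul, av_dr ((tow_idx hm).trans h)]

theorem mean_SS {Λ : Finset (ℤ × ℤ)} {r K : ℕ} (h : box 0 (r + 9 * K) ⊆ Λ) (g : Conf) :
    av Λ (SS r K) g = 0 := by
  simpa [av] using av_SS h (fun _ => 1) g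

theorem cov_ge {Λ : Finset (ℤ × ℤ)} {r K : ℕ} (h : box 0 (r + 9 * K) ⊆ Λ) (hK : 1 ≤ K) (g : Conf)
    (x : ℤ × ℤ) (t : ℤ) (hx : nrm x ≤ r) :
    av Λ (fun f => ind (Av (-1) (true, x, 0) f ∧ f x = t)) g ≤
      av Λ (fun f => ind (t ≤ f x) * SS r K f) g := by
  rw [av_SS h]
  have h0 : ∀ (m : Mv) (f : Conf),
      0 ≤ ind (Av (-1) m f) * (ind (t ≤ f x) - ind (t ≤ H30.flip m f x)) := by
    intro m f
    refine mul_nonneg (ind_mem _).1 (sub_nonneg.2 ?_)
    by_cases h : t ≤ H30.flip m f x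
    · rw [ind_pos h, ind_pos (h.trans (flip_le m f x))]
    · rw [ind_neg h]; exact (ind_mem _).1
  have hm : ((true, x, 0) : Mv) ∈ idx r K := by
    rw [mem_idx]
    simp only [Nat.cast_zero, pt_zero, true_or, Nat.zero_le, and_true, true_and]
    omega
  refine le_trans ?_ (single_le_sum (f := fun m => psi r K m * av Λ
    (fun f => ind (Av (-1) m f) * (ind (t ≤ f x) - ind (t ≤ H30.flip m f x))) g)
    (fun m _ => mul_nonneg (psi_mem r K m).1 (av_nonneg (h0 m) g)) hm)
  rw [psi_one hK (by simp only; omega), one_mul]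
  refine av_le fun f _ => ?_
  by_cases h : Av (-1) (true, x, 0) f ∧ f x = t
  · have e : H30.flip (true, x, 0) f x = f x - 2 := flip_in f (tow_start (true, x, 0))
    rw [ind_pos h, ind_pos h.1, ind_pos h.2.ge, ind_neg (by rw [e, h.2]; omega)]
    simp
  · rw [ind_neg h]
    exact h0 _ f

theorem av_mul {Λ B : Finset (ℤ × ℤ)} (h : B ⊆ Λ) (φ ψ : Conf → ℝ) (g : Conf) :
    av Λ (fun f => av B φ f * ψ f) g = av Λ (fun f => av B φ f * av B ψ f) g := by
  rw [← av_tower h]
  refine av_eq fun f _ => ?_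
  rw [← av_smul]
  exact av_eq fun a ha => by rw [av_congr φ (mem_FS.1 ha).2]

theorem far_err (hN : NullStmt) {Λ : Finset (ℤ × ℤ)} {r K : ℕ} (h : box 0 r ⊆ Λ) (hK : 1 ≤ K)
    (g : Conf) {F : Conf → ℝ} (hb : ∀ f, |F f| ≤ 1) :
    av Λ (fun f => F f * SS r K f) g ≤ av Λ (fun f => av (box 0 r) F f * SS r K f) g +
      4 * ((idx r K).card * av Λ (fun f => ind (Bad r K f)) g) := by
  have e1 : av Λ (fun f => av (box 0 r) F f * SS r K f) g =
      av Λ (fun f => av (box 0 r) (SS r K) f * F f) g := by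
    rw [av_mul h F, av_mul h (SS r K)]
    simp only [mul_comm]
  have e2 : 4 * ((idx r K).card * av Λ (fun f => ind (Bad r K f)) g) = av Λ (fun f =>
      2 * (idx r K).card * (ind (Bad r K f) + av (box 0 r) (fun f => ind (Bad r K f)) f)) g := by
    rw [av_smul, av_add, av_tower h]
    ring
  rw [e1, e2, ← av_add]
  refine av_le fun f hf => ?_
  replace hf := (mem_FS.1 hf).1
  have key : ∀ σ : ℝ, |σ| ≤ 1 → σ * SS r K f ≤ av (box 0 r) (SS r K) f * σ +
      2 * (idx r K).card * (ind (Bad r K f) + av (box 0 r) (fun f => ind (Bad r K f)) f) := by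
    intro σ hσ
    rw [← av_const (box 0 r) (σ * SS r K f) hf, ← av_const (box 0 r) (ind (Bad r K f)) hf, ← av_add,
      ← av_smul, mul_comm _ σ, ← av_smul, ← av_add]
    refine av_le fun a ha => ?_
    have h1 := diff_le (SS_abs r K f) (SS_abs r K a) fun b1 b2 =>
      SS_far hN hK le_rfl hf (mem_FS.1 ha).1 (fun y hy => ((mem_FS.1 ha).2 y hy).symm) b1 b2
    have h2 := (le_abs_self _).trans (abs_mul_le hσ h1)
    linarith
  exact key _ (hb f)

end CovP

theorem cov_row (hN : NullStmt) : CovStmt := by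
  intro Λ g r K x t lam _ hK h hx hl
  refine ((CovP.cov_ge h hK g x t hx).trans (CovP.far_err hN ((box_mono (by omega)).trans h) hK g
    (F := fun f => ind (t ≤ f x)) fun f => ind_abs _)).trans (add_le_add ?_ le_rfl)
  have e := CovP.mean_SS h g
  rw [← add_zero (_ + _), ← mul_zero (av Λ (fun f => ind (t ≤ f x)) g), ← e, div_eq_inv_mul,
    ← av_smul, ← av_smul, ← av_smul, ← av_add, ← av_add]
  refine av_le fun f hf => ?_
  rw [av_congr (g := f) _ (mem_FS.1 hf).2]
  generalize av (box 0 r) (fun f => ind (t ≤ f x)) f = u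
  generalize av Λ (fun f => ind (t ≤ f x)) g = v
  have h1 : 0 ≤ lam * ((u - v) - (2 * lam)⁻¹ * SS r K f) ^ 2 := by positivity
  have h2 : lam * ((u - v) - (2 * lam)⁻¹ * SS r K f) ^ 2 =
      lam * (u - v) ^ 2 + (4 * lam)⁻¹ * SS r K f ^ 2 - (u - v) * SS r K f := by
    field_simp; ring
  linarith

end Pool.Agent.MP_151d89_pr.H58
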