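import Pool.Agent.MP_151d89_pr.H58.Spec

/-!
The energy bound in a finite volume.
-/

set_option autoImplicit false
open MeasureTheory Finset

namespace Pool.Agent.MP_151d89_pr.H58
open Pool.Agent.MP_151d89_pr.H82 Pool.Agent.MP_151d89_pr.H33 Pool.Agent.MP_151d89_pr.H67
  Pool.Agent.MP_151d89_pr.H30
open Classical

namespace EnergyP

theorem thin {s : ℤ} {m : Mv} {f g : Conf} (h : ∀ y' ∈ tow m, ∀ y ∈ box y' 1, f y = g y)
    (hf : Av s m f) : Av s m g := by
  obtain ⟨b, x, l⟩ := m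
  have k0 : ∀ t : ℕ, t ≤ l → ∀ y ∈ box (pt b x t) 1, g y = f y := fun t ht y hy =>
    (h _ (tow_in (b, x, l) ht) y hy).symm
  have k1 : ∀ (t : ℕ) (u : ℤ), t ≤ l → (t : ℤ) - 1 ≤ u → u ≤ t + 1 →
      g (pt b x u) = f (pt b x u) := fun t u ht h1 h2 => by
    refine k0 t ht _ ?_
    cases b <;> simp only [mem_box, pt_true, pt_false] <;> push_cast <;> omega
  have k2 : ∀ t : ℕ, t ≤ l → g (pt b x t + dir (!b)) = f (pt b x t + dir (!b)) ∧
      g (pt b x t - dir (!b)) = f (pt b x t - dir (!b)) := fun t ht => by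
    constructor <;> refine k0 t ht _ ?_ <;> cases b <;>
      simp only [mem_box, pt_true, pt_false, Bool.not_true, Bool.not_false, dir,
        Prod.fst_add, Prod.snd_add, Prod.fst_sub, Prod.snd_sub] <;> push_cast <;> omega
  have k3 : g x = f x := by simpa [pt_zero] using k1 0 0 (Nat.zero_le _) (by omega) (by omega)
  obtain ⟨a1, a2, a3, a4⟩ := hf
  simp only at a1 a2 a3 a4
  refine ⟨fun t ht => ?_, ?_, ?_, fun t ht => ⟨?_, ?_⟩⟩ <;> simp only at *
  · rw [k1 t t ht (by omega) (by omega), k3, a1 t ht]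
  · rw [k1 0 _ (Nat.zero_le _) (by omega) (by omega), k3, a2]
  · rw [k1 l _ le_rfl (by omega) (by omega), k3, a3]
  · rw [(k2 t ht).1, k3, (a4 t ht).1]
  · rw [(k2 t ht).2, k3, (a4 t ht).2]

theorem dr_thin {m : Mv} {f g : Conf} (h : ∀ y' ∈ tow m, ∀ y ∈ box y' 1, f y = g y) :
    dr m f = dr m g := by
  have e : ∀ s, Av s m f ↔ Av s m g := fun s =>
    ⟨thin h, thin fun y' hy' y hy => (h y' hy' y hy).symm⟩
  simp only [dr, e]

theorem near_symm {m n : Mv} (h : Near m n) : Near n m := by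
  obtain ⟨y, hy, y', hy', e⟩ := h
  refine ⟨y', hy', y, hy, ?_⟩
  rw [mem_box] at e ⊢
  omega

theorem far {Λ : Finset (ℤ × ℤ)} {m n : Mv} (hm : tow m ⊆ Λ) (h : ¬ Near m n) (g : Conf) :
    av Λ (fun f => dr m f * dr n f) g = 0 := by
  rw [av_dr hm]
  have e : ∀ f, dr n f = dr n (H30.flip m f) := fun f =>
    dr_thin fun y' hy' y hy => (flip_out f fun hy'' => h ⟨y, hy'', y', hy', hy⟩).symm
  simp only [← e, sub_self, mul_zero, av, sum_const_zero, zero_div]

theorem near_box {m n : Mv} (h : Near m n) : n.2.1 ∈ box m.2.1 (m.2.2 + n.2.2 + 1) := by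
  obtain ⟨y, hy, y', hy', e⟩ := h
  obtain ⟨t, ht, rfl⟩ := mem_tow.1 hy
  obtain ⟨u, hu, rfl⟩ := mem_tow.1 hy'
  have h1 := pt_box0 m.1 m.2.1 ht
  have h2 := pt_box0 n.1 n.2.1 hu
  rw [mem_box] at h1 h2 e ⊢
  push_cast at *
  omega

theorem eps (hN : NullStmt) {Λ : Finset (ℤ × ℤ)} (g : Conf) {r K : ℕ} (hK : 1 ≤ K)
    (hΛ : box 0 (r + 9 * K) ⊆ Λ) {m : Mv} (hm : m ∈ idx r K) :
    psi r K m ^ 2 * av Λ (fun f => dr m f * AA r K f) g ≤
      4 * (idx r K).card * av Λ (fun f => ind (Bad r K f)) g := by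
  have hB : 0 ≤ av Λ (fun f => ind (Bad r K f)) g := av_nonneg (fun f => (ind_mem _).1) g
  have hr : (0 : ℝ) ≤ 4 * (idx r K).card * av Λ (fun f => ind (Bad r K f)) g := by positivity
  by_cases h0 : (r : ℤ) + 4 * K ≤ nrm m.2.1
  · rw [psi_zero h0]; simpa using hr
  have hsub : ∀ y, y ∉ box 0 (r + 5 * K) → y ∉ tow m := by
    intro y hy h
    obtain ⟨t, ht, rfl⟩ := mem_tow.1 h
    rw [mem_idx] at hm
    have h1 := nrm_near (pt_box0 m.1 m.2.1 ht)
    have h2 := nrm_conv m.1 m.2.1 ht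
    rw [mem_box0] at hy
    omega
  have hmΛ : tow m ⊆ Λ := (tow_idx hm).trans hΛ
  have key : av Λ (fun f => dr m f * AA r K f) g ≤
      4 * (idx r K).card * av Λ (fun f => ind (Bad r K f)) g := by
    rw [av_dr hmΛ]
    have h1 : av Λ (fun f => ind (Av (-1) m f) * ind (Bad r K (H30.flip m f))) g ≤
        av Λ (fun f => ind (Bad r K f)) g := by
      rw [av_rev hmΛ (fun f => ind (Bad r K f))]
      exact av_le fun f _ => mul_le_of_le_one_left (ind_mem _).1 (ind_mem _).2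
    calc _ ≤ av Λ (fun f => 2 * (idx r K).card * (ind (Bad r K f) +
          ind (Av (-1) m f) * ind (Bad r K (H30.flip m f)))) g := by
          refine av_le fun f hf => ?_
          have hf := (mem_FS.1 hf).1
          by_cases ha : Av (-1) m f
          · rw [ind_pos ha, one_mul, one_mul]
            exact (le_abs_self _).trans (diff_le (AA_abs _ _ _) (AA_abs _ _ _) fun b1 b2 =>
              hN r K hK f _ hf (hom_flip hf ha) (fun y hy => (flip_out f (hsub y hy)).symm) b1 b2)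
          · rw [ind_neg ha, zero_mul, zero_mul, add_zero]
            have := (ind_mem (Bad r K f)).1
            positivity
      _ ≤ _ := by
          rw [av_smul, av_add]
          have : (0 : ℝ) ≤ (idx r K).card := Nat.cast_nonneg _
          nlinarith
  have h1 := psi_mem r K m
  have h2 : psi r K m ^ 2 ≤ 1 := by nlinarith
  rcases le_total (av Λ (fun f => dr m f * AA r K f) g) 0 with h3 | h3
  · exact (mul_nonpos_of_nonneg_of_nonpos (sq_nonneg _) h3).trans hr
  · exact (mul_le_of_le_one_left h3 h2).trans key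

/-- the bound for one ordered pair -/
noncomputable def wt (K : ℕ) (f : Conf) (m n : Mv) : ℝ :=
  if Near m n ∧ n.2.2 ≤ m.2.2 then (2 * ((m.2.2 : ℝ) + 1) / K) ^ 2 * (|dr m f| * |dr n f|) else 0

theorem wt_nonneg (K : ℕ) (f : Conf) (m n : Mv) : 0 ≤ wt K f m n := by
  unfold wt; split_ifs <;> positivity

theorem pair1 (r K : ℕ) (f : Conf) {m n : Mv} (h : Near m n) (hl : n.2.2 ≤ m.2.2) :
    -((psi r K m - psi r K n) ^ 2 * (dr m f * dr n f)) ≤ wt K f m n := by
  have h1 : |psi r K m - psi r K n| ≤ 2 * ((m.2.2 : ℝ) + 1) / K := by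
    refine (psi_lip (near_box h)).trans (div_le_div_of_nonneg_right ?_ (Nat.cast_nonneg _))
    have : (n.2.2 : ℝ) ≤ m.2.2 := by exact_mod_cast hl
    push_cast
    linarith
  rw [wt, if_pos ⟨h, hl⟩, ← mul_neg, ← abs_mul]
  exact (mul_le_mul_of_nonneg_left (neg_le_abs _) (sq_nonneg _)).trans
    (mul_le_mul_of_nonneg_right (sq_le_sq' (abs_le.1 h1).1 (abs_le.1 h1).2) (abs_nonneg _))

theorem pair {Λ : Finset (ℤ × ℤ)} (g : Conf) (r K : ℕ) {m : Mv} (hm : tow m ⊆ Λ) (n : Mv) :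
    av Λ (fun f => -((psi r K m - psi r K n) ^ 2 * (dr m f * dr n f))) g ≤
      av Λ (fun f => wt K f m n + wt K f n m) g := by
  by_cases h : Near m n
  · refine av_le fun f _ => ?_
    rcases le_total n.2.2 m.2.2 with e | e
    · exact (pair1 r K f h e).trans (le_add_of_nonneg_right (wt_nonneg _ _ _ _))
    · have := pair1 r K f (near_symm h) e
      rw [← neg_sub, neg_sq, mul_comm (dr n f)] at this
      exact this.trans (le_add_of_nonneg_left (wt_nonneg _ _ _ _))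
  · simp only [← neg_mul]
    rw [av_smul, far hm h, mul_zero]
    exact av_nonneg (fun f => add_nonneg (wt_nonneg _ _ _ _) (wt_nonneg _ _ _ _)) g

theorem dr_le2 (m : Mv) (f : Conf) : |dr m f| ≤ ind (Av (-1) m f) + ind (Av 1 m f) := by
  have h1 := ind_mem (Av (-1) m f)
  have h2 := ind_mem (Av 1 m f)
  rw [dr, abs_le]
  constructor <;> linarith

theorem row (h : NearStmt) (I : Finset Mv) (K : ℕ) (f : Conf) (m : Mv) :
    ∑ n ∈ I, wt K f m n ≤ 168 / K ^ 2 * (((m.2.2 : ℝ) + 1) ^ 3 *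
      (ind (Av (-1) m f) + ind (Av 1 m f))) := by
  have h1 := ind_mem (Av (-1) m f)
  have h2 := ind_mem (Av 1 m f)
  by_cases ha : ∃ s, Av s m f
  swap
  · have e : dr m f = 0 := by
      rw [dr, ind_neg fun e => ha ⟨_, e⟩, ind_neg fun e => ha ⟨_, e⟩, sub_self]
    have : ∀ n, wt K f m n = 0 := fun n => by
      rw [wt, e, abs_zero, zero_mul, mul_zero, ite_self]
    simp only [this, sum_const_zero]
    have := add_nonneg h1.1 h2.1
    positivity
  obtain ⟨s, ha⟩ := ha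
  have c : ∀ s' : ℤ, s' = 1 ∨ s' = -1 →
      ∑ n ∈ I, ind (Near m n ∧ n.2.2 ≤ m.2.2 ∧ Av s' n f) ≤ 21 * ((m.2.2 : ℝ) + 1) := by
    intro s' hs'
    have := h I m s s' f hs' ha
    have h3 : ((I.filter fun n => Near m n ∧ n.2.2 ≤ m.2.2 ∧ Av s' n f).card : ℝ) ≤
        ((21 * (m.2.2 + 1) : ℕ) : ℝ) := Nat.cast_le.2 this
    rw [card_filter] at h3
    push_cast at h3
    refine le_trans (le_of_eq (sum_congr rfl fun n _ => ?_)) h3
    unfold ind
    congr
  have hw : (0 : ℝ) ≤ (2 * ((m.2.2 : ℝ) + 1) / K) ^ 2 * |dr m f| := by positivity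
  calc _ ≤ ∑ n ∈ I, (2 * ((m.2.2 : ℝ) + 1) / K) ^ 2 * |dr m f| *
        (ind (Near m n ∧ n.2.2 ≤ m.2.2 ∧ Av (-1) n f) +
          ind (Near m n ∧ n.2.2 ≤ m.2.2 ∧ Av 1 n f)) := by
        refine sum_le_sum fun n _ => ?_
        unfold wt
        split_ifs with e
        · simp only [e.1, e.2, true_and]
          rw [← mul_assoc]
          exact mul_le_mul_of_nonneg_left (dr_le2 n f) hw
        · exact mul_nonneg hw (add_nonneg (ind_mem _).1 (ind_mem _).1)
    _ ≤ (2 * ((m.2.2 : ℝ) + 1) / K) ^ 2 * |dr m f| * (42 * ((m.2.2 : ℝ) + 1)) := by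
        rw [← mul_sum, sum_add_distrib]
        refine mul_le_mul_of_nonneg_left ?_ hw
        linarith [c 1 (Or.inl rfl), c (-1) (Or.inr rfl)]
    _ = 168 / K ^ 2 * (((m.2.2 : ℝ) + 1) ^ 3 * |dr m f|) := by ring
    _ ≤ _ := mul_le_mul_of_nonneg_left (mul_le_mul_of_nonneg_left (dr_le2 m f) (by positivity))
        (by positivity)

end EnergyP

/-- the energy bound -/
theorem energy_row (hN : NullStmt) (h : NearStmt) : EnergyStmt := by
  intro Λ g r K _ hK hΛ
  have e : ∀ f, SS r K f ^ 2 = ∑ m ∈ idx r K, psi r K m ^ 2 * (dr m f * AA r K f) +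
      1 / 2 * ∑ m ∈ idx r K, ∑ n ∈ idx r K, -((psi r K m - psi r K n) ^ 2 * (dr m f * dr n f)) :=
    fun f => alg _ _ _
  simp only [e]
  rw [av_add, av_smul, av_sum, av_sum]
  have h1 : ∑ m ∈ idx r K, av Λ (fun f => psi r K m ^ 2 * (dr m f * AA r K f)) g ≤
      4 * ((idx r K).card ^ 2 * av Λ (fun f => ind (Bad r K f)) g) := by
    refine (sum_le_sum fun m hm => (av_smul _ _ _ _).trans_le (EnergyP.eps hN g hK hΛ hm)).trans ?_
    rw [sum_const, nsmul_eq_mul]
    exact le_of_eq (by ring)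
  have h2 : ∑ m ∈ idx r K, av Λ (fun f => ∑ n ∈ idx r K,
      -((psi r K m - psi r K n) ^ 2 * (dr m f * dr n f))) g ≤
      2 * ∑ m ∈ idx r K, ∑ n ∈ idx r K, av Λ (fun f => EnergyP.wt K f m n) g := by
    refine (sum_le_sum fun m hm => ?_).trans (le_of_eq (b := 2 * _) (a := ∑ m ∈ idx r K,
      ∑ n ∈ idx r K, av Λ (fun f => EnergyP.wt K f m n + EnergyP.wt K f n m) g) ?_)
    · rw [av_sum]
      exact sum_le_sum fun n _ => EnergyP.pair g r K ((tow_idx hm).trans hΛ) n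
    · simp only [av_add, sum_add_distrib]
      rw [sum_comm (f := fun m n => av Λ (fun f => EnergyP.wt K f n m) g), two_mul]
  have h3 : ∑ m ∈ idx r K, ∑ n ∈ idx r K, av Λ (fun f => EnergyP.wt K f m n) g ≤
      168 / K ^ 2 * ∑ m ∈ idx r K, ((m.2.2 : ℝ) + 1) ^ 3 *
        (av Λ (fun f => ind (Av (-1) m f)) g + av Λ (fun f => ind (Av 1 m f)) g) := by
    rw [mul_sum]
    refine sum_le_sum fun m _ => ?_
    rw [← av_sum, ← av_add, ← av_smul, ← av_smul]
    exact av_le fun f _ => EnergyP.row h _ K f m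
  linarith

end Pool.Agent.MP_151d89_pr.H58
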