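import Pool.Agent.MP_151d89_pr.H58.Spec

/-!
Row Fin: the energy in a box in which the function is close to a plane.
-/

set_option autoImplicit false
open MeasureTheory Finset

namespace Pool.Agent.MP_151d89_pr.H58
open Pool.Agent.MP_151d89_pr.H82 Pool.Agent.MP_151d89_pr.H33 Pool.Agent.MP_151d89_pr.H67
  Pool.Agent.MP_151d89_pr.H30
open Classical

namespace FinP

theorem run_band {δ c a : ℝ} {u : ℝ × ℝ} {S : Finset (ℤ × ℤ)} {f : Conf} {b : Bool} {x : ℤ × ℤ}
    {l : ℕ} (hu : Sl δ u) (hb : Band u c a S f) (hx : x ∈ S) (hy : pt b x l ∈ S)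
    (hr : Run b x l f) : δ * l ≤ 2 * a := by
  have h1 := abs_le.1 (hb x hx)
  have h2 := abs_le.1 (hb _ hy)
  rw [hr l le_rfl] at h2
  have h3 := mul_le_mul_of_nonneg_right (abs_le.1 hu.1).2 (Nat.cast_nonneg (α := ℝ) l)
  have h4 := mul_le_mul_of_nonneg_right (abs_le.1 hu.2).2 (Nat.cast_nonneg (α := ℝ) l)
  cases b <;> simp only [pl, pt_true, pt_false] at h1 h2 <;> push_cast at h2 <;> nlinarith

theorem box_sub {r s : ℕ} (h : r ≤ s) : box (0 : ℤ × ℤ) r ⊆ box 0 s := fun y hy => by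
  rw [mem_box0] at hy ⊢
  omega

theorem ind_le {p q : Prop} (h : p → q) : ind p ≤ ind q := by
  by_cases hp : p
  · rw [ind_pos hp, ind_pos (h hp)]
  · rw [ind_neg hp]
    exact (ind_mem q).1

/-- sums over the towers -/
theorem sum_idx (K : ℕ) (F : Mv → ℝ) (hF : ∀ m, 0 ≤ F m) : ∑ m ∈ idx K K, F m ≤
    ∑ b : Bool, ∑ l ∈ range (2 * K + 2 * K + 1), ∑ x ∈ (box 0 (K + 9 * K)).filter
      (fun x => tow (b, x, l) ⊆ box 0 (K + 9 * K)), F (b, x, l) := by
  have h : idx K K ⊆ (univ ×ˢ box 0 (K + 9 * K) ×ˢ range (2 * K + 2 * K + 1)).filter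
      fun m : Mv => tow m ⊆ box 0 (K + 9 * K) :=
    fun m hm => mem_filter.2 ⟨(mem_filter.1 hm).1, tow_idx hm⟩
  refine (sum_le_sum_of_subset_of_nonneg h fun m _ _ => hF m).trans_eq ?_
  rw [sum_filter, sum_product]
  simp only [sum_product_right, sum_filter]

end FinP

open FinP in
theorem fin_row (h1 : ProbStmt) (h2 : MomStmt) (h3 : EnergyStmt) : FinStmt := by
  intro δ hδ
  obtain ⟨p, C, θ, hp, hC, θ0, θ1, hP⟩ := h1 δ hδ
  set lam : ℝ := 2 / (1 + θ) with hlam
  have l1 : 1 < lam := (one_lt_div (by positivity)).2 (by linarith)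
  have r1 : lam * θ < 1 := by
    rw [hlam, div_mul_eq_mul_div, div_lt_one (by positivity)]
    linarith
  obtain ⟨W, hW⟩ := gw_bdd (p := lam * θ) (by positivity) r1
  have W0 : 0 ≤ W := by simpa using hW 0
  have L0 : 0 < Real.log lam := Real.log_pos l1
  set L := Real.log lam with hL
  set A1 := 11 * C * (2 / δ + 1) ^ 3 / L with hA1
  set A2 := 441 * C * lam / L with hA2
  have a1 : 0 ≤ A1 := by positivity
  have a2 : 0 ≤ A2 := by positivity
  have d0 : 0 ≤ 2 / δ := by positivity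
  refine ⟨p, C + 2 / δ + 672 * A1 + 672 * (A2 * W) + 300000000, hp, by positivity, ?_⟩
  intro c a β u K g hu hg ha hK hCK hβ hB
  have K1 : (1 : ℝ) ≤ K := by exact_mod_cast hK
  have aw : 0 ≤ A2 * W := by positivity
  have c1 : C * (a + 1) ≤ K := le_trans (by gcongr; linarith) hCK
  have c2 : 2 / δ * (a + 1) ≤ K := le_trans (by gcongr; linarith) hCK
  have β0 : 0 ≤ β := (av_nonneg (fun f => (ind_mem _).1) g).trans hB
  have hbad : av (box 0 (11 * K)) (fun f => ind (Bad K K f)) g ≤ β := by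
    refine (av_le fun f _ => ind_le ?_).trans hB
    rintro ⟨b, x, hA, hR⟩ hb
    have e0 := (hA 0 (Nat.zero_le _)).2
    have e1 := (hA K le_rfl).2
    rw [Nat.cast_zero, pt_zero] at e0
    have h4 := run_band hu hb (by rw [mem_box0]; omega) (by rw [mem_box0]; omega) hR
    rw [div_mul_eq_mul_div, div_le_iff₀ hδ] at c2
    linarith
  refine ⟨hbad, ?_⟩
  set N := ⌊2 * a / δ⌋₊ + 1 with hN
  have hN1 : (N : ℝ) ≤ (2 / δ + 1) * (a + 1) := by
    have h4 := Nat.floor_le (show 0 ≤ 2 * a / δ by positivity)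
    have h5 : 2 * a / δ = 2 / δ * a := by ring
    rw [hN]
    push_cast
    nlinarith
  have key : ∀ s : ℤ, s = 1 ∨ s = -1 → ∑ m ∈ idx K K, ((m.2.2 : ℝ) + 1) ^ 3 *
      av (box 0 (11 * K)) (fun f => ind (Av s m f)) g ≤
      2 * (A1 * (a + 1) ^ 4 * K + A2 * W * K ^ 2 + 275625 * (K ^ 6 * β)) := by
    intro s hs
    refine (sum_idx K _ fun m => mul_nonneg (by positivity)
      (av_nonneg (fun f => (ind_mem _).1) g)).trans ?_
    have one : ∀ (b : Bool), ∀ l ∈ range (2 * K + 2 * K + 1), ∑ x ∈ (box 0 (K + 9 * K)).filter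
        (fun x => tow (b, x, l) ⊆ box 0 (K + 9 * K)), ((l : ℝ) + 1) ^ 3 *
          av (box 0 (11 * K)) (fun f => ind (Av s (b, x, l) f)) g ≤
        (if l < N then N ^ 2 * (C * (a + 1) * (11 * K)) / L else 0) +
          A2 * K ^ 2 * gw (lam * θ) l + 55125 * (K ^ 5 * β) := by
      intro b l hl
      set Q := (box 0 (K + 9 * K)).filter (fun x => tow (b, x, l) ⊆ box 0 (K + 9 * K)) with hQ
      have hc : (Q.card : ℝ) ≤ 441 * K ^ 2 := by
        have h4 : Q.card ≤ _ := card_filter_le _ _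
        rw [card_box] at h4
        have h5 : (2 * (K + 9 * K) + 1) ^ 2 ≤ (21 * K) ^ 2 := Nat.pow_le_pow_left (by omega) 2
        have h6 : (Q.card : ℝ) ≤ (21 * K) ^ 2 := by exact_mod_cast h4.trans h5
        linarith
      have g0 : 0 ≤ A2 * K ^ 2 * gw (lam * θ) l := by unfold gw; positivity
      rw [← mul_sum]
      split_ifs with hlN
      · have h4 := h2 (box 0 (11 * K)) Q g (fun x f => Av s (b, x, l) f) (C * (a + 1) * (11 * K))
          (C * θ ^ l) (lam ^ (l + 1) - 1) hg (by positivity)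
          (sub_nonneg.2 (one_le_pow₀ l1.le)) fun X hX => by
            have := hP c a u (11 * K) (K + 9 * K) g b s l X hs hu hg ha (by push_cast; linarith)
              (fun x hx => (mem_filter.1 (hX hx)).2) (hB.trans hβ)
            push_cast at this
            exact this
        rw [add_sub_cancel, Real.log_pow, av_sum, ← hL] at h4
        generalize ∑ x ∈ Q, av (box 0 (11 * K)) (fun f => ind (Av s (b, x, l) f)) g = T at h4 ⊢
        have h5 : (Q.card : ℝ) * ((lam ^ (l + 1) - 1) * (C * θ ^ l)) ≤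
            441 * K ^ 2 * (lam ^ (l + 1) * (C * θ ^ l)) := by
          gcongr
          · exact mul_nonneg (sub_nonneg.2 (one_le_pow₀ l1.le)) (by positivity)
          · linarith
        have h6 : ((l : ℝ) + 1) * T ≤ C * (a + 1) * (11 * K) / L + A2 * K ^ 2 * (lam * θ) ^ l := by
          have e : C * (a + 1) * (11 * K) / L + A2 * K ^ 2 * (lam * θ) ^ l =
              (C * (a + 1) * (11 * K) + 441 * K ^ 2 * (lam ^ (l + 1) * (C * θ ^ l))) / L := by
            rw [hA2]
            ring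
          rw [e, le_div_iff₀ L0]
          push_cast at h4
          linarith
        have h7 : (l : ℝ) + 1 ≤ N := by exact_mod_cast hlN
        have h8 : ((l : ℝ) + 1) ^ 2 ≤ (l + 1) ^ 4 :=
          pow_le_pow_right₀ (le_add_of_nonneg_left (Nat.cast_nonneg l)) (by omega)
        calc _ = ((l : ℝ) + 1) ^ 2 * ((l + 1) * T) := by ring
          _ ≤ ((l : ℝ) + 1) ^ 2 * (C * (a + 1) * (11 * K) / L + A2 * K ^ 2 * (lam * θ) ^ l) := by
            gcongr
          _ = ((l : ℝ) + 1) ^ 2 * (C * (a + 1) * (11 * K) / L) +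
              (l + 1) ^ 2 * (A2 * K ^ 2 * (lam * θ) ^ l) := by ring
          _ ≤ (N : ℝ) ^ 2 * (C * (a + 1) * (11 * K) / L) +
              (l + 1) ^ 4 * (A2 * K ^ 2 * (lam * θ) ^ l) := by gcongr
          _ = N ^ 2 * (C * (a + 1) * (11 * K)) / L + A2 * K ^ 2 * gw (lam * θ) l := by
            unfold gw
            ring
          _ ≤ _ := le_add_of_nonneg_right (by positivity)
      · have h4 : 2 * a < δ * l := by
          have h5 := Nat.lt_floor_add_one (2 * a / δ)
          have h6 : ((⌊2 * a / δ⌋₊ + 1 : ℕ) : ℝ) ≤ l := by exact_mod_cast not_lt.1 hlN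
          push_cast at h6
          rw [mul_comm δ, ← div_lt_iff₀ hδ]
          linarith
        have h5 : ∑ x ∈ Q, av (box 0 (11 * K)) (fun f => ind (Av s (b, x, l) f)) g ≤
            441 * K ^ 2 * β := by
          refine (sum_le_sum (g := fun _ => β) fun x hx => ?_).trans ?_
          · refine (av_le fun f _ => ind_le fun hA hb => ?_).trans hB
            have h6 := ((mem_filter.1 hx).2.trans (box_sub (by omega : _ ≤ 11 * K + 1)))
            exact absurd (run_band hu hb (h6 (tow_start _)) (h6 (tow_in (b, x, l) le_rfl)) hA.1)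
              (not_le.2 h4)
          · rw [sum_const, nsmul_eq_mul]
            gcongr
        have h6 : (l : ℝ) + 1 ≤ 5 * K := by
          have := mem_range.1 hl
          exact_mod_cast (by omega : l + 1 ≤ 5 * K)
        calc _ ≤ (5 * (K : ℝ)) ^ 3 * (441 * K ^ 2 * β) := by
              gcongr
              exact sum_nonneg fun x _ => av_nonneg (fun f => (ind_mem _).1) g
          _ ≤ _ := by linarith
    refine (sum_le_sum fun b _ => sum_le_sum (one b)).trans ?_
    rw [sum_const, card_univ, Fintype.card_bool, nsmul_eq_mul, sum_add_distrib, sum_add_distrib,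
      ← mul_sum, ← sum_filter, sum_const, sum_const, card_range, nsmul_eq_mul, nsmul_eq_mul]
    have h4 : (((range (2 * K + 2 * K + 1)).filter fun l => l < N).card : ℝ) ≤ N := by
      have := card_le_card (s := (range (2 * K + 2 * K + 1)).filter fun l => l < N) (t := range N)
        fun l hl => mem_range.2 (mem_filter.1 hl).2
      rw [card_range] at this
      exact_mod_cast this
    have h5 : ((2 * K + 2 * K + 1 : ℕ) : ℝ) ≤ 5 * K := by
      exact_mod_cast (by omega : 2 * K + 2 * K + 1 ≤ 5 * K)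
    have h6 := hW (2 * K + 2 * K + 1)
    calc _ ≤ ((2 : ℕ) : ℝ) * (((2 / δ + 1) * (a + 1)) * (((2 / δ + 1) * (a + 1)) ^ 2 *
          (C * (a + 1) * (11 * K)) / L) + A2 * K ^ 2 * W + 5 * K * (55125 * (K ^ 5 * β))) := by
          gcongr
          exact h4.trans hN1
      _ = _ := by
          rw [hA1]
          push_cast
          ring
  have h4 := h3 (box 0 (11 * K)) g K K hg hK (box_sub (by omega))
  simp only [mul_add, sum_add_distrib] at h4
  have h5 : ((idx K K).card : ℝ) ^ 2 * av (box 0 (11 * K)) (fun f => ind (Bad K K f)) g ≤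
      (4410 * K ^ 3) ^ 2 * β := by
    gcongr
    · exact av_nonneg (fun f => (ind_mem _).1) g
    · refine (card_idx K K).trans ?_
      calc _ ≤ 2 * ((21 * (K : ℝ)) ^ 2 * (5 * K)) := by gcongr <;> linarith
        _ = _ := by ring
  have h6 : (0 : ℝ) ≤ 168 / K ^ 2 := by positivity
  have h7 := mul_le_mul_of_nonneg_left (key 1 (Or.inl rfl)) h6
  have h8 := mul_le_mul_of_nonneg_left (key (-1) (Or.inr rfl)) h6
  have h9 : 168 / (K : ℝ) ^ 2 * (2 * (A1 * (a + 1) ^ 4 * K + A2 * W * K ^ 2 + 275625 * (K ^ 6 * β)))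
      = 336 * (A1 * ((a + 1) ^ 4 / K) + A2 * W + 275625 * (K ^ 4 * β)) := by
    field_simp
    ring
  have h10 : (K : ℝ) ^ 4 * β ≤ K ^ 6 * β :=
    mul_le_mul_of_nonneg_right (pow_le_pow_right₀ K1 (by omega)) β0
  have h11 : (4410 * (K : ℝ) ^ 3) ^ 2 * β = 19448100 * (K ^ 6 * β) := by ring
  have x0 : 0 ≤ (a + 1) ^ 4 / (K : ℝ) := by positivity
  have y0 : 0 ≤ (K : ℝ) ^ 6 * β := by positivity
  rw [h9] at h7 h8
  generalize (a + 1) ^ 4 / (K : ℝ) = X at *
  generalize (K : ℝ) ^ 6 * β = Y at *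
  generalize A2 * W = B at *
  nlinarith [mul_nonneg hC x0, mul_nonneg hC y0, mul_nonneg d0 x0, mul_nonneg d0 y0,
    mul_nonneg a1 y0, mul_nonneg aw x0, mul_nonneg aw y0]

end Pool.Agent.MP_151d89_pr.H58
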