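import Pool.Agent.MP_151d89_pr.H58.Spec

/-!
From finite volumes to Gibbs measures.
-/

set_option autoImplicit false
open MeasureTheory Finset Filter Topology

namespace Pool.Agent.MP_151d89_pr.H58
open Pool.Agent.MP_151d89_pr.H82 Pool.Agent.MP_151d89_pr.H33 Pool.Agent.MP_151d89_pr.H67
  Pool.Agent.MP_151d89_pr.H30
open Classical

/-- f is close to some plane on the box of radius n -/
def Gd (δ a : ℝ) (n : ℕ) (f : Conf) : Prop := ∃ u c, Sl δ u ∧ Band u c a (box 0 n) f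

namespace FinalP

theorem meas_Gd (δ a : ℝ) (n : ℕ) : MeasurableSet {f | Gd δ a n f} := by
  let π : Conf → (↥(box 0 n) → ℤ) := fun f x => f x
  have hπ : Measurable π := measurable_pi_lambda _ fun x => measurable_pi_apply _
  have : {f | Gd δ a n f} = π ⁻¹' (π '' {f | Gd δ a n f}) := by
    refine (Set.subset_preimage_image _ _).antisymm ?_
    rintro f ⟨g, ⟨u, c, h1, h2⟩, e⟩
    exact ⟨u, c, h1, fun y hy => by
      rw [← show g y = f y from congrFun e ⟨y, hy⟩]; exact h2 y hy⟩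
  rw [this]
  exact hπ (Set.to_countable _).measurableSet

theorem plane {u u' : ℝ × ℝ} {c c' a : ℝ} {n : ℕ} {f f' : Conf}
    (h : Band u c a (box 0 (n + 1)) f) (h' : Band u' c' a (box 0 (n + 1)) f')
    (e : ∀ y, y ∉ box 0 n → f y = f' y) : Band u' c' (7 * a) (box 0 (n + 1)) f := by
  have k : ∀ s t : ℤ, |s| = n + 1 → |t| = n + 1 →
      |(u.1 - u'.1) * s + (u.2 - u'.2) * t + (c - c')| ≤ 2 * a := fun s t hs ht => by
    have m : (s, t) ∈ box 0 (n + 1) := by rw [mem_box0, nrm, hs, ht]; simp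
    have h1 := abs_le.1 (h _ m)
    have h2 := abs_le.1 (h' _ m)
    rw [← e _ (by rw [mem_box0, nrm, hs, ht]; simp)] at h2
    simp only [pl] at h1 h2
    rw [abs_le]
    constructor <;> linarith
  have p : |(n + 1 : ℤ)| = n + 1 := abs_of_nonneg (by omega)
  have q : |(-(n + 1) : ℤ)| = n + 1 := by rw [abs_neg, p]
  have k1 := abs_le.1 (k _ _ p p)
  have k2 := abs_le.1 (k _ _ p q)
  have k3 := abs_le.1 (k _ _ q p)
  have k4 := abs_le.1 (k _ _ q q)
  push_cast at k1 k2 k3 k4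
  have w : ∀ (A : ℝ) (s : ℤ), |s| ≤ n + 1 → -(2 * a) ≤ A * (n + 1) → A * (n + 1) ≤ 2 * a →
      |A * s| ≤ 2 * a := fun A s hs h1 h2 => by
    have h3 : |(s : ℝ)| ≤ n + 1 := by exact_mod_cast hs
    refine le_trans ?_ (abs_le.2 ⟨h1, h2⟩)
    rw [abs_mul, abs_mul, abs_of_nonneg (a := (n + 1 : ℝ)) (by positivity)]
    gcongr
  intro y hy
  have h1 := abs_le.1 (h y hy)
  rw [mem_box0, nrm, max_le_iff] at hy
  have h2 := abs_le.1 (w (u.1 - u'.1) y.1 hy.1 (by linarith) (by linarith))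
  have h3 := abs_le.1 (w (u.2 - u'.2) y.2 hy.2 (by linarith) (by linarith))
  simp only [pl] at h1 ⊢
  rw [abs_le]
  constructor <;> linarith

/-- from a positive chance to be close to a plane to a large chance -/
theorem boost (hT : TailStmt) {δ a ε : ℝ} {n : ℕ} (j : ℕ) {g : Conf} (hg : Hom g) (ha : 0 ≤ a)
    (hε : 0 < ε) (h : ε ≤ av (box 0 n) (fun f => ind (Gd δ a (n + 1) f)) g) :
    ∃ u c, Sl δ u ∧ av (box 0 n) (fun f => ind (¬ Band u c ((2 * j + 1) * (7 * a + 2))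
      (box 0 (n + 1)) f)) g ≤ (2 * (n + 1) + 1) ^ 2 * (2 * (1 - ε) ^ j) := by
  obtain ⟨f₀, m₀, u, c, h1, h2⟩ : ∃ f₀ ∈ FS (box 0 n) g, Gd δ a (n + 1) f₀ := by
    by_contra e
    rw [av_eq (ψ := fun _ => 0) fun f hf => ind_neg fun e' => e ⟨f, hf, e'⟩, av_const _ _ hg] at h
    linarith
  refine ⟨u, c, h1, (av_le (ψ := fun f => ∑ y ∈ box 0 (n + 1),
    ind ((2 * j + 1) * (7 * a + 2) < |(f y : ℝ) - pl u c y|)) fun f _ => ?_).trans ?_⟩
  · by_cases e : Band u c ((2 * j + 1) * (7 * a + 2)) (box 0 (n + 1)) f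
    · rw [ind_neg (not_not.2 e)]
      exact sum_nonneg fun _ _ => (ind_mem _).1
    · rw [ind_pos e]
      simp only [Band, not_forall, not_le] at e
      obtain ⟨y, hy, e⟩ := e
      exact (ind_pos e).ge.trans (single_le_sum (f := fun y => ind ((2 * j + 1) * (7 * a + 2) <
        |(f y : ℝ) - pl u c y|)) (fun _ _ => (ind_mem _).1) hy)
  · rw [av_sum]
    refine (sum_le_card_nsmul _ _ _ fun y hy => hT _ g y _ (7 * a) ε j hg (by linarith) hε
      (h.trans (av_le fun f hf => ?_))).trans (by rw [card_box, nsmul_eq_mul]; push_cast; rfl)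
    by_cases e : Gd δ a (n + 1) f
    · obtain ⟨u', c', -, e'⟩ := id e
      rw [ind_pos e, ind_pos (plane e' h2 (fun z hz =>
        ((mem_FS.1 hf).2 z hz).trans ((mem_FS.1 m₀).2 z hz).symm) y hy)]
    · rw [ind_neg e]; exact (ind_mem _).1

theorem int_out {μ : Measure Conf} (hμ : Gibbs μ) (Λ : Finset (ℤ × ℤ)) {p q : Conf → Prop}
    (hp : MeasurableSet {f | p f}) (hq : MeasurableSet {f | q f})
    (h : ∀ f g : Conf, (∀ x, x ∉ Λ → f x = g x) → (q f ↔ q g)) {η : ℝ}
    (hη : ∀ f, q f → av Λ (fun f => ind (p f)) f ≤ η) :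
    μ.real {f | p f ∧ q f} ≤ η * μ.real {f | q f} := by
  have := hμ.1
  have m : MeasurableSet {f | p f ∧ q f} := hp.inter hq
  rw [← int_ind μ m, ← int_ind μ hq, ← integral_const_mul,
    ← int_av hμ Λ (meas_ind m) fun f => ind_abs _]
  refine integral_mono (intg (meas_av _ (meas_ind m)) (av_abs fun f => ind_abs _))
    ((intg (meas_ind hq) fun f => ind_abs _).const_mul _) fun f => ?_
  by_cases e : q f
  · simp only [ind_pos e, mul_one]
    refine (av_eq fun a ha => ?_).trans_le (hη f e)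
    simp only [(h a f (mem_FS.1 ha).2).2 e, and_true]
  · simp only [ind_neg e, mul_zero]
    exact (av_eq (ψ := fun _ => 0) fun a ha => ind_neg fun e' =>
      e ((h a f (mem_FS.1 ha).2).1 e'.2)).trans_le (by simp [av])

/-- the maximal inequality for backward martingales -/
theorem maxi {μ : Measure Conf} (hμ : Gibbs μ) {n : ℕ → ℕ} (hn : Monotone n) {p : Conf → Prop}
    (hp : MeasurableSet {f | p f}) {η : ℝ} (hη : 0 ≤ η) :
    μ {f | p f ∧ ∃ k, av (box 0 (n k)) (fun f => ind (p f)) f ≤ η} ≤ ENNReal.ofReal η := by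
  have := hμ.1
  set P : ℕ → Conf → Prop := fun k f => av (box 0 (n k)) (fun f => ind (p f)) f ≤ η with hP
  have mP : ∀ k, Measurable (P k) := fun k => measurableSet_setOfPred.1
    (measurableSet_le (meas_av _ (meas_ind hp)) measurable_const)
  have mB : ∀ m N, MeasurableSet {f | ∃ k, m ≤ k ∧ k < N ∧ P k f} := fun m N =>
    measurableSet_setOfPred.2 (Measurable.exists fun k =>
      measurable_const.and (measurable_const.and (mP k)))
  have key : ∀ N d m, m + d = N → μ.real {f | p f ∧ ∃ k, m ≤ k ∧ k < N ∧ P k f} ≤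
      η * μ.real {f | ∃ k, m ≤ k ∧ k < N ∧ P k f} := by
    intro N d
    induction d with
    | zero =>
      intro m hm
      rw [show {f | p f ∧ ∃ k, m ≤ k ∧ k < N ∧ P k f} = ∅ from
        Set.eq_empty_of_forall_notMem fun f ⟨_, k, h1, h2, _⟩ => by omega, measureReal_empty]
      positivity
    | succ d ih =>
      intro m hm
      have mC : MeasurableSet {f | P m f ∧ ¬ ∃ k, m + 1 ≤ k ∧ k < N ∧ P k f} :=
        (measurableSet_setOfPred.2 (mP m)).inter (mB _ _).compl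
      have h1 := int_out hμ (box 0 (n m)) hp mC (η := η) (fun f g e => by
        have : ∀ k, m ≤ k → (P k f ↔ P k g) := fun k hk => by
          simp only [hP, av_congr _ fun x hx => e x fun h => hx (box_mono (hn hk) h)]
        exact and_congr (this m le_rfl) (not_congr (exists_congr fun k => and_congr_right
          fun hk => and_congr_right fun _ => this k (by omega)))) fun f e => e.1
      have e : {f | ∃ k, m ≤ k ∧ k < N ∧ P k f} = {f | ∃ k, m + 1 ≤ k ∧ k < N ∧ P k f} ∪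
          {f | P m f ∧ ¬ ∃ k, m + 1 ≤ k ∧ k < N ∧ P k f} := by
        ext f
        refine ⟨fun ⟨k, h1, h2, h3⟩ => or_iff_not_imp_left.2 fun e => ⟨?_, e⟩, ?_⟩
        · obtain rfl : k = m := by_contra fun e' => e ⟨k, by omega, h2, h3⟩
          exact h3
        · rintro (⟨k, h1, h2⟩ | h)
          exacts [⟨k, by omega, h2⟩, ⟨m, le_rfl, by omega, h.1⟩]
      rw [e, measureReal_union (μ := μ) (s₁ := {f | ∃ k, m + 1 ≤ k ∧ k < N ∧ P k f})
        (Set.disjoint_left.2 fun f h h' => h'.2 h) mC, mul_add]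
      refine le_trans (measureReal_mono fun f hf => ?_)
        ((measureReal_union_le _ _).trans (add_le_add (ih (m + 1) (by omega)) h1))
      exact (and_or_left.1 ⟨hf.1, (Set.ext_iff.1 e f).1 hf.2⟩ :)
  have e : {f | p f ∧ ∃ k, P k f} = ⋃ N, {f | p f ∧ ∃ k, 0 ≤ k ∧ k < N ∧ P k f} := by
    ext f
    simp only [Set.mem_iUnion, Set.mem_ofPred_eq]
    exact ⟨fun ⟨h, k, h'⟩ => ⟨k + 1, h, k, by omega, by omega, h'⟩,
      fun ⟨_, h, k, _, _, h'⟩ => ⟨h, k, h'⟩⟩
  rw [e, Monotone.measure_iUnion (s := fun N => {f | p f ∧ ∃ k, 0 ≤ k ∧ k < N ∧ P k f})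
    fun N N' h f ⟨h1, k, h2, h3, h4⟩ => ⟨h1, k, h2, h3.trans_le h, h4⟩]
  refine iSup_le fun N => ?_
  rw [← ofReal_measureReal]
  exact ENNReal.ofReal_le_ofReal ((key N N 0 (zero_add _)).trans
    (mul_le_of_le_one_right hη measureReal_le_one))

theorem bc {μ : Measure Conf} [IsFiniteMeasure μ] {s : ℕ → Set Conf} {b : ℕ → ℝ}
    (h : ∀ k, μ.real (s k) ≤ b k) (hb : Summable b) : ∀ᵐ f ∂μ, ∀ᶠ k in atTop, f ∉ s k := by
  refine ae_eventually_notMem (ne_top_of_le_ne_top (ENNReal.ofReal_ne_top (r := ∑' k, b k)) ?_)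
  rw [ENNReal.ofReal_tsum_of_nonneg (fun k => measureReal_nonneg.trans (h k)) hb]
  exact ENNReal.tsum_le_tsum fun k => by
    rw [← ofReal_measureReal]; exact ENNReal.ofReal_le_ofReal (h k)

/-- the conditional variances of a backward martingale tend to zero -/
theorem var0 {μ : Measure Conf} (hμ : Gibbs μ) {n : ℕ → ℕ} (hn : Monotone n) {F : Conf → ℝ}
    (hF : Measurable F) (hb : ∀ f, |F f| ≤ 1) {η : ℝ} (hη : 0 < η) : ∀ᵐ f ∂μ, ∀ᶠ k in atTop,
      av (box 0 (n (k + 1))) (fun f => (av (box 0 (n k)) F f - av (box 0 (n (k + 1))) F f) ^ 2) f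
        < η := by
  have := hμ.1
  have m := fun k => meas_av (box 0 (n k)) hF
  have b := fun k => av_abs (Λ := box 0 (n k)) hb
  have m2 : ∀ k, Measurable fun f => (av (box 0 (n k)) F f - av (box 0 (n (k + 1))) F f) ^ 2 :=
    fun k => ((m k).sub (m (k + 1))).pow_const 2
  have b2 : ∀ k f, |(av (box 0 (n k)) F f - av (box 0 (n (k + 1))) F f) ^ 2| ≤ (1 + 1) ^ 2 :=
    fun k f => by
      rw [abs_pow]
      exact pow_le_pow_left₀ (abs_nonneg _) ((abs_sub _ _).trans (add_le_add (b _ _) (b _ _))) 2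
  have i : ∀ k l, Integrable (fun f => av (box 0 (n k)) F f * av (box 0 (n l)) F f) μ :=
    fun k l => intg ((m k).mul (m l)) fun f => abs_mul_le (b k f) (b l f)
  set s : ℕ → ℝ := fun k => ∫ f, av (box 0 (n k)) F f * av (box 0 (n k)) F f ∂μ with hs
  have e : ∀ k, ∫ f, (av (box 0 (n k)) F f - av (box 0 (n (k + 1))) F f) ^ 2 ∂μ =
      s k - s (k + 1) := fun k => by
    have e1 := int_av_mul hμ (box 0 (n (k + 1))) hF (m k) hb (b k)
    simp only [av_tower (box_mono (hn k.le_succ))] at e1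
    have e2 : ∀ x y : ℝ, (x - y) ^ 2 = x * x - y * x - (y * x - y * y) := fun x y => by ring
    simp only [e2]
    refine (integral_sub ((i _ _).sub (i _ _)) ((i _ _).sub (i _ _))).trans ?_
    simp only [Pi.sub_apply]
    rw [integral_sub (i _ _) (i _ _), integral_sub (i _ _) (i _ _), e1, sub_self, sub_zero]
  refine (bc (s := fun k => {f | η ≤ av (box 0 (n (k + 1))) (fun f => (av (box 0 (n k)) F f -
    av (box 0 (n (k + 1))) F f) ^ 2) f}) (b := fun k => η⁻¹ * (s k - s (k + 1))) (fun k => ?_)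
    (Summable.mul_left _ (summable_of_sum_range_le (c := s 0) (fun k => ?_) fun N => ?_))).mono
    fun f hf => hf.mono fun k hk => not_le.1 hk
  · rw [le_inv_mul_iff₀ hη, ← e, ← int_av hμ (box 0 (n (k + 1))) (m2 k) (b2 k)]
    exact mul_meas_ge_le_integral_of_nonneg (ae_of_all _ (av_nonneg fun _ => sq_nonneg _))
      (intg (meas_av _ (m2 k)) (av_abs (b2 k))) η
  · rw [← e]; exact integral_nonneg fun _ => sq_nonneg _
  · rw [sum_range_sub']
    exact sub_le_self _ (integral_nonneg fun _ => mul_self_nonneg _)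

theorem climb {f : Conf} (hf : Hom f) (h : ∀ x, ¬ Av (-1) (true, x, 0) f) (n : ℕ) :
    ∃ y : ℤ × ℤ, |y.1| + |y.2| ≤ n ∧ f y = f 0 + n := by
  induction n with
  | zero => exact ⟨0, by simp, by simp⟩
  | succ n ih =>
    obtain ⟨y, h1, h2⟩ := ih
    by_contra e
    have k : ∀ z : ℤ × ℤ, |y.1 - z.1| + |y.2 - z.2| = 1 → f z = f y + -1 := fun z hz => by
      have h3 := hf y z hz
      have h4 : f z ≠ f 0 + (n + 1 : ℕ) := fun e' => e ⟨z, by
        simp only [Int.abs_eq_natAbs] at h1 hz ⊢; omega, e'⟩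
      rw [abs_eq (by norm_num)] at h3
      omega
    refine h y ⟨fun t ht => ?_, k _ (by simp [pt_true]), ?_, fun t ht => ?_⟩
    · obtain rfl := Nat.le_zero.1 ht
      simp [pt_zero]
    · simpa using k (pt true y 1) (by simp [pt_true])
    · obtain rfl := Nat.le_zero.1 ht
      simpa [pt_zero] using And.intro (k (y + dir false) (by simp [dir]))
        (k (y - dir false) (by simp [dir]))

theorem climb_le {f : Conf} (hf : Hom f) (h : ∀ x, ¬ Av (-1) (true, x, 0) f) {δ a : ℝ} {n : ℕ}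
    (hG : Gd δ a n f) : δ * n ≤ 2 * a := by
  obtain ⟨u, c, h1, h2⟩ := hG
  obtain ⟨y, h3, h4⟩ := climb hf h n
  have h5 := abs_le.1 (h2 y (by
    rw [mem_box0, nrm]; simp only [Int.abs_eq_natAbs] at h3 ⊢; omega))
  have h6 := abs_le.1 (h2 0 (by rw [mem_box0, nrm]; simp))
  have h7 : |(y.1 : ℝ)| + |(y.2 : ℝ)| ≤ n := by exact_mod_cast h3
  have h8 := (le_abs_self _).trans (abs_mul_le h1.1 (le_refl |(y.1 : ℝ)|))
  have h9 := (le_abs_self _).trans (abs_mul_le h1.2 (le_refl |(y.2 : ℝ)|))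
  have h10 := mul_le_mul_of_nonneg_left h7 ((abs_nonneg _).trans h1.1)
  rw [h4] at h5
  simp only [pl, Prod.fst_zero, Prod.snd_zero] at h5 h6
  push_cast at h5 h6
  linarith

/-- the width of the band at scale k -/
noncomputable def am (α : ℝ) (k : ℕ) : ℝ := ((11 : ℝ) ^ (k + 2) + 1) ^ α

/-- the enlarged width -/
noncomputable def am' (α : ℝ) (k : ℕ) : ℝ :=
  (2 * (90 * (k + 1) ^ 3 : ℕ) + 1) * (7 * am α k + 2)

theorem am_one {α : ℝ} (h : 0 ≤ α) (k : ℕ) : 1 ≤ am α k :=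
  Real.one_le_rpow (le_add_of_nonneg_left (by positivity)) h

theorem am_le {α : ℝ} (h : 0 ≤ α) (k : ℕ) : am α k + 1 ≤ am' α k + 1 ∧ 1 ≤ am' α k + 1 := by
  have := am_one h k
  have h1 : 1 * (7 * am α k + 2) ≤ am' α k :=
    mul_le_mul_of_nonneg_right (le_add_of_nonneg_left (by positivity)) (by linarith)
  constructor <;> linarith

theorem small {α : ℝ} (h0 : 0 ≤ α) (h1 : α < 1 / 4) (C : ℝ) :
    ∀ᶠ k : ℕ in atTop, C * (am' α k + 1) ^ 4 ≤ 11 ^ k := by
  set θ : ℝ := 11 ^ (4 * α - 1) with hθ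
  have t0 : 0 < θ := by positivity
  have t1 : θ < 1 := Real.rpow_lt_one_of_one_lt_of_neg (by norm_num) (by linarith)
  have h2 := ((tendsto_pow_const_mul_const_pow_of_abs_lt_one 12 (by rwa [abs_of_pos t0])).comp
    (tendsto_add_atTop_nat 1)).const_mul (|C| * (1810 * 122) ^ 4 / θ)
  rw [mul_zero] at h2
  filter_upwards [h2.eventually (gt_mem_nhds one_pos)] with k hk
  have p : (1 : ℝ) ≤ 11 ^ k := one_le_pow₀ (by norm_num)
  have h3 : am α k ≤ 122 * ((11 : ℝ) ^ α) ^ k := by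
    calc am α k ≤ (122 * 11 ^ k) ^ α :=
          Real.rpow_le_rpow (by positivity) (by rw [pow_add]; linarith) h0
      _ = 122 ^ α * ((11 : ℝ) ^ α) ^ k := by
          rw [Real.mul_rpow (by norm_num) (by positivity), ← Real.rpow_natCast,
            ← Real.rpow_mul (by norm_num), mul_comm (k : ℝ), Real.rpow_mul_natCast (by norm_num)]
      _ ≤ _ := by
          gcongr
          simpa using Real.rpow_le_rpow_of_exponent_le (x := 122) (y := α) (z := 1)
            (by norm_num) (by linarith)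
  have h4 : am' α k + 1 ≤ 1810 * ((k : ℝ) + 1) ^ 3 * am α k := by
    have := am_one h0 k
    have q : (1 : ℝ) ≤ ((k : ℝ) + 1) ^ 3 := one_le_pow₀ (by linarith [(k.cast_nonneg : (0 : ℝ) ≤ k)])
    unfold am'
    push_cast
    nlinarith
  have h5 : (((11 : ℝ) ^ α) ^ k) ^ 4 = θ ^ k * 11 ^ k := by
    rw [← mul_pow, ← pow_mul, mul_comm k, pow_mul, ← Real.rpow_mul_natCast (by norm_num), hθ,
      ← Real.rpow_add_one (by norm_num)]
    congr 2
    push_cast
    ring
  calc C * (am' α k + 1) ^ 4 ≤ |C| * (1810 * ((k : ℝ) + 1) ^ 3 * (122 * ((11 : ℝ) ^ α) ^ k)) ^ 4 := by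
        have := (am_le h0 k).2
        refine mul_le_mul (le_abs_self _) (pow_le_pow_left₀ (by linarith) (h4.trans ?_) 4)
          (by positivity) (abs_nonneg _)
        gcongr
    _ = |C| * (1810 * 122) ^ 4 / θ * (((k + 1 : ℕ) : ℝ) ^ 12 * θ ^ (k + 1)) * 11 ^ k := by
        rw [mul_pow, mul_pow _ (_ ^ k), h5]
        push_cast
        field_simp
        ring
    _ ≤ _ := mul_le_of_le_one_left (by positivity) hk.le

theorem tiny (k : ℕ) : (1 - 1 / ((k : ℝ) + 1) ^ 2) ^ (90 * (k + 1) ^ 3) ≤ 1 / (11 ^ k) ^ 9 := by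
  have q : (1 : ℝ) ≤ ((k : ℝ) + 1) ^ 2 := one_le_pow₀ (by linarith [(k.cast_nonneg : (0 : ℝ) ≤ k)])
  have h1 : (11 : ℝ) ≤ Real.exp 10 := by linarith [Real.add_one_le_exp 10]
  calc _ ≤ Real.exp (-(1 / ((k : ℝ) + 1) ^ 2)) ^ (90 * (k + 1) ^ 3) :=
        pow_le_pow_left₀ (sub_nonneg.2 ((div_le_one (by linarith)).2 q))
          (Real.one_sub_le_exp_neg _) _
    _ = 1 / (Real.exp 10 ^ (k + 1)) ^ 9 := by
        rw [← Real.exp_nat_mul, ← Real.exp_nat_mul, ← Real.exp_nat_mul, one_div (Real.exp _),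
          ← Real.exp_neg]
        congr 1
        push_cast
        field_simp
        norm_num
    _ ≤ _ := by
        gcongr
        exact (pow_le_pow_left₀ (by norm_num) h1 k).trans
          (pow_le_pow_right₀ (by linarith) k.le_succ)

end FinalP

open FinalP in
theorem final (hT : TailStmt) (hC : CovStmt) (hF : FinStmt) {μ : Measure Conf} (hμ : Gibbs μ)
    {α δ : ℝ} (h0 : 0 ≤ α) (h1 : α < 1 / 4) (hδ : 0 < δ) :
    ∀ᵐ f ∂μ, ∀ᶠ k : ℕ in atTop, ¬ Gd δ (am α k) (11 * 11 ^ k + 1) f := by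
  have := hμ.1
  obtain ⟨p, C, p0, C0, H⟩ := hF δ hδ
  have hn : Monotone fun k : ℕ => 11 ^ k := fun _ _ => Nat.pow_le_pow_right (by norm_num)
  have big : ∀ D : ℝ, ∀ᶠ k : ℕ in atTop, D ≤ 11 ^ k := fun D =>
    (tendsto_pow_atTop_atTop_of_one_lt (by norm_num)).eventually_ge_atTop D
  have e1 : ∀ᵐ f ∂μ, ∀ᶠ k : ℕ in atTop, ¬ (Gd δ (am α k) (11 * 11 ^ k + 1) f ∧ av (box 0 (11 * 11 ^ k))
      (fun f => ind (Gd δ (am α k) (11 * 11 ^ k + 1) f)) f ≤ 1 / ((k : ℝ) + 1) ^ 2) := by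
    refine bc (b := fun k => 1 / ((k : ℝ) + 1) ^ 2) (fun k => (int_out hμ _ (meas_Gd _ _ _)
      (measurableSet_le (meas_av _ (meas_ind (meas_Gd _ _ _))) measurable_const)
      (fun f g e => by rw [av_congr _ e]) fun f e => e).trans
      (mul_le_of_le_one_right (by positivity) measureReal_le_one)) ?_
    exact_mod_cast (summable_nat_add_iff 1).2 (Real.summable_one_div_nat_pow.2 one_lt_two)
  have e2 : ∀ (x : ℤ × ℤ) (t : ℤ), μ {f | (Av (-1) (true, x, 0) f ∧ f x = t) ∧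
      ∃ᶠ k : ℕ in atTop, Gd δ (am α k) (11 * 11 ^ k + 1) f} = 0 := fun x t => by
    refine le_antisymm (ENNReal.le_of_forall_pos_le_add fun η hη _ => ?_) zero_le
    have mA : MeasurableSet {f : Conf | Av (-1) (true, x, 0) f ∧ f x = t} :=
      (meas_Av _ _).inter (measurableSet_eq_fun (measurable_pi_apply x) measurable_const)
    have η0 : (0 : ℝ) < η := hη
    rw [zero_add, ← ENNReal.ofReal_coe_nnreal]
    refine le_trans (measure_mono_ae ?_) (maxi hμ (n := fun k => 11 ^ (k + 1))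
      (fun _ _ h => hn (Nat.succ_le_succ h)) mA η0.le)
    set E := C * 1252 + 1 with hE
    have E0 : 0 < E := by positivity
    filter_upwards [hμ.2.1, e1, var0 hμ hn (meas_ind (meas_ge x t)) (fun f => ind_abs _)
      (η := η / (4 * (E / η))) (by positivity)] with f hf a1 a2 a3
    obtain ⟨k, b1, b2, b3, b4, b5, b6, b7⟩ := (a3.2.and_eventually (a1.and (a2.and
      ((small h0 h1 (C + 1)).and ((big (1250 / p)).and ((big (nrm x)).and
        (big (44100000 / η)))))))).exists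
    refine ⟨a3.1, k, ?_⟩
    obtain ⟨u, c, c1, c2⟩ := boost hT (90 * (k + 1) ^ 3) hf (zero_le_one.trans (am_one h0 k))
      (by positivity) (not_le.1 fun e => b2 ⟨b1, e⟩).le
    rw [pow_succ'] at b3 ⊢
    have K1 : 1 ≤ 11 ^ k := Nat.one_le_pow _ _ (by norm_num)
    have t1 := tiny k
    have a4 := (am_le h0 k).2
    rw [show (11 : ℝ) ^ k = (11 ^ k : ℕ) by norm_num] at t1 b4 b5 b6 b7
    generalize 11 ^ k = K at *
    have K2 : (1 : ℝ) ≤ K := by exact_mod_cast K1
    have a5 : am' α k + 1 ≤ (am' α k + 1) ^ 4 := le_self_pow₀ a4 (by norm_num)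
    have a6 : (K : ℝ) ≤ K ^ 7 := le_self_pow₀ K2 (by norm_num)
    obtain ⟨d1, d2⟩ := H c (am' α k) (1250 / K ^ 7) u K f c1 hf (by linarith) K1 (by nlinarith)
      (by rw [div_le_iff₀ p0] at b5; rw [div_le_iff₀ (by positivity)]; nlinarith)
      (c2.trans (by
        calc _ ≤ (25 * K : ℝ) ^ 2 * (2 * (1 / K ^ 9)) := by
              have q : (1 : ℝ) ≤ ((k : ℝ) + 1) ^ 2 :=
                one_le_pow₀ (by linarith [(k.cast_nonneg : (0 : ℝ) ≤ k)])
              have q' : (0 : ℝ) ≤ 1 - 1 / ((k : ℝ) + 1) ^ 2 :=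
                sub_nonneg.2 ((div_le_one (by linarith)).2 q)
              push_cast
              gcongr
              linarith
          _ = _ := by field_simp; norm_num))
    have d3 := hC (box 0 (11 * K)) f K K x t (E / η) hf K1 (box_mono (by omega))
      (by exact_mod_cast b6) (by positivity)
    have d4 : av (box 0 (11 * K)) (fun f => SS K K f ^ 2) f ≤ E := by
      have f1 : (am' α k + 1) ^ 4 / K ≤ 1 := by rw [div_le_one (by linarith)]; nlinarith
      have f2 : (K : ℝ) ^ 6 * (1250 / K ^ 7) ≤ 1250 := by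
        rw [show (K : ℝ) ^ 6 * (1250 / K ^ 7) = 1250 / K by field_simp]
        exact div_le_self (by norm_num) K2
      nlinarith
    have d5 : ((idx K K).card : ℝ) * av (box 0 (11 * K)) (fun f => ind (Bad K K f)) f ≤ η / 8 := by
      calc _ ≤ 2 * ((21 * K : ℝ) ^ 2 * (5 * K)) * (1250 / K ^ 7) := by
            refine mul_le_mul ((card_idx K K).trans ?_) d1 (av_nonneg (fun _ => (ind_mem _).1) _)
              (by positivity)
            gcongr <;> linarith
        _ = 5512500 / K ^ 4 := by field_simp; norm_num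
        _ ≤ _ := by
            have : (K : ℝ) ≤ K ^ 4 := le_self_pow₀ K2 (by norm_num)
            rw [div_le_iff₀ η0] at b7
            rw [div_le_iff₀ (by positivity)]
            nlinarith
    have d6 := mul_le_mul_of_nonneg_left b3.le (a := E / η) (by positivity)
    rw [show E / η * (η / (4 * (E / η))) = η / 4 by field_simp] at d6
    have d7 := div_le_div_of_nonneg_right d4 (c := 4 * (E / η)) (by positivity)
    rw [show E / (4 * (E / η)) = η / 4 by field_simp] at d7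
    linarith
  filter_upwards [hμ.2.1, ae_all_iff.2 fun x => ae_all_iff.2 fun t =>
    measure_eq_zero_iff_ae_notMem.1 (e2 x t)] with f hf a1
  refine not_frequently.1 fun a2 => ?_
  obtain ⟨k, b1, b2⟩ := (a2.and_eventually (small h0 h1 (2 / δ))).exists
  have b3 := climb_le hf (fun x e => a1 x (f x) ⟨⟨e, rfl⟩, a2⟩) b1
  obtain ⟨a3, a4⟩ := am_le h0 k
  have a5 : am' α k + 1 ≤ (am' α k + 1) ^ 4 := le_self_pow₀ a4 (by norm_num)
  rw [div_mul_eq_mul_div, div_le_iff₀ hδ] at b2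
  push_cast at b3
  have : (0 : ℝ) < 11 ^ k * δ := by positivity
  nlinarith

open FinalP in
theorem main (hT : TailStmt) (hC : CovStmt) (hF : FinStmt) {μ : Measure Conf} (hμ : Gibbs μ)
    {α δ : ℝ} (h1 : α < 1 / 4) (hδ : 0 < δ) : ∀ᵐ f ∂μ, ∀ᶠ R : ℕ in atTop, ∀ u₁ u₂ c : ℝ,
      |u₁| ≤ 1 - δ → |u₂| ≤ 1 - δ → ∃ x : ℤ × ℤ, max |x.1| |x.2| ≤ R ∧
        (R : ℝ) ^ α < |(f x : ℝ) - (u₁ * x.1 + u₂ * x.2 + c)| := by
  filter_upwards [final hT hC hF hμ (le_max_right α 0) (max_lt h1 (by norm_num)) hδ] with f hf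
  obtain ⟨k₀, hk⟩ := eventually_atTop.1 hf
  filter_upwards [eventually_ge_atTop (11 ^ (k₀ + 1) + 1)] with R hR u₁ u₂ c a1 a2
  by_contra e
  have r1 : 11 ^ (k₀ + 1) ≤ R - 1 := by omega
  have r0 : R - 1 ≠ 0 := by have := Nat.one_le_pow (k₀ + 1) 11 (by norm_num); omega
  obtain ⟨k, e1⟩ : ∃ k, Nat.log 11 (R - 1) = k + 1 ∧ k₀ ≤ k :=
    ⟨Nat.log 11 (R - 1) - 1, by have := Nat.le_log_of_pow_le (by norm_num) r1; omega⟩
  have r2 := Nat.pow_log_le_self 11 r0
  have r3 := Nat.lt_pow_succ_log_self (b := 11) (by norm_num) (R - 1)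
  rw [e1.1] at r2 r3
  have r4 : 1 ≤ R := by omega
  refine hk k e1.2 ⟨(u₁, u₂), c, ⟨a1, a2⟩, fun y hy => ?_⟩
  rw [mem_box0, ← pow_succ'] at hy
  refine (not_lt.1 fun e' => e ⟨y, le_trans hy (Nat.cast_le.2 (by omega)), e'⟩).trans
    ((Real.rpow_le_rpow_of_exponent_le (by exact_mod_cast r4) (le_max_left α 0)).trans
      (Real.rpow_le_rpow (by positivity) ?_ (le_max_right _ _)))
  exact_mod_cast (by have : R - 1 < 11 ^ (k + 2) := r3; omega : R ≤ 11 ^ (k + 2) + 1)

end Pool.Agent.MP_151d89_pr.H58
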