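import Pool.Agent.MP_151d89_pr.H58.Spec

/-!
Prescribed local extrema are unlikely.
-/

set_option autoImplicit false
open MeasureTheory Finset

namespace Pool.Agent.MP_151d89_pr.H58
open Pool.Agent.MP_151d89_pr.H82 Pool.Agent.MP_151d89_pr.H33 Pool.Agent.MP_151d89_pr.H67
  Pool.Agent.MP_151d89_pr.H30
open Classical

namespace FlipP

theorem inj (y : ℤ × ℤ) (c : ℤ) : Function.Injective fun a : Conf => Function.update a y (a y + c) := by
  intro a b h
  funext x
  have h1 := congrFun h x
  by_cases e : x = y
  · subst e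
    simpa using h1
  · simpa [Function.update_of_ne e] using h1

theorem keep {σ t : ℤ} {y z : ℤ × ℤ} {a : Conf} (hy : (y.1 + y.2) % 2 = 0) (hz : (z.1 + z.2) % 2 = 0)
    (h : z ≠ y) (ha : Ext σ z a) : Ext σ z (Function.update a y t) := by
  intro w hw
  have hwy : w ≠ y := by
    rintro rfl
    rcases abs_cases (z.1 - w.1) with h1 | h1 <;> rcases abs_cases (z.2 - w.2) with h2 | h2 <;> omega
  rw [Function.update_of_ne hwy, Function.update_of_ne h]
  exact ha w hw

theorem clash {σ : ℤ} {y : ℤ × ℤ} {a : Conf} (hσ : σ = 1 ∨ σ = -1) (ha : Ext σ y a) :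
    ¬ Ext σ y (Function.update a y (a y + 2 * σ)) := by
  intro h
  have hw : |y.1 - (y.1 + 1, y.2).1| + |y.2 - (y.1 + 1, y.2).2| = 1 := by simp
  have hne : (y.1 + 1, y.2) ≠ y := fun e => by have := congrArg Prod.fst e; simp at this
  have h1 := ha _ hw
  have h2 := h _ hw
  rw [Function.update_of_ne hne, Function.update_self] at h2
  omega

end FlipP

theorem flip_row : FlipStmt := by
  intro S Y σ hY hσ hS
  induction Y using Finset.induction_on with
  | empty => simp
  | insert y Y hy ih =>
    refine le_trans ?_ (ih (fun z hz => hY z (mem_insert_of_mem hz))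
      fun a ha z hz => hS a ha z (mem_insert_of_mem hz))
    rw [card_insert_of_notMem hy, pow_succ', ← mul_assoc]
    refine Nat.mul_le_mul_right _ ?_
    set A := S.filter fun a => ∀ z ∈ insert y Y, Ext (σ z) z a with hA
    have hd : Disjoint A (A.image fun a => Function.update a y (a y + 2 * σ y)) := by
      refine disjoint_left.2 fun b hb hb' => ?_
      obtain ⟨a, ha, rfl⟩ := mem_image.1 hb'
      exact FlipP.clash (hσ y) ((mem_filter.1 ha).2 y (mem_insert_self _ _))
        ((mem_filter.1 hb).2 y (mem_insert_self _ _))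
    rw [mul_two]
    nth_rewrite 2 [← card_image_of_injective A (FlipP.inj y (2 * σ y))]
    rw [← card_union_of_disjoint hd]
    refine card_le_card (union_subset (fun a ha => ?_) fun b hb => ?_)
    · exact mem_filter.2 ⟨(mem_filter.1 ha).1, fun z hz => (mem_filter.1 ha).2 z (mem_insert_of_mem hz)⟩
    · obtain ⟨a, ha, rfl⟩ := mem_image.1 hb
      obtain ⟨h1, h2⟩ := mem_filter.1 ha
      exact mem_filter.2 ⟨hS a h1 y (mem_insert_self _ _) _ (hσ y) (h2 y (mem_insert_self _ _)),
        fun z hz => FlipP.keep (hY y (mem_insert_self _ _)) (hY z (mem_insert_of_mem hz))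
          (fun e => hy (e ▸ hz)) (h2 z (mem_insert_of_mem hz))⟩

end Pool.Agent.MP_151d89_pr.H58
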