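import Pool.Agent.MP_151d89_pr.H58.Spec

/-!
Interpolation between two functions close to a plane.
-/

set_option autoImplicit false
open MeasureTheory Finset

namespace Pool.Agent.MP_151d89_pr.H58
open Pool.Agent.MP_151d89_pr.H82 Pool.Agent.MP_151d89_pr.H33 Pool.Agent.MP_151d89_pr.H67
  Pool.Agent.MP_151d89_pr.H30
open Classical

namespace GlueP

/-- rounding to the parity of g -/
noncomputable def rd (g : Conf) (W : ℤ × ℤ → ℝ) : Conf :=
  fun y => g y + 2 * ⌈(W y - g y) / 2⌉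

theorem le_rd (g : Conf) (W : ℤ × ℤ → ℝ) (y : ℤ × ℤ) : W y ≤ rd g W y := by
  have := Int.le_ceil ((W y - g y) / 2)
  unfold rd
  push_cast
  linarith

theorem rd_lt (g : Conf) (W : ℤ × ℤ → ℝ) (y : ℤ × ℤ) : (rd g W y : ℝ) < W y + 2 := by
  have := Int.ceil_lt_add_one ((W y - g y) / 2)
  unfold rd
  push_cast
  linarith

theorem rd_par (g : Conf) (W : ℤ × ℤ → ℝ) (y : ℤ × ℤ) : (rd g W y - g y) % 2 = 0 := by
  unfold rd
  omega

theorem hom_rd {g : Conf} (hg : Hom g) {W : ℤ × ℤ → ℝ}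
    (hW : ∀ y y' : ℤ × ℤ, |y.1 - y'.1| + |y.2 - y'.2| = 1 → W y - W y' ≤ 1) : Hom (rd g W) := by
  intro y y' h
  have h1 := hW y y' h
  have h2 := hW y' y (by rw [abs_sub_comm y'.1, abs_sub_comm y'.2]; exact h)
  have h3 := hg y y' h
  have a1 : rd g W y - rd g W y' < 3 := by
    have := le_rd g W y'
    have := rd_lt g W y
    have e : ((rd g W y - rd g W y' : ℤ) : ℝ) < (3 : ℤ) := by push_cast; linarith
    exact_mod_cast e
  have a2 : rd g W y' - rd g W y < 3 := by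
    have := le_rd g W y
    have := rd_lt g W y'
    have e : ((rd g W y' - rd g W y : ℤ) : ℝ) < (3 : ℤ) := by push_cast; linarith
    exact_mod_cast e
  have a3 := rd_par g W y
  have a4 := rd_par g W y'
  rw [abs_eq (by norm_num)] at h3 ⊢
  omega

theorem nrm_edge (x : ℤ × ℤ) {y y' : ℤ × ℤ} (h : |y.1 - y'.1| + |y.2 - y'.2| = 1) :
    nrm (y - x) ≤ nrm (y' - x) + 1 := by
  simp only [nrm, Int.abs_eq_natAbs, Prod.fst_sub, Prod.snd_sub] at h ⊢
  omega

theorem mem_bx {x y : ℤ × ℤ} {n : ℕ} : y ∈ box x n ↔ nrm (y - x) ≤ n := by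
  simp only [mem_box, nrm, Int.abs_eq_natAbs, Prod.fst_sub, Prod.snd_sub]
  omega

theorem hom_glue {A B : Conf} (hA : Hom A) (hB : Hom B) (x : ℤ × ℤ) (k : ℤ)
    (h : ∀ y, nrm (y - x) = k → A y = B y) :
    Hom fun y => if nrm (y - x) ≤ k then A y else B y := by
  intro y y' e
  have e1 := nrm_edge x e
  have e2 := nrm_edge x (y := y') (y' := y)
    (by rw [abs_sub_comm y'.1, abs_sub_comm y'.2]; exact e)
  by_cases h1 : nrm (y - x) ≤ k <;> by_cases h2 : nrm (y' - x) ≤ k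
  · simp only [if_pos h1, if_pos h2]
    exact hA y y' e
  · simp only [if_pos h1, if_neg h2]
    rw [h y (by omega)]
    exact hB y y' e
  · simp only [if_neg h1, if_pos h2]
    rw [h y' (by omega)]
    exact hB y y' e
  · simp only [if_neg h1, if_neg h2]
    exact hB y y' e

theorem pl_edge {δ : ℝ} {u : ℝ × ℝ} (hu : Sl δ u) (c : ℝ) {y y' : ℤ × ℤ}
    (h : |y.1 - y'.1| + |y.2 - y'.2| = 1) : pl u c y - pl u c y' ≤ 1 - δ := by
  obtain ⟨h1, h2⟩ := hu
  rw [abs_le] at h1 h2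
  have : (y.1 = y'.1 + 1 ∧ y.2 = y'.2) ∨ (y.1 = y'.1 - 1 ∧ y.2 = y'.2) ∨
      (y.1 = y'.1 ∧ y.2 = y'.2 + 1) ∨ (y.1 = y'.1 ∧ y.2 = y'.2 - 1) := by
    simp only [Int.abs_eq_natAbs] at h
    omega
  unfold pl
  rcases this with e | e | e | e <;> rw [e.1, e.2] <;> push_cast <;> linarith

/-- the width of the corridor -/
noncomputable def wd (δ : ℝ) (x : ℤ × ℤ) (ρ : ℤ) (y : ℤ × ℤ) : ℝ :=
  δ * ((|nrm (y - x) - ρ| : ℤ) : ℝ)

theorem wd_edge {δ : ℝ} (hδ : 0 < δ) (x : ℤ × ℤ) (ρ : ℤ) {y y' : ℤ × ℤ}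
    (h : |y.1 - y'.1| + |y.2 - y'.2| = 1) : wd δ x ρ y - wd δ x ρ y' ≤ δ := by
  have e1 := nrm_edge x h
  have e2 := nrm_edge x (y := y') (y' := y)
    (by rw [abs_sub_comm y'.1, abs_sub_comm y'.2]; exact h)
  have e3 : |nrm (y - x) - ρ| ≤ |nrm (y' - x) - ρ| + 1 := by
    simp only [Int.abs_eq_natAbs]
    omega
  have e4 : ((|nrm (y - x) - ρ| : ℤ) : ℝ) ≤ ((|nrm (y' - x) - ρ| : ℤ) : ℝ) + 1 := by
    exact_mod_cast e3
  unfold wd
  nlinarith

/-- clamping into the corridor -/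
noncomputable def cl (g : Conf) (P R : ℤ × ℤ → ℝ) (f : Conf) : Conf :=
  (f ⊓ rd g fun y => P y + R y) ⊔ rd g fun y => P y - R y

theorem cl_zero (g : Conf) (P R : ℤ × ℤ → ℝ) (f : Conf) {y : ℤ × ℤ} (h : R y = 0) :
    cl g P R f y = rd g P y := by
  have h1 : rd g (fun y => P y + R y) y = rd g P y := by simp only [rd, h, add_zero]
  have h2 : rd g (fun y => P y - R y) y = rd g P y := by simp only [rd, h, sub_zero]
  simp only [cl, Pi.sup_apply, Pi.inf_apply, h1, h2]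
  omega

theorem cl_far (g : Conf) (P R : ℤ × ℤ → ℝ) (f : Conf) {y : ℤ × ℤ} {a : ℝ} (h : a + 2 ≤ R y)
    (hf : |(f y : ℝ) - P y| ≤ a) : cl g P R f y = f y := by
  rw [abs_le] at hf
  have h1 : f y ≤ rd g (fun y => P y + R y) y := by
    have := le_rd g (fun y => P y + R y) y
    have e : (f y : ℝ) ≤ rd g (fun y => P y + R y) y := by linarith
    exact_mod_cast e
  have h2 : rd g (fun y => P y - R y) y ≤ f y := by
    have := rd_lt g (fun y => P y - R y) y
    have e : (rd g (fun y => P y - R y) y : ℝ) ≤ f y := by linarith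
    exact_mod_cast e
  simp only [cl, Pi.sup_apply, Pi.inf_apply]
  omega

theorem hom_cl {g f : Conf} (hg : Hom g) (hf : Hom f) {x : ℤ × ℤ} (hx : (f x - g x) % 2 = 0)
    {P R : ℤ × ℤ → ℝ} {δ : ℝ}
    (hP : ∀ y y' : ℤ × ℤ, |y.1 - y'.1| + |y.2 - y'.2| = 1 → P y - P y' ≤ 1 - δ)
    (hR : ∀ y y' : ℤ × ℤ, |y.1 - y'.1| + |y.2 - y'.2| = 1 → R y - R y' ≤ δ) :
    Hom (cl g P R f) := by
  have h1 : Hom (rd g fun y => P y + R y) := hom_rd hg fun y y' h => by
    have := hP y y' h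
    have := hR y y' h
    linarith
  have h2 : Hom (rd g fun y => P y - R y) := hom_rd hg fun y y' h => by
    have := hP y y' h
    have := hR y' y (by rw [abs_sub_comm y'.1, abs_sub_comm y'.2]; exact h)
    linarith
  have a1 := rd_par g (fun y => P y + R y) x
  have a2 := rd_par g (fun y => P y - R y) x
  refine hom_sup (z := x) (hom_inf (z := x) hf h1 (by omega)) h2 ?_
  simp only [Pi.inf_apply]
  omega

end GlueP

open GlueP in
theorem glue_row : GlueStmt := by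
  intro δ c a u x n r w g v hδ hu hg hv hx ha hn hbg hbv
  have hP : ∀ y y' : ℤ × ℤ, |y.1 - y'.1| + |y.2 - y'.2| = 1 → pl u c y - pl u c y' ≤ 1 - δ :=
    fun y y' h => pl_edge hu c h
  have hR : ∀ y y' : ℤ × ℤ, |y.1 - y'.1| + |y.2 - y'.2| = 1 →
      wd δ x (r + w) y - wd δ x (r + w) y' ≤ δ := fun y y' h => wd_edge hδ x _ h
  have h1 : Hom (cl g (pl u c) (wd δ x (r + w)) g) := hom_cl hg hg (x := x) (by omega) hP hR
  have h2 : Hom (cl g (pl u c) (wd δ x (r + w)) v) := hom_cl hg hv hx hP hR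
  have far : ∀ y, (w : ℤ) ≤ |nrm (y - x) - (r + w)| → a + 2 ≤ wd δ x (r + w) y := fun y h => by
    have e : (w : ℝ) ≤ ((|nrm (y - x) - (r + w)| : ℤ) : ℝ) := by exact_mod_cast h
    exact ha.trans (mul_le_mul_of_nonneg_left e hδ.le)
  have out : ∀ y, nrm (y - x) = (n : ℤ) + 1 → cl g (pl u c) (wd δ x (r + w)) g y = g y :=
    fun y h => cl_far g _ _ g (far y (by simp only [Int.abs_eq_natAbs]; omega))
      (hbg y (mem_bx.2 (by push_cast; omega)))
  have h3 := hom_glue h1 hg x ((n : ℤ) + 1) out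
  have h4 := hom_glue h2 h3 x ((r : ℤ) + w) fun y h => by
    have e : wd δ x (r + w) y = 0 := by simp [wd, h]
    rw [if_pos (by omega), cl_zero g _ _ v e, cl_zero g _ _ g e]
  refine ⟨_, mem_FS.2 ⟨h4, fun y hy => ?_⟩, fun y hy => ?_⟩
  · rw [mem_bx] at hy
    rw [if_neg (by omega)]
    split_ifs with h
    · exact out y (by omega)
    · rfl
  · rw [mem_bx] at hy
    rw [if_pos (by omega)]
    exact cl_far g _ _ v (far y (by simp only [Int.abs_eq_natAbs]; omega))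
      (hbv y (mem_bx.2 (by push_cast; omega)))

end Pool.Agent.MP_151d89_pr.H58
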