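import Pool.Agent.MP_151d89_pr.H58.Spec

/-!
Positive density of the patterns.
-/

set_option autoImplicit false
open MeasureTheory Finset

namespace Pool.Agent.MP_151d89_pr.H58
open Pool.Agent.MP_151d89_pr.H82 Pool.Agent.MP_151d89_pr.H33 Pool.Agent.MP_151d89_pr.H67
  Pool.Agent.MP_151d89_pr.H30
open Classical

namespace LocP

/-- Jensen's inequality for the exponential -/
theorem jensen (Λ : Finset (ℤ × ℤ)) (φ : Conf → ℝ) {g : Conf} (hg : Hom g) :
    Real.exp (av Λ φ g) ≤ av Λ (fun f => Real.exp (φ f)) g := by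
  have h : av Λ (fun f => Real.exp (av Λ φ g) * (φ f - av Λ φ g + 1)) g =
      Real.exp (av Λ φ g) := by
    rw [av_smul, av_add, av_sub, av_const _ _ hg, av_const _ _ hg]
    ring
  rw [← h]
  refine av_le fun a _ => ?_
  have h2 := Real.add_one_le_exp (φ a - av Λ φ g)
  calc Real.exp (av Λ φ g) * (φ a - av Λ φ g + 1)
      ≤ Real.exp (av Λ φ g) * Real.exp (φ a - av Λ φ g) :=
        mul_le_mul_of_nonneg_left h2 (Real.exp_pos _).le
    _ = Real.exp (φ a) := by rw [← Real.exp_add]; congr 1; ring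

/-- positive entropy forces many wrong predictions -/
theorem err_ge (h1 : PredStmt) {κ : ℝ} (hκ : 0 < κ) : ∃ ε : ℝ, 0 < ε ∧
    ∀ (r : ℕ) (Λ : Finset (ℤ × ℤ)) (g : Conf), Hom g →
      Real.exp (κ * Λ.card) ≤ (FS Λ g).card →
      ε * Λ.card ≤ av Λ (fun f => (num Λ fun y => Err r y f : ℕ)) g := by
  obtain ⟨t, ht0, ht1, ht2⟩ : ∃ t : ℝ, 0 < t ∧ t < 1 ∧ t ≤ κ / 2 :=
    ⟨min (1 / 2) (κ / 2), lt_min (by norm_num) (by linarith),
      (min_le_left _ _).trans_lt (by norm_num), min_le_right _ _⟩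
  have hl : Real.log t < 0 := Real.log_neg ht0 ht1
  refine ⟨κ / 2 / (-Real.log t), div_pos (by linarith) (by linarith), fun r Λ g hg hc => ?_⟩
  have hp := h1 r Λ g t ht0.le ht1.le
  have hj := jensen Λ (fun f => Real.log t * (num Λ fun y => Err r y f : ℕ)) hg
  rw [av_smul] at hj
  have e : av Λ (fun f => Real.exp (Real.log t * (num Λ fun y => Err r y f : ℕ))) g =
      av Λ (fun f => t ^ (num Λ fun y => Err r y f)) g :=
    av_eq fun a _ => by rw [Real.exp_mul, Real.exp_log ht0, Real.rpow_natCast]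
  rw [e] at hj
  rw [av_mul_card Λ (fun f => t ^ (num Λ fun y => Err r y f)) hg] at hp
  set m := av Λ (fun f => ((num Λ fun y => Err r y f : ℕ) : ℝ)) g
  have h3 : (1 + t) ^ Λ.card ≤ Real.exp (t * Λ.card) := by
    rw [mul_comm, Real.exp_nat_mul]
    exact pow_le_pow_left₀ (by linarith) (by linarith [Real.add_one_le_exp t]) _
  have h4 : Real.exp (κ * Λ.card) * Real.exp (Real.log t * m) ≤ Real.exp (t * Λ.card) :=
    (mul_le_mul hc hj (Real.exp_pos _).le (Nat.cast_nonneg _)).trans (hp.trans h3)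
  rw [← Real.exp_add, Real.exp_le_exp] at h4
  have h5 : t * Λ.card ≤ κ / 2 * Λ.card := mul_le_mul_of_nonneg_right ht2 (Nat.cast_nonneg _)
  rw [div_mul_eq_mul_div, div_le_iff₀ (by linarith)]
  linarith

/-- a pattern can be created at a liquid site -/
theorem site (h4 : SurgStmt) (L : ℕ) (y : ℤ × ℤ) (b : Bool) (s : ℤ) (hs : s = 1 ∨ s = -1)
    {f : Conf} (hf : Hom f) : (1 / 2 ^ ((2 * L + 1) ^ 2) : ℝ) * ind (Liq L y f) ≤
      av (box y L) (fun f => ind (Opp b s y f)) f := by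
  by_cases h : Liq L y f
  · obtain ⟨f', h5, h6⟩ := h4 L y f b s hs hf h
    rw [ind_pos h, mul_one, H58.av_ind]
    have h7 : (1 : ℝ) ≤ ((FS (box y L) f).filter fun f => Opp b s y f).card := by
      exact_mod_cast Finset.card_pos.2 ⟨f', mem_filter.2 ⟨h5, h6⟩⟩
    have h8 : ((FS (box y L) f).card : ℝ) ≤ 2 ^ ((2 * L + 1) ^ 2) := by
      have := card_le (box y L) f
      rw [card_box] at this
      exact_mod_cast this
    exact div_le_div₀ (Nat.cast_nonneg _) h7 (H67.card_pos _ hf) h8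
  · rw [ind_neg h, mul_zero]
    exact av_nonneg (fun a => (ind_mem _).1) _

theorem num_le {S T : Finset (ℤ × ℤ)} (h : S ⊆ T) (p : ℤ × ℤ → Prop) :
    (num T p : ℝ) ≤ num S p + (T.card - S.card) := by
  rw [num_eq, num_eq, ← sum_sdiff h]
  have : ∑ y ∈ T \ S, ind (p y) ≤ (T \ S).card := by
    refine (sum_le_sum fun y _ => (ind_mem (p y)).2).trans ?_
    simp
  rw [card_sdiff_of_subset h, Nat.cast_sub (card_le_card h)] at this
  linarith

theorem num_mono {S T : Finset (ℤ × ℤ)} (h : S ⊆ T) (p : ℤ × ℤ → Prop) :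
    (num S p : ℝ) ≤ num T p := by
  unfold num
  exact_mod_cast card_le_card (filter_subset_filter _ h)

/-- from liquid sites to patterns -/
theorem opp_ge (h4 : SurgStmt) (L k : ℕ) (x : ℤ × ℤ) (b : Bool) (s : ℤ) (hs : s = 1 ∨ s = -1)
    (g : Conf) : (1 / 2 ^ ((2 * L + 1) ^ 2) : ℝ) *
      av (box x (k + L)) (fun f => (num (box x k) fun y => Liq L y f : ℕ)) g ≤
      av (box x (k + L)) (fun f => (num (box x (k + L)) fun y => Opp b s y f : ℕ)) g := by
  have hsub : box x k ⊆ box x (k + L) := fun y hy => by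
    rw [mem_box] at hy ⊢
    push_cast
    omega
  refine le_trans ?_ (av_le fun a _ => num_mono hsub fun y => Opp b s y a)
  simp only [num_eq, av_sum, mul_sum]
  refine sum_le_sum fun y hy => ?_
  have h5 : box y L ⊆ box x (k + L) := fun z hz => by
    rw [mem_box] at hy hz ⊢
    push_cast
    omega
  rw [← av_tower h5 (fun f => ind (Opp b s y f)), ← av_smul]
  exact av_le fun a ha => site h4 L y b s hs (mem_FS.1 ha).1

theorem pick {ε : ℝ} (hε : 0 < ε) :
    ∃ r L : ℕ, 1 ≤ r ∧ r < L ∧ (1 / r + (r + 3) / L : ℝ) ≤ ε / 8 := by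
  obtain ⟨r, hr⟩ := exists_nat_gt (32 / ε)
  have h0 : (0 : ℝ) < r := lt_trans (by positivity) hr
  have h1 : 1 ≤ r := Nat.cast_pos.1 h0
  refine ⟨r, r * (r + 3), h1, by nlinarith, ?_⟩
  have e : (1 / r + (r + 3) / ((r * (r + 3) : ℕ) : ℝ) : ℝ) = 2 / r := by
    push_cast
    field_simp
    norm_num
  rw [e, div_le_iff₀ h0]
  rw [div_lt_iff₀ hε] at hr
  nlinarith

end LocP

open LocP in
theorem loc_row (h1 : PredStmt) (h2 : CntStmt) (h3 : LowStmt) (h4 : SurgStmt) : LocStmt := by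
  intro δ hδ
  obtain ⟨κ, C, hκ, h3⟩ := h3 δ hδ
  obtain ⟨ε, hε, h1⟩ := err_ge h1 hκ
  obtain ⟨r, L, hr, hL, hrL⟩ := pick hε
  refine ⟨1 / 2 ^ ((2 * L + 1) ^ 2) * (ε / 4), |C| + 2 * L + 8 * L / ε, by positivity, ?_⟩
  intro c a u x ρ g b s hs hu hg ha hC hB
  have p1 : (0 : ℝ) ≤ 8 * L / ε := by positivity
  have p2 : (0 : ℝ) ≤ 2 * L := by positivity
  have p3 := abs_nonneg C
  have hC1 : C * (a + 1) ≤ ρ :=
    (mul_le_mul_of_nonneg_right (by linarith [le_abs_self C]) (by linarith)).trans hC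
  have hC2 : |C| + 2 * L + 8 * L / ε ≤ ρ :=
    (le_mul_of_one_le_right (by linarith) (by linarith)).trans hC
  have q1 : (2 * L : ℝ) ≤ ρ := by linarith
  have q2 : (8 * L : ℝ) ≤ ρ * ε := (div_le_iff₀ hε).1 (by linarith)
  have hlow := h3 c a u x ρ g hu hg ha hC1 hB
  have hN : ((box x ρ).card : ℝ) = (2 * ρ + 1) ^ 2 := by rw [card_box]; push_cast; ring
  have e1 := h1 r (box x ρ) g hg (by rw [hN]; exact hlow)
  rw [hN] at e1
  obtain ⟨k, rfl⟩ : ∃ k, ρ = k + L := ⟨ρ - L, by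
    have : 2 * L ≤ ρ := by exact_mod_cast q1
    omega⟩
  have hsub : box x k ⊆ box x (k + L) := fun y hy => by
    rw [mem_box] at hy ⊢
    push_cast
    omega
  have hk : ((box x k).card : ℝ) = (2 * k + 1) ^ 2 := by rw [card_box]; push_cast; ring
  have e2 : av (box x (k + L)) (fun f => (num (box x (k + L)) fun y => Err r y f : ℕ)) g ≤
      av (box x (k + L)) (fun f => (num (box x k) fun y => Liq L y f : ℕ) +
        3 * ε / 4 * (2 * ((k + L : ℕ) : ℝ) + 1) ^ 2) g := by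
    refine av_le fun f _ => ?_
    have a1 := h2 r L (k + L) x f hr hL
    have a2 := num_le hsub fun y => Liq L y f
    rw [hN, hk] at a2
    have k0 : (0 : ℝ) ≤ k := Nat.cast_nonneg _
    have L0 : (0 : ℝ) ≤ L := Nat.cast_nonneg _
    have a3 : (2 * (((k + L : ℕ) : ℝ) + 2 * L) + 1) ^ 2 ≤ 4 * (2 * ((k + L : ℕ) : ℝ) + 1) ^ 2 := by
      have : 2 * (((k + L : ℕ) : ℝ) + 2 * L) + 1 ≤ 2 * (2 * ((k + L : ℕ) : ℝ) + 1) := by linarith
      calc _ ≤ (2 * (2 * ((k + L : ℕ) : ℝ) + 1)) ^ 2 := pow_le_pow_left₀ (by positivity) this 2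
        _ = _ := by ring
    have a4 : (2 * (((k + L : ℕ) : ℝ) + 2 * L) + 1) ^ 2 * (1 / r + (r + 3) / L) ≤
        4 * (2 * ((k + L : ℕ) : ℝ) + 1) ^ 2 * (ε / 8) :=
      mul_le_mul a3 hrL (by positivity) (by positivity)
    have a5 : (2 * ((k + L : ℕ) : ℝ) + 1) ^ 2 - (2 * k + 1) ^ 2 ≤
        ε / 4 * (2 * ((k + L : ℕ) : ℝ) + 1) ^ 2 := by
      have b1 : (2 * ((k + L : ℕ) : ℝ) + 1) ^ 2 - (2 * k + 1) ^ 2 ≤
          4 * L * (2 * ((k + L : ℕ) : ℝ) + 1) := by
        push_cast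
        nlinarith [mul_nonneg L0 L0]
      have b2 : 4 * L ≤ ε / 4 * (2 * ((k + L : ℕ) : ℝ) + 1) := by nlinarith
      calc _ ≤ _ := b1
        _ ≤ ε / 4 * (2 * ((k + L : ℕ) : ℝ) + 1) * (2 * ((k + L : ℕ) : ℝ) + 1) :=
          mul_le_mul_of_nonneg_right b2 (by positivity)
        _ = _ := by ring
    linarith
  rw [av_add, av_const _ _ hg] at e2
  refine le_trans ?_ (opp_ge h4 L k x b s hs g)
  rw [mul_assoc]
  refine mul_le_mul_of_nonneg_left ?_ (by positivity)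
  linarith

end Pool.Agent.MP_151d89_pr.H58
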