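import Pool.Agent.MP_151d89_pr.H58.Spec

/-!
Positive entropy in a box in which the boundary function is close to a plane.
-/

set_option autoImplicit false
open MeasureTheory Finset

namespace Pool.Agent.MP_151d89_pr.H58
open Pool.Agent.MP_151d89_pr.H82 Pool.Agent.MP_151d89_pr.H33 Pool.Agent.MP_151d89_pr.H67
  Pool.Agent.MP_151d89_pr.H30
open Classical

namespace LowP

theorem pl_lip {δ : ℝ} {u : ℝ × ℝ} (hu : Sl δ u) (c : ℝ) (y z : ℤ × ℤ) :
    pl u c z ≤ pl u c y + (1 - δ) * (dist1 y z : ℝ) := by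
  unfold pl dist1
  push_cast
  have h1 : u.1 * ((z.1 : ℝ) - y.1) ≤ (1 - δ) * |(y.1 : ℝ) - z.1| := by
    refine (le_abs_self _).trans ?_
    rw [abs_mul, abs_sub_comm]
    exact mul_le_mul_of_nonneg_right hu.1 (abs_nonneg _)
  have h2 : u.2 * ((z.2 : ℝ) - y.2) ≤ (1 - δ) * |(y.2 : ℝ) - z.2| := by
    refine (le_abs_self _).trans ?_
    rw [abs_mul, abs_sub_comm]
    exact mul_le_mul_of_nonneg_right hu.2 (abs_nonneg _)
  linarith

theorem ex_base {δ : ℝ} (hδ : 0 < δ) {u : ℝ × ℝ} (hu : Sl δ u) (c : ℝ) {g : Conf} (hg : Hom g) :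
    ∃ f : Conf, Hom f ∧ (∀ y, (f y - g y) % 2 = 0) ∧
      ∀ y, pl u c y ≤ f y ∧ (f y : ℝ) < pl u c y + 2 := by
  have key : ∀ y, pl u c y ≤ ((g y + 2 * ⌈(pl u c y - g y) / 2⌉ : ℤ) : ℝ) ∧
      ((g y + 2 * ⌈(pl u c y - g y) / 2⌉ : ℤ) : ℝ) < pl u c y + 2 := fun y => by
    have h1 := Int.le_ceil ((pl u c y - g y) / 2)
    have h2 := Int.ceil_lt_add_one ((pl u c y - g y) / 2)
    push_cast
    constructor <;> linarith
  refine ⟨fun y => g y + 2 * ⌈(pl u c y - g y) / 2⌉, fun x y hxy => ?_, fun y => by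
    simp only; omega, key⟩
  have h0 := hg x y hxy
  have e1 : dist1 x y = 1 := hxy
  have e2 : dist1 y x = 1 := by unfold dist1; rw [abs_sub_comm y.1, abs_sub_comm y.2]; exact hxy
  have h1 := pl_lip hu c x y
  have h2 := pl_lip hu c y x
  rw [e1] at h1
  rw [e2] at h2
  have kx := key x
  have ky := key y
  have h3 : (g x + 2 * ⌈(pl u c x - g x) / 2⌉ : ℤ) < g y + 2 * ⌈(pl u c y - g y) / 2⌉ + 3 := by
    have : ((g x + 2 * ⌈(pl u c x - g x) / 2⌉ : ℤ) : ℝ) <
        ((g y + 2 * ⌈(pl u c y - g y) / 2⌉ : ℤ) : ℝ) + 3 := by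
      simp only [Int.cast_one] at h2
      linarith [kx.2, ky.1]
    exact_mod_cast this
  have h4 : (g y + 2 * ⌈(pl u c y - g y) / 2⌉ : ℤ) < g x + 2 * ⌈(pl u c x - g x) / 2⌉ + 3 := by
    have : ((g y + 2 * ⌈(pl u c y - g y) / 2⌉ : ℤ) : ℝ) <
        ((g x + 2 * ⌈(pl u c x - g x) / 2⌉ : ℤ) : ℝ) + 3 := by
      simp only [Int.cast_one] at h1
      linarith [ky.2, kx.1]
    exact_mod_cast this
  rw [abs_eq (by norm_num)] at h0 ⊢
  simp only
  omega

theorem hom_cone (t : ℤ) (z : ℤ × ℤ) : Hom fun y => t - dist1 y z := by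
  intro x y hxy
  simp only [dist1, Int.abs_eq_natAbs] at hxy ⊢
  omega

theorem ex_sup {φ : Conf} (hφ : Hom φ) (Y : Finset (ℤ × ℤ)) :
    ∃ f : Conf, Hom f ∧ (∀ y, (f y - φ y) % 2 = 0) ∧ (∀ y, φ y ≤ f y) ∧
      (∀ z ∈ Y, φ z + 2 ≤ f z) ∧ ∀ y, f y = φ y ∨ ∃ z ∈ Y, f y = φ z + 2 - dist1 y z := by
  induction Y using Finset.induction_on with
  | empty => exact ⟨φ, hφ, fun y => by simp, fun y => le_rfl, by simp, fun y => Or.inl rfl⟩
  | insert z Y _ ih =>
    obtain ⟨f, h1, h2, h3, h4, h5⟩ := ih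
    have e0 : dist1 z z = 0 := by simp [dist1]
    have hp : (f z - (fun y => φ z + 2 - dist1 y z) z) % 2 = 0 := by
      have := h2 z
      simp only [e0]
      omega
    have hs := hom_sup h1 (hom_cone (φ z + 2) z) hp
    refine ⟨f ⊔ fun y => φ z + 2 - dist1 y z, hs, fun y => ?_, fun y => ?_, fun w hw => ?_,
      fun y => ?_⟩
    · refine par hs hφ (z := z) ?_ y
      have := h2 z
      simp only [Pi.sup_apply, e0]
      omega
    · have := h3 y
      simp only [Pi.sup_apply]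
      omega
    · simp only [Pi.sup_apply]
      rcases mem_insert.1 hw with rfl | hw
      · omega
      · have := h4 w hw
        omega
    · simp only [Pi.sup_apply]
      rcases le_total (f y) (φ z + 2 - dist1 y z) with h | h
      · exact Or.inr ⟨z, mem_insert_self _ _, max_eq_right h⟩
      · rw [max_eq_left h]
        rcases h5 y with e | ⟨w, hw, e⟩
        · exact Or.inl e
        · exact Or.inr ⟨w, mem_insert_of_mem hw, e⟩

/-- a function close to the plane with local maxima on a sparse set -/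
theorem ex_peaks {δ : ℝ} (hδ : 0 < δ) {u : ℝ × ℝ} (hu : Sl δ u) (c : ℝ) {g : Conf} (hg : Hom g)
    {m : ℕ} (hm : 8 ≤ δ * m) (Y : Finset (ℤ × ℤ))
    (hY : ∀ z ∈ Y, ∀ w ∈ Y, z ≠ w → (m : ℤ) ≤ dist1 z w) :
    ∃ f : Conf, Hom f ∧ (∀ y, (f y - g y) % 2 = 0) ∧ (∀ y, |(f y : ℝ) - pl u c y| ≤ 4) ∧
      ∀ z ∈ Y, Ext (-1) z f := by
  obtain ⟨φ, p1, p2, p3⟩ := ex_base hδ hu c hg
  obtain ⟨f, h1, h2, h3, h4, h5⟩ := ex_sup p1 Y
  have hδ1 : δ ≤ 1 := by have := hu.1; linarith [abs_nonneg u.1]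
  have hc : ∀ y z, ((φ z + 2 - dist1 y z : ℤ) : ℝ) < pl u c y + 4 - δ * (dist1 y z : ℝ) := by
    intro y z
    have := pl_lip hu c y z
    have := (p3 z).2
    push_cast
    linarith
  have hd : ∀ y z, (0 : ℝ) ≤ (dist1 y z : ℝ) := fun y z => by
    have : 0 ≤ dist1 y z := add_nonneg (abs_nonneg _) (abs_nonneg _)
    exact_mod_cast this
  refine ⟨f, h1, fun y => by have := h2 y; have := p2 y; omega, fun y => ?_, fun z hz y hy => ?_⟩
  · rw [abs_le]
    have a1 : (φ y : ℝ) ≤ f y := by exact_mod_cast h3 y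
    refine ⟨by linarith [(p3 y).1], ?_⟩
    rcases h5 y with e | ⟨z, _, e⟩
    · rw [e]; linarith [(p3 y).2]
    · rw [e]; linarith [hc y z, mul_nonneg hδ.le (hd y z)]
  · have a1 := h1 z y hy
    have a2 := p1 z y hy
    have a3 := h4 z hz
    have a4 : f y ≤ φ z + 1 := by
      rw [abs_eq (by norm_num)] at a2
      rcases h5 y with e | ⟨w, hw, e⟩
      · omega
      · by_cases hzw : z = w
        · subst hzw
          have : dist1 y z = 1 := by
            unfold dist1; rw [abs_sub_comm y.1, abs_sub_comm y.2]; exact hy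
          omega
        · have b1 := hY z hz w hw hzw
          have b2 : (m : ℤ) - 1 ≤ dist1 y w := by
            simp only [dist1, Int.abs_eq_natAbs] at b1 hy ⊢
            omega
          have b3 : (m : ℝ) - 1 ≤ (dist1 y w : ℝ) := by exact_mod_cast b2
          have b4 := mul_le_mul_of_nonneg_left b3 hδ.le
          have b5 : (f y : ℝ) < φ y := by
            rw [e]
            have := hc y w
            have := (p3 y).1
            nlinarith
          have b6 : f y < φ y := by exact_mod_cast b5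
          omega
    rw [abs_eq (by norm_num)] at a1
    omega

theorem upd {Λ : Finset (ℤ × ℤ)} {g a : Conf} (ha : a ∈ FS Λ g) {y : ℤ × ℤ} (hy : y ∈ Λ) {τ : ℤ}
    (hτ : τ = 1 ∨ τ = -1) (h : Ext τ y a) : Function.update a y (a y + 2 * τ) ∈ FS Λ g := by
  rw [mem_FS] at ha ⊢
  refine ⟨fun p q hpq => ?_, fun x hx => ?_⟩
  · by_cases e1 : p = y
    · subst e1
      have e2 : q ≠ p := fun e => by simp [e] at hpq
      rw [Function.update_self, Function.update_of_ne e2, h q hpq, abs_eq (by norm_num)]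
      omega
    · by_cases e2 : q = y
      · subst e2
        rw [Function.update_self, Function.update_of_ne e1,
          h p (by rw [abs_sub_comm q.1, abs_sub_comm q.2]; exact hpq), abs_eq (by norm_num)]
        omega
      · rw [Function.update_of_ne e1, Function.update_of_ne e2]
        exact ha.1 p q hpq
  · rw [Function.update_of_ne (fun e : x = y => hx (e ▸ hy)), ha.2 x hx]

theorem sep {m : ℕ} {i j : ℕ} (h : i ≠ j) : (m : ℤ) ≤ |(m : ℤ) * i - m * j| := by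
  rw [← mul_sub, abs_mul, abs_of_nonneg (Int.natCast_nonneg m)]
  have : (1 : ℤ) ≤ |(i : ℤ) - j| := Int.one_le_abs (by omega)
  nlinarith [Int.natCast_nonneg m]

/-- a sparse grid of even sites -/
theorem ex_grid (x : ℤ × ℤ) {m : ℕ} (hm : 1 ≤ m) (k : ℕ) :
    ∃ Y : Finset (ℤ × ℤ), Y.card = k ^ 2 ∧ (∀ z ∈ Y, (z.1 + z.2) % 2 = 0) ∧
      (∀ z ∈ Y, ∀ w ∈ Y, z ≠ w → ((2 * m : ℕ) : ℤ) ≤ dist1 z w) ∧
      ∀ z ∈ Y, (x.1 ≤ z.1 ∧ z.1 + 1 ≤ x.1 + (2 * m * k : ℕ)) ∧
        x.2 ≤ z.2 ∧ z.2 + 1 ≤ x.2 + (2 * m * k : ℕ) := by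
  have hs : ∀ p q : ℕ × ℕ, p ≠ q → ((2 * m : ℕ) : ℤ) ≤
      dist1 (x.1 + (x.1 + x.2) % 2 + (2 * m : ℕ) * p.1, x.2 + (2 * m : ℕ) * p.2)
        (x.1 + (x.1 + x.2) % 2 + (2 * m : ℕ) * q.1, x.2 + (2 * m : ℕ) * q.2) := by
    intro p q hpq
    simp only [dist1, add_sub_add_left_eq_sub]
    by_cases e : p.1 = q.1
    · exact (sep fun e' => hpq (Prod.ext e e')).trans (le_add_of_nonneg_left (abs_nonneg _))
    · exact (sep e).trans (le_add_of_nonneg_right (abs_nonneg _))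
  refine ⟨(range k ×ˢ range k).image fun p : ℕ × ℕ =>
    (x.1 + (x.1 + x.2) % 2 + (2 * m : ℕ) * p.1, x.2 + (2 * m : ℕ) * p.2), ?_, ?_, ?_, ?_⟩
  · rw [card_image_of_injective, card_product, card_range, sq]
    intro p q h
    by_contra hpq
    have := hs p q hpq
    simp only at h
    rw [h] at this
    simp only [dist1, sub_self, abs_zero] at this
    omega
  · intro z hz
    obtain ⟨p, _, rfl⟩ := mem_image.1 hz
    push_cast
    rw [mul_assoc, mul_assoc]
    omega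
  · intro z hz w hw hzw
    obtain ⟨p, _, rfl⟩ := mem_image.1 hz
    obtain ⟨q, _, rfl⟩ := mem_image.1 hw
    exact hs p q fun e => hzw (by rw [e])
  · intro z hz
    obtain ⟨p, hp, rfl⟩ := mem_image.1 hz
    rw [mem_product, mem_range, mem_range] at hp
    have a1 : 2 * m * (p.1 + 1) ≤ 2 * m * k := Nat.mul_le_mul_left _ hp.1
    have a2 : 2 * m * (p.2 + 1) ≤ 2 * m * k := Nat.mul_le_mul_left _ hp.2
    rw [mul_add, mul_one] at a1 a2
    simp only [← Nat.cast_mul]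
    omega

end LowP

theorem low_row (h1 : GlueStmt) (h2 : FlipStmt) : LowStmt := by
  intro δ hδ
  obtain ⟨m, hm⟩ : ∃ m : ℕ, 4 / δ ≤ m := exists_nat_ge _
  have hm4 : 4 ≤ δ * m := by rw [div_le_iff₀ hδ] at hm; linarith
  have hm1 : 1 ≤ m := by
    rcases Nat.eq_zero_or_pos m with e | e
    · rw [e] at hm4; norm_num at hm4
    · exact e
  have hm0 : (0 : ℝ) < m := by exact_mod_cast hm1
  refine ⟨Real.log 2 / (16 * m) ^ 2, 24 / δ + 4 + 4 * m,
    div_pos (Real.log_pos one_lt_two) (by positivity), fun c a u x ρ g hu hg ha hρ hb => ?_⟩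
  have hδ' : 0 < 1 / δ := by positivity
  obtain ⟨w, hw1, hw2⟩ : ∃ w : ℕ, a + 4 + 2 ≤ δ * w ∧ 4 * w ≤ ρ := by
    refine ⟨⌈(a + 6) / δ⌉₊, ?_, ?_⟩
    · have := Nat.le_ceil ((a + 6) / δ)
      rw [div_le_iff₀ hδ] at this
      linarith
    · have h3 := Nat.ceil_lt_add_one (show 0 ≤ (a + 6) / δ by positivity)
      have e1 : (a + 6) / δ = a * (1 / δ) + 6 * (1 / δ) := by ring
      have e2 : (24 / δ + 4 + 4 * m) * (a + 1) =
          24 * (a * (1 / δ)) + 24 * (1 / δ) + 4 * a + 4 + 4 * (m * a) + 4 * m := by ring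
      have : (4 : ℝ) * ⌈(a + 6) / δ⌉₊ ≤ ρ := by
        have := mul_nonneg ha hδ'.le
        have := mul_nonneg hm0.le ha
        linarith
      exact_mod_cast this
  have hρm : 4 * m ≤ ρ := by
    have : (4 : ℝ) * m ≤ ρ := by
      have e2 : (24 / δ + 4 + 4 * m) * (a + 1) =
          24 * (a * (1 / δ)) + 24 * (1 / δ) + 4 * a + 4 + 4 * (m * a) + 4 * m := by ring
      have := mul_nonneg ha hδ'.le
      have := mul_nonneg hm0.le ha
      linarith
    exact_mod_cast this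
  obtain ⟨k, hk1, hk2⟩ : ∃ k : ℕ, 2 * (2 * m * k) ≤ ρ ∧ 2 * ρ + 1 ≤ 16 * m * k := by
    have a1 : 0 < ρ / (4 * m) := Nat.div_pos hρm (by omega)
    have a2 := Nat.div_add_mod ρ (4 * m)
    have a3 := Nat.mod_lt ρ (show 0 < 4 * m by omega)
    have a4 : 4 * m * 1 ≤ 4 * m * (ρ / (4 * m)) := Nat.mul_le_mul_left _ a1
    refine ⟨ρ / (4 * m), ?_, ?_⟩
    · have : 2 * (2 * m * (ρ / (4 * m))) = 4 * m * (ρ / (4 * m)) := by ring
      omega
    · have : 16 * m * (ρ / (4 * m)) = 4 * (4 * m * (ρ / (4 * m))) := by ring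
      omega
  obtain ⟨Y, y1, y2, y3, y4⟩ := LowP.ex_grid x hm1 k
  obtain ⟨f, f1, f2, f3, f4⟩ := LowP.ex_peaks hδ hu c hg (m := 2 * m) (by push_cast; linarith) Y y3
  obtain ⟨γ, g1, g2⟩ := h1 δ c (a + 4) u x ρ (2 * m * k) w g f hδ hu hg f1 (f2 x) hw1 (by omega)
    (fun y hy => (hb y hy).trans (by linarith)) (fun y _ => (f3 y).trans (by linarith))
  have hF := h2 (FS (box x ρ) g) Y (fun _ => -1) y2 (fun _ => Or.inr rfl)
    fun a ha y hy τ hτ h => LowP.upd ha (by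
      have := y4 y hy
      rw [mem_box]
      omega) hτ h
  have hpos : 1 ≤ ((FS (box x ρ) g).filter fun a => ∀ y ∈ Y, Ext (-1) y a).card := by
    refine card_pos.2 ⟨γ, mem_filter.2 ⟨g1, fun z hz y hy => ?_⟩⟩
    have a1 := y4 z hz
    simp only [Int.abs_eq_natAbs] at hy
    rw [g2 y (by rw [mem_box]; omega), g2 z (by rw [mem_box]; omega)]
    exact f4 z hz y (by simpa only [Int.abs_eq_natAbs] using hy)
  have hle : 2 ^ k ^ 2 ≤ (FS (box x ρ) g).card := by
    rw [← y1]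
    exact (Nat.le_mul_of_pos_left _ hpos).trans hF
  have hle' : (2 : ℝ) ^ k ^ 2 ≤ (FS (box x ρ) g).card := by exact_mod_cast hle
  refine le_trans ?_ hle'
  rw [← Real.exp_log (show (0 : ℝ) < 2 ^ k ^ 2 by positivity), Real.exp_le_exp, Real.log_pow,
    div_mul_eq_mul_div, div_le_iff₀ (by positivity)]
  have a1 : (2 * ρ + 1 : ℝ) ≤ 16 * m * k := by exact_mod_cast hk2
  have a2 : (2 * ρ + 1 : ℝ) ^ 2 ≤ (16 * m * k) ^ 2 := pow_le_pow_left₀ (by positivity) a1 2
  have a3 := mul_le_mul_of_nonneg_left a2 (Real.log_pos one_lt_two).le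
  push_cast
  linarith

end Pool.Agent.MP_151d89_pr.H58
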