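import Pool.Agent.MP_151d89_pr.H58.Spec

/-!
The entropy inequality.
-/

set_option autoImplicit false
open MeasureTheory Finset

namespace Pool.Agent.MP_151d89_pr.H58
open Pool.Agent.MP_151d89_pr.H82 Pool.Agent.MP_151d89_pr.H33 Pool.Agent.MP_151d89_pr.H67
  Pool.Agent.MP_151d89_pr.H30
open Classical

namespace MomP

theorem expand (Q : Finset (ℤ × ℤ)) (p : ℤ × ℤ → Prop) {z : ℝ} (hz : 0 ≤ z) :
    Real.exp (Real.log (1 + z) * ∑ x ∈ Q, ind (p x)) =
      ∑ X ∈ Q.powerset, z ^ X.card * ind (∀ x ∈ X, p x) := by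
  rw [mul_sum, Real.exp_sum, prod_congr rfl (g := fun x => 1 + z * ind (p x)) fun x _ => by
    unfold ind
    split_ifs <;> simp [Real.exp_log (by linarith : 0 < 1 + z)], prod_one_add]
  refine sum_congr rfl fun X _ => ?_
  rw [prod_mul_distrib, prod_const]
  unfold ind
  rw [prod_boole]
  congr

end MomP

theorem mom_row : MomStmt := by
  intro Λ Q g P D q z hg hq hz h
  set A := D + Q.card * (z * q)
  have h1 : ∑ X ∈ Q.powerset, z ^ X.card * av Λ (fun f => ind (∀ x ∈ X, P x f)) g ≤ Real.exp A := by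
    refine (sum_le_sum fun X hX => mul_le_mul_of_nonneg_left (h X (mem_powerset.1 hX))
      (pow_nonneg hz _)).trans ?_
    have e := prod_one_add (f := fun _ => z * q) Q
    simp only [prod_const, mul_pow] at e
    simp only [mul_left_comm _ (Real.exp D), ← mul_sum, ← e, A, Real.exp_add, Real.exp_nat_mul]
    gcongr
    linarith [Real.add_one_le_exp (z * q)]
  have h2 : av Λ (fun f => Real.log (1 + z) * ∑ x ∈ Q, ind (P x f) + (1 - A)) g ≤
      av Λ (fun f => (Real.exp A)⁻¹ * ∑ X ∈ Q.powerset, z ^ X.card * ind (∀ x ∈ X, P x f)) g :=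
    av_le fun f _ => by
      rw [← MomP.expand Q (fun x => P x f) hz, ← Real.exp_neg, ← Real.exp_add]
      exact le_trans (by linarith) (Real.add_one_le_exp _)
  simp only [av_add, av_smul, av_const _ _ hg, av_sum] at h2 ⊢
  linarith [inv_mul_le_one_of_le₀ h1 (Real.exp_pos _).le]

end Pool.Agent.MP_151d89_pr.H58
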