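import Pool.Agent.MP_151d89_pr.H58.Spec

/-!
The number of shorter available towers close to an available tower.
-/

set_option autoImplicit false
open MeasureTheory Finset

namespace Pool.Agent.MP_151d89_pr.H58
open Pool.Agent.MP_151d89_pr.H82 Pool.Agent.MP_151d89_pr.H33 Pool.Agent.MP_151d89_pr.H67
  Pool.Agent.MP_151d89_pr.H30
open Classical

namespace NearP

/-- coordinates along and across the direction b -/
def co (b : Bool) (x : ℤ × ℤ) (a c : ℤ) : ℤ × ℤ := pt b x a + c • dir (!b)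

theorem row {s : ℤ} {b : Bool} {x : ℤ × ℤ} {l : ℕ} {f : Conf} (h : Av s (b, x, l) f) {a c : ℤ}
    (h0 : 0 ≤ a) (h1 : a ≤ l) (h2 : -1 ≤ c) (h3 : c ≤ 1) :
    f (co b x a c) = f x + a + c ^ 2 * s := by
  obtain ⟨t, rfl⟩ := Int.eq_ofNat_of_zero_le h0
  have ht : t ≤ l := by omega
  obtain rfl | rfl | rfl : c = -1 ∨ c = 0 ∨ c = 1 := by omega
  · simpa [co, sub_eq_add_neg] using (h.2.2.2 t ht).2
  · simpa [co] using h.1 t ht
  · simpa [co] using (h.2.2.2 t ht).1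

/-- the set of possible coordinates of the ends -/
noncomputable def T (b : Bool) (l : ℕ) : Finset (Bool × ℤ × ℤ) :=
  {b} ×ˢ Icc (-(l : ℤ) - 1) (2 * l + 1) ×ˢ Icc (-1 : ℤ) 1 ∪
    {!b} ×ˢ ({-1, 0, (l : ℤ), (l : ℤ) + 1} : Finset ℤ) ×ˢ Icc (-(l : ℤ) - 1) (l + 1)

theorem card_T (b : Bool) (l : ℕ) : (T b l).card ≤ 21 * (l + 1) := by
  refine (card_union_le _ _).trans ?_
  simp only [card_product, card_singleton, Int.card_Icc]
  have h : ({-1, 0, (l : ℤ), (l : ℤ) + 1} : Finset ℤ).card ≤ 4 := card_le_four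
  have e1 : (2 * (l : ℤ) + 1 + 1 - (-(l : ℤ) - 1)).toNat = 3 * l + 3 := by omega
  have e2 : ((l : ℤ) + 1 + 1 - (-(l : ℤ) - 1)).toNat = 2 * l + 3 := by omega
  have e3 : ((1 : ℤ) + 1 - -1).toNat = 3 := by omega
  rw [e1, e2, e3]
  have := Nat.mul_le_mul_right (2 * l + 3) h
  omega

theorem key {s s' : ℤ} {b b' : Bool} {x x' : ℤ × ℤ} {l l' : ℕ} {f : Conf}
    (h : Av s (b, x, l) f) (h' : Av s' (b', x', l') f) (hn : Near (b, x, l) (b', x', l'))
    (hl : l' ≤ l) {u : ℕ} (hu : u ≤ l') :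
    ∃ z ∈ T b l, (z.1, co b x z.2.1 z.2.2) = (b', pt b' x' u) := by
  obtain ⟨_, hy, _, hy', hb⟩ := hn
  obtain ⟨t, ht, rfl⟩ := mem_tow.1 hy
  obtain ⟨t', ht', rfl⟩ := mem_tow.1 hy'
  simp only at ht ht'
  obtain ⟨a, c, rfl⟩ : ∃ a c, x' = co b x a c := by
    cases b
    · exact ⟨x'.2 - x.2, x'.1 - x.1, by ext <;> simp [co, pt, dir]⟩
    · exact ⟨x'.1 - x.1, x'.2 - x.2, by ext <;> simp [co, pt, dir]⟩
  by_cases e : b' = b
  · subst e
    refine ⟨(b', a + u, c), ?_, ?_⟩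
    · have : (-(l : ℤ) - 1 ≤ a + u ∧ a + u ≤ 2 * l + 1) ∧ -1 ≤ c ∧ c ≤ 1 := by
        cases b' <;> simp [mem_box, co, pt, dir] at hb <;> omega
      simp [T, this]
    · cases b' <;> simp [co, pt, dir, add_assoc]
  · obtain rfl : b' = !b := by cases b <;> cases b' <;> simp_all
    have h1 : (-1 ≤ a ∧ a ≤ l + 1) ∧ -1 ≤ c + t' ∧ c + t' ≤ 1 := by
      cases b <;> simp [mem_box, co, pt, dir] at hb <;> omega
    have h2 : ¬ (1 ≤ a ∧ a + 1 ≤ l) := fun ha => by
      have e1 := row h (a := a + 1) (by omega) (by omega) h1.2.1 h1.2.2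
      have e2 := row h (a := a - 1) (by omega) (by omega) h1.2.1 h1.2.2
      have e3 := row h' (a := t') (c := 1) (by omega) (by omega) (by omega) (by omega)
      have e4 := row h' (a := t') (c := -1) (by omega) (by omega) (by omega) (by omega)
      have e5 : co (!b) (co b x a c) t' 1 = co b x (a + 1) (c + t') := by
        cases b <;> ext <;> simp [co, pt, dir] <;> ring
      have e6 : co (!b) (co b x a c) t' (-1) = co b x (a - 1) (c + t') := by
        cases b <;> ext <;> simp [co, pt, dir] <;> ring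
      rw [e5] at e3
      rw [e6] at e4
      linarith
    refine ⟨(!b, a, c + u), ?_, ?_⟩
    · have h3 : a = -1 ∨ a = 0 ∨ a = l ∨ a = l + 1 := by omega
      have h4 : -(l : ℤ) - 1 ≤ c + u ∧ c + u ≤ l + 1 := by omega
      simp only [T, mem_union, mem_product, mem_singleton, mem_insert, mem_Icc]
      exact Or.inr ⟨trivial, h3, h4⟩
    · cases b <;> simp [co, pt, dir, add_assoc]

theorem inj1 {b : Bool} {x : ℤ × ℤ} {l l' : ℕ} {f : Conf} (h : Av (-1) (b, x, l) f)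
    (h' : Av (-1) (b, x, l') f) : l' ≤ l := by
  by_contra hl
  have e1 := h.2.2.1
  have e2 := h'.1 (l + 1) (by simp only; omega)
  simp only [Nat.cast_add, Nat.cast_one] at e1 e2
  omega

theorem inj2 {b : Bool} {x x' : ℤ × ℤ} {l l' : ℕ} {f : Conf} (h : Av 1 (b, x, l) f)
    (h' : Av 1 (b, x', l') f) (e : pt b x l = pt b x' l') : l' ≤ l := by
  by_contra hl
  obtain ⟨d, rfl⟩ : ∃ d, l' = l + (d + 1) := ⟨l' - l - 1, by omega⟩
  obtain rfl : x = pt b x' (d + 1 : ℕ) := by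
    cases b <;> simp only [pt_true, pt_false, Prod.ext_iff] at e ⊢ <;> omega
  have e1 := h.2.1
  have e2 := h'.1 (d + 1) (by simp only; omega)
  have e3 := h'.1 d (by simp only; omega)
  have e4 : pt b (pt b x' (d + 1 : ℕ)) (-1) = pt b x' d := by
    cases b <;> simp [pt_true, pt_false] <;> ring
  simp only at e1 e2 e3
  rw [e4] at e1
  omega

end NearP

theorem near_row : NearStmt := by
  rintro I ⟨b, x, l⟩ s s' f hs h
  refine le_trans ?_ (card_image_le.trans (NearP.card_T b l) :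
    ((NearP.T b l).image fun z => (z.1, NearP.co b x z.2.1 z.2.2)).card ≤ _)
  rcases hs with rfl | rfl
  · refine card_le_card_of_injOn (fun n => (n.1, pt n.1 n.2.1 n.2.2)) ?_ ?_
    · rintro ⟨b', x', l'⟩ hn
      rw [mem_coe, mem_filter] at hn
      exact mem_coe.2 (mem_image.2 (NearP.key h hn.2.2.2 hn.2.1 hn.2.2.1 le_rfl))
    · rintro ⟨b1, x1, l1⟩ h1 ⟨b2, x2, l2⟩ h2 e
      rw [mem_coe, mem_filter] at h1 h2
      obtain ⟨rfl, e⟩ := Prod.ext_iff.1 e
      simp only at e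
      obtain rfl : l1 = l2 := le_antisymm (NearP.inj2 h2.2.2.2 h1.2.2.2 e.symm)
        (NearP.inj2 h1.2.2.2 h2.2.2.2 e)
      rw [add_right_cancel (a := x1) (c := x2) e]
  · refine card_le_card_of_injOn (fun n => (n.1, pt n.1 n.2.1 (0 : ℕ))) ?_ ?_
    · rintro ⟨b', x', l'⟩ hn
      rw [mem_coe, mem_filter] at hn
      exact mem_coe.2 (mem_image.2 (NearP.key h hn.2.2.2 hn.2.1 hn.2.2.1 (Nat.zero_le _)))
    · rintro ⟨b1, x1, l1⟩ h1 ⟨b2, x2, l2⟩ h2 e
      rw [mem_coe, mem_filter] at h1 h2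
      obtain ⟨rfl, e⟩ := Prod.ext_iff.1 e
      obtain rfl : x1 = x2 := add_right_cancel (a := x1) (c := x2) e
      rw [le_antisymm (NearP.inj1 h2.2.2.2 h1.2.2.2) (NearP.inj1 h1.2.2.2 h2.2.2.2)]

end Pool.Agent.MP_151d89_pr.H58
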