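import Pool.Agent.MP_151d89_pr.H58.Spec

/-!
The discrete Prekopa-Leindler inequality.
-/

set_option autoImplicit false
open MeasureTheory Finset

namespace Pool.Agent.MP_151d89_pr.H58
open Pool.Agent.MP_151d89_pr.H82 Pool.Agent.MP_151d89_pr.H33 Pool.Agent.MP_151d89_pr.H67
  Pool.Agent.MP_151d89_pr.H30
open Classical

namespace PLP

theorem two {f0 f1 g0 g1 h0 h1 k0 k1 : ℝ} (_ : 0 ≤ f0) (a1 : 0 ≤ f1) (_ : 0 ≤ g0) (b1 : 0 ≤ g1)
    (c0 : 0 ≤ h0) (c1 : 0 ≤ h1) (d0 : 0 ≤ k0) (d1 : 0 ≤ k1) (e0 : f0 * g0 ≤ h0 * k0)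
    (e1 : f0 * g1 ≤ h0 * k1) (e2 : f1 * g0 ≤ h0 * k1) (e3 : f1 * g1 ≤ h1 * k1) :
    (f0 + f1) * (g0 + g1) ≤ (h0 + h1) * (k0 + k1) := by
  have key : f0 * g1 + f1 * g0 ≤ h0 * k1 + h1 * k0 := by
    rcases (mul_nonneg c0 d1).eq_or_lt with h | h
    · nlinarith [mul_nonneg c1 d0]
    · refine le_of_mul_le_mul_right ?_ h
      have := mul_le_mul e0 e3 (mul_nonneg a1 b1) (mul_nonneg c0 d0)
      nlinarith [mul_nonneg (sub_nonneg.2 e1) (sub_nonneg.2 e2)]
  nlinarith

theorem hom_lo {g g' : Conf} (h : Hom g) (h' : Hom g') (p : ∀ y, (g y - g' y) % 2 = 0) :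
    Hom (lo g g') ∧ Hom (hi g g') := by
  constructor <;>
  · intro x y hxy
    have h1 := h x y hxy
    have h2 := h' x y hxy
    have h3 := p x
    rw [abs_eq (by norm_num)] at h1 h2 ⊢
    simp only [lo, hi]
    omega

theorem lo_up (g g' : Conf) (z : ℤ × ℤ) (t t' : ℤ) :
    lo (Function.update g z t) (Function.update g' z t') =
      Function.update (lo g g') z (t + 2 * ((t' - t) / 4)) ∧
    hi (Function.update g z t) (Function.update g' z t') =
      Function.update (hi g g') z (t' - 2 * ((t' - t) / 4)) := by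
  constructor <;>
  · funext y
    by_cases e : y = z
    · subst e; simp [lo, hi]
    · simp [lo, hi, e]

end PLP

open PLP in
theorem pl_row : PLStmt := by
  intro Λ g g' F G H K hp hF hG hH hK h
  induction Λ using lex_ind generalizing g g' with
  | h0 =>
    have p : ∀ y, (g y - g' y) % 2 = 0 := fun y => hp y (notMem_empty y)
    have n0 := mul_nonneg (sum_nonneg fun a (_ : a ∈ FS ∅ (lo g g')) => hH a)
      (sum_nonneg fun a (_ : a ∈ FS ∅ (hi g g')) => hK a)
    by_cases h1 : Hom g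
    · by_cases h2 : Hom g'
      · simpa [FS_empty, h1, h2, hom_lo h1 h2 p] using h g (self_FS _ h1) g' (self_FS _ h2)
      · simpa [FS_empty g', h2] using n0
    · simpa [FS_empty g, h1] using n0
  | h1 z Λ hl ih =>
    have hz : z ∉ Λ := fun e => by have := hl z e; omega
    have hz' : (z.1 - 1, z.2) ∉ Λ := fun e => by have := hl _ e; simp only at this; omega
    have p := hp (z.1 - 1, z.2) (by
      simp only [mem_insert, not_or]
      exact ⟨fun e => by have := congrArg Prod.fst e; simp only at this; omega, hz'⟩)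
    have key : ∀ t t' s s' : ℤ, (t - t') % 2 = 0 → s = t + 2 * ((t' - t) / 4) →
        s' = t' - 2 * ((t' - t) / 4) →
        (∑ a ∈ FS Λ (Function.update g z t), F a) * ∑ a ∈ FS Λ (Function.update g' z t'), G a ≤
          (∑ a ∈ FS Λ (Function.update (lo g g') z s), H a) *
            ∑ a ∈ FS Λ (Function.update (hi g g') z s'), K a := by
      rintro t t' _ _ ht rfl rfl
      rw [← (lo_up g g' z t t').1, ← (lo_up g g' z t t').2]
      refine ih _ _ (fun y hy => ?_) fun u hu v hv => ?_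
      · by_cases e : y = z
        · rw [e, Function.update_self, Function.update_self, ht]
        · rw [Function.update_of_ne e, Function.update_of_ne e]
          exact hp y (by simp [e, hy])
      · rw [← fib Λ _ hz] at hu hv
        exact h u (mem_filter.1 hu).1 v (mem_filter.1 hv).1
    rw [split Λ g hz hz', split Λ g' hz hz']
    generalize g (z.1 - 1, z.2) = A at *
    generalize g' (z.1 - 1, z.2) = B at *
    have n : ∀ (g : Conf) {F : Conf → ℝ}, (∀ a, 0 ≤ F a) → 0 ≤ ∑ a ∈ FS Λ g, F a :=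
      fun g F hF => sum_nonneg fun a _ => hF a
    refine le_trans ?_ (mul_le_mul
      (split_le Λ _ hz (t := A - 1 + 2 * ((B - A) / 4)) (t' := A + 1 + 2 * ((B - A) / 4))
        (by omega) hH)
      (split_le Λ _ hz (t := B - 1 - 2 * ((B - A) / 4)) (t' := B + 1 - 2 * ((B - A) / 4))
        (by omega) hK) (add_nonneg (n _ hK) (n _ hK)) (sum_nonneg fun a _ => hH a))
    by_cases hd : (B - A) % 4 = 0
    · refine two (n _ hF) (n _ hF) (n _ hG) (n _ hG) (n _ hH) (n _ hH) (n _ hK) (n _ hK) ?_ ?_ ?_ ?_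
      all_goals exact key _ _ _ _ (by omega) (by omega) (by omega)
    · refine le_of_le_of_eq (two (n _ hF) (n _ hF) (n _ hG) (n _ hG) (n _ hK) (n _ hK) (n _ hH)
        (n _ hH) ?_ ?_ ?_ ?_) (mul_comm _ _)
      all_goals exact (key _ _ _ _ (by omega) (by omega) (by omega)).trans_eq (mul_comm _ _)

end Pool.Agent.MP_151d89_pr.H58
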