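import Pool.Agent.MP_151d89_pr.H58.Spec

/-! Few configurations are predictable. -/

set_option autoImplicit false
open MeasureTheory Finset

namespace Pool.Agent.MP_151d89_pr.H58
open Pool.Agent.MP_151d89_pr.H82 Pool.Agent.MP_151d89_pr.H33 Pool.Agent.MP_151d89_pr.H67
  Pool.Agent.MP_151d89_pr.H30
open Classical

namespace PredP

theorem pred (r : ℕ) (z : ℤ × ℤ) (g : Conf) : ∃ p : ℤ, ∀ a : Conf,
    (∀ y : ℤ × ℤ, y.2 < z.2 ∨ (y.2 = z.2 ∧ y.1 < z.1) → a y = g y) → (Err r z a ↔ a z ≠ p) := by
  refine ⟨if Trig r z g then 2 * g (z.1 + -1, z.2) - g (z.1 + -1 + -1, z.2)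
    else 2 * g (z.1, z.2 + -1) - g (z.1, z.2 + -1 + -1), fun a h => ?_⟩
  have h1 : Trig r z a ↔ Trig r z g := by
    refine forall_congr' fun i => forall_congr' fun hi => forall_congr' fun _ => ?_
    simp only [Tn, pt_true]
    rw [h, h (z.1 + -i, z.2), h (z.1 + -i + -1, z.2)] <;> simp only [true_and] <;> omega
  have e1 : (z.1 + -1 + 1, z.2) = z := by simp
  have e2 : (z.1, z.2 + -1 + 1) = z := by simp
  simp only [Err, h1, Tn, pt_true, pt_false, e1, e2]
  rw [h (z.1 + -1, z.2), h (z.1 + -1 + -1, z.2), h (z.1, z.2 + -1), h (z.1, z.2 + -1 + -1)]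
  · split_ifs with h2
    · simp only [h2, true_and, not_true, false_and, or_false]; omega
    · simp only [h2, true_and, not_false_iff, false_and, false_or]; omega
  all_goals simp only [true_and]; omega

end PredP

theorem pred_row : PredStmt := by
  intro r Λ g t h0 h1
  induction Λ using lex_ind generalizing g with
  | h0 => rw [FS_empty]; split_ifs <;> simp [num]
  | h1 z Λ h ih =>
    have hz : z ∉ Λ := fun e => by have := h z e; omega
    obtain ⟨p, hp⟩ := PredP.pred r z g
    have key : ∀ v : ℤ, ∑ a ∈ FS Λ (Function.update g z v),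
        t ^ (num (insert z Λ) fun y => Err r y a) ≤ (if v = p then 1 else t) * (1 + t) ^ Λ.card := by
      intro v
      refine le_trans (le_of_eq ?_) (mul_le_mul_of_nonneg_left (ih (Function.update g z v))
        (by split_ifs <;> positivity))
      rw [mul_sum]
      refine sum_congr rfl fun a ha => ?_
      have h2 := (mem_FS.1 ha).2
      have h3 := hp a fun y hy => by
        rw [h2 y fun e => by have := h y e; omega, Function.update_of_ne fun e => by
          rw [e] at hy; omega]
      rw [h2 z hz, Function.update_self] at h3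
      unfold num
      rw [filter_insert]
      by_cases e : v = p
      · rw [if_neg fun e' => h3.1 e' e, if_pos e, one_mul]
      · rw [if_pos (h3.2 e), if_neg e, card_insert_of_notMem fun e => hz (mem_filter.1 e).1,
          pow_succ']
    rw [split Λ g hz fun e => by have := h _ e; simp only at this; omega,
      card_insert_of_notMem hz, pow_succ']
    refine (add_le_add (key _) (key _)).trans ?_
    rw [← add_mul]
    refine mul_le_mul_of_nonneg_right ?_ (by positivity)
    split_ifs
    · omega
    all_goals linarith

end Pool.Agent.MP_151d89_pr.H58
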