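import Pool.Agent.MP_151d89_pr.H58.Spec

/-!
The patterns are dense on a given set with probability at least exp (- C a n).
-/

set_option autoImplicit false
open MeasureTheory Finset

namespace Pool.Agent.MP_151d89_pr.H58
open Pool.Agent.MP_151d89_pr.H82 Pool.Agent.MP_151d89_pr.H33 Pool.Agent.MP_151d89_pr.H67
  Pool.Agent.MP_151d89_pr.H30
open Classical

namespace ShiftP

theorem ind0 (p : Prop) : 0 ≤ ind p := by unfold ind; split_ifs <;> norm_num

theorem sum_box (y : ℤ × ℤ) (ρ : ℕ) (φ : ℤ × ℤ → ℝ) :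
    ∑ x ∈ box y ρ, φ x = ∑ z ∈ box 0 ρ, φ (y + z) := by
  refine sum_nbij' (fun x => x - y) (fun z => y + z) ?_ ?_ ?_ ?_ ?_
  · intro x hx
    simp only [mem_box, Prod.fst_sub, Prod.snd_sub, Prod.fst_zero, Prod.snd_zero] at hx ⊢
    omega
  · intro x hx
    simp only [mem_box, Prod.fst_add, Prod.snd_add, Prod.fst_zero, Prod.snd_zero] at hx ⊢
    omega
  · intro x _; simp
  · intro x _; simp
  · intro x _; simp

/-- a translate of the set carries many patterns on average -/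
theorem pick {n r ρ : ℕ} {g : Conf} (hg : Hom g) {A : Finset (ℤ × ℤ)} (hA : A ⊆ box 0 r)
    (hn : r + ρ ≤ n) {P : ℤ × ℤ → Conf → Prop} {B : Conf → Prop} {q p : ℝ} (q0 : 0 ≤ q)
    (hB : av (box 0 n) (fun f => ind (¬ B f)) g ≤ p)
    (hL : ∀ y ∈ box 0 r, ∀ f, Hom f → B f →
      q * (2 * ρ + 1) ^ 2 ≤ av (box y ρ) (fun f => (num (box y ρ) fun x => P x f : ℕ)) f) :
    ∃ z ∈ box 0 ρ, A.card * (q * (1 - p)) ≤
      av (box 0 n) (fun f => (num A fun y => P (y + z) f : ℕ)) g := by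
  have h1 : ∀ y ∈ A, q * (2 * ρ + 1) ^ 2 * (1 - p) ≤
      av (box 0 n) (fun f => ∑ z ∈ box 0 ρ, ind (P (y + z) f)) g := by
    intro y hy
    have hs : box y ρ ⊆ box 0 n := fun x hx => by
      have := hA hy
      simp only [mem_box, Prod.fst_zero, Prod.snd_zero] at hx this ⊢
      omega
    have e : (fun f => ∑ z ∈ box 0 ρ, ind (P (y + z) f)) =
        fun f => ((num (box y ρ) fun x => P x f : ℕ) : ℝ) := by
      funext f
      rw [num_eq, sum_box y ρ fun x => ind (P x f)]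
    rw [e, ← av_tower hs]
    refine le_trans ?_ (av_le (φ := fun f => q * (2 * ρ + 1) ^ 2 * (1 - ind (¬ B f)))
      fun f hf => ?_)
    · rw [av_smul, av_sub, av_const _ _ hg]
      exact mul_le_mul_of_nonneg_left (by linarith) (by positivity)
    · by_cases hb : B f
      · simpa [ind, hb] using hL y (hA hy) f (mem_FS.1 hf).1 hb
      · simpa [ind, hb] using av_nonneg (fun a => Nat.cast_nonneg _) f
  refine exists_le_of_sum_le ⟨0, by simp [mem_box]⟩ ?_
  simp only [num_eq]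
  have h2 := sum_le_sum h1
  simp only [av_sum] at h2 ⊢
  rw [sum_comm] at h2
  refine le_trans (le_of_eq ?_) h2
  simp only [sum_const, nsmul_eq_mul, card_box]
  push_cast
  ring

theorem opp_shift {b : Bool} {s k : ℤ} {y z : ℤ × ℤ} {v γ : Conf}
    (h : ∀ x ∈ box y 1, γ x = v (x + z) + k) (ho : Opp b s (y + z) v) : Opp b s y γ := by
  have h0 := h y (by simp [mem_box])
  have h1 := h (pt b y 1) (by cases b <;> simp [mem_box, pt, dir] <;> omega)
  have h2 := h (pt b y (-1)) (by cases b <;> simp [mem_box, pt, dir])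
  have h3 := h (y + dir (!b)) (by cases b <;> simp [mem_box, dir] <;> omega)
  have h4 := h (y - dir (!b)) (by cases b <;> simp [mem_box, dir] <;> omega)
  have e : ∀ t, pt b y t + z = pt b (y + z) t := fun t => by unfold pt; abel
  have e3 : y + dir (!b) + z = y + z + dir (!b) := by abel
  have e4 : y - dir (!b) + z = y + z - dir (!b) := by abel
  rw [e] at h1 h2
  rw [e3] at h3
  rw [e4] at h4
  obtain ⟨o1, o2, o3, o4⟩ := ho
  refine ⟨?_, ?_, ?_, ?_⟩ <;> omega

/-- transplanting a translated configuration -/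
theorem move (h2 : GlueStmt) {δ c a : ℝ} {u : ℝ × ℝ} {m ρ w : ℕ} {g : Conf} (d0 : 0 < δ)
    (hu : Sl δ u) (hw : a + 1 + 2 ≤ δ * w) {z : ℤ × ℤ} (hz : z ∈ box 0 ρ) : ∃ k : ℤ,
    ∀ v ∈ FS (box 0 (m + ρ + 2 * w)) g, Band u c a (box 0 (m + ρ + 2 * w + 1)) v →
      ∃ γ ∈ FS (box 0 (m + ρ + 2 * w)) g, ∀ y ∈ box 0 m, γ y = v (y + z) + k := by
  let t : ℤ := |z.1| + |z.2|
  let x : ℝ := (u.1 * z.1 + u.2 * z.2 - t) / 2
  refine ⟨-(t + 2 * round x), fun v hv hb => ?_⟩
  have hv' := mem_FS.1 hv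
  have hh : Hom fun y => v (y + z) := fun x y h => hv'.1 _ _ (by simpa using h)
  rw [← FS_congr hv'.2]
  refine h2 δ c (a + 1) u 0 _ m w v _ d0 hu hv'.1 (hom_shift hh _) ?_ hw (by omega)
    (fun y hy => (hb y hy).trans (by linarith)) fun y hy => ?_
  · have := (lip hv'.1 z 0).2
    simp only [Prod.fst_zero, Prod.snd_zero, sub_zero, zero_add] at this ⊢
    omega
  · have h3 := abs_le.1 (hb (y + z) (by
      simp only [mem_box, Prod.fst_add, Prod.snd_add, Prod.fst_zero, Prod.snd_zero] at hy hz ⊢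
      omega))
    have h4 := abs_le.1 (abs_sub_round x)
    have h5 : 2 * x = u.1 * z.1 + u.2 * z.2 - t := by simp only [x]; ring
    simp only [pl, Prod.fst_add, Prod.snd_add] at h3 ⊢
    push_cast at h3 ⊢
    rw [abs_le]
    constructor <;> linarith [h3.1, h3.2, h4.1, h4.2]

/-- counting the fibres -/
theorem fibre {n m : ℕ} {g : Conf} {z : ℤ × ℤ} {k : ℤ} (hs : box z m ⊆ box 0 n)
    {G T : Finset Conf} (hG : G ⊆ FS (box 0 n) g)
    (h : ∀ v ∈ G, ∃ γ ∈ T, ∀ y ∈ box 0 m, γ y = v (y + z) + k) :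
    G.card ≤ 2 ^ ((2 * n + 1) ^ 2 - (2 * m + 1) ^ 2) * T.card := by
  choose! γ h1 h2 using h
  refine card_le_mul_card_image_of_maps_to h1 _ fun t _ => ?_
  rcases (G.filter fun v => γ v = t).eq_empty_or_nonempty with e | ⟨v₀, h0⟩
  · simp [e]
  rw [← card_box 0 n, ← card_box z m, ← card_sdiff_of_subset hs]
  refine le_trans (card_le_card fun v hv => ?_) (card_le _ v₀)
  rw [mem_filter] at hv h0
  have a1 := mem_FS.1 (hG hv.1)
  have a2 := mem_FS.1 (hG h0.1)
  refine mem_FS.2 ⟨a1.1, fun x hx => ?_⟩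
  by_cases hx' : x ∈ box z m
  · have hy : x - z ∈ box 0 m := by
      simp only [mem_box, Prod.fst_sub, Prod.snd_sub, Prod.fst_zero, Prod.snd_zero] at hx' ⊢
      omega
    have b1 := h2 v hv.1 _ hy
    have b2 := h2 v₀ h0.1 _ hy
    rw [hv.2, sub_add_cancel] at b1
    rw [h0.2, sub_add_cancel] at b2
    omega
  · have : x ∉ box 0 n := fun e => hx (mem_sdiff.2 ⟨e, hx'⟩)
    rw [a1.2 x this, a2.2 x this]

theorem fibre' {n m : ℕ} {g : Conf} {z : ℤ × ℤ} {k : ℤ} (hs : box z m ⊆ box 0 n)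
    {P Q : Conf → Prop} (h : ∀ v ∈ FS (box 0 n) g, P v →
      ∃ γ ∈ FS (box 0 n) g, Q γ ∧ ∀ y ∈ box 0 m, γ y = v (y + z) + k) :
    av (box 0 n) (fun f => ind (P f)) g ≤
      2 ^ ((2 * n + 1) ^ 2 - (2 * m + 1) ^ 2) * av (box 0 n) (fun f => ind (Q f)) g := by
  rw [av_ind, av_ind, ← mul_div_assoc]
  refine div_le_div_of_nonneg_right ?_ (Nat.cast_nonneg _)
  exact_mod_cast fibre hs (filter_subset _ _) fun v hv => by
    obtain ⟨γ, h1, h2, h3⟩ := h v (mem_filter.1 hv).1 (mem_filter.1 hv).2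
    exact ⟨γ, mem_filter.2 ⟨h1, h2⟩, h3⟩

end ShiftP

open ShiftP in
theorem shift_row (h1 : LocStmt) (h2 : GlueStmt) : ShiftStmt := by
  intro δ d0
  obtain ⟨p0, C0, hp0, hL⟩ := h1 δ d0
  obtain ⟨q, q0, q1, qp⟩ : ∃ q : ℝ, 0 < q ∧ q ≤ 1 ∧ q ≤ p0 :=
    ⟨min p0 1, lt_min hp0 one_pos, min_le_right _ _, min_le_left _ _⟩
  obtain ⟨D, hD⟩ : ∃ D : ℝ, D = |C0| + 1 + 2 * (3 / δ + 1) + 1 := ⟨_, rfl⟩
  have D0 : 0 ≤ D := by rw [hD]; positivity
  have L0 : 0 ≤ Real.log (2 / q) := Real.log_nonneg (by rw [le_div_iff₀ q0]; linarith)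
  refine ⟨q / 8, 12 * D + Real.log (2 / q), by positivity, by positivity, ?_⟩
  intro c a u n r g b s A hs hu hg a0 hn hA hB
  rcases A.eq_empty_or_nonempty with rfl | hA0
  · have : ∀ f : Conf, ind (q / 8 * ((∅ : Finset (ℤ × ℤ)).card : ℝ) ≤
        (num ∅ fun y => Opp b s y f : ℕ)) = 1 := fun f => by simp [ind]
    simp only [this, av_const _ _ hg]
    exact Real.exp_le_one_iff.2 (neg_nonpos.2 (by positivity))
  obtain ⟨ρ, r1, r2⟩ : ∃ ρ : ℕ, C0 * (a + 1) ≤ ρ ∧ (ρ : ℝ) ≤ (|C0| + 1) * (a + 1) := by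
    refine ⟨⌈|C0| * (a + 1)⌉₊, le_trans ?_ (Nat.le_ceil _), ?_⟩
    · exact mul_le_mul_of_nonneg_right (le_abs_self _) (by linarith)
    · have := Nat.ceil_lt_add_one (a := |C0| * (a + 1)) (by positivity)
      linarith
  obtain ⟨w, w1, w2⟩ : ∃ w : ℕ, a + 1 + 2 ≤ δ * w ∧ (w : ℝ) ≤ (3 / δ + 1) * (a + 1) := by
    refine ⟨⌈(a + 3) / δ⌉₊, ?_, ?_⟩
    · have := Nat.le_ceil ((a + 3) / δ)
      rw [div_le_iff₀ d0] at this
      linarith
    · have := Nat.ceil_lt_add_one (a := (a + 3) / δ) (by positivity)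
      have h3 : (a + 3) / δ ≤ 3 / δ * (a + 1) := by
        rw [div_mul_eq_mul_div]
        exact div_le_div_of_nonneg_right (by linarith) d0.le
      linarith
  have hd : (ρ : ℝ) + 2 * w + 1 ≤ D * (a + 1) := by rw [hD]; linarith
  have hn' : r + 1 + ρ + 2 * w ≤ n := by
    have h3 : D * (a + 1) ≤ (12 * D + Real.log (2 / q)) * (a + 1) :=
      mul_le_mul_of_nonneg_right (by linarith) (by linarith)
    have : ((r + 1 + ρ + 2 * w : ℕ) : ℝ) ≤ n := by push_cast; linarith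
    exact_mod_cast this
  obtain ⟨m, rfl, hm⟩ : ∃ m, n = m + ρ + 2 * w ∧ r + 1 ≤ m := ⟨n - ρ - 2 * w, by omega, by omega⟩
  obtain ⟨z, hz, hav⟩ := pick hg hA (ρ := ρ) (by omega) (P := fun y f => Opp b s y f) q0.le hB
    fun y hy f hf hb => le_trans (mul_le_mul_of_nonneg_right qp (by positivity))
      (hL c a u y ρ f b s hs hu hf a0 r1 fun x hx => hb x (by
        simp only [mem_box, Prod.fst_zero, Prod.snd_zero] at hx hy ⊢
        omega))
  obtain ⟨k, hk⟩ := move h2 (c := c) (m := m) (g := g) d0 hu w1 hz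
  generalize hN : m + ρ + 2 * w = n at *
  have A0 : (0 : ℝ) < A.card := Nat.cast_pos.2 hA0.card_pos
  have hG : q / 2 ≤ av (box 0 n) (fun f => ind (Band u c a (box 0 (n + 1)) f ∧
      q / 8 * A.card ≤ (num A fun y => Opp b s (y + z) f : ℕ))) g := by
    have h3 := hav.trans (av_le (ψ := fun f => q / 8 * A.card + A.card *
      (ind (Band u c a (box 0 (n + 1)) f ∧
        q / 8 * A.card ≤ (num A fun y => Opp b s (y + z) f : ℕ)) +
        ind (¬ Band u c a (box 0 (n + 1)) f))) fun f _ => ?_)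
    · rw [av_add, av_const _ _ hg, av_smul, av_add] at h3
      refine le_of_mul_le_mul_left ?_ A0
      have h4 := mul_le_mul_of_nonneg_left hB A0.le
      have h5 := mul_le_mul_of_nonneg_left (show q * (7 / 8) ≤ q * (1 - q / 8) by nlinarith) A0.le
      nlinarith [mul_pos A0 q0]
    · have h4 : ((num A fun y => Opp b s (y + z) f : ℕ) : ℝ) ≤ A.card :=
        Nat.cast_le.2 (card_filter_le _ _)
      have h5 : 0 ≤ q / 8 * A.card := by positivity
      by_cases hb : Band u c a (box 0 (n + 1)) f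
      · by_cases hc : q / 8 * A.card ≤ (num A fun y => Opp b s (y + z) f : ℕ)
        · simp only [ind, hb, hc, and_self, if_true, not_true, if_false]
          linarith
        · simp only [ind, hb, hc, and_false, not_true, if_false]
          linarith [not_le.1 hc]
      · simp only [ind, hb, false_and, if_false, not_false_iff, if_true]
        linarith
  have hF := hG.trans (fibre' (m := m) (z := z) (k := k) (fun x hx => by
      simp only [mem_box, Prod.fst_zero, Prod.snd_zero] at hx hz ⊢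
      omega) (Q := fun f => q / 8 * A.card ≤ (num A fun y => Opp b s y f : ℕ)) fun v hv hp => by
      obtain ⟨γ, g1, g2⟩ := hk v hv hp.1
      refine ⟨γ, g1, hp.2.trans (Nat.cast_le.2 (card_le_card fun y hy => ?_)), g2⟩
      rw [mem_filter] at hy ⊢
      refine ⟨hy.1, opp_shift (k := k) (fun x hx => g2 x ?_) hy.2⟩
      have := hA hy.1
      simp only [mem_box, Prod.fst_zero, Prod.snd_zero] at hx this ⊢
      omega)
  generalize hE : (2 * n + 1) ^ 2 - (2 * m + 1) ^ 2 = E at hF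
  have n1 : (1 : ℝ) ≤ n := by exact_mod_cast (by omega : 1 ≤ n)
  have hE' : (E : ℝ) ≤ 12 * D * (a + 1) * n := by
    have h3 : E ≤ 12 * (ρ + 2 * w) * n := by
      rw [← hE, tsub_le_iff_right]
      have : 1 ≤ m := by omega
      subst hN
      nlinarith [Nat.zero_le (ρ + 2 * w), Nat.zero_le ((ρ + 2 * w) * m),
        Nat.zero_le ((ρ + 2 * w) * (ρ + 2 * w)), Nat.mul_le_mul_left (ρ + 2 * w) this]
    have h4 : (E : ℝ) ≤ 12 * (ρ + 2 * w) * n := by exact_mod_cast h3
    nlinarith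
  have h6 : (2 : ℝ) ^ E ≤ Real.exp E := by
    rw [← mul_one (E : ℝ), Real.exp_nat_mul]
    exact pow_le_pow_left₀ (by norm_num) (by linarith [Real.add_one_le_exp 1]) _
  have h7 : Real.exp (-((12 * D + Real.log (2 / q)) * (a + 1) * n)) * Real.exp E ≤ q / 2 := by
    rw [← Real.exp_add, ← Real.exp_log (show 0 < q / 2 by positivity), Real.exp_le_exp,
      ← inv_div 2 q, Real.log_inv]
    have : Real.log (2 / q) * 1 ≤ Real.log (2 / q) * ((a + 1) * n) :=
      mul_le_mul_of_nonneg_left (by nlinarith) L0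
    linarith
  refine le_of_mul_le_mul_right (h7.trans (hF.trans ?_)) (Real.exp_pos E)
  rw [mul_comm]
  exact mul_le_mul_of_nonneg_left h6 (av_nonneg (fun _ => ind0 _) g)

end Pool.Agent.MP_151d89_pr.H58
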