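import Pool.Agent.MP_151d89_pr.H58.Spec

/-! Row Surg: creating a pattern at a liquid site. -/

set_option autoImplicit false
open MeasureTheory Finset

namespace Pool.Agent.MP_151d89_pr.H58
open Pool.Agent.MP_151d89_pr.H82 Pool.Agent.MP_151d89_pr.H33 Pool.Agent.MP_151d89_pr.H67
  Pool.Agent.MP_151d89_pr.H30
open Classical

namespace SurgP

theorem hom_up (z : ℤ × ℤ) (t : ℤ) : Hom fun x => t + dist1 x z := by
  intro x y h
  simp only [dist1, Int.abs_eq_natAbs] at h ⊢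
  omega

theorem hom_dn (z : ℤ × ℤ) (t : ℤ) : Hom fun x => t - dist1 x z := by
  intro x y h
  simp only [dist1, Int.abs_eq_natAbs] at h ⊢
  omega

/-- prescribing one value -/
theorem set1 {f : Conf} (hf : Hom f) (z : ℤ × ℤ) (t : ℤ) (h : (f z - t) % 2 = 0) :
    ∃ f' : Conf, Hom f' ∧ f' z = t ∧ ∀ x, |f x - t| ≤ dist1 x z → f' x = f x := by
  have h0 : dist1 z z = 0 := by simp [dist1]
  have h1 : Hom (f ⊓ fun x => t + dist1 x z) :=
    hom_inf hf (hom_up z t) (z := z) (by simp only [h0]; omega)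
  refine ⟨(f ⊓ fun x => t + dist1 x z) ⊔ fun x => t - dist1 x z,
    hom_sup h1 (hom_dn z t) (z := z) ?_, ?_, fun x hx => ?_⟩
  · simp only [Pi.inf_apply, h0]
    omega
  · simp only [Pi.inf_apply, Pi.sup_apply, h0]
    omega
  · rw [abs_le] at hx
    simp only [Pi.inf_apply, Pi.sup_apply]
    omega

theorem turn {f : Conf} (hf : Hom f) {b : Bool} {w : ℤ × ℤ} (h : Tn b w f) :
    f (pt b w 1) = f (pt b w (-1)) := by
  have h1 := hf (pt b w 1) w (by cases b <;> simp [pt, dir])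
  have h2 := hf (pt b w (-1)) w (by cases b <;> simp [pt, dir])
  unfold Tn at h
  rw [abs_eq (by norm_num)] at h1 h2
  omega

theorem via {f : Conf} (hf : Hom f) {p q : ℤ × ℤ} (h : f p = f q) (x y : ℤ × ℤ) :
    |f x - f y| ≤ dist1 x p + dist1 y q := by
  have h1 := (lip hf x p).1
  have h2 := (lip hf p x).1
  have h3 := (lip hf y q).1
  have h4 := (lip hf q y).1
  rw [abs_le]
  simp only [dist1, Int.abs_eq_natAbs] at *
  omega

theorem far {L : ℕ} {y : ℤ × ℤ} {f : Conf} (hf : Hom f) (hL : Liq L y f) {x : ℤ × ℤ}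
    (hx : x ∉ box y L) : |f x - f y| ≤ dist1 x y - 2 := by
  obtain ⟨⟨i1, a1, b1, c1⟩, i2, a2, b2, c2⟩ := hL true
  obtain ⟨⟨i3, a3, b3, c3⟩, i4, a4, b4, c4⟩ := hL false
  have e1 := via hf (turn hf c1) x y
  have e2 := via hf (turn hf c2).symm x y
  have e3 := via hf (turn hf c3) x y
  have e4 := via hf (turn hf c4).symm x y
  rw [mem_box] at hx
  generalize |f x - f y| = A at *
  simp only [dist1, pt, dir, Prod.fst_add, Prod.snd_add, Prod.smul_mk, smul_eq_mul, mul_one,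
    mul_zero, add_zero, Int.abs_eq_natAbs] at *
  omega

/-- one step of the surgery: the value at a neighbour of `y` -/
theorem step {L : ℕ} {y : ℤ × ℤ} {f g : Conf} (hf : Hom f) (hL : Liq L y f)
    (hg : g ∈ FS (box y L) f) (hy : g y = f y) (z : ℤ × ℤ) (hz : dist1 y z = 1) (t : ℤ)
    (ht : |f y - t| = 1) : ∃ g' ∈ FS (box y L) f, g' y = f y ∧ g' z = t ∧
      ∀ x, dist1 y x = 1 → x ≠ z → g' x = g x := by
  rw [mem_FS] at hg
  have h1 := hg.1 y z hz
  rw [abs_eq (by norm_num)] at h1 ht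
  obtain ⟨g', k1, k2, k3⟩ := set1 hg.1 z t (by omega)
  refine ⟨g', mem_FS.2 ⟨k1, fun x hx => ?_⟩, ?_, k2, fun x hx hxz => k3 x ?_⟩
  · have h2 := far hf hL hx
    rw [k3 x ?_, hg.2 x hx]
    rw [hg.2 x hx]
    rw [abs_le] at h2 ⊢
    simp only [dist1, Int.abs_eq_natAbs] at *
    omega
  · rw [k3 y ?_, hy]
    rw [hz, abs_le]
    omega
  · have h2 := hg.1 y x hx
    have h3 : ¬ (x.1 = z.1 ∧ x.2 = z.2) := fun e => hxz (Prod.ext e.1 e.2)
    rw [abs_eq (by norm_num)] at h2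
    rw [abs_le]
    simp only [dist1, Int.abs_eq_natAbs] at *
    omega

end SurgP

open SurgP in
theorem surg_row : SurgStmt := by
  intro L y f b s hs hf hL
  have d1 : dist1 y (pt b y 1) = 1 := by cases b <;> simp [dist1, pt, dir]
  have d2 : dist1 y (pt b y (-1)) = 1 := by cases b <;> simp [dist1, pt, dir]
  have d3 : dist1 y (y + dir (!b)) = 1 := by cases b <;> simp [dist1, dir]
  have d4 : dist1 y (y - dir (!b)) = 1 := by cases b <;> simp [dist1, dir]
  have hs' : |f y - (f y - s)| = 1 := by rcases hs with rfl | rfl <;> simp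
  obtain ⟨g1, a1, b1, c1, -⟩ := step hf hL (self_FS _ hf) rfl _ d1 (f y - 1) (by simp)
  obtain ⟨g2, a2, b2, c2, e2⟩ := step hf hL a1 b1 _ d2 (f y + 1) (by simp)
  obtain ⟨g3, a3, b3, c3, e3⟩ := step hf hL a2 b2 _ d3 (f y - s) hs'
  obtain ⟨g4, a4, b4, c4, e4⟩ := step hf hL a3 b3 _ d4 (f y - s) hs'
  refine ⟨g4, a4, ?_, ?_, ?_, ?_⟩
  · rw [e4 _ d1 ?_, e3 _ d1 ?_, e2 _ d1 ?_, c1, b4] <;>
      cases b <;> simp [pt, dir, Prod.ext_iff]
  · rw [e4 _ d2 ?_, e3 _ d2 ?_, c2, b4] <;> cases b <;> simp [pt, dir, Prod.ext_iff]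
  · rw [e4 _ d3 ?_, c3, b4]
    cases b <;> simp [dir, Prod.ext_iff] <;> omega
  · rw [c4, b4]

end Pool.Agent.MP_151d89_pr.H58
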