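import Pool.Agent.MP_151d89_pr.H58.Spec

/-!
Row TC: the two copy inequality.
-/

set_option autoImplicit false
open MeasureTheory Finset

namespace Pool.Agent.MP_151d89_pr.H58
open Pool.Agent.MP_151d89_pr.H82 Pool.Agent.MP_151d89_pr.H33 Pool.Agent.MP_151d89_pr.H67
  Pool.Agent.MP_151d89_pr.H30
open Classical

namespace TCP

theorem conv {A B W : Finset Conf} (h : ∀ u ∈ A, ∀ v ∈ B, u + v ∈ W) :
    A.card * B.card = ∑ w ∈ W, (A.filter fun u => w - u ∈ B).card := by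
  simp only [card_filter]
  rw [sum_comm, ← smul_eq_mul, ← sum_const]
  refine sum_congr rfl fun u hu => ?_
  rw [← card_filter]
  refine card_nbij' (fun v => u + v) (fun w => w - u) (fun v hv => ?_) (fun w hw => ?_)
    (fun v _ => by simp) fun w _ => by simp
  · simpa using ⟨h u hu v hv, hv⟩
  · exact (mem_filter.1 (mem_coe.1 hw)).2

theorem hom_mid {u v : Conf} (hu : Hom u) (hv : Hom v) {z : ℤ × ℤ} (h : (u z - v z) % 2 = 0) :
    Hom (lo u v) ∧ Hom (hi u v) := by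
  constructor <;> intro x y hxy <;> have h1 := hu x y hxy <;> have h2 := hv x y hxy <;>
    have h3 := par hu hv h x <;> rw [abs_eq (by norm_num)] at h1 h2 ⊢ <;>
    simp only [lo, hi] <;> omega

theorem par_FS {Λ : Finset (ℤ × ℤ)} {g u v : Conf} (hu : u ∈ FS Λ g) (hv : v ∈ FS Λ g)
    (x : ℤ × ℤ) : (u x - v x) % 2 = 0 := by
  obtain ⟨z, hz⟩ := Infinite.exists_notMem_finset Λ
  rw [mem_FS] at hu hv
  exact par hu.1 hv.1 (z := z) (by rw [hu.2 z hz, hv.2 z hz]; simp) x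

theorem mid_FS {Λ : Finset (ℤ × ℤ)} {g u v : Conf} (hu : u ∈ FS Λ g) (hv : v ∈ FS Λ g) :
    lo u v ∈ FS Λ g ∧ hi u v ∈ FS Λ g := by
  have h := hom_mid (mem_FS.1 hu).1 (mem_FS.1 hv).1 (par_FS hu hv 0)
  rw [mem_FS] at hu hv
  exact ⟨mem_FS.2 ⟨h.1, fun x hx => by simp [lo, hu.2 x hx, hv.2 x hx]⟩,
    mem_FS.2 ⟨h.2, fun x hx => by simp [hi, hu.2 x hx, hv.2 x hx]⟩⟩

theorem upd_FS {Λ : Finset (ℤ × ℤ)} {g a : Conf} {y : ℤ × ℤ} {τ : ℤ} (ha : a ∈ FS Λ g) (hy : y ∈ Λ)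
    (hτ : τ = 1 ∨ τ = -1) (h : Ext τ y a) : Function.update a y (a y + 2 * τ) ∈ FS Λ g := by
  rw [mem_FS] at ha ⊢
  refine ⟨fun p q hpq => ?_, fun x hx => by
    rw [Function.update_of_ne fun e : x = y => hx (e ▸ hy), ha.2 x hx]⟩
  have hne : p ≠ q := fun e => by simp [e] at hpq
  by_cases c1 : p = y
  · subst c1
    rw [Function.update_self, Function.update_of_ne hne.symm, h q hpq, abs_eq (by norm_num)]
    omega
  by_cases c2 : q = y
  · subst c2
    rw [Function.update_self, Function.update_of_ne hne,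
      h p (by rwa [abs_sub_comm q.1, abs_sub_comm q.2]), abs_eq (by norm_num)]
    omega
  · rw [Function.update_of_ne c1, Function.update_of_ne c2]
    exact ha.1 p q hpq

theorem nbr (b : Bool) {y y' : ℤ × ℤ} (h : |y.1 - y'.1| + |y.2 - y'.2| = 1) :
    y' = pt b y 1 ∨ y' = pt b y (-1) ∨ y' = y + dir (!b) ∨ y' = y - dir (!b) := by
  simp only [Int.abs_eq_natAbs] at h
  cases b <;> simp only [pt_true, pt_false, dir, Bool.not_true, Bool.not_false, Prod.ext_iff,
    Prod.fst_add, Prod.snd_add, Prod.fst_sub, Prod.snd_sub] <;> omega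

theorem own {b : Bool} {s : ℤ} {l : ℕ} {X : Finset (ℤ × ℤ)} {y : ℤ × ℤ} (hy : y ∈ inn b l X) :
    ∃ x ∈ X, ∃ t : ℤ, ∀ u, Av s (b, x, l) u → u y = u x + t ∧ Opp b s y (-u) := by
  obtain ⟨x, hx, h⟩ := mem_biUnion.1 (mem_filter.1 hy).1
  obtain ⟨t, ht, rfl⟩ := mem_image.1 h
  rw [mem_Ioo] at ht
  refine ⟨x, hx, t, fun u ⟨h1, _, _, h4⟩ => ?_⟩
  have e : ∀ r : ℤ, pt b (pt b x t) r = pt b x (t + r) := fun r => by
    simp only [pt, add_smul, add_assoc]
  have a0 : u (pt b x t) = u x + t := h1 t ht.2.le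
  have a1 : u (pt b x (t + 1)) = u x + (t + 1) := h1 (t + 1) ht.2
  have a2 : u (pt b x (t - 1 : ℕ)) = u x + (t - 1 : ℕ) := h1 (t - 1) (by simp only; omega)
  have a3 : u (pt b x t + dir (!b)) = u x + t + s ∧ u (pt b x t - dir (!b)) = u x + t + s :=
    h4 t ht.2.le
  rw [show ((t - 1 : ℕ) : ℤ) = t + -1 by omega] at a2
  refine ⟨a0, ?_, ?_, ?_, ?_⟩ <;> simp only [Pi.neg_apply]
  · rw [e, a0, a1]
    ring
  · rw [e, a0, a2]
    ring
  · rw [a0, a3.1]
    ring
  · rw [a0, a3.2]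
    ring

theorem opp {b : Bool} {s : ℤ} {y y' : ℤ × ℤ} {u v : Conf} (hu : Opp b s y u) (hv : Opp b s y v)
    (h : |y.1 - y'.1| + |y.2 - y'.2| = 1) : u y' - u y = v y' - v y := by
  obtain ⟨a1, a2, a3, a4⟩ := hu
  obtain ⟨b1, b2, b3, b4⟩ := hv
  rcases nbr b h with rfl | rfl | rfl | rfl <;> omega

theorem fibre (h1 : PLStmt) (h2 : FlipStmt) {Λ : Finset (ℤ × ℤ)} (g : Conf) {b : Bool} (s : ℤ)
    {l : ℕ} {X Y : Finset (ℤ × ℤ)} (hΛ : inn b l X ⊆ Λ) (w : Conf) (hY : Y ⊆ inn b l X)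
    (hw : ∀ y ∈ Y, ∀ y' : ℤ × ℤ, |y.1 - y'.1| + |y.2 - y'.2| = 1 → w y' = w y) :
    ((FS Λ g).filter fun u => w - u ∈ FS Λ g ∧ ∀ x ∈ X, Av s (b, x, l) u).card * 2 ^ Y.card ≤
      2 ^ X.card * ((FS Λ g).filter fun u => w - u ∈ FS Λ g).card := by
  set E := (FS Λ g).filter fun u => w - u ∈ FS Λ g ∧ ∀ x ∈ X, Av s (b, x, l) u with hE
  set D := (FS Λ g).filter fun u => w - u ∈ FS Λ g with hD
  choose! o ho t ht using fun y hy => own (b := b) (s := s) (l := l) (X := X) (y := y) hy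
  let σ : Finset (ℤ × ℤ) → ℤ × ℤ → ℤ := fun β y =>
    if (w y - 2 * t y - if o y ∈ β then 0 else 2) % 4 = 0 then -1 else 1
  let T : Conf → Prop := fun a => w - a ∈ FS Λ g ∧ ∃ β ⊆ X, ∀ y ∈ Y, Ext (σ β y) y a
  have key : ∀ u ∈ FS Λ g, ∀ v ∈ FS Λ g, u ∈ E → w - v ∈ E → T (lo u v) ∧ T (hi u v) := by
    intro u hu v hv e1 e2
    obtain ⟨-, a1, a2⟩ := mem_filter.1 e1
    obtain ⟨b1, -, b2⟩ := mem_filter.1 e2
    have m := mid_FS b1 a1
    have loc : ∀ y ∈ Y, ∀ y' : ℤ × ℤ, |y.1 - y'.1| + |y.2 - y'.2| = 1 → o y ∈ X ∧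
        u y = u (o y) + t y ∧ w y - v y = (w - v) (o y) + t y ∧ v y' - v y = u y - u y' ∧
        (u y - u y' = 1 ∨ u y - u y' = -1) ∧ (u (o y) - (w - v) (o y)) % 2 = 0 ∧
        (u y - v y) % 2 = 0 := fun y hy y' hy' => by
      have c0 := ho y (hY hy)
      obtain ⟨c1, c2⟩ := ht y (hY hy) u (a2 _ c0)
      obtain ⟨c3, c4⟩ := ht y (hY hy) _ (b2 _ c0)
      have c5 := opp c2 c4 hy'
      have c6 := hw y hy y' hy'
      simp only [Pi.neg_apply, Pi.sub_apply] at c5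
      exact ⟨c0, c1, c3, by omega, (abs_eq (by norm_num)).1 ((mem_FS.1 hu).1 y y' hy'),
        par_FS hu b1 _, par_FS hu hv _⟩
    refine ⟨⟨?_, X.filter fun x => (u x + (w - v) x) % 4 = 0, filter_subset _ _,
      fun y hy y' hy' => ?_⟩, ?_, X.filter fun x => ¬(u x + (w - v) x) % 4 = 0, filter_subset _ _,
      fun y hy y' hy' => ?_⟩
    · convert m.2 using 1
      funext y
      simp only [lo, hi, Pi.sub_apply, sub_sub_sub_cancel_left]
      ring
    · obtain ⟨c0, c⟩ := loc y hy y' hy'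
      simp only [lo, σ, mem_filter, c0, true_and]
      split_ifs <;> omega
    · convert m.1 using 1
      funext y
      simp only [lo, hi, Pi.sub_apply, sub_sub_sub_cancel_left]
      ring
    · obtain ⟨c0, c⟩ := loc y hy y' hy'
      simp only [hi, σ, mem_filter, c0, true_and]
      split_ifs <;> omega
  have pl := h1 Λ g g (fun a => ind (a ∈ E)) (fun a => ind (w - a ∈ E)) (fun a => ind (T a))
    (fun a => ind (T a)) (fun y _ => by simp) (fun _ => (ind_mem _).1) (fun _ => (ind_mem _).1)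
    (fun _ => (ind_mem _).1) (fun _ => (ind_mem _).1) fun u hu v hv => by
      by_cases c1 : u ∈ E
      · by_cases c2 : w - v ∈ E
        · rw [ind_pos c1, ind_pos c2, ind_pos (key u hu v hv c1 c2).1,
            ind_pos (key u hu v hv c1 c2).2]
        · rw [ind_neg c2, mul_zero]
          exact mul_nonneg (ind_mem _).1 (ind_mem _).1
      · rw [ind_neg c1, zero_mul]
        exact mul_nonneg (ind_mem _).1 (ind_mem _).1
  have g1 : lo g g = g := funext fun y => by simp [lo]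
  have g2 : hi g g = g := funext fun y => by simp [hi]
  have sb : ∀ p : Conf → Prop, ∑ a ∈ FS Λ g, ind (p a) = ((FS Λ g).filter p).card := fun p => by
    unfold ind
    rw [sum_boole]
  have n1 : ((FS Λ g).filter fun a => a ∈ E).card = E.card := by
    rw [filter_mem_eq_inter, inter_eq_right.2 (filter_subset _ _)]
  have n2 : ((FS Λ g).filter fun a => w - a ∈ E).card = E.card :=
    card_nbij' (fun a => w - a) (fun a => w - a) (fun a ha => (mem_filter.1 (mem_coe.1 ha)).2)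
      (fun a ha => mem_coe.2 (mem_filter.2 ⟨(mem_filter.1 (mem_coe.1 ha)).2.1, by simpa using ha⟩))
      (fun a _ => by simp) fun a _ => by simp
  rw [g1, g2, sb, sb, sb] at pl
  have n3 : E.card ≤ ((FS Λ g).filter T).card := by
    refine Nat.mul_self_le_mul_self_iff.1 ?_
    have : (E.card : ℝ) * E.card ≤ ((FS Λ g).filter T).card * ((FS Λ g).filter T).card := by
      convert pl using 3
      · convert n1.symm
      · convert n2.symm
      all_goals congr
    exact_mod_cast this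
  have n4 : ((FS Λ g).filter T).card ≤
      ∑ β ∈ X.powerset, (D.filter fun a => ∀ y ∈ Y, Ext (σ β y) y a).card := by
    refine le_trans (card_le_card fun a ha => ?_) card_biUnion_le
    obtain ⟨a1, a2, β, a3, a4⟩ := mem_filter.1 ha
    exact mem_biUnion.2 ⟨β, mem_powerset.2 a3, mem_filter.2 ⟨mem_filter.2 ⟨a1, a2⟩, a4⟩⟩
  refine (Nat.mul_le_mul_right _ (n3.trans n4)).trans ?_
  rw [sum_mul, ← card_powerset X, ← smul_eq_mul, ← sum_const]
  refine sum_le_sum fun β _ => h2 D Y (σ β) (fun y hy => (mem_filter.1 (hY hy)).2)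
    (fun y => by simp only [σ]; split_ifs <;> simp) fun a ha y hy τ hτ h => ?_
  obtain ⟨a1, a2⟩ := mem_filter.1 ha
  refine mem_filter.2 ⟨upd_FS a1 (hΛ (hY hy)) hτ h, ?_⟩
  convert upd_FS (τ := -τ) a2 (hΛ (hY hy)) (by omega) fun y' hy' => by
    rw [Pi.sub_apply, Pi.sub_apply, hw y hy y' hy', h y' hy']
    ring using 1
  funext x
  by_cases c : x = y
  · rw [c, Pi.sub_apply, Function.update_self, Function.update_self, Pi.sub_apply]
    ring
  · rw [Pi.sub_apply, Function.update_of_ne c, Function.update_of_ne c, Pi.sub_apply]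

end TCP

open TCP in
theorem tc_row (h1 : PLStmt) (h2 : FlipStmt) : TCStmt := by
  intro Λ g b s l k X _ hΛ
  have hW : ∀ u ∈ FS Λ g, ∀ v ∈ FS Λ g, u + v ∈ image₂ (· + ·) (FS Λ g) (FS Λ g) :=
    fun u hu v hv => mem_image₂_of_mem hu hv
  rw [sq, conv hW, conv fun u hu v hv => hW u (mem_filter.1 hu).1 v (mem_filter.1 hv).1, sum_mul,
    mul_sum]
  refine sum_le_sum fun w _ => ?_
  rcases (((FS Λ g).filter fun u => ∀ x ∈ X, Av s (b, x, l) u).filter fun u => w - u ∈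
    (FS Λ g).filter fun v => k ≤ num (inn b l X) fun y => Opp b s y v).eq_empty_or_nonempty
    with e | ⟨u, hu⟩
  · rw [e]
    simp
  simp only [mem_filter] at hu
  refine le_trans (Nat.mul_le_mul (card_le_card fun a ha => ?_)
    (Nat.pow_le_pow_right two_pos hu.2.2))
    (fibre h1 h2 g s hΛ w (filter_subset _ _) fun y hy y' hy' => ?_)
  · simp only [mem_filter] at ha ⊢
    exact ⟨ha.1.1, ha.2.1, ha.1.2⟩
  · obtain ⟨x, hx, t, ht⟩ := own (s := s) (mem_filter.1 hy).1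
    have := opp (ht u (hu.1.2 x hx)).2 (mem_filter.1 hy).2 hy'
    simp only [Pi.neg_apply, Pi.sub_apply] at this
    omega

end Pool.Agent.MP_151d89_pr.H58
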