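import Pool.Agent.MP_151d89_pr.H58.Spec

/-!
Log-concave tails of the height at one site.
-/

set_option autoImplicit false
open MeasureTheory Finset
open scoped FinsetFamily

namespace Pool.Agent.MP_151d89_pr.H58
open Pool.Agent.MP_151d89_pr.H82 Pool.Agent.MP_151d89_pr.H33 Pool.Agent.MP_151d89_pr.H67
  Pool.Agent.MP_151d89_pr.H30
open Classical

namespace TailP

/-- the fillings which are high at y -/
noncomputable def up (Λ : Finset (ℤ × ℤ)) (g : Conf) (y : ℤ × ℤ) (s : ℤ) : Finset Conf :=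
  (FS Λ g).filter fun f => s ≤ f y

theorem inj (k : ℤ) : Function.Injective fun (f : Conf) (x : ℤ × ℤ) => f x + k := fun _ _ h =>
  funext fun x => add_right_cancel (congrFun h x)

theorem step (Λ : Finset (ℤ × ℤ)) (g : Conf) (y : ℤ × ℤ) {s s' e : ℤ} (hs : s' ≤ s)
    (he : 0 ≤ e) : (up Λ g y (s + 2 * e)).card * (up Λ g y s').card ≤
      (up Λ g y (s' + 2 * e)).card * (up Λ g y s).card := by
  obtain ⟨z, hz⟩ := Infinite.exists_notMem_finset Λ
  rw [← card_image_of_injective (up Λ g y (s + 2 * e)) (inj (-(2 * e))),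
    ← card_image_of_injective (up Λ g y (s' + 2 * e)) (inj (-(2 * e)))]
  refine (le_card_infs_mul_card_sups _ _).trans (Nat.mul_le_mul (card_le_card ?_)
    (card_le_card ?_))
  · intro c hc
    obtain ⟨u', hu', v, hv, rfl⟩ := mem_infs.1 hc
    obtain ⟨u, hu, rfl⟩ := mem_image.1 hu'
    simp only [up, mem_filter, mem_FS] at hu hv
    have hp : ((fun x => u x + -(2 * e)) z - v z) % 2 = 0 := by
      simp only [hu.1.2 z hz, hv.1.2 z hz]; omega
    refine mem_image.2 ⟨fun x => ((fun x => u x + -(2 * e)) ⊓ v) x + 2 * e, ?_, ?_⟩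
    · simp only [up, mem_filter, mem_FS]
      refine ⟨⟨hom_shift (hom_inf (hom_shift hu.1.1 _) hv.1.1 hp) _, fun x hx => ?_⟩, ?_⟩
      · simp only [Pi.inf_apply, hu.1.2 x hx, hv.1.2 x hx]; omega
      · have h1 := hu.2
        have h2 := hv.2
        simp only [Pi.inf_apply]; omega
    · funext x
      simp only [Pi.inf_apply]; omega
  · intro c hc
    obtain ⟨u', hu', v, hv, rfl⟩ := mem_sups.1 hc
    obtain ⟨u, hu, rfl⟩ := mem_image.1 hu'
    simp only [up, mem_filter, mem_FS] at hu hv ⊢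
    have hp : ((fun x => u x + -(2 * e)) z - v z) % 2 = 0 := by
      simp only [hu.1.2 z hz, hv.1.2 z hz]; omega
    refine ⟨⟨hom_sup (hom_shift hu.1.1 _) hv.1.1 hp, fun x hx => ?_⟩, ?_⟩
    · simp only [Pi.sup_apply, hu.1.2 x hx, hv.1.2 x hx]; omega
    · have h1 := hu.2
      simp only [Pi.sup_apply]; omega

theorem iter (Λ : Finset (ℤ × ℤ)) (g : Conf) (y : ℤ × ℤ) {s e : ℤ} {θ : ℝ} (he : 0 ≤ e)
    (h0 : (0 : ℝ) < (up Λ g y s).card)
    (h1 : ((up Λ g y (s + 2 * e)).card : ℝ) ≤ θ * (up Λ g y s).card) (j : ℕ) :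
    ((up Λ g y (s + 2 * j * e)).card : ℝ) ≤ θ ^ j * (FS Λ g).card := by
  have hθ : 0 ≤ θ := nonneg_of_mul_nonneg_left ((Nat.cast_nonneg _).trans h1) h0
  induction j with
  | zero =>
    rw [pow_zero, one_mul]
    exact Nat.cast_le.2 (card_le_card (filter_subset _ _))
  | succ j ih =>
    have h2 : (((up Λ g y (s + 2 * j * e + 2 * e)).card * (up Λ g y s).card : ℕ) : ℝ) ≤
        ((up Λ g y (s + 2 * e)).card * (up Λ g y (s + 2 * j * e)).card : ℕ) :=
      Nat.cast_le.2 (step Λ g y (s := s + 2 * j * e) (s' := s)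
        (le_add_of_nonneg_right (by positivity)) he)
    have e1 : s + 2 * ((j + 1 : ℕ) : ℤ) * e = s + 2 * j * e + 2 * e := by push_cast; ring
    rw [e1]
    push_cast at h2
    refine le_of_mul_le_mul_right (h2.trans ?_) h0
    calc _ ≤ (θ * (up Λ g y s).card) * (θ ^ j * (FS Λ g).card) :=
          mul_le_mul h1 ih (Nat.cast_nonneg _) (mul_nonneg hθ h0.le)
      _ = _ := by ring

theorem upper (Λ : Finset (ℤ × ℤ)) {g : Conf} (y : ℤ × ℤ) {m a ε : ℝ} (j : ℕ) (hg : Hom g)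
    (ha : 0 ≤ a) (hε : 0 < ε) (h : ε ≤ av Λ (fun f => ind (|(f y : ℝ) - m| ≤ a)) g) :
    av Λ (fun f => ind ((2 * j + 1) * (a + 2) < (f y : ℝ) - m)) g ≤ (1 - ε) ^ j := by
  have hc := card_pos Λ hg
  rw [av_ind, le_div_iff₀ hc] at h
  rw [av_ind, div_le_iff₀ hc]
  have hs1 := Int.le_ceil (m - a)
  have hs2 := Int.ceil_lt_add_one (m - a)
  have he1 := Int.le_ceil a
  have he2 := Int.ceil_lt_add_one a
  have he : 0 ≤ ⌈a⌉ + 1 := add_nonneg (Int.ceil_nonneg ha) zero_le_one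
  have hd : Disjoint ((FS Λ g).filter fun f => |(f y : ℝ) - m| ≤ a)
      (up Λ g y (⌈m - a⌉ + 2 * (⌈a⌉ + 1))) := by
    refine disjoint_filter.2 fun f _ h1 h2 => ?_
    have h3 : ((⌈m - a⌉ + 2 * (⌈a⌉ + 1) : ℤ) : ℝ) ≤ f y := Int.cast_le.2 h2
    have h4 := (abs_le.1 h1).2
    push_cast at h3
    linarith
  have hu : ((FS Λ g).filter fun f => |(f y : ℝ) - m| ≤ a) ∪
      up Λ g y (⌈m - a⌉ + 2 * (⌈a⌉ + 1)) ⊆ up Λ g y ⌈m - a⌉ := by
    refine union_subset (fun f hf => ?_) fun f hf => ?_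
    · rw [mem_filter] at hf
      refine mem_filter.2 ⟨hf.1, Int.ceil_le.2 ?_⟩
      linarith [(abs_le.1 hf.2).1]
    · rw [up, mem_filter] at hf
      exact mem_filter.2 ⟨hf.1, by have := hf.2; omega⟩
  have h5 := (Nat.cast_le (α := ℝ)).2 (card_le_card hu)
  rw [card_union_of_disjoint hd] at h5
  push_cast at h5
  have h6 : ((up Λ g y ⌈m - a⌉).card : ℝ) ≤ (FS Λ g).card :=
    Nat.cast_le.2 (card_le_card (filter_subset _ _))
  have h7 : (0 : ℝ) ≤ (up Λ g y (⌈m - a⌉ + 2 * (⌈a⌉ + 1))).card := Nat.cast_nonneg _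
  have h8 := mul_pos hε hc
  refine le_trans (Nat.cast_le.2 (card_le_card fun f hf => ?_)) (iter Λ g y (s := ⌈m - a⌉) he
    (by linarith) (by nlinarith) j)
  rw [mem_filter] at hf
  refine mem_filter.2 ⟨hf.1, (Int.cast_le (R := ℝ)).1 ?_⟩
  have h9 := hf.2
  have hj : (0 : ℝ) ≤ j := Nat.cast_nonneg j
  push_cast
  nlinarith

theorem hom_neg {a : Conf} (ha : Hom a) : Hom (-a) := fun x y h => by
  have := ha x y h
  simp only [Pi.neg_apply]
  rw [abs_eq (by norm_num)] at this ⊢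
  omega

theorem av_neg (Λ : Finset (ℤ × ℤ)) (φ : Conf → ℝ) (g : Conf) :
    av Λ φ (-g) = av Λ (fun f => φ (-f)) g := by
  have e : FS Λ (-g) = (FS Λ g).image fun f => -f := by
    ext f
    rw [mem_image, mem_FS]
    refine ⟨fun hf => ⟨-f, mem_FS.2 ⟨hom_neg hf.1, fun x hx => ?_⟩, neg_neg f⟩, ?_⟩
    · rw [Pi.neg_apply, hf.2 x hx, Pi.neg_apply, neg_neg]
    · rintro ⟨u, hu, rfl⟩
      rw [mem_FS] at hu
      exact ⟨hom_neg hu.1, fun x hx => by rw [Pi.neg_apply, Pi.neg_apply, hu.2 x hx]⟩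
  unfold av
  rw [e, card_image_of_injective _ neg_injective, sum_image fun _ _ _ _ h => neg_injective h]

end TailP

theorem tail_row : TailStmt := by
  intro Λ g y m a ε j hg ha hε h
  have h1 := TailP.upper Λ y j hg ha hε h
  have h2 := TailP.upper Λ y (m := -m) j (TailP.hom_neg hg) ha hε (by
    rw [TailP.av_neg]
    refine h.trans (le_of_eq (av_eq fun f _ => ?_))
    rw [Pi.neg_apply, Int.cast_neg, neg_sub_neg, abs_sub_comm])
  rw [TailP.av_neg] at h2
  rw [two_mul ((1 - ε) ^ j)]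
  refine le_trans ?_ (add_le_add h1 h2)
  rw [← av_add]
  refine av_le fun f _ => ?_
  simp only [ind, Pi.neg_apply, Int.cast_neg, lt_abs]
  split_ifs with h3 h4 h5 h6 h7 h8 h9
  all_goals norm_num
  rcases h3 with h3 | h3
  · exact h4 h3
  · exact h6 (by linarith)

end Pool.Agent.MP_151d89_pr.H58
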