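import Pool.Agent.MP_151d89_pr.H30.Null
import Pool.Agent.MP_151d89_pr.H58.PL
import Pool.Agent.MP_151d89_pr.H58.Flip
import Pool.Agent.MP_151d89_pr.H58.TC
import Pool.Agent.MP_151d89_pr.H58.Pred
import Pool.Agent.MP_151d89_pr.H58.Cnt
import Pool.Agent.MP_151d89_pr.H58.Glue
import Pool.Agent.MP_151d89_pr.H58.Low
import Pool.Agent.MP_151d89_pr.H58.Surg
import Pool.Agent.MP_151d89_pr.H58.Loc
import Pool.Agent.MP_151d89_pr.H58.Shift
import Pool.Agent.MP_151d89_pr.H58.Prob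
import Pool.Agent.MP_151d89_pr.H58.Mom
import Pool.Agent.MP_151d89_pr.H58.Tail
import Pool.Agent.MP_151d89_pr.H58.Near
import Pool.Agent.MP_151d89_pr.H58.Energy
import Pool.Agent.MP_151d89_pr.H58.Cov
import Pool.Agent.MP_151d89_pr.H58.Fin
import Pool.Agent.MP_151d89_pr.H58.Final

/-!
Polynomial distance from planes: assembly.
-/

set_option autoImplicit false
open MeasureTheory Finset Filter Topology

namespace Pool.Agent.MP_151d89_pr.H58
open Pool.Agent.MP_151d89_pr.H82 Pool.Agent.MP_151d89_pr.H33 Pool.Agent.MP_151d89_pr.H67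
  Pool.Agent.MP_151d89_pr.H30

theorem planes {μ : Measure Conf} (hμ : Gibbs μ) {α δ : ℝ} (h1 : α < 1 / 4) (hδ : 0 < δ) :
    ∀ᵐ f ∂μ, ∀ᶠ R : ℕ in atTop, ∀ u₁ u₂ c : ℝ,
      |u₁| ≤ 1 - δ → |u₂| ≤ 1 - δ → ∃ x : ℤ × ℤ, max |x.1| |x.2| ≤ R ∧
        (R : ℝ) ^ α < |(f x : ℝ) - (u₁ * x.1 + u₂ * x.2 + c)| :=
  main tail_row (cov_row null_row) (fin_row (prob_row (tc_row pl_row flip_row)
    (shift_row (loc_row pred_row cnt_row (low_row glue_row flip_row) surg_row) glue_row)) mom_row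
    (energy_row null_row near_row)) hμ h1 hδ

end Pool.Agent.MP_151d89_pr.H58
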