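import Pool.Agent.MP_151d89_pr.H58.Spec2
import Pool.Agent.MP_151d89_pr.H58.Energy

/-!
The energy bound in a finite volume, with towers in the annulus only.
-/

set_option autoImplicit false
open MeasureTheory Finset Filter

namespace Pool.Agent.MP_151d89_pr.H58
open Pool.Agent.MP_151d89_pr.H82 Pool.Agent.MP_151d89_pr.H33 Pool.Agent.MP_151d89_pr.H67
  Pool.Agent.MP_151d89_pr.H30
open Classical

namespace Energy2P
open EnergyP

/-- short towers that start in the ring -/
def Ok (r K : ℕ) (m : Mv) : Prop := m.2.2 ≤ K ∧ m.2.1 ∈ rng r K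

theorem ok1 {r K : ℕ} (hK : 1 ≤ K) {m n : Mv} (hm : m ∈ idx r K) (hn : n ∈ idx r K)
    (h : Near m n) (h3 : ¬ nrm m.2.1 ≤ r + 3 * K) : Ok r K m ∧ Ok r K n := by
  obtain ⟨y, hy, y', hy', e⟩ := h
  obtain ⟨t, ht, rfl⟩ := mem_tow.1 hy
  obtain ⟨u, hu, rfl⟩ := mem_tow.1 hy'
  have h1 := nrm_near (pt_box0 m.1 m.2.1 ht)
  have h2 := nrm_near (pt_box0 n.1 n.2.1 hu)
  have h4 := nrm_near e
  have h5 := nrm_conv n.1 n.2.1 hu
  rw [mem_idx] at hm hn
  simp only [Ok, mem_rng]
  omega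

theorem ok {r K : ℕ} (hK : 1 ≤ K) {m n : Mv} (hm : m ∈ idx r K) (hn : n ∈ idx r K)
    (h : Near m n) (h3 : psi r K m ≠ psi r K n) : Ok r K m ∧ Ok r K n := by
  by_cases a : nrm m.2.1 ≤ r + 3 * K
  · exact (ok1 hK hn hm (near_symm h) fun b => h3 ((psi_one hK a).trans (psi_one hK b).symm)).symm
  · exact ok1 hK hm hn h a

/-- the bound for one ordered pair -/
noncomputable def wt2 (r K : ℕ) (f : Conf) (m n : Mv) : ℝ := if Ok r K m then wt K f m n else 0

theorem wt2_nonneg (r K : ℕ) (f : Conf) (m n : Mv) : 0 ≤ wt2 r K f m n := by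
  unfold wt2; split_ifs
  exacts [wt_nonneg _ _ _ _, le_rfl]

theorem pair2 {Λ : Finset (ℤ × ℤ)} (g : Conf) {r K : ℕ} (hK : 1 ≤ K) {m n : Mv}
    (hm : m ∈ idx r K) (hn : n ∈ idx r K) (hΛ : tow m ⊆ Λ) :
    av Λ (fun f => -((psi r K m - psi r K n) ^ 2 * (dr m f * dr n f))) g ≤
      av Λ (fun f => wt2 r K f m n + wt2 r K f n m) g := by
  have p := av_nonneg (Λ := Λ)
    (fun f => add_nonneg (wt2_nonneg r K f m n) (wt2_nonneg r K f n m)) g
  by_cases h : Near m n
  · by_cases e : psi r K m = psi r K n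
    · simpa [e, av] using p
    · simpa only [wt2, if_pos (ok hK hm hn h e).1, if_pos (ok hK hm hn h e).2] using
        pair g r K hΛ n
  · simp only [← neg_mul]
    rwa [av_smul, far hΛ h, mul_zero]

end Energy2P

open Energy2P in
/-- the energy bound -/
theorem energy2_row (hN : NullStmt) (h : NearStmt) : Energy2Stmt := by
  intro Λ g r K _ hK hΛ
  have e : ∀ f, SS r K f ^ 2 = ∑ m ∈ idx r K, psi r K m ^ 2 * (dr m f * AA r K f) +
      1 / 2 * ∑ m ∈ idx r K, ∑ n ∈ idx r K, -((psi r K m - psi r K n) ^ 2 * (dr m f * dr n f)) :=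
    fun f => alg _ _ _
  simp only [e]
  rw [av_add, av_smul, av_sum, av_sum]
  have h1 : ∑ m ∈ idx r K, av Λ (fun f => psi r K m ^ 2 * (dr m f * AA r K f)) g ≤
      4 * ((idx r K).card ^ 2 * av Λ (fun f => ind (Bad r K f)) g) := by
    refine (sum_le_sum fun m hm => (av_smul _ _ _ _).trans_le (EnergyP.eps hN g hK hΛ hm)).trans ?_
    rw [sum_const, nsmul_eq_mul]
    exact le_of_eq (by ring)
  have h2 : ∑ m ∈ idx r K, av Λ (fun f => ∑ n ∈ idx r K,
      -((psi r K m - psi r K n) ^ 2 * (dr m f * dr n f))) g ≤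
      2 * ∑ m ∈ idx r K, ∑ n ∈ idx r K, av Λ (fun f => wt2 r K f m n) g := by
    refine (sum_le_sum fun m hm => ?_).trans (le_of_eq (b := 2 * _) (a := ∑ m ∈ idx r K,
      ∑ n ∈ idx r K, av Λ (fun f => wt2 r K f m n + wt2 r K f n m) g) ?_)
    · rw [av_sum]
      exact sum_le_sum fun n hn => pair2 g hK hm hn ((tow_idx hm).trans hΛ)
    · simp only [av_add, sum_add_distrib]
      rw [sum_comm (f := fun m n => av Λ (fun f => wt2 r K f n m) g), two_mul]
  let F : Mv → ℝ := fun m => ((m.2.2 : ℝ) + 1) ^ 3 *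
    (av Λ (fun f => ind (Av (-1) m f)) g + av Λ (fun f => ind (Av 1 m f)) g)
  have h3 : ∑ m ∈ idx r K, ∑ n ∈ idx r K, av Λ (fun f => wt2 r K f m n) g ≤
      168 / K ^ 2 * ∑ m ∈ (idx r K).filter (Ok r K), F m := by
    rw [sum_filter, mul_sum]
    refine sum_le_sum fun m _ => ?_
    unfold wt2
    split_ifs
    · simp only [F]
      rw [← av_sum, ← av_add, ← av_smul, ← av_smul]
      exact av_le fun f _ => EnergyP.row h _ K f m
    · simp [av]
  have h4 : ∑ m ∈ (idx r K).filter (Ok r K), F m ≤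
      ∑ b : Bool, ∑ l ∈ range (K + 1), ∑ x ∈ rng r K, F (b, x, l) := by
    have s : (idx r K).filter (Ok r K) ⊆ univ ×ˢ rng r K ×ˢ range (K + 1) := fun m hm => by
      have := (mem_filter.1 hm).2
      simp only [mem_product, mem_univ, true_and, mem_range]
      exact ⟨this.2, Nat.lt_succ_of_le this.1⟩
    refine (sum_le_sum_of_subset_of_nonneg s fun m _ _ => mul_nonneg (by positivity)
      (add_nonneg (av_mem _ _ _).1 (av_mem _ _ _).1)).trans_eq ?_
    rw [sum_product]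
    simp only [sum_product_right, F]
  have h5 := h3.trans (mul_le_mul_of_nonneg_left h4 (by positivity))
  simp only [F] at h5
  linarith

end Pool.Agent.MP_151d89_pr.H58
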