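import Pool.Agent.MP_151d89_pr.H58.Spec2

/-!
Row Fin2: the energy without almost frozen segments in the annulus.
-/

set_option autoImplicit false
open MeasureTheory Finset Filter

namespace Pool.Agent.MP_151d89_pr.H58
open Pool.Agent.MP_151d89_pr.H82 Pool.Agent.MP_151d89_pr.H33 Pool.Agent.MP_151d89_pr.H67
  Pool.Agent.MP_151d89_pr.H30
open Classical

namespace Fin2P

theorem bad {r K : ℕ} {Λ : Finset (ℤ × ℤ)} {g : Conf} {β : ℝ} (hβ : 0 ≤ β)
    (H : ∀ (b : Bool) (x : ℤ × ℤ), Ann r K b x K → av Λ (fun f => ind (Run b x K f)) g ≤ β) :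
    av Λ (fun f => ind (Bad r K f)) g ≤ 2 * (2 * (r + 10 * K) + 1) ^ 2 * β := by
  set I := ((univ : Finset Bool) ×ˢ box 0 (r + 10 * K)).filter fun z => Ann r K z.1 z.2 K with hI
  have h1 : av Λ (fun f => ind (Bad r K f)) g ≤
      av Λ (fun f => ∑ z ∈ I, ind (Run z.1 z.2 K f)) g := by
    refine av_le fun f _ => ?_
    by_cases hb : Bad r K f
    · rw [ind_pos hb]
      obtain ⟨b, x, h1, h2⟩ := hb
      have hm : (b, x) ∈ I := mem_filter.2 ⟨mem_product.2 ⟨mem_univ _, mem_box0.2 (by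
        simpa [pt_zero] using (h1 0 (Nat.zero_le _)).2)⟩, h1⟩
      have h3 := single_le_sum (f := fun z : Bool × (ℤ × ℤ) => ind (Run z.1 z.2 K f))
        (fun z _ => (ind_mem _).1) hm
      rwa [ind_pos h2] at h3
    · rw [ind_neg hb]
      exact sum_nonneg fun z _ => (ind_mem _).1
  rw [av_sum] at h1
  refine h1.trans ((sum_le_sum fun z hz => H _ _ (mem_filter.1 hz).2).trans ?_)
  rw [sum_const, nsmul_eq_mul]
  refine mul_le_mul_of_nonneg_right ?_ hβ
  have h2 := card_filter_le ((univ : Finset Bool) ×ˢ box 0 (r + 10 * K))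
    fun z => Ann r K z.1 z.2 K
  rw [card_product, card_univ, Fintype.card_bool, card_box] at h2
  exact_mod_cast h2

theorem ann_of {r K l : ℕ} {x : ℤ × ℤ} (b : Bool) (hx : x ∈ rng r K) (hl : l ≤ K) :
    Ann r K b x l := fun t ht => by
  have h1 := nrm_near (pt_box0 b x ht)
  rw [mem_rng] at hx
  omega

theorem card_rng (r K : ℕ) : ((rng r K).card : ℝ) ≤ (2 * (r + 9 * K) + 1) ^ 2 := by
  have h : (rng r K).card ≤ _ := card_filter_le _ _
  rw [card_box] at h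
  exact_mod_cast h

end Fin2P

open Fin2P in
theorem fin2_row (h1 : TowStmt) (h2 : Energy2Stmt) : Fin2Stmt := by
  intro δ hδ hδ1 m
  obtain ⟨C, θ, hC, θ0, θ1, hT⟩ := h1 δ hδ hδ1 m
  obtain ⟨W, hW⟩ := gw_bdd (p := θ) θ0.le θ1
  have W0 : 0 ≤ W := by simpa using hW 0
  obtain ⟨c, hc⟩ : ∃ c : ℝ, c = 2 * m + 21 := ⟨_, rfl⟩
  have c0 : 0 ≤ c := by rw [hc]; positivity
  have cw : 0 ≤ C * W := by positivity
  have c2 : 0 ≤ c ^ 2 := by positivity
  have c8 : 0 ≤ c ^ 8 := by positivity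
  refine ⟨672 * C + 672 * (C * W) + 10752 * c ^ 2 + 32 * c ^ 8, by positivity, ?_⟩
  intro a β r K L Λ g hg ha hβ hK hr hCK hL hΛ hS hD hR
  have K1 : (1 : ℝ) ≤ K := by exact_mod_cast hK
  have hCC : C ≤ 672 * C + 672 * (C * W) + 10752 * c ^ 2 + 32 * c ^ 8 := by linarith
  have c1 : C * (a + 1) ≤ K := le_trans (mul_le_mul_of_nonneg_right hCC (by linarith)) hCK
  have hD' := hD.mono ha hCC
  have r1 : (r : ℝ) ≤ m * K := by exact_mod_cast hr
  have q1 : (2 * (r + 10 * K) + 1 : ℝ) ≤ c * K := by rw [hc]; linarith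
  have q2 : (2 * (r + 9 * K) + 1 : ℝ) ≤ c * K := by rw [hc]; linarith
  have q3 : (2 * r + 2 * K + 1 : ℝ) ≤ c * K := by rw [hc]; linarith
  have y0 : 0 ≤ (K : ℝ) ^ 8 * β := by positivity
  have hbad : ((idx r K).card : ℝ) ^ 2 * av Λ (fun f => ind (Bad r K f)) g ≤
      8 * c ^ 8 * (K ^ 8 * β) := by
    calc _ ≤ (2 * ((c * K) ^ 2 * (c * K))) ^ 2 * (2 * (c * K) ^ 2 * β) := by
          refine mul_le_mul (pow_le_pow_left₀ (Nat.cast_nonneg _) ((card_idx r K).trans ?_) 2)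
            ((bad hβ fun b x hx => hR b x K (by omega) hx).trans ?_) (av_mem _ _ _).1
            (by positivity) <;> gcongr
      _ = _ := by ring
  refine ⟨hbad.trans (mul_le_mul_of_nonneg_right (by linarith) y0), ?_⟩
  have one : ∀ (b : Bool) (s : ℤ), s = 1 ∨ s = -1 → ∀ l ∈ range (K + 1),
      ((l : ℝ) + 1) ^ 3 * ∑ x ∈ rng r K, av Λ (fun f => ind (Av s (b, x, l) f)) g ≤
        (if l < L then (L : ℝ) ^ 2 * (C * ((a + 1) * K)) else 0) + C * K ^ 2 * gw θ l +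
          8 * c ^ 2 * (K ^ 5 * β) := by
    intro b s hs l hl
    have hlK : l ≤ K := Nat.lt_succ_iff.1 (mem_range.1 hl)
    have g0 : 0 ≤ C * K ^ 2 * gw θ l := by unfold gw; positivity
    split_ifs with hlL
    · have h4 := hT a r K l Λ g b s hs hg ha hr c1 (by omega) hΛ hS hD'
      generalize ∑ x ∈ rng r K, av Λ (fun f => ind (Av s (b, x, l) f)) g = T at h4 ⊢
      have h7 : (l : ℝ) + 1 ≤ L := by exact_mod_cast hlL
      have h8 : ((l : ℝ) + 1) ^ 2 ≤ (l + 1) ^ 4 :=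
        pow_le_pow_right₀ (le_add_of_nonneg_left (Nat.cast_nonneg l)) (by omega)
      calc _ = ((l : ℝ) + 1) ^ 2 * ((l + 1) * T) := by ring
        _ ≤ ((l : ℝ) + 1) ^ 2 * (C * ((a + 1) * K + K ^ 2 * θ ^ l)) := by gcongr
        _ = ((l : ℝ) + 1) ^ 2 * (C * ((a + 1) * K)) + (l + 1) ^ 2 * (C * K ^ 2 * θ ^ l) := by ring
        _ ≤ (L : ℝ) ^ 2 * (C * ((a + 1) * K)) + (l + 1) ^ 4 * (C * K ^ 2 * θ ^ l) := by gcongr
        _ = (L : ℝ) ^ 2 * (C * ((a + 1) * K)) + C * K ^ 2 * gw θ l := by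
          unfold gw
          ring
        _ ≤ _ := le_add_of_nonneg_right (by positivity)
    · have h5 : ∑ x ∈ rng r K, av Λ (fun f => ind (Av s (b, x, l) f)) g ≤ (c * K) ^ 2 * β := by
        refine (sum_le_sum (g := fun _ => β) fun x hx => ?_).trans ?_
        · exact (av_mono' fun f _ hA => hA.1).trans
            (hR b x l (not_lt.1 hlL) (ann_of b hx hlK))
        · rw [sum_const, nsmul_eq_mul]
          refine mul_le_mul_of_nonneg_right ((card_rng r K).trans ?_) hβ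
          gcongr
      have h6 : (l : ℝ) + 1 ≤ 2 * K := by
        exact_mod_cast (by omega : l + 1 ≤ 2 * K)
      calc _ ≤ (2 * (K : ℝ)) ^ 3 * ((c * K) ^ 2 * β) := by
            gcongr
            exact sum_nonneg fun x _ => (av_mem _ _ _).1
        _ = 8 * c ^ 2 * (K ^ 5 * β) := by ring
        _ ≤ _ := by linarith
  have key : ∀ (b : Bool) (s : ℤ), s = 1 ∨ s = -1 → ∑ l ∈ range (K + 1),
      ((l : ℝ) + 1) ^ 3 * ∑ x ∈ rng r K, av Λ (fun f => ind (Av s (b, x, l) f)) g ≤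
        C * (L ^ 3 * (a + 1)) * K + C * W * K ^ 2 + 16 * c ^ 2 * (K ^ 6 * β) := by
    intro b s hs
    refine (sum_le_sum (one b s hs)).trans ?_
    rw [sum_add_distrib, sum_add_distrib, ← mul_sum, ← sum_filter, sum_const, sum_const, card_range,
      nsmul_eq_mul, nsmul_eq_mul]
    have h4 : (((range (K + 1)).filter fun l => l < L).card : ℝ) ≤ L := by
      have := card_le_card (s := (range (K + 1)).filter fun l => l < L) (t := range L)
        fun l hl => mem_range.2 (mem_filter.1 hl).2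
      rw [card_range] at this
      exact_mod_cast this
    have h5 : ((K + 1 : ℕ) : ℝ) ≤ 2 * K := by
      exact_mod_cast (by omega : K + 1 ≤ 2 * K)
    have h6 := hW (K + 1)
    calc _ ≤ (L : ℝ) * ((L : ℝ) ^ 2 * (C * ((a + 1) * K))) + C * K ^ 2 * W +
          2 * K * (8 * c ^ 2 * (K ^ 5 * β)) := by gcongr
      _ = _ := by ring
  have h4 := h2 Λ g r K hg hK (fun y hy => hΛ (by
    rw [mem_box0] at hy ⊢
    push_cast at hy ⊢
    omega))
  have h5 : ∑ b : Bool, ∑ l ∈ range (K + 1), ∑ x ∈ rng r K,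
      ((l : ℝ) + 1) ^ 3 * (av Λ (fun f => ind (Av (-1) (b, x, l) f)) g +
        av Λ (fun f => ind (Av 1 (b, x, l) f)) g) ≤
      4 * (C * (L ^ 3 * (a + 1)) * K + C * W * K ^ 2 + 16 * c ^ 2 * (K ^ 6 * β)) := by
    refine (sum_le_sum (g := fun _ => 2 * (C * (L ^ 3 * (a + 1)) * K + C * W * K ^ 2 +
      16 * c ^ 2 * (K ^ 6 * β))) fun b _ => ?_).trans ?_
    · have k1 := key b 1 (Or.inl rfl)
      have k2 := key b (-1) (Or.inr rfl)
      simp only [← mul_sum, sum_add_distrib, mul_add] at k1 k2 ⊢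
      linarith
    · rw [sum_const, card_univ, Fintype.card_bool, nsmul_eq_mul]
      push_cast
      linarith
  have h6 : (0 : ℝ) ≤ 168 / K ^ 2 := by positivity
  have h7 := mul_le_mul_of_nonneg_left h5 h6
  have h9 : 168 / (K : ℝ) ^ 2 *
      (4 * (C * (L ^ 3 * (a + 1)) * K + C * W * K ^ 2 + 16 * c ^ 2 * (K ^ 6 * β))) =
      672 * (C * (L ^ 3 * (a + 1) / K) + C * W + 16 * c ^ 2 * (K ^ 4 * β)) := by
    field_simp
    ring
  have h10 : c ^ 2 * ((K : ℝ) ^ 4 * β) ≤ c ^ 2 * (K ^ 8 * β) :=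
    mul_le_mul_of_nonneg_left
      (mul_le_mul_of_nonneg_right (pow_le_pow_right₀ K1 (by omega)) hβ) c2
  have x0 : 0 ≤ (L : ℝ) ^ 3 * (a + 1) / (K : ℝ) := by positivity
  rw [h9] at h7
  generalize (L : ℝ) ^ 3 * (a + 1) / (K : ℝ) = X at *
  generalize (K : ℝ) ^ 8 * β = Y at *
  generalize C * W = B at *
  generalize c ^ 2 = c₂ at *
  generalize c ^ 8 = c₈ at *
  nlinarith [mul_nonneg hC y0, mul_nonneg cw x0, mul_nonneg cw y0, mul_nonneg c2 x0,
    mul_nonneg c8 x0]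

end Pool.Agent.MP_151d89_pr.H58
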