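import Pool.Agent.MP_151d89_pr.H58.Spec2
import Pool.Agent.MP_151d89_pr.H58.Glue

/-!
Interpolation between two functions close to a profile.
-/

set_option autoImplicit false
open MeasureTheory Finset

namespace Pool.Agent.MP_151d89_pr.H58
open Pool.Agent.MP_151d89_pr.H82 Pool.Agent.MP_151d89_pr.H33 Pool.Agent.MP_151d89_pr.H67
  Pool.Agent.MP_151d89_pr.H30
open Classical

open GlueP in
theorem glue2_row : Glue2Stmt := by
  intro δ a P x n r w g v hδ hu hg hv hx ha hn hbg hbv
  have hP : ∀ y y' : ℤ × ℤ, |y.1 - y'.1| + |y.2 - y'.2| = 1 → P y - P y' ≤ 1 - δ :=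
    fun y y' h => by
      have e : dist1 y' y = 1 := by
        rw [abs_sub_comm y.1, abs_sub_comm y.2] at h
        exact h
      have := hu y' y
      rw [e, Int.cast_one, mul_one] at this
      linarith
  have hR : ∀ y y' : ℤ × ℤ, |y.1 - y'.1| + |y.2 - y'.2| = 1 →
      wd δ x (r + w) y - wd δ x (r + w) y' ≤ δ := fun y y' h => wd_edge hδ x _ h
  have h1 : Hom (cl g P (wd δ x (r + w)) g) := hom_cl hg hg (x := x) (by omega) hP hR
  have h2 : Hom (cl g P (wd δ x (r + w)) v) := hom_cl hg hv hx hP hR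
  have far : ∀ y, (w : ℤ) ≤ |nrm (y - x) - (r + w)| → a + 2 ≤ wd δ x (r + w) y := fun y h => by
    have e : (w : ℝ) ≤ ((|nrm (y - x) - (r + w)| : ℤ) : ℝ) := by exact_mod_cast h
    exact ha.trans (mul_le_mul_of_nonneg_left e hδ.le)
  have out : ∀ y, nrm (y - x) = (n : ℤ) + 1 → cl g P (wd δ x (r + w)) g y = g y :=
    fun y h => cl_far g _ _ g (far y (by simp only [Int.abs_eq_natAbs]; omega))
      (hbg y (mem_bx.2 (by push_cast; omega)))
  have h3 := hom_glue h1 hg x ((n : ℤ) + 1) out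
  have h4 := hom_glue h2 h3 x ((r : ℤ) + w) fun y h => by
    have e : wd δ x (r + w) y = 0 := by simp [wd, h]
    rw [if_pos (by omega), cl_zero g _ _ v e, cl_zero g _ _ g e]
  refine ⟨_, mem_FS.2 ⟨h4, fun y hy => ?_⟩, fun y hy => ?_⟩
  · rw [mem_bx] at hy
    rw [if_neg (by omega)]
    split_ifs with h
    · exact out y (by omega)
    · rfl
  · rw [mem_bx] at hy
    rw [if_pos (by omega)]
    exact cl_far g _ _ v (far y (by simp only [Int.abs_eq_natAbs]; omega))
      (hbv y (mem_bx.2 (by push_cast; omega)))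

end Pool.Agent.MP_151d89_pr.H58
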