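import Pool.Agent.MP_151d89_pr.H58.Spec2
import Pool.Agent.MP_151d89_pr.H58.Final

/-!
From finite volumes to Gibbs measures along a sequence of annuli.
-/

set_option autoImplicit false
open MeasureTheory Finset Filter Topology

namespace Pool.Agent.MP_151d89_pr.H58
open Pool.Agent.MP_151d89_pr.H82 Pool.Agent.MP_151d89_pr.H33 Pool.Agent.MP_151d89_pr.H67
  Pool.Agent.MP_151d89_pr.H30
open Classical

namespace LastP

theorem meas_Sg (δ a : ℝ) (S : Set (ℤ × ℤ)) : MeasurableSet {f | Sg δ a S f} :=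
  measurableSet_setOfPred.2 (Measurable.forall fun _ => Measurable.forall fun _ =>
    Measurable.forall fun _ => Measurable.imp measurable_const (measurableSet_setOfPred.1
      (measurableSet_le (by fun_prop) measurable_const)))

theorem climb {f : Conf} (hf : Hom f) (h : ∀ x, ¬ Av (-1) (true, x, 0) f) (x : ℤ × ℤ) (n : ℕ) :
    ∃ y : ℤ × ℤ, dist1 x y ≤ n ∧ f y = f x + n := by
  induction n with
  | zero => exact ⟨x, by simp [dist1], by simp⟩
  | succ n ih =>
    obtain ⟨y, h1, h2⟩ := ih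
    by_contra e
    have k : ∀ z : ℤ × ℤ, |y.1 - z.1| + |y.2 - z.2| = 1 → f z = f y + -1 := fun z hz => by
      have h3 := hf y z hz
      have h4 : f z ≠ f x + (n + 1 : ℕ) := fun e' => e ⟨z, by
        simp only [dist1, Int.abs_eq_natAbs] at h1 hz ⊢; omega, e'⟩
      rw [abs_eq (by norm_num)] at h3
      omega
    refine h y ⟨fun t ht => ?_, k _ (by simp [pt_true]), ?_, fun t ht => ?_⟩
    · obtain rfl := Nat.le_zero.1 ht
      simp [pt_zero]
    · simpa using k (pt true y 1) (by simp [pt_true])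
    · obtain rfl := Nat.le_zero.1 ht
      simpa [pt_zero] using And.intro (k (y + dir false) (by simp [dir]))
        (k (y - dir false) (by simp [dir]))

theorem climb_le (h0 : MacStmt) {f : Conf} (hf : Hom f) (h : ∀ x, ¬ Av (-1) (true, x, 0) f)
    {δ a : ℝ} (hδ : δ ≤ 1) {r K : ℕ} (hG : Sg δ a (ann r K) f) : δ * (5 * K) ≤ 4 * a := by
  obtain ⟨P, h1, h2⟩ := h0 δ a _ (r + 5 * K, 0) (5 * K) f hδ hG fun y hy => by
    rw [mem_box] at hy
    simp only [ann, nrm, Int.abs_eq_natAbs, Set.mem_ofPred_eq]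
    omega
  obtain ⟨y, h3, h4⟩ := climb hf h (r + 5 * K, 0) (5 * K)
  have h5 := abs_le.1 (h2 y (by
    rw [mem_box]; simp only [dist1, Int.abs_eq_natAbs] at h3 ⊢; omega))
  have h6 := abs_le.1 (h2 (r + 5 * K, 0) (by rw [mem_box]; omega))
  have h7 : (dist1 (r + 5 * K, 0) y : ℝ) ≤ 5 * K := by exact_mod_cast h3
  have h8 := h1 (r + 5 * K, 0) y
  have h9 := mul_le_mul_of_nonneg_left h7 (sub_nonneg.2 hδ)
  rw [h4] at h5
  push_cast at h5
  linarith

end LastP

open FinalP LastP in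
theorem last_row (hM : MacStmt) (hC : CovStmt) (hS : ScaleStmt) (hs : SmallStmt) : LastStmt := by
  intro μ hμ α δ m K h0 h1 hδ hδ1 hm K0 K12 Ks
  have := hμ.1
  obtain ⟨C, M, C0, H⟩ := hS δ hδ hδ1 m
  have Kl : ∀ k, K k < K (k + 1) ∧ 1 ≤ K k := fun k => by
    induction k with
    | zero => exact ⟨by have := Ks 0; by_contra e; nlinarith, K0⟩
    | succ k ih => exact ⟨by have := Ks (k + 1); by_contra e; nlinarith, by omega⟩
  have Km : StrictMono K := strictMono_nat_of_lt_succ fun k => (Kl k).1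
  have hn : Monotone fun k : ℕ => m * K k := fun _ _ h => Nat.mul_le_mul_left _ (Km.monotone h)
  have big : ∀ D : ℝ, ∀ᶠ k : ℕ in atTop, D ≤ K k := fun D =>
    (tendsto_natCast_atTop_atTop.comp Km.tendsto_atTop).eventually_ge_atTop D
  have a1 : ∀ k, 1 ≤ ((m * K k : ℕ) : ℝ) ^ α := fun k =>
    Real.one_le_rpow (by exact_mod_cast Nat.mul_pos hm (Kl k).2) h0
  set G : ℕ → Conf → Prop := fun k => Sg δ (((m * K k : ℕ) : ℝ) ^ α) (ann (m * K k) (K k)) with hG
  have e1 : ∀ᵐ f ∂μ, ∀ᶠ k : ℕ in atTop, ¬ (G k f ∧ av (box 0 (m * K (k + 1)))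
      (fun f => ind (G k f)) f ≤ 1 / ((k : ℝ) + 1) ^ 2) := by
    refine bc (b := fun k => 1 / ((k : ℝ) + 1) ^ 2) (fun k => (int_out hμ _ (meas_Sg _ _ _)
      (measurableSet_le (meas_av _ (meas_ind (meas_Sg _ _ _))) measurable_const)
      (fun f g e => by rw [av_congr _ e]) fun f e => e).trans
      (mul_le_of_le_one_right (by positivity) measureReal_le_one)) ?_
    exact_mod_cast (summable_nat_add_iff 1).2 (Real.summable_one_div_nat_pow.2 one_lt_two)
  have e2 : ∀ (x : ℤ × ℤ) (t : ℤ), μ {f | (Av (-1) (true, x, 0) f ∧ f x = t) ∧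
      ∃ᶠ k : ℕ in atTop, G k f} = 0 := fun x t => by
    refine le_antisymm (ENNReal.le_of_forall_pos_le_add fun η hη _ => ?_) zero_le
    have mA : MeasurableSet {f : Conf | Av (-1) (true, x, 0) f ∧ f x = t} :=
      (meas_Av _ _).inter (measurableSet_eq_fun (measurable_pi_apply x) measurable_const)
    have η0 : (0 : ℝ) < η := hη
    rw [zero_add, ← ENNReal.ofReal_coe_nnreal]
    refine le_trans (measure_mono_ae ?_) (maxi hμ (n := fun k => m * K (k + 1))
      (fun _ _ h => hn (Nat.succ_le_succ h)) mA η0.le)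
    have E0 : 0 < C + 1 := by positivity
    filter_upwards [hμ.2.1, e1, var0 hμ hn (meas_ind (meas_ge x t)) (fun f => ind_abs _)
      (η := η / (4 * ((C + 1) / η))) (by positivity)] with f hf a1' a2 a3
    obtain ⟨k, b1, b2, b3, b4, b5, b6⟩ := (a3.2.and_eventually (a1'.and (a2.and
      ((hs α C m M K h0 h1 hm K0 Ks).and ((big (nrm x)).and (big (8 * C / η))))))).exists
    refine ⟨a3.1, k, ?_⟩
    have K1 := (Kl k).2
    have K2 : (0 : ℝ) < K k := by exact_mod_cast K1
    have K3 := Ks k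
    obtain ⟨d1, d2⟩ := H _ k (m * K k) (K k) (box 0 (m * K (k + 1))) f hf (a1 k) K1 (K12 k) le_rfl
      (box_mono (by linarith)) b4 (not_le.1 fun e => b2 ⟨b1, e⟩).le
    have d3 := hC (box 0 (m * K (k + 1))) f (m * K k) (K k) x t ((C + 1) / η) hf K1
      (box_mono (by linarith)) (by
        have q1 : nrm x ≤ (K k : ℕ) := by exact_mod_cast b5
        exact q1.trans (Nat.cast_le.2 (Nat.le_mul_of_pos_left _ hm))) (by positivity)
    have d5 : C / K k ≤ η / 8 := by
      rw [div_le_iff₀ η0] at b6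
      rw [div_le_iff₀ K2]
      linarith
    have d6 := mul_le_mul_of_nonneg_left b3.le (a := (C + 1) / η) (by positivity)
    rw [show (C + 1) / η * (η / (4 * ((C + 1) / η))) = η / 4 by field_simp] at d6
    have d7 := div_le_div_of_nonneg_right (d2.trans (le_add_of_nonneg_right zero_le_one))
      (c := 4 * ((C + 1) / η)) (by positivity)
    rw [show (C + 1) / (4 * ((C + 1) / η)) = η / 4 by field_simp] at d7
    linarith
  filter_upwards [hμ.2.1, ae_all_iff.2 fun x => ae_all_iff.2 fun t =>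
    measure_eq_zero_iff_ae_notMem.1 (e2 x t)] with f hf a2
  refine not_frequently.1 fun a3 => ?_
  obtain ⟨k, b1, b2⟩ := (a3.and_eventually (hs α (1 / δ) m 0 K h0 h1 hm K0 Ks)).exists
  have b3 := climb_le hM hf (fun x e => a2 x (f x) ⟨⟨e, rfl⟩, a3⟩) hδ1 b1
  have a4 := a1 k
  have a5 := le_self_pow₀ a4 (n := 4) (by norm_num)
  have K2 : (0 : ℝ) < K k := by exact_mod_cast (Kl k).2
  rw [pow_zero, one_mul, div_mul_eq_mul_div, one_mul, div_le_iff₀ hδ] at b2
  nlinarith [mul_pos K2 hδ]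

end Pool.Agent.MP_151d89_pr.H58
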