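import Pool.Agent.MP_151d89_pr.H58.Spec2
import Pool.Agent.MP_151d89_pr.H58.Loc

/-!
Positive density of the patterns near a contracting profile.
-/

set_option autoImplicit false
open MeasureTheory Finset Filter

namespace Pool.Agent.MP_151d89_pr.H58
open Pool.Agent.MP_151d89_pr.H82 Pool.Agent.MP_151d89_pr.H33 Pool.Agent.MP_151d89_pr.H67
  Pool.Agent.MP_151d89_pr.H30
open Classical

open LocP in
theorem loc2_row (h1 : PredStmt) (h2 : CntStmt) (h3 : Low2Stmt) (h4 : SurgStmt) : Loc2Stmt := by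
  intro δ hδ
  obtain ⟨κ, C, hκ, h3⟩ := h3 δ hδ
  obtain ⟨ε, hε, h1⟩ := err_ge h1 hκ
  obtain ⟨r, L, hr, hL, hrL⟩ := pick hε
  refine ⟨1 / 2 ^ ((2 * L + 1) ^ 2) * (ε / 4), |C| + 2 * L + 8 * L / ε, by positivity, ?_⟩
  intro a u x ρ g b s hs hu hg ha hC hB
  have p1 : (0 : ℝ) ≤ 8 * L / ε := by positivity
  have p2 : (0 : ℝ) ≤ 2 * L := by positivity
  have p3 := abs_nonneg C
  have hC1 : C * (a + 1) ≤ ρ :=
    (mul_le_mul_of_nonneg_right (by linarith [le_abs_self C]) (by linarith)).trans hC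
  have hC2 : |C| + 2 * L + 8 * L / ε ≤ ρ :=
    (le_mul_of_one_le_right (by linarith) (by linarith)).trans hC
  have q1 : (2 * L : ℝ) ≤ ρ := by linarith
  have q2 : (8 * L : ℝ) ≤ ρ * ε := (div_le_iff₀ hε).1 (by linarith)
  have hlow := h3 a u x ρ g hu hg ha hC1 hB
  have hN : ((box x ρ).card : ℝ) = (2 * ρ + 1) ^ 2 := by rw [card_box]; push_cast; ring
  have e1 := h1 r (box x ρ) g hg (by rw [hN]; exact hlow)
  rw [hN] at e1
  obtain ⟨k, rfl⟩ : ∃ k, ρ = k + L := ⟨ρ - L, by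
    have : 2 * L ≤ ρ := by exact_mod_cast q1
    omega⟩
  have hsub : box x k ⊆ box x (k + L) := fun y hy => by
    rw [mem_box] at hy ⊢
    push_cast
    omega
  have hk : ((box x k).card : ℝ) = (2 * k + 1) ^ 2 := by rw [card_box]; push_cast; ring
  have e2 : av (box x (k + L)) (fun f => (num (box x (k + L)) fun y => Err r y f : ℕ)) g ≤
      av (box x (k + L)) (fun f => (num (box x k) fun y => Liq L y f : ℕ) +
        3 * ε / 4 * (2 * ((k + L : ℕ) : ℝ) + 1) ^ 2) g := by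
    refine av_le fun f _ => ?_
    have a1 := h2 r L (k + L) x f hr hL
    have a2 := num_le hsub fun y => Liq L y f
    rw [hN, hk] at a2
    have k0 : (0 : ℝ) ≤ k := Nat.cast_nonneg _
    have L0 : (0 : ℝ) ≤ L := Nat.cast_nonneg _
    have a3 : (2 * (((k + L : ℕ) : ℝ) + 2 * L) + 1) ^ 2 ≤ 4 * (2 * ((k + L : ℕ) : ℝ) + 1) ^ 2 := by
      have : 2 * (((k + L : ℕ) : ℝ) + 2 * L) + 1 ≤ 2 * (2 * ((k + L : ℕ) : ℝ) + 1) := by linarith
      calc _ ≤ (2 * (2 * ((k + L : ℕ) : ℝ) + 1)) ^ 2 := pow_le_pow_left₀ (by positivity) this 2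
        _ = _ := by ring
    have a4 : (2 * (((k + L : ℕ) : ℝ) + 2 * L) + 1) ^ 2 * (1 / r + (r + 3) / L) ≤
        4 * (2 * ((k + L : ℕ) : ℝ) + 1) ^ 2 * (ε / 8) :=
      mul_le_mul a3 hrL (by positivity) (by positivity)
    have a5 : (2 * ((k + L : ℕ) : ℝ) + 1) ^ 2 - (2 * k + 1) ^ 2 ≤
        ε / 4 * (2 * ((k + L : ℕ) : ℝ) + 1) ^ 2 := by
      have b1 : (2 * ((k + L : ℕ) : ℝ) + 1) ^ 2 - (2 * k + 1) ^ 2 ≤
          4 * L * (2 * ((k + L : ℕ) : ℝ) + 1) := by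
        push_cast
        nlinarith [mul_nonneg L0 L0]
      have b2 : 4 * L ≤ ε / 4 * (2 * ((k + L : ℕ) : ℝ) + 1) := by nlinarith
      calc _ ≤ _ := b1
        _ ≤ ε / 4 * (2 * ((k + L : ℕ) : ℝ) + 1) * (2 * ((k + L : ℕ) : ℝ) + 1) :=
          mul_le_mul_of_nonneg_right b2 (by positivity)
        _ = _ := by ring
    linarith
  rw [av_add, av_const _ _ hg] at e2
  refine le_trans ?_ (opp_ge h4 L k x b s hs g)
  rw [mul_assoc]
  refine mul_le_mul_of_nonneg_left ?_ (by positivity)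
  linarith

end Pool.Agent.MP_151d89_pr.H58
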