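import Pool.Agent.MP_151d89_pr.H58.Spec2

/-! A contracting profile close to a function without almost frozen segments. -/

set_option autoImplicit false
open MeasureTheory Finset Filter

namespace Pool.Agent.MP_151d89_pr.H58
open Pool.Agent.MP_151d89_pr.H82 Pool.Agent.MP_151d89_pr.H33 Pool.Agent.MP_151d89_pr.H67
  Pool.Agent.MP_151d89_pr.H30
open Classical

namespace MacP

variable {δ a : ℝ} {S : Set (ℤ × ℤ)} {z : ℤ × ℤ} {ρ : ℕ} {f : Conf}

theorem seg (hS : Sg δ a S f) (hb : ∀ y ∈ box z ρ, y ∈ S) (b : Bool) {x : ℤ × ℤ} {l : ℕ}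
    (hx : x ∈ box z ρ) (hy : pt b x l ∈ box z ρ) :
    |(f (pt b x l) : ℝ) - f x| ≤ (1 - δ) * (dist1 x (pt b x l) : ℝ) + a := by
  have e : dist1 x (pt b x l) = l := by
    cases b <;> simp [dist1, pt, dir]
  rw [e, Int.cast_natCast]
  refine hS b x l fun t ht => hb _ ?_
  rw [mem_box] at hx hy ⊢
  cases b <;> simp [pt, dir] at hy ⊢ <;> omega

theorem dist_comm' (x y : ℤ × ℤ) : dist1 x y = dist1 y x := by
  simp only [dist1, Int.abs_eq_natAbs]
  omega

theorem dist_tri (x y w : ℤ × ℤ) : (dist1 x w : ℝ) ≤ dist1 x y + dist1 y w := by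
  have : dist1 x w ≤ dist1 x y + dist1 y w := by
    simp only [dist1, Int.abs_eq_natAbs]
    omega
  exact_mod_cast this

theorem axis (hS : Sg δ a S f) (hb : ∀ y ∈ box z ρ, y ∈ S) {x y : ℤ × ℤ}
    (hx : x ∈ box z ρ) (hy : y ∈ box z ρ) (h : x.1 = y.1 ∨ x.2 = y.2) :
    |(f y : ℝ) - f x| ≤ (1 - δ) * (dist1 x y : ℝ) + a := by
  have key : ∃ (b : Bool) (l : ℕ), y = pt b x l ∨ x = pt b y l := by
    have h1 : ∀ (u v : ℤ × ℤ) (l : ℕ), v.1 = u.1 + l → v.2 = u.2 → ∃ b, v = pt b u l := by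
      intro u v l e1 e2
      exact ⟨true, Prod.ext (by simpa [pt, dir] using e1) (by simpa [pt, dir] using e2)⟩
    have h2 : ∀ (u v : ℤ × ℤ) (l : ℕ), v.1 = u.1 → v.2 = u.2 + l → ∃ b, v = pt b u l := by
      intro u v l e1 e2
      exact ⟨false, Prod.ext (by simpa [pt, dir] using e1) (by simpa [pt, dir] using e2)⟩
    rcases h with h | h
    · rcases le_total x.2 y.2 with e | e
      · obtain ⟨b, hb⟩ := h2 x y (y.2 - x.2).natAbs h.symm (by omega)
        exact ⟨b, _, Or.inl hb⟩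
      · obtain ⟨b, hb⟩ := h2 y x (y.2 - x.2).natAbs h (by omega)
        exact ⟨b, _, Or.inr hb⟩
    · rcases le_total x.1 y.1 with e | e
      · obtain ⟨b, hb⟩ := h1 x y (y.1 - x.1).natAbs (by omega) h.symm
        exact ⟨b, _, Or.inl hb⟩
      · obtain ⟨b, hb⟩ := h1 y x (y.1 - x.1).natAbs (by omega) h
        exact ⟨b, _, Or.inr hb⟩
  obtain ⟨b, l, rfl | rfl⟩ := key
  · exact seg hS hb b hx hy
  · rw [abs_sub_comm, dist_comm']
    exact seg hS hb b hy hx

theorem two (hS : Sg δ a S f) (hb : ∀ y ∈ box z ρ, y ∈ S) {x y : ℤ × ℤ}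
    (hx : x ∈ box z ρ) (hy : y ∈ box z ρ) :
    |(f y : ℝ) - f x| ≤ (1 - δ) * (dist1 x y : ℝ) + 2 * a := by
  have hw : (y.1, x.2) ∈ box z ρ := by
    rw [mem_box] at hx hy ⊢
    exact ⟨hy.1, hx.2⟩
  have h1 := abs_le.1 (axis hS hb hx hw (Or.inr rfl))
  have h2 := abs_le.1 (axis hS hb hw hy (Or.inl rfl))
  have e : (dist1 x y : ℝ) = dist1 x (y.1, x.2) + dist1 (y.1, x.2) y := by
    have : dist1 x y = dist1 x (y.1, x.2) + dist1 (y.1, x.2) y := by simp [dist1]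
    exact_mod_cast this
  rw [e, abs_le]
  constructor <;> linarith [h1.1, h1.2, h2.1, h2.2]

end MacP

open MacP in
theorem mac_row : MacStmt := by
  intro δ a S z ρ f hδ hS hb
  have hz : z ∈ box z ρ := by rw [mem_box]; omega
  have ha : 0 ≤ a := by
    have := axis hS hb hz hz (Or.inl rfl)
    simpa [dist1] using this
  refine ⟨fun y => (box z ρ).inf' ⟨z, hz⟩ fun x => (f x : ℝ) + (1 - δ) * (dist1 x y : ℝ),
    fun y w => ?_, fun y hy => ?_⟩
  · obtain ⟨x, hx, e⟩ := exists_mem_eq_inf' ⟨z, hz⟩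
      fun x => (f x : ℝ) + (1 - δ) * (dist1 x y : ℝ)
    have h1 := inf'_le (fun x => (f x : ℝ) + (1 - δ) * (dist1 x w : ℝ)) hx
    have h2 := mul_le_mul_of_nonneg_left (dist_tri x y w) (sub_nonneg.2 hδ)
    simp only []
    rw [e]
    linarith
  · have h1 := inf'_le (fun x => (f x : ℝ) + (1 - δ) * (dist1 x y : ℝ)) hy
    have h2 : (f y : ℝ) - 2 * a ≤
        (box z ρ).inf' ⟨z, hz⟩ fun x => (f x : ℝ) + (1 - δ) * (dist1 x y : ℝ) :=
      le_inf' _ _ fun x hx => by linarith [(abs_le.1 (two hS hb hx hy)).2]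
    have e : (dist1 y y : ℝ) = 0 := by simp [dist1]
    rw [e, mul_zero, add_zero] at h1
    rw [abs_le]
    constructor <;> linarith

end Pool.Agent.MP_151d89_pr.H58
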