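import Pool.Agent.MP_151d89_pr.H58.Spec

set_option autoImplicit false
open MeasureTheory Finset

namespace Pool.Agent.MP_151d89_pr.H58
open Pool.Agent.MP_151d89_pr.H82 Pool.Agent.MP_151d89_pr.H33 Pool.Agent.MP_151d89_pr.H67
  Pool.Agent.MP_151d89_pr.H30
open Classical

namespace ProbP

theorem pt_pt (b : Bool) (x : ℤ × ℤ) (t u : ℤ) : pt b (pt b x t) u = pt b x (t + u) := by
  simp only [pt, add_smul, add_assoc]

theorem disj {s : ℤ} (hs : s = 1 ∨ s = -1) {b : Bool} {x x' : ℤ × ℤ} {l t t' : ℕ} {f : Conf}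
    (h : Av s (b, x, l) f) (h' : Av s (b, x', l) f) (e : pt b x t = pt b x' t') (h1 : t' < t)
    (h2 : t ≤ l) : False := by
  obtain ⟨d, rfl⟩ := Nat.exists_eq_add_of_lt h1
  obtain rfl : x' = pt b x (d + 1 : ℕ) := by
    have := congrArg (fun y => pt b y (-t')) e
    simp only [pt_pt, add_neg_cancel, pt_zero] at this
    rw [← this]
    congr 1
    push_cast
    ring
  have a1 := h.1 (d + 1) (by simp only; omega)
  simp only at a1
  rcases hs with rfl | rfl
  · have a2 := h.1 d (by simp only; omega)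
    have a3 := h'.2.1
    simp only [pt_pt] at a2 a3
    rw [show ((d + 1 : ℕ) : ℤ) + -1 = d by push_cast; ring] at a3
    omega
  · have a2 := h'.1 (l - d) (by simp only; omega)
    have a3 := h.2.2.1
    simp only [pt_pt] at a2 a3
    rw [show ((d + 1 : ℕ) : ℤ) + (l - d : ℕ) = l + 1 by omega] at a2
    omega

theorem card {s : ℤ} (hs : s = 1 ∨ s = -1) {b : Bool} {X : Finset (ℤ × ℤ)} {l : ℕ} {f : Conf}
    (h : ∀ x ∈ X, Av s (b, x, l) f) : X.card * ((l - 1) / 2) ≤ (inn b l X).card := by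
  rw [← card_range ((l - 1) / 2), ← card_product]
  refine card_le_card_of_injOn
    (fun q => pt b q.1 (2 * q.2 + 1 + ((q.1.1 + q.1.2 + 1) % 2).toNat : ℕ)) (fun q hq => ?_)
    fun q hq q' hq' e => ?_
  · obtain ⟨h1, h2⟩ := mem_product.1 hq
    rw [mem_range] at h2
    refine mem_filter.2 ⟨mem_biUnion.2 ⟨q.1, h1, mem_image_of_mem _ (mem_Ioo.2 (by omega))⟩, ?_⟩
    cases b <;> simp only [pt_true, pt_false] <;> omega
  · obtain ⟨h1, h2⟩ := mem_product.1 hq
    obtain ⟨h3, h4⟩ := mem_product.1 hq'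
    rw [mem_range] at h2 h4
    have a1 := fun c => disj hs (h _ h1) (h _ h3) e c (by omega)
    have a2 := fun c => disj hs (h _ h3) (h _ h1) e.symm c (by omega)
    have a3 := le_antisymm (not_lt.1 a1) (not_lt.1 a2)
    simp only [a3] at e
    have a4 : q.1 = q'.1 := add_right_cancel e
    rw [a4] at a3
    exact Prod.ext a4 (by omega)

end ProbP

theorem prob_row (h1 : TCStmt) (h2 : ShiftStmt) : ProbStmt := by
  intro δ hδ
  obtain ⟨p, C, p0, C0, h2⟩ := h2 δ hδ
  have L0 : 0 < Real.log 2 := Real.log_pos one_lt_two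
  set D := 2 * Real.exp (p * Real.log 2) with hD
  have D0 : 0 < D := by positivity
  refine ⟨p, C + D, Real.exp (-(p * Real.log 2 / 2)), p0, by positivity, Real.exp_pos _,
    Real.exp_lt_one_iff.2 (neg_lt_zero.2 (by positivity)),
    fun c a u n r g b s l X hs hu hg ha hn hX hb => ?_⟩
  rcases em' (∃ f, ∀ x ∈ X, Av s (b, x, l) f) with h0 | ⟨f, hf⟩
  · rw [av_eq fun f _ => ind_neg fun h => h0 ⟨f, h⟩, av_const _ _ hg]; positivity
  have hA : inn b l X ⊆ box 0 r := fun y hy => by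
    obtain ⟨x, hx, h⟩ := mem_biUnion.1 (mem_filter.1 hy).1
    obtain ⟨t, ht, rfl⟩ := mem_image.1 h
    exact hX x hx (tow_in (b, x, l) (mem_Ioo.1 ht).2.le)
  have a1 : C * (a + 1) ≤ (C + D) * (a + 1) := by gcongr; linarith
  have hr : r ≤ n := by
    have : (r : ℝ) ≤ n := by linarith [mul_nonneg C0 (show 0 ≤ a + 1 by linarith)]
    exact_mod_cast this
  have a2 := h2 c a u n r g b s _ hs hu hg ha (by linarith) hA hb
  set k := ⌈p * (inn b l X).card⌉₊ with hk
  have a3 := h1 (box 0 n) g b s l k X hs fun y hy => by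
    have := mem_box0.1 (hA hy)
    rw [mem_box0]
    omega
  simp only [← Nat.ceil_le, ← hk] at a2
  have a4 : (X.card : ℝ) * ((l - 2) / 2) ≤ (inn b l X).card := by
    have b1 : (X.card : ℝ) * ((l - 1) / 2 : ℕ) ≤ (inn b l X).card := by
      exact_mod_cast ProbP.card hs hf
    have b2 : (l : ℝ) ≤ 2 * ((l - 1) / 2 : ℕ) + 2 := by exact_mod_cast (by omega)
    refine le_trans ?_ b1
    gcongr
    linarith
  have a5 : (2 : ℝ) ^ X.card ≤ (D * Real.exp (-(p * Real.log 2 / 2)) ^ l) ^ X.card * 2 ^ k := by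
    have e : (2 : ℝ) ^ k = Real.exp (k * Real.log 2) := by
      rw [Real.exp_nat_mul, Real.exp_log two_pos]
    rw [hD, mul_assoc, mul_pow, e, ← Real.exp_nat_mul, ← Real.exp_add, ← Real.exp_nat_mul,
      mul_assoc, ← Real.exp_add]
    refine le_mul_of_one_le_right (by positivity) (Real.one_le_exp ?_)
    have b1 := mul_le_mul_of_nonneg_right
      ((mul_le_mul_of_nonneg_left a4 p0.le).trans (Nat.le_ceil _)) L0.le
    linarith
  have Z0 := card_pos (box 0 n) hg
  have a6 : av (box 0 n) (fun f => ind (∀ x ∈ X, Av s (b, x, l) f)) g *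
      av (box 0 n) (fun f => ind (k ≤ num (inn b l X) fun y => Opp b s y f)) g * 2 ^ k ≤
      2 ^ X.card := by
    rw [av_ind, av_ind, div_mul_div_comm, div_mul_eq_mul_div, div_le_iff₀ (mul_pos Z0 Z0), ← sq]
    norm_cast
    convert a3
  have a7 := av_nonneg (Λ := box 0 n) (fun f => (ind_mem (∀ x ∈ X, Av s (b, x, l) f)).1) g
  have a8 := (mul_le_mul_of_nonneg_left a2 a7).trans
    (le_of_mul_le_mul_right (a6.trans a5) (by positivity))
  rw [Real.exp_neg, ← div_eq_mul_inv, div_le_iff₀' (Real.exp_pos _)] at a8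
  refine a8.trans ?_
  gcongr
  linarith

end Pool.Agent.MP_151d89_pr.H58
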