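import Pool.Agent.MP_151d89_pr.H58.Spec2
import Pool.Agent.MP_151d89_pr.H58.Prob

set_option autoImplicit false
open MeasureTheory Finset

namespace Pool.Agent.MP_151d89_pr.H58
open Pool.Agent.MP_151d89_pr.H82 Pool.Agent.MP_151d89_pr.H33 Pool.Agent.MP_151d89_pr.H67
  Pool.Agent.MP_151d89_pr.H30
open Classical

theorem prob2_row (h1 : TCStmt) (h2 : Shift2Stmt) : Prob2Stmt := by
  intro δ hδ hδ1
  obtain ⟨p, C, p0, C0, h2⟩ := h2 δ hδ hδ1
  have L0 : 0 < Real.log 2 := Real.log_pos one_lt_two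
  set D := 2 * Real.exp (p * Real.log 2) with hD
  have D0 : 0 < D := by positivity
  refine ⟨C + 1 + D, Real.exp (-(p * Real.log 2 / 2)), by positivity, Real.exp_pos _,
    Real.exp_lt_one_iff.2 (neg_lt_zero.2 (by positivity)),
    fun a S Λ z n r g b s l X hs hg ha hn hX hΛ hS hb hd => ?_⟩
  rcases em' (∃ f, ∀ x ∈ X, Av s (b, x, l) f) with h0 | ⟨f, hf⟩
  · rw [av_eq fun f _ => ind_neg fun h => h0 ⟨f, h⟩, av_const _ _ hg]; positivity
  have hA : inn b l X ⊆ box z r := fun y hy => by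
    obtain ⟨x, hx, h⟩ := mem_biUnion.1 (mem_filter.1 hy).1
    obtain ⟨t, ht, rfl⟩ := mem_image.1 h
    exact hX x hx (tow_in (b, x, l) (mem_Ioo.1 ht).2.le)
  have a1 : C * (a + 1) ≤ (C + 1 + D) * (a + 1) := by gcongr; linarith
  have hr : r ≤ n := by
    have : (r : ℝ) ≤ n := by linarith [mul_nonneg C0 (show 0 ≤ a + 1 by linarith)]
    exact_mod_cast this
  have a2 := (mul_le_mul_of_nonneg_right hb (Real.exp_pos _).le).trans
    (h2 a S Λ z n r g b s _ hs hg ha (by linarith) hA hΛ hS (hd.mono ha (by linarith)))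
  set k := ⌈p * (inn b l X).card⌉₊ with hk
  have a3 := h1 Λ g b s l k X hs fun y hy => hΛ (by
    have := mem_box.1 (hA hy)
    rw [mem_box]
    omega)
  simp only [← Nat.ceil_le, ← hk] at a2
  have a4 : (X.card : ℝ) * ((l - 2) / 2) ≤ (inn b l X).card := by
    have b1 : (X.card : ℝ) * ((l - 1) / 2 : ℕ) ≤ (inn b l X).card := by
      exact_mod_cast ProbP.card hs hf
    have b2 : (l : ℝ) ≤ 2 * ((l - 1) / 2 : ℕ) + 2 := by exact_mod_cast (by omega)
    refine le_trans ?_ b1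
    gcongr
    linarith
  have a5 : (2 : ℝ) ^ X.card ≤ (D * Real.exp (-(p * Real.log 2 / 2)) ^ l) ^ X.card * 2 ^ k := by
    have e : (2 : ℝ) ^ k = Real.exp (k * Real.log 2) := by
      rw [Real.exp_nat_mul, Real.exp_log two_pos]
    rw [hD, mul_assoc, mul_pow, e, ← Real.exp_nat_mul, ← Real.exp_add, ← Real.exp_nat_mul,
      mul_assoc, ← Real.exp_add]
    refine le_mul_of_one_le_right (by positivity) (Real.one_le_exp ?_)
    have b1 := mul_le_mul_of_nonneg_right
      ((mul_le_mul_of_nonneg_left a4 p0.le).trans (Nat.le_ceil _)) L0.le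
    linarith
  have Z0 := card_pos Λ hg
  have a6 : av Λ (fun f => ind (∀ x ∈ X, Av s (b, x, l) f)) g *
      av Λ (fun f => ind (k ≤ num (inn b l X) fun y => Opp b s y f)) g * 2 ^ k ≤
      2 ^ X.card := by
    rw [av_ind, av_ind, div_mul_div_comm, div_mul_eq_mul_div, div_le_iff₀ (mul_pos Z0 Z0), ← sq]
    norm_cast
    convert a3
  have a7 := av_nonneg (Λ := Λ) (fun f => (ind_mem (∀ x ∈ X, Av s (b, x, l) f)).1) g
  have a8 := (mul_le_mul_of_nonneg_left a2 a7).trans
    (le_of_mul_le_mul_right (a6.trans a5) (by positivity))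
  rw [← Real.exp_add, ← neg_add, Real.exp_neg, ← div_eq_mul_inv,
    div_le_iff₀' (Real.exp_pos _)] at a8
  refine a8.trans ?_
  gcongr
  · nlinarith [mul_nonneg ha n.cast_nonneg, mul_nonneg (mul_nonneg D0.le (add_nonneg ha one_pos.le))
      n.cast_nonneg]
  · linarith

end Pool.Agent.MP_151d89_pr.H58
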