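import Pool.Agent.MP_151d89_pr.H58.Spec2

/-!
Row Res: from a sequence of scales to all radii.
-/

set_option autoImplicit false
open MeasureTheory Finset Filter

namespace Pool.Agent.MP_151d89_pr.H58
open Pool.Agent.MP_151d89_pr.H82 Pool.Agent.MP_151d89_pr.H33 Pool.Agent.MP_151d89_pr.H67
  Pool.Agent.MP_151d89_pr.H30
open Classical

namespace ResP

/-- the scales -/
def KK (m : ℕ) : ℕ → ℕ
  | 0 => 1
  | k + 1 => KK m k + 10 * KK m k / m + 1

theorem mono (m : ℕ) : StrictMono (KK m) :=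
  strictMono_nat_of_lt_succ fun _ => Nat.lt_succ_of_le (Nat.le_add_right _ _)

theorem step {m : ℕ} (hm : 10 ≤ m) (k : ℕ) : (m + 10) * KK m k ≤ m * KK m (k + 1) ∧
    m * KK m (k + 1) ≤ (m + 10) * KK m k + m := by
  have h1 := Nat.mul_div_le (10 * KK m k) m
  have h2 := Nat.lt_mul_div_succ (10 * KK m k) (show 0 < m by omega)
  rw [KK]
  constructor <;> nlinarith

theorem le12 {m : ℕ} (hm : 10 ≤ m) (k : ℕ) : KK m k ≤ 12 ^ k := by
  induction k with
  | zero => exact le_rfl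
  | succ k ih =>
    have h1 : 10 * KK m k / m ≤ KK m k := Nat.div_le_of_le_mul (Nat.mul_le_mul_right _ hm)
    have h2 := Nat.one_le_pow k 12 (by norm_num)
    rw [KK]
    omega

end ResP

open ResP in
theorem res_row (h : LastStmt) : ResStmt := by
  intro μ hμ α δ ε hα hδ hε
  obtain ⟨m, hm, hm'⟩ : ∃ m : ℕ, 10 ≤ m ∧ 40 / ε ≤ m :=
    ((eventually_ge_atTop 10).and (tendsto_natCast_atTop_atTop.eventually_ge_atTop _)).exists
  filter_upwards [h μ hμ (max α 0) (min δ 1) m (KK m) (le_max_right _ _) (max_lt hα (by norm_num))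
    (lt_min hδ one_pos) (min_le_right _ _) (by omega) le_rfl (le12 hm) fun k => (step hm k).1]
    with f hf
  obtain ⟨k₀, hk⟩ := eventually_atTop.1 hf
  filter_upwards [eventually_gt_atTop (m * KK m k₀),
    (tendsto_natCast_atTop_atTop (R := ℝ)).eventually_ge_atTop (4 * (m + 10) / ε)] with R h1 h2
  have hex : ∃ i, R ≤ m * KK m i :=
    ⟨R, (mono m).le_apply.trans (Nat.le_mul_of_pos_left _ (by omega))⟩
  have h3 : k₀ < Nat.find hex := (Nat.lt_find_iff _ _).2 fun i hi =>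
    not_le.2 ((Nat.mul_le_mul_left _ ((mono m).monotone hi)).trans_lt h1)
  obtain ⟨k, e⟩ : ∃ k, Nat.find hex = k + 1 := ⟨_, (Nat.succ_pred_eq_of_pos (by omega)).symm⟩
  have h4 := Nat.find_spec hex
  have h5 : (m : ℝ) * KK m k ≤ R := by
    exact_mod_cast (not_le.1 (Nat.find_min hex (m := k) (by omega))).le
  have h6 := hk _ h3.le
  rw [e] at h4 h6
  have h7 : (m : ℝ) * KK m (k + 1) ≤ (m + 10) * KK m k + m := by exact_mod_cast (step hm k).2
  generalize KK m (k + 1) = B at *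
  have m0 : (10 : ℝ) ≤ m := by exact_mod_cast hm
  have h8 : ((m : ℝ) + 10) * B ≤ (1 + ε) * R := by
    rw [div_le_iff₀ hε] at hm' h2
    have R0 : (0 : ℝ) ≤ R := R.cast_nonneg
    refine le_of_mul_le_mul_left ?_ (show (0 : ℝ) < m ^ 2 by positivity)
    have a1 := mul_le_mul_of_nonneg_left h7 (show (0 : ℝ) ≤ m * (m + 10) by positivity)
    have a2 := mul_le_mul_of_nonneg_left h5 (show (0 : ℝ) ≤ (m + 10) ^ 2 by positivity)
    have a3 := mul_le_mul_of_nonneg_left h2 (show (0 : ℝ) ≤ m ^ 2 by positivity)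
    have a4 := mul_le_mul_of_nonneg_left hm' (show (0 : ℝ) ≤ m * R by positivity)
    have a5 := mul_le_mul_of_nonneg_right m0 R0
    linarith
  have h9 : (R : ℝ) ^ α ≤ ((m * B : ℕ) : ℝ) ^ max α 0 :=
    (Real.rpow_le_rpow_of_exponent_le (by exact_mod_cast (by omega : 1 ≤ R)) (le_max_left α 0)).trans
      (Real.rpow_le_rpow (by positivity) (by exact_mod_cast h4) (le_max_right _ _))
  simp only [Sg, not_forall, not_le] at h6
  obtain ⟨b, x, l, a1, a2⟩ := h6
  have a3 : ∀ t : ℕ, t ≤ l → (R : ℤ) ≤ nrm (pt b x t) ∧ (nrm (pt b x t) : ℝ) ≤ (1 + ε) * R :=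
    fun t ht => ⟨le_trans (by exact_mod_cast h4) (a1 t ht).1, le_trans (by
      have : (nrm (pt b x t) : ℝ) ≤ ((m * B : ℕ) : ℤ) + 10 * (B : ℤ) := by
        exact_mod_cast (a1 t ht).2
      push_cast at this
      linarith) h8⟩
  have a4 := mul_le_mul_of_nonneg_right (sub_le_sub_left (min_le_left δ 1) 1) l.cast_nonneg
  rcases lt_abs.1 a2 with a5 | a5
  · refine ⟨x, dir b, l, by cases b <;> rfl, a3, ?_⟩
    rw [Int.cast_sub]
    exact lt_of_le_of_lt (add_le_add a4 h9) a5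
  · refine ⟨pt b x l, -dir b, l, by cases b <;> rfl, fun t ht => ?_, ?_⟩
    · have : pt b x l + (t : ℤ) • -dir b = pt b x (l - t : ℕ) := by
        rw [pt, pt, Nat.cast_sub ht, smul_neg, sub_smul]
        abel
      rw [this]
      exact a3 _ (Nat.sub_le _ _)
    · have : pt b x l + (l : ℤ) • -dir b = x := by rw [pt, smul_neg, add_neg_cancel_right]
      rw [this, Int.cast_sub]
      exact lt_of_le_of_lt (add_le_add a4 h9) (a5.trans_eq (neg_sub _ _))

end Pool.Agent.MP_151d89_pr.H58
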