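import Pool.Agent.MP_151d89_pr.H58.Spec2
import Pool.Agent.MP_151d89_pr.H58.Tail
import Pool.Agent.MP_151d89_pr.H30.Run

/-!
Row RunF: long runs are unlikely in finite volume.
-/

set_option autoImplicit false
open MeasureTheory Finset Filter

namespace Pool.Agent.MP_151d89_pr.H58
open Pool.Agent.MP_151d89_pr.H82 Pool.Agent.MP_151d89_pr.H33 Pool.Agent.MP_151d89_pr.H67
  Pool.Agent.MP_151d89_pr.H30
open Classical

namespace RunFP
open RunAux (Adj A Df Lo edge fin_step pt_adj)

/-- the probability of an event -/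
noncomputable def pr (Λ : Finset (ℤ × ℤ)) (g : Conf) (S : Set Conf) : ℝ :=
  av Λ (fun f => ind (f ∈ S)) g

variable {Λ : Finset (ℤ × ℤ)} {g : Conf}

theorem pr_nonneg (S : Set Conf) : 0 ≤ pr Λ g S := (av_mem Λ _ g).1

theorem one_side (hg : Hom g) {a : ℕ → ℤ × ℤ} (ha : Adj a) (s : ℤ) (l : ℕ) :
    pr Λ g (A a s l) ≤ pr Λ g {f | f (a 0) = s} * Real.exp (-∑ j ∈ range l, pr Λ g (Lo a s j)) := by
  induction l with
  | zero =>
    rw [range_zero, sum_empty, neg_zero, Real.exp_zero, mul_one]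
    exact av_mono' fun f _ hf => by simpa using hf 0 le_rfl
  | succ l ih =>
    have h1 : pr Λ g (A a s l) * pr Λ g (Lo a s l) ≤ pr Λ g (A a s l ∩ Df a l) := by
      have hp := card_pos Λ hg
      have h2 : ((RunAux.FI Λ g (A a s l)).card : ℝ) * (RunAux.FI Λ g (Lo a s l)).card ≤
          (RunAux.FI Λ g (A a s l ∩ Df a l)).card * (FS Λ g).card := by
        exact_mod_cast fin_step ha Λ g s l
      unfold pr
      rw [av_ind, av_ind, av_ind, div_mul_div_comm, div_le_div_iff₀ (mul_pos hp hp) hp, ← mul_assoc]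
      exact mul_le_mul_of_nonneg_right h2 hp.le
    have h3 : pr Λ g (A a s (l + 1)) + pr Λ g (A a s l ∩ Df a l) ≤ pr Λ g (A a s l) := by
      unfold pr
      rw [← av_add]
      refine av_le fun f _ => ?_
      by_cases hf : f ∈ A a s (l + 1)
      · rw [ind_pos hf, ind_pos (show f ∈ A a s l from fun t ht => hf t (by omega)), ind_neg, add_zero]
        intro h
        have e1 := hf l (by omega)
        have e2 := hf (l + 1) le_rfl
        have e3 : f (a (l + 1)) = f (a l) - 1 := h.2
        push_cast at e2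
        omega
      · rw [ind_neg hf, zero_add]
        by_cases h : f ∈ A a s l ∩ Df a l
        · rw [ind_pos h, ind_pos h.1]
        · rw [ind_neg h]
          exact (ind_mem _).1
    have h4 := Real.add_one_le_exp (-pr Λ g (Lo a s l))
    have h5 : 0 ≤ pr Λ g (A a s l) := pr_nonneg _
    rw [sum_range_succ, neg_add, Real.exp_add, ← mul_assoc]
    calc pr Λ g (A a s (l + 1)) ≤ pr Λ g (A a s l) * (-pr Λ g (Lo a s l) + 1) := by linarith
      _ ≤ pr Λ g (A a s l) * Real.exp (-pr Λ g (Lo a s l)) := by gcongr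
      _ ≤ _ := by gcongr

theorem pr_neg (S : Set Conf) : pr Λ (-g) S = pr Λ g {f | -f ∈ S} := TailP.av_neg Λ _ g

theorem two_side (hg : Hom g) (b : Bool) (x : ℤ × ℤ) (s : ℤ) (l : ℕ) :
    pr Λ g (A (fun t => pt b x t) s l) ≤
      (pr Λ g {f | f (pt b x 0) = s + 0} + pr Λ g {f | f (pt b x l) = s + l}) *
        Real.exp (-(∑ j ∈ range l, pr Λ g (Df (fun t => pt b x t) j)) / 2) := by
  rw [add_zero]
  set a : ℕ → ℤ × ℤ := fun t => pt b x t with ha'
  set a' : ℕ → ℤ × ℤ := fun t => pt b x (l - t) with ha''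
  have ha : Adj a := fun j => pt_adj b x _ _ (by push_cast; simp)
  have hb : Adj a' := fun j => pt_adj b x _ _ (by push_cast; simp)
  have h1 := one_side (Λ := Λ) hg ha s l
  have h2 := one_side (Λ := Λ) (TailP.hom_neg hg) hb (-s - l) l
  simp only [pr_neg] at h2
  rw [← sum_range_reflect] at h2
  have e1 : pr Λ g (A a s l) ≤ pr Λ g {f | -f ∈ A a' (-s - l) l} := by
    refine av_mono' fun f _ hf t ht => ?_
    have h := hf (l - t) (by omega)
    simp only [ha', Nat.cast_sub ht] at h
    simp only [ha'', Pi.neg_apply, h]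
    ring
  have e2 : {f : Conf | -f ∈ {f : Conf | f (a' 0) = -s - l}} = {f | f (pt b x l) = s + l} := by
    ext f
    simp only [ha'', Pi.neg_apply, Set.mem_ofPred_eq, Nat.cast_zero, sub_zero]
    omega
  rw [e2] at h2
  have e3 : ∑ j ∈ range l, pr Λ g (Df a j) ≤ ∑ j ∈ range l, pr Λ g (Lo a s j) +
      ∑ j ∈ range l, pr Λ g {f | -f ∈ Lo a' (-s - l) (l - 1 - j)} := by
    rw [← sum_add_distrib]
    refine sum_le_sum fun j hj => ?_
    unfold pr
    rw [← av_add]
    refine av_le fun f _ => ?_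
    have n1 := (ind_mem (f ∈ Lo a s j)).1
    have n2 := (ind_mem (f ∈ {f : Conf | -f ∈ Lo a' (-s - l) (l - 1 - j)})).1
    by_cases hf : f ∈ Df a j
    swap
    · rw [ind_neg hf]
      linarith
    have k : f ∈ Lo a s j ∨ f ∈ {f : Conf | -f ∈ Lo a' (-s - l) (l - 1 - j)} := by
      have hj' := mem_range.1 hj
      have c1 : ((l - 1 - j : ℕ) : ℤ) = l - 1 - j := by omega
      have c2 : (l : ℤ) - (l - 1 - j + 1) = j := by ring
      have c3 : (l : ℤ) - (l - 1 - j) = j + 1 := by ring
      simp only [Df, ha', Set.mem_ofPred_eq, Nat.cast_add, Nat.cast_one] at hf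
      simp only [Lo, ha', ha'', Pi.neg_apply, Set.mem_ofPred_eq, Nat.cast_add, Nat.cast_one,
        c1, c2, c3]
      omega
    rw [ind_pos hf]
    rcases k with k | k <;> rw [ind_pos k] <;> linarith
  have p1 : 0 ≤ pr Λ g {f | f (pt b x 0) = s} := pr_nonneg _
  have p2 : 0 ≤ pr Λ g {f | f (pt b x l) = s + l} := pr_nonneg _
  have p3 := Real.exp_pos (-(∑ j ∈ range l, pr Λ g (Df a j)) / 2)
  rw [add_mul]
  rcases le_total ((∑ j ∈ range l, pr Λ g (Df a j)) / 2) (∑ j ∈ range l, pr Λ g (Lo a s j))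
    with h | h
  · refine h1.trans (le_add_of_le_of_nonneg (mul_le_mul_of_nonneg_left
      (Real.exp_le_exp.2 (by linarith)) p1) (by positivity))
  · refine e1.trans (h2.trans (le_add_of_nonneg_of_le (by positivity)
      (mul_le_mul_of_nonneg_left (Real.exp_le_exp.2 (by linarith)) p2)))

theorem law_sum (hg : Hom g) (T : Finset ℤ) (y : ℤ × ℤ) (c : ℤ) :
    ∑ s ∈ T, pr Λ g {f | f y = s + c} ≤ 1 := by
  unfold pr
  rw [← av_sum]
  refine (av_le fun f _ => ?_).trans (av_const Λ 1 hg).le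
  simp only [ind, Set.mem_ofPred_eq, ← sub_eq_iff_eq_add, sum_ite_eq]
  split_ifs <;> norm_num

theorem run_le (hg : Hom g) (b : Bool) (x : ℤ × ℤ) (l : ℕ) :
    av Λ (fun f => ind (Run b x l f)) g ≤
      2 * Real.exp (-(∑ j ∈ range l, pr Λ g (Df (fun t => pt b x t) j)) / 2) := by
  have h1 : av Λ (fun f => ind (Run b x l f)) g ≤
      ∑ s ∈ (FS Λ g).image (· x), pr Λ g (A (fun t => pt b x t) s l) := by
    unfold pr
    rw [← av_sum]
    exact av_le fun f hf => single_le_sum (f := fun s => ind (f ∈ A (fun t => pt b x t) s l))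
      (fun _ _ => (ind_mem _).1) (mem_image_of_mem _ hf)
  refine h1.trans ((sum_le_sum fun s _ => two_side hg b x s l).trans ?_)
  rw [← sum_mul, sum_add_distrib]
  gcongr
  linarith [law_sum (Λ := Λ) hg ((FS Λ g).image (· x)) (pt b x 0) 0,
    law_sum (Λ := Λ) hg ((FS Λ g).image (· x)) (pt b x l) l]

theorem count {a : ℕ → ℤ × ℤ} (ha : Adj a) {f : Conf} (hf : Hom f) (l : ℕ) :
    2 * ∑ j ∈ range l, ind (f ∈ Df a j) = l - ((f (a l) : ℝ) - f (a 0)) := by
  induction l with
  | zero => simp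
  | succ l ih =>
    rw [sum_range_succ, mul_add, ih]
    rcases edge ha hf l with h | h
    · rw [ind_neg (p := f ∈ Df a l) fun k : f (a (l + 1)) = f (a l) - 1 => by omega, h]
      push_cast
      ring
    · rw [ind_pos (show f ∈ Df a l from h), h]
      push_cast
      ring

end RunFP

open RunFP in
theorem runF_row : RunFStmt := by
  intro δ a ε S Λ g b x l hg hε hS h
  rcases le_total (δ * l - a) 0 with h0 | h0
  · have := Real.one_le_exp (x := -(ε * (δ * l - a) / 4)) (by nlinarith)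
    linarith [(av_mem Λ (Run b x l) g).2]
  refine (run_le hg b x l).trans ?_
  have k : (δ * l - a) / 2 * av Λ (fun f => ind (Sg δ a S f)) g ≤
      ∑ j ∈ range l, pr Λ g (RunAux.Df (fun t => pt b x t) j) := by
    unfold pr
    rw [← av_sum, ← av_smul]
    refine av_le fun f hf => ?_
    by_cases e : Sg δ a S f
    · have c := count (a := fun t => pt b x t)
        (fun j => RunAux.pt_adj b x _ _ (by push_cast; simp)) (mem_FS.1 hf).1 l
      have e0 : pt b x (0 : ℕ) = x := by simp [pt]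
      rw [e0] at c
      rw [ind_pos e]
      linarith [(abs_le.1 (e b x l hS)).2]
    · rw [ind_neg e, mul_zero]
      exact sum_nonneg fun _ _ => (ind_mem _).1
  gcongr
  nlinarith

end Pool.Agent.MP_151d89_pr.H58
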