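import Pool.Agent.MP_151d89_pr.H58.Spec2

/-!
Bounded energy at one scale.
-/

set_option autoImplicit false
open MeasureTheory Finset Filter

namespace Pool.Agent.MP_151d89_pr.H58
open Pool.Agent.MP_151d89_pr.H82 Pool.Agent.MP_151d89_pr.H33 Pool.Agent.MP_151d89_pr.H67
  Pool.Agent.MP_151d89_pr.H30
open Classical

namespace ScaleP

theorem pig (P : ℕ → ℝ) (h0 : 0 ≤ P 0) (j : ℕ) :
    (∃ i < j, P (i + 1) ≤ 2 * P i ∧ P 0 ≤ P i) ∨ 2 ^ j * P 0 ≤ P j := by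
  induction j with
  | zero => right; simp
  | succ j ih =>
    rcases ih with ⟨i, h1, h2⟩ | h
    · exact Or.inl ⟨i, by omega, h2⟩
    · by_cases e : P (j + 1) ≤ 2 * P j
      · exact Or.inl ⟨j, by omega, e,
          (le_mul_of_one_le_left h0 (one_le_pow₀ one_le_two)).trans h⟩
      · right
        rw [pow_succ]
        linarith [not_le.1 e]

/-- the sequence of widths -/
def sq (C a : ℝ) : ℕ → ℝ
  | 0 => a
  | j + 1 => C * (sq C a j + 1)

theorem sq_le {C a : ℝ} (hC : 0 ≤ C) (ha : 0 ≤ a) (j : ℕ) :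
    0 ≤ sq C a j ∧ sq C a j + 1 ≤ (C + 1) ^ j * (a + 1) := by
  induction j with
  | zero => simpa [sq] using ha
  | succ j ih =>
    refine ⟨mul_nonneg hC (by linarith [ih.1]), ?_⟩
    rw [sq, pow_succ', mul_assoc]
    nlinarith [mul_le_mul_of_nonneg_left ih.2 hC, ih.1, ih.2]

/-- a width with the doubling property -/
theorem dbl {δ C a : ℝ} {M k : ℕ} (S : Set (ℤ × ℤ)) (Λ : Finset (ℤ × ℤ)) (g : Conf) (hC : 0 ≤ C)
    (hM : C + 1 ≤ 2 ^ M) (ha : 1 ≤ a)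
    (h : 1 / ((k : ℝ) + 1) ^ 2 ≤ av Λ (fun f => ind (Sg δ a S f)) g) :
    ∃ a', 0 ≤ a' ∧ a' + 1 ≤ 2 ^ (M + 1) * (((k : ℝ) + 1) ^ (2 * M) * a) ∧ Dbl δ C a' S Λ g ∧
      1 / ((k : ℝ) + 1) ^ 2 ≤ av Λ (fun f => ind (Sg δ a' S f)) g := by
  obtain ⟨J, j1, j2⟩ : ∃ J : ℕ, (k + 1) ^ 2 < 2 ^ J ∧ 2 ^ J ≤ 2 * (k + 1) ^ 2 :=
    ⟨Nat.log 2 ((k + 1) ^ 2) + 1, Nat.lt_pow_succ_log_self one_lt_two _, by
      rw [pow_succ']
      exact Nat.mul_le_mul_left 2 (Nat.pow_log_le_self 2 (by positivity))⟩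
  have j3 : ((k : ℝ) + 1) ^ 2 < 2 ^ J := by exact_mod_cast j1
  have j4 : (2 : ℝ) ^ J ≤ 2 * ((k : ℝ) + 1) ^ 2 := by exact_mod_cast j2
  rcases pig (fun j => av Λ (fun f => ind (Sg δ (sq C a j) S f)) g) (av_mem _ _ _).1 J with
    ⟨i, h1, h2, h3⟩ | h1
  · obtain ⟨s1, s2⟩ := sq_le hC (by linarith : 0 ≤ a) i
    refine ⟨sq C a i, s1, s2.trans ?_, h2, h.trans h3⟩
    calc (C + 1) ^ i * (a + 1) ≤ (2 ^ M) ^ J * (2 * a) :=
          mul_le_mul ((pow_le_pow_left₀ (by linarith) hM i).trans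
            (pow_le_pow_right₀ (one_le_pow₀ one_le_two) h1.le)) (by linarith) (by linarith)
            (by positivity)
      _ = (2 ^ J) ^ M * (2 * a) := by rw [← pow_mul, ← pow_mul, mul_comm M]
      _ ≤ (2 * ((k : ℝ) + 1) ^ 2) ^ M * (2 * a) :=
          mul_le_mul_of_nonneg_right (pow_le_pow_left₀ (by positivity) j4 M) (by linarith)
      _ = _ := by rw [mul_pow, ← pow_mul]; ring
  · exfalso
    have h2 : 2 ^ J * (1 / ((k : ℝ) + 1) ^ 2) ≤ 1 :=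
      ((mul_le_mul_of_nonneg_left h (by positivity)).trans h1).trans (av_mem _ _ _).2
    rw [mul_one_div, div_le_one (by positivity)] at h2
    linarith

theorem ex_le {k K : ℕ} (h1 : 1 ≤ K) (h : K ≤ 12 ^ k) {t : ℝ} (ht : 100 * ((k : ℝ) + 1) ≤ t) :
    2 * Real.exp (-t) ≤ 2 / (K : ℝ) ^ 9 := by
  have a1 : (K : ℝ) ≤ Real.exp (k * 11) := by
    rw [Real.exp_nat_mul]
    refine le_trans (by exact_mod_cast h) (pow_le_pow_left₀ (by norm_num : (0 : ℝ) ≤ 12) ?_ k)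
    linarith [Real.add_one_le_exp 11]
  have a2 : (K : ℝ) ^ 9 ≤ Real.exp t := by
    refine (pow_le_pow_left₀ (Nat.cast_nonneg _) a1 9).trans ?_
    rw [← Real.exp_nat_mul, Real.exp_le_exp]
    have : (0 : ℝ) ≤ k := Nat.cast_nonneg _
    push_cast
    linarith
  rw [Real.exp_neg, ← div_eq_mul_inv]
  exact div_le_div_of_nonneg_left (by norm_num) (by positivity) a2

end ScaleP

open ScaleP in
theorem scale_row (h1 : RunFStmt) (h2 : Fin2Stmt) : ScaleStmt := by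
  intro δ hδ hδ1 m
  obtain ⟨C, hC, h2⟩ := h2 δ hδ hδ1 m
  obtain ⟨M, hM⟩ := pow_unbounded_of_one_lt (C + 1) (one_lt_two (α := ℝ))
  obtain ⟨A, hA⟩ : ∃ A : ℝ, A = 2 ^ (M + 1) := ⟨_, rfl⟩
  obtain ⟨B, hB⟩ : ∃ B : ℝ, B = 402 / δ := ⟨_, rfl⟩
  have A0 : 0 ≤ A := by rw [hA]; positivity
  have B0 : 0 ≤ B := by rw [hB]; positivity
  have p1 : 0 ≤ B ^ 3 * A := by positivity
  have p2 : 0 ≤ C * A := by positivity
  refine ⟨B ^ 3 * A + 4 * B + C * A + 4 * C + 2, 2 * M + 3, by positivity, ?_⟩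
  intro a k r K Λ g hg ha hK hK' hr hΛ hX hS
  obtain ⟨a', b1, b2, b3, b4⟩ := dbl _ Λ g hC hM.le ha hS
  have y1 : (1 : ℝ) ≤ k + 1 := by linarith [Nat.cast_nonneg (α := ℝ) k]
  have K1 : (1 : ℝ) ≤ K := by exact_mod_cast hK
  have x0 : ∀ n, n ≤ 2 * M + 3 → ((k : ℝ) + 1) ^ n * a ≤ ((k : ℝ) + 1) ^ (2 * M + 3) * a :=
    fun n hn => mul_le_mul_of_nonneg_right (pow_le_pow_right₀ y1 hn) (by linarith)
  have x0' : ∀ n, n ≤ 2 * M + 3 → ((k : ℝ) + 1) ^ n ≤ ((k : ℝ) + 1) ^ (2 * M + 3) * a :=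
    fun n hn => (le_mul_of_one_le_right (by positivity) ha).trans (x0 n hn)
  have x1 := x0 0 (by omega)
  have x2 := x0' 2 (by omega)
  have x3 := x0' 3 (by omega)
  have x4 := b2.trans (mul_le_mul_of_nonneg_left (x0 _ (by omega)) (by positivity))
  rw [← hA] at x4
  rw [pow_zero, one_mul] at x1
  generalize ((k : ℝ) + 1) ^ (2 * M + 3) * a = X at hX x1 x2 x3 x4
  have X1 : 1 ≤ X := ha.trans x1
  have X4 : X ≤ X ^ 4 := le_self_pow₀ X1 (by norm_num)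
  have g0 : ∀ c : ℝ, 0 ≤ c → c ≤ B ^ 3 * A + 4 * B + C * A + 4 * C + 2 →
      c * X ^ 4 ≤ K ∧ c * X ≤ K := fun c c0 c1 =>
    have := (mul_le_mul_of_nonneg_right c1 (by positivity)).trans hX
    ⟨this, (mul_le_mul_of_nonneg_left X4 c0).trans this⟩
  obtain ⟨L, l1, l2⟩ : ∃ L : ℕ, a + 400 * ((k : ℝ) + 1) ^ 3 ≤ δ * L ∧ L ≤ B * X := by
    refine ⟨⌈(a + 400 * ((k : ℝ) + 1) ^ 3) / δ⌉₊, (div_le_iff₀' hδ).1 (Nat.le_ceil _),
      (Nat.ceil_lt_add_one (by positivity)).le.trans ?_⟩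
    rw [hB, div_mul_eq_mul_div, div_add_one hδ.ne']
    exact div_le_div_of_nonneg_right (by linarith) hδ.le
  obtain ⟨e1, e2⟩ := h2 a' (2 / (K : ℝ) ^ 9) r K L Λ g hg b1 (by positivity) hK hr
    (((mul_le_mul_of_nonneg_left x4 hC).trans_eq (mul_assoc ..).symm).trans
      (g0 _ p2 (by linarith)).2)
    (by
      have := (g0 (4 * B) (by linarith) (by linarith)).2
      exact_mod_cast (by linarith : (4 * L : ℝ) ≤ K)) hΛ
    (le_trans (by
      rw [Real.exp_neg, ← one_div]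
      refine one_div_le_one_div_of_le (by positivity) ?_
      linarith [(g0 2 (by linarith) (by linarith)).2, Real.add_one_le_exp ((K : ℝ) / 2)]) b4) b3
    (fun b x l hl hx => (h1 δ a _ _ Λ g b x l hg (by positivity) (ann_iff.1 hx) hS).trans
      (ex_le hK hK' (by
        have a1 : δ * L ≤ δ * l := mul_le_mul_of_nonneg_left (by exact_mod_cast hl) hδ.le
        rw [le_div_iff₀ (by norm_num), one_div_mul_eq_div, le_div_iff₀ (by positivity)]
        linarith)))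
  have e3 : (K : ℝ) ^ 8 * (2 / (K : ℝ) ^ 9) = 2 / K := by field_simp
  rw [e3] at e1 e2
  constructor
  · refine le_trans (mul_le_mul_of_nonneg_right ?_ (av_mem _ _ _).1) (e1.trans ?_)
    · exact_mod_cast Nat.le_self_pow two_ne_zero _
    · rw [← mul_div_assoc]
      exact div_le_div_of_nonneg_right (by linarith) (by linarith)
  · have a1 : (L : ℝ) ^ 3 * (a' + 1) / K ≤ 1 := by
      rw [div_le_one (by linarith)]
      refine le_trans ?_ (g0 _ p1 (by linarith)).1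
      calc (L : ℝ) ^ 3 * (a' + 1) ≤ (B * X) ^ 3 * (A * X) :=
            mul_le_mul (pow_le_pow_left₀ (Nat.cast_nonneg _) l2 3) x4 (by linarith) (by positivity)
        _ = _ := by ring
    have a2 : (2 : ℝ) / K ≤ 2 := div_le_self (by norm_num) K1
    refine e2.trans ((mul_le_mul_of_nonneg_left (by linarith : _ ≤ (4 : ℝ)) hC).trans ?_)
    linarith

end Pool.Agent.MP_151d89_pr.H58
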