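import Pool.Agent.MP_151d89_pr.H58.Spec2
import Pool.Agent.MP_151d89_pr.H58.Shift

/-!
The patterns are dense on a given set with a probability that is not too small.
-/

set_option autoImplicit false
open MeasureTheory Finset Filter

namespace Pool.Agent.MP_151d89_pr.H58
open Pool.Agent.MP_151d89_pr.H82 Pool.Agent.MP_151d89_pr.H33 Pool.Agent.MP_151d89_pr.H67
  Pool.Agent.MP_151d89_pr.H30
open Classical

namespace Shift2P

/-- a translate of the set carries many patterns on average -/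
theorem pick {ρ : ℕ} {Λ A : Finset (ℤ × ℤ)} (g : Conf) (hA : ∀ y ∈ A, box y ρ ⊆ Λ)
    {P : ℤ × ℤ → Conf → Prop} {B B' : Conf → Prop} {q : ℝ}
    (hL : ∀ y ∈ A, ∀ f, Hom f → B f → (∀ f' ∈ FS (box y ρ) f, B' f') ∧
      q * (2 * ρ + 1) ^ 2 ≤ av (box y ρ) (fun f => (num (box y ρ) fun x => P x f : ℕ)) f) :
    ∃ z ∈ box 0 ρ, A.card * (q * av Λ (fun f => ind (B f)) g) ≤
      av Λ (fun f => ∑ y ∈ A, ind (B' f) * ind (P (y + z) f)) g := by
  have h1 : ∀ y ∈ A, q * (2 * ρ + 1) ^ 2 * av Λ (fun f => ind (B f)) g ≤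
      av Λ (fun f => ∑ z ∈ box 0 ρ, ind (B' f) * ind (P (y + z) f)) g := by
    intro y hy
    rw [← av_smul, ← av_tower (hA y hy) fun f => ∑ z ∈ box 0 ρ, ind (B' f) * ind (P (y + z) f)]
    refine av_le fun f hf => ?_
    by_cases hb : B f
    · obtain ⟨k1, k2⟩ := hL y hy f (mem_FS.1 hf).1 hb
      rw [ind_pos hb, mul_one]
      refine k2.trans (av_le fun f' hf' => le_of_eq ?_)
      simp only [ind_pos (k1 f' hf'), one_mul]
      rw [num_eq, ShiftP.sum_box y ρ fun x => ind (P x f')]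
    · rw [ind_neg hb, mul_zero]
      exact av_nonneg (fun _ => sum_nonneg fun _ _ => mul_nonneg (ind_mem _).1 (ind_mem _).1) f
  refine exists_le_of_sum_le ⟨0, by simp [mem_box]⟩ ?_
  have h2 := sum_le_sum h1
  simp only [av_sum] at h2 ⊢
  rw [sum_comm] at h2
  refine le_trans (le_of_eq ?_) h2
  simp only [sum_const, nsmul_eq_mul, card_box]
  push_cast
  ring

/-- transplanting a translated configuration -/
theorem move (h2 : Glue2Stmt) {δ a : ℝ} {P : ℤ × ℤ → ℝ} {m ρ w : ℕ} {x z : ℤ × ℤ} {v : Conf}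
    (d0 : 0 < δ) (hP : Lp δ P) (hv : Hom v) (hw : a + (2 * ρ + 1) + 2 ≤ δ * w) (hz : z ∈ box 0 ρ)
    (hb : Bd P a (box x (m + ρ + 2 * w + 1)) v) : ∃ γ ∈ FS (box x (m + ρ + 2 * w)) v,
      ∀ y ∈ box x m, γ y = v (y + z) + (|z.1| + |z.2|) % 2 := by
  have hh : Hom fun y => v (y + z) := fun x y h => hv _ _ (by simpa using h)
  refine h2 δ (a + (2 * ρ + 1)) P x _ m w v _ d0 hP hv (hom_shift hh _) ?_ hw (by omega)
    (fun y hy => (hb y hy).trans (le_add_of_nonneg_right (by positivity))) fun y hy => ?_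
  · have := (lip hv (x + z) x).2
    simp only [Prod.fst_add, Prod.snd_add, add_sub_cancel_left] at this
    omega
  · have h3 := abs_le.1 (hb y (by
      simp only [mem_box] at hy ⊢
      omega))
    have h4 := abs_le.1 (inc_abs hv (y + z) y)
    have h5 : (dist1 (y + z) y : ℝ) ≤ 2 * ρ := by
      have : dist1 (y + z) y ≤ 2 * ρ := by
        simp only [mem_box, Prod.fst_zero, Prod.snd_zero] at hz
        simp only [dist1, Prod.fst_add, Prod.snd_add, add_sub_cancel_left, Int.abs_eq_natAbs]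
        omega
      exact_mod_cast this
    obtain ⟨k, e, k0, k1⟩ : ∃ k : ℤ, (|z.1| + |z.2|) % 2 = k ∧ (0 : ℝ) ≤ k ∧ (k : ℝ) ≤ 1 :=
      ⟨_, rfl, by exact_mod_cast (by omega : 0 ≤ (|z.1| + |z.2|) % 2),
        by exact_mod_cast (by omega : (|z.1| + |z.2|) % 2 ≤ 1)⟩
    simp only [e]
    push_cast
    rw [abs_le]
    constructor <;> linarith [h3.1, h3.2, h4.1, h4.2]

/-- counting the fibres -/
theorem fibre {n m : ℕ} {x z : ℤ × ℤ} {k : ℤ} (hs : box (x + z) m ⊆ box x n) {G T : Finset Conf}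
    (hG : ∀ v ∈ G, Hom v)
    (h : ∀ v ∈ G, ∃ γ ∈ T, γ ∈ FS (box x n) v ∧ ∀ y ∈ box x m, γ y = v (y + z) + k) :
    G.card ≤ 2 ^ ((2 * n + 1) ^ 2 - (2 * m + 1) ^ 2) * T.card := by
  choose! γ h1 h3 h2 using h
  refine card_le_mul_card_image_of_maps_to h1 _ fun t _ => ?_
  rcases (G.filter fun v => γ v = t).eq_empty_or_nonempty with e | ⟨v₀, h0⟩
  · simp [e]
  rw [← card_box x n, ← card_box (x + z) m, ← card_sdiff_of_subset hs]
  refine le_trans (card_le_card fun v hv => ?_) (card_le _ v₀)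
  rw [mem_filter] at hv h0
  refine mem_FS.2 ⟨hG v hv.1, fun y hy => ?_⟩
  by_cases hy' : y ∈ box (x + z) m
  · have hz : y - z ∈ box x m := by
      simp only [mem_box, Prod.fst_sub, Prod.snd_sub, Prod.fst_add, Prod.snd_add] at hy' ⊢
      omega
    have b1 := h2 v hv.1 _ hz
    have b2 := h2 v₀ h0.1 _ hz
    rw [hv.2, sub_add_cancel] at b1
    rw [h0.2, sub_add_cancel] at b2
    omega
  · have : y ∉ box x n := fun e => hy (mem_sdiff.2 ⟨e, hy'⟩)
    rw [← (mem_FS.1 (h3 v hv.1)).2 y this, ← (mem_FS.1 (h3 v₀ h0.1)).2 y this, hv.2, h0.2]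

theorem fibre' {n m : ℕ} {Λ : Finset (ℤ × ℤ)} {g : Conf} {x z : ℤ × ℤ} {k : ℤ}
    (hs : box (x + z) m ⊆ box x n) (hΛ : box x n ⊆ Λ) {P Q : Conf → Prop}
    (h : ∀ v, Hom v → P v → ∃ γ ∈ FS (box x n) v, Q γ ∧ ∀ y ∈ box x m, γ y = v (y + z) + k) :
    av Λ (fun f => ind (P f)) g ≤
      2 ^ ((2 * n + 1) ^ 2 - (2 * m + 1) ^ 2) * av Λ (fun f => ind (Q f)) g := by
  rw [av_ind, av_ind, ← mul_div_assoc]
  refine div_le_div_of_nonneg_right ?_ (Nat.cast_nonneg _)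
  exact_mod_cast fibre hs (fun v hv => (mem_FS.1 (mem_filter.1 hv).1).1) fun v hv => by
    have k1 := mem_FS.1 (mem_filter.1 hv).1
    obtain ⟨γ, h1, h2, h3⟩ := h v k1.1 (mem_filter.1 hv).2
    have k2 := mem_FS.1 h1
    exact ⟨γ, mem_filter.2 ⟨mem_FS.2 ⟨k2.1, fun y hy =>
      (k2.2 y fun e => hy (hΛ e)).trans (k1.2 y hy)⟩, h2⟩, h1, h3⟩

theorem numer {m d n : ℕ} {D a q : ℝ} (hm : 1 ≤ m) (hN : m + d = n) (hd : (d : ℝ) ≤ D * (a + 1))
    (a0 : 0 ≤ a) (q0 : 0 < q) (L0 : 0 ≤ Real.log (2 / q)) :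
    Real.exp (-((12 * D + Real.log (2 / q)) * (a + 1) * n)) *
      2 ^ ((2 * n + 1) ^ 2 - (2 * m + 1) ^ 2) ≤ q / 2 := by
  generalize hE : (2 * n + 1) ^ 2 - (2 * m + 1) ^ 2 = E
  have n1 : (1 : ℝ) ≤ n := by exact_mod_cast (by omega : 1 ≤ n)
  have hE' : (E : ℝ) ≤ 12 * D * (a + 1) * n := by
    have h3 : E ≤ 12 * d * n := by
      rw [← hE, tsub_le_iff_right]
      subst hN
      nlinarith [Nat.zero_le d, Nat.zero_le (d * m), Nat.zero_le (d * d), Nat.mul_le_mul_left d hm]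
    have h4 : (E : ℝ) ≤ 12 * d * n := by exact_mod_cast h3
    nlinarith
  have h6 : (2 : ℝ) ^ E ≤ Real.exp E := by
    rw [← mul_one (E : ℝ), Real.exp_nat_mul]
    exact pow_le_pow_left₀ (by norm_num) (by linarith [Real.add_one_le_exp 1]) _
  refine (mul_le_mul_of_nonneg_left h6 (Real.exp_pos _).le).trans ?_
  rw [← Real.exp_add, ← Real.exp_log (show 0 < q / 2 by positivity), Real.exp_le_exp,
    ← inv_div 2 q, Real.log_inv]
  have : Real.log (2 / q) * 1 ≤ Real.log (2 / q) * ((a + 1) * n) :=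
    mul_le_mul_of_nonneg_left (by nlinarith) L0
  linarith

end Shift2P

open Shift2P in
theorem shift2_row (h0 : MacStmt) (h1 : Loc2Stmt) (h2 : Glue2Stmt) : Shift2Stmt := by
  intro δ d0 d1
  obtain ⟨p0, C0, hp0, hL⟩ := h1 δ d0
  obtain ⟨q, q0, q1, qp⟩ : ∃ q : ℝ, 0 < q ∧ q ≤ 1 ∧ q ≤ p0 :=
    ⟨min p0 1, lt_min hp0 one_pos, min_le_right _ _, min_le_left _ _⟩
  obtain ⟨R, hR⟩ : ∃ R : ℝ, R = 2 * |C0| + 1 := ⟨_, rfl⟩
  have R0 : 0 ≤ R := by rw [hR]; positivity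
  obtain ⟨W, hW⟩ : ∃ W : ℝ, W = (11 + 10 * R) / δ + 1 := ⟨_, rfl⟩
  have W0 : 0 ≤ W := by rw [hW]; positivity
  obtain ⟨D, hD⟩ : ∃ D : ℝ, D = R + 2 * W + 1 := ⟨_, rfl⟩
  have D0 : 0 ≤ D := by rw [hD]; positivity
  have L0 : 0 ≤ Real.log (2 / q) := Real.log_nonneg (by rw [le_div_iff₀ q0]; linarith)
  refine ⟨q / 4, 12 * D + Real.log (2 / q), by positivity, by positivity, ?_⟩
  intro a S Λ x n r g b s A hs hg a0 hn hA hΛ hS hB
  have P0 := av_mem Λ (fun f => Sg δ a S f) g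
  rcases A.eq_empty_or_nonempty with rfl | hA0
  · have : ∀ f : Conf, ind (q / 4 * ((∅ : Finset (ℤ × ℤ)).card : ℝ) ≤
        (num ∅ fun y => Opp b s y f : ℕ)) = 1 := fun f => by simp [ind]
    simp only [this, av_const _ _ hg]
    exact mul_le_one₀ P0.2 (Real.exp_pos _).le
      (Real.exp_le_one_iff.2 (neg_nonpos.2 (by positivity)))
  obtain ⟨ρ, r1, r2⟩ : ∃ ρ : ℕ, C0 * (2 * a + 1) ≤ ρ ∧ (ρ : ℝ) ≤ R * (a + 1) := by
    refine ⟨⌈|C0| * (2 * a + 1)⌉₊, le_trans ?_ (Nat.le_ceil _), ?_⟩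
    · exact mul_le_mul_of_nonneg_right (le_abs_self _) (by linarith)
    · have := Nat.ceil_lt_add_one (a := |C0| * (2 * a + 1)) (by positivity)
      rw [hR]
      linarith [abs_nonneg C0]
  obtain ⟨w, w1, w2⟩ : ∃ w : ℕ, 2 * (a + 4 * (ρ + 1)) + (2 * ρ + 1) + 2 ≤ δ * w ∧
      (w : ℝ) ≤ W * (a + 1) := by
    refine ⟨⌈(11 + 10 * R) / δ * (a + 1)⌉₊, ?_, ?_⟩
    · have := Nat.le_ceil ((11 + 10 * R) / δ * (a + 1))
      rw [div_mul_eq_mul_div, div_le_iff₀ d0, ← div_mul_eq_mul_div] at this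
      linarith
    · have := Nat.ceil_lt_add_one (a := (11 + 10 * R) / δ * (a + 1)) (by positivity)
      rw [hW]
      linarith
  have hd : (ρ : ℝ) + 2 * w + 1 ≤ D * (a + 1) := by rw [hD]; linarith
  have hC : 12 * (D * (a + 1)) ≤ (12 * D + Real.log (2 / q)) * (a + 1) := by
    linarith [mul_nonneg L0 (show 0 ≤ a + 1 by linarith)]
  have hD' : 0 ≤ D * (a + 1) := by positivity
  have hn' : r + 1 + ρ + 2 * w ≤ n := by
    have : ((r + 1 + ρ + 2 * w : ℕ) : ℝ) ≤ n := by push_cast; linarith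
    exact_mod_cast this
  have hB' := (av_mono' (Λ := Λ) (g := g) (p := fun f => Sg δ (a + 4 * (ρ + 1)) S f) fun _ _ e =>
    e.mono (le_trans (by
      rw [hD]
      linarith [mul_nonneg W0 (show 0 ≤ a + 1 by linarith),
        mul_nonneg R0 (show 0 ≤ a + 1 by linarith)]) hC)).trans hB
  obtain ⟨m, hN, hm⟩ : ∃ m, m + ρ + 2 * w = n ∧ r + 1 ≤ m := ⟨n - ρ - 2 * w, by omega, by omega⟩
  obtain ⟨z, hz, hav⟩ := pick (ρ := ρ) (Λ := Λ) (A := A) g (fun y hy u hu => hΛ (by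
      have := hA hy
      simp only [mem_box] at hu this ⊢
      omega)) (P := fun y f => Opp b s y f) (B := fun f => Sg δ a S f)
    (B' := fun f => Sg δ (a + 4 * (ρ + 1)) S f) (q := q) fun y hy f hf hb => by
      obtain ⟨P, p1, p2⟩ := h0 δ a S y (ρ + 1) f d1 hb fun u hu => hS u (by
        have := hA hy
        simp only [mem_box] at hu this ⊢
        omega)
      exact ⟨fun f' hf' => Sg.res hf hf' hb, le_trans
        (mul_le_mul_of_nonneg_right qp (by positivity))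
        (hL (2 * a) P y ρ f b s hs p1 hf (by linarith) r1 p2)⟩
  have A0 : (0 : ℝ) < A.card := Nat.cast_pos.2 hA0.card_pos
  have hG : q / 2 * av Λ (fun f => ind (Sg δ a S f)) g ≤
      av Λ (fun f => ind (Sg δ (a + 4 * (ρ + 1)) S f ∧
        q / 4 * A.card ≤ (num A fun y => Opp b s (y + z) f : ℕ))) g := by
    have h3 := hav.trans (av_le (ψ := fun f => q / 4 * A.card * ind (Sg δ (a + 4 * (ρ + 1)) S f) +
      A.card * ind (Sg δ (a + 4 * (ρ + 1)) S f ∧
        q / 4 * A.card ≤ (num A fun y => Opp b s (y + z) f : ℕ))) fun f _ => ?_)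
    · rw [av_add, av_smul, av_smul] at h3
      refine le_of_mul_le_mul_left ?_ A0
      linarith [mul_le_mul_of_nonneg_left hB' (show 0 ≤ q / 4 * A.card by positivity)]
    · have h4 : ((num A fun y => Opp b s (y + z) f : ℕ) : ℝ) ≤ A.card :=
        Nat.cast_le.2 (card_filter_le _ _)
      have h5 : 0 ≤ q / 4 * A.card := by positivity
      rw [← mul_sum, ← num_eq]
      by_cases hb : Sg δ (a + 4 * (ρ + 1)) S f
      · by_cases hc : q / 4 * A.card ≤ (num A fun y => Opp b s (y + z) f : ℕ)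
        · rw [ind_pos hb, ind_pos ⟨hb, hc⟩]
          linarith
        · rw [ind_pos hb, ind_neg fun e => hc e.2]
          linarith [not_le.1 hc]
      · rw [ind_neg hb, ind_neg fun e => hb e.1]
        linarith
  have hF := hG.trans (fibre' (m := m) (z := z) (k := (|z.1| + |z.2|) % 2) (fun u hu => by
      simp only [mem_box, Prod.fst_zero, Prod.snd_zero, Prod.fst_add, Prod.snd_add] at hu hz ⊢
      omega) hΛ (Q := fun f => q / 4 * A.card ≤ (num A fun y => Opp b s y f : ℕ))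
    fun v hv hp => by
      obtain ⟨P, p1, p2⟩ := h0 δ _ S x (n + 1) v d1 hp.1 hS
      subst hN
      obtain ⟨γ, g1, g2⟩ := move h2 d0 p1 hv w1 hz p2
      refine ⟨γ, g1, hp.2.trans (Nat.cast_le.2 (card_le_card fun y hy => ?_)), g2⟩
      rw [mem_filter] at hy ⊢
      refine ⟨hy.1, ShiftP.opp_shift (fun u hu => g2 u ?_) hy.2⟩
      have := hA hy.1
      simp only [mem_box] at hu this ⊢
      omega)
  have h7 := numer (m := m) (d := ρ + 2 * w) (n := n) (D := D) (by omega) (by omega)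
    (by push_cast; linarith) a0 q0 L0
  refine le_of_mul_le_mul_left (le_trans ?_ hF) (by positivity)
  linarith [mul_le_mul_of_nonneg_right h7 P0.1]

end Pool.Agent.MP_151d89_pr.H58
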