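import Pool.Agent.MP_151d89_pr.H58.Spec2

/-!
Polynomial factors are negligible along geometric scales.
-/

set_option autoImplicit false
open MeasureTheory Finset Filter

namespace Pool.Agent.MP_151d89_pr.H58
open Pool.Agent.MP_151d89_pr.H82 Pool.Agent.MP_151d89_pr.H33 Pool.Agent.MP_151d89_pr.H67
  Pool.Agent.MP_151d89_pr.H30
open Classical

theorem small_row : SmallStmt := by
  intro α C m M K h0 h1 hm hK hs
  have m0 : (0 : ℝ) < m := by exact_mod_cast hm
  obtain ⟨lam, hlam⟩ : ∃ lam : ℝ, lam = (m + 10) / m := ⟨_, rfl⟩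
  have l1 : 1 < lam := by rw [hlam, one_lt_div m0]; linarith
  have l0 : 0 < lam := by linarith
  have hk : ∀ k, lam ^ k ≤ K k := fun k => by
    induction k with
    | zero => rw [pow_zero]; exact_mod_cast hK
    | succ k ih =>
      have : ((m : ℝ) + 10) * K k ≤ m * K (k + 1) := by exact_mod_cast hs k
      rw [pow_succ']
      refine (mul_le_mul_of_nonneg_left ih l0.le).trans ?_
      rw [hlam, div_mul_eq_mul_div, div_le_iff₀ m0]
      linarith
  obtain ⟨θ, hθ⟩ : ∃ θ : ℝ, θ = lam ^ (4 * α - 1) := ⟨_, rfl⟩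
  have t0 : 0 < θ := by rw [hθ]; positivity
  have t1 : θ < 1 := hθ ▸ Real.rpow_lt_one_of_one_lt_of_neg l1 (by linarith)
  have h2 := ((tendsto_pow_const_mul_const_pow_of_abs_lt_one (M * 4)
    (by rwa [abs_of_pos t0])).comp (tendsto_add_atTop_nat 1)).const_mul
      (|C| * ((m : ℝ) ^ α) ^ 4 / θ)
  rw [mul_zero] at h2
  filter_upwards [h2.eventually (gt_mem_nhds one_pos)] with k h
  have k0 : (0 : ℝ) < K k := (pow_pos l0 k).trans_le (hk k)
  have h3 : ((K k : ℝ) ^ α) ^ 4 ≤ θ ^ k * K k := by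
    rw [← Real.rpow_mul_natCast k0.le, show α * (4 : ℕ) = 4 * α - 1 + 1 by push_cast; ring,
      Real.rpow_add_one k0.ne', hθ, ← Real.rpow_mul_natCast l0.le, mul_comm _ (k : ℝ),
      Real.rpow_natCast_mul l0.le]
    exact mul_le_mul_of_nonneg_right
      (Real.rpow_le_rpow_of_nonpos (pow_pos l0 k) (hk k) (by linarith)) k0.le
  calc C * (((k : ℝ) + 1) ^ M * ((m * K k : ℕ) : ℝ) ^ α) ^ 4
      ≤ |C| * (((k : ℝ) + 1) ^ (M * 4) * (((m : ℝ) ^ α) ^ 4 * (θ ^ k * K k))) := by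
        rw [Nat.cast_mul, Real.mul_rpow m0.le k0.le, mul_pow, mul_pow, ← pow_mul]
        refine mul_le_mul (le_abs_self _) ?_ (by positivity) (abs_nonneg _)
        gcongr
    _ = |C| * ((m : ℝ) ^ α) ^ 4 / θ * (((k + 1 : ℕ) : ℝ) ^ (M * 4) * θ ^ (k + 1)) * K k := by
        push_cast
        field_simp
        ring
    _ ≤ 1 * K k := mul_le_mul_of_nonneg_right h.le k0.le
    _ = _ := one_mul _

end Pool.Agent.MP_151d89_pr.H58
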