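import Pool.Agent.MP_151d89_pr.H58.Spec2

/-!
Row Tow: the expected number of towers in an annulus.
-/

set_option autoImplicit false
open MeasureTheory Finset Filter

namespace Pool.Agent.MP_151d89_pr.H58
open Pool.Agent.MP_151d89_pr.H82 Pool.Agent.MP_151d89_pr.H33 Pool.Agent.MP_151d89_pr.H67
  Pool.Agent.MP_151d89_pr.H30
open Classical

namespace TowP

/-- double counting -/
theorem dbl (R Z : Finset (ℤ × ℤ)) (h : ℕ) (F : ℤ × ℤ → ℝ) (hF : ∀ x, 0 ≤ F x)
    (hZ : ∀ x ∈ R, box x h ⊆ Z) :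
    (2 * (h : ℝ) + 1) ^ 2 * ∑ x ∈ R, F x ≤ ∑ z ∈ Z, ∑ x ∈ box z h, F x := by
  calc (2 * (h : ℝ) + 1) ^ 2 * ∑ x ∈ R, F x
      = ∑ x ∈ R, ∑ z ∈ Z, if x ∈ box z h then F x else 0 := by
        rw [mul_sum]
        refine sum_congr rfl fun x hx => ?_
        have e : Z.filter (fun z => x ∈ box z h) = box x h := by
          ext z
          rw [mem_filter]
          constructor
          · rintro ⟨-, h1⟩
            rw [mem_box] at h1 ⊢
            omega
          · intro h1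
            refine ⟨hZ x hx h1, ?_⟩
            rw [mem_box] at h1 ⊢
            omega
        rw [← sum_filter, e, sum_const, card_box, nsmul_eq_mul]
        push_cast
        ring
    _ = ∑ z ∈ Z, ∑ x ∈ R, if x ∈ box z h then F x else 0 := sum_comm
    _ ≤ _ := by
        refine sum_le_sum fun z _ => ?_
        rw [← sum_filter]
        exact sum_le_sum_of_subset_of_nonneg (fun x hx => (mem_filter.1 hx).2) fun x _ _ => hF x

end TowP

theorem tow_row (h1 : Prob2Stmt) (h2 : MomStmt) : TowStmt := by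
  intro δ hδ hδ1 m
  obtain ⟨C, θ, hC, θ0, θ1, hP⟩ := h1 δ hδ hδ1
  set lam : ℝ := 2 / (1 + θ) with hlam
  have l1 : 1 < lam := (one_lt_div (by positivity)).2 (by linarith)
  have r1 : lam * θ < 1 := by
    rw [hlam, div_mul_eq_mul_div, div_lt_one (by positivity)]
    linarith
  have L0 : 0 < Real.log lam := Real.log_pos l1
  set L := Real.log lam with hL
  set A : ℝ := 64 * (2 * m + 21) ^ 2 * C * lam / L with hA
  have a0 : 0 ≤ A := by positivity
  refine ⟨2 * C + 8 + A, lam * θ, by positivity, by positivity, r1, ?_⟩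
  intro a r K l Λ g b s hs hg ha hr hCK hl hΛ he hD
  have c1 : 2 * (C * (a + 1)) + 8 ≤ K := by nlinarith [mul_nonneg a0 ha]
  have c0 : 0 ≤ C * (a + 1) := by positivity
  have K8 : 8 ≤ K := by exact_mod_cast (by linarith : (8 : ℝ) ≤ K)
  obtain ⟨h, hh⟩ : ∃ h : ℕ, h = K / 8 := ⟨_, rfl⟩
  obtain ⟨n, hn⟩ : ∃ n : ℕ, n + h + 1 = K := ⟨K - h - 1, by omega⟩
  have e1 : (n : ℝ) + h + 1 = K := by exact_mod_cast hn
  have e2 : 8 * (h : ℝ) ≤ K := by exact_mod_cast (by omega : 8 * h ≤ K)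
  have e3 : 4 * (l : ℝ) ≤ K := by exact_mod_cast hl
  have e4 : (K : ℝ) ≤ 8 * (2 * h + 1) := by exact_mod_cast (by omega : K ≤ 8 * (2 * h + 1))
  have h0 : (0 : ℝ) ≤ h := Nat.cast_nonneg h
  set Z := (box 0 (r + 10 * K)).filter
    (fun z => (r : ℤ) + K - h ≤ nrm z ∧ nrm z ≤ r + 9 * K + h) with hZ
  set F : ℤ × ℤ → ℝ := fun x => av Λ (fun f => ind (Av s (b, x, l) f)) g with hF
  have F0 : ∀ x, 0 ≤ F x := fun x => (av_mem _ _ _).1
  have one : ∀ z ∈ Z, ((l : ℝ) + 1) * L * ∑ x ∈ box z h, F x ≤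
      C * (a + 1) * K + (2 * (h : ℝ) + 1) ^ 2 * (C * lam * (lam * θ) ^ l) := by
    intro z hz
    obtain ⟨z1, z2⟩ := (mem_filter.1 hz).2
    have h4 := h2 Λ (box z h) g (fun x f => Av s (b, x, l) f) (C * (a + 1) * n)
      (C * θ ^ l) (lam ^ (l + 1) - 1) hg (by positivity)
      (sub_nonneg.2 (one_le_pow₀ l1.le)) fun X hX =>
        hP a (ann r K) Λ z n (h + l) g b s l X hs hg ha (by push_cast; linarith)
          (fun x hx y hy => by
            obtain ⟨t, ht, rfl⟩ := mem_tow.1 hy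
            have b1 := hX hx
            have b2 := pt_box0 b x ht
            simp only at b2 ⊢
            rw [mem_box] at b1 b2 ⊢
            omega)
          (fun y hy => hΛ (by
            have := nrm_near hy
            rw [mem_box0]
            omega))
          (fun y hy => by
            have := nrm_near hy
            constructor <;> omega)
          ((Real.exp_le_exp.2 (by linarith)).trans he) (hD.mono ha (by linarith))
    rw [add_sub_cancel, Real.log_pow, av_sum, ← hL, card_box] at h4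
    push_cast at h4
    have h5 : (lam ^ (l + 1) - 1) * (C * θ ^ l) ≤ C * lam * (lam * θ) ^ l := by
      have : 0 ≤ C * θ ^ l := by positivity
      calc _ ≤ lam ^ (l + 1) * (C * θ ^ l) := by gcongr; linarith
        _ = _ := by ring
    have h6 := mul_le_mul_of_nonneg_left h5 (sq_nonneg (2 * (h : ℝ) + 1))
    have h7 : C * (a + 1) * n ≤ C * (a + 1) * K := by gcongr; omega
    linarith
  have h3 := TowP.dbl (rng r K) Z h F F0 fun x hx z hz => by
    have := nrm_near hz
    rw [mem_rng] at hx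
    rw [hZ, mem_filter, mem_box0]
    omega
  have hc : (Z.card : ℝ) ≤ (2 * m + 21) ^ 2 * K ^ 2 := by
    have h4 : Z.card ≤ _ := card_filter_le _ _
    rw [card_box] at h4
    have h5 : (2 * (r + 10 * K) + 1) ^ 2 ≤ ((2 * m + 21) * K) ^ 2 :=
      Nat.pow_le_pow_left (by nlinarith) 2
    rw [← mul_pow]
    exact_mod_cast h4.trans h5
  have h4 := sum_le_sum one
  rw [← mul_sum, sum_const, nsmul_eq_mul] at h4
  change ((l : ℝ) + 1) * ∑ x ∈ rng r K, F x ≤ _
  generalize ∑ x ∈ rng r K, F x = T at h3 ⊢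
  generalize ∑ z ∈ Z, ∑ x ∈ box z h, F x = T' at h3 h4
  have p0 : 0 < (2 * (h : ℝ) + 1) ^ 2 := by positivity
  have p1 : (K : ℝ) ^ 2 ≤ 64 * (2 * (h : ℝ) + 1) ^ 2 := by
    have := pow_le_pow_left₀ (Nat.cast_nonneg K) e4 2
    linarith
  generalize (2 * (h : ℝ) + 1) ^ 2 = H at p0 p1 h3 h4
  have w0 : 0 ≤ (lam * θ) ^ l := by positivity
  generalize (lam * θ) ^ l = w at w0 h4 ⊢
  have K0 : (0 : ℝ) ≤ K := Nat.cast_nonneg K
  have h5 : H * (((l : ℝ) + 1) * L * T) ≤
      H * (64 * (2 * m + 21) ^ 2 * C * lam * ((a + 1) * K + K ^ 2 * w)) := by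
    calc H * (((l : ℝ) + 1) * L * T) = ((l : ℝ) + 1) * L * (H * T) := by ring
      _ ≤ ((l : ℝ) + 1) * L * T' := by gcongr
      _ ≤ _ := h4
      _ ≤ (2 * m + 21) ^ 2 * K ^ 2 * (C * (a + 1) * K + H * (C * lam * w)) := by gcongr
      _ = (2 * m + 21) ^ 2 * (K ^ 2 * (1 * (C * (a + 1) * K))) +
          1 * (H * ((2 * m + 21) ^ 2 * C * lam * (K ^ 2 * w))) := by ring
      _ ≤ (2 * m + 21) ^ 2 * (64 * H * (lam * (C * (a + 1) * K))) +
          64 * (H * ((2 * m + 21) ^ 2 * C * lam * (K ^ 2 * w))) := by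
        gcongr
        norm_num
      _ = _ := by ring
  have h6 := le_of_mul_le_mul_left h5 p0
  have h7 : ((l : ℝ) + 1) * T ≤ A * ((a + 1) * K + K ^ 2 * w) := by
    rw [hA, div_mul_eq_mul_div, le_div_iff₀ L0]
    linarith
  refine h7.trans ?_
  gcongr
  linarith

end Pool.Agent.MP_151d89_pr.H58
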