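import Pool.Agent.MP_151d89_pr.H30.Null
import Pool.Agent.MP_151d89_pr.H58.PL
import Pool.Agent.MP_151d89_pr.H58.Flip
import Pool.Agent.MP_151d89_pr.H58.TC
import Pool.Agent.MP_151d89_pr.H58.Pred
import Pool.Agent.MP_151d89_pr.H58.Cnt
import Pool.Agent.MP_151d89_pr.H58.Surg
import Pool.Agent.MP_151d89_pr.H58.Mom
import Pool.Agent.MP_151d89_pr.H58.Near
import Pool.Agent.MP_151d89_pr.H58.Cov
import Pool.Agent.MP_151d89_pr.H58.Mac
import Pool.Agent.MP_151d89_pr.H58.Glue2
import Pool.Agent.MP_151d89_pr.H58.Low2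
import Pool.Agent.MP_151d89_pr.H58.Loc2
import Pool.Agent.MP_151d89_pr.H58.Shift2
import Pool.Agent.MP_151d89_pr.H58.Prob2
import Pool.Agent.MP_151d89_pr.H58.RunF
import Pool.Agent.MP_151d89_pr.H58.Tow
import Pool.Agent.MP_151d89_pr.H58.Energy2
import Pool.Agent.MP_151d89_pr.H58.Fin2
import Pool.Agent.MP_151d89_pr.H58.Scale
import Pool.Agent.MP_151d89_pr.H58.Small
import Pool.Agent.MP_151d89_pr.H58.Last
import Pool.Agent.MP_151d89_pr.H58.Res

/-!
Almost frozen segments in annuli: assembly.
-/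

set_option autoImplicit false

namespace Pool.Agent.MP_151d89_pr.H58
open Pool.Agent.MP_151d89_pr.H30

theorem segments : ResStmt :=
  res_row (last_row mac_row (cov_row null_row) (scale_row runF_row (fin2_row (tow_row
    (prob2_row (tc_row pl_row flip_row) (shift2_row mac_row
      (loc2_row pred_row cnt_row (low2_row glue2_row flip_row) surg_row) glue2_row)) mom_row)
    (energy2_row null_row near_row))) small_row)

end Pool.Agent.MP_151d89_pr.H58
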