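import Pool.Agent.MP_151d89_pr.H58.Spec3

/-!
The analytic part: the energy inequality excludes a corridor of negative second differences.
-/

set_option autoImplicit false
open MeasureTheory Finset Filter

namespace Pool.Agent.MP_151d89_pr.H58
open Pool.Agent.MP_151d89_pr.H82 Pool.Agent.MP_151d89_pr.H33 Pool.Agent.MP_151d89_pr.H67
  Pool.Agent.MP_151d89_pr.H30
open Classical

namespace AnaP

theorem nm_comb (u v r : ℝ × ℝ) (h1 : r.1 = 2 * u.1 - v.1) (h2 : r.2 = 2 * u.2 - v.2) :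
    nm r ≤ 2 * nm u + nm v := by
  have a1 : |u.1| ≤ nm u := le_max_left _ _
  have a2 : |u.2| ≤ nm u := le_max_right _ _
  have b1 : |v.1| ≤ nm v := le_max_left _ _
  have b2 : |v.2| ≤ nm v := le_max_right _ _
  rw [abs_le] at a1 a2 b1 b2
  refine max_le ?_ ?_
  · rw [h1, abs_le]
    constructor <;> linarith [a1.1, a1.2, b1.1, b1.2]
  · rw [h2, abs_le]
    constructor <;> linarith [a2.1, a2.2, b2.1, b2.2]

theorem ds_comb (s t : ℕ) (M : ℤ × ℤ → ℝ) (w x : ℤ × ℤ) :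
    ds (ml s M) w x ≤ 2 * ds (pr s t M) w x + ds (pr t t M) w x := by
  unfold ds
  refine nm_comb _ _ _ ?_ ?_ <;> simp only [sl, dd, pr, Prod.fst_sub, Prod.snd_sub] <;> ring

theorem pow_comb {a b d : ℝ} (ha : 0 ≤ a) (hb : 0 ≤ b) (hd : 0 ≤ d) (h : d ≤ 2 * a + b) :
    d ^ 10 ≤ 3 ^ 10 * (a ^ 10 + b ^ 10) := by
  have h1 : d ≤ 3 * max a b := by linarith [le_max_left a b, le_max_right a b]
  have h2 : max a b ^ 10 ≤ a ^ 10 + b ^ 10 := by
    have := pow_nonneg ha 10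
    have := pow_nonneg hb 10
    rcases le_total a b with e | e
    · rw [max_eq_right e]; linarith
    · rw [max_eq_left e]; linarith
  calc d ^ 10 ≤ (3 * max a b) ^ 10 := pow_le_pow_left₀ hd h1 10
    _ = 3 ^ 10 * max a b ^ 10 := mul_pow _ _ _
    _ ≤ _ := by gcongr

theorem ep_bound {c C B κ S T t m : ℝ} (hc : 0 < c) (hC : 0 ≤ C) (hm : 0 < m) (ht : 0 ≤ t)
    (h1 : t ≤ κ * m) (h2 : T ≤ B * κ * t * m ^ 2) (h : c * S ≤ C * (t * t + T / m)) :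
    S ≤ C * (1 + B) / c * κ * t * m := by
  have h3 : T / m ≤ B * κ * t * m := by
    rw [div_le_iff₀ hm]
    linarith
  have h4 : t * t ≤ t * (κ * m) := mul_le_mul_of_nonneg_left h1 ht
  have h5 : C * (t * t + T / m) ≤ C * (t * (κ * m) + B * κ * t * m) :=
    mul_le_mul_of_nonneg_left (by linarith) hC
  have h6 : C * (1 + B) / c * κ * t * m = C * (t * (κ * m) + B * κ * t * m) / c := by ring
  rw [h6, le_div_iff₀ hc]
  linarith

end AnaP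

theorem ana_row (h1 : SoneStmt) (h2 : SthreeStmt) (h3 : SfourStmt) : AnaStmt := by
  intro c C hc hC
  obtain ⟨B1, hB1, H1⟩ := h1 c C hc hC
  obtain ⟨B2, hB2, H2⟩ := h2 B1 hB1
  obtain ⟨B3, hB3, H3⟩ := h3 (2 * 3 ^ 10 * (C * (1 + B2) / c)) (by positivity)
  refine ⟨B3, hB3, ?_⟩
  intro M i₀ i m ζ η b hM hi hii hζ hζ1 hm hi0 h1k h8 e1 e2 e3 e4 hcor
  have hκ : 0 < ζ ^ 11 := by positivity
  have hκ1 : ζ ^ 11 ≤ 1 := pow_le_one₀ hζ.le hζ1
  have hκζ : ζ ^ 11 ≤ ζ := pow_le_of_le_one hζ.le hζ1 (by norm_num)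
  have hm0 : (0 : ℝ) < m := by
    have : 0 < m := lt_of_lt_of_le (by positivity) h8
    exact_mod_cast this
  have hS := H1 M i₀ i m (ζ ^ 11) hM hii hκ hκ1 (by rw [← pow_mul]; exact hm) e1 e2
  have ht : (2 : ℝ) ^ i ≤ ζ ^ 11 * m :=
    hm.trans (mul_le_mul_of_nonneg_right (pow_le_pow_of_le_one hζ.le hζ1 (by norm_num)) hm0.le)
  have h4 : (4 : ℝ) ^ i = 2 ^ i * 2 ^ i := by
    rw [← mul_pow]
    norm_num
  have key : ∀ j, j ≤ i → EP c C M j i m → ∀ w, nrm w ≤ 2 * 2 ^ i →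
      ∑ x ∈ box 0 m, ds (pr (2 ^ j) (2 ^ i) M) w x ^ 10 ≤
        C * (1 + B2) / c * ζ ^ 11 * 2 ^ i * m := by
    intro j hj e w hw
    have a1 := H2 M i₀ j i m (ζ ^ 11) w hM hj hi0 h1k h8 hS hw
    have a2 := e w hw
    rw [h4] at a2
    exact AnaP.ep_bound hc hC hm0 (by positivity) ht a1 a2
  refine H3 M i₀ i m ζ η b hM hi hζ (hi0.trans (mul_le_mul_of_nonneg_right hκζ (by positivity)))
    h8 ?_ hcor
  intro w hw
  have hw2 : nrm w ≤ 2 * 2 ^ i := by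
    have : (0 : ℤ) < 2 ^ i := by positivity
    omega
  have k1 := key i₀ hii e3 w hw2
  have k2 := key i le_rfl e4 w hw2
  calc ∑ x ∈ box 0 m, ds (ml (2 ^ i₀) M) w x ^ 10
      ≤ ∑ x ∈ box 0 m, 3 ^ 10 * (ds (pr (2 ^ i₀) (2 ^ i) M) w x ^ 10 +
          ds (pr (2 ^ i) (2 ^ i) M) w x ^ 10) :=
        sum_le_sum fun x _ => AnaP.pow_comb (nm_nonneg _) (nm_nonneg _) (nm_nonneg _)
          (AnaP.ds_comb _ _ M w x)
    _ = 3 ^ 10 * (∑ x ∈ box 0 m, ds (pr (2 ^ i₀) (2 ^ i) M) w x ^ 10 +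
          ∑ x ∈ box 0 m, ds (pr (2 ^ i) (2 ^ i) M) w x ^ 10) := by
        rw [← mul_sum, sum_add_distrib]
    _ ≤ 3 ^ 10 * (C * (1 + B2) / c * ζ ^ 11 * 2 ^ i * m + C * (1 + B2) / c * ζ ^ 11 * 2 ^ i * m) := by
        gcongr
    _ = _ := by ring

end Pool.Agent.MP_151d89_pr.H58
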