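import Pool.Agent.MP_151d89_pr.H58.Spec3

/-!
Anti-concentration of the average height.
-/

set_option autoImplicit false
open MeasureTheory Finset Filter

namespace Pool.Agent.MP_151d89_pr.H58
open Pool.Agent.MP_151d89_pr.H82 Pool.Agent.MP_151d89_pr.H33 Pool.Agent.MP_151d89_pr.H67
  Pool.Agent.MP_151d89_pr.H30
open Classical

namespace AntiP

theorem FF_tr (x : ℤ × ℤ) (K : ℕ) (f : Conf) :
    FF 0 K (tr (Equiv.addRight x) 1 0 f) = FF x K f := by
  unfold FF
  congr 1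
  exact sum_equiv (Equiv.addRight x) (fun y => box_add0 x y K) fun y _ => by simp [tr]

theorem Sg_tr {δ a : ℝ} {x : ℤ × ℤ} {n : ℕ} {f : Conf} (h : Sg δ a (box x n : Finset (ℤ × ℤ)) f) :
    Sg δ a (box 0 n : Finset (ℤ × ℤ)) (tr (Equiv.addRight x) 1 0 f) := fun b y l hl => by
  have e : ∀ t : ℤ, pt b (y + x) t = pt b y t + x := fun t => add_right_comm _ _ _
  have := h b (y + x) l fun t ht => by
    rw [e]
    exact (box_add0 x _ n).1 (hl t ht)
  rw [e] at this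
  simpa [tr] using this

end AntiP

open AntiP in
theorem anti_row (h1 : ScaleStmt) (h2 : Cov3Stmt) (h3 : Var3Stmt) : AntiStmt := by
  intro δ d0 d1
  obtain ⟨CS, M, s0, hS⟩ := h1 δ d0 d1 1
  obtain ⟨p, C3, p0, hC⟩ := h2 δ d0 d1
  obtain ⟨v, hv⟩ : ∃ v : ℝ, v = p ^ 2 / (CS + 1) := ⟨_, rfl⟩
  have v0 : 0 < v := by rw [hv]; positivity
  have hv' : (CS + 1) * v = p ^ 2 := by rw [hv]; field_simp
  obtain ⟨c, c0, c1, c2⟩ : ∃ c : ℝ, 0 < c ∧ c ≤ 1 / 16 ∧ c ≤ v / 4800 :=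
    ⟨min (1 / 16) (v / 4800), by positivity, min_le_left _ _, min_le_right _ _⟩
  obtain ⟨e, e0, e1, e2⟩ : ∃ e : ℝ, 0 < e ∧ e ≤ 1 ∧ e ≤ v / 4 :=
    ⟨min 1 (v / 4), by positivity, min_le_left _ _, min_le_right _ _⟩
  refine ⟨c, e, CS + 2 * |C3| + 2, M, c0, by linarith, e0, by positivity,
    fun a s K k x g hg a1 K1 hk hK => ?_⟩
  have X1 : a ≤ ((k : ℝ) + 1) ^ M * a :=
    le_mul_of_one_le_left (by linarith) (one_le_pow₀ (le_add_of_nonneg_left (Nat.cast_nonneg k)))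
  have T1 := X1.trans (le_self_pow₀ (a1.trans X1) (by norm_num : 4 ≠ 0))
  generalize hT : (((k : ℝ) + 1) ^ M * a) ^ 4 = T at hK T1
  have n3 := abs_nonneg C3
  have q1 : 0 ≤ CS * T := mul_nonneg s0 (by linarith)
  have q2 : C3 * (a + 1) ≤ 2 * |C3| * T := by nlinarith [le_abs_self C3]
  have q3 : 0 ≤ |C3| * T := mul_nonneg n3 (by linarith)
  have k1 : (1 : ℝ) ≤ k := by
    rcases Nat.eq_zero_or_pos k with rfl | h
    · have : (K : ℝ) ≤ 1 := by exact_mod_cast hk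
      nlinarith
    · exact_mod_cast h
  have z : ∀ g, Hom g → av (box 0 (11 * K)) (fun f => ind (|FF 0 K f - s| ≤ e ∧
      Sg δ a (box 0 (11 * K) : Finset (ℤ × ℤ)) f)) g ≤ 1 - c := by
    intro g hg
    by_contra hn
    have hn := (not_le.1 hn).le
    have b1 : 1 / 2 ≤ av (box 0 (11 * K))
        (fun f => ind (Sg δ a (box 0 (11 * K) : Finset (ℤ × ℤ)) f)) g :=
      le_trans (by linarith) (hn.trans (av_mono' fun f _ h => h.2))
    have b2 := (hS a k K K (box 0 (11 * K)) g hg a1 K1 hk (by omega)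
      (by rw [show K + 10 * K = 11 * K by ring]) (by rw [hT]; nlinarith)
      (le_trans (one_div_le_one_div_of_le (by norm_num) (by nlinarith)) (b1.trans
        (av_mono' fun f _ h => h.sub fun y hy => mem_box0.2 (by
          have := hy.2
          push_cast
          linarith))))).2
    have b3 := hC a s K g hg (by linarith) K1 (by nlinarith) b1
    have b4 := h3 _ g _ s e c hg (mid_FF 0 K) e0.le e1 c1 (hn.trans (av_mono' fun f _ h => h.1))
    have b5 := av_le (Λ := box 0 (11 * K)) (g := g)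
      (φ := fun f => 2 * (CS + 1) * p * ((FF 0 K f - s) * SS K K f))
      (ψ := fun f => (CS + 1) ^ 2 * (FF 0 K f - s) ^ 2 + p ^ 2 * SS K K f ^ 2)
      fun f _ => by nlinarith [sq_nonneg ((CS + 1) * (FF 0 K f - s) - p * SS K K f)]
    rw [av_add, av_smul, av_smul, av_smul] at b5
    have b6 := mul_le_mul_of_nonneg_left b3 (by positivity : 0 ≤ 2 * (CS + 1) * p)
    have b7 := mul_le_mul_of_nonneg_left b2 (sq_nonneg p)
    have b8 := mul_le_mul_of_nonneg_left (b4.trans (by nlinarith : e ^ 2 + 1200 * c ≤ v / 2))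
      (sq_nonneg (CS + 1))
    have b9 : 0 < (CS + 1) * p ^ 2 := by positivity
    have b10 : (CS + 1) ^ 2 * (v / 2) = (CS + 1) * p ^ 2 / 2 := by rw [← hv']; ring
    nlinarith [sq_nonneg p]
  refine le_trans ?_ (z _ (hom_tr (iso_add x) (.inl rfl) 0 hg))
  rw [av_tr (iso_add x) (.inl rfl) 0 fun y => box_add0 x y _]
  exact av_mono' fun f _ h => ⟨by rw [FF_tr]; exact h.1, Sg_tr h.2⟩

end Pool.Agent.MP_151d89_pr.H58
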