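import Pool.Agent.MP_151d89_pr.H58.Spec3

/-!
The entropy gain of the folding.
-/

set_option autoImplicit false
open MeasureTheory Finset Filter

namespace Pool.Agent.MP_151d89_pr.H58
open Pool.Agent.MP_151d89_pr.H82 Pool.Agent.MP_151d89_pr.H33 Pool.Agent.MP_151d89_pr.H67
  Pool.Agent.MP_151d89_pr.H30
open Classical

namespace BCoreP

theorem cheb {t e : ℝ} (he : 0 < e) : ind (e < |t|) ≤ t ^ 2 / e ^ 2 := by
  by_cases h : e < |t|
  · rw [ind_pos h, le_div_iff₀ (by positivity), one_mul, ← sq_abs t]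
    exact pow_le_pow_left₀ he.le h.le 2
  · rw [ind_neg h]
    positivity

theorem exp_tan (s t : ℝ) : Real.exp (-s) * (1 + s - t) ≤ Real.exp (-t) := by
  have h := Real.add_one_le_exp (s - t)
  calc _ ≤ Real.exp (-s) * Real.exp (s - t) :=
        mul_le_mul_of_nonneg_left (by linarith) (Real.exp_pos _).le
    _ = _ := by rw [← Real.exp_add]; congr 1; ring

/-- the choice of the signs -/
theorem avg {σ κ : Type} (P : Finset κ) (hP : P.Nonempty) (S : Finset σ) (I : Finset (ℤ × ℤ))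
    (D : κ → σ → ℤ × ℤ → ℝ) {e c : ℝ} (he : 0 < e)
    (h : ∀ p ∈ S, ∀ x ∈ I, ∑ U ∈ P, D U p x ^ 2 ≤ P.card * (e ^ 2 * c)) :
    ∃ U ∈ P, S.card * Real.exp (-(c * I.card)) ≤
      ∑ p ∈ S, Real.exp (-(num I fun x => e < |D U p x| : ℕ)) := by
  refine exists_le_of_sum_le hP ?_
  rw [sum_comm, sum_const, nsmul_eq_mul, mul_left_comm, ← nsmul_eq_mul, ← sum_const]
  refine sum_le_sum fun p hp => ?_
  have h1 : ∑ U ∈ P, ((num I fun x => e < |D U p x| : ℕ) : ℝ) ≤ P.card * (c * I.card) := by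
    simp only [num_eq]
    rw [sum_comm]
    refine (sum_le_card_nsmul _ _ (P.card * c) fun x hx => ?_).trans (by
      rw [nsmul_eq_mul]; exact le_of_eq (by ring))
    refine (sum_le_sum fun U _ => cheb he).trans ?_
    rw [← sum_div, div_le_iff₀ (by positivity)]
    linarith [h p hp x hx]
  refine le_trans ?_ (sum_le_sum fun U _ => exp_tan (c * I.card) _)
  rw [← mul_sum, sum_sub_distrib, sum_const, nsmul_eq_mul, mul_comm]
  exact mul_le_mul_of_nonneg_left (by linarith) (Real.exp_pos _).le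

theorem good {Λ : Finset (ℤ × ℤ)} {g : Conf} (hg : Hom g) {p q : Conf → Prop}
    (h : ∀ f, q f → p f) (hq : av Λ (fun f => ind (¬ q f)) g ≤ 1 / 4) :
    3 / 4 * Real.exp (lz Λ g) ≤ ((FS Λ g).filter p).card := by
  have h1 := (av_mono' (p := fun f => ¬ p f) fun f _ a b => a (h f b)).trans hq
  rw [av_ind, div_le_iff₀ (card_pos Λ hg)] at h1
  have h2 : (((FS Λ g).filter p).card : ℝ) + ((FS Λ g).filter fun f => ¬ p f).card
      = (FS Λ g).card := by exact_mod_cast card_filter_add_card_filter_not p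
  rw [exp_lz Λ hg]
  have h3 : (((FS Λ g).filter fun f => ¬ p f).card : ℝ) ≤ 1 / 4 * (FS Λ g).card := by
    refine le_of_eq_of_le ?_ h1
    congr!
  linarith

theorem str_mono {u : ℝ × ℝ} {C : ℝ} {n : ℕ} {f : Conf} (h : Str u (2 * 2) (C * lg n) 0 n f) :
    Str u 0 ((C + 4) * lg n) 0 n f := fun y a y' b => by
  refine (h y a y' b).trans ?_
  have h1 := @one_le_lg n
  have h2 := Real.sqrt_nonneg (dist1 y y' : ℝ)
  nlinarith [mul_nonneg (sub_nonneg.2 h1) h2]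

/-- the centres of the cells -/
noncomputable def ctr (K H : ℕ) : Finset (ℤ × ℤ) :=
  (box 0 H).image fun y => ((22 * (K : ℤ) + 1) * y.1, (22 * (K : ℤ) + 1) * y.2)

theorem card_ctr (K H : ℕ) : (ctr K H).card = (2 * H + 1) ^ 2 := by
  rw [ctr, card_image_of_injective, card_box]
  intro y y' e
  have h : 22 * (K : ℤ) + 1 ≠ 0 := by positivity
  exact Prod.ext (mul_left_cancel₀ h (congrArg Prod.fst e)) (mul_left_cancel₀ h (congrArg Prod.snd e))

theorem ctr_sub {K H n : ℕ} (h : (22 * K + 1) * H + 11 * K ≤ n) {x : ℤ × ℤ} (hx : x ∈ ctr K H) :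
    box x (11 * K) ⊆ box 0 n := fun z hz => by
  obtain ⟨y, hy, rfl⟩ := mem_image.1 hx
  have h' : (22 * (K : ℤ) + 1) * H + 11 * K ≤ n := by exact_mod_cast h
  have h0 : 0 ≤ 22 * (K : ℤ) + 1 := by positivity
  rw [mem_box] at *
  simp only [Prod.fst_zero, Prod.snd_zero, zero_sub, zero_add] at *
  push_cast at hz
  have a1 := mul_le_mul_of_nonneg_left hy.1.1 h0
  have a2 := mul_le_mul_of_nonneg_left hy.1.2 h0
  have a3 := mul_le_mul_of_nonneg_left hy.2.1 h0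
  have a4 := mul_le_mul_of_nonneg_left hy.2.2 h0
  refine ⟨⟨?_, ?_⟩, ?_, ?_⟩ <;> linarith [hz.1.1, hz.1.2, hz.2.1, hz.2.2]

theorem ctr_sep {K H : ℕ} {x x' : ℤ × ℤ} (hx : x ∈ ctr K H) (hx' : x' ∈ ctr K H) (e : x ≠ x') :
    22 * (K : ℤ) + 1 ≤ nrm (x - x') := by
  obtain ⟨y, -, rfl⟩ := mem_image.1 hx
  obtain ⟨y', -, rfl⟩ := mem_image.1 hx'
  have h0 : 0 ≤ 22 * (K : ℤ) + 1 := by positivity
  have k : ∀ a b : ℤ, a ≠ b → 22 * (K : ℤ) + 1 ≤ |(22 * (K : ℤ) + 1) * a - (22 * K + 1) * b| :=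
    fun a b h => by
      rw [← mul_sub, abs_mul, abs_of_nonneg h0]
      exact le_mul_of_one_le_right h0 (Int.one_le_abs (sub_ne_zero.2 h))
  by_cases h1 : y.1 = y'.1
  · exact (k _ _ fun h2 => e (by rw [h1, h2])).trans (le_max_right _ _)
  · exact (k _ _ h1).trans (le_max_left _ _)

theorem ring_m {u v : ℝ × ℝ} {y : ℤ × ℤ} {w : ℤ} (hw : |w| ≤ 1) :
    |(((pc u y + pc v y) / 2 + w : ℤ) : ℝ) - pl (md u v) 0 y| ≤ 3 := by
  obtain ⟨m, hm⟩ : ∃ m, pc u y + pc v y = 2 * m := ⟨(pc u y + pc v y) / 2, by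
    have := pc_par u v y
    omega⟩
  have h1 : (pc u y : ℝ) + pc v y = 2 * m := by exact_mod_cast hm
  have h2 : (-1 : ℝ) ≤ w ∧ (w : ℝ) ≤ 1 := by exact_mod_cast abs_le.1 hw
  have h3 := pc_near u y
  have h4 := pc_near v y
  rw [hm, Int.mul_ediv_cancel_left _ two_ne_zero, pl_md, abs_le]
  push_cast
  constructor <;> linarith

end BCoreP

open BCoreP in
theorem bcore_row (h1 : StrStmt) (h2 : Fold1Stmt) (h3 : Fold3Stmt) (h4 : Fold4Stmt) (h5 : AntiStmt)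
    (h6 : PairStmt) : BCoreStmt := by
  intro δ hδ hδ1
  obtain ⟨C0, hC0, hS⟩ := h1
  obtain ⟨c, e, CA, M, hc, hc1, he, hCA, hA⟩ := h5 (δ / 2) (by positivity) (by linarith)
  refine ⟨c / 4, CA * (8 * (C0 + 4) ^ 2 / δ) ^ 4 + 2000 * (C0 + 4) ^ 6 / (e ^ 2 * c), M,
    by positivity, by positivity, fun β u v d n K k H hu hv hβ hβ1 hd hK hKk hn hC => ?_⟩
  have hn1 : 1 ≤ n := by omega
  have hl := @one_le_lg n
  obtain ⟨A, hAe⟩ : ∃ A, A = (C0 + 4) * lg n := ⟨_, rfl⟩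
  have hA1 : 1 ≤ A := by rw [hAe]; nlinarith
  have hpu := hom_pc hδ hu
  have hpv := hom_pc hδ hv
  obtain ⟨S, hSe⟩ : ∃ S, S = (FS (box 0 n) (pc u)).filter (Str u 0 A 0 n) ×ˢ
    (FS (box 0 n) (pc v)).filter (Str v 0 A 0 n) := ⟨_, rfl⟩
  have hcard : Real.exp (lz (box 0 n) (pc u) + lz (box 0 n) (pc v) - 1) ≤ S.card := by
    have a := good hpu (p := Str u 0 A 0 n) (fun f a => hAe ▸ str_mono a.1)
      (hS u 0 2 0 n _ hpu hn1 (ring_pc u 0 _))
    have b := good hpv (p := Str v 0 A 0 n) (fun f a => hAe ▸ str_mono a.1)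
      (hS v 0 2 0 n _ hpv hn1 (ring_pc v 0 _))
    rw [hSe, card_product, Nat.cast_mul, Real.exp_sub, Real.exp_add]
    refine le_trans ?_ (mul_le_mul a b (by positivity) (Nat.cast_nonneg _))
    have := Real.add_one_le_exp 1
    rw [div_le_iff₀ (Real.exp_pos _)]
    have := mul_pos (Real.exp_pos (lz (box 0 n) (pc u))) (Real.exp_pos (lz (box 0 n) (pc v)))
    nlinarith
  have hmem : ∀ p ∈ S, p.1 ∈ FS (box 0 n) (pc u) ∧ p.2 ∈ FS (box 0 n) (pc v) ∧
      Str u 0 A 0 n p.1 ∧ Str v 0 A 0 n p.2 := fun p hp => by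
    rw [hSe, mem_product, mem_filter, mem_filter] at hp
    exact ⟨hp.1.1, hp.2.1, hp.1.2, hp.2.2⟩
  have hpar : ∀ p ∈ S, ∀ y, (p.1 y - p.2 y) % 2 = 0 := fun p hp =>
    par_FS (fun y _ => pc_par u v y) (hmem p hp).1 (hmem p hp).2.1
  have hf3 := fun p (hp : p ∈ S) => h3 δ β A u v d n p.1 p.2 hδ hδ1 hβ hβ1 hA1 hu hv hd
    (mem_FS.1 (hmem p hp).1).1 (mem_FS.1 (hmem p hp).2.1).1 (hpar p hp) (hmem p hp).2.2.1
    (hmem p hp).2.2.2
  have hk1 : (1 : ℝ) ≤ ((k : ℝ) + 1) ^ M := one_le_pow₀ (le_add_of_nonneg_left (Nat.cast_nonneg k))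
  have hX : 0 ≤ (((k : ℝ) + 1) ^ M * (lg n ^ 2 / β)) ^ 4 := by positivity
  rw [add_mul] at hC
  have hsm : 500 * A ^ 6 / (β ^ 4 * (2 * K + 1)) ≤ e ^ 2 * (c / 4) := by
    have a : 2000 * (C0 + 4) ^ 6 / (e ^ 2 * c) * (lg n ^ 6 / β ^ 4) ≤ 2 * K + 1 := by
      have b : lg n ^ 6 / β ^ 4 ≤ (((k : ℝ) + 1) ^ M * (lg n ^ 2 / β)) ^ 4 := by
        rw [mul_pow, div_pow, ← pow_mul (lg n)]
        refine le_trans ?_ (le_mul_of_one_le_left (by positivity) (one_le_pow₀ hk1))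
        exact div_le_div_of_nonneg_right (pow_le_pow_right₀ hl (by norm_num)) (by positivity)
      have b' := mul_le_mul_of_nonneg_left b
        (show 0 ≤ 2000 * (C0 + 4) ^ 6 / (e ^ 2 * c) by positivity)
      have b'' : 0 ≤ CA * (8 * (C0 + 4) ^ 2 / δ) ^ 4 * (((k : ℝ) + 1) ^ M * (lg n ^ 2 / β)) ^ 4 := by
        positivity
      have : (0 : ℝ) ≤ K := Nat.cast_nonneg K
      linarith
    rw [div_mul_div_comm, div_le_iff₀ (by positivity)] at a
    rw [div_le_iff₀ (by positivity), hAe, mul_pow]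
    linarith
  obtain ⟨U, -, hU⟩ := avg ((S ×ˢ box 0 n).image fun q =>
      (TT (box 0 n) (hf q.1.1 q.1.2) q.2 - 1) / 2).powerset ⟨∅, empty_mem_powerset _⟩ S (ctr K H)
    (fun U p x => FF x K (mA (box 0 n) (wk U) p.1 p.2) - FF x K (mB (box 0 n) (wk U) p.1 p.2))
    (c := c / 4) he fun p hp x hx => by
      have hb : box x K ⊆ box 0 n := fun y hy => ctr_sub hn hx (by
        rw [GlueP.mem_bx] at hy ⊢
        push_cast
        omega)
      refine (h4 β A u v d n K x p.1 p.2 _ hβ hβ1 hA1 hd (mem_FS.1 (hmem p hp).1).1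
        (mem_FS.1 (hmem p hp).2.1).1 (hpar p hp) (hmem p hp).2.2.1 (hmem p hp).2.2.2 hb
        (hf3 p hp).1 fun y hy => mem_image.2 ⟨(p, y), mem_product.2 ⟨hp, hb hy⟩, rfl⟩).trans ?_
      rw [card_powerset, Nat.cast_pow, Nat.cast_ofNat]
      exact mul_le_mul_of_nonneg_left hsm (by positivity)
  have ha1 : 1 ≤ 8 * A ^ 2 / (β * δ) := by
    rw [le_div_iff₀ (by positivity)]
    nlinarith [mul_le_one₀ hβ1 hδ.le hδ1]
  have hP := h6 (box 0 n) (ctr K H) (pc u) (pc v) (wk U) K (δ / 2) (8 * A ^ 2 / (β * δ)) e c S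
    hpu hpv (pc_par u v) (wk_step U) hc1 (fun x => ctr_sub hn) (fun x a x' b => ctr_sep a b)
    (fun x _ s f hf => hA _ s K k x f hf ha1 hK hKk (by
      have a : ((k : ℝ) + 1) ^ M * (8 * A ^ 2 / (β * δ))
          = 8 * (C0 + 4) ^ 2 / δ * (((k : ℝ) + 1) ^ M * (lg n ^ 2 / β)) := by
        rw [hAe]; field_simp
      have b : 0 ≤ 2000 * (C0 + 4) ^ 6 / (e ^ 2 * c) * (((k : ℝ) + 1) ^ M * (lg n ^ 2 / β)) ^ 4 := by
        positivity
      rw [a, mul_pow, ← mul_assoc]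
      linarith))
    (fun p hp => mem_product.2 ⟨(hmem p hp).1, (hmem p hp).2.1⟩) fun p hp => (hf3 p hp).2 U
  obtain ⟨-, -, hT, -, hH⟩ := h2 (box 0 n) (pc u) (pc v) hpu hpv (pc_par u v)
  have hout : ∀ y, nrm (y - 0) = (n + 1 : ℕ) → y ∉ box 0 n := fun y a b => by
    rw [GlueP.mem_bx, a] at b
    omega
  refine ⟨mA (box 0 n) (wk U) (pc u) (pc v), mB (box 0 n) (wk U) (pc u) (pc v),
    (hH _ (wk_step U)).1, (hH _ (wk_step U)).2, fun y hy => ?_, fun y hy => ?_, ?_⟩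
  · simp only [mA, fld, hT y (hout y hy), sub_self, mul_zero, add_zero]
    exact ring_m (wk_abs U _)
  · simp only [mB, fld, hT y (hout y hy), sub_self, mul_zero, add_zero]
    exact ring_m ((abs_neg _).trans_le (wk_abs U _))
  · have a := ((mul_le_mul_of_nonneg_right hcard (Real.exp_pos _).le).trans hU).trans hP
    rw [← Real.exp_add, Real.exp_le_exp, card_ctr] at a
    push_cast at a
    linarith

end Pool.Agent.MP_151d89_pr.H58
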