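import Pool.Agent.MP_151d89_pr.H58.Spec3

/-!
Products of local weights.
-/

set_option autoImplicit false
open MeasureTheory Finset Filter

namespace Pool.Agent.MP_151d89_pr.H58
open Pool.Agent.MP_151d89_pr.H82 Pool.Agent.MP_151d89_pr.H33 Pool.Agent.MP_151d89_pr.H67
  Pool.Agent.MP_151d89_pr.H30
open Classical

theorem bprod_row : BProdStmt := by
  intro Λ I r g W q hg hq
  induction I using Finset.induction_on with
  | empty =>
    exact fun _ _ _ _ _ => by simp only [prod_empty, card_empty, pow_zero, av_const _ _ hg, le_rfl]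
  | insert x I hx ih =>
    intro h1 h2 h3 h4 h5
    have mx := mem_insert_self x I
    have i := ih (fun y a => h1 y (mem_insert_of_mem a))
      (fun y a y' b => h2 y (mem_insert_of_mem a) y' (mem_insert_of_mem b)) h3
      (fun y a => h4 y (mem_insert_of_mem a)) fun y a => h5 y (mem_insert_of_mem a)
    simp only [prod_insert hx, card_insert_of_notMem hx]
    rw [← av_tower (h1 x mx), pow_succ']
    refine (av_le (ψ := fun f => q * ∏ y ∈ I, W y f) fun f hf => ?_).trans
      ((av_smul _ _ _ _).le.trans (mul_le_mul_of_nonneg_left i hq))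
    rw [av_eq (ψ := fun f' => (∏ y ∈ I, W y f) * W x f') fun f' hf' => ?_, av_smul, mul_comm q]
    · exact mul_le_mul_of_nonneg_left (h5 x mx f (mem_FS.1 hf).1) (prod_nonneg fun y _ => h3 y f)
    rw [mul_comm]
    congr 1
    refine prod_congr rfl fun y hy => h4 y (mem_insert_of_mem hy) _ _ fun z hz =>
      (mem_FS.1 hf').2 z fun hz' => ?_
    have := h2 x mx y (mem_insert_of_mem hy) fun e => hx (e ▸ hy)
    rw [mem_box] at hz hz'
    simp only [nrm, Int.abs_eq_natAbs, Prod.fst_sub, Prod.snd_sub] at this
    omega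

end Pool.Agent.MP_151d89_pr.H58
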