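import Pool.Agent.MP_151d89_pr.H58.Spec3

/-!
From the macroscopic scale to a small power of the radius.
-/

set_option autoImplicit false
open MeasureTheory Finset Filter

namespace Pool.Agent.MP_151d89_pr.H58
open Pool.Agent.MP_151d89_pr.H82 Pool.Agent.MP_151d89_pr.H33 Pool.Agent.MP_151d89_pr.H67
  Pool.Agent.MP_151d89_pr.H30
open Classical

theorem boot_row (h : DownStmt) : BootStmt := by
  intro δ ε d0 d1 e0 e1
  obtain ⟨p, hp⟩ := h δ d0 d1
  obtain ⟨q, hq⟩ := pow_unbounded_of_one_lt (896 / ε) (one_lt_two (α := ℝ))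
  rw [div_lt_iff₀ e0] at hq
  refine ⟨δ / (4 * 2 ^ (q + 110 * p)), by positivity, fun ρ₀ => ?_⟩
  filter_upwards [eventually_ge_atTop (2 ^ (130000 * p + 5 * ρ₀ + 6 * q + 100))] with R hR f hf hd hs
  have R0 : R ≠ 0 := (lt_of_lt_of_le (by positivity) hR).ne'
  have hl := Nat.le_log_of_pow_le one_lt_two hR
  obtain ⟨I, hI⟩ : ∃ I, Nat.log 2 R = I + (q + 110 * p) := ⟨Nat.log 2 R - (q + 110 * p), by omega⟩
  have n1 := Nat.pow_log_le_self 2 R0
  have n2 := Nat.lt_pow_succ_log_self one_lt_two R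
  rw [hI] at n1 n2 hl
  have r1 : (2 : ℝ) ^ (I + (q + 110 * p)) ≤ R := by exact_mod_cast n1
  have r2 : (R : ℝ) ≤ 2 ^ (I + (q + 110 * p) + 1) := by exact_mod_cast n2.le
  have k1 : δ / (4 * 2 ^ (q + 110 * p)) * R ≤ δ / 2 * 2 ^ I := by
    refine (mul_le_mul_of_nonneg_left r2 (by positivity)).trans (le_of_eq ?_)
    field_simp
    ring
  have k2 : 224 * (2 : ℝ) ^ (I + 110 * p) ≤ ε / 4 * R := by
    have a := mul_le_mul_of_nonneg_left r1 e0.le
    have b := mul_le_mul_of_nonneg_right hq.le (by positivity : (0 : ℝ) ≤ 2 ^ (I + 110 * p))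
    have c : (2 : ℝ) ^ (I + (q + 110 * p)) = 2 ^ q * 2 ^ (I + 110 * p) := by ring
    rw [c] at a
    linarith
  have k3 : (2 : ℝ) ^ (I / 5) ≤ (R : ℝ) ^ (1 / 5 : ℝ) := by
    have a : ((2 : ℝ) ^ (I / 5)) ^ 5 ≤ R := by
      rw [← pow_mul]
      exact (pow_le_pow_right₀ one_le_two (by omega)).trans r1
    have b := Real.rpow_le_rpow (by positivity) a (by norm_num : (0 : ℝ) ≤ ((5 : ℕ) : ℝ)⁻¹)
    rw [Real.pow_rpow_inv_natCast (by positivity) (by norm_num)] at b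
    simpa using b
  refine ((hp I (I / 5) R ((1 + ε) * R) f hf (by omega) (by omega) (fun ρ hρ z hz => ?_)
    (hs.mono k1)).mono k3).sub fun y hy => ⟨by linarith [hy.1], by linarith [hy.2]⟩
  refine hd ρ (le_trans (le_trans (by omega) Nat.lt_two_pow_self.le) hρ) z ?_
  have a : ((2 : ℝ) ^ (I / 5)) ^ 6 ≤ (ρ : ℝ) ^ 6 :=
    pow_le_pow_left₀ (by positivity) (by exact_mod_cast hρ) 6
  have b : (2 : ℝ) ^ (I + (q + 110 * p) + 1 + 1) ≤ (2 ^ (I / 5)) ^ 6 := by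
    rw [← pow_mul]
    exact pow_le_pow_right₀ one_le_two (by omega)
  have c : ε * R ≤ 1 * R := mul_le_mul_of_nonneg_right e1 (Nat.cast_nonneg R)
  have d : (nrm z : ℝ) ≤ (ρ : ℝ) ^ 6 := by
    rw [pow_succ] at b
    linarith [hz.2]
  exact_mod_cast d

end Pool.Agent.MP_151d89_pr.H58
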