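import Pool.Agent.MP_151d89_pr.H58.Spec3

/-! Strict concavity for almost planar boundary values. -/

set_option autoImplicit false

namespace Pool.Agent.MP_151d89_pr.H58

theorem cell_row (h1 : ZedStmt) (h2 : PoneStmt) : CellStmt := by
  intro δ h0 hδ
  obtain ⟨c, C, hc, hC, z⟩ := h1 δ h0 hδ
  obtain ⟨D, hD, p⟩ := h2 δ h0
  refine ⟨4 * c, 4 * C + 2 * D, by positivity, by positivity,
    fun u v c₁ c₂ c₃ a x J g₁ g₂ g₃ hu hv k₁ k₂ k₃ r₁ r₂ r₃ => ?_⟩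
  have e0 := mul_le_mul_of_nonneg_left (z u v J hu hv) (show (0 : ℝ) ≤ 4 ^ (J + 1) by positivity)
  have e1 := (abs_le.1 (p u c₁ a x J g₁ hu k₁ r₁)).2
  have e2 := (abs_le.1 (p v c₂ a x J g₂ hv k₂ r₂)).2
  have e3 := (abs_le.1 (p _ c₃ a x J g₃ (sl_md hu hv) k₃ r₃)).1
  have e4 : (3 : ℝ) ^ J ≤ 4 ^ J * (4 / 5) ^ J := by
    rw [← mul_pow]
    exact pow_le_pow_left₀ (by norm_num) (by norm_num) J
  have e5 := mul_le_mul_of_nonneg_left e4 hD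
  have e6 : 0 ≤ C * (a * 2 ^ J) := by have := r₁.nonneg; positivity
  rw [pow_succ] at e0 e1 e2 e3
  linarith

end Pool.Agent.MP_151d89_pr.H58
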