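import Pool.Agent.MP_151d89_pr.H58.Spec3

/-!
Row Cls: the classes of fillings that agree outside a subset.
-/

set_option autoImplicit false
open MeasureTheory Finset Filter

namespace Pool.Agent.MP_151d89_pr.H58
open Pool.Agent.MP_151d89_pr.H82 Pool.Agent.MP_151d89_pr.H33 Pool.Agent.MP_151d89_pr.H67
  Pool.Agent.MP_151d89_pr.H30
open Classical

namespace ClsP

theorem split2 (Λ : Finset (ℤ × ℤ)) (g : Conf) {z z' : ℤ × ℤ} (hz : z ∉ Λ)
    (hz' : z' ∉ insert z Λ) (hd : dist1 z z' = 1) (F : Conf → ℝ) :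
    ∑ a ∈ FS (insert z Λ) g, F a =
      ∑ a ∈ FS Λ (Function.update g z (g z' - 1)), F a +
        ∑ a ∈ FS Λ (Function.update g z (g z' + 1)), F a := by
  rw [← fib Λ g hz, ← fib Λ g hz, ← sum_filter_add_sum_filter_not (FS (insert z Λ) g)
    (fun a => a z = g z' - 1)]
  congr 1
  refine sum_congr (filter_congr fun a ha => ?_) fun _ _ => rfl
  rw [mem_FS] at ha
  have h1 := ha.1 z z' hd
  rw [ha.2 z' hz'] at h1
  rcases abs_eq (by norm_num : (0 : ℤ) ≤ 1) |>.1 h1 with h | h <;> omega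

theorem base (X : Finset (ℤ × ℤ)) (rk : ℤ × ℤ → ℤ) (n : ℕ) : ∀ (Λ : Finset (ℤ × ℤ)) (g : Conf),
    (Λ \ X).card = n → X ⊆ Λ →
    (∀ y ∈ Λ, y ∉ X → ∃ y', dist1 y y' = 1 ∧ y' ∉ X ∧ (y' ∉ Λ ∨ rk y' < rk y)) →
    ∑ f ∈ FS Λ g, (1 : ℝ) / (FS X f).card ≤ 2 ^ n := by
  induction n with
  | zero =>
    intro Λ g h0 hX _
    have e : Λ = X := Subset.antisymm (sdiff_eq_empty_iff_subset.1 (card_eq_zero.1 h0)) hX
    subst e
    rw [sum_congr rfl fun f hf => by rw [FS_congr (mem_FS.1 hf).2], sum_const, nsmul_eq_mul,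
      pow_zero, mul_one_div]
    exact div_self_le_one _
  | succ n ih =>
    intro Λ g h0 hX H
    obtain ⟨y, hy, hmin⟩ := exists_min_image (Λ \ X) rk (card_pos.1 (by omega))
    obtain ⟨hyΛ, hyX⟩ := mem_sdiff.1 hy
    obtain ⟨y', hd, hy'X, hy'⟩ := H y hyΛ hyX
    have hout : y' ∉ Λ := fun h => by
      rcases hy' with h' | h'
      · exact h' h
      · exact absurd (hmin y' (mem_sdiff.2 ⟨h, hy'X⟩)) (not_le.2 h')
    have hc : (Λ.erase y \ X).card = n := by
      rw [erase_sdiff_comm, card_erase_of_mem hy]; omega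
    have hX' : X ⊆ Λ.erase y := fun x hx => mem_erase.2 ⟨fun e => hyX (e ▸ hx), hX hx⟩
    have H' : ∀ u ∈ Λ.erase y, u ∉ X →
        ∃ u', dist1 u u' = 1 ∧ u' ∉ X ∧ (u' ∉ Λ.erase y ∨ rk u' < rk u) := fun u hu huX => by
      obtain ⟨u', a, b, c⟩ := H u (mem_of_mem_erase hu) huX
      exact ⟨u', a, b, c.imp_left fun h h' => h (mem_of_mem_erase h')⟩
    have e := split2 (Λ.erase y) g (notMem_erase y Λ) (z' := y')
      (by rw [insert_erase hyΛ]; exact hout) hd (fun f => (1 : ℝ) / (FS X f).card)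
    rw [insert_erase hyΛ] at e
    rw [e, pow_succ, mul_two]
    exact add_le_add (ih _ _ hc hX' H') (ih _ _ hc hX' H')

end ClsP

theorem cls_row : ClsStmt := by
  intro Λ X g rk hg hX H
  have hb := ClsP.base X rk _ Λ g rfl hX H
  refine ⟨fun S B hS hB => ?_, ?_⟩
  · have h1 : ∑ _f ∈ S, (1 : ℝ) / Real.exp B ≤ ∑ f ∈ S, (1 : ℝ) / (FS X f).card :=
      sum_le_sum fun f hf => by
        have hf' := (mem_FS.1 (hS hf)).1
        refine one_div_le_one_div_of_le (card_pos X hf') ?_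
        rw [← exp_lz X hf']
        exact Real.exp_le_exp.2 (hB f hf)
    have h2 : ∑ f ∈ S, (1 : ℝ) / (FS X f).card ≤ ∑ f ∈ FS Λ g, (1 : ℝ) / (FS X f).card :=
      sum_le_sum_of_subset_of_nonneg hS fun _ _ _ => by positivity
    rw [sum_const, nsmul_eq_mul, mul_one_div, div_le_iff₀ (Real.exp_pos B)] at h1
    exact h1.trans (mul_le_mul_of_nonneg_right (h2.trans hb) (Real.exp_pos B).le)
  · have h1 := LocP.jensen Λ (fun f => lz Λ g - lz X f) hg
    have h2 : av Λ (fun f => Real.exp (lz Λ g - lz X f)) g =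
        ∑ f ∈ FS Λ g, (1 : ℝ) / (FS X f).card := by
      rw [av_eq (ψ := fun f => ((FS Λ g).card : ℝ) * (1 / (FS X f).card)) fun f hf => by
        rw [Real.exp_sub, exp_lz Λ hg, exp_lz X (mem_FS.1 hf).1, mul_one_div], av_smul,
        ← av_mul_card _ _ hg]
    rw [h2, av_sub, av_const _ _ hg] at h1
    have h3 : (2 : ℝ) ^ (Λ \ X).card ≤ Real.exp (Λ \ X).card := by
      rw [← Real.exp_one_pow]
      exact pow_le_pow_left₀ (by norm_num) (by linarith [Real.add_one_le_exp 1]) _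
    have h4 := Real.exp_le_exp.1 (h1.trans (hb.trans h3))
    have h5 : av Λ (fun a => lz X a) g = av Λ (lz X) g := rfl
    linarith

end Pool.Agent.MP_151d89_pr.H58
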