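import Pool.Agent.MP_151d89_pr.H58.Spec3

/-!
Gluing the competitor.
-/

set_option autoImplicit false
open MeasureTheory Finset Filter

namespace Pool.Agent.MP_151d89_pr.H58
open Pool.Agent.MP_151d89_pr.H82 Pool.Agent.MP_151d89_pr.H33 Pool.Agent.MP_151d89_pr.H67
  Pool.Agent.MP_151d89_pr.H30
open Classical

open GlueP in
theorem comp_row : CompStmt := by
  intro δ P d f m R hδ hu hf hm hd hb
  have hP : ∀ y y' : ℤ × ℤ, |y.1 - y'.1| + |y.2 - y'.2| = 1 → P y - P y' ≤ 1 - δ :=
    fun y y' h => by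
      have e : dist1 y' y = 1 := by
        rw [abs_sub_comm y.1, abs_sub_comm y.2] at h
        exact h
      have := hu y' y
      rw [e, Int.cast_one, mul_one] at this
      linarith
  set W : ℤ × ℤ → ℝ := fun y => δ * ((max (nrm y - m) 0 : ℤ) : ℝ) with hW
  have hR : ∀ y y' : ℤ × ℤ, |y.1 - y'.1| + |y.2 - y'.2| = 1 → W y - W y' ≤ δ := fun y y' h => by
    have e1 := nrm_edge 0 h
    rw [sub_zero, sub_zero] at e1
    have e2 : max (nrm y - m) 0 ≤ max (nrm y' - m) 0 + 1 := by omega
    have e3 : ((max (nrm y - m) 0 : ℤ) : ℝ) ≤ ((max (nrm y' - m) 0 : ℤ) : ℝ) + 1 := by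
      exact_mod_cast e2
    simp only [hW]
    nlinarith
  have far : ∀ y, nrm y ≤ R → (m : ℤ) ≤ nrm y → d y ≤ δ * ((nrm y : ℝ) - m) → cl f P W f y = f y :=
    fun y h1 h2 h3 => cl_far f P W f (a := d y - 2)
      (by simp only [hW, max_eq_left (sub_nonneg.2 h2)]; push_cast; linarith)
      (by linarith [hd y (mem_bx.2 (by rwa [sub_zero]))])
  have h := hom_glue (hom_cl hf hf (x := 0) (by omega) hP hR) hf 0 R fun y e => by
    rw [sub_zero] at e
    exact far y e.le (by omega) (by rw [e]; exact hb y e)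
  refine ⟨_, mem_FS.2 ⟨h, fun y hy => ?_⟩, fun y hy => ?_⟩
  · simp only [lay, mem_union, mem_filter, mem_bx, sub_zero, not_or, not_and, not_le, not_lt] at hy ⊢
    split_ifs with e
    · exact far y e hy.1.le (hy.2 e hy.1)
    · rfl
  · rw [mem_bx, sub_zero] at hy
    have e : W y = 0 := by simp only [hW, max_eq_right (sub_nonpos.2 hy), Int.cast_zero, mul_zero]
    simp only [sub_zero]
    rw [if_pos (by omega), cl_zero f P W f e, abs_le]
    constructor <;> linarith [le_rd f P y, rd_lt f P y]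

end Pool.Agent.MP_151d89_pr.H58
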