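import Pool.Agent.MP_151d89_pr.H58.Spec3

/-!
Concentration in a box.
-/

set_option autoImplicit false
open MeasureTheory Finset Filter

namespace Pool.Agent.MP_151d89_pr.H58
open Pool.Agent.MP_151d89_pr.H82 Pool.Agent.MP_151d89_pr.H33 Pool.Agent.MP_151d89_pr.H67
  Pool.Agent.MP_151d89_pr.H30
open Classical

namespace ConcP

theorem one (h : IncrStmt) (z : ℤ × ℤ) (ρ : ℕ) (g : Conf) (hg : Hom g) (hρ : 1 ≤ ρ) (y : ℤ × ℤ)
    (hy : y ∈ box z ρ) :
    av (box z ρ) (fun f => ind (ph ρ < |(f y : ℝ) - mn (box z ρ) g y|)) g ≤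
      2 * (Real.exp (-20) / ρ ^ 20) := by
  have hy' : y ∈ box z (ρ + 1) := by
    rw [mem_box] at hy ⊢
    push_cast
    omega
  obtain ⟨w, -, hw, hd⟩ := exit z y ρ hy'
  have hl := @one_le_lg ρ
  have h1 := h (box z ρ) g w y (40 * lg ρ) hg (by linarith)
  have e : Real.exp (-(40 * lg ρ / 2)) = Real.exp (-20) / ρ ^ 20 := by
    have := exp_lg hρ 20
    push_cast at this
    rw [← this]
    congr 1
    ring
  rw [e] at h1
  refine (av_le fun f hf => ?_).trans h1
  by_cases hc : ph ρ < |(f y : ℝ) - mn (box z ρ) g y|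
  · rw [ind_pos hc, ind_pos]
    have e1 : ((f y : ℝ) - f w) - (mn (box z ρ) g y - mn (box z ρ) g w) =
        f y - mn (box z ρ) g y := by
      rw [mn_out hg hw, (mem_FS.1 hf).2 w hw]
      ring
    rw [e1]
    refine lt_of_le_of_lt ?_ hc
    have h2 : dist1 w y ≤ ρ + 1 := by
      have h3 := nrm_nonneg (y - z)
      have h4 : dist1 w y = dist1 y w := by
        simp only [dist1, abs_sub_comm]
      omega
    have h3 : √(dist1 w y : ℝ) ≤ √(ρ + 1) := Real.sqrt_le_sqrt (by exact_mod_cast h2)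
    unfold ph
    gcongr
  · rw [ind_neg hc]
    exact (ind_mem _).1

end ConcP

theorem conc_row (h : IncrStmt) : ConcStmt := by
  intro z ρ g hg hρ
  have h1 : av (box z ρ) (fun f => ind (¬ Dv z ρ f)) g ≤ av (box z ρ)
      (fun f => ∑ y ∈ box z ρ, ind (ph ρ < |(f y : ℝ) - mn (box z ρ) g y|)) g := by
    refine av_le fun f hf => ?_
    by_cases e : Dv z ρ f
    · rw [ind_neg (not_not.2 e)]
      exact sum_nonneg fun _ _ => (ind_mem _).1
    · rw [ind_pos e]
      simp only [Dv, not_forall, not_le] at e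
      obtain ⟨y, e⟩ := e
      rw [mn_congr hf] at e
      have hy : y ∈ box z ρ := by
        by_contra hy
        rw [mn_out hg hy, (mem_FS.1 hf).2 y hy, sub_self, abs_zero] at e
        exact e.not_ge (ph_nonneg ρ)
      exact (ind_pos e).ge.trans (single_le_sum
        (f := fun y => ind (ph ρ < |(f y : ℝ) - mn (box z ρ) g y|)) (fun _ _ => (ind_mem _).1) hy)
  refine h1.trans ?_
  rw [av_sum]
  refine (sum_le_card_nsmul _ _ _ fun y hy => ConcP.one h z ρ g hg hρ y hy).trans ?_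
  rw [card_box, nsmul_eq_mul]
  have r1 : (1 : ℝ) ≤ ρ := by exact_mod_cast hρ
  have e1 : (324 : ℝ) ≤ Real.exp 20 := by
    have h5 := Real.add_one_le_exp (5 : ℝ)
    have h6 : Real.exp 20 = Real.exp 5 ^ 4 := by
      rw [← Real.exp_nat_mul]
      norm_num
    rw [h6]
    exact le_trans (by norm_num) (pow_le_pow_left₀ (by norm_num) h5 4)
  have e2 : Real.exp (-20) ≤ 1 / 324 := by
    rw [Real.exp_neg, one_div]
    exact inv_anti₀ (by norm_num) e1
  push_cast
  calc (2 * (ρ : ℝ) + 1) ^ 2 * (2 * (Real.exp (-20) / ρ ^ 20))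
      ≤ (3 * (ρ : ℝ)) ^ 2 * (2 * (1 / 324 / ρ ^ 20)) := by
        gcongr
        linarith
    _ = 1 / (18 * (ρ : ℝ) ^ 18) := by
        field_simp
        norm_num

end Pool.Agent.MP_151d89_pr.H58
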