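import Pool.Agent.MP_151d89_pr.H58.Spec3

/-!
Corridors of large increments.
-/

set_option autoImplicit false
open MeasureTheory Finset Filter

namespace Pool.Agent.MP_151d89_pr.H58
open Pool.Agent.MP_151d89_pr.H82 Pool.Agent.MP_151d89_pr.H33 Pool.Agent.MP_151d89_pr.H67
  Pool.Agent.MP_151d89_pr.H30
open Classical

theorem CorrP.ex (R : ℕ) (v y : ℤ × ℤ) (h : y + v ∈ box 0 R) :
    ∃ w, w ∉ box (0 - v) R ∧ dist1 y w ≤ (R + 1 : ℕ) := by
  obtain ⟨w, -, h1, h2⟩ := exit (0 - v) y R (by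
    simp only [mem_box, Prod.fst_add, Prod.snd_add, Prod.fst_sub, Prod.snd_sub] at h ⊢
    omega)
  have := nrm_nonneg (y - (0 - v))
  exact ⟨w, h1, by omega⟩

theorem corr_row (h : MP2Stmt) : CorrStmt := by
  obtain ⟨C, C0, h⟩ := h
  refine ⟨C, C0, fun R r g v hg r1 hR => ?_⟩
  obtain ⟨y, hy, hm⟩ := ((box 0 r).filter fun y => nrm y = r).exists_max_image
    (fun y => mn (box 0 R) g (y + v) - mn (box 0 R) g y)
    ⟨((r : ℤ), 0), mem_filter.2 ⟨by simp [mem_box], by simp [nrm]⟩⟩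
  have v0 := nrm_nonneg v
  have e := mn_tr (iso_add v) (.inl rfl) 0 (fun y => box_add 0 v y R) hg
  have k : ∀ y, y ∈ box 0 r → y + v ∈ box 0 R ∧ y + 0 ∈ box 0 R := fun y hy => by
    simp only [mem_box, nrm, Int.abs_eq_natAbs, Prod.fst_add, Prod.snd_add, Prod.fst_zero,
      Prod.snd_zero] at hy hR v0 ⊢
    omega
  have sb : ∀ y, y ∈ box 0 (r - 1) → y ∈ box 0 r := fun y hy => by
    simp only [mem_box] at hy ⊢
    omega
  have z0 : ∀ n, (0 : ℤ × ℤ) ∈ box 0 n := fun n => by simp [mem_box]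
  have ex : ∀ u, (0 : ℤ × ℤ) + u ∈ box 0 R → ∃ w, w ∉ box (0 - u) R ∧ dist1 0 w ≤ 8 * R :=
    fun u hu => (CorrP.ex R u 0 hu).imp fun w hw => ⟨hw.1, by omega⟩
  have := h _ (box 0 R) (box 0 (r - 1)) _ g 0 0 (mn (box 0 R) g (y + v) - mn (box 0 R) g y) (R + 1) R
    (hom_tr (iso_add v) (.inl rfl) 0 hg) hg (fun y hy => (box_add 0 v y R).2 (k y (sb y hy)).1)
    (fun y hy => by simpa using (k y (sb y hy)).2) (z0 _) (by omega)
    (fun y hy => by simpa using (k y (sb y hy)).2) (ex v (k 0 (z0 _)).1)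
    (by simpa using ex 0 (k 0 (z0 _)).2) fun y' ⟨b1, y'', b2, b3⟩ => by
      have b : y' ∈ box 0 r ∧ nrm y' = r := by
        simp only [mem_box, nrm, dist1, Int.abs_eq_natAbs, Prod.fst_zero, Prod.snd_zero]
          at b1 b2 b3 ⊢
        omega
      have := hm y' (mem_filter.2 b)
      refine ⟨CorrP.ex R v y' (k y' b.1).1, by simpa using CorrP.ex R 0 y' (k y' b.1).2, ?_⟩
      simp only [e, Equiv.coe_addRight, Int.cast_one, Int.cast_zero]
      linarith
  simp only [e, Equiv.coe_addRight, Int.cast_one, Int.cast_zero, zero_add, Nat.cast_add,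
    Nat.cast_one] at this
  have l : lg R * (√(R + 1) + 1) ≤ ph R := by
    have := @one_le_lg R
    have := Real.sqrt_nonneg (R + 1)
    unfold ph
    nlinarith
  exact ⟨y, (mem_filter.1 hy).2, by nlinarith⟩

end Pool.Agent.MP_151d89_pr.H58
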