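import Pool.Agent.MP_151d89_pr.H58.Spec3
import Pool.Agent.MP_151d89_pr.H58.Cov

/-!
The covariance of the average height and the drift.
-/

set_option autoImplicit false
open MeasureTheory Finset Filter

namespace Pool.Agent.MP_151d89_pr.H58
open Pool.Agent.MP_151d89_pr.H82 Pool.Agent.MP_151d89_pr.H33 Pool.Agent.MP_151d89_pr.H67
  Pool.Agent.MP_151d89_pr.H30
open Classical

namespace Cov3P

theorem FF_sub (K : ℕ) (f f' : Conf) :
    FF 0 K f - FF 0 K f' = (∑ y ∈ box 0 K, ((f y : ℝ) - f' y)) / (2 * K + 1) ^ 2 := by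
  rw [FF, FF, ← sub_div, sum_sub_distrib]

theorem flip_nn (m : Mv) (f : Conf) (y : ℤ × ℤ) : 0 ≤ (f y : ℝ) - H30.flip m f y :=
  sub_nonneg.2 (Int.cast_le.2 (flip_le m f y))

theorem FF_nn (K : ℕ) (m : Mv) (f : Conf) : 0 ≤ FF 0 K f - FF 0 K (H30.flip m f) := by
  rw [FF_sub]
  exact div_nonneg (sum_nonneg fun y _ => flip_nn m f y) (by positivity)

theorem FF_ge {K : ℕ} {y : ℤ × ℤ} (hy : y ∈ box 0 K) (f : Conf) :
    2 / (2 * K + 1) ^ 2 ≤ FF 0 K f - FF 0 K (H30.flip (true, y, 0) f) := by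
  rw [FF_sub]
  refine div_le_div_of_nonneg_right (le_trans (le_of_eq ?_) (single_le_sum
    (f := fun x => (f x : ℝ) - H30.flip (true, y, 0) f x) (fun x _ => flip_nn _ f x) hy))
    (by positivity)
  have e : H30.flip (true, y, 0) f y = f y - 2 := flip_in f (tow_start (true, y, 0))
  simp only [e]
  push_cast
  ring

theorem cov_num {Λ : Finset (ℤ × ℤ)} {K : ℕ} (h : box 0 (K + 9 * K) ⊆ Λ) (hK : 1 ≤ K) (g : Conf) :
    2 / (2 * K + 1) ^ 2 * av Λ (fun f => (num (box 0 K) fun y => Av (-1) (true, y, 0) f : ℕ)) g ≤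
      av Λ (fun f => FF 0 K f * SS K K f) g := by
  rw [CovP.av_SS h]
  have hi : Function.Injective fun y : ℤ × ℤ => ((true, y, 0) : Mv) := fun y y' e =>
    congrArg (fun m : Mv => m.2.1) e
  have hs : (box 0 K).image (fun y : ℤ × ℤ => ((true, y, 0) : Mv)) ⊆ idx K K := by
    intro m hm
    obtain ⟨y, hy, rfl⟩ := mem_image.1 hm
    rw [mem_box0] at hy
    rw [mem_idx]
    simp only [Nat.cast_zero, pt_zero, true_or, Nat.zero_le, and_true, true_and]
    omega
  refine le_trans ?_ (sum_le_sum_of_subset_of_nonneg hs fun m _ _ => mul_nonneg (psi_mem K K m).1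
    (av_nonneg (fun f => mul_nonneg (ind_mem _).1 (FF_nn K m f)) g))
  rw [sum_image fun y _ y' _ e => hi e]
  simp only [num_eq]
  rw [av_sum, mul_sum]
  refine sum_le_sum fun y hy => ?_
  have hy' := mem_box0.1 hy
  rw [psi_one hK (by simp only; omega), one_mul, ← av_smul]
  refine av_le fun f _ => ?_
  rw [mul_comm]
  exact mul_le_mul_of_nonneg_left (FF_ge hy f) (ind_mem _).1

end Cov3P

theorem cov3_row (h1 : MacStmt) (h2 : Loc3Stmt) : Cov3Stmt := by
  intro δ hδ hδ1
  obtain ⟨p, C, hp, hL⟩ := h2 δ hδ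
  refine ⟨p, 2 * |C|, hp, fun a s K g hg ha hK hC hS => ?_⟩
  have hb : box 0 (K + 9 * K) ⊆ box 0 (11 * K) := box_mono (by omega)
  have e : av (box 0 (11 * K)) (fun f => (FF 0 K f - s) * SS K K f) g =
      av (box 0 (11 * K)) (fun f => FF 0 K f * SS K K f) g := by
    simp only [sub_mul]
    rw [av_sub, av_smul, CovP.mean_SS hb, mul_zero, sub_zero]
  rw [e]
  refine le_trans ?_ (Cov3P.cov_num hb hK g)
  have hC' : C * (2 * a + 1) ≤ K := by
    have := le_abs_self C
    have := abs_nonneg C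
    nlinarith
  have key : p * (2 * K + 1) ^ 2 * av (box 0 (11 * K))
      (fun f => ind (Sg δ a (box 0 (11 * K) : Finset (ℤ × ℤ)) f)) g ≤ av (box 0 (11 * K))
        (fun f => (num (box 0 K) fun y => Av (-1) (true, y, 0) f : ℕ)) g := by
    rw [← av_tower (box_mono (show K ≤ 11 * K by omega))
      (fun f => (num (box 0 K) fun y => Av (-1) (true, y, 0) f : ℕ)), ← av_smul]
    refine av_le fun f hf => ?_
    by_cases hf' : Sg δ a (box 0 (11 * K) : Finset (ℤ × ℤ)) f
    · obtain ⟨P, hP, hB⟩ := h1 δ a _ 0 (K + 1) f hδ1 hf' fun y hy =>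
        mem_coe.2 (box_mono (by omega) hy)
      rw [ind_pos hf', mul_one]
      exact hL (2 * a) P 0 K f hP (mem_FS.1 hf).1 (by linarith) hC' hB
    · rw [ind_neg hf', mul_zero]
      exact av_nonneg (fun _ => Nat.cast_nonneg _) f
  have hN : (0 : ℝ) < (2 * K + 1) ^ 2 := by positivity
  refine le_trans ?_ (mul_le_mul_of_nonneg_left
    ((mul_le_mul_of_nonneg_left hS (by positivity)).trans key) (by positivity))
  refine le_of_eq ?_
  field_simp

end Pool.Agent.MP_151d89_pr.H58
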