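import Pool.Agent.MP_151d89_pr.H58.Spec3
import Pool.Agent.MP_151d89_pr.H58.Final

/-!
Almost sure concentration in all boxes.
-/

set_option autoImplicit false
open MeasureTheory Finset Filter

namespace Pool.Agent.MP_151d89_pr.H58
open Pool.Agent.MP_151d89_pr.H82 Pool.Agent.MP_151d89_pr.H33 Pool.Agent.MP_151d89_pr.H67
  Pool.Agent.MP_151d89_pr.H30
open Classical

namespace DevP

theorem meas_Dv (z : ℤ × ℤ) (ρ : ℕ) : MeasurableSet {f | ¬ Dv z ρ f} := by
  refine measurableSet_setOfPred.2 (Measurable.not (Measurable.forall fun y =>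
    measurableSet_setOfPred.1 (measurableSet_le ?_ measurable_const)))
  have h1 : Measurable fun f : Conf => (f y : ℝ) := by fun_prop
  exact continuous_abs.measurable.comp (h1.sub (meas_av (box z ρ) h1))

theorem one (h : ConcStmt) {μ : Measure Conf} (hμ : Gibbs μ) (z : ℤ × ℤ) {ρ : ℕ} (hρ : 1 ≤ ρ) :
    μ.real {f | ¬ Dv z ρ f} ≤ 1 / (18 * ρ ^ 18) := by
  have := hμ.1
  have m := meas_Dv z ρ
  rw [← int_ind μ m, ← int_av hμ (box z ρ) (meas_ind m) fun f => ind_abs _]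
  refine (integral_mono_ae (intg (meas_av _ (meas_ind m)) (av_abs fun f => ind_abs _))
    (integrable_const _) (hμ.2.1.mono fun f hf => h z ρ f hf hρ)).trans (le_of_eq ?_)
  simp

theorem arith {r : ℝ} (h : 1 ≤ r) : (2 * r ^ 6 + 1) ^ 2 * (1 / (18 * r ^ 18)) ≤ 1 / r ^ 2 := by
  have h0 : 0 < r := by linarith
  have h1 : 1 ≤ r ^ 6 := one_le_pow₀ h
  have h2 : r ^ 14 ≤ r ^ 18 := pow_le_pow_right₀ h (by norm_num)
  have h3 : (2 * r ^ 6 + 1) ^ 2 ≤ (3 * r ^ 6) ^ 2 := by gcongr; linarith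
  have h4 := mul_le_mul_of_nonneg_right h3 (sq_nonneg r)
  have h5 : 0 < r ^ 18 := by positivity
  rw [mul_one_div, div_le_div_iff₀ (by positivity) (by positivity)]
  have e : (3 * r ^ 6) ^ 2 * r ^ 2 = 9 * r ^ 14 := by ring
  linarith

end DevP

open DevP in
theorem dev_row (h : ConcStmt) : DevStmt := by
  intro μ hμ
  have := hμ.1
  have key : ∀ᵐ f ∂μ, ∀ᶠ k : ℕ in atTop,
      f ∉ ⋃ z ∈ box 0 ((k + 1) ^ 6), {f | ¬ Dv z (k + 1) f} := by
    refine FinalP.bc (b := fun k => 1 / ((k : ℝ) + 1) ^ 2) (fun k => ?_) ?_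
    · refine (measureReal_biUnion_finset_le _ _).trans
        ((sum_le_sum fun z _ => one h hμ z (Nat.le_add_left 1 k)).trans ?_)
      rw [sum_const, card_box, nsmul_eq_mul]
      push_cast
      exact arith (le_add_of_nonneg_left (Nat.cast_nonneg k))
    · exact_mod_cast (summable_nat_add_iff 1).2 (Real.summable_one_div_nat_pow.2 one_lt_two)
  filter_upwards [key] with f hf
  obtain ⟨N, hN⟩ := eventually_atTop.1 hf
  refine eventually_atTop.2 ⟨N + 1, fun ρ hρ z hz => ?_⟩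
  obtain ⟨k, rfl⟩ : ∃ k, ρ = k + 1 := ⟨ρ - 1, by omega⟩
  by_contra e
  exact hN k (by omega) (Set.mem_iUnion₂.2 ⟨z, mem_box0.2 (by exact_mod_cast hz), e⟩)

end Pool.Agent.MP_151d89_pr.H58
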