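import Pool.Agent.MP_151d89_pr.H58.Spec3

/-!
Descending the scales.
-/

set_option autoImplicit false
open MeasureTheory Finset Filter

namespace Pool.Agent.MP_151d89_pr.H58
open Pool.Agent.MP_151d89_pr.H82 Pool.Agent.MP_151d89_pr.H33 Pool.Agent.MP_151d89_pr.H67
  Pool.Agent.MP_151d89_pr.H30
open Classical

namespace DownP

theorem pp (b : Bool) (x : ℤ × ℤ) (s t : ℤ) : pt b (pt b x s) t = pt b x (s + t) := by
  simp only [pt, add_smul, add_assoc]

theorem p0 (b : Bool) (x : ℤ × ℤ) : pt b x 0 = x := by simp [pt]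

theorem conv (b : Bool) {x z : ℤ × ℤ} {R t l : ℕ} (h : x ∈ box z R) (h' : pt b x l ∈ box z R)
    (ht : t ≤ l) : pt b x t ∈ box z R := by
  cases b <;> simp [mem_box, pt, dir] at h h' ⊢ <;> omega

theorem near {a b : ℝ} {z y : ℤ × ℤ} {R : ℕ} (hz : z ∈ anr (a + R) (b - R)) (h : y ∈ box z R) :
    y ∈ anr a b := by
  have e : nrm y ≤ nrm z + R ∧ nrm z ≤ nrm y + R := by
    rw [mem_box] at h
    simp only [nrm, Int.abs_eq_natAbs]
    omega
  have e1 : (nrm y : ℝ) ≤ nrm z + R := by exact_mod_cast e.1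
  have e2 : (nrm z : ℝ) ≤ nrm y + R := by exact_mod_cast e.2
  exact ⟨by linarith [hz.1], by linarith [hz.2]⟩

theorem anr_mono {a b a' b' : ℝ} (h : a ≤ a') (h' : b' ≤ b) : anr a' b' ⊆ anr a b :=
  fun _ e => ⟨h.trans e.1, e.2.trans h'⟩

theorem sum1 (k : ℕ) : ∑ j ∈ range k, (1 : ℝ) / 2 ^ (j / 24000) ≤ 96000 := by
  have t : (1 / 2 : ℝ) ≤ (1 + -(1 / 48000)) ^ 24000 :=
    le_trans (by norm_num) (one_add_mul_le_pow (by norm_num) 24000)
  generalize hθ : (1 + -(1 / 48000) : ℝ) = θ at t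
  have h0 : 0 ≤ θ := by rw [← hθ]; norm_num
  have h1 : θ ≤ 1 := by rw [← hθ]; norm_num
  have e : ∀ j : ℕ, (1 : ℝ) / 2 ^ (j / 24000) ≤ 2 * θ ^ j := fun j => by
    have a : θ ^ (24000 * (j / 24000 + 1)) ≤ θ ^ j := pow_le_pow_of_le_one h0 h1 (by omega)
    have b := pow_le_pow_left₀ (by norm_num) t (j / 24000 + 1)
    rw [← pow_mul, pow_succ, one_div_pow] at b
    linarith
  have s : ∀ k : ℕ, ∑ j ∈ range k, (1 : ℝ) / 2 ^ (j / 24000) ≤ 96000 * (1 - θ ^ k) := fun k => by
    induction k with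
    | zero => simp
    | succ k ih =>
      have : θ ^ k * θ = θ ^ k - θ ^ k / 48000 := by rw [← hθ]; ring
      rw [sum_range_succ, pow_succ, this]
      linarith [e k]
  have := pow_nonneg h0 k
  linarith [s k]

/-- the radius at step k -/
def rh (I p k : ℕ) : ℕ := 56 * 2 ^ (I - k + 110 * (p + k / 24000))

theorem sum2 (I p k : ℕ) (h : k ≤ I + 1) :
    ∑ j ∈ range k, (rh I p j : ℝ) ≤ 224 * 2 ^ (I + 110 * p) * (1 - (3 / 4) ^ k) := by
  induction k with
  | zero => simp
  | succ k ih =>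
    have a : (2 : ℝ) ^ (110 * (k / 24000)) ≤ (3 / 2) ^ k := by
      refine le_trans ?_ (pow_le_pow_right₀ (by norm_num) (show 2 * (110 * (k / 24000)) ≤ k by omega))
      rw [pow_mul (3 / 2 : ℝ)]
      exact pow_le_pow_left₀ (by norm_num) (by norm_num) _
    have b : (2 : ℝ) ^ (I + 110 * p) * (3 / 4) ^ k = 2 ^ (I - k + 110 * p) * (3 / 2) ^ k := by
      rw [show I + 110 * p = I - k + 110 * p + k by omega, pow_add, mul_assoc, ← mul_pow]
      norm_num
    have c : (rh I p k : ℝ) ≤ 56 * (2 ^ (I + 110 * p) * (3 / 4) ^ k) := by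
      rw [b, rh, show I - k + 110 * (p + k / 24000) = I - k + 110 * p + 110 * (k / 24000) by omega,
        pow_add]
      push_cast
      gcongr
    rw [sum_range_succ, pow_succ]
    linarith [ih (by omega)]

theorem pieces {θ : ℝ} (hθ : 0 ≤ θ) {S : Set (ℤ × ℤ)} {f : Conf} (hf : Hom f) {m : ℕ} (hm : 0 < m)
    (h : ∀ b, ∀ x ∈ S, |(f (pt b x m) : ℝ) - f x| ≤ θ * m) (b : Bool) (l : ℕ) :
    ∀ x, (∀ t : ℕ, t ≤ l → pt b x t ∈ S) → |(f (pt b x l) : ℝ) - f x| ≤ θ * l + m := by
  induction l using Nat.strong_induction_on with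
  | _ l ih =>
    intro x hx
    rcases lt_or_ge l m with c | c
    · have e : dist1 (pt b x l) x = l := by cases b <;> simp [dist1, pt, dir]
      have e1 := inc_abs hf (pt b x l) x
      have e2 : (l : ℝ) ≤ m := by exact_mod_cast c.le
      rw [e] at e1
      push_cast at e1
      have : 0 ≤ θ * l := by positivity
      linarith
    · obtain ⟨r, rfl⟩ := Nat.exists_eq_add_of_le c
      have e1 := ih r (by omega) (pt b x m) fun t ht => by
        rw [pp, ← Nat.cast_add]
        exact hx _ (by omega)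
      have e2 := h b x (by simpa only [Nat.cast_zero, p0] using hx 0 (Nat.zero_le _))
      rw [pp, ← Nat.cast_add] at e1
      have := abs_sub_le (f (pt b x (m + r : ℕ)) : ℝ) (f (pt b x m)) (f x)
      push_cast at *
      linarith

end DownP

open DownP in
theorem down_row (h : HalfStmt) : DownStmt := by
  intro δ h0 h1
  obtain ⟨C, p₀, hC, H⟩ := h (δ / 2) (by positivity) (by linarith)
  obtain ⟨q, hq⟩ := pow_unbounded_of_one_lt (384000 * C / δ) (one_lt_two (α := ℝ))
  refine ⟨p₀ + q, fun I L a b f hf hL hp hD hS => ?_⟩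
  have hq' : C / 2 ^ (p₀ + q) * 96000 ≤ δ / 4 := by
    have e : (2 : ℝ) ^ q ≤ 2 ^ (p₀ + q) := pow_le_pow_right₀ one_le_two (by omega)
    rw [div_lt_iff₀ h0] at hq
    rw [div_mul_eq_mul_div, div_le_iff₀ (by positivity)]
    nlinarith
  generalize hp₁ : p₀ + q = p at *
  let W : ℕ → ℝ := fun k => ∑ j ∈ range k, (rh I p j : ℝ)
  let s : ℕ → ℝ := fun k => 1 - 3 * δ / 4 + C / 2 ^ p * ∑ j ∈ range k, (1 : ℝ) / 2 ^ (j / 24000)
  have hs : ∀ k, s k ≤ 1 - δ / 2 := fun k => by
    have := mul_le_mul_of_nonneg_left (sum1 k) (show 0 ≤ C / 2 ^ p by positivity)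
    simp only [s]
    linarith
  have hW : ∀ k, 0 ≤ W k := fun k => sum_nonneg fun _ _ => Nat.cast_nonneg _
  let P : ℕ → Prop := fun k => ∀ d x,
    (∀ t : ℕ, t ≤ 2 * 2 ^ (I - k) → pt d x t ∈ anr (a + W k) (b - W k)) →
    |(f (pt d x (2 * 2 ^ (I - k) : ℕ)) : ℝ) - f x| ≤ s k * (2 * 2 ^ (I - k))
  have step : ∀ k, k ≤ I - L → P k → ∀ d, ∀ z ∈ anr (a + W (k + 1)) (b - W (k + 1)),
      |(f (pt d z (2 ^ (I - k) : ℕ)) : ℝ) - f z| ≤ s (k + 1) * 2 ^ (I - k) := fun k hk hP d z hz => by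
    have hz' : z ∈ anr (a + W k + rh I p k) (b - W k - rh I p k) := by
      simpa only [W, sum_range_succ, add_assoc, sub_sub] using hz
    refine (H (I - k) (p + k / 24000) f z d (s k * (2 * 2 ^ (I - k))) (by omega) (by omega) hf
      (hD _ ?_ z (anr_mono (by linarith [hW (k + 1)]) (by linarith [hW (k + 1)]) hz))
      (mul_le_mul_of_nonneg_right (hs k) (by positivity)) fun d' x hx hx' =>
        hP d' x fun t ht => near hz' (conv d' hx hx' ht)).trans_eq ?_
    · exact (Nat.pow_le_pow_right two_pos (by omega)).trans (Nat.le_mul_of_pos_left _ (by norm_num))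
    · simp only [s, sum_range_succ, pow_add]
      field_simp
      ring
  have all : ∀ k, k ≤ I - L → P k := fun k => by
    induction k with
    | zero =>
      intro _ d x hx
      refine (hS d x _ fun t ht => by simpa [W] using hx t ht).trans_eq ?_
      simp [s]
      ring
    | succ k ih =>
      intro hk d x hx
      have e := step k (by omega) (ih (by omega)) d x
        (by simpa only [Nat.cast_zero, p0] using hx 0 (Nat.zero_le _))
      rw [show I - k = I - (k + 1) + 1 by omega, pow_succ', pow_succ'] at e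
      exact e
  have fin := step (I - L) le_rfl (all _ le_rfl)
  rw [show I - (I - L) = L by omega] at fin
  have hw : W (I - L + 1) ≤ 224 * 2 ^ (I + 110 * p) := (sum2 I p _ (by omega)).trans
    (mul_le_of_le_one_right (by positivity) (sub_le_self _ (by positivity)))
  intro d x l hl
  have := pieces (θ := 1 - δ / 2) (m := 2 ^ L) (S := anr (a + 224 * 2 ^ (I + 110 * p))
    (b - 224 * 2 ^ (I + 110 * p))) (by linarith) hf (by positivity)
    (fun d y hy => (fin d y (anr_mono (by linarith) (by linarith) hy)).trans (by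
      push_cast
      exact mul_le_mul_of_nonneg_right (hs _) (by positivity))) d l x hl
  exact_mod_cast this

end Pool.Agent.MP_151d89_pr.H58
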