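import Pool.Agent.MP_151d89_pr.H58.Spec3

/-!
The entropy comparison over all offsets of a square grid.
-/

set_option autoImplicit false
open MeasureTheory Finset Filter

namespace Pool.Agent.MP_151d89_pr.H58
open Pool.Agent.MP_151d89_pr.H82 Pool.Agent.MP_151d89_pr.H33 Pool.Agent.MP_151d89_pr.H67
  Pool.Agent.MP_151d89_pr.H30
open Classical

namespace EntP

/-- the residues of a site -/
def res (ρ : ℕ) (x : ℤ × ℤ) : ℤ × ℤ := (x.1 % (2 * ρ + 2), x.2 % (2 * ρ + 2))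

/-- the centres with given residues -/
noncomputable def II (k ρ : ℕ) (o : ℤ × ℤ) : Finset (ℤ × ℤ) := (box 0 k).filter fun x => res ρ x = o

/-- the union of the cells -/
noncomputable def XX (k ρ : ℕ) (o : ℤ × ℤ) : Finset (ℤ × ℤ) := (II k ρ o).biUnion fun x => box x ρ

theorem far {n a b : ℤ} (h : a % n = b % n) (hab : a ≠ b) : n ≤ |a - b| :=
  Int.le_of_dvd (abs_pos.2 (sub_ne_zero.2 hab))
    ((dvd_abs _ _).2 (Int.dvd_of_emod_eq_zero (Int.emod_eq_emod_iff_emod_sub_eq_zero.1 h)))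

theorem sep (k ρ : ℕ) (o : ℤ × ℤ) :
    ∀ x ∈ II k ρ o, ∀ x' ∈ II k ρ o, x ≠ x' → 2 * (ρ : ℤ) + 2 ≤ nrm (x - x') := by
  intro x hx x' hx' h
  have e : res ρ x = res ρ x' := (mem_filter.1 hx).2.trans (mem_filter.1 hx').2.symm
  by_cases h1 : x.1 = x'.1
  · exact (far (congrArg Prod.snd e) fun h2 => h (Prod.ext h1 h2)).trans (le_max_right _ _)
  · exact (far (congrArg Prod.fst e) h1).trans (le_max_left _ _)

theorem card_XX (k ρ : ℕ) (o : ℤ × ℤ) : (XX k ρ o).card = (II k ρ o).card * (2 * ρ + 1) ^ 2 := by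
  unfold XX
  rw [card_biUnion, sum_congr rfl fun x _ => card_box x ρ, sum_const, smul_eq_mul]
  intro x hx x' hx' h
  refine disjoint_left.2 fun y hy hy' => ?_
  have := sep k ρ o x hx x' hx' h
  rw [mem_box] at hy hy'
  simp only [nrm, Int.abs_eq_natAbs, Prod.fst_sub, Prod.snd_sub] at this
  omega

theorem XX_sub (k ρ : ℕ) (o : ℤ × ℤ) : XX k ρ o ⊆ box 0 (k + ρ + 1) := fun y hy => by
  obtain ⟨x, hx, hy⟩ := mem_biUnion.1 hy
  have := (mem_filter.1 hx).1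
  rw [mem_box] at this hy ⊢
  simp only [Prod.fst_zero, Prod.snd_zero] at this ⊢
  push_cast
  omega

theorem out1 (m : ℕ) (y : ℤ × ℤ) (hy : y ∉ box 0 m) :
    ∃ y', dist1 y y' = 1 ∧ y' ∉ box 0 m ∧ -nrm y' < -nrm y := by
  rw [mem_box0] at hy
  simp only [mem_box0]
  by_cases h1 : |y.2| ≤ |y.1|
  · rcases le_total 0 y.1 with e | e
    · refine ⟨(y.1 + 1, y.2), ?_, ?_, ?_⟩ <;>
        simp only [nrm, dist1, Int.abs_eq_natAbs] at * <;> omega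
    · refine ⟨(y.1 - 1, y.2), ?_, ?_, ?_⟩ <;>
        simp only [nrm, dist1, Int.abs_eq_natAbs] at * <;> omega
  · rcases le_total 0 y.2 with e | e
    · refine ⟨(y.1, y.2 + 1), ?_, ?_, ?_⟩ <;>
        simp only [nrm, dist1, Int.abs_eq_natAbs] at * <;> omega
    · refine ⟨(y.1, y.2 - 1), ?_, ?_, ?_⟩ <;>
        simp only [nrm, dist1, Int.abs_eq_natAbs] at * <;> omega

theorem out2 (k ρ : ℕ) (o y : ℤ × ℤ) (hy : y ∉ XX k ρ o) :
    ∃ y', dist1 y y' = 1 ∧ y' ∉ XX k ρ o ∧ y'.1 + y'.2 < y.1 + y.2 := by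
  by_cases h1 : (y.1, y.2 - 1) ∈ XX k ρ o
  · refine ⟨(y.1 - 1, y.2), by simp [dist1], fun h2 => hy ?_, by simp only; omega⟩
    obtain ⟨x, hx, h1⟩ := mem_biUnion.1 h1
    obtain ⟨x', hx', h2⟩ := mem_biUnion.1 h2
    obtain ⟨a1, a2⟩ := mem_filter.1 hx
    obtain ⟨b1, b2⟩ := mem_filter.1 hx'
    refine mem_biUnion.2 ⟨(x.1, x'.2), mem_filter.2 ⟨?_, ?_⟩, ?_⟩
    · rw [mem_box] at a1 b1 ⊢
      exact ⟨a1.1, b1.2⟩
    · exact Prod.ext (congrArg Prod.fst a2 :) (congrArg Prod.snd b2 :)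
    · rw [mem_box] at h1 h2 ⊢
      exact ⟨h1.1, h2.2⟩
  · exact ⟨(y.1, y.2 - 1), by simp [dist1], h1, by simp only; omega⟩

theorem upper (h1 : ClsStmt) (h2 : ProdStmt) {Λ Y : Finset (ℤ × ℤ)} {g : Conf} {k ρ : ℕ}
    (hg : Hom g) (hs : box 0 (k + ρ + 1) ∪ Y ⊆ Λ) (o : ℤ × ℤ) :
    av Λ (lz (box 0 (k + ρ + 1) ∪ Y)) g ≤ Y.card + ((box 0 (k + ρ + 1) \ XX k ρ o).card +
      ∑ x ∈ II k ρ o, sg Λ g ρ x) := by
  have hB : box 0 (k + ρ + 1) ⊆ Λ := subset_union_left.trans hs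
  have e1 : av Λ (lz (box 0 (k + ρ + 1) ∪ Y)) g ≤ Y.card + av Λ (lz (box 0 (k + ρ + 1))) g := by
    rw [← av_tower hs (lz (box 0 (k + ρ + 1))), ← av_const Λ (Y.card : ℝ) hg, ← av_add]
    refine av_le fun f hf => ((h1 _ _ f (fun y => -nrm y) (mem_FS.1 hf).1 subset_union_left
      fun y _ hy => ?_).2).trans (add_le_add_left ?_ _)
    · obtain ⟨y', a, b, c⟩ := out1 _ y hy
      exact ⟨y', a, b, Or.inr c⟩
    · exact Nat.cast_le.2 (card_le_card fun y hy =>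
        (mem_union.1 (mem_sdiff.1 hy).1).resolve_left (mem_sdiff.1 hy).2)
  have e2 : av Λ (lz (box 0 (k + ρ + 1))) g ≤ (box 0 (k + ρ + 1) \ XX k ρ o).card +
      av Λ (lz (XX k ρ o)) g := by
    rw [← av_tower hB (lz (XX k ρ o)), ← av_const Λ ((box 0 (k + ρ + 1) \ XX k ρ o).card : ℝ) hg,
      ← av_add]
    refine av_le fun f hf => (h1 _ _ f (fun y => y.1 + y.2) (mem_FS.1 hf).1 (XX_sub k ρ o)
      fun y _ hy => ?_).2
    obtain ⟨y', a, b, c⟩ := out2 k ρ o y hy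
    exact ⟨y', a, b, Or.inr c⟩
  have e3 : av Λ (lz (XX k ρ o)) g = ∑ x ∈ II k ρ o, sg Λ g ρ x := by
    unfold sg
    rw [← av_sum]
    exact av_eq fun f hf => h2 _ ρ f (mem_FS.1 hf).1 (sep k ρ o)
  linarith

theorem lower (h2 : ProdStmt) {Λ Y : Finset (ℤ × ℤ)} {g : Conf} {k ρ : ℕ} {G : ℤ × ℤ → ℝ}
    {good : Conf → Prop} (hg : Hom g)
    (hp : av Λ (fun f => ind (¬ good f)) g * (2 * (k + ρ + 1) + 1) ^ 2 ≤ 1)
    (hG : ∀ f ∈ FS Λ g, good f → ∃ γ ∈ FS (box 0 (k + ρ + 1) ∪ Y) f, ∀ x ∈ box 0 k,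
      G x ≤ lz (box x ρ) γ) (o : ℤ × ℤ) :
    ∑ x ∈ II k ρ o, G x - 1 ≤ av Λ (lz (box 0 (k + ρ + 1) ∪ Y)) g := by
  have key : ∀ f ∈ FS Λ g, good f → ∃ γ ∈ FS (box 0 (k + ρ + 1) ∪ Y) f,
      ∑ x ∈ II k ρ o, G x ≤ lz (XX k ρ o) γ := fun f hf h => by
    obtain ⟨γ, a, b⟩ := hG f hf h
    refine ⟨γ, a, ?_⟩
    unfold XX
    rw [h2 _ ρ γ (mem_FS.1 a).1 (sep k ρ o)]
    exact sum_le_sum fun x hx => b x (mem_filter.1 hx).1
  have hk : (0 : ℝ) ≤ k := Nat.cast_nonneg _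
  have hρ : (0 : ℝ) ≤ ρ := Nat.cast_nonneg _
  have e0 : ∑ x ∈ II k ρ o, G x ≤ (2 * (k + ρ + 1) + 1) ^ 2 := by
    by_contra hc
    have e : av Λ (fun f => ind (¬ good f)) g = 1 := by
      rw [← av_const Λ 1 hg]
      refine av_eq fun f hf => if_pos fun h => hc ?_
      obtain ⟨γ, -, b⟩ := key f hf h
      refine b.trans ((lz_le _ _).trans ?_)
      have := card_le_card (XX_sub k ρ o)
      rw [card_box] at this
      exact_mod_cast this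
    rw [e] at hp
    nlinarith
  have e1 : av Λ (fun f => ∑ x ∈ II k ρ o, G x -
      (2 * (k + ρ + 1) + 1) ^ 2 * ind (¬ good f)) g ≤ av Λ (lz (box 0 (k + ρ + 1) ∪ Y)) g := by
    refine av_le fun f hf => ?_
    by_cases h : good f
    · obtain ⟨γ, a, b⟩ := key f hf h
      have := lz_mono ((XX_sub k ρ o).trans subset_union_left) a
      simp only [ind, h, not_true, if_false]
      linarith
    · have := lz_nonneg (box 0 (k + ρ + 1) ∪ Y) f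
      simp only [ind, h, not_false_iff, if_true]
      linarith
  rw [av_sub, av_const _ _ hg, av_smul] at e1
  linarith

theorem num_ineq {r k y : ℝ} (hr : 1 ≤ r) (hk : 0 ≤ k) (hy : 0 ≤ y) :
    (2 * r) ^ 2 * (1 + y + (2 * (k + r) + 1) ^ 2) - (2 * k + 1) ^ 2 * (2 * r - 1) ^ 2 ≤
      52 * (r ^ 2 * y + (k + r) ^ 2 * r + (k + r) * r ^ 3) := by
  obtain ⟨s, rfl⟩ : ∃ s, r = s + 1 := ⟨r - 1, by ring⟩
  have hs : 0 ≤ s := by linarith
  rw [← sub_nonneg]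
  ring_nf
  positivity

end EntP

open EntP in
theorem ent_row (h1 : ClsStmt) (h2 : ProdStmt) : EntStmt := by
  refine ⟨52, by norm_num, fun Λ Y g k ρ G good hg hs _ hp hG => ?_⟩
  have hm : ∀ x ∈ box 0 k, res ρ x ∈ Ico (0 : ℤ) (2 * ρ + 2) ×ˢ Ico (0 : ℤ) (2 * ρ + 2) :=
    fun x _ => mem_product.2 ⟨mem_Ico.2 ⟨Int.emod_nonneg _ (by omega), Int.emod_lt_of_pos _ (by omega)⟩,
      mem_Ico.2 ⟨Int.emod_nonneg _ (by omega), Int.emod_lt_of_pos _ (by omega)⟩⟩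
  have e1 : ∀ o, ∑ x ∈ II k ρ o, (G x - sg Λ g ρ x) ≤ (1 + Y.card + (2 * (k + (ρ + 1)) + 1) ^ 2) -
      ∑ _x ∈ II k ρ o, (2 * ((ρ : ℝ) + 1) - 1) ^ 2 := fun o => by
    have a := upper h1 h2 hg hs o
    have b := lower h2 hg hp hG o
    have c : ((box 0 (k + ρ + 1) \ XX k ρ o).card : ℝ) + (XX k ρ o).card =
        (box (0 : ℤ × ℤ) (k + ρ + 1)).card := by
      exact_mod_cast card_sdiff_add_card_eq_card (XX_sub k ρ o)
    rw [card_XX, card_box] at c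
    push_cast at c
    rw [sum_sub_distrib, sum_const, nsmul_eq_mul]
    nlinarith
  rw [← sum_fiberwise_of_maps_to hm]
  refine (sum_le_sum fun o _ => e1 o).trans ?_
  unfold II
  rw [sum_sub_distrib, sum_fiberwise_of_maps_to hm, sum_const, sum_const, card_box, card_product,
    Int.card_Ico, show (2 * (ρ : ℤ) + 2 - 0).toNat = 2 * (ρ + 1) by omega, nsmul_eq_mul, nsmul_eq_mul]
  have := num_ineq (r := (ρ : ℝ) + 1) (k := k) (y := Y.card)
    (le_add_of_nonneg_left (Nat.cast_nonneg _)) (Nat.cast_nonneg _) (Nat.cast_nonneg _)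
  push_cast
  nlinarith

end Pool.Agent.MP_151d89_pr.H58
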