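import Pool.Agent.MP_151d89_pr.H58.Spec3

/-!
The energy inequality.
-/

set_option autoImplicit false
open MeasureTheory Finset Filter

namespace Pool.Agent.MP_151d89_pr.H58
open Pool.Agent.MP_151d89_pr.H82 Pool.Agent.MP_151d89_pr.H33 Pool.Agent.MP_151d89_pr.H67
  Pool.Agent.MP_151d89_pr.H30
open Classical

namespace EtwoP

theorem bx0 {y : ℤ × ℤ} {n : ℕ} : y ∈ box 0 n ↔ nrm y ≤ n := by
  rw [GlueP.mem_bx, sub_zero]

theorem bx_mono {n m : ℕ} (h : n ≤ m) : box 0 n ⊆ box 0 m := fun x hx => by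
  rw [mem_box] at hx ⊢
  omega

theorem cnt (s : Finset ℕ) (n : ℤ) (N : ℕ) {t : ℝ} (ht : 0 ≤ t)
    (h : ∀ k ∈ s, ((k + N : ℕ) : ℤ) < n ∧ (n : ℝ) - (k + N : ℕ) < t) : (s.card : ℝ) ≤ t := by
  have h1 : s.card ≤ (Icc 1 ⌊t⌋₊).card := by
    refine card_le_card_of_injOn (fun k => (n - (k + N : ℕ)).toNat) (fun k hk => ?_)
      fun k hk k' hk' e => ?_
    · obtain ⟨a, b⟩ := h k hk
      have e : (((n - (k + N : ℕ)).toNat : ℕ) : ℤ) = n - (k + N : ℕ) := Int.toNat_of_nonneg (by omega)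
      have e1 : 1 ≤ (n - (k + N : ℕ)).toNat := by omega
      refine mem_coe.2 (mem_Icc.2 ⟨e1, Nat.le_floor ?_⟩)
      have e' : (((n - (k + N : ℕ)).toNat : ℕ) : ℝ) = n - (k + N : ℕ) := by exact_mod_cast e
      rw [e']
      exact b.le
    · have a := (h k hk).1
      have b := (h k' hk').1
      simp only at e
      omega
  rw [Nat.card_Icc, Nat.add_sub_cancel] at h1
  exact (Nat.cast_le.2 h1).trans (Nat.floor_le ht)

theorem lay_sum {δ : ℝ} (hδ : 0 < δ) {d : ℤ × ℤ → ℝ} (hd : ∀ y, 0 ≤ d y) (s : Finset ℕ)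
    (N R : ℕ) : ∑ k ∈ s, ((lay δ d (k + N) R).card : ℝ) ≤ (∑ y ∈ box 0 R, d y) / δ := by
  simp only [lay, ← sum_boole]
  rw [sum_comm, sum_div]
  refine sum_le_sum fun y _ => ?_
  rw [sum_boole]
  refine cnt _ (nrm y) N (div_nonneg (hd y) hδ.le) fun k hk => ?_
  have h := (mem_filter.1 hk).2
  exact ⟨h.1, by rw [lt_div_iff₀ hδ, mul_comm]; exact h.2⟩

theorem tent_ml (h4 : MolStmt) {σ : ℤ × ℤ → ℝ} {B : ℝ} {m T h : ℕ} {w : ℤ × ℤ} (h1 : 1 ≤ h)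
    (hw : nrm w + h ≤ T) (hT : ∀ a b : ℤ × ℤ, nrm a ≤ T → nrm (a + b) ≤ 1 →
      ∑ k ∈ Ico m (2 * m), ∑ x ∈ box 0 k, (2 * σ x - σ (x + a) - σ (x + b)) ≤ B) :
    ∑ k ∈ Ico m (2 * m), ∑ x ∈ box 0 k, (2 * σ x - (ml h σ (x + w) + ml h σ (x - w))) ≤ B := by
  obtain ⟨c1, c2, -⟩ := h4 h σ h1
  have h0 : (0 : ℝ) < 4 * h ^ 2 := by positivity
  have c1' : ((sqr h).card : ℝ) = 4 * h ^ 2 := by exact_mod_cast c1
  have e : ∀ x, 2 * σ x - (ml h σ (x + w) + ml h σ (x - w)) = (∑ v ∈ sqr h,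
      (2 * σ x - σ (x + (w + v)) - σ (x + (-(w + v) - (1, 1))))) / (4 * h ^ 2) := fun x => by
    rw [c2, eq_div_iff h0.ne', sub_mul, div_mul_cancel₀ _ h0.ne']
    simp only [sum_sub_distrib, sum_add_distrib, sum_const, nsmul_eq_mul, c1']
    ring
  simp only [e, ← sum_div]
  rw [div_le_iff₀ h0, ← c1', mul_comm B, ← nsmul_eq_mul]
  simp only [sum_comm (t := sqr h)]
  refine sum_le_card_nsmul _ _ _ fun v hv => hT _ _ ?_ ?_
  · simp only [sqr, mem_product, mem_Ico] at hv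
    simp only [nrm, Int.abs_eq_natAbs, Prod.fst_add, Prod.snd_add] at hw ⊢
    omega
  · have : w + v + (-(w + v) - (1, 1)) = (-1, -1) := by
      rw [add_sub, add_neg_cancel, zero_sub]
      rfl
    rw [this]
    decide

theorem facts {r I N Z p q u : ℝ} (hI : 1 ≤ I) (hN : 1 ≤ N) (hZ : 0 < Z) (hZI : Z ≤ I) (hp : 0 ≤ p)
    (hq : 0 ≤ q) (hu : 0 ≤ u) (hr : I ≤ r) (h : r ^ 2 * ((p + q + 1) / N + N / Z + u) ≤ I ^ 2) :
    N ≤ I ∧ r ≤ I ^ 2 ∧ r * (p + 1) ≤ I ^ 2 ∧ r ^ 2 ≤ I ^ 2 * N ∧ r * N ≤ I ^ 2 := by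
  have r0 : 0 < r := by linarith
  have a1 : 0 ≤ r ^ 2 * ((p + q + 1) / N) := by positivity
  have a2 : 0 ≤ r ^ 2 * (N / Z) := by positivity
  have a3 : 0 ≤ r ^ 2 * u := by positivity
  have b1 : r ^ 2 * ((p + q + 1) / N) ≤ I ^ 2 := by linarith
  have b2 : r ^ 2 * (N / Z) ≤ I ^ 2 := by linarith
  rw [← mul_div_assoc, div_le_iff₀ (by linarith)] at b1 b2
  have b3 : r ^ 2 * (p + 1) ≤ I ^ 2 * N := le_trans (by gcongr; linarith) b1
  have b4 : r * (r * N) ≤ r * I ^ 2 := by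
    calc r * (r * N) = r ^ 2 * N := by ring
      _ ≤ I ^ 2 * Z := b2
      _ ≤ I ^ 2 * r := by gcongr; linarith
      _ = _ := by ring
  have b5 : r * N ≤ I ^ 2 := le_of_mul_le_mul_left b4 r0
  have b6 : N ≤ I := by
    have : I * N ≤ I * I := by nlinarith
    exact le_of_mul_le_mul_left this (by linarith)
  refine ⟨b6, by nlinarith, ?_, by nlinarith, b5⟩
  have : r * (r * (p + 1)) ≤ r * I ^ 2 := by
    calc r * (r * (p + 1)) = r ^ 2 * (p + 1) := by ring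
      _ ≤ I ^ 2 * N := b3
      _ ≤ I ^ 2 * r := by gcongr; linarith
      _ = _ := by ring
  exact le_of_mul_le_mul_left this r0

theorem fin {A S δ CT C1 CE r I N m p e : ℝ} (hδ : 0 < δ) (hT : 0 ≤ CT) (h1 : 0 ≤ C1) (hE : 0 ≤ CE)
    (hS : 0 ≤ S) (hm : 1 ≤ m) (hN : 1 ≤ N) (hr : 8 * m ≤ r) (hp : 0 ≤ p) (he : 0 ≤ e)
    (f1 : r ≤ I ^ 2) (f2 : r * (p + 1) ≤ I ^ 2) (f3 : r ^ 2 ≤ I ^ 2 * N) (f4 : r * N ≤ I ^ 2)
    (f5 : r ^ 2 * e ≤ I ^ 2)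
    (h : m * (N ^ 2 * A) ≤ CT * (4 * N ^ 2) * ((3 * I) ^ 2 * m + m ^ 2) / 2 +
      m * ((4 * m + 1) ^ 2 * (C1 * N ^ 2 * e)) +
      CE * (N ^ 2 * ((S + (12 * m + 1) ^ 2 * (p + 2)) / (δ / 2)) +
        m * ((3 * m) ^ 2 * N + 3 * m * N ^ 3))) :
    A ≤ (20 * CT + C1 + 676 * CE / δ + 2 * CE) * (I ^ 2 + S / m) := by
  have m0 : 0 < m := by linarith
  have N0 : 0 < N := by linarith
  have h' : A ≤ 2 * CT * (9 * I ^ 2 + m) + C1 * ((4 * m + 1) ^ 2 * e) +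
      2 * (CE / δ) * (S / m + (12 * m + 1) ^ 2 * (p + 2) / m) +
      CE * ((3 * m) ^ 2 / N + 3 * m * N) := by
    refine le_of_mul_le_mul_left (a := m * N ^ 2) ?_ (by positivity)
    rw [mul_assoc]
    refine h.trans (le_of_eq ?_)
    field_simp
    ring
  have g1 : 9 * I ^ 2 + m ≤ 10 * I ^ 2 := by linarith
  have g2 : (4 * m + 1) ^ 2 * e ≤ I ^ 2 := le_trans (by gcongr; linarith) f5
  have g3 : (12 * m + 1) ^ 2 * (p + 2) / m ≤ 338 * I ^ 2 := by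
    rw [div_le_iff₀ m0]
    calc (12 * m + 1) ^ 2 * (p + 2) ≤ (13 * m) ^ 2 * (2 * (p + 1)) := by gcongr <;> linarith
      _ = 338 * (m * (p + 1)) * m := by ring
      _ ≤ 338 * (r * (p + 1)) * m := by gcongr; linarith
      _ ≤ _ := by gcongr
  have g4 : (3 * m) ^ 2 / N ≤ I ^ 2 := by
    rw [div_le_iff₀ N0]
    exact le_trans (by gcongr; linarith) f3
  have g5 : 3 * m * N ≤ I ^ 2 := le_trans (by gcongr; linarith) f4
  have k1 := mul_le_mul_of_nonneg_left g1 hT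
  have k2 := mul_le_mul_of_nonneg_left g2 h1
  have k0 : 0 ≤ CE / δ := by positivity
  have k3 := mul_le_mul_of_nonneg_left g3 k0
  have k4 := mul_le_mul_of_nonneg_left (add_le_add g4 g5) hE
  have s0 : 0 ≤ S / m := by positivity
  have k5 := mul_nonneg hT s0
  have k6 := mul_nonneg h1 s0
  have k7 := mul_nonneg hE s0
  have k8 := mul_nonneg k0 s0
  rw [mul_div_assoc]
  nlinarith

end EtwoP

open EtwoP in
theorem etwo_row (h1 : EoneStmt) (h2 : EntStmt) (h3 : TentStmt) (h4 : MolStmt) (h5 : ConcStmt) :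
    EtwoStmt := by
  intro δ hδ hδ1
  obtain ⟨c, C1, hc, hC1, E1⟩ := h1 δ hδ hδ1
  obtain ⟨CE, hCE, E2⟩ := h2
  obtain ⟨CT, hCT, E3⟩ := h3
  have hq : 0 ≤ 676 * CE / δ := by positivity
  refine ⟨c, 20 * CT + C1 + 676 * CE / δ + 2 * CE, hc, by linarith, ?_⟩
  intro R J i₀ j i m g hS hj hi hm hR w hw
  have hI : (1 : ℝ) ≤ 2 ^ i := one_le_pow₀ one_le_two
  have hN : (1 : ℝ) ≤ 2 ^ J := one_le_pow₀ one_le_two
  have hm1 : C1 * 2 ^ i ≤ m := le_trans (by gcongr; linarith) hm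
  have hm3 : (3 : ℝ) * 2 ^ i ≤ m := le_trans (by gcongr) hm1
  have hm3' : 3 * 2 ^ i ≤ m := by exact_mod_cast hm3
  have hR' : (8 : ℝ) * m ≤ R := by exact_mod_cast hR
  have e4 : ∀ n : ℕ, (4 : ℝ) ^ n = (2 ^ n) ^ 2 := fun n => by
    rw [← pow_mul, mul_comm, pow_mul]; norm_num
  have hS5 := hS.2.2.2.2
  rw [e4] at hS5
  obtain ⟨f0, f1, f2, f3, f4⟩ := facts hI hN (by positivity : (0 : ℝ) < 2 ^ i₀)
    (pow_le_pow_right₀ one_le_two hS.2.2.1) (ph_nonneg R) (Nat.cast_nonneg i) (by positivity)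
    (by linarith) hS5
  have f0' : 2 ^ J ≤ 2 ^ i := by exact_mod_cast f0
  have N1 : 1 ≤ 2 ^ J := Nat.one_le_two_pow
  have I1 : 1 ≤ 2 ^ i := Nat.one_le_two_pow
  have hρ : ((2 ^ J - 1 : ℕ) : ℝ) = 2 ^ J - 1 := by
    rw [Nat.cast_sub N1]; push_cast; rfl
  have he : 0 ≤ er R J i₀ i := by
    have := ph_nonneg R
    unfold er
    positivity
  set M := mn (box 0 R) g with hM
  set σ := sg (box 0 R) g (2 ^ J - 1) with hσ
  set d : ℤ × ℤ → ℝ := fun y => |M y - av2 (pr (2 ^ j) (2 ^ i) M) w y| + ph R + 2 with hd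
  set A := ∑ x ∈ box 0 m, ds (pr (2 ^ j) (2 ^ i) M) w x ^ 10 with hA
  have key : ∀ k ∈ Ico m (2 * m), (2 ^ J) ^ 2 * (c * A) ≤
      ∑ x ∈ box 0 k, (σ x - av2 (pr (2 ^ j) (2 ^ i) σ) w x) +
      (4 * m + 1) ^ 2 * (C1 * (2 ^ J) ^ 2 * er R J i₀ i) +
      CE * ((2 ^ J) ^ 2 * (lay (δ / 2) d (k + 2 ^ J) (6 * m)).card +
        ((3 * m) ^ 2 * 2 ^ J + 3 * m * (2 ^ J) ^ 3)) := by
    intro k hk
    rw [mem_Ico] at hk
    have ek : k + (2 ^ J - 1) + 1 = k + 2 ^ J := by omega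
    have k1 : (k : ℝ) + 2 ^ J ≤ 3 * m := by exact_mod_cast (by omega : k + 2 ^ J ≤ 3 * m)
    have k2 : (2 * k + 1 : ℝ) ≤ 4 * m + 1 := by exact_mod_cast (by omega : 2 * k + 1 ≤ 4 * m + 1)
    have hE := E2 (box 0 R) (lay (δ / 2) d (k + 2 ^ J) (6 * m)) g k (2 ^ J - 1)
      (fun x => av2 (pr (2 ^ j) (2 ^ i) σ) w x + c * 4 ^ J * ds (pr (2 ^ j) (2 ^ i) M) w x ^ 10 -
        C1 * 4 ^ J * er R J i₀ i) (Dv 0 R) hS.1
      (union_subset (bx_mono (by omega)) ((filter_subset _ _).trans (bx_mono (by omega))))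
      (fun y hy => by
        have := (mem_filter.1 hy).2.1
        omega)
      (by
        have R1 : (1 : ℝ) ≤ R := by linarith
        have a1 := h5 0 R g hS.1 (by omega)
        rw [hρ]
        calc _ ≤ 1 / (18 * (R : ℝ) ^ 18) * (3 * R) ^ 2 := by
              gcongr
              linarith
          _ ≤ 1 / (18 * (R : ℝ) ^ 2) * (3 * R) ^ 2 := by
              gcongr
              norm_num
          _ ≤ 1 := by
              field_simp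
              norm_num)
      (fun f hf hD => by
        rw [ek]
        exact E1 R J i₀ j i m k g f w hS hj hi hm1 hR hw hk.2.le hf hD)
    rw [hρ, e4 J, sub_add_cancel, add_assoc (k : ℝ), sub_add_cancel] at hE
    have a1 : A ≤ ∑ x ∈ box 0 k, ds (pr (2 ^ j) (2 ^ i) M) w x ^ 10 :=
      sum_le_sum_of_subset_of_nonneg (bx_mono hk.1) fun _ _ _ => by positivity
    have a2 := mul_le_mul_of_nonneg_left a1 (by positivity : 0 ≤ c * ((2 : ℝ) ^ J) ^ 2)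
    have a3 : (2 * k + 1 : ℝ) ^ 2 * (C1 * (2 ^ J) ^ 2 * er R J i₀ i) ≤
        (4 * m + 1) ^ 2 * (C1 * (2 ^ J) ^ 2 * er R J i₀ i) := by
      have : 0 ≤ C1 := by linarith
      gcongr
    have a4 : CE * (((k : ℝ) + 2 ^ J) ^ 2 * 2 ^ J + (k + 2 ^ J) * (2 ^ J) ^ 3) ≤
        CE * ((3 * m) ^ 2 * 2 ^ J + 3 * m * (2 ^ J) ^ 3) := by gcongr
    simp only [sum_sub_distrib, sum_add_distrib, ← mul_sum, sum_const, nsmul_eq_mul, card_box] at hE ⊢
    push_cast at hE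
    linarith
  have hσ' : ∀ x, 0 ≤ σ x ∧ σ x ≤ 4 * (2 ^ J) ^ 2 := fun x => by
    have := sg_mem (box 0 R) g (2 ^ J - 1) x
    rw [hρ] at this
    exact ⟨this.1, this.2.trans (by nlinarith)⟩
  have hT := fun a b ha hb => E3 σ _ m (3 * 2 ^ i) a b hσ' ha hb (by omega) hm3'
  have j1 : 2 ^ j ≤ 2 ^ i := Nat.pow_le_pow_right two_pos hi
  have hw' : nrm w ≤ 2 * ((2 ^ i : ℕ) : ℤ) := by exact_mod_cast hw
  have t1 := tent_ml h4 (h := 2 ^ j) (w := w) Nat.one_le_two_pow (by omega) hT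
  have t2 := tent_ml h4 (h := 2 ^ i) (w := w) I1 (by omega) hT
  have t3 : ∑ k ∈ Ico m (2 * m), ∑ x ∈ box 0 k, (σ x - av2 (pr (2 ^ j) (2 ^ i) σ) w x) ≤
      CT * (4 * (2 ^ J) ^ 2) * ((3 * 2 ^ i) ^ 2 * m + m ^ 2) / 2 := by
    have e : ∀ x, σ x - av2 (pr (2 ^ j) (2 ^ i) σ) w x =
        ((2 * σ x - (ml (2 ^ j) σ (x + w) + ml (2 ^ j) σ (x - w))) +
          (2 * σ x - (ml (2 ^ i) σ (x + w) + ml (2 ^ i) σ (x - w)))) / 4 := fun x => by
      simp only [av2, pr]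
      ring
    simp only [e, ← sum_div, sum_add_distrib]
    push_cast at t1 t2
    linarith
  have t4 := lay_sum (half_pos hδ) (d := d) (fun y => by
    have := ph_nonneg R
    simp only [hd]
    positivity) (Ico m (2 * m)) (2 ^ J) (6 * m)
  have t5 : ∑ y ∈ box 0 (6 * m), d y = ∑ y ∈ box 0 (6 * m), |M y - av2 (pr (2 ^ j) (2 ^ i) M) w y| +
      (12 * m + 1) ^ 2 * (ph R + 2) := by
    simp only [hd, sum_add_distrib, sum_const, nsmul_eq_mul, card_box]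
    push_cast
    ring
  rw [t5] at t4
  have t6 := sum_le_sum key
  have t7 := mul_le_mul_of_nonneg_left t4 (by positivity : 0 ≤ CE * ((2 : ℝ) ^ J) ^ 2)
  simp only [sum_add_distrib, mul_add, ← mul_sum, sum_const, nsmul_eq_mul, Nat.card_Ico,
    show 2 * m - m = m by omega] at t6
  rw [e4]
  refine fin hδ hCT (by linarith) hCE (sum_nonneg fun _ _ => abs_nonneg _) (by linarith) hN hR'
    (ph_nonneg R) he f1 f2 f3 f4 hS5 ?_
  linarith

end Pool.Agent.MP_151d89_pr.H58
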