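import Pool.Agent.MP_151d89_pr.H58.Spec3

/-! Basic properties of the folding. -/

set_option autoImplicit false
open MeasureTheory Finset Filter

namespace Pool.Agent.MP_151d89_pr.H58
open Pool.Agent.MP_151d89_pr.H82 Pool.Agent.MP_151d89_pr.H33 Pool.Agent.MP_151d89_pr.H67
  Pool.Agent.MP_151d89_pr.H30
open Classical

namespace Fold1P

variable {Λ : Finset (ℤ × ℤ)} {h : Conf} {k k' : ℤ} {y p q : ℤ × ℤ}

theorem con_le (c : Con Λ h k y) : k ≤ h y := by
  obtain ⟨y₀, -, h1, h2⟩ := c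
  rcases h2.cases_tail with rfl | ⟨_, -, -, e⟩
  exacts [h1, e]

theorem con_mono (e : k' ≤ k) (c : Con Λ h k y) : Con Λ h k' y := by
  obtain ⟨y₀, h0, h1, h2⟩ := c
  exact ⟨y₀, h0, e.trans h1, Relation.ReflTransGen.mono (fun _ _ a => ⟨a.1, e.trans a.2⟩) _ _ h2⟩

theorem con_step (c : Con Λ h k p) (e : dist1 p q = 1) (l : k ≤ h q) : Con Λ h k q := by
  obtain ⟨y₀, h0, h1, h2⟩ := c
  exact ⟨y₀, h0, h1, h2.tail ⟨e, l⟩⟩

theorem con_path (d : Bool) (l : ℕ) (h0 : pt d y l ∉ Λ) (h1 : ∀ t : ℕ, t ≤ l → k ≤ h (pt d y t)) :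
    Con Λ h k y := by
  have : ∀ s t : ℕ, s + t = l → Con Λ h k (pt d y t) := fun s => by
    induction s with
    | zero =>
      rintro t rfl
      rw [zero_add] at h0 h1
      exact ⟨_, h0, h1 t le_rfl, .refl⟩
    | succ s ih =>
      refine fun t e => con_step (ih (t + 1) (by omega)) ?_ (h1 t (by omega))
      cases d <;> simp [dist1, pt, dir]
  simpa [pt] using this l 0 rfl

theorem con_iff : Con Λ h k y ↔ k ≤ TT Λ h y := by
  have bd : BddAbove {k | Con Λ h k y} := ⟨h y, fun _ c => con_le c⟩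
  refine ⟨fun c => le_csSup bd c, fun e => con_mono e (Int.csSup_mem ?_ bd)⟩
  obtain ⟨l, hl⟩ := (Λ.finite_toSet.preimage (f := fun l : ℕ => pt true y l) fun s _ t _ e => by
    simpa [pt, dir] using e).exists_notMem
  obtain ⟨m, hm⟩ := ((range (l + 1)).finite_toSet.image fun t : ℕ => h (pt true y t)).bddBelow
  exact ⟨m, con_path true l hl fun t ht => hm ⟨t, by simpa using Nat.lt_succ_of_le ht, rfl⟩⟩

theorem TT_le : TT Λ h y ≤ h y := con_le (con_iff.2 le_rfl)

theorem TT_step (e : dist1 p q = 1) : min (TT Λ h p) (h q) ≤ TT Λ h q :=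
  con_iff.1 (con_step (con_iff.2 (min_le_left _ _)) e (min_le_right _ _))

theorem fld_step {w : ℤ → ℤ} (hw : ∀ k, |w k - w (k - 1)| = 1) (e : dist1 p q = 1)
    (l : |h p - h q| ≤ 1) : |fld Λ w h p - fld Λ w h q| = |h p - h q| := by
  have key : ∀ p q, dist1 q p = 1 → h q ≤ h p + 1 → TT Λ h p < TT Λ h q →
      |fld Λ w h q - fld Λ w h p| = |h q - h p| := fun p q e l lt => by
    have h1 := TT_step (Λ := Λ) (h := h) e
    have h2 := TT_le (Λ := Λ) (h := h) (y := p)
    have h3 := TT_le (Λ := Λ) (h := h) (y := q)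
    have h4 : h p = h q - 1 := by omega
    simp only [fld, show TT Λ h p = h p by omega, show TT Λ h q = h q by omega, sub_self, mul_zero,
      add_zero]
    rw [h4, hw]
    simp
  rw [abs_le] at l
  rcases lt_trichotomy (TT Λ h p) (TT Λ h q) with c | c | c
  · rw [abs_sub_comm, abs_sub_comm (h p)]
    exact key p q (by rw [← e, dist1, dist1, abs_sub_comm, abs_sub_comm q.2]) (by omega) c
  · rw [← one_mul |h p - h q|, ← hw (TT Λ h q), ← abs_mul]
    simp only [fld, c]
    congr 1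
    ring
  · exact key q p e (by omega) c

end Fold1P

open Fold1P in
theorem fold1_row : Fold1Stmt := by
  intro Λ a b ha hb par
  refine ⟨fun _ _ => con_iff, fun _ => TT_le,
    fun y hy => le_antisymm TT_le (con_iff.1 ⟨y, hy, le_rfl, .refl⟩),
    fun y d l k h0 h1 => con_iff.1 (con_path d l h0 h1), fun w hw => ⟨?_, ?_⟩⟩ <;>
  · intro p q e
    have h1 := ha p q e
    have h2 := hb p q e
    have h3 := par p
    have h4 := par q
    rw [abs_eq (by norm_num)] at h1 h2 ⊢
    have h5 := fld_step (Λ := Λ) (h := hf a b) hw e (by rw [abs_le, hf, hf]; omega)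
    rw [abs_eq_abs] at h5
    simp only [mA, mB]
    generalize fld Λ w (hf a b) p = s at *
    generalize fld Λ w (hf a b) q = t at *
    simp only [hf] at h5
    omega

end Pool.Agent.MP_151d89_pr.H58
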