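import Pool.Agent.MP_151d89_pr.H58.Spec3

/-!
The folding is injective.
-/

set_option autoImplicit false
open MeasureTheory Finset Filter

namespace Pool.Agent.MP_151d89_pr.H58
open Pool.Agent.MP_151d89_pr.H82 Pool.Agent.MP_151d89_pr.H33 Pool.Agent.MP_151d89_pr.H67
  Pool.Agent.MP_151d89_pr.H30
open Classical

namespace Fold2P

theorem step {Λ : Finset (ℤ × ℤ)} {w : ℤ → ℤ} {h h' : Conf} {k : ℤ}
    (hw : ∀ k, |w k - w (k - 1)| = 1) (c : ∀ y k, Con Λ h k y ↔ k ≤ TT Λ h y)
    (c' : ∀ y k, Con Λ h' k y ↔ k ≤ TT Λ h' y) (t' : ∀ y, TT Λ h' y ≤ h' y)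
    (l : ∀ p q, dist1 p q = 1 → h' p ≤ h' q + 1) (o : ∀ y, y ∉ Λ → h y = h' y)
    (F : ∀ y, fld Λ w h y = fld Λ w h' y)
    (Q : ∀ y, k + 1 ≤ TT Λ h y ∨ k + 1 ≤ TT Λ h' y → TT Λ h y = TT Λ h' y) (y : ℤ × ℤ)
    (hy : k ≤ TT Λ h y) : k ≤ TT Λ h' y := by
  obtain ⟨z, z1, z2, r⟩ := (c y k).2 hy
  clear hy
  induction r with
  | refl => exact (c' z k).1 ⟨z, z1, o z z1 ▸ z2, .refl⟩
  | @tail p q r s ih =>
    have a1 := (c q k).1 ⟨z, z1, z2, r.tail s⟩
    have a2 : ∀ j ≤ k, j ≤ h' q → j ≤ TT Λ h' q := fun j hj e => by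
      obtain ⟨x, x1, x2, u⟩ := (c' p j).2 (hj.trans ih)
      exact (c' q j).1 ⟨x, x1, x2, u.tail ⟨s.1, e⟩⟩
    have a3 := l p q s.1
    have a4 := t' p
    have a5 := t' q
    have a6 := Q q
    by_contra n
    have a7 := a2 (k - 1) (by omega) (by omega)
    have a8 := mt (a2 k le_rfl) n
    have e := F q
    rw [fld, fld, show TT Λ h q = k by omega, show TT Λ h' q = k - 1 by omega,
      show h' q = k - 1 by omega] at e
    have : (w k - w (k - 1)) * (h q - k + 1) = 0 := by linear_combination e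
    have a9 := hw k
    have := s.2
    rcases mul_eq_zero.1 ‹_ = (0 : ℤ)› with e | e
    · simp [e] at a9
    · omega

theorem lip {a b : Conf} (ha : Hom a) (hb : Hom b) (p q : ℤ × ℤ) (e : dist1 p q = 1) :
    hf a b p ≤ hf a b q + 1 := by
  have h1 := ha p q e
  have h2 := hb p q e
  rw [abs_eq (by norm_num)] at h1 h2
  unfold hf
  omega

end Fold2P

open Fold2P in
theorem fold2_row (h : Fold1Stmt) : Fold2Stmt := by
  intro Λ g g' a b a' b' w hg hw ha hb ha' hb' eA eB
  have p := par_FS hg ha hb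
  have p' := par_FS hg ha' hb'
  rw [mem_FS] at ha hb ha' hb'
  obtain ⟨c, t, o, -⟩ := h Λ a b ha.1 hb.1 p
  obtain ⟨c', t', o', -⟩ := h Λ a' b' ha'.1 hb'.1 p'
  have e : ∀ y, (a y + b y) / 2 = (a' y + b' y) / 2 ∧
      fld Λ w (hf a b) y = fld Λ w (hf a' b') y := fun y => by
    have h1 := congrFun eA y
    have h2 := congrFun eB y
    unfold mA at h1
    unfold mB at h2
    omega
  have u : ∀ y, y ∉ Λ → hf a b y = hf a' b' y := fun y hy => by
    simp only [hf, ha.2 y hy, hb.2 y hy, ha'.2 y hy, hb'.2 y hy]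
  obtain ⟨K, hK⟩ := (Λ.finite_toSet.image fun y => max (hf a b y) (hf a' b' y)).bddAbove
  have Q : ∀ k ≤ K + 1, ∀ y, k ≤ TT Λ (hf a b) y ∨ k ≤ TT Λ (hf a' b') y →
      TT Λ (hf a b) y = TT Λ (hf a' b') y := fun k hk => by
    induction k, hk using Int.leInductionDown with
    | base =>
      intro y hy
      have n : y ∉ Λ := fun n => by
        have := max_le_iff.1 (hK ⟨y, n, rfl⟩)
        have := t y
        have := t' y
        omega
      rw [o y n, o' y n, u y n]
    | pred k _ ih =>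
      intro y hy
      rw [← sub_add_cancel k 1] at ih
      have h1 := step hw c c' t' (lip ha'.1 hb'.1) u (fun y => (e y).2) ih y
      have h2 := step hw c' c t (lip ha.1 hb.1) (fun y n => (u y n).symm) (fun y => (e y).2.symm)
        (fun y n => (ih y n.symm).symm) y
      have := ih y
      omega
  have f : ∀ y, a y = a' y ∧ b y = b' y := fun y => by
    obtain ⟨e1, e2⟩ := e y
    rw [fld, fld, Q _ (min_le_left _ _) y (.inl (min_le_right _ _)), add_right_inj,
      mul_right_inj' fun n => by simpa [n] using hw (TT Λ (hf a' b') y), sub_left_inj] at e2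
    have := p y
    have := p' y
    unfold hf at e2
    omega
  exact ⟨funext fun y => (f y).1, funext fun y => (f y).2⟩

end Pool.Agent.MP_151d89_pr.H58
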