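import Pool.Agent.MP_151d89_pr.H58.Spec3

/-!
The folded function is small and has no almost frozen segments.
-/

set_option autoImplicit false
open MeasureTheory Finset Filter

namespace Pool.Agent.MP_151d89_pr.H58
open Pool.Agent.MP_151d89_pr.H82 Pool.Agent.MP_151d89_pr.H33 Pool.Agent.MP_151d89_pr.H67
  Pool.Agent.MP_151d89_pr.H30
open Classical

namespace Fold3P

theorem dist_pt (d : Bool) (y : ℤ × ℤ) (t : ℕ) : dist1 y (pt d y t) = t := by
  cases d <;> simp [dist1, pt, dir]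

theorem inc {u : ℝ × ℝ} {A : ℝ} {n : ℕ} {f : Conf} (h : Str u 0 A 0 n f) {d : Bool} {y : ℤ × ℤ}
    {t : ℕ} (h1 : y ∈ box 0 (n + 1)) (h2 : pt d y t ∈ box 0 (n + 1)) :
    |((f (pt d y t) : ℝ) - f y) - crd d u * t| ≤ A * (√t + 1) := by
  have := h y h1 _ h2
  rwa [dist_pt, pl_pt, add_sub_cancel_left, zero_add, Int.cast_natCast] at this

theorem half {m : ℤ} (h : m % 2 = 0) : ((m / 2 : ℤ) : ℝ) = m / 2 := by
  obtain ⟨k, rfl⟩ := Int.dvd_of_emod_eq_zero h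
  simp

theorem amgm (A t : ℝ) {c : ℝ} (hc : 0 < c) (ht : 0 ≤ t) : A * √t ≤ c * t + A ^ 2 / c / 4 := by
  have h1 := Real.sq_sqrt ht
  have h2 : A ^ 2 / c * c = A ^ 2 := div_mul_cancel₀ _ hc.ne'
  refine le_of_mul_le_mul_left ?_ hc
  have h3 : c ^ 2 * √t ^ 2 = c ^ 2 * t := by rw [h1]
  nlinarith [sq_nonneg (2 * c * √t - A)]

theorem out (d : Bool) {y : ℤ × ℤ} {n : ℕ} (h : y ∈ box 0 n) :
    ∃ l : ℕ, pt d y l ∉ box 0 n ∧ ∀ t : ℕ, t ≤ l → pt d y t ∈ box 0 (n + 1) := by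
  cases d
  · refine ⟨(n + 1 - y.2).toNat, ?_, fun t ht => ?_⟩ <;> simp [mem_box, pt, dir] at * <;> omega
  · refine ⟨(n + 1 - y.1).toNat, ?_, fun t ht => ?_⟩ <;> simp [mem_box, pt, dir] at * <;> omega

theorem up {y : ℤ × ℤ} {n : ℕ} (h : y ∈ box 0 n) : y ∈ box 0 (n + 1) := by
  rw [mem_box] at *
  omega

theorem crd_sub (d : Bool) (u v : ℝ × ℝ) : crd d (u - v) = crd d u - crd d v := by
  cases d <;> rfl

theorem crd_abs {δ : ℝ} {u : ℝ × ℝ} (h : Sl δ u) (d : Bool) : |crd d u| ≤ 1 - δ := by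
  cases d
  · exact h.2
  · exact h.1

end Fold3P

open Fold3P in
theorem fold3_row (h : Fold1Stmt) : Fold3Stmt := by
  intro δ β A u v d n a b hδ hδ1 hβ hβ1 hA hu hv hd ha hb hp sa sb
  obtain ⟨-, f2, -, f4, -⟩ := h (box 0 n) a b ha hb hp
  have e1 : ∀ y, (hf a b y : ℝ) = (a y - b y) / 2 := fun y => by
    rw [hf, half (hp y), Int.cast_sub]
  have e2 : ∀ y, (((a y + b y) / 2 : ℤ) : ℝ) = (a y + b y) / 2 := fun y => by
    rw [half (by have := hp y; omega), Int.cast_add]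
  have A1 : A ≤ A ^ 2 / β := by
    rw [le_div_iff₀ hβ]
    nlinarith
  have p1 : ∀ y ∈ box 0 n, (hf a b y : ℝ) - 2 * A ^ 2 / β ≤ TT (box 0 n) (hf a b) y := by
    intro y hy
    obtain ⟨l, l1, l2⟩ := out d hy
    refine Int.ceil_le.1 (f4 y d l _ l1 fun t ht => Int.ceil_le.2 ?_)
    have h1 := (abs_le.1 (inc sa (up hy) (l2 t ht))).1
    have h2 := (abs_le.1 (inc sb (up hy) (l2 t ht))).2
    have h3 := amgm A t hβ t.cast_nonneg
    have h4 := mul_le_mul_of_nonneg_right (hd.trans_eq (crd_sub d u v)) (t.cast_nonneg (α := ℝ))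
    rw [e1, e1, mul_div_assoc]
    linarith
  refine ⟨p1, fun U c x l hl => ?_⟩
  have p2 : ∀ y ∈ box 0 n, |(fld (box 0 n) (wk U) (hf a b) y : ℝ)| ≤ 3 * (A ^ 2 / β) := by
    intro y hy
    have h1 := p1 y hy
    have h2 : |fld (box 0 n) (wk U) (hf a b) y| ≤ 1 + (hf a b y - TT (box 0 n) (hf a b) y) := by
      refine (abs_add_le _ _).trans (add_le_add (wk_abs _ _) ?_)
      rw [abs_mul, wk_step, one_mul, abs_of_nonneg (sub_nonneg.2 (f2 y))]
    have h3 : |(fld (box 0 n) (wk U) (hf a b) y : ℝ)| ≤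
        1 + (hf a b y - TT (box 0 n) (hf a b) y) := by exact_mod_cast h2
    rw [mul_div_assoc] at h1
    linarith
  have x0 : x ∈ box 0 n := by simpa [pt] using hl 0 l.zero_le
  have xl : pt c x l ∈ box 0 n := hl l le_rfl
  have h1 := abs_le.1 (inc sa (up x0) (up xl))
  have h2 := abs_le.1 (inc sb (up x0) (up xl))
  have h3 := amgm A l (half_pos hδ) l.cast_nonneg
  have h4 := abs_le.1 (p2 _ x0)
  have h5 := abs_le.1 (p2 _ xl)
  have l0 : (0 : ℝ) ≤ l := l.cast_nonneg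
  have k : ∀ {w : ℝ × ℝ}, Sl δ w → |crd c w * l| ≤ (1 - δ) * l := fun hw => by
    rw [abs_mul, abs_of_nonneg l0]
    exact mul_le_mul_of_nonneg_right (crd_abs hw c) l0
  have h6 := abs_le.1 (k hu)
  have h7 := abs_le.1 (k hv)
  have X1 : A ^ 2 / β ≤ A ^ 2 / (β * δ) :=
    div_le_div_of_nonneg_left (sq_nonneg A) (mul_pos hβ hδ) (mul_le_of_le_one_right hβ.le hδ1)
  have X2 : A ^ 2 / δ ≤ A ^ 2 / (β * δ) :=
    div_le_div_of_nonneg_left (sq_nonneg A) (mul_pos hβ hδ) (mul_le_of_le_one_left hδ.le hβ1)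
  have X3 : A ^ 2 / (δ / 2) = 2 * (A ^ 2 / δ) := by ring
  simp only [mA, Int.cast_add, e2]
  rw [mul_div_assoc, abs_le]
  constructor <;> linarith

end Pool.Agent.MP_151d89_pr.H58
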