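import Pool.Agent.MP_151d89_pr.H58.Spec3

/-!
The second moment of the average of the folded function over a box.
-/

set_option autoImplicit false
open MeasureTheory Finset Filter

namespace Pool.Agent.MP_151d89_pr.H58
open Pool.Agent.MP_151d89_pr.H82 Pool.Agent.MP_151d89_pr.H33 Pool.Agent.MP_151d89_pr.H67
  Pool.Agent.MP_151d89_pr.H30
open Classical

namespace Fold4P

/-- a coordinate of a site -/
def co : Bool → ℤ × ℤ → ℤ
  | true, y => y.1
  | false, y => y.2

theorem eq_pt (d : Bool) {y y' : ℤ × ℤ} (h : co (!d) y = co (!d) y') :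
    y' = pt d y (co d y' - co d y) := by
  cases d <;> simp only [co, Bool.not_true, Bool.not_false] at h <;> ext <;> simp [pt, dir, co, h]

theorem dist_pt (d : Bool) (y : ℤ × ℤ) (l : ℕ) : dist1 y (pt d y l) = l := by
  cases d <;> simp [pt, dir, dist1]

theorem co_mem (d : Bool) {x y : ℤ × ℤ} {K : ℕ} (h : y ∈ box x K) :
    co d y ∈ Icc (co d x - K) (co d x + K) := by
  rw [mem_box] at h
  cases d <;> simp only [co, mem_Icc] <;> omega

theorem count (d : Bool) (x : ℤ × ℤ) (K : ℕ) (S : Finset (ℤ × ℤ)) (L : ℝ) (hL : 0 ≤ L)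
    (hS : S ⊆ box x K) (h : ∀ y ∈ S, ∀ l : ℕ, pt d y l ∈ S → (l : ℝ) ≤ L) :
    (S.card : ℝ) ≤ (L + 1) * (2 * K + 1) := by
  have h1 := card_le_mul_card_image_of_maps_to (f := co (!d)) (s := S)
    (fun y hy => co_mem (!d) (hS hy)) (⌊L⌋₊ + 1) fun c _ => by
      rcases (S.filter fun y => co (!d) y = c).eq_empty_or_nonempty with he | hne
      · rw [he]
        exact Nat.zero_le _
      obtain ⟨y0, h0, hm⟩ := exists_min_image _ (co d) hne
      have e : ∀ y ∈ S.filter fun y => co (!d) y = c,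
          y = pt d y0 ((co d y - co d y0).toNat : ℕ) := fun y hy => by
        rw [Int.toNat_of_nonneg (sub_nonneg.2 (hm y hy))]
        exact eq_pt d ((mem_filter.1 h0).2.trans (mem_filter.1 hy).2.symm)
      rw [← card_range (⌊L⌋₊ + 1)]
      refine card_le_card_of_injOn (fun y => (co d y - co d y0).toNat) (fun y hy => ?_)
        fun y hy y' hy' hh => ?_
      · exact mem_coe.2 (mem_range.2 (Nat.lt_succ_of_le (Nat.le_floor
          (h y0 (mem_filter.1 h0).1 _ (e y hy ▸ (mem_filter.1 hy).1)))))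
      · rw [e y hy, e y' hy', show (co d y - co d y0).toNat = (co d y' - co d y0).toNat from hh]
  rw [Int.card_Icc, show (co (!d) x + K + 1 - (co (!d) x - K)).toNat = 2 * K + 1 by omega] at h1
  have h2 : (S.card : ℝ) ≤ (⌊L⌋₊ + 1) * (2 * K + 1) := by exact_mod_cast h1
  exact h2.trans (mul_le_mul_of_nonneg_right (by linarith [Nat.floor_le hL]) (by positivity))

/-- the size of the folded function -/
def cc (T h : ℤ) : ℤ := if T % 2 = 0 then -(h - T) else 1 + h - T

theorem fold_eq (U : Finset ℤ) (T h : ℤ) : wk U T + (wk U T - wk U (T - 1)) * (h - T) =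
    (if (T - 1) / 2 ∈ U then 1 else -1) * cc T h := by
  unfold wk cc
  by_cases e : T % 2 = 0
  · rw [if_pos e, if_pos e, if_neg (by omega), show (T - 1 - 1) / 2 = (T - 1) / 2 by omega]
    ring
  · rw [if_neg e, if_neg e, if_pos (show (T - 1) % 2 = 0 by omega)]
    ring

theorem cc_abs {T h : ℤ} (e : T ≤ h) : |cc T h| ≤ 1 + h - T := by
  unfold cc
  rw [abs_le]
  split_ifs <;> omega

theorem len {β A l : ℝ} (hβ : 0 < β) (hβ1 : β ≤ 1) (hA : 1 ≤ A) (hl : 0 ≤ l)
    (h : β * l - A * (√l + 1) ≤ 3 * (A ^ 2 / β)) : l ≤ 9 * (A ^ 2 / β) / β := by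
  rw [le_div_iff₀ hβ]
  obtain ⟨B, hB⟩ : ∃ B, B = A ^ 2 / β := ⟨_, rfl⟩
  rw [← hB] at h ⊢
  have e : B * β = A ^ 2 := by rw [hB, div_mul_cancel₀ _ hβ.ne']
  have h0 : 0 ≤ B := by rw [hB]; positivity
  have h1 : A ≤ B := by nlinarith
  have h2 := Real.sq_sqrt hl
  have h3 : β * (2 * (A * √l)) ≤ β * (β * l + B) := by
    have h5 : β * (β * l + B) - β * (2 * (A * √l)) = (β * √l - A) ^ 2 := by
      linear_combination e - β ^ 2 * h2
    linarith [sq_nonneg (β * √l - A)]
  have h4 := le_of_mul_le_mul_left h3 hβ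
  linarith

end Fold4P

open Fold4P in
theorem fold4_row (h1 : Fold1Stmt) (h2 : RadStmt) : Fold4Stmt := by
  intro β A u v d n K x a b I hβ hβ1 hA hd ha hb hp sa sb hx hT hI
  have hle := (h1 (box 0 n) a b ha hb hp).2.1
  set h := hf a b with hh
  set T := TT (box 0 n) h with hT'
  obtain ⟨B, hB⟩ : ∃ B, B = A ^ 2 / β := ⟨_, rfl⟩
  have hB1 : 1 ≤ B := by
    rw [hB, le_div_iff₀ hβ]
    nlinarith
  have hT2 : ∀ y ∈ box x K, (h y : ℝ) - T y ≤ 2 * B := fun y hy => by
    have := hT y (hx hy)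
    rw [mul_div_assoc, ← hB] at this
    linarith
  have hN : (0 : ℝ) < 2 * K + 1 := by positivity
  let F : ℤ → Finset (ℤ × ℤ) := fun i => (box x K).filter fun y => (T y - 1) / 2 = i
  let c : ℤ → ℝ := fun i => ∑ y ∈ F i, (cc (T y) (h y) : ℝ)
  have e1 : ∀ U : Finset ℤ, FF x K (mA (box 0 n) (wk U) a b) - FF x K (mB (box 0 n) (wk U) a b) =
      2 / (2 * K + 1) ^ 2 * ∑ i ∈ I, (if i ∈ U then 1 else -1) * c i := fun U => by
    have e : ∑ i ∈ I, (if i ∈ U then 1 else -1) * c i =
        ∑ y ∈ box x K, (fld (box 0 n) (wk U) h y : ℝ) := by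
      rw [← sum_fiberwise_of_maps_to hI]
      refine sum_congr rfl fun i _ => ?_
      rw [mul_sum]
      refine sum_congr rfl fun y hy => ?_
      rw [fld, fold_eq, (mem_filter.1 hy).2]
      push_cast
      rfl
    rw [e, FF, FF, ← sub_div, ← sum_sub_distrib, div_mul_eq_mul_div, mul_sum]
    congr 1
    refine sum_congr rfl fun y _ => ?_
    simp only [mA, mB]
    push_cast
    ring
  have hcard : ∀ i, ((F i).card : ℝ) ≤ 10 * B / β * (2 * K + 1) := fun i => by
    have hBβ : 1 ≤ B / β := by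
      rw [le_div_iff₀ hβ]
      linarith
    refine (count d x K (F i) (9 * B / β) (by positivity) (filter_subset _ _)
      fun y hy l hl => ?_).trans (mul_le_mul_of_nonneg_right ?_ hN.le)
    · obtain ⟨y1, y2⟩ := mem_filter.1 hy
      obtain ⟨z1, z2⟩ := mem_filter.1 hl
      have m1 := box_mono (Nat.le_succ n) (hx y1)
      have m2 := box_mono (Nat.le_succ n) (hx z1)
      have a1 := (abs_le.1 (sa _ m1 _ m2)).1
      have b1 := (abs_le.1 (sb _ m1 _ m2)).2
      rw [dist_pt, pl_pt] at a1 b1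
      have c1 : crd d (u - v) = crd d u - crd d v := by cases d <;> rfl
      have p : ∀ z, (a z : ℝ) - b z = 2 * h z := fun z => by
        have := hp z
        have e : a z - b z = 2 * h z := by
          rw [hh, hf]
          omega
        exact_mod_cast e
      have t1 : (T (pt d y l) : ℝ) ≤ T y + 1 := by
        have : T (pt d y l) ≤ T y + 1 := by omega
        exact_mod_cast this
      have t2 : (T y : ℝ) ≤ h y := by exact_mod_cast hle y
      have t3 := hT2 _ z1
      have t4 := mul_le_mul_of_nonneg_right hd (Nat.cast_nonneg l : (0 : ℝ) ≤ l)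
      rw [hB]
      refine len hβ hβ1 hA (Nat.cast_nonneg l) ?_
      rw [← hB]
      rw [c1] at t4
      push_cast at a1 b1
      linarith [p y, p (pt d y l)]
    · rw [mul_div_assoc, mul_div_assoc]
      linarith
  have hc : ∀ i, |c i| ≤ (F i).card * (3 * B) := fun i => by
    refine (abs_sum_le_sum_abs _ _).trans ((sum_le_card_nsmul _ _ (3 * B) fun y hy => ?_).trans
      (by rw [nsmul_eq_mul]))
    have a1 : (|(cc (T y) (h y) : ℝ)|) ≤ 1 + h y - T y := by exact_mod_cast cc_abs (hle y)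
    linarith [hT2 y (mem_filter.1 hy).1]
  have hs : ∑ i ∈ I, c i ^ 2 ≤ 10 * B / β * (2 * K + 1) * (3 * B) ^ 2 * (2 * K + 1) ^ 2 := by
    have e : ∑ i ∈ I, ((F i).card : ℝ) = (2 * K + 1) ^ 2 := by
      rw [← Nat.cast_sum, ← card_eq_sum_card_fiberwise hI, card_box]
      push_cast
      rfl
    rw [← e, mul_sum]
    refine sum_le_sum fun i _ => ?_
    calc c i ^ 2 ≤ ((F i).card * (3 * B)) ^ 2 := sq_le_sq' (abs_le.1 (hc i)).1 (abs_le.1 (hc i)).2
      _ = (F i).card * (3 * B) ^ 2 * (F i).card := by ring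
      _ ≤ _ := by gcongr; exact hcard i
  simp only [e1, mul_pow]
  rw [← mul_sum, h2, mul_left_comm]
  refine mul_le_mul_of_nonneg_left ?_ (by positivity)
  calc _ ≤ (2 / (2 * K + 1) ^ 2) ^ 2 *
        (10 * B / β * (2 * K + 1) * (3 * B) ^ 2 * (2 * K + 1) ^ 2) := by gcongr
    _ = 360 * A ^ 6 / (β ^ 4 * (2 * K + 1)) := by
      rw [hB]
      field_simp
      ring
    _ ≤ _ := by gcongr; norm_num

end Pool.Agent.MP_151d89_pr.H58
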