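import Pool.Agent.MP_151d89_pr.H58.Spec3

/-! Strict concavity at one scale. -/

set_option autoImplicit false
open MeasureTheory Finset Filter

namespace Pool.Agent.MP_151d89_pr.H58
open Pool.Agent.MP_151d89_pr.H82 Pool.Agent.MP_151d89_pr.H33 Pool.Agent.MP_151d89_pr.H67
  Pool.Agent.MP_151d89_pr.H30
open Classical

namespace GainP

theorem ev (C : ℝ) (hC : 0 ≤ C) (M : ℕ) : ∃ m₀ : ℕ, ∀ m ≥ m₀, 1 ≤ m ∧
    C * ((((2 * m : ℕ) : ℝ) + 1) ^ M * (lg (2 ^ (25 * m) - 1) ^ 2 / (1 / 2 ^ m))) ^ 4 ≤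
      (2 ^ (5 * m) : ℕ) := by
  have h := (tendsto_pow_const_div_const_pow_of_one_lt (M * 4 + 8) (one_lt_two (α := ℝ))).const_mul
    (C * 26 ^ (M * 4 + 8))
  rw [mul_zero] at h
  refine eventually_atTop.1 (((eventually_ge_atTop 1).and
    (h.eventually (eventually_le_nhds one_pos))).mono fun m ⟨h1, h2⟩ => ⟨h1, ?_⟩)
  have h3 : (1 : ℝ) ≤ m := by exact_mod_cast h1
  have h4 : lg (2 ^ (25 * m) - 1) ≤ 26 * m := (lg_le (Nat.sub_le _ _)).trans (by push_cast; linarith)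
  have h5 := @one_le_lg (2 ^ (25 * m) - 1)
  rw [← mul_div_assoc, div_le_one (by positivity)] at h2
  calc _ ≤ C * (((26 : ℝ) * m) ^ M * ((26 * m) ^ 2 / (1 / 2 ^ m))) ^ 4 := by
        gcongr
        push_cast
        linarith
    _ = C * 26 ^ (M * 4 + 8) * (m : ℝ) ^ (M * 4 + 8) * 2 ^ (4 * m) := by
        rw [div_div_eq_mul_div, div_one]
        ring
    _ ≤ 2 ^ m * 2 ^ (4 * m) := by gcongr
    _ = _ := by
        push_cast
        ring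

theorem fit (p : ℕ) : (22 * 2 ^ (5 * (p + 1)) + 1) * (2 ^ (20 * p + 15) - 1) +
    11 * 2 ^ (5 * (p + 1)) ≤ 2 ^ (25 * (p + 1)) - 1 := by
  have e : 2 ^ (25 * (p + 1)) = 32 * 2 ^ (5 * (p + 1)) * 2 ^ (20 * p + 15) := by ring
  obtain ⟨H, hH⟩ := Nat.exists_eq_add_of_le' (@Nat.one_le_two_pow (20 * p + 15))
  have := @Nat.one_le_two_pow (5 * (p + 1))
  rw [e, hH, Nat.add_sub_cancel]
  exact Nat.le_sub_one_of_lt (by nlinarith)

theorem md_comm (u v : ℝ × ℝ) : md u v = md v u := by simp [md, add_comm]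

theorem side {u v : ℝ × ℝ} {b : ℝ} (h : b ≤ nm (u - v)) :
    (∃ d, b ≤ crd d (u - v)) ∨ ∃ d, b ≤ crd d (v - u) := by
  rcases le_max_iff.1 h with h | h <;> rcases le_abs.1 h with h | h
  exacts [.inl ⟨true, h⟩, .inr ⟨true, by simpa [crd] using h⟩, .inl ⟨false, h⟩,
    .inr ⟨false, by simpa [crd] using h⟩]

end GainP

open GainP in
theorem gain_row (h1 : BCoreStmt) (h2 : PoneStmt) : GainStmt := by
  intro δ h0 hδ
  obtain ⟨c, C, M, hc, hC, h1⟩ := h1 δ h0 hδ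
  obtain ⟨C', hC', h2⟩ := h2 δ h0
  obtain ⟨m₀, hm⟩ := ev C hC M
  refine ⟨c / 2 ^ 13, 1 + C', m₀, by positivity, by positivity, ?_⟩
  suffices H : ∀ (u v : ℝ × ℝ) (m : ℕ), m₀ ≤ m → Sl δ u → Sl δ v →
      (∃ d, 2 / 2 ^ m ≤ crd d (u - v)) →
      (zz (25 * m) u + zz (25 * m) v) / 2 + c / 2 ^ 13 / 2 ^ (10 * m) ≤
        zz (25 * m) (md u v) + (1 + C') * (3 / 4) ^ (25 * m) from fun u v m e hu hv h =>
    (side h).elim (H u v m e hu hv) fun h => by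
      rw [md_comm, add_comm (zz _ u)]
      exact H v u m e hv hu h
  rintro u v m e hu hv ⟨d, hd⟩
  obtain ⟨h3, h4⟩ := hm m e
  obtain ⟨p, rfl⟩ := Nat.exists_eq_add_of_le' h3
  obtain ⟨g, g', hg, hg', r, r', h5⟩ := h1 (1 / 2 ^ (p + 1)) u v d _ _ (2 * (p + 1)) _ hu hv
    (by positivity) ((div_le_one (by positivity)).2 (one_le_pow₀ one_le_two))
    (by rwa [mul_one_div]) Nat.one_le_two_pow
    (by rw [pow_mul, pow_mul]; exact Nat.pow_le_pow_left (by norm_num) _) (fit p) h4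
  rw [Nat.sub_add_cancel Nat.one_le_two_pow] at r r'
  have a := (abs_le.1 (h2 _ _ _ _ _ _ (sl_md hu hv) hg r)).2
  have a' := (abs_le.1 (h2 _ _ _ _ _ _ (sl_md hu hv) hg' r')).2
  have e1 : ∀ w, lz (box 0 (2 ^ (25 * (p + 1)) - 1)) (pc w) =
      4 ^ (25 * (p + 1) + 1) * zz (25 * (p + 1)) w := fun w => by
    rw [zz, mul_div_cancel₀ _ (by positivity)]
  have e2 : (4 : ℝ) ^ (25 * (p + 1) + 1) * (3 / 4) ^ (25 * (p + 1)) = 4 * 3 ^ (25 * (p + 1)) := by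
    rw [div_pow, pow_succ]
    field_simp
  have e3 : (4 : ℝ) ^ (25 * (p + 1) + 1) * (c / 2 ^ 13 / 2 ^ (10 * (p + 1))) =
      c * (2 ^ (20 * p + 15)) ^ 2 / 2 := by
    rw [show (4 : ℝ) = 2 ^ 2 by norm_num, ← pow_mul]
    field_simp
    ring
  have b1 : (2 : ℝ) ^ (25 * (p + 1)) ≤ 3 ^ (25 * (p + 1)) := by gcongr; norm_num
  have b2 : (1 : ℝ) ≤ 3 ^ (25 * (p + 1)) := one_le_pow₀ (by norm_num)
  have b3 : c * ((2 : ℝ) ^ (20 * p + 15)) ^ 2 ≤ c * (2 * (2 ^ (20 * p + 15) - 1 : ℕ) + 1) ^ 2 := by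
    have : (1 : ℝ) ≤ 2 ^ (20 * p + 15) := one_le_pow₀ one_le_two
    gcongr
    rw [Nat.cast_sub Nat.one_le_two_pow]
    push_cast
    linarith
  rw [e1, e1] at h5
  refine le_of_mul_le_mul_left ?_ (show (0 : ℝ) < 4 ^ (25 * (p + 1) + 1) by positivity)
  rw [mul_add (4 ^ _ : ℝ), mul_add (4 ^ _ : ℝ), e3, mul_left_comm, e2]
  linarith [mul_le_mul_of_nonneg_left b1 hC']

end Pool.Agent.MP_151d89_pr.H58
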