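import Pool.Agent.MP_151d89_pr.H58.Spec3

/-! Halving the scale. -/

set_option autoImplicit false
open MeasureTheory Finset Filter

namespace Pool.Agent.MP_151d89_pr.H58
open Pool.Agent.MP_151d89_pr.H82 Pool.Agent.MP_151d89_pr.H33 Pool.Agent.MP_151d89_pr.H67
  Pool.Agent.MP_151d89_pr.H30
open Classical

namespace HalfP

theorem pt_add (b : Bool) (y z : ℤ × ℤ) (t : ℤ) : pt b y t + z = pt b (y + z) t := by
  cases b <;> simp [pt, dir, Prod.ext_iff] <;> ring

end HalfP

open HalfP in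
theorem half_row (h1 : OneStmt) (h2 : ParStmt) : HalfStmt := by
  intro δ hδ hδ1
  obtain ⟨C, p₀, hC, hO⟩ := h1 (δ / 2) (by positivity) (by linarith)
  obtain ⟨p₁, -, hP⟩ := h2 (2 / δ + 3)
  refine ⟨C + 1, max p₀ p₁, by positivity, fun i p f z b A hp hi hf hD hA hI => ?_⟩
  obtain ⟨-, hφ, -⟩ := hP i p ((le_max_right _ _).trans hp) hi
  have hO' := fun g A => hO i p g b A ((le_max_left _ _).trans hp) hi
  generalize 56 * 2 ^ (i + 110 * p) = R at hD hI hφ hO'
  have φ0 := ph_nonneg R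
  have q1 : (2 : ℝ) ^ i / 2 ^ p ≤ 2 ^ i := div_le_self (by positivity) (one_le_pow₀ one_le_two)
  have q2 : 0 ≤ 2 / δ * ph R := by positivity
  have q3 : 3 * ph R ≤ 2 ^ i / 2 ^ p := by linarith
  have q4 : 2 * ph R ≤ δ * 2 ^ i := by
    have e : 2 / δ * ph R ≤ 2 ^ i := by linarith
    rw [div_mul_eq_mul_div, div_le_iff₀ hδ] at e
    linarith
  have key : ∀ σ : ℤ, σ = 1 ∨ σ = -1 → (σ : ℝ) * (mn (box z R) f (pt b z (2 ^ i : ℕ)) -
      mn (box z R) f z) ≤ (A + 2 * ph R) / 2 + C * 2 ^ i / 2 ^ p := fun σ hσ => by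
    have e : ∀ y, mn (box 0 R) (tr (Equiv.addRight z) σ 0 f) y = σ * mn (box z R) f (y + z) :=
      fun y => by
        rw [mn_tr (iso_add z) hσ 0 (fun y => box_add0 z y R) hf]
        simp
    have := hO' (tr (Equiv.addRight z) σ 0 f) (A + 2 * ph R) (hom_tr (iso_add z) hσ 0 hf)
      (by linarith) (fun c x hx hx' => by
        have a1 := hI c (x + z) ((box_add0 z x R).1 hx) (by
          rw [← pt_add]; exact (box_add0 z _ R).1 hx')
        have a2 := abs_le.1 (hD (x + z))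
        have a3 := abs_le.1 (hD (pt c (x + z) (2 * 2 ^ i : ℕ)))
        rw [e, e, pt_add, abs_le] at *
        rcases hσ with rfl | rfl <;> push_cast at * <;> constructor <;> linarith [a1.1, a1.2])
    rw [e, e, pt_add, zero_add] at this
    linarith
  have k1 := key 1 (Or.inl rfl)
  have k2 := key (-1) (Or.inr rfl)
  have a2 := abs_le.1 (hD z)
  have a3 := abs_le.1 (hD (pt b z (2 ^ i : ℕ)))
  rw [abs_le, add_mul, add_div, one_mul]
  rw [Int.cast_one] at k1
  rw [Int.cast_neg, Int.cast_one] at k2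
  constructor <;> linarith [a2.1, a2.2, a3.1, a3.2]

end Pool.Agent.MP_151d89_pr.H58
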