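import Pool.Agent.MP_151d89_pr.H58.Spec3

/-! Concentration of increments. -/

set_option autoImplicit false
open MeasureTheory Finset Filter

namespace Pool.Agent.MP_151d89_pr.H58
open Pool.Agent.MP_151d89_pr.H82 Pool.Agent.MP_151d89_pr.H33 Pool.Agent.MP_151d89_pr.H67
  Pool.Agent.MP_151d89_pr.H30
open Classical

namespace IncrP

theorem cheb (Λ : Finset (ℤ × ℤ)) {g : Conf} (hg : Hom g) (x y : ℤ × ℤ) :
    1 - 1 / 4 ≤ av Λ (fun f => ind (|((f y : ℝ) - f x) - (mn Λ g y - mn Λ g x)| ≤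
      3 * √(dist1 x y))) g := by
  have h0 : (0 : ℝ) ≤ dist1 x y := by exact_mod_cast add_nonneg (abs_nonneg _) (abs_nonneg _)
  rcases h0.eq_or_lt with h | h
  · have e : x = y := by
      have : dist1 x y = 0 := by exact_mod_cast h.symm
      simp only [dist1, Int.abs_eq_natAbs] at this
      exact Prod.ext (by omega) (by omega)
    subst e
    rw [← av_const Λ (1 - 1 / 4) hg]
    exact av_le fun f _ => by rw [ind_pos (by simp)]; norm_num
  have h1 := av_var Λ hg y x
  have h2 := av_sq Λ (fun f => (f y : ℝ) - f x) 0 hg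
  have h3 : dist1 y x = dist1 x y := by simp only [dist1, abs_sub_comm]
  simp only [sub_zero, av_sub] at h1 h2
  rw [h3] at h1
  change _ = av Λ (fun f => ((f y : ℝ) - f x - (mn Λ g y - mn Λ g x)) ^ 2) g + _ at h2
  refine le_trans ?_ (av_le (φ := fun f => 1 - 1 / (9 * dist1 x y) *
    ((f y : ℝ) - f x - (mn Λ g y - mn Λ g x)) ^ 2) fun f _ => ?_)
  · rw [av_sub, av_const _ _ hg, av_smul, sub_le_sub_iff_left, one_div_mul_eq_div,
      div_le_iff₀ (by positivity)]
    linarith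
  · generalize (f y : ℝ) - f x - (mn Λ g y - mn Λ g x) = u
    by_cases e : |u| ≤ 3 * √(dist1 x y)
    · rw [ind_pos e, sub_le_self_iff]
      positivity
    · rw [ind_neg e, sub_nonpos, one_div_mul_eq_div, one_le_div (by positivity), ← sq_abs]
      nlinarith [Real.sq_sqrt h0, Real.sqrt_nonneg (dist1 x y : ℝ), not_le.1 e]

end IncrP

theorem incr_row (h : Tail3Stmt) : IncrStmt := by
  intro Λ g x y t hg ht
  have h1 : 1 ≤ ⌊t⌋₊ := Nat.le_floor (by simpa using ht)
  have h2 : (2 : ℝ) ^ Nat.log 2 ⌊t⌋₊ ≤ t := le_trans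
    (by exact_mod_cast Nat.pow_log_le_self 2 (by omega)) (Nat.floor_le (by linarith))
  have h3 : t < 2 ^ (Nat.log 2 ⌊t⌋₊ + 1) := (Nat.lt_floor_add_one t).trans_le
    (by exact_mod_cast Nat.lt_pow_succ_log_self one_lt_two _)
  generalize Nat.log 2 ⌊t⌋₊ = i at h2 h3
  have h4 := h Λ g _ _ _ _ i hg (mid_inc x y) (by positivity) (by norm_num) (IncrP.cheb Λ hg x y)
  refine (av_mono' fun f _ e => lt_of_le_of_lt ?_ e).trans (h4.trans ?_)
  · have := Real.sqrt_nonneg (dist1 x y : ℝ)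
    nlinarith
  · have h5 : (1 / 4 / (1 - 1 / 4) : ℝ) ≤ Real.exp (-1) := by
      rw [Real.exp_neg, le_inv_comm₀ (by norm_num) (Real.exp_pos 1)]
      linarith [Real.exp_one_lt_d9]
    refine mul_le_mul_of_nonneg_left ((pow_le_pow_left₀ (by norm_num) h5 _).trans ?_) two_pos.le
    rw [← Real.exp_nat_mul, Real.exp_le_exp]
    push_cast
    rw [pow_succ] at h3
    linarith

end Pool.Agent.MP_151d89_pr.H58
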