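import Pool.Agent.MP_151d89_pr.H58.Spec3
import Pool.Agent.MP_151d89_pr.H58.Surg
import Pool.Agent.MP_151d89_pr.H58.Loc2

/-!
Positive density of local maxima near a contracting profile.
-/

set_option autoImplicit false
open MeasureTheory Finset Filter

namespace Pool.Agent.MP_151d89_pr.H58
open Pool.Agent.MP_151d89_pr.H82 Pool.Agent.MP_151d89_pr.H33 Pool.Agent.MP_151d89_pr.H67
  Pool.Agent.MP_151d89_pr.H30
open Classical

namespace Loc3P

open SurgP in
/-- a local maximum can be created at a liquid site -/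
theorem surg (L : ℕ) (y : ℤ × ℤ) {f : Conf} (hf : Hom f) (hL : Liq L y f) :
    ∃ f' ∈ FS (box y L) f, Av (-1) (true, y, 0) f' := by
  have d1 : dist1 y (pt true y 1) = 1 := by simp [dist1, pt, dir]
  have d2 : dist1 y (pt true y (-1)) = 1 := by simp [dist1, pt, dir]
  have d3 : dist1 y (y + dir false) = 1 := by simp [dist1, dir]
  have d4 : dist1 y (y - dir false) = 1 := by simp [dist1, dir]
  have hs : |f y - (f y - 1)| = 1 := by simp
  obtain ⟨g1, a1, b1, c1, -⟩ := step hf hL (self_FS _ hf) rfl _ d1 (f y - 1) hs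
  obtain ⟨g2, a2, b2, c2, e2⟩ := step hf hL a1 b1 _ d2 (f y - 1) hs
  obtain ⟨g3, a3, b3, c3, e3⟩ := step hf hL a2 b2 _ d3 (f y - 1) hs
  obtain ⟨g4, a4, b4, c4, e4⟩ := step hf hL a3 b3 _ d4 (f y - 1) hs
  have k1 : g4 (pt true y 1) = g4 y - 1 := by
    rw [e4 _ d1 ?_, e3 _ d1 ?_, e2 _ d1 ?_, c1, b4] <;> simp [pt, dir, Prod.ext_iff]
  have k2 : g4 (pt true y (-1)) = g4 y - 1 := by
    rw [e4 _ d2 ?_, e3 _ d2 ?_, c2, b4] <;> simp [pt, dir, Prod.ext_iff]
  have k3 : g4 (y + dir false) = g4 y - 1 := by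
    rw [e4 _ d3 ?_, c3, b4]
    simp [dir, Prod.ext_iff]
    omega
  have k4 : g4 (y - dir false) = g4 y - 1 := by rw [c4, b4]
  refine ⟨g4, a4, fun t ht => ?_, k2, ?_, fun t ht => ?_⟩
  · obtain rfl : t = 0 := Nat.le_zero.1 ht
    simp [pt_zero]
  · simpa [sub_eq_add_neg] using k1
  · obtain rfl : t = 0 := Nat.le_zero.1 ht
    simpa [pt_zero, sub_eq_add_neg] using And.intro k3 k4

theorem site (L : ℕ) (y : ℤ × ℤ) {f : Conf} (hf : Hom f) :
    (1 / 2 ^ ((2 * L + 1) ^ 2) : ℝ) * ind (Liq L y f) ≤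
      av (box y L) (fun f => ind (Av (-1) (true, y, 0) f)) f := by
  by_cases h : Liq L y f
  · obtain ⟨f', h5, h6⟩ := surg L y hf h
    rw [ind_pos h, mul_one, H58.av_ind]
    have h7 : (1 : ℝ) ≤ ((FS (box y L) f).filter fun f => Av (-1) (true, y, 0) f).card := by
      exact_mod_cast Finset.card_pos.2 ⟨f', mem_filter.2 ⟨h5, h6⟩⟩
    have h8 : ((FS (box y L) f).card : ℝ) ≤ 2 ^ ((2 * L + 1) ^ 2) := by
      have := card_le (box y L) f
      rw [card_box] at this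
      exact_mod_cast this
    exact div_le_div₀ (Nat.cast_nonneg _) h7 (H67.card_pos _ hf) h8
  · rw [ind_neg h, mul_zero]
    exact av_nonneg (fun a => (ind_mem _).1) _

/-- from liquid sites to local maxima -/
theorem max_ge (L k : ℕ) (x : ℤ × ℤ) (g : Conf) : (1 / 2 ^ ((2 * L + 1) ^ 2) : ℝ) *
      av (box x (k + L)) (fun f => (num (box x k) fun y => Liq L y f : ℕ)) g ≤
      av (box x (k + L)) (fun f => (num (box x (k + L)) fun y => Av (-1) (true, y, 0) f : ℕ)) g := by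
  have hsub : box x k ⊆ box x (k + L) := fun y hy => by
    rw [mem_box] at hy ⊢
    push_cast
    omega
  refine le_trans ?_ (av_le fun a _ => LocP.num_mono hsub fun y => Av (-1) (true, y, 0) a)
  simp only [num_eq, av_sum, mul_sum]
  refine sum_le_sum fun y hy => ?_
  have h5 : box y L ⊆ box x (k + L) := fun z hz => by
    rw [mem_box] at hy hz ⊢
    push_cast
    omega
  rw [← av_tower h5 (fun f => ind (Av (-1) (true, y, 0) f)), ← av_smul]
  exact av_le fun a ha => site L y (mem_FS.1 ha).1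

end Loc3P

open LocP Loc3P in
theorem loc3_row (h1 : PredStmt) (h2 : CntStmt) (h3 : Low2Stmt) : Loc3Stmt := by
  intro δ hδ
  obtain ⟨κ, C, hκ, h3⟩ := h3 δ hδ
  obtain ⟨ε, hε, h1⟩ := err_ge h1 hκ
  obtain ⟨r, L, hr, hL, hrL⟩ := pick hε
  refine ⟨1 / 2 ^ ((2 * L + 1) ^ 2) * (ε / 4), |C| + 2 * L + 8 * L / ε, by positivity, ?_⟩
  intro a u x ρ g hu hg ha hC hB
  have p1 : (0 : ℝ) ≤ 8 * L / ε := by positivity
  have p2 : (0 : ℝ) ≤ 2 * L := by positivity
  have p3 := abs_nonneg C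
  have hC1 : C * (a + 1) ≤ ρ :=
    (mul_le_mul_of_nonneg_right (by linarith [le_abs_self C]) (by linarith)).trans hC
  have hC2 : |C| + 2 * L + 8 * L / ε ≤ ρ :=
    (le_mul_of_one_le_right (by linarith) (by linarith)).trans hC
  have q1 : (2 * L : ℝ) ≤ ρ := by linarith
  have q2 : (8 * L : ℝ) ≤ ρ * ε := (div_le_iff₀ hε).1 (by linarith)
  have hlow := h3 a u x ρ g hu hg ha hC1 hB
  have hN : ((box x ρ).card : ℝ) = (2 * ρ + 1) ^ 2 := by rw [card_box]; push_cast; ring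
  have e1 := h1 r (box x ρ) g hg (by rw [hN]; exact hlow)
  rw [hN] at e1
  obtain ⟨k, rfl⟩ : ∃ k, ρ = k + L := ⟨ρ - L, by
    have : 2 * L ≤ ρ := by exact_mod_cast q1
    omega⟩
  have hsub : box x k ⊆ box x (k + L) := fun y hy => by
    rw [mem_box] at hy ⊢
    push_cast
    omega
  have hk : ((box x k).card : ℝ) = (2 * k + 1) ^ 2 := by rw [card_box]; push_cast; ring
  have e2 : av (box x (k + L)) (fun f => (num (box x (k + L)) fun y => Err r y f : ℕ)) g ≤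
      av (box x (k + L)) (fun f => (num (box x k) fun y => Liq L y f : ℕ) +
        3 * ε / 4 * (2 * ((k + L : ℕ) : ℝ) + 1) ^ 2) g := by
    refine av_le fun f _ => ?_
    have a1 := h2 r L (k + L) x f hr hL
    have a2 := num_le hsub fun y => Liq L y f
    rw [hN, hk] at a2
    have k0 : (0 : ℝ) ≤ k := Nat.cast_nonneg _
    have L0 : (0 : ℝ) ≤ L := Nat.cast_nonneg _
    have a3 : (2 * (((k + L : ℕ) : ℝ) + 2 * L) + 1) ^ 2 ≤ 4 * (2 * ((k + L : ℕ) : ℝ) + 1) ^ 2 := by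
      have : 2 * (((k + L : ℕ) : ℝ) + 2 * L) + 1 ≤ 2 * (2 * ((k + L : ℕ) : ℝ) + 1) := by linarith
      calc _ ≤ (2 * (2 * ((k + L : ℕ) : ℝ) + 1)) ^ 2 := pow_le_pow_left₀ (by positivity) this 2
        _ = _ := by ring
    have a4 : (2 * (((k + L : ℕ) : ℝ) + 2 * L) + 1) ^ 2 * (1 / r + (r + 3) / L) ≤
        4 * (2 * ((k + L : ℕ) : ℝ) + 1) ^ 2 * (ε / 8) :=
      mul_le_mul a3 hrL (by positivity) (by positivity)
    have a5 : (2 * ((k + L : ℕ) : ℝ) + 1) ^ 2 - (2 * k + 1) ^ 2 ≤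
        ε / 4 * (2 * ((k + L : ℕ) : ℝ) + 1) ^ 2 := by
      have b1 : (2 * ((k + L : ℕ) : ℝ) + 1) ^ 2 - (2 * k + 1) ^ 2 ≤
          4 * L * (2 * ((k + L : ℕ) : ℝ) + 1) := by
        push_cast
        nlinarith [mul_nonneg L0 L0]
      have b2 : 4 * L ≤ ε / 4 * (2 * ((k + L : ℕ) : ℝ) + 1) := by nlinarith
      calc _ ≤ _ := b1
        _ ≤ ε / 4 * (2 * ((k + L : ℕ) : ℝ) + 1) * (2 * ((k + L : ℕ) : ℝ) + 1) :=
          mul_le_mul_of_nonneg_right b2 (by positivity)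
        _ = _ := by ring
    linarith
  rw [av_add, av_const _ _ hg] at e2
  refine le_trans ?_ (max_ge L k x g)
  rw [mul_assoc]
  refine mul_le_mul_of_nonneg_left ?_ (by positivity)
  linarith

end Pool.Agent.MP_151d89_pr.H58
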