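import Pool.Agent.MP_151d89_pr.H58.Spec3

/-!
The maximum principle for means.
-/

set_option autoImplicit false
open MeasureTheory Finset Filter

namespace Pool.Agent.MP_151d89_pr.H58
open Pool.Agent.MP_151d89_pr.H82 Pool.Agent.MP_151d89_pr.H33 Pool.Agent.MP_151d89_pr.H67
  Pool.Agent.MP_151d89_pr.H30
open Classical

namespace MPP

theorem loc {D : Finset (ℤ × ℤ)} {f f' : Conf} (hf : Hom f) (hf' : Hom f') {x : ℤ × ℤ}
    (hx : x ∈ D) (h : ∀ y, Bdy D y → f y = f' y) : mn D f x = mn D f' x := by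
  rw [mn, av_local (Δ := D ∪ (D.biUnion fun y => box y 1).filter (Bdy D)) (fun y hy =>
    ⟨mem_union_left _ hy, fun z hz => ?_⟩) _ hf' hf fun y hy => h y ?_]
  · exact av_eq (φ := fun b => (rep D b f x : ℝ)) fun b _ => by simp [rep, hx]
  · by_cases e : z ∈ D
    · exact mem_union_left _ e
    · refine mem_union_right _ (mem_filter.2 ⟨mem_biUnion.2 ⟨y, hy, mem_box.2 ?_⟩, e, y, hy, ?_⟩)
      · simp only [Int.abs_eq_natAbs] at hz
        omega
      · rwa [dist1, abs_sub_comm z.1, abs_sub_comm z.2]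
  · rw [Finset.mem_sdiff, Finset.mem_union] at hy
    exact (mem_filter.1 (hy.1.resolve_left hy.2)).2

theorem key {D : Finset (ℤ × ℤ)} {f f' : Conf} (hf : Hom f) (hf' : Hom f') {x : ℤ × ℤ}
    (hx : x ∈ D) {c : ℝ} (h : ∀ y, Bdy D y → (f y : ℝ) ≤ f' y + c) :
    mn D f x ≤ mn D f' x + c + 2 := by
  obtain ⟨k, k1, k2, k3⟩ : ∃ k : ℤ, ⌈c⌉ ≤ k ∧ k ≤ ⌈c⌉ + 1 ∧ (f x - (f' x + k)) % 2 = 0 := by
    by_cases e : (f x - (f' x + ⌈c⌉)) % 2 = 0
    · exact ⟨_, le_rfl, by omega, e⟩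
    · exact ⟨⌈c⌉ + 1, by omega, le_rfl, by omega⟩
  have h1 := hom_shift hf' k
  have h2 := hom_inf hf h1 k3
  have k4 : c ≤ k := Int.ceil_le.1 k1
  have k5 : (k : ℝ) ≤ c + 2 := by
    have := Int.ceil_lt_add_one c
    have : (k : ℝ) ≤ ⌈c⌉ + 1 := by exact_mod_cast k2
    linarith
  rw [loc hf h2 hx fun y hy => (inf_eq_left.2 (by
    have : (f y : ℝ) ≤ f' y + k := (h y hy).trans (by linarith)
    exact_mod_cast this)).symm]
  refine (av_mono h2 h1 (z := x) ?_ (fun y _ => inf_le_right (a := f) y)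
    fun a b e => Int.cast_le.2 (e x)).trans ?_
  · rw [Pi.inf_apply]
    omega
  · rw [av_shift D hf' k x, mn]
    linarith

theorem near {Λ D : Finset (ℤ × ℤ)} {g : Conf} (hg : Hom g) (hD : D ⊆ Λ) {x w : ℤ × ℤ}
    (hw : w ∉ Λ) {N ε : ℝ} (hN : (dist1 x w : ℝ) ≤ N) (hε : ε < 1) {p : Conf → Prop}
    (hp : av Λ (fun f => ind (¬p f)) g ≤ ε) :
    ∀ f ∈ FS Λ g, ∃ f', Hom f' ∧ p f' ∧ |mn D f x - mn D f' x| ≤ 2 * N * ind (¬p f) := by
  have h1 : ∀ f ∈ FS Λ g, mn D f x ≤ g w + N ∧ g w - N ≤ mn D f x := fun f hf => by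
    have h2 : ∀ a ∈ FS D f, |(a x : ℝ) - g w| ≤ N := fun a ha => by
      have := mem_FS.1 (FS_sub hD hf ha)
      rw [← this.2 w hw]
      exact (inc_abs this.1 x w).trans hN
    rw [← av_const D (g w + N : ℝ) (mem_FS.1 hf).1, ← av_const D (g w - N : ℝ) (mem_FS.1 hf).1]
    exact ⟨av_le fun a ha => by linarith [(abs_le.1 (h2 a ha)).2],
      av_le fun a ha => by linarith [(abs_le.1 (h2 a ha)).1]⟩
  intro f hf
  by_cases e : p f
  · exact ⟨f, (mem_FS.1 hf).1, e, by simp [ind, e]⟩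
  · by_contra hc
    refine hε.not_ge (le_trans ?_ hp)
    rw [← av_const Λ 1 hg]
    refine av_le fun a ha => (ind_pos fun e' => hc ⟨a, (mem_FS.1 ha).1, e', ?_⟩).ge
    have := h1 f hf
    have := h1 a ha
    rw [ind_pos e, abs_le]
    constructor <;> linarith

end MPP

theorem mp_row : MPStmt := by
  intro Λ Λ' D g g' x w w' α β c ε N hg hg' hD hD' hx hw hw' hN hN' hε h ha hb
  have h0 : 0 ≤ N := le_trans (Int.cast_nonneg (add_nonneg (abs_nonneg _) (abs_nonneg _))) hN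
  have h1 : ∀ f' ∈ FS Λ' g', mn Λ g x + -(c + 2 + 2 * N * ε) ≤
      mn D f' x + 2 * N * ind (¬ ∀ y, Bdy D y → β y ≤ (f' y : ℝ)) := fun f' hf' => by
    obtain ⟨b, b1, b2, b3⟩ := MPP.near hg' hD' hw' hN' hε hb f' hf'
    have h2 : av Λ (fun f => mn D f x) g ≤ av Λ (fun f => mn D b x + c + 2 +
        2 * N * ind (¬ ∀ y, Bdy D y → (f y : ℝ) ≤ α y)) g := av_le fun f hf => by
      obtain ⟨a, a1, a2, a3⟩ := MPP.near hg hD hw hN hε ha f hf
      have := MPP.key a1 b1 hx (c := c) fun y hy => by linarith [a2 y hy, h y hy, b2 y hy]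
      linarith [(abs_le.1 a3).2]
    rw [av_add, av_const _ _ hg, av_smul] at h2
    have h3 : av Λ (fun f => mn D f x) g = mn Λ g x := av_tower hD _ g
    have := mul_le_mul_of_nonneg_left ha (by positivity : 0 ≤ 2 * N)
    linarith [(abs_le.1 b3).1]
  have h2 := av_le h1
  have h3 : av Λ' (fun f => mn D f x) g' = mn Λ' g' x := av_tower hD' _ g'
  rw [av_const _ _ hg', av_add, av_smul, h3] at h2
  have := mul_le_mul_of_nonneg_left hb (by positivity : 0 ≤ 2 * N)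
  linarith

end Pool.Agent.MP_151d89_pr.H58
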