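import Pool.Agent.MP_151d89_pr.H58.Spec3

/-!
The maximum principle for the means with a logarithmic loss.
-/

set_option autoImplicit false
open MeasureTheory Finset Filter

namespace Pool.Agent.MP_151d89_pr.H58
open Pool.Agent.MP_151d89_pr.H82 Pool.Agent.MP_151d89_pr.H33 Pool.Agent.MP_151d89_pr.H67
  Pool.Agent.MP_151d89_pr.H30
open Classical

namespace MP2P

theorem bdy_box {D : Finset (ℤ × ℤ)} {z y : ℤ × ℤ} {N : ℕ} (hD : D ⊆ box z N) (hy : Bdy D y) :
    y ∈ box z (N + 1) := by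
  obtain ⟨-, y', h1, h2⟩ := hy
  have h3 := mem_box.1 (hD h1)
  rw [mem_box]
  simp only [dist1, Int.abs_eq_natAbs] at h2
  push_cast
  omega

theorem union (h1 : IncrStmt) (Λ D : Finset (ℤ × ℤ)) (g : Conf) (z : ℤ × ℤ) (N d : ℕ) (t : ℝ)
    (hg : Hom g) (ht : 1 ≤ t) (hD : D ⊆ box z N)
    (hw : ∀ y, Bdy D y → ∃ w, w ∉ Λ ∧ dist1 y w ≤ d) :
    av Λ (fun f => ind (¬ ∀ y, Bdy D y → |(f y : ℝ) - mn Λ g y| ≤ t * (6 * √d + 4))) g ≤
      (2 * N + 3) ^ 2 * (2 * Real.exp (-(t / 2))) := by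
  choose! w hw1 hw2 using hw
  calc _ ≤ av Λ (fun f => ∑ y ∈ (box z (N + 1)).filter (Bdy D), ind (t * (6 * √(dist1 (w y) y) + 4) <
        |((f y : ℝ) - f (w y)) - (mn Λ g y - mn Λ g (w y))|)) g := by
        refine av_le fun f hf => ?_
        by_cases e : ∀ y, Bdy D y → |(f y : ℝ) - mn Λ g y| ≤ t * (6 * √d + 4)
        · rw [ind_neg (not_not.2 e)]
          exact sum_nonneg fun y _ => (ind_mem _).1
        · rw [ind_pos e]
          push Not at e
          obtain ⟨y, hy, e⟩ := e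
          refine le_trans ?_ (single_le_sum (f := fun y => ind (t * (6 * √(dist1 (w y) y) + 4) <
            |((f y : ℝ) - f (w y)) - (mn Λ g y - mn Λ g (w y))|)) (fun y _ => (ind_mem _).1)
            (mem_filter.2 ⟨bdy_box hD hy, hy⟩))
          refine (ind_pos ?_).ge
          rw [mn_out hg (hw1 y hy), (mem_FS.1 hf).2 _ (hw1 y hy), sub_sub_sub_cancel_right]
          refine lt_of_le_of_lt ?_ e
          have h3 : ((dist1 (w y) y : ℤ) : ℝ) ≤ d := by
            have h4 : dist1 (w y) y ≤ d := by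
              have := hw2 y hy
              simp only [dist1, Int.abs_eq_natAbs] at this ⊢
              omega
            exact_mod_cast h4
          gcongr
    _ ≤ _ := by
        rw [av_sum]
        refine (sum_le_card_nsmul _ _ _ fun y _ => h1 Λ g (w y) y t hg ht).trans ?_
        rw [nsmul_eq_mul]
        gcongr
        have h3 := card_le_card (filter_subset (Bdy D) (box z (N + 1)))
        rw [card_box] at h3
        exact_mod_cast h3

theorem small {N : ℕ} (hN : 1 ≤ N) :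
    4 * (8 * N : ℝ) * ((2 * N + 3) ^ 2 * (2 * Real.exp (-(20 * lg N / 2)))) ≤ 1 := by
  have h0 : (1 : ℝ) ≤ N := by exact_mod_cast hN
  have h1 := exp_lg hN 10
  rw [show (20 * lg N / 2 : ℝ) = (10 : ℕ) * lg N by push_cast; ring, h1]
  have h2 : (1600 : ℝ) ≤ Real.exp (10 : ℕ) := by
    rw [← Real.exp_one_pow]
    calc (1600 : ℝ) ≤ 2.7 ^ 10 := by norm_num
      _ ≤ _ := by
        gcongr
        linarith [Real.exp_one_gt_d9]
  have h3 : Real.exp (-(10 : ℕ)) ≤ 1 / 1600 := by
    rw [Real.exp_neg, ← one_div]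
    exact one_div_le_one_div_of_le (by norm_num) h2
  have h4 : (N : ℝ) ^ 3 ≤ N ^ 10 := pow_le_pow_right₀ h0 (by norm_num)
  calc _ ≤ 4 * (8 * N : ℝ) * ((5 * N) ^ 2 * (2 * (1 / 1600 / N ^ 3))) := by
        gcongr
        linarith
    _ = 1 := by
        field_simp
        norm_num

end MP2P

open MP2P in
theorem mp2_row (h1 : IncrStmt) (h2 : MPStmt) : MP2Stmt := by
  refine ⟨243, by norm_num, fun Λ Λ' D g g' x z c d N hg hg' hD hD' hx hN hb ⟨w, hw, hxw⟩
    ⟨w', hw', hxw'⟩ h => ?_⟩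
  have hl : 1 ≤ lg N := one_le_lg
  have h0 : (1 : ℝ) ≤ N := by exact_mod_cast hN
  have hs := small hN
  have hp : (0 : ℝ) ≤ (2 * N + 3) ^ 2 * (2 * Real.exp (-(20 * lg N / 2))) := by positivity
  have h3 := h2 Λ Λ' D g g' x w w' (fun y => mn Λ g y + 20 * lg N * (6 * √d + 4))
    (fun y => mn Λ' g' y - 20 * lg N * (6 * √d + 4)) (c + 2 * (20 * lg N * (6 * √d + 4)))
    ((2 * N + 3) ^ 2 * (2 * Real.exp (-(20 * lg N / 2)))) (8 * N) hg hg' hD hD' hx hw hw'
    (by exact_mod_cast hxw) (by exact_mod_cast hxw') (by nlinarith)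
    (fun y hy => by linarith [(h y hy).2.2])
    (le_trans (av_mono' fun f _ e => by
        exact fun e' => e fun y hy => by linarith [(abs_le.1 (e' y hy)).2])
      (union h1 Λ D g z N d (20 * lg N) hg (by linarith) hb fun y hy => (h y hy).1))
    (le_trans (av_mono' fun f _ e => by
        exact fun e' => e fun y hy => by linarith [(abs_le.1 (e' y hy)).1])
      (union h1 Λ' D g' z N d (20 * lg N) hg' (by linarith) hb fun y hy => (h y hy).2.1))
  have h4 : 0 ≤ lg N * √d := by positivity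
  nlinarith

end Pool.Agent.MP_151d89_pr.H58
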