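import Pool.Agent.MP_151d89_pr.H58.Spec3
import Pool.Agent.MP_151d89_pr.H58.Mac

/-! Extension of a contracting function from a box. -/

set_option autoImplicit false
open MeasureTheory Finset Filter

namespace Pool.Agent.MP_151d89_pr.H58
open Pool.Agent.MP_151d89_pr.H82 Pool.Agent.MP_151d89_pr.H33 Pool.Agent.MP_151d89_pr.H67
  Pool.Agent.MP_151d89_pr.H30
open Classical

namespace Mac3P

variable {c : ℝ} {P : ℤ × ℤ → ℝ} {R : ℕ}

theorem step (h : ∀ b, ∀ y ∈ box 0 R, |dd b P y| ≤ c) {y w : ℤ × ℤ} (hy : y ∈ box 0 R)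
    (hw : w ∈ box 0 R) (e : ∃ b, w = y + dir b ∨ y = w + dir b) : P w ≤ P y + c := by
  obtain ⟨b, rfl | rfl⟩ := e
  · have := (abs_le.1 (h b y hy)).2
    rw [dd] at this
    linarith
  · have := (abs_le.1 (h b w hw)).1
    rw [dd] at this
    linarith

theorem walk (h : ∀ b, ∀ y ∈ box 0 R, |dd b P y| ≤ c) (n : ℕ) : ∀ y ∈ box 0 R, ∀ z ∈ box 0 R,
    dist1 y z = n → P z ≤ P y + c * n := by
  induction n with
  | zero =>
    intro y _ z _ e
    have : y = z := by
      simp only [dist1, Int.abs_eq_natAbs] at e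
      exact Prod.ext (by omega) (by omega)
    simp [this]
  | succ n ih =>
    intro y hy z hz e
    have key : ∃ w ∈ box 0 R, dist1 w z = n ∧ ∃ b, w = y + dir b ∨ y = w + dir b := by
      simp only [dist1, Int.abs_eq_natAbs, mem_box] at e hy hz ⊢
      rcases lt_trichotomy y.1 z.1 with a | a | a
      · exact ⟨(y.1 + 1, y.2), by omega, by omega, true, .inl (by simp [dir, Prod.ext_iff])⟩
      · rcases lt_trichotomy y.2 z.2 with a' | a' | a'
        · exact ⟨(y.1, y.2 + 1), by omega, by omega, false, .inl (by simp [dir, Prod.ext_iff])⟩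
        · omega
        · exact ⟨(y.1, y.2 - 1), by omega, by omega, false, .inr (by simp [dir])⟩
      · exact ⟨(y.1 - 1, y.2), by omega, by omega, true, .inr (by simp [dir])⟩
    obtain ⟨w, hw, e1, e2⟩ := key
    have h1 := ih w hw z hz e1
    have h2 := step h hy hw e2
    push_cast
    linarith

theorem lip (h : ∀ b, ∀ y ∈ box 0 R, |dd b P y| ≤ c) {y z : ℤ × ℤ} (hy : y ∈ box 0 R)
    (hz : z ∈ box 0 R) : P z ≤ P y + c * (dist1 y z : ℝ) := by
  have e : dist1 y z = ((dist1 y z).natAbs : ℤ) := by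
    simp only [dist1, Int.abs_eq_natAbs]
    omega
  have := walk h _ y hy z hz e
  rwa [e, Int.cast_natCast]

end Mac3P

open Mac3P in
theorem mac3_row : Mac3Stmt := by
  intro δ P R hδ h
  have hz : (0 : ℤ × ℤ) ∈ box 0 R := by rw [mem_box]; omega
  refine ⟨fun y => (box 0 R).inf' ⟨0, hz⟩ fun x => P x + (1 - δ) * (dist1 x y : ℝ),
    fun y w => ?_, fun y hy => le_antisymm ?_ (le_inf' _ _ fun x hx => lip h hx hy)⟩
  · obtain ⟨x, hx, e⟩ := exists_mem_eq_inf' ⟨0, hz⟩ fun x => P x + (1 - δ) * (dist1 x y : ℝ)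
    have h1 := inf'_le (fun x => P x + (1 - δ) * (dist1 x w : ℝ)) hx
    have h2 := mul_le_mul_of_nonneg_left (MacP.dist_tri x y w) (sub_nonneg.2 hδ)
    simp only []
    rw [e]
    linarith
  · have h1 := inf'_le (fun x => P x + (1 - δ) * (dist1 x y : ℝ)) hy
    have e : (dist1 y y : ℝ) = 0 := by simp [dist1]
    rwa [e, mul_zero, add_zero] at h1

end Pool.Agent.MP_151d89_pr.H58
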