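import Pool.Agent.MP_151d89_pr.H58.Spec3

/-!
Properties of the mollifier.
-/

set_option autoImplicit false
open MeasureTheory Finset Filter

namespace Pool.Agent.MP_151d89_pr.H58
open Pool.Agent.MP_151d89_pr.H82 Pool.Agent.MP_151d89_pr.H33 Pool.Agent.MP_151d89_pr.H67
  Pool.Agent.MP_151d89_pr.H30
open Classical

namespace MolP

theorem tel (F : ℤ → ℝ) (a : ℤ) (n : ℕ) :
    ∑ t ∈ Ico a (a + n), (F (t + 1) - F t) = F (a + n) - F a := by
  induction n with
  | zero => simp
  | succ n ih =>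
    rw [Nat.cast_succ, ← add_assoc, ← Finset.insert_Ico_right_eq_Ico_add_one (by omega),
      sum_insert (by simp), ih]
    ring

theorem tel' (F : ℤ → ℝ) (h : ℕ) :
    ∑ t ∈ Ico (-h : ℤ) h, (F (t + 1) - F t) = F h - F (-h) := by
  have := tel F (-h) (2 * h)
  rwa [show (-h : ℤ) + (2 * h : ℕ) = h by push_cast; ring] at this

theorem card_I (h : ℕ) : (Ico (-h : ℤ) h).card = 2 * h := by
  rw [Int.card_Ico]; omega

theorem card_sqr (h : ℕ) : (sqr h).card = 4 * h ^ 2 := by
  rw [sqr, card_product, card_I]; ring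

theorem mem_sqr {h : ℕ} {v : ℤ × ℤ} :
    v ∈ sqr h ↔ (-(h : ℤ) ≤ v.1 ∧ v.1 < h) ∧ (-(h : ℤ) ≤ v.2 ∧ v.2 < h) := by
  simp [sqr]

/-- the starting points of the long increments -/
def sq0 (b : Bool) (h : ℕ) (j : ℤ) : ℤ × ℤ := pt b (pt (!b) 0 j) (-h)

theorem dd_ml (b : Bool) (h : ℕ) (M : ℤ × ℤ → ℝ) (y : ℤ × ℤ) : dd b (ml h M) y =
    (∑ j ∈ Ico (-h : ℤ) h, (M (pt b (y + sq0 b h j) (2 * h : ℕ)) - M (y + sq0 b h j))) /
      (4 * h ^ 2) := by
  rw [dd, ml, ml, ← sub_div, ← sum_sub_distrib, sqr]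
  congr 1
  cases b
  · rw [sum_product]
    refine sum_congr rfl fun j _ => ?_
    have := tel' (fun t => M (y.1 + j, y.2 + t)) h
    convert this using 2
    · congr 2 <;> ext <;> simp [dir] <;> ring
    · congr 1; ext <;> simp [sq0, pt, dir]; ring
    · congr 1; ext <;> simp [sq0, pt, dir]
  · rw [sum_product_right]
    refine sum_congr rfl fun j _ => ?_
    have := tel' (fun t => M (y.1 + t, y.2 + j)) h
    convert this using 2
    · congr 2 <;> ext <;> simp [dir] <;> ring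
    · congr 1; ext <;> simp [sq0, pt, dir]; ring
    · congr 1; ext <;> simp [sq0, pt, dir]

theorem avg {ι : Type} (s : Finset ι) (F : ι → ℝ) (A N : ℝ) (hN : 0 < N) (h : ∀ i ∈ s, |F i| ≤ A) :
    |(∑ i ∈ s, F i) / N| ≤ s.card * A / N := by
  rw [abs_div, abs_of_pos hN]
  refine div_le_div_of_nonneg_right ((abs_sum_le_sum_abs _ _).trans ?_) hN.le
  simpa using sum_le_card_nsmul _ _ A h

theorem lip_dir {M : ℤ × ℤ → ℝ} (hM : Lip M) (b : Bool) (y : ℤ × ℤ) : |M (y + dir b) - M y| ≤ 1 := by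
  have := hM (y + dir b) y
  cases b <;> simpa [dist1, dir] using this

end MolP

open MolP in
theorem mol_row : MolStmt := by
  intro h M h1
  have h0 : (0 : ℝ) < h := by exact_mod_cast h1
  have hN : (0 : ℝ) < 4 * h ^ 2 := by positivity
  have hc : ((sqr h).card : ℝ) = 4 * h ^ 2 := by rw [card_sqr]; push_cast; ring
  have hI : ((Ico (-h : ℤ) h).card : ℝ) = 2 * h := by rw [card_I]; push_cast; ring
  refine ⟨card_sqr h, fun y w => ?_, fun b y A hA => ?_, fun hM => ⟨fun y y' => ?_, fun y => ?_,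
    fun b b' y => ?_⟩⟩
  · rw [ml, ml, ← add_div, sum_add_distrib]
    congr 2
    · exact sum_congr rfl fun v _ => by rw [add_assoc]
    · refine sum_nbij' (fun v => -v - (1, 1)) (fun v => -v - (1, 1)) (fun v a => ?_) (fun v a => ?_)
        (fun v _ => by abel) (fun v _ => by abel) fun v _ => ?_
      · simp only [mem_sqr, Prod.fst_sub, Prod.snd_sub, Prod.fst_neg, Prod.snd_neg] at a ⊢; omega
      · simp only [mem_sqr, Prod.fst_sub, Prod.snd_sub, Prod.fst_neg, Prod.snd_neg] at a ⊢; omega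
      · congr 1; abel
  · rw [dd_ml]
    refine (avg _ _ A _ hN fun j hj => hA _ ?_).trans (le_of_eq ?_)
    · rw [mem_Ico] at hj
      cases b <;> simp [sq0, pt, dir, nrm, abs_le] <;> omega
    · rw [hI]; field_simp; ring
  · rw [ml, ml, ← sub_div, ← sum_sub_distrib]
    refine (avg _ _ (dist1 y y') _ hN fun v _ => (hM _ _).trans (le_of_eq ?_)).trans (le_of_eq ?_)
    · simp [dist1]
    · rw [hc]; field_simp
  · have e : ml h M y - M y = (∑ v ∈ sqr h, (M (y + v) - M y)) / (4 * h ^ 2) := by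
      rw [sum_sub_distrib, sum_const, nsmul_eq_mul, hc, ml]; field_simp
    rw [e]
    refine (avg _ _ (2 * h) _ hN fun v hv => (hM _ _).trans ?_).trans (le_of_eq ?_)
    · rw [mem_sqr] at hv
      have : dist1 (y + v) y ≤ 2 * h := by
        simp only [dist1, Prod.fst_add, Prod.snd_add, add_sub_cancel_left, Int.abs_eq_natAbs]; omega
      exact_mod_cast this
    · rw [hc]; field_simp
  · rw [dd_ml, dd_ml, ← sub_div, ← sum_sub_distrib]
    refine (avg _ _ 2 _ hN fun j _ => ?_).trans (le_of_eq ?_)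
    · have a1 := lip_dir hM b' (pt b (y + sq0 b h j) (2 * h : ℕ))
      have a2 := lip_dir hM b' (y + sq0 b h j)
      rw [show pt b (y + sq0 b h j) (2 * h : ℕ) + dir b' = pt b (y + dir b' + sq0 b h j) (2 * h : ℕ) by
        unfold pt; abel] at a1
      rw [add_right_comm] at a2
      rw [abs_le] at a1 a2 ⊢
      constructor <;> linarith [a1.1, a1.2, a2.1, a2.2]
    · rw [hI]; field_simp; ring

end Pool.Agent.MP_151d89_pr.H58
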