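import Pool.Agent.MP_151d89_pr.H58.Spec3

/-!
Halving the scale, for the mean.
-/

set_option autoImplicit false
open MeasureTheory Finset Filter

namespace Pool.Agent.MP_151d89_pr.H58
open Pool.Agent.MP_151d89_pr.H82 Pool.Agent.MP_151d89_pr.H33 Pool.Agent.MP_151d89_pr.H67
  Pool.Agent.MP_151d89_pr.H30
open Classical

namespace OneP

theorem geo (b : Bool) (y : ℤ × ℤ) (t : ℕ) : nrm (pt b 0 t) = t ∧ y + pt b 0 t = pt b y t ∧
    nrm (pt b y t) ≤ nrm y + t := by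
  refine ⟨by cases b <;> simp [pt, dir, nrm], by simp [pt], ?_⟩
  cases b <;> simp only [pt, dir, nrm, Int.abs_eq_natAbs, Prod.fst_add, Prod.snd_add,
    Prod.smul_mk, smul_eq_mul] <;> omega

end OneP

theorem one_row (h1 : EtwoStmt) (h2 : AnaStmt) (h3 : CorrStmt) (h4 : ParStmt) : OneStmt := by
  intro δ d0 d1
  obtain ⟨c, CE, c0, e0, hE⟩ := h1 δ d0 d1
  obtain ⟨B, b0, hB⟩ := h2 c CE c0 e0
  obtain ⟨CC, cc, hC⟩ := h3
  obtain ⟨p₀, p1, hP⟩ := h4 (CE + CC + 8)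
  refine ⟨B / 2 + 1, p₀, by positivity, fun i p g b A hp hi hg hA hI => ?_⟩
  obtain ⟨q1, q2, q3, q4, q5, q6⟩ := hP i p hp hi
  have m8 : 8 * 2 ^ i ≤ 2 ^ (i + 110 * p) := by
    rw [show 8 * 2 ^ i = 2 ^ (i + 3) by ring]
    exact Nat.pow_le_pow_right two_pos (by omega)
  have mE : CE * 2 ^ i ≤ (2 ^ (i + 110 * p) : ℕ) := by
    push_cast
    calc CE * 2 ^ i ≤ 2 ^ p * 2 ^ i := by gcongr; linarith
      _ = 2 ^ (p + i) := (pow_add _ _ _).symm
      _ ≤ _ := pow_le_pow_right₀ one_le_two (by omega)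
  have z1 : (2 : ℝ) ^ i ≤ (1 / 2 ^ p) ^ 110 * (2 ^ (i + 110 * p) : ℕ) := by
    push_cast
    rw [pow_add, mul_comm 110 p, pow_mul]
    exact le_of_eq (by field_simp)
  have z2 : ∀ k l : ℕ, k + 11 * p ≤ l → (2 : ℝ) ^ k ≤ (1 / 2 ^ p) ^ 11 * 2 ^ l := fun k l h => by
    rw [one_div, inv_pow, ← pow_mul, le_inv_mul_iff₀ (by positivity), ← pow_add]
    exact pow_le_pow_right₀ one_le_two (by omega)
  generalize 2 ^ (i + 110 * p) = m at *
  have S : Setup δ (56 * m) g (7 * i / 10) (8 * i / 10) i :=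
    ⟨hg, q6, by omega, fun b x h h' => (hI b x h h').trans hA, q1⟩
  have m7 : CE * 2 ^ i ≤ (7 * m : ℕ) := mE.trans (Nat.cast_le.2 (by omega))
  have t0 : (0 : ℝ) < 2 ^ i := by positivity
  have f0 := ph_nonneg (56 * m)
  set M := mn (box 0 (56 * m)) g
  have := hB M (8 * i / 10) i m (1 / 2 ^ p)
    ((2 * (M (pt b 0 (2 ^ i : ℕ)) - M 0) - A - 2 * CC * ph (56 * m)) / 2 ^ i) b (lip_mn _ hg)
    (by omega) (by omega) (by positivity)
    ((div_le_one (by positivity)).2 (one_le_pow₀ one_le_two)) z1 (z2 _ _ q4)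
    (by simpa using z2 0 _ (by omega)) m8 (hE _ _ _ _ _ _ g S le_rfl S.2.2.1 m7 (by omega))
    (hE _ _ _ _ _ _ g S S.2.2.1 le_rfl m7 (by omega))
    (hE _ _ _ _ _ _ g S le_rfl S.2.2.1 mE (by omega))
    (hE _ _ _ _ _ _ g S S.2.2.1 le_rfl mE (by omega)) fun r r1 r2 => by
      generalize ht : 2 ^ i = t at m8 hI ⊢
      obtain ⟨y, hy, h⟩ := hC (56 * m) r g (pt b 0 t) hg r1 (by rw [(OneP.geo b 0 t).1]; omega)
      have k := (OneP.geo b y (2 * t)).2.2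
      have := (abs_le.1 (hI b y (GlueP.mem_bx.2 (by rw [sub_zero]; omega))
        (GlueP.mem_bx.2 (by rw [sub_zero]; omega)))).2
      rw [(OneP.geo b y t).2.1] at h
      refine ⟨y, hy, ?_⟩
      rw [div_mul_cancel₀ _ t0.ne']
      linarith
  rw [div_le_iff₀ t0] at this
  have e : (B / 2 + 1) * 2 ^ i / 2 ^ p = B * (1 / 2 ^ p) * 2 ^ i / 2 + 2 ^ i / 2 ^ p := by ring
  nlinarith [mul_nonneg e0 f0]

end Pool.Agent.MP_151d89_pr.H58
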