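import Pool.Agent.MP_151d89_pr.H58.Spec3

/-!
Approximate concavity of the entropy.
-/

set_option autoImplicit false
open MeasureTheory Finset Filter

namespace Pool.Agent.MP_151d89_pr.H58
open Pool.Agent.MP_151d89_pr.H82 Pool.Agent.MP_151d89_pr.H33 Pool.Agent.MP_151d89_pr.H67
  Pool.Agent.MP_151d89_pr.H30
open Classical

namespace PLzP

theorem lz_mid (Λ : Finset (ℤ × ℤ)) {g g' : Conf} (h : Hom g) (h' : Hom g')
    (p : ∀ y, (g y - g' y) % 2 = 0) : lz Λ g + lz Λ g' ≤ lz Λ (lo g g') + lz Λ (hi g g') := by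
  have e := pl_row Λ g g' (fun _ => 1) (fun _ => 1) (fun _ => 1) (fun _ => 1) (fun y _ => p y)
    (fun _ => zero_le_one) (fun _ => zero_le_one) (fun _ => zero_le_one) (fun _ => zero_le_one)
    fun _ _ _ _ => le_rfl
  simp only [sum_const, nsmul_eq_mul, mul_one] at e
  rwa [← exp_lz Λ h, ← exp_lz Λ h', ← exp_lz Λ (PLP.hom_lo h h' p).1,
    ← exp_lz Λ (PLP.hom_lo h h' p).2, ← Real.exp_add, ← Real.exp_add, Real.exp_le_exp] at e

theorem ring_mid (u v : ℝ × ℝ) (x : ℤ × ℤ) (r : ℕ) :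
    Ring (md u v) 0 3 x r (lo (pc u) (pc v)) ∧ Ring (md u v) 0 3 x r (hi (pc u) (pc v)) := by
  constructor <;>
  · intro y _
    obtain ⟨a1, a2, a3⟩ := lo_hi (pc_par u v y)
    have b := pc_near u y
    have c := pc_near v y
    rw [pl_md, abs_le]
    constructor <;> linarith [b.1, b.2, c.1, c.2]

end PLzP

open PLzP in
theorem plz_row (h : PoneStmt) : PLzStmt := by
  intro δ hδ
  obtain ⟨C, hC, hP⟩ := h δ hδ
  refine ⟨C, hC, fun u v J hu hv => ?_⟩
  have p := pc_par u v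
  have hl := PLP.hom_lo (hom_pc hδ hu) (hom_pc hδ hv) p
  have e := lz_mid (box 0 (2 ^ J - 1)) (hom_pc hδ hu) (hom_pc hδ hv) p
  have e1 := (abs_le.1 (hP _ 0 3 0 J _ (sl_md hu hv) hl.1 (ring_mid u v 0 _).1)).2
  have e2 := (abs_le.1 (hP _ 0 3 0 J _ (sl_md hu hv) hl.2 (ring_mid u v 0 _).2)).2
  have h4 : (0 : ℝ) < 4 ^ (J + 1) := by positivity
  have h23 : (2 : ℝ) ^ J ≤ 3 ^ J := pow_le_pow_left₀ (by norm_num) (by norm_num) J
  have h5 : C * (3 * 2 ^ J + 3 ^ J) ≤ 4 ^ (J + 1) * (C * (3 / 4) ^ J) := by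
    have : (4 : ℝ) ^ (J + 1) * (C * (3 / 4) ^ J) = C * (4 * 3 ^ J) := by
      rw [div_pow, pow_succ]
      field_simp
    rw [this]
    exact mul_le_mul_of_nonneg_left (by linarith) hC
  have hu' : lz (box 0 (2 ^ J - 1)) (pc u) = 4 ^ (J + 1) * zz J u := by
    rw [zz]; field_simp
  have hv' : lz (box 0 (2 ^ J - 1)) (pc v) = 4 ^ (J + 1) * zz J v := by
    rw [zz]; field_simp
  refine le_of_mul_le_mul_left ?_ h4
  rw [hu', hv'] at e
  linarith

end Pool.Agent.MP_151d89_pr.H58
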