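import Pool.Agent.MP_151d89_pr.H58.Spec3

/-!
The choice of the parameters.
-/

set_option autoImplicit false
open MeasureTheory Finset Filter

namespace Pool.Agent.MP_151d89_pr.H58
open Pool.Agent.MP_151d89_pr.H82 Pool.Agent.MP_151d89_pr.H33 Pool.Agent.MP_151d89_pr.H67
  Pool.Agent.MP_151d89_pr.H30
open Classical

namespace ParP

theorem lin {k : ℕ} (h : 60 ≤ k) : 50 * (k + 1) ≤ 2 ^ k := by
  induction k, h using Nat.le_induction with
  | base => norm_num
  | succ k _ ih =>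
    rw [pow_succ]
    omega

theorem tm {X T : ℝ} {a b c i : ℕ} (hX : X ≤ 2 ^ a) (hT : T ≤ 2 ^ b) (h0 : 0 ≤ T)
    (h : a + b + 2 ≤ 2 * i + c) : X * (T / 2 ^ c) ≤ 4 ^ i / 4 := by
  have h1 : (2 : ℝ) ^ (a + b + 2) ≤ 2 ^ (2 * i + c) := pow_le_pow_right₀ one_le_two h
  rw [pow_add, pow_add, pow_add, pow_mul] at h1
  have h2 : X * T ≤ 2 ^ a * 2 ^ b := mul_le_mul hX hT h0 (by positivity)
  rw [← mul_div_assoc, div_le_div_iff₀ (by positivity) (by positivity)]
  norm_num at h1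
  linarith

theorem pw (J : ℕ) : (4 / 5 : ℝ) ^ J ≤ 1 / 2 ^ (J / 4) :=
  calc (4 / 5 : ℝ) ^ J ≤ (4 / 5) ^ (4 * (J / 4)) :=
        pow_le_pow_of_le_one (by norm_num) (by norm_num) (Nat.mul_div_le J 4)
    _ ≤ (1 / 2) ^ (J / 4) := by
        rw [pow_mul]
        exact pow_le_pow_left₀ (by norm_num) (by norm_num) _
    _ = _ := by rw [one_div_pow]

theorem ph_le {i p R : ℕ} (hp : 1 ≤ p) (h : 3000 * p ≤ i) (hR : R + 1 ≤ 2 ^ (i + 110 * p + 6)) :
    ph R + i + 1 ≤ 2 ^ (10 + i / 50 + (i / 2 + 55 * p + 4)) := by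
  have h1 : (i : ℝ) ≤ 2 ^ (i / 50) := by
    have := lin (k := i / 50) (by omega)
    exact_mod_cast (show i ≤ 2 ^ (i / 50) by omega)
  have h2 : lg R ≤ 2 * i := (lg_le (Nat.le_of_succ_le hR)).trans (by
    exact_mod_cast (show i + 110 * p + 6 + 1 ≤ 2 * i by omega))
  have h3 : √((R : ℝ) + 1) ≤ 2 ^ (i / 2 + 55 * p + 4) := by
    rw [Real.sqrt_le_left (by positivity), ← pow_mul]
    exact_mod_cast hR.trans (Nat.pow_le_pow_right two_pos (by omega))
  have h4 : (1 : ℝ) ≤ 2 ^ (i / 2 + 55 * p + 4) := one_le_pow₀ one_le_two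
  have h5 : (1 : ℝ) ≤ i := by exact_mod_cast (show 1 ≤ i by omega)
  rw [pow_add, pow_add, ph]
  generalize (2 : ℝ) ^ (i / 2 + 55 * p + 4) = s at *
  have h6 : 40 * lg R * (6 * √((R : ℝ) + 1) + 4) ≤ 40 * (2 * i) * (10 * s) := by
    have := @one_le_lg R
    gcongr
    linarith
  have h7 : (i : ℝ) * s ≤ 2 ^ (i / 50) * s := by gcongr
  nlinarith

end ParP

open ParP in
theorem par_row : ParStmt := by
  intro C
  obtain ⟨k, hk⟩ := pow_unbounded_of_one_lt C (one_lt_two (α := ℝ))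
  refine ⟨k + 1, by omega, fun i p hp h => ?_⟩
  have hC : C ≤ 2 ^ p := hk.le.trans (pow_le_pow_right₀ one_le_two (by omega))
  have hR : 56 * 2 ^ (i + 110 * p) + 1 ≤ 2 ^ (i + 110 * p + 6) := by
    have := Nat.one_le_two_pow (n := i + 110 * p)
    rw [pow_add 2 _ 6]
    omega
  have h1 := ph_le (by omega) h hR
  generalize 56 * 2 ^ (i + 110 * p) = R at *
  have h0 : 0 ≤ ph R := by
    have := @one_le_lg R
    unfold ph
    positivity
  have h2 : (R : ℝ) ^ 2 ≤ 2 ^ ((i + 110 * p + 6) * 2) := by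
    rw [pow_mul]
    exact_mod_cast Nat.pow_le_pow_left (Nat.le_of_succ_le hR) 2
  refine ⟨?_, ?_, hC, by omega, by omega, by omega⟩
  · have t1 := tm (c := 7 * i / 10) (i := i) h2 h1 (by positivity) (by omega)
    have t2 := tm (c := 8 * i / 10) (i := i) h2 (le_refl ((2 : ℝ) ^ (7 * i / 10))) (by positivity)
      (by omega)
    have t3 := tm (b := 0) (c := 7 * i / 10 / 4) (i := i) h2 (le_refl ((2 : ℝ) ^ 0))
      (by positivity) (by omega)
    have t4 := mul_le_mul_of_nonneg_left (pw (7 * i / 10)) (sq_nonneg (R : ℝ))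
    have t5 : (0 : ℝ) < 4 ^ i := by positivity
    rw [pow_zero] at t3
    rw [er, mul_add, mul_add]
    linarith
  · have t1 : ph R ≤ 2 ^ (10 + i / 50 + (i / 2 + 55 * p + 4)) := by
      have : (0 : ℝ) ≤ i := by positivity
      linarith
    have t2 : (2 : ℝ) ^ (p + (10 + i / 50 + (i / 2 + 55 * p + 4)) + p) ≤ 2 ^ i :=
      pow_le_pow_right₀ one_le_two (by omega)
    rw [pow_add, pow_add] at t2
    rw [le_div_iff₀ (by positivity)]
    exact (mul_le_mul_of_nonneg_right (mul_le_mul hC t1 h0 (by positivity))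
      (by positivity)).trans t2

end Pool.Agent.MP_151d89_pr.H58
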