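import Pool.Agent.MP_151d89_pr.H58.Spec3

/-!
Row Pla: the mean for almost planar boundary values, by reflection at an extremal point.
-/

set_option autoImplicit false
open MeasureTheory Finset Filter

namespace Pool.Agent.MP_151d89_pr.H58
open Pool.Agent.MP_151d89_pr.H82 Pool.Agent.MP_151d89_pr.H33 Pool.Agent.MP_151d89_pr.H67
  Pool.Agent.MP_151d89_pr.H30
open Classical

namespace PlaP

theorem geo {x y z : ℤ × ℤ} {n : ℕ} (hz : Bdy (box x n ∩ box (y + y - x) n) z) :
    z ∈ box x (n + 1) ∧ y + y - z ∈ box x (n + 1) ∧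
    (nrm (z - x) = (n + 1 : ℕ) ∨ nrm (y + y - z - x) = (n + 1 : ℕ)) := by
  obtain ⟨h1, z', h2, h3⟩ := hz
  simp only [mem_inter, mem_box, nrm, dist1, Int.abs_eq_natAbs, Prod.fst_sub, Prod.snd_sub,
    Prod.fst_add, Prod.snd_add] at *
  omega

theorem cvx (x y z : ℤ × ℤ) : 2 * nrm (y - x) ≤ nrm (z - x) + nrm (y + y - z - x) := by
  simp only [nrm, Int.abs_eq_natAbs, Prod.fst_sub, Prod.snd_sub, Prod.fst_add, Prod.snd_add]
  omega

theorem exit2 (x y z : ℤ × ℤ) (n : ℕ) (h : y + y - z ∈ box x (n + 1)) :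
    ∃ w, w ∉ box (y + y - x) n ∧ dist1 z w = n + 1 - nrm (y + y - z - x) := by
  obtain ⟨w, -, h1, h2⟩ := exit x _ n h
  refine ⟨y + y - w, fun e => h1 ?_, ?_⟩
  · simpa using (box_sub x (y + y) _ n).1 e
  · rw [← h2, ← iso_sub (y + y)]
    simp

theorem sq2 {r s : ℝ} (h : r ≤ 2 * s) : √r ≤ 3 / 2 * √s := by
  rcases le_total s 0 with e | e
  · rw [Real.sqrt_eq_zero_of_nonpos (by linarith)]
    positivity
  · rw [Real.sqrt_le_left (by positivity), mul_pow, Real.sq_sqrt e]
    linarith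

theorem upper (h : MP2Stmt) : ∃ C : ℝ, 0 ≤ C ∧ ∀ (u : ℝ × ℝ) (c a : ℝ) (x : ℤ × ℤ) (n : ℕ)
    (g : Conf), Hom g → 1 ≤ n → (∀ y, nrm (y - x) = (n + 1 : ℕ) → (g y : ℝ) - pl u c y ≤ a) →
    ∀ z ∈ box x (n + 1), mn (box x n) g z - pl u c z ≤
      a + C * lg n * (√((n + 1 - nrm (z - x) : ℤ) : ℝ) + 5) := by
  obtain ⟨C, hC, h⟩ := h
  refine ⟨3 * (C + 1), by positivity, fun u c a x n g hg hn hr => ?_⟩
  have hL := @one_le_lg n
  set s : ℤ × ℤ → ℝ := fun z => √((n + 1 - nrm (z - x) : ℤ) : ℝ) with hs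
  have hs0 : ∀ z, 0 ≤ s z := fun z => Real.sqrt_nonneg _
  set E : ℤ × ℤ → ℝ := fun z => mn (box x n) g z - pl u c z with hE
  have hring : ∀ z, nrm (z - x) = (n + 1 : ℕ) → E z ≤ a := fun z hz => by
    have : z ∉ box x n := by
      rw [GlueP.mem_bx]
      omega
    simp only [hE, mn_out hg this]
    exact hr z hz
  obtain ⟨y, hy, hmax⟩ := exists_max_image (box x n) (fun z => (E z - a) / (s z + 5))
    ⟨x, by rw [mem_box]; omega⟩
  obtain ⟨T, hT⟩ : ∃ T, T = (E y - a) / (s y + 5) := ⟨_, rfl⟩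
  have hall : ∀ T', T ≤ T' → 0 ≤ T' → ∀ z ∈ box x (n + 1), E z ≤ a + T' * (s z + 5) :=
    fun T' h1 h2 z hz => by
      have h3 := hs0 z
      by_cases e : z ∈ box x n
      · have := (hmax z e).trans (hT ▸ h1)
        rw [div_le_iff₀ (by linarith)] at this
        linarith
      · rw [GlueP.mem_bx] at e hz
        have := hring z (by omega)
        have : 0 ≤ T' * (s z + 5) := by positivity
        linarith
  refine hall _ ?_ (by positivity)
  rcases le_total T 0 with hT0 | hT0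
  · exact hT0.trans (by positivity)
  have hEy : E y = a + T * (s y + 5) := by
    have := hs0 y
    rw [hT, div_mul_cancel₀ _ (by linarith)]
    ring
  have hy1 : y ∈ box x (n + 1) := by
    rw [mem_box] at hy ⊢
    omega
  have hy2 := GlueP.mem_bx.1 hy
  have hy3 := nrm_nonneg (y - x)
  obtain ⟨d, hd⟩ : ∃ d : ℕ, (d : ℤ) = 2 * (n + 1 - nrm (y - x)) := ⟨_, Int.toNat_of_nonneg (by omega)⟩
  have hsd : √(d : ℝ) ≤ 3 / 2 * s y := sq2 (by exact_mod_cast hd.le)
  have hm : ∀ z, mn (box (y + y - x) n) (tr (Equiv.subLeft (y + y)) (-1) ⌈2 * pl u c y⌉ g) z =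
      ⌈2 * pl u c y⌉ - mn (box x n) g (y + y - z) := fun z => by
    rw [mn_tr (iso_sub _) (Or.inr rfl) _ (fun z => box_sub x _ z n) hg]
    simp only [Equiv.subLeft_apply]
    push_cast
    ring
  have hyy : y + y - y = y := by simp
  have key := h (box x n) (box (y + y - x) n) (box x n ∩ box (y + y - x) n) g
    (tr (Equiv.subLeft (y + y)) (-1) ⌈2 * pl u c y⌉ g) y x (2 * a + T * (3 / 2 * s y + 5)) d n hg
    (hom_tr (iso_sub _) (Or.inr rfl) _ hg) inter_subset_left inter_subset_right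
    (mem_inter.2 ⟨hy, (box_sub x _ y n).2 (by simpa using hy)⟩) hn inter_subset_left
    (by obtain ⟨w, -, h1, h2⟩ := exit x y n hy1
        exact ⟨w, h1, by omega⟩)
    (by obtain ⟨w, h1, h2⟩ := exit2 x y y n (by rwa [hyy])
        rw [hyy] at h2
        exact ⟨w, h1, by omega⟩)
    fun z hz => by
      obtain ⟨h1, h2, h3⟩ := geo hz
      have h4 := cvx x y z
      have h5 := GlueP.mem_bx.1 h1
      have h6 := GlueP.mem_bx.1 h2
      obtain ⟨w, -, a1, a2⟩ := exit x z n h1
      obtain ⟨w', b1, b2⟩ := exit2 x y z n h2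
      refine ⟨⟨w, a1, by omega⟩, ⟨w', b1, by omega⟩, ?_⟩
      have h7 : pl u c z + pl u c (y + y - z) = 2 * pl u c y := by
        simp only [pl, Prod.fst_sub, Prod.snd_sub, Prod.fst_add, Prod.snd_add]
        push_cast
        ring
      have h8 := Int.le_ceil (2 * pl u c y)
      have h9 : E z + E (y + y - z) ≤ 2 * a + T * (3 / 2 * s y + 5) := by
        rcases h3 with e | e
        · have c1 := hring z e
          have c2 := hall T le_rfl hT0 _ h2
          have c3 : s (y + y - z) ≤ 3 / 2 * s y := sq2 (by norm_cast; omega)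
          nlinarith
        · have c1 := hring _ e
          have c2 := hall T le_rfl hT0 _ h1
          have c3 : s z ≤ 3 / 2 * s y := sq2 (by norm_cast; omega)
          nlinarith
      rw [hm]
      simp only [hE] at h9
      linarith
  rw [hm, hyy] at key
  have h1 := Int.ceil_lt_add_one (2 * pl u c y)
  have h2 := hs0 y
  have h3 : C * lg n * (√d + 1) ≤ C * lg n * (3 / 2 * s y + 1) := by gcongr
  simp only [hE] at hEy
  have h4 : T * (s y / 2 + 5) ≤ 3 * (C + 1) * lg n * (s y / 2 + 5) := by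
    have h5 : 0 ≤ C * lg n := by positivity
    have h6 : 0 ≤ lg n * s y := by positivity
    nlinarith
  exact le_of_mul_le_mul_right h4 (by linarith)

end PlaP

theorem pla_row (h : MP2Stmt) : PlaStmt := by
  obtain ⟨C, hC, h⟩ := PlaP.upper h
  refine ⟨5 * C, by positivity, fun u c a x y n d g hg hn hr hy hd => ?_⟩
  have hL := @one_le_lg n
  have hI : Iso (Equiv.refl (ℤ × ℤ)) := fun _ _ => rfl
  have hp : ∀ z, pl (-u) (-c) z = -pl u c z := fun z => by
    simp only [pl, Prod.fst_neg, Prod.snd_neg]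
    ring
  have h1 := h u c a x n g hg hn (fun z hz => (abs_le.1 (hr z hz)).2) y hy
  have h2 := h (-u) (-c) a x n _ (hom_tr hI (Or.inr rfl) 0 hg) hn (fun z hz => by
    have := (abs_le.1 (hr z hz)).1
    simp only [tr, hp, Equiv.refl_apply]
    push_cast
    linarith) y hy
  rw [mn_tr hI (Or.inr rfl) 0 (fun _ => Iff.rfl) hg, hp] at h2
  simp only [Equiv.refl_apply] at h2
  push_cast at h1 h2
  have h3 : √((n : ℝ) + 1 - nrm (y - x)) ≤ √d := Real.sqrt_le_sqrt (by exact_mod_cast hd)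
  have h4 : C * lg n * (√((n : ℝ) + 1 - nrm (y - x)) + 5) ≤ C * lg n * (5 * (√d + 1)) := by
    have := Real.sqrt_nonneg (d : ℝ)
    gcongr
    linarith
  rw [abs_le]
  constructor <;> linarith

end Pool.Agent.MP_151d89_pr.H58
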