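import Pool.Agent.MP_151d89_pr.H58.Spec3

/-!
Row Pla2: the increments of the mean for almost planar boundary values.
-/

set_option autoImplicit false
open MeasureTheory Finset Filter

namespace Pool.Agent.MP_151d89_pr.H58
open Pool.Agent.MP_151d89_pr.H82 Pool.Agent.MP_151d89_pr.H33 Pool.Agent.MP_151d89_pr.H67
  Pool.Agent.MP_151d89_pr.H30
open Classical

namespace Pla2P

theorem near {x p v : ℤ × ℤ} {n d : ℕ} (hv : |v.1| + |v.2| ≤ d)
    (h : p ∉ box x n ∨ p + v ∉ box x n) :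
    (n : ℤ) + 1 - nrm (p - x) ≤ d ∧ (n : ℤ) + 1 - nrm (p + v - x) ≤ d := by
  simp only [mem_box, nrm, Int.abs_eq_natAbs, Prod.fst_sub, Prod.snd_sub, Prod.fst_add,
    Prod.snd_add] at *
  omega

theorem pair {M : ℤ × ℤ → ℝ} {u : ℝ × ℝ} {c E : ℝ} {x p v : ℤ × ℤ} {n d : ℕ}
    (hP : ∀ y ∈ box x (n + 1), (n : ℤ) + 1 - nrm (y - x) ≤ d → |M y - pl u c y| ≤ E)
    (hv : |v.1| + |v.2| ≤ d) (h1 : p ∈ box x (n + 1)) (h2 : p + v ∈ box x (n + 1))
    (h : p ∉ box x n ∨ p + v ∉ box x n) : |M (p + v) - M p - pl u 0 v| ≤ 2 * E := by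
  have a1 := abs_le.1 (hP p h1 (near hv h).1)
  have a2 := abs_le.1 (hP _ h2 (near hv h).2)
  have e : pl u c (p + v) = pl u c p + pl u 0 v := by
    simp only [pl, Prod.fst_add, Prod.snd_add]
    push_cast
    ring
  rw [abs_le]
  constructor <;> linarith [a1.1, a1.2, a2.1, a2.2]

theorem bdy {x v z : ℤ × ℤ} {n : ℕ} (h : Bdy (box x n ∩ box (x - v) n) z) :
    z ∈ box x (n + 1) ∧ z + v ∈ box x (n + 1) ∧ (z ∉ box x n ∨ z + v ∉ box x n) := by
  obtain ⟨h1, y, h2, h3⟩ := h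
  simp only [mem_inter, mem_box, dist1, Int.abs_eq_natAbs, Prod.fst_sub, Prod.snd_sub,
    Prod.fst_add, Prod.snd_add] at *
  omega

theorem ex1 {x p : ℤ × ℤ} {n : ℕ} {d : ℤ} (h : p ∈ box x (n + 1))
    (hd : (n : ℤ) + 1 - nrm (p - x) ≤ d) : ∃ w, w ∉ box x n ∧ dist1 p w ≤ d := by
  obtain ⟨w, -, h1, h2⟩ := exit x p n h
  exact ⟨w, h1, h2 ▸ hd⟩

theorem ex2 {x p v : ℤ × ℤ} {n : ℕ} {d : ℤ} (h : p + v ∈ box x (n + 1))
    (hd : (n : ℤ) + 1 - nrm (p + v - x) ≤ d) : ∃ w, w ∉ box (x - v) n ∧ dist1 p w ≤ d := by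
  obtain ⟨w, h1, h2⟩ := ex1 h hd
  refine ⟨w - v, by simpa [box_add] using h1, ?_⟩
  rw [← iso_add v]
  simpa using h2

end Pla2P

open Pla2P in
theorem pla2_row (h1 : MP2Stmt) (h2 : PlaStmt) : Pla2Stmt := by
  obtain ⟨CM, hCM, h1⟩ := h1
  obtain ⟨C, hC, h2⟩ := h2
  refine ⟨2 * C + CM, by positivity, fun u c a x y y' n g hg hn hR hy hy' => ?_⟩
  obtain ⟨v, rfl⟩ : ∃ v, y' = y + v := ⟨y' - y, by abel⟩
  obtain ⟨d, hd⟩ : ∃ d : ℕ, dist1 y (y + v) = d :=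
    ⟨(dist1 y (y + v)).toNat, (Int.toNat_of_nonneg (by unfold dist1; positivity)).symm⟩
  have hv : |v.1| + |v.2| ≤ d := by
    rw [← hd]
    simp [dist1]
  have e : pl u 0 (y + v) - pl u 0 y = pl u 0 v := by
    simp only [pl, Prod.fst_add, Prod.snd_add]
    push_cast
    ring
  rw [e, hd, Int.cast_natCast]
  have hP : ∀ p ∈ box x (n + 1), (n : ℤ) + 1 - nrm (p - x) ≤ d →
      |mn (box x n) g p - pl u c p| ≤ a + C * lg n * (√d + 1) := fun p hp h =>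
    h2 u c a x p n d g hg hn hR hp h
  have hl : 0 ≤ CM * lg n * (√d + 1) := by
    have := @one_le_lg n
    positivity
  by_cases hb : y ∉ box x n ∨ y + v ∉ box x n
  · linarith [pair hP hv hy hy' hb]
  push Not at hb
  have hg2 : Hom (tr (Equiv.addRight v) 1 0 g) := hom_tr (iso_add v) (Or.inl rfl) 0 hg
  have hm : ∀ z, mn (box (x - v) n) (tr (Equiv.addRight v) 1 0 g) z = mn (box x n) g (z + v) :=
    fun z => by
      rw [mn_tr (iso_add v) (Or.inl rfl) 0 (fun p => box_add x v p n) hg]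
      simp
  have hyD : y ∈ box x n ∩ box (x - v) n := mem_inter.2 ⟨hb.1, (box_add x v y n).2 hb.2⟩
  have n1 := nrm_nonneg (y - x)
  have n2 := nrm_nonneg (y + v - x)
  have e1 : ∃ w, w ∉ box x n ∧ dist1 y w ≤ 8 * n := ex1 hy (by omega)
  have e2 : ∃ w, w ∉ box (x - v) n ∧ dist1 y w ≤ 8 * n := ex2 hy' (by omega)
  have b1 := h1 (box x n) (box (x - v) n) _ g _ y x (2 * (a + C * lg n * (√d + 1)) - pl u 0 v) d n
    hg hg2 inter_subset_left inter_subset_right hyD hn inter_subset_left e1 e2 fun z hz => by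
      obtain ⟨z1, z2, z3⟩ := bdy hz
      refine ⟨ex1 z1 (near hv z3).1, ex2 z2 (near hv z3).2, ?_⟩
      rw [hm]
      linarith [(abs_le.1 (pair hP hv z1 z2 z3)).1]
  have b2 := h1 (box (x - v) n) (box x n) _ _ g y x (2 * (a + C * lg n * (√d + 1)) + pl u 0 v) d n
    hg2 hg inter_subset_right inter_subset_left hyD hn inter_subset_left e2 e1 fun z hz => by
      obtain ⟨z1, z2, z3⟩ := bdy hz
      refine ⟨ex2 z2 (near hv z3).2, ex1 z1 (near hv z3).1, ?_⟩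
      rw [hm]
      linarith [(abs_le.1 (pair hP hv z1 z2 z3)).2]
  rw [hm] at b1 b2
  rw [abs_le]
  constructor <;> linarith

end Pool.Agent.MP_151d89_pr.H58
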