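import Pool.Agent.MP_151d89_pr.H58.Spec3

/-!
The entropy for almost planar boundary values.
-/

set_option autoImplicit false
open MeasureTheory Finset Filter

namespace Pool.Agent.MP_151d89_pr.H58
open Pool.Agent.MP_151d89_pr.H82 Pool.Agent.MP_151d89_pr.H33 Pool.Agent.MP_151d89_pr.H67
  Pool.Agent.MP_151d89_pr.H30
open Classical

namespace PoneP

theorem fibre {X Y : Finset (ℤ × ℤ)} {g : Conf} {G T : Finset Conf} (hG : G ⊆ FS Y g)
    (h : ∀ v ∈ G, ∃ γ ∈ T, ∀ y ∈ X, γ y = v y) : G.card ≤ 2 ^ (Y \ X).card * T.card := by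
  choose! γ h1 h2 using h
  refine card_le_mul_card_image_of_maps_to h1 _ fun t _ => ?_
  rcases (G.filter fun v => γ v = t).eq_empty_or_nonempty with e | ⟨v₀, h0⟩
  · simp [e]
  refine le_trans (card_le_card fun v hv => ?_) (card_le _ v₀)
  rw [mem_filter] at hv h0
  have a1 := mem_FS.1 (hG hv.1)
  have a2 := mem_FS.1 (hG h0.1)
  refine mem_FS.2 ⟨a1.1, fun x hx => ?_⟩
  by_cases hx' : x ∈ X
  · rw [← h2 v hv.1 _ hx', ← h2 v₀ h0.1 _ hx', hv.2, h0.2]
  · have : x ∉ Y := fun e => hx (mem_sdiff.2 ⟨e, hx'⟩)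
    rw [a1.2 x this, a2.2 x this]

theorem good {Λ : Finset (ℤ × ℤ)} {g : Conf} (hg : Hom g) {p q : Conf → Prop}
    (h : av Λ (fun f => ind (¬ p f)) g ≤ 1 / 4) (hq : ∀ f, p f → q f) :
    ((FS Λ g).card : ℝ) ≤ 2 * ((FS Λ g).filter q).card := by
  have h1 : av Λ (fun f => 1 - ind (¬ p f)) g ≤ av Λ (fun f => ind (q f)) g := av_le fun f _ => by
    by_cases e : p f
    · rw [ind_pos (hq f e), ind_neg (not_not.2 e), sub_zero]
    · rw [ind_pos e, sub_self]
      exact (ind_mem _).1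
  rw [av_sub, av_const _ _ hg, av_ind _ q, le_div_iff₀ (card_pos Λ hg)] at h1
  nlinarith [card_pos Λ hg]

theorem cmp (h : StrStmt) {δ : ℝ} (d0 : 0 < δ) : ∃ C : ℝ, 0 ≤ C ∧ ∀ (u : ℝ × ℝ) (c a a' : ℝ)
    (x : ℤ × ℤ) (n : ℕ) (g g' : Conf), Sl δ u → Hom g → Hom g' → (g x - g' x) % 2 = 0 →
    Ring u c a x (n + 1) g → Ring u c a' x (n + 1) g' →
    lz (box x n) g ≤ lz (box x n) g' + C * ((a + a' + lg n * √n + 1) * (n + 1)) := by
  obtain ⟨C, C1, hC⟩ := h
  refine ⟨16 * ((3 + C) / δ + 1) + 1, by positivity, fun u c a a' x n g g' hu hg hg' hp r r' => ?_⟩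
  have a0 := r.nonneg
  have a0' := r'.nonneg
  have L0 : 0 ≤ lg n * √n := mul_nonneg (zero_le_one.trans one_le_lg) (Real.sqrt_nonneg _)
  have n0 : (0 : ℝ) ≤ n := Nat.cast_nonneg n
  obtain ⟨w, w1, w2⟩ : ∃ w : ℕ, 3 * (a + a') + C * lg n * √n + 2 ≤ δ * w ∧
      (w : ℝ) ≤ ((3 + C) / δ + 1) * (a + a' + lg n * √n + 1) := by
    rw [mul_assoc]
    generalize lg n * √n = L at *
    refine ⟨⌈(3 * (a + a') + C * L + 2) / δ⌉₊, ?_, ?_⟩
    · have := Nat.le_ceil ((3 * (a + a') + C * L + 2) / δ)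
      rw [div_le_iff₀ d0] at this
      linarith
    · have := Nat.ceil_lt_add_one (a := (3 * (a + a') + C * L + 2) / δ) (by positivity)
      have h3 : (3 * (a + a') + C * L + 2) / δ ≤ (3 + C) / δ * (a + a' + L + 1) := by
        rw [div_mul_eq_mul_div]
        exact div_le_div_of_nonneg_right (by nlinarith) d0.le
      linarith
  suffices H : lz (box x n) g ≤ lz (box x n) g' + (16 * (w * (n + 1)) + 1) by
    have := mul_le_mul_of_nonneg_right w2 (show (0 : ℝ) ≤ n + 1 by linarith)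
    nlinarith [mul_nonneg (show 0 ≤ a + a' + lg n * √n by linarith) (show (0 : ℝ) ≤ n + 1 by linarith)]
  rcases lt_or_ge n (2 * w) with hn | hn
  · have h1 := lz_le (box x n) g
    have h2 : (n : ℝ) + 1 ≤ 2 * w := by exact_mod_cast hn
    rw [card_box] at h1
    push_cast at h1
    nlinarith [lz_nonneg (box x n) g']
  have w0 : 1 ≤ n := by
    rcases Nat.eq_zero_or_pos w with rfl | e
    · have := mul_nonneg (zero_le_one.trans C1) L0
      simp only [Nat.cast_zero, mul_zero, mul_assoc] at w1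
      linarith
    · omega
  obtain ⟨m, hm⟩ : ∃ m, n = m + 2 * w := ⟨n - 2 * w, by omega⟩
  have g1 := good hg (hC u c a x n g hg w0 r)
    (q := Band u c (3 * (a + a') + C * lg n * √n) (box x (n + 1)))
    fun f e y hy => (e.2 y hy).trans (by linarith)
  have g2 := good hg' (hC u c a' x n g' hg' w0 r')
    (q := Band u c (3 * (a + a') + C * lg n * √n) (box x (n + 1)))
    fun f e y hy => (e.2 y hy).trans (by linarith)
  obtain ⟨f', hf'⟩ : ((FS (box x n) g').filter
      (Band u c (3 * (a + a') + C * lg n * √n) (box x (n + 1)))).Nonempty := by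
    rw [← Finset.card_pos, ← Nat.cast_pos (α := ℝ)]
    linarith [card_pos (box x n) hg']
  rw [mem_filter] at hf'
  have k := fibre (X := box x m) (T := FS (box x n) g') (filter_subset
      (Band u c (3 * (a + a') + C * lg n * √n) (box x (n + 1))) (FS (box x n) g)) fun f hf => by
    rw [mem_filter] at hf
    rw [← FS_congr (mem_FS.1 hf'.1).2]
    exact glue_row δ c _ u x n m w f' f d0 hu (mem_FS.1 hf'.1).1 (mem_FS.1 hf.1).1
      (par_FS (fun y _ => par hg hg' hp y) hf.1 hf'.1 x) w1 hm.ge hf'.2 fun y hy => hf.2 y (by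
        rw [mem_box] at hy ⊢
        omega)
  have hE : (box x n \ box x m).card ≤ 16 * (w * (n + 1)) := by
    rw [card_sdiff_of_subset fun y hy => by rw [mem_box] at hy ⊢; omega, card_box, card_box,
      tsub_le_iff_right, hm]
    nlinarith [Nat.zero_le (w * w), Nat.zero_le (w * m), Nat.zero_le w]
  generalize (box x n \ box x m).card = E at k hE
  have k2 : ((FS (box x n) g).card : ℝ) ≤ 2 ^ (E + 1) * (FS (box x n) g').card := by
    refine g1.trans ?_
    rw [pow_succ', mul_assoc 2]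
    exact mul_le_mul_of_nonneg_left (by exact_mod_cast k) two_pos.le
  have k3 := Real.log_le_log (card_pos _ hg) k2
  rw [Real.log_mul (by positivity) (card_pos _ hg').ne', Real.log_pow] at k3
  have k4 : (E : ℝ) ≤ 16 * (w * (n + 1)) := by exact_mod_cast hE
  have k5 := Real.log_two_lt_d9
  have k6 : (0 : ℝ) ≤ E := Nat.cast_nonneg _
  unfold lz
  push_cast at k3
  nlinarith

end PoneP

open PoneP in
theorem pone_row (h : StrStmt) : PoneStmt := by
  intro δ d0
  obtain ⟨C, C0, hC⟩ := cmp h d0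
  refine ⟨23 * C, by positivity, fun u c a x J g hu hg r => ?_⟩
  obtain ⟨n, hn⟩ : ∃ n : ℕ, 2 ^ J = n + 1 := ⟨2 ^ J - 1, by have := Nat.one_le_two_pow (n := J); omega⟩
  have hn' : (n : ℝ) + 1 = 2 ^ J := by exact_mod_cast hn.symm
  obtain ⟨k, k1, k2, k3⟩ : ∃ k : ℤ, pl u c x ≤ k ∧ k < pl u c x + 2 ∧
      (k - (g x - pc u 0)) % 2 = 0 :=
    ⟨_, GlueP.le_rd (fun _ => g x - pc u 0) (fun _ => pl u c x) 0, GlueP.rd_lt _ _ 0,
      GlueP.rd_par _ _ 0⟩
  have hg' := hom_tr (iso_add (-x)) (Or.inl rfl) k (hom_pc d0 hu)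
  have e := lz_tr (iso_add (-x)) (Or.inl rfl) k (Λ := box 0 n) (Λ' := box x n)
    (fun y => by rw [← box_add, zero_sub, neg_neg]) (pc u)
  have hp : (g x - tr (Equiv.addRight (-x)) 1 k (pc u) x) % 2 = 0 := by
    simp only [tr, Equiv.coe_addRight, add_neg_cancel]
    omega
  have r' : Ring u c 4 x (n + 1) (tr (Equiv.addRight (-x)) 1 k (pc u)) := fun y _ => by
    have := pc_near u (y + -x)
    simp only [tr, Equiv.coe_addRight, pl, Prod.fst_add, Prod.snd_add, Prod.fst_neg,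
      Prod.snd_neg] at this k1 k2 ⊢
    push_cast at this ⊢
    rw [abs_le]
    constructor <;> linarith [this.1, this.2]
  rw [hn] at r
  have h1 := hC u c a 4 x n g _ hu hg hg' hp r r'
  have h2 := hC u c 4 a x n _ g hu hg' hg (by omega) r' r
  have h3 := lg_sqrt (n := n) (J := J) (by omega)
  have h4 : (2 : ℝ) ^ J ≤ 3 ^ J := pow_le_pow_left₀ (by norm_num) (by norm_num) J
  have h5 : 0 ≤ a * 2 ^ J := mul_nonneg r.nonneg (by positivity)
  have h6 := mul_le_mul_of_nonneg_left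
    (show (a + 4 + lg n * √n + 1) * 2 ^ J ≤ 23 * (a * 2 ^ J + 3 ^ J) by linarith) C0
  rw [e, hn'] at h1 h2
  rw [zz, mul_div_cancel₀ _ (by positivity), hn, Nat.add_sub_cancel, abs_le]
  constructor <;> linarith

end Pool.Agent.MP_151d89_pr.H58
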