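import Pool.Agent.MP_151d89_pr.H58.Spec3

/-! The second moment of a random signed sum. -/

set_option autoImplicit false
open MeasureTheory Finset Filter

namespace Pool.Agent.MP_151d89_pr.H58
open Pool.Agent.MP_151d89_pr.H82 Pool.Agent.MP_151d89_pr.H33 Pool.Agent.MP_151d89_pr.H67
  Pool.Agent.MP_151d89_pr.H30
open Classical

theorem rad_row : RadStmt := by
  intro I c
  induction I using Finset.induction_on with
  | empty => simp
  | insert a I ha ih =>
    rw [sum_powerset_insert ha, ← sum_add_distrib, card_insert_of_notMem ha, sum_insert ha,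
      sum_congr rfl (g := fun U => 2 * (∑ i ∈ I, (if i ∈ U then 1 else -1) * c i) ^ 2 +
        2 * c a ^ 2), sum_add_distrib, ← mul_sum, ih, sum_const, card_powerset, nsmul_eq_mul]
    · push_cast
      ring
    intro U hU
    have h1 : a ∉ U := fun h => ha (mem_powerset.1 hU h)
    have h2 : ∑ i ∈ I, (if i ∈ insert a U then 1 else -1) * c i =
        ∑ i ∈ I, (if i ∈ U then 1 else -1) * c i := sum_congr rfl fun i hi => by
      have : i ≠ a := fun e => ha (e ▸ hi)
      simp [this]
    rw [sum_insert ha, sum_insert ha, if_neg h1, if_pos (mem_insert_self a U), h2]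
    ring

end Pool.Agent.MP_151d89_pr.H58
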