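import Pool.Agent.MP_151d89_pr.H58.Spec3

/-!
Boundary values close to a mean of boundary values, with at least the mean entropy.
-/

set_option autoImplicit false
open MeasureTheory Finset Filter

namespace Pool.Agent.MP_151d89_pr.H58
open Pool.Agent.MP_151d89_pr.H82 Pool.Agent.MP_151d89_pr.H33 Pool.Agent.MP_151d89_pr.H67
  Pool.Agent.MP_151d89_pr.H30
open Classical

namespace RichP

theorem lz_mid (X : Finset (ℤ × ℤ)) {a b : Conf} (ha : Hom a) (hb : Hom b)
    (p : ∀ y, (a y - b y) % 2 = 0) : lz X a + lz X b ≤ lz X (lo a b) + lz X (hi a b) := by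
  have h := pl_row X a b (fun _ => 1) (fun _ => 1) (fun _ => 1) (fun _ => 1) (fun y _ => p y)
    (fun _ => zero_le_one) (fun _ => zero_le_one) (fun _ => zero_le_one) (fun _ => zero_le_one)
    fun _ _ _ _ => le_rfl
  simp only [sum_const, nsmul_eq_mul, mul_one] at h
  rw [← exp_lz X ha, ← exp_lz X hb, ← exp_lz X (PLP.hom_lo ha hb p).1,
    ← exp_lz X (PLP.hom_lo ha hb p).2, ← Real.exp_add, ← Real.exp_add] at h
  exact Real.exp_le_exp.1 h

theorem step (X : Finset (ℤ × ℤ)) {a b g₀ : Conf} (ha : Hom a) (hb : Hom b)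
    (pa : ∀ y, (a y - g₀ y) % 2 = 0) (pb : ∀ y, (b y - g₀ y) % 2 = 0) :
    ∃ γ : Conf, Hom γ ∧ (∀ y, (γ y - g₀ y) % 2 = 0) ∧
      (∀ y, |(γ y : ℝ) - ((a y : ℝ) + b y) / 2| ≤ 1) ∧ (lz X a + lz X b) / 2 ≤ lz X γ := by
  have p : ∀ y, (a y - b y) % 2 = 0 := fun y => by
    have h1 := pa y
    have h2 := pb y
    omega
  have h := lz_mid X ha hb p
  rcases le_total (lz X (lo a b)) (lz X (hi a b)) with e | e
  · refine ⟨hi a b, (PLP.hom_lo ha hb p).2, fun y => ?_, fun y => ?_, by linarith⟩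
    · have h2 := pb y
      simp only [hi]
      omega
    · obtain ⟨h1, h2, h3⟩ := lo_hi (p y)
      rw [abs_le]
      constructor <;> linarith
  · refine ⟨lo a b, (PLP.hom_lo ha hb p).1, fun y => ?_, fun y => ?_, by linarith⟩
    · have h2 := pa y
      simp only [lo]
      omega
    · obtain ⟨h1, h2, h3⟩ := lo_hi (p y)
      rw [abs_le]
      constructor <;> linarith

end RichP

theorem rich_row : RichStmt := by
  intro ι X g₀ g k
  induction k with
  | zero =>
    intro I hI h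
    obtain ⟨i, rfl⟩ := card_eq_one.1 hI
    obtain ⟨h1, h2⟩ := h i (mem_singleton_self i)
    exact ⟨g i, h1, h2, fun y => by simp, by simp⟩
  | succ k ih =>
    intro I hI h
    obtain ⟨I₁, hs, hc⟩ := exists_subset_card_eq (s := I) (n := 2 ^ k) (by rw [hI, pow_succ]; omega)
    have hc' : (I \ I₁).card = 2 ^ k := by
      rw [card_sdiff_of_subset hs, hI, hc, pow_succ]
      omega
    obtain ⟨a, ha, pa, da, la⟩ := ih I₁ hc fun i hi => h i (hs hi)
    obtain ⟨b, hb, pb, db, lb⟩ := ih (I \ I₁) hc' fun i hi => h i (sdiff_subset hi)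
    obtain ⟨γ, h1, h2, h3, h4⟩ := RichP.step X ha hb pa pb
    have e : ∀ φ : ι → ℝ, (∑ i ∈ I, φ i) / 2 ^ (k + 1) =
        ((∑ i ∈ I₁, φ i) / 2 ^ k + (∑ i ∈ I \ I₁, φ i) / 2 ^ k) / 2 := fun φ => by
      rw [← sum_sdiff hs, pow_succ]
      ring
    refine ⟨γ, h1, h2, fun y => ?_, ?_⟩
    · have a1 := abs_le.1 (da y)
      have a2 := abs_le.1 (db y)
      have a3 := abs_le.1 (h3 y)
      rw [e, abs_le]
      push_cast
      constructor <;> linarith [a1.1, a1.2, a2.1, a2.2, a3.1, a3.2]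
    · rw [e]
      linarith

end Pool.Agent.MP_151d89_pr.H58
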