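import Pool.Agent.MP_151d89_pr.H58.Spec3

/-!
Boundary values close to the mollified mean with large entropy.
-/

set_option autoImplicit false
open MeasureTheory Finset Filter

namespace Pool.Agent.MP_151d89_pr.H58
open Pool.Agent.MP_151d89_pr.H82 Pool.Agent.MP_151d89_pr.H33 Pool.Agent.MP_151d89_pr.H67
  Pool.Agent.MP_151d89_pr.H30
open Classical

namespace RichPP

/-- a typical function with large entropy in a given cell -/
theorem pick (h2 : ConcStmt) {R ρ : ℕ} {g : Conf} (hg : Hom g) (hR : 1 ≤ R) (hρ : ρ ≤ R)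
    (x : ℤ × ℤ) :
    ∃ f ∈ FS (box 0 R) g, Dv 0 R f ∧ sg (box 0 R) g ρ x - 1 ≤ lz (box x ρ) f := by
  have hc := h2 0 R g hg hR
  have hR' : (1 : ℝ) ≤ R := by exact_mod_cast hR
  have hρ' : (ρ : ℝ) ≤ R := by exact_mod_cast hρ
  have h0 : (0 : ℝ) ≤ ρ := Nat.cast_nonneg _
  have hp : (R : ℝ) ^ 2 ≤ (R : ℝ) ^ 18 := pow_le_pow_right₀ hR' (by norm_num)
  have hk : ((2 * ρ + 1 : ℝ) ^ 2 + 1) * (1 / (18 * (R : ℝ) ^ 18)) < 1 := by
    rw [mul_one_div, div_lt_one (by positivity)]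
    nlinarith
  by_contra hn
  push Not at hn
  have hs := (sg_mem (box 0 R) g ρ x).1
  have h5 : sg (box 0 R) g ρ x ≤ av (box 0 R) (fun f => (sg (box 0 R) g ρ x - 1) +
      ((2 * ρ + 1 : ℝ) ^ 2 + 1) * ind (¬ Dv 0 R f)) g := by
    refine av_le fun f hf => ?_
    by_cases e : Dv 0 R f
    · rw [ind_neg (not_not.2 e)]
      linarith [hn f hf e]
    · rw [ind_pos e]
      have := lz_le (box x ρ) f
      rw [card_box] at this
      push_cast at this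
      linarith
  rw [av_add, av_const _ _ hg, av_smul] at h5
  have h6 := mul_le_mul_of_nonneg_left hc (show (0 : ℝ) ≤ (2 * ρ + 1 : ℝ) ^ 2 + 1 by positivity)
  linarith

theorem par_sum {f : Conf} (hf : Hom f) (y : ℤ × ℤ) : (f y - (y.1 + y.2 + f 0)) % 2 = 0 :=
  par (b := fun y => y.1 + y.2 + f 0) hf (fun x y h => by
    simp only [Int.abs_eq_natAbs] at h ⊢
    omega) (z := 0) (by simp) y

/-- the translated function -/
theorem shifted (h2 : ConcStmt) {R ρ : ℕ} {g : Conf} (hg : Hom g) (hR : 1 ≤ R) (hρ : ρ ≤ R)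
    (x s : ℤ × ℤ) :
    ∃ G : Conf, Hom G ∧ (∀ y, (G y - g y) % 2 = 0) ∧
      (∀ y, |(G y : ℝ) - mn (box 0 R) g (y + s)| ≤ ph R + 1) ∧
      sg (box 0 R) g ρ (x + s) - 1 ≤ lz (box x ρ) G := by
  obtain ⟨f, hf, hD, hl⟩ := pick h2 hg hR hρ (x + s)
  have hf' := (mem_FS.1 hf).1
  refine ⟨tr (Equiv.addRight s) 1 ((s.1 + s.2) % 2) f, hom_tr (iso_add s) (Or.inl rfl) _ hf',
    fun y => ?_, fun y => ?_, ?_⟩
  · have a1 := par_FS (g := g) (g' := g) (fun _ _ => by simp) hf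
      (mem_FS.2 ⟨hg, fun _ _ => rfl⟩) y
    have a2 := par_sum hf' y
    have a3 := par_sum hf' (y + s)
    simp only [tr, Equiv.coe_addRight, Prod.fst_add, Prod.snd_add] at a3 ⊢
    omega
  · have a1 := abs_le.1 (hD (y + s))
    rw [mn_congr hf] at a1
    have a2 : (0 : ℝ) ≤ (((s.1 + s.2) % 2 : ℤ) : ℝ) := by
      exact_mod_cast (show 0 ≤ (s.1 + s.2) % 2 by omega)
    have a3 : (((s.1 + s.2) % 2 : ℤ) : ℝ) ≤ 1 := by
      exact_mod_cast (show (s.1 + s.2) % 2 ≤ 1 by omega)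
    have a4 : ((tr (Equiv.addRight s) 1 ((s.1 + s.2) % 2) f y : ℤ) : ℝ) =
        f (y + s) + (((s.1 + s.2) % 2 : ℤ) : ℝ) := by
      simp only [tr, Equiv.coe_addRight, one_mul, Int.cast_add]
    rw [a4, abs_le]
    constructor <;> linarith
  · rw [lz_tr (iso_add s) (Or.inl rfl) _ (Λ := box (x + s) ρ) fun y => by
      rw [← box_add, add_sub_cancel_right]]
    exact hl

/-- one mollifier -/
theorem level (h1 : RichStmt) (h2 : ConcStmt) (h3 : MolStmt) {R ρ : ℕ} {g : Conf} (hg : Hom g)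
    (hR : 1 ≤ R) (hρ : ρ ≤ R) (j : ℕ) (x w : ℤ × ℤ) :
    ∃ γ : Conf, Hom γ ∧ (∀ y, (γ y - g y) % 2 = 0) ∧
      (∀ y, |(γ y : ℝ) - ml (2 ^ j) (mn (box 0 R) g) (y + w)| ≤ ph R + 2 * j + 3) ∧
      ml (2 ^ j) (sg (box 0 R) g ρ) (x + w) - 1 ≤ lz (box x ρ) γ := by
  choose G a1 a2 a3 a4 using fun s => shifted h2 hg hR hρ x s
  have hc : (sqr (2 ^ j)).card = 2 ^ (2 * j + 2) := by
    rw [(h3 (2 ^ j) (fun _ => 0) Nat.one_le_two_pow).1]
    ring
  have hN : (4 : ℝ) * ((2 ^ j : ℕ) : ℝ) ^ 2 = 2 ^ (2 * j + 2) := by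
    push_cast
    ring
  have hN0 : (0 : ℝ) < 2 ^ (2 * j + 2) := by positivity
  have hc' : ((sqr (2 ^ j)).card : ℝ) = 2 ^ (2 * j + 2) := by exact_mod_cast hc
  obtain ⟨γ, b1, b2, b3, b4⟩ := h1 (ℤ × ℤ) (box x ρ) g (fun v => G (w + v)) (2 * j + 2)
    (sqr (2 ^ j)) hc fun v _ => ⟨a1 _, a2 _⟩
  refine ⟨γ, b1, b2, fun y => ?_, ?_⟩
  · have c1 : |(∑ v ∈ sqr (2 ^ j), (G (w + v) y : ℝ)) / 2 ^ (2 * j + 2) -
        ml (2 ^ j) (mn (box 0 R) g) (y + w)| ≤ ph R + 1 := by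
      rw [ml, hN, ← sub_div, ← sum_sub_distrib, abs_div, abs_of_pos hN0, div_le_iff₀ hN0]
      refine (abs_sum_le_sum_abs _ _).trans
        ((sum_le_card_nsmul _ _ (ph R + 1) fun v _ => ?_).trans ?_)
      · rw [add_assoc]
        exact a3 _ _
      · rw [nsmul_eq_mul, hc', mul_comm]
    have c2 := abs_le.1 (b3 y)
    have c3 := abs_le.1 c1
    push_cast at c2
    rw [abs_le]
    constructor <;> linarith
  · refine le_trans ?_ b4
    rw [ml, hN, le_div_iff₀ hN0, sub_mul, div_mul_cancel₀ _ hN0.ne', one_mul, ← hc',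
      card_eq_sum_ones, Nat.cast_sum, ← sum_sub_distrib]
    refine sum_le_sum fun v _ => ?_
    rw [add_assoc, Nat.cast_one]
    exact a4 _

end RichPP

theorem richP_row (h1 : RichStmt) (h2 : ConcStmt) (h3 : MolStmt) : RichPStmt := by
  intro R ρ j i g x w hg hR hρ hji
  obtain ⟨γ₁, a1, a2, a3, a4⟩ := RichPP.level h1 h2 h3 hg hR hρ j x w
  obtain ⟨γ₂, b1, b2, b3, b4⟩ := RichPP.level h1 h2 h3 hg hR hρ i x w
  obtain ⟨γ, c1, -, c3, c4⟩ := h1 Bool (box x ρ) g (fun b => cond b γ₁ γ₂) 1 univ (by simp)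
    fun b _ => by
      cases b
      · exact ⟨b1, b2⟩
      · exact ⟨a1, a2⟩
  simp only [Fintype.sum_bool, cond_true, cond_false, pow_one, Nat.cast_one] at c3 c4
  have hji' : (j : ℝ) ≤ i := by exact_mod_cast hji
  refine ⟨γ, c1, fun y => ?_, ?_⟩
  · have d1 := abs_le.1 (a3 y)
    have d2 := abs_le.1 (b3 y)
    have d3 := abs_le.1 (c3 y)
    rw [pr, abs_le]
    constructor <;> linarith
  · rw [pr]
    linarith

end Pool.Agent.MP_151d89_pr.H58
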