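import Pool.Agent.MP_151d89_pr.H58.Spec3

/-!
A corridor of negative second differences costs energy.
-/

set_option autoImplicit false
open MeasureTheory Finset Filter

namespace Pool.Agent.MP_151d89_pr.H58
open Pool.Agent.MP_151d89_pr.H82 Pool.Agent.MP_151d89_pr.H33 Pool.Agent.MP_151d89_pr.H67
  Pool.Agent.MP_151d89_pr.H30
open Classical

namespace SfourP

theorem pt_pt (b : Bool) (z : ℤ × ℤ) (a c : ℤ) : pt b z a + pt b 0 c = pt b z (a + c) := by
  simp only [pt, zero_add, add_smul, add_assoc]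

theorem pt_sub (b : Bool) (z : ℤ × ℤ) (a c : ℤ) : pt b z (a + c) - pt b 0 c = pt b z a := by
  rw [← pt_pt, add_sub_cancel_right]

theorem tel (Q : ℤ × ℤ → ℝ) (b : Bool) (z : ℤ × ℤ) (a : ℤ) (n : ℕ) :
    ∑ l ∈ range n, dd b Q (pt b z (l + a)) = Q (pt b z (n + a)) - Q (pt b z a) := by
  induction n with
  | zero => simp
  | succ n ih =>
    have : pt b z (n + a) + dir b = pt b z ((n + 1 : ℕ) + a) := by
      simp only [pt, Nat.cast_succ, add_smul, one_smul]
      abel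
    rw [sum_range_succ, ih, dd, this]
    ring

theorem key (Q : ℤ × ℤ → ℝ) (b : Bool) (z : ℤ × ℤ) (u : ℕ) :
    -(Q (pt b z (2 * (2 * u) : ℕ)) - 2 * Q (pt b z (2 * u : ℕ)) + Q z) ≤
      ∑ l ∈ range (2 * u), ds Q (pt b 0 u) (pt b z (l + u)) := by
  have h1 := tel Q b z (u + u) (2 * u)
  have h2 := tel Q b z 0 (2 * u)
  have e1 : ((2 * u : ℕ) : ℤ) + (u + u) = (2 * (2 * u) : ℕ) := by push_cast; ring
  have e2 : (u + u : ℤ) = (2 * u : ℕ) := by push_cast; ring
  simp only [add_zero] at h2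
  rw [show pt b z 0 = z by simp [pt]] at h2
  rw [e1] at h1
  have h3 : ∑ l ∈ range (2 * u), (dd b Q (pt b z l) - dd b Q (pt b z (l + (u + u)))) ≤
      ∑ l ∈ range (2 * u), ds Q (pt b 0 u) (pt b z (l + u)) := sum_le_sum fun l _ => by
    refine le_trans ?_ (crd_le b _)
    rw [pt_pt, pt_sub, add_assoc, ← crd_sl, ← crd_sl]
    refine le_trans (le_of_eq ?_) (neg_le_abs _)
    cases b <;> simp [crd]
  rw [sum_sub_distrib, h1, h2, e2] at h3
  linarith

theorem young {x η : ℝ} (hη : 0 < η) (hx : 0 ≤ x) : x ≤ η / 4 + (4 / η) ^ 9 * x ^ 10 := by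
  rcases le_total x (η / 4) with h | h
  · exact le_add_of_le_of_nonneg h (by positivity)
  · have h1 : 1 ≤ 4 / η * x := by
      rw [div_mul_eq_mul_div, le_div_iff₀ hη]
      linarith
    have h2 := mul_le_mul_of_nonneg_right (one_le_pow₀ h1 (n := 9)) hx
    rw [mul_pow] at h2
    nlinarith

theorem near {Q : ℤ × ℤ → ℝ} (hQ : Lip Q) (b : Bool) {y z : ℤ × ℤ} {h : ℕ} (hz : z ∈ box y h)
    (a : ℤ) : |Q (pt b z a) - Q (pt b y a)| ≤ 2 * h := by
  refine (hQ _ _).trans ?_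
  rw [mem_box] at hz
  have : dist1 (pt b z a) (pt b y a) ≤ 2 * h := by
    simp only [dist1, pt, Prod.fst_add, Prod.snd_add, add_sub_add_right_eq_sub, Int.abs_eq_natAbs]
    omega
  exact_mod_cast this

theorem line {M : ℤ × ℤ → ℝ} (hM : Lip M) (b : Bool) (y : ℤ × ℤ) (a : ℤ) (t : ℕ) :
    |M (pt b y (a + t)) - M (pt b y a)| ≤ t := by
  refine (hM _ _).trans (le_of_eq ?_)
  have : dist1 (pt b y (a + t)) (pt b y a) = t := by cases b <;> simp [dist1, pt, dir]
  exact_mod_cast this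

/-- many points near the corridor -/
theorem many {m h : ℕ} (hm : 2 * (2 * h + 1) ≤ m) (y : ℕ → ℤ × ℤ)
    (hy : ∀ r, 1 ≤ r → 2 * r ≤ m → nrm (y r) = r) : ∃ N : Finset (ℤ × ℤ),
    m * (h + 1) ≤ 4 * N.card ∧ ∀ z ∈ N, ∃ r, 1 ≤ r ∧ 2 * r ≤ m ∧ z ∈ box (y r) h := by
  obtain ⟨k, hk⟩ : ∃ k, k = m / (2 * (2 * h + 1)) := ⟨_, rfl⟩
  have k1 : 1 ≤ k := hk ▸ (Nat.one_le_div_iff (by omega)).2 hm
  have k2 : m < 2 * (2 * h + 1) * (k + 1) := hk ▸ Nat.lt_mul_div_succ m (by omega)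
  have k3 : 2 * (2 * h + 1) * k ≤ m := hk ▸ Nat.mul_div_le m _
  have hr : ∀ j ∈ Icc 1 k, 1 ≤ j * (2 * h + 1) ∧ 2 * (j * (2 * h + 1)) ≤ m := fun j hj => by
    rw [mem_Icc] at hj
    constructor <;> nlinarith
  refine ⟨(Icc 1 k).biUnion fun j => box (y (j * (2 * h + 1))) h, ?_, fun z hz => ?_⟩
  · rw [card_biUnion]
    · simp only [card_box, sum_const, Nat.card_Icc, smul_eq_mul, Nat.add_sub_cancel]
      have : m ≤ 4 * (k * (2 * h + 1)) := by nlinarith
      calc _ ≤ 4 * (k * (2 * h + 1)) * (2 * h + 1) := Nat.mul_le_mul this (by omega)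
        _ = _ := by ring
    · intro j hj j' hj' ne
      refine disjoint_left.2 fun z a a' => ne ?_
      have e := hy _ (hr j hj).1 (hr j hj).2
      have e' := hy _ (hr j' hj').1 (hr j' hj').2
      have c : ∀ {x : ℤ × ℤ}, z ∈ box x h → nrm z ≤ nrm x + h ∧ nrm x ≤ nrm z + h := fun c => by
        rw [mem_box] at c
        simp only [nrm, Int.abs_eq_natAbs]
        omega
      have c1 := c a
      have c2 := c a'
      rw [e] at c1
      rw [e'] at c2
      push_cast at c1 c2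
      have : (j : ℤ) = j' := by nlinarith
      exact_mod_cast this
  · obtain ⟨j, hj, hz⟩ := mem_biUnion.1 hz
    exact ⟨_, (hr j hj).1, (hr j hj).2, hz⟩

end SfourP

open SfourP in
theorem sfour_row (h : MolStmt) : SfourStmt := by
  intro B hB
  refine ⟨64 + 1 + 512 * 4 ^ 9 * B, by positivity, fun M i₀ i m ζ η b hM hi hζ hs hm hE hc => ?_⟩
  have hBζ : 0 ≤ 512 * 4 ^ 9 * B * ζ := by positivity
  rcases le_or_gt η (64 * ζ) with hη | hη
  · nlinarith
  have η0 : 0 < η := lt_trans (by positivity) hη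
  obtain ⟨hQ, hd, -⟩ := (h (2 ^ i₀) M Nat.one_le_two_pow).2.2.2 hM
  generalize ml (2 ^ i₀) M = Q at *
  obtain ⟨u, u1, hu⟩ : ∃ u : ℕ, 1 ≤ u ∧ 2 ^ i = 2 * u :=
    ⟨2 ^ (i - 1), Nat.one_le_two_pow, by rw [← pow_succ']; congr 1; omega⟩
  have hu' : (2 : ℝ) ^ i = 2 * u := by exact_mod_cast hu
  have hu'' : (2 : ℤ) ^ i = 2 * u := by exact_mod_cast hu
  push_cast at hd
  rw [hu] at hm hc
  rw [hu'] at hs hE hc
  rw [hu''] at hE
  have u0 : (0 : ℝ) < u := by exact_mod_cast u1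
  have m0 : (0 : ℝ) < m := by exact_mod_cast (by omega : 0 < m)
  choose! y hy hD using hc
  have η2 : η ≤ 2 := by
    have a := hD 1 le_rfl (by omega)
    have a1 := (abs_le.1 (line hM b (y 1) 0 (2 * u))).2
    have a2 := (abs_le.1 (line hM b (y 1) (2 * u : ℕ) (2 * u))).1
    rw [zero_add, show pt b (y 1) 0 = y 1 by simp [pt]] at a1
    rw [← Nat.cast_add, ← two_mul] at a2
    push_cast at a a1 a2
    nlinarith
  obtain ⟨k, k1, k2⟩ : ∃ k : ℕ, (k : ℝ) ≤ η * (2 * u) / 32 ∧ η * (2 * u) / 32 < k + 1 :=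
    ⟨_, Nat.floor_le (by positivity), Nat.lt_floor_add_one _⟩
  have k3 : 8 * k ≤ u := by exact_mod_cast (by nlinarith : (8 * k : ℝ) ≤ u)
  obtain ⟨N, hN, hz⟩ := many (h := k) (by omega) y hy
  have p1 : ∀ z ∈ N, η * (2 * u) / 4 ≤
      (4 / η) ^ 9 * ∑ l ∈ range (2 * u), ds Q (pt b 0 u) (pt b z (l + u)) ^ 10 := fun z a => by
    obtain ⟨r, r1, r2, a⟩ := hz z a
    have c := hD r r1 r2
    have c0 := key Q b z u
    have c1 := (abs_le.1 (near hQ b a (2 * (2 * u) : ℕ))).2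
    have c2 := (abs_le.1 (near hQ b a (2 * u : ℕ))).1
    have c3 := (abs_le.1 (near hQ b a 0)).2
    simp only [pt, zero_smul, add_zero] at c3
    have d1 := (abs_le.1 (hd (pt b (y r) (2 * (2 * u) : ℕ)))).2
    have d2 := (abs_le.1 (hd (pt b (y r) (2 * u : ℕ)))).1
    have d3 := (abs_le.1 (hd (y r))).2
    have c4 := sum_le_sum fun l (_ : l ∈ range (2 * u)) =>
      young (x := ds Q (pt b 0 u) (pt b z (l + u))) η0 (nm_nonneg _)
    rw [sum_add_distrib, ← mul_sum, sum_const, card_range, nsmul_eq_mul] at c4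
    rw [Nat.cast_mul 2 u, Nat.cast_ofNat] at c4
    nlinarith [mul_le_mul_of_nonneg_right hη.le u0.le]
  have p2 : ∀ l ∈ range (2 * u), ∑ z ∈ N, ds Q (pt b 0 u) (pt b z (l + u)) ^ 10 ≤
      B * ζ ^ 11 * (2 * u) * m := fun l hl => by
    refine le_trans ?_ (hE (pt b 0 u) (by cases b <;> simp [nrm, pt, dir] <;> omega))
    rw [← sum_image (f := fun x => ds Q (pt b 0 u) x ^ 10) (g := fun z => pt b z (l + u))
      fun _ _ _ _ e => add_right_cancel e]
    refine sum_le_sum_of_subset_of_nonneg (image_subset_iff.2 fun z a => ?_)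
      fun _ _ _ => by positivity
    obtain ⟨r, r1, r2, a⟩ := hz z a
    have := hy r r1 r2
    rw [mem_range] at hl
    rw [mem_box] at a ⊢
    cases b <;> simp only [nrm, pt, dir, Int.abs_eq_natAbs, Prod.smul_mk, smul_eq_mul, mul_one,
      mul_zero, Prod.fst_add, Prod.snd_add, Prod.fst_zero, Prod.snd_zero] at this ⊢ <;> omega
  have p3 := sum_le_sum p1
  rw [← mul_sum, sum_comm, sum_const, nsmul_eq_mul] at p3
  have p4 := sum_le_sum p2
  rw [sum_const, card_range, nsmul_eq_mul, Nat.cast_mul 2 u, Nat.cast_ofNat] at p4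
  have p5 : (m * (k + 1) : ℝ) ≤ 4 * N.card := by exact_mod_cast hN
  have p6 : m * (η * (2 * u) / 32) / 4 * (η * (2 * u) / 4) ≤
      (4 / η) ^ 9 * (2 * u * (B * ζ ^ 11 * (2 * u) * m)) :=
    (mul_le_mul_of_nonneg_right (by nlinarith) (by positivity)).trans
      (p3.trans (mul_le_mul_of_nonneg_left p4 (by positivity)))
  have p7 : η ^ 11 ≤ 512 * 4 ^ 9 * B * ζ ^ 11 := by
    rw [div_pow, div_mul_eq_mul_div (4 ^ 9 : ℝ), le_div_iff₀ (by positivity)] at p6
    refine le_of_mul_le_mul_right ?_ (by positivity : 0 < m * (2 * u : ℝ) ^ 2 / 512)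
    nlinarith
  refine le_of_pow_le_pow_left₀ (n := 11) (by norm_num) (by positivity) (p7.trans ?_)
  rw [mul_pow]
  refine mul_le_mul_of_nonneg_right (le_trans ?_ (le_self_pow₀ ?_ (by norm_num))) (by positivity)
  · linarith
  · have : 0 ≤ 512 * 4 ^ 9 * B := by positivity
    linarith

end Pool.Agent.MP_151d89_pr.H58
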