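import Pool.Agent.MP_151d89_pr.H58.Spec3

/-!
Slopes of translates are close on average.
-/

set_option autoImplicit false
open MeasureTheory Finset Filter

namespace Pool.Agent.MP_151d89_pr.H58
open Pool.Agent.MP_151d89_pr.H82 Pool.Agent.MP_151d89_pr.H33 Pool.Agent.MP_151d89_pr.H67
  Pool.Agent.MP_151d89_pr.H30
open Classical

namespace SoneP

theorem near (h : MolStmt) {M : ℤ × ℤ → ℝ} (hM : Lip M) {j i : ℕ} (hj : j ≤ i) (z : ℤ × ℤ) :
    |pr (2 ^ j) (2 ^ i) M z - M z| ≤ 2 * 2 ^ i := by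
  have a := ((h (2 ^ j) M Nat.one_le_two_pow).2.2.2 hM).2.1 z
  have b := ((h (2 ^ i) M Nat.one_le_two_pow).2.2.2 hM).2.1 z
  have c : (2 : ℝ) ^ j ≤ 2 ^ i := pow_le_pow_right₀ (by norm_num) hj
  push_cast at a b
  rw [abs_le] at *
  unfold pr
  constructor <;> linarith [a.1, a.2, b.1, b.2]

theorem avn (h : MolStmt) {M : ℤ × ℤ → ℝ} (hM : Lip M) {j i : ℕ} (hj : j ≤ i) {w : ℤ × ℤ}
    (hw : nrm w ≤ 2 * 2 ^ i) (y : ℤ × ℤ) :
    |M y - av2 (pr (2 ^ j) (2 ^ i) M) w y| ≤ 6 * 2 ^ i := by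
  have a := near h hM hj (y + w)
  have b := near h hM hj (y - w)
  have e1 : dist1 (y + w) y ≤ 4 * 2 ^ i := by
    simp only [nrm, dist1, Int.abs_eq_natAbs, Prod.fst_add, Prod.snd_add] at *
    omega
  have e2 : dist1 (y - w) y ≤ 4 * 2 ^ i := by
    simp only [nrm, dist1, Int.abs_eq_natAbs, Prod.fst_sub, Prod.snd_sub] at *
    omega
  have c := (hM (y + w) y).trans (show (dist1 (y + w) y : ℝ) ≤ 4 * 2 ^ i by exact_mod_cast e1)
  have d := (hM (y - w) y).trans (show (dist1 (y - w) y : ℝ) ≤ 4 * 2 ^ i by exact_mod_cast e2)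
  rw [abs_le] at *
  unfold av2
  constructor <;> linarith [a.1, a.2, b.1, b.2, c.1, c.2, d.1, d.2]

theorem ds_nonneg (P : ℤ × ℤ → ℝ) (w x : ℤ × ℤ) : 0 ≤ ds P w x := nm_nonneg _

theorem le_pow {x κ : ℝ} (hκ : 0 < κ) (hx : 0 ≤ x) : x ≤ κ + x ^ 10 / κ ^ 9 := by
  rcases le_total x κ with e | e
  · exact e.trans (le_add_of_nonneg_right (by positivity))
  · have : x ≤ x ^ 10 / κ ^ 9 := by
      rw [le_div_iff₀ (by positivity), pow_succ' x 9]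
      gcongr
    linarith

theorem sum_le (h : MolStmt) {c C κ : ℝ} (hc : 0 < c) (hC : 0 ≤ C) {M : ℤ × ℤ → ℝ} (hM : Lip M)
    {j i m : ℕ} (hj : j ≤ i) (hκ : 0 < κ) (hκ1 : κ ≤ 1) (hm : (2 : ℝ) ^ i ≤ κ ^ 10 * m)
    (hE : EP c C M j i (7 * m)) {w : ℤ × ℤ} (hw : nrm w ≤ 2 * 2 ^ i) :
    ∑ x ∈ box 0 (7 * m), ds (pr (2 ^ j) (2 ^ i) M) w x ≤ (225 + 7000 * (C / c)) * κ * m ^ 2 := by
  have t1 : (1 : ℝ) ≤ 2 ^ i := one_le_pow₀ (by norm_num)
  have m0 : (0 : ℝ) ≤ m := Nat.cast_nonneg m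
  have tm : (2 : ℝ) ^ i ≤ m :=
    hm.trans (mul_le_of_le_one_left m0 (pow_le_one₀ hκ.le hκ1))
  have m1 : (1 : ℝ) ≤ m := t1.trans tm
  have e := hE w hw
  have s1 : ∑ y ∈ box 0 (6 * (7 * m)), |M y - av2 (pr (2 ^ j) (2 ^ i) M) w y| ≤
      (85 * m) ^ 2 * (6 * 2 ^ i) := by
    refine (sum_le_card_nsmul _ _ _ fun y _ => avn h hM hj hw y).trans ?_
    rw [card_box, nsmul_eq_mul]
    push_cast
    gcongr
    linarith
  have s2 : (∑ y ∈ box 0 (6 * (7 * m)), |M y - av2 (pr (2 ^ j) (2 ^ i) M) w y|) / ((7 * m : ℕ) : ℝ)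
      ≤ 6999 * (2 ^ i * m) := by
    push_cast
    rw [div_le_iff₀ (by positivity)]
    refine s1.trans ?_
    have : (0 : ℝ) ≤ 2 ^ i * m ^ 2 := by positivity
    nlinarith
  have s3 : (4 : ℝ) ^ i ≤ 2 ^ i * m := by
    rw [show (4 : ℝ) = 2 * 2 by norm_num, mul_pow]
    gcongr
  have s4 : (2 : ℝ) ^ i * m ≤ κ ^ 10 * m ^ 2 := by
    rw [sq, ← mul_assoc]
    gcongr
  have s5 : ∑ x ∈ box 0 (7 * m), ds (pr (2 ^ j) (2 ^ i) M) w x ^ 10 ≤
      7000 * (C / c) * (κ ^ 10 * m ^ 2) := by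
    have : c * ∑ x ∈ box 0 (7 * m), ds (pr (2 ^ j) (2 ^ i) M) w x ^ 10 ≤
        C * (7000 * (κ ^ 10 * m ^ 2)) := e.trans (by gcongr; linarith)
    rw [← le_div_iff₀' hc] at this
    refine this.trans (le_of_eq ?_)
    ring
  calc _ ≤ ∑ x ∈ box 0 (7 * m), (κ + ds (pr (2 ^ j) (2 ^ i) M) w x ^ 10 / κ ^ 9) :=
        sum_le_sum fun x _ => le_pow hκ (ds_nonneg _ _ _)
    _ = (2 * (7 * m) + 1) ^ 2 * κ +
        (∑ x ∈ box 0 (7 * m), ds (pr (2 ^ j) (2 ^ i) M) w x ^ 10) / κ ^ 9 := by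
        rw [sum_add_distrib, sum_const, card_box, nsmul_eq_mul, sum_div]
        push_cast
        rfl
    _ ≤ (15 * m) ^ 2 * κ + 7000 * (C / c) * (κ ^ 10 * m ^ 2) / κ ^ 9 := by
        gcongr
        linarith
    _ = _ := by
        field_simp
        ring

theorem ds_ml (s t : ℕ) (M : ℤ × ℤ → ℝ) (w x : ℤ × ℤ) :
    ds (ml s M) w x ≤ 2 * ds (pr s t M) w x + ds (pr t t M) w x := by
  have a1 := crd_le true (sl (pr s t M) (x + w) - sl (pr s t M) (x - w))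
  have a2 := crd_le false (sl (pr s t M) (x + w) - sl (pr s t M) (x - w))
  have b1 := crd_le true (sl (pr t t M) (x + w) - sl (pr t t M) (x - w))
  have b2 := crd_le false (sl (pr t t M) (x + w) - sl (pr t t M) (x - w))
  unfold ds
  generalize nm (sl (pr s t M) (x + w) - sl (pr s t M) (x - w)) = p at *
  generalize nm (sl (pr t t M) (x + w) - sl (pr t t M) (x - w)) = q at *
  simp only [crd, sl, dd, pr, Prod.fst_sub, Prod.snd_sub, abs_le] at a1 a2 b1 b2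
  simp only [nm, sl, dd, Prod.fst_sub, Prod.snd_sub, max_le_iff, abs_le]
  refine ⟨⟨?_, ?_⟩, ?_, ?_⟩ <;> linarith [a1.1, a1.2, a2.1, a2.2, b1.1, b1.2, b2.1, b2.2]

end SoneP

open SoneP

theorem sone_row (h : MolStmt) : SoneStmt := by
  intro c C hc hC
  refine ⟨3 * (225 + 7000 * (C / c)), by positivity, ?_⟩
  intro M i₀ i m κ hM hi hκ hκ1 hm e1 e2 w hw
  have a := sum_le h hc hC hM hi hκ hκ1 hm e1 hw
  have b := sum_le h hc hC hM le_rfl hκ hκ1 hm e2 hw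
  refine (sum_le_sum fun x _ => ds_ml (2 ^ i₀) (2 ^ i) M w x).trans ?_
  rw [sum_add_distrib, ← mul_sum]
  linarith

end Pool.Agent.MP_151d89_pr.H58
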