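import Pool.Agent.MP_151d89_pr.H58.Spec3

/-!
The cost of gluing is small.
-/

set_option autoImplicit false
open MeasureTheory Finset Filter

namespace Pool.Agent.MP_151d89_pr.H58
open Pool.Agent.MP_151d89_pr.H82 Pool.Agent.MP_151d89_pr.H33 Pool.Agent.MP_151d89_pr.H67
  Pool.Agent.MP_151d89_pr.H30
open Classical

namespace SthreeP

theorem term {M Q : ℤ × ℤ → ℝ} {s : ℝ} (hM : Lip M) (hQ : ∀ y, |Q y - M y| ≤ 2 * s)
    (y a : ℤ × ℤ) : |2 * M y - (M (y + a) + M (y + (-a - (1, 1))))| ≤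
      |Q (y + a) + Q (y - a) - 2 * Q y| + (2 + 8 * s) := by
  have h1 := abs_le.1 (hQ y)
  have h2 := abs_le.1 (hQ (y + a))
  have h3 := abs_le.1 (hQ (y - a))
  have h4 := hM (y - a) (y + (-a - (1, 1)))
  have e : dist1 (y - a) (y + (-a - (1, 1))) = 2 := by
    simp only [dist1, Prod.fst_add, Prod.snd_add, Prod.fst_sub, Prod.snd_sub, Prod.fst_neg,
      Prod.snd_neg, Int.abs_eq_natAbs]
    omega
  rw [e] at h4
  have h5 := abs_le.1 h4
  push_cast at h5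
  have h6 := le_abs_self (Q (y + a) + Q (y - a) - 2 * Q y)
  have h7 := neg_abs_le (Q (y + a) + Q (y - a) - 2 * Q y)
  rw [abs_le]
  constructor <;> linarith [h1.1, h1.2, h2.1, h2.2, h3.1, h3.2, h5.1, h5.2]

theorem key (h1 : MolStmt) {M Q : ℤ × ℤ → ℝ} {s K : ℝ} {h t : ℕ} {D : Finset (ℤ × ℤ)}
    {w : ℤ × ℤ} (hM : Lip M) (hQ : ∀ y, |Q y - M y| ≤ 2 * s) (h0 : 1 ≤ h) (ht : h ≤ t)
    (hw : nrm w ≤ 2 * t)
    (hK : ∀ a, nrm a ≤ 3 * t → ∑ y ∈ D, |Q (y + a) + Q (y - a) - 2 * Q y| ≤ K) :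
    ∑ y ∈ D, |2 * M y - (ml h M (y + w) + ml h M (y - w))| ≤ K + D.card * (2 + 8 * s) := by
  obtain ⟨c, e, -⟩ := h1 h M h0
  have hc : ((sqr h).card : ℝ) = 4 * h ^ 2 := by exact_mod_cast c
  have hp : (0 : ℝ) < 4 * h ^ 2 := by positivity
  have p : ∀ y, |2 * M y - (ml h M (y + w) + ml h M (y - w))| ≤ (∑ v ∈ sqr h,
      (|Q (y + (w + v)) + Q (y - (w + v)) - 2 * Q y| + (2 + 8 * s))) / (4 * h ^ 2) := fun y => by
    have : 2 * M y - (ml h M (y + w) + ml h M (y - w)) = (∑ v ∈ sqr h,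
        (2 * M y - (M (y + (w + v)) + M (y + (-(w + v) - (1, 1)))))) / (4 * h ^ 2) := by
      rw [e, sum_sub_distrib, sum_const, nsmul_eq_mul, hc, sub_div, mul_div_cancel_left₀ _ hp.ne']
    rw [this, abs_div, abs_of_pos hp]
    gcongr
    exact (abs_sum_le_sum_abs _ _).trans (sum_le_sum fun v _ => term hM hQ y _)
  refine (sum_le_sum fun y _ => p y).trans ?_
  rw [← sum_div, sum_comm, div_le_iff₀ hp, ← hc]
  refine (sum_le_card_nsmul _ _ (K + D.card * (2 + 8 * s)) fun v hv => ?_).trans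
    (by rw [nsmul_eq_mul, mul_comm])
  rw [sum_add_distrib, sum_const, nsmul_eq_mul]
  refine add_le_add (hK _ ?_) le_rfl
  simp only [sqr, mem_product, mem_Ico] at hv
  simp only [nrm, Prod.fst_add, Prod.snd_add, Int.abs_eq_natAbs] at hw ⊢
  omega

end SthreeP

theorem sthree_row (h1 : MolStmt) (h2 : StwoStmt) : SthreeStmt := fun B hB => by
  obtain ⟨C, hC, h2⟩ := h2
  refine ⟨C * (B + 1) + 1690, by positivity, fun M i₀ j i m κ w hM hj a1 a2 a3 hE hw => ?_⟩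
  obtain ⟨-, -, -, e⟩ := h1 (2 ^ i₀) M Nat.one_le_two_pow
  obtain ⟨-, e1, e2⟩ := e hM
  push_cast at e1 e2
  have s1 : (1 : ℝ) ≤ 2 ^ i₀ := one_le_pow₀ one_le_two
  have s2 : (1 : ℝ) / 2 ^ i₀ ≤ κ := (div_le_iff₀ (by positivity)).2 a2
  have t1 : (0 : ℝ) < 2 ^ i := by positivity
  have m1 : (1 : ℝ) ≤ m := by
    have : 1 ≤ 2 ^ i := Nat.one_le_two_pow
    exact_mod_cast (show 1 ≤ m by omega)
  have hK : ∀ a, nrm a ≤ 3 * (2 ^ i : ℕ) → ∑ y ∈ box 0 (6 * m), |ml (2 ^ i₀) M (y + a) +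
      ml (2 ^ i₀) M (y - a) - 2 * ml (2 ^ i₀) M y| ≤ C * 2 ^ i * (B * κ * m ^ 2 + κ * m ^ 2) :=
    fun a ha => by
      have := h2 (ml (2 ^ i₀) M) (2 ^ i) m κ (B * κ * m ^ 2) a Nat.one_le_two_pow a3
        (fun b b' y => (e2 b b' y).trans s2) (fun w hw => hE w (by exact_mod_cast hw)) ha
      exact_mod_cast this
  have hw' : nrm w ≤ 2 * (2 ^ i : ℕ) := by exact_mod_cast hw
  have k1 := SthreeP.key h1 hM e1 Nat.one_le_two_pow (Nat.pow_le_pow_right two_pos hj) hw' hK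
  have k2 := SthreeP.key h1 hM e1 Nat.one_le_two_pow le_rfl hw' hK
  have p : ∀ y, |M y - av2 (pr (2 ^ j) (2 ^ i) M) w y| ≤
      (|2 * M y - (ml (2 ^ j) M (y + w) + ml (2 ^ j) M (y - w))| +
        |2 * M y - (ml (2 ^ i) M (y + w) + ml (2 ^ i) M (y - w))|) / 4 := fun y => by
    refine le_trans (le_of_eq ?_) (div_le_div_of_nonneg_right (abs_add_le _ _) (by norm_num))
    rw [← abs_of_pos (show (0 : ℝ) < 4 by norm_num), ← abs_div]
    congr 1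
    simp only [av2, pr]
    ring
  refine (sum_le_sum fun y _ => p y).trans ?_
  rw [← sum_div, sum_add_distrib]
  have c1 : ((box (0 : ℤ × ℤ) (6 * m)).card : ℝ) ≤ 169 * m ^ 2 := by
    rw [card_box]
    push_cast
    nlinarith
  have c2 : ((box (0 : ℤ × ℤ) (6 * m)).card : ℝ) * (2 + 8 * 2 ^ i₀) ≤
      169 * m ^ 2 * (10 * (κ * 2 ^ i)) := by
    gcongr
    linarith
  have c3 : 0 ≤ C * (B + 1) * κ * 2 ^ i * m ^ 2 := by
    have : 0 < κ := lt_of_lt_of_le (by positivity) s2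
    positivity
  have c4 : 0 ≤ κ * 2 ^ i * m ^ 2 := by
    have : 0 < κ := lt_of_lt_of_le (by positivity) s2
    positivity
  nlinarith

end Pool.Agent.MP_151d89_pr.H58
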