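import Pool.Agent.MP_151d89_pr.H58.Spec3

/-!
Typical functions with almost planar boundary values.
-/

set_option autoImplicit false
open MeasureTheory Finset Filter

namespace Pool.Agent.MP_151d89_pr.H58
open Pool.Agent.MP_151d89_pr.H82 Pool.Agent.MP_151d89_pr.H33 Pool.Agent.MP_151d89_pr.H67
  Pool.Agent.MP_151d89_pr.H30
open Classical

namespace StrP

theorem union {ι : Type} (I : Finset ι) (Λ : Finset (ℤ × ℤ)) (g : Conf) (p : ι → Conf → Prop)
    {q : ℝ} (h : ∀ i ∈ I, av Λ (fun f => ind (p i f)) g ≤ q) :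
    av Λ (fun f => ind (∃ i ∈ I, p i f)) g ≤ I.card * q := by
  rw [← nsmul_eq_mul]
  refine le_trans ?_ (sum_le_card_nsmul _ _ _ h)
  rw [← av_sum]
  refine av_le fun f _ => ?_
  by_cases e : ∃ i ∈ I, p i f
  · obtain ⟨i, hi, k⟩ := id e
    rw [ind_pos e, ← ind_pos k]
    exact single_le_sum (f := fun i => ind (p i f)) (fun _ _ => (ind_mem _).1) hi
  · rw [ind_neg e]
    exact sum_nonneg fun _ _ => (ind_mem _).1

theorem num {n : ℕ} (hn : 1 ≤ n) (x : ℤ × ℤ) : ((box x (n + 1) ×ˢ box x (n + 1)).card : ℝ) *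
    (2 * Real.exp (-(20 * lg n / 2))) ≤ 1 / 4 := by
  have h0 : (1 : ℝ) ≤ n := by exact_mod_cast hn
  have h1 : (5000 : ℝ) ≤ Real.exp (10 : ℕ) := by
    rw [← Real.exp_one_pow]
    exact le_trans (by norm_num) (pow_le_pow_left₀ (by norm_num) Real.exp_one_gt_d9.le 10)
  have h2 : (2 * ((n : ℝ) + 1) + 1) ^ 2 * (2 * (n + 1) + 1) ^ 2 ≤ 625 * n ^ 10 := by
    rw [← pow_add]
    calc _ ≤ (5 * (n : ℝ)) ^ 4 := by gcongr; linarith
      _ = 625 * n ^ 4 := by ring
      _ ≤ _ := by gcongr; norm_num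
  rw [show 20 * lg n / 2 = (10 : ℕ) * lg n by push_cast; ring, exp_lg hn, card_product, card_box,
    Real.exp_neg]
  push_cast at h1 ⊢
  refine (mul_le_mul_of_nonneg_right h2 (by positivity)).trans ?_
  have := Real.exp_pos 10
  field_simp
  linarith

theorem band {u : ℝ × ℝ} {c a A : ℝ} {x : ℤ × ℤ} {n : ℕ} {g f : Conf} (hn : 1 ≤ n) (hA : 0 ≤ A)
    (hr : Ring u c a x (n + 1) g) (hf : f ∈ FS (box x n) g) (h : Str u (2 * a) A x n f) :
    Band u c (3 * a + 3 * A * √n) (box x (n + 1)) f := fun y hy => by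
  obtain ⟨w, w1, w2, w3⟩ := exit x y n hy
  have h0 : (1 : ℝ) ≤ n := by exact_mod_cast hn
  have h1 := h y hy w (GlueP.mem_bx.2 w1.le)
  have h2 := hr w w1
  have h3 : √(dist1 y w : ℝ) ≤ 2 * √n := by
    have : (dist1 y w : ℝ) ≤ n + 1 := by
      have := nrm_nonneg (y - x)
      exact_mod_cast (by omega : dist1 y w ≤ n + 1)
    rw [Real.sqrt_le_left (by positivity), mul_pow, Real.sq_sqrt (by positivity)]
    linarith
  have h4 : (1 : ℝ) ≤ √n := Real.one_le_sqrt.2 h0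
  have h5 : A * (√(dist1 y w : ℝ) + 1) ≤ A * (3 * √n) := by gcongr; linarith
  rw [(mem_FS.1 hf).2 w w2] at h1
  simp only [pl, abs_le] at h1 h2 ⊢
  constructor <;> linarith [h1.1, h1.2, h2.1, h2.2]

end StrP

theorem str_row (h1 : IncrStmt) (h2 : Pla2Stmt) : StrStmt := by
  obtain ⟨C, hC, h2⟩ := h2
  refine ⟨3 * (C + 120), by linarith, fun u c a x n g hg hn hr => ?_⟩
  have l := @one_le_lg n
  refine le_trans (av_mono' fun f hf => ?_) ((StrP.union (box x (n + 1) ×ˢ box x (n + 1)) _ g _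
    fun i _ => h1 (box x n) g i.1 i.2 (20 * lg n) hg (by linarith)).trans (StrP.num hn x))
  contrapose!
  intro h
  have s : Str u (2 * a) ((C + 120) * lg n) x n f := fun y hy y' hy' => by
    have k1 := h (y, y') (mem_product.2 ⟨hy, hy'⟩)
    have k2 := h2 u c a x y y' n g hg hn hr hy hy'
    simp only [abs_le] at k1 k2 ⊢
    constructor <;> nlinarith [k1.1, k1.2, k2.1, k2.2]
  have p : 0 ≤ (C + 120) * lg n := by positivity
  refine ⟨fun y hy y' hy' => (s y hy y' hy').trans ?_, ?_⟩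
  · gcongr
    linarith
  · rw [mul_assoc 3]
    exact StrP.band hn p hr hf s

end Pool.Agent.MP_151d89_pr.H58
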