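import Pool.Agent.MP_151d89_pr.H58.Spec3

/-! Second differences are small on average. -/

set_option autoImplicit false
open MeasureTheory Finset Filter

namespace Pool.Agent.MP_151d89_pr.H58
open Pool.Agent.MP_151d89_pr.H82 Pool.Agent.MP_151d89_pr.H33 Pool.Agent.MP_151d89_pr.H67
  Pool.Agent.MP_151d89_pr.H30
open Classical

namespace StwoP

theorem walk {f : ℤ → ℝ} {T : ℤ} {D : ℝ} (h : ∀ k, |k| ≤ T → |f (k + 1) - f k| ≤ D) (k : ℤ) :
    |k| ≤ T → |f k - f 0| ≤ |(k : ℝ)| * D := by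
  induction k using Int.induction_on with
  | zero => simp
  | succ k ih =>
    intro hk
    have a : |(k : ℤ)| ≤ T := by rw [abs_le] at *; omega
    have h1 := ih a
    have h2 := h k a
    have h3 := abs_sub_le (f (k + 1)) (f k) (f 0)
    push_cast at h1 ⊢
    rw [abs_of_nonneg (a := (k : ℝ)) (by positivity)] at h1
    rw [abs_of_nonneg (a := (k : ℝ) + 1) (by positivity)]
    linarith
  | pred k ih =>
    intro hk
    have h1 := ih (by rw [abs_le] at *; omega)
    have h2 := h _ hk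
    have h3 := abs_sub_le (f (-k - 1)) (f (-k)) (f 0)
    have h4 : (0 : ℝ) ≤ k := Nat.cast_nonneg k
    rw [sub_add_cancel, abs_sub_comm] at h2
    push_cast at h1 ⊢
    rw [abs_of_nonpos (a := -(k : ℝ)) (by linarith)] at h1
    rw [abs_of_nonpos (a := -(k : ℝ) - 1) (by linarith)]
    linarith

theorem walk2 {F : ℤ × ℤ → ℝ} {T : ℤ} {D : ℝ} (hD : 0 ≤ D)
    (h : ∀ p b, nrm p ≤ T → |F (p + dir b) - F p| ≤ D) {a : ℤ × ℤ} (ha : nrm a ≤ T) :
    F a ≤ F 0 + 2 * T * D := by
  have a1 : |a.1| ≤ T := (le_max_left _ _).trans ha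
  have a2 : |a.2| ≤ T := (le_max_right _ _).trans ha
  have h1 := walk (f := fun k => F (k, 0)) (T := T) (D := D) (fun k hk => by
    simpa [dir] using h (k, 0) true (max_le hk (by simpa using (abs_nonneg k).trans hk))) a.1 a1
  have h2 := walk (f := fun k => F (a.1, k)) (T := T) (D := D) (fun k hk => by
    simpa [dir] using h (a.1, k) false (max_le a1 hk)) a.2 a2
  have b1 : |(a.1 : ℝ)| ≤ T := by exact_mod_cast a1
  have b2 : |(a.2 : ℝ)| ≤ T := by exact_mod_cast a2
  have c1 := (le_abs_self _).trans (h1.trans (mul_le_mul_of_nonneg_right b1 hD))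
  have c2 := (le_abs_self _).trans (h2.trans (mul_le_mul_of_nonneg_right b2 hD))
  change F (a.1, a.2) ≤ F (0, 0) + _
  linarith

theorem small {Q : ℤ × ℤ → ℝ} {η : ℝ} (h : ∀ b b' y, |dd b Q (y + dir b') - dd b Q y| ≤ η)
    (b : Bool) (y r : ℤ × ℤ) (h1 : r.1 = 0 ∨ r.1 = 1) (h2 : r.2 = 0 ∨ r.2 = 1) :
    |dd b Q (y + r) - dd b Q y| ≤ 2 * η := by
  have h0 : 0 ≤ η := (abs_nonneg _).trans (h b b y)
  obtain ⟨r1, r2⟩ := r
  rcases h1 with rfl | rfl <;> rcases h2 with rfl | rfl
  · rw [Prod.mk_zero_zero, add_zero, sub_self, abs_zero]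
    linarith
  · exact (h b false y).trans (by linarith)
  · exact (h b true y).trans (by linarith)
  · have a1 := h b true y
    have a2 := h b false (y + dir true)
    have a3 := abs_sub_le (dd b Q (y + dir true + dir false)) (dd b Q (y + dir true)) (dd b Q y)
    rw [show y + ((1 : ℤ), (1 : ℤ)) = y + dir true + dir false by rw [add_assoc]; rfl]
    linarith

end StwoP

open StwoP in
theorem stwo_row : StwoStmt := by
  refine ⟨2028, by norm_num, fun Q t m η E a ht hm hη hE ha => ?_⟩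
  have h0 : 0 ≤ η := (abs_nonneg _).trans (hη true true 0)
  obtain ⟨w, hw, r, e, r1, r2⟩ : ∃ w : ℤ × ℤ, nrm w ≤ 2 * t ∧ ∃ r : ℤ × ℤ, a = w + w + r ∧
      (r.1 = 0 ∨ r.1 = 1) ∧ (r.2 = 0 ∨ r.2 = 1) := by
    refine ⟨(a.1 / 2, a.2 / 2), ?_, (a.1 % 2, a.2 % 2), Prod.ext ?_ ?_, ?_, ?_⟩ <;>
      simp only [nrm, max_le_iff, abs_le, Prod.fst_add, Prod.snd_add] at ha ⊢ <;> omega
  have hE0 : 0 ≤ E := (sum_nonneg fun _ _ => nm_nonneg _).trans (hE w hw)
  have hm1 : (1 : ℝ) ≤ m := by exact_mod_cast (by omega : 1 ≤ m)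
  have key : ∀ (p : ℤ × ℤ) (b : Bool), nrm p ≤ 3 * t →
      ∑ y ∈ box 0 (6 * m), |dd b Q (y + p) - dd b Q (y + p - a)| ≤ E + 338 * η * m ^ 2 := by
    intro p b hp
    have a1 : ∀ y ∈ box 0 (6 * m),
        |dd b Q (y + p) - dd b Q (y + p - a)| ≤ ds Q w (y + (p - w)) + 2 * η := by
      intro y _
      have b1 := crd_le b (sl Q (y + (p - w) + w) - sl Q (y + (p - w) - w))
      have b2 : crd b (sl Q (y + (p - w) + w) - sl Q (y + (p - w) - w)) =
          dd b Q (y + p) - dd b Q (y + p - a + r) := by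
        rw [show y + (p - w) + w = y + p by abel, show y + (p - w) - w = y + p - a + r by
          rw [e]; abel]
        cases b <;> rfl
      have b3 := small hη b (y + p - a) r r1 r2
      have b4 := abs_sub_le (dd b Q (y + p)) (dd b Q (y + p - a + r)) (dd b Q (y + p - a))
      rw [b2] at b1
      unfold ds
      linarith
    refine (sum_le_sum a1).trans ?_
    rw [sum_add_distrib, sum_const, card_box, nsmul_eq_mul]
    refine add_le_add (le_trans ?_ (hE w hw)) ?_
    · rw [← sum_image (f := ds Q w) fun x _ y _ h => add_right_cancel h]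
      refine sum_le_sum_of_subset_of_nonneg (fun x hx => ?_) fun _ _ _ => nm_nonneg _
      obtain ⟨y, hy, rfl⟩ := mem_image.1 hx
      rw [mem_box0] at hy ⊢
      simp only [nrm, max_le_iff, abs_le, Prod.fst_add, Prod.snd_add, Prod.fst_sub,
        Prod.snd_sub] at hy hp hw ⊢
      omega
    · push_cast
      have : (2 * (6 * (m : ℝ)) + 1) ^ 2 ≤ 169 * m ^ 2 := by nlinarith
      nlinarith
  have h1 := walk2 (F := fun p => ∑ y ∈ box 0 (6 * m),
    |Q (y + p) - Q y - (Q (y + p - a) - Q (y - a))|) (T := 3 * t) (D := E + 338 * η * m ^ 2)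
    (by positivity) (fun p b hp => by
      rw [← sum_sub_distrib]
      refine (abs_sum_le_sum_abs _ _).trans ((sum_le_sum fun y _ => ?_).trans (key p b hp))
      refine (abs_abs_sub_abs_le_abs_sub _ _).trans (le_of_eq ?_)
      congr 1
      rw [dd, dd, ← add_assoc, show y + p + dir b - a = y + p - a + dir b by abel]
      ring) ha
  simp only [add_zero, sub_self, abs_zero, sum_const_zero, zero_add, add_sub_cancel_right] at h1
  have h2 : ∀ y, Q (y + a) + Q (y - a) - 2 * Q y = Q (y + a) - Q y - (Q y - Q (y - a)) :=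
    fun y => by ring
  simp only [h2]
  refine h1.trans ?_
  push_cast
  have h3 : (0 : ℝ) ≤ t * E := by positivity
  nlinarith

end Pool.Agent.MP_151d89_pr.H58
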