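import Pool.Agent.MP_151d89_pr.H58.Spec3

/-!
Log-concave tails of functionals that respect the midpoints.
-/

set_option autoImplicit false
open MeasureTheory Finset Filter

namespace Pool.Agent.MP_151d89_pr.H58
open Pool.Agent.MP_151d89_pr.H82 Pool.Agent.MP_151d89_pr.H33 Pool.Agent.MP_151d89_pr.H67
  Pool.Agent.MP_151d89_pr.H30
open Classical

namespace Tail3P

variable {Λ : Finset (ℤ × ℤ)} {g : Conf} {X : Conf → ℝ} {m a c : ℝ}

theorem dbl (hX : Mid X) (s : ℝ) :
    av Λ (fun f => ind (2 * s + a + 4 < X f - m)) g * av Λ (fun f => ind (|X f - m| ≤ a)) g ≤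
      av Λ (fun f => ind (s < X f - m)) g ^ 2 := by
  have h := pl_row Λ g g (fun f => ind (2 * s + a + 4 < X f - m)) (fun f => ind (|X f - m| ≤ a))
    (fun f => ind (s < X f - m)) (fun f => ind (s < X f - m)) (fun y _ => by simp)
    (fun _ => (ind_mem _).1) (fun _ => (ind_mem _).1) (fun _ => (ind_mem _).1)
    (fun _ => (ind_mem _).1) fun u hu v hv => by
      by_cases h1 : 2 * s + a + 4 < X u - m
      · by_cases h2 : |X v - m| ≤ a
        · obtain ⟨e1, e2⟩ := hX u v (par_FS (fun y _ => by simp) hu hv)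
          obtain ⟨e3, e4⟩ := abs_le.1 e2
          have e5 := (abs_le.1 h2).1
          rw [ind_pos h1, ind_pos h2, ind_pos (by linarith), ind_pos (by linarith)]
        · rw [ind_neg h2, mul_zero]
          exact mul_nonneg (ind_mem _).1 (ind_mem _).1
      · rw [ind_neg h1, zero_mul]
        exact mul_nonneg (ind_mem _).1 (ind_mem _).1
  rw [lo_self, hi_self] at h
  unfold av
  rw [sq, div_mul_div_comm, div_mul_div_comm]
  exact div_le_div_of_nonneg_right h (by positivity)

theorem side (hg : Hom g) (hX : Mid X) (hc : c < 1)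
    (h : 1 - c ≤ av Λ (fun f => ind (|X f - m| ≤ a)) g) (i : ℕ) :
    av Λ (fun f => ind (2 ^ i * (2 * a + 4) - a - 4 < X f - m)) g ≤
      (1 - c) * (c / (1 - c)) ^ 2 ^ i := by
  have h0 : 0 < 1 - c := sub_pos.2 hc
  induction i with
  | zero =>
    have h1 : av Λ (fun f => ind (2 ^ 0 * (2 * a + 4) - a - 4 < X f - m) + ind (|X f - m| ≤ a)) g ≤
        av Λ (fun _ => 1) g := av_le fun f _ => by
      by_cases h2 : |X f - m| ≤ a
      · have := (abs_le.1 h2).2
        rw [ind_pos h2, ind_neg (by rw [pow_zero]; linarith), zero_add]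
      · rw [ind_neg h2, add_zero]
        exact (ind_mem _).2
    rw [av_add, av_const Λ 1 hg] at h1
    rw [pow_zero (2 : ℕ), pow_one, mul_div_cancel₀ _ h0.ne']
    linarith
  | succ i ih =>
    have h1 := dbl (Λ := Λ) (g := g) (m := m) (a := a) hX (2 ^ i * (2 * a + 4) - a - 4)
    rw [show 2 * (2 ^ i * (2 * a + 4) - a - 4) + a + 4 = 2 ^ (i + 1) * (2 * a + 4) - a - 4 by ring]
      at h1
    have h2 := (mul_le_mul_of_nonneg_left h (av_mem Λ _ g).1).trans
      (h1.trans (pow_le_pow_left₀ (av_mem Λ _ g).1 ih 2))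
    refine le_of_mul_le_mul_right (h2.trans_eq ?_) h0
    rw [pow_succ (2 : ℕ), pow_mul]
    ring

end Tail3P

theorem tail3_row : Tail3Stmt := by
  intro Λ g X m a c i hg hX ha hc h
  have h0 : 0 ≤ c := by linarith [(av_mem Λ (fun f => |X f - m| ≤ a) g).2]
  have h1 := Tail3P.side hg hX hc h i
  have h2 := Tail3P.side (m := -m) hg hX.neg hc (h.trans_eq (av_eq fun f _ => by
    rw [← abs_neg, neg_sub', sub_neg_eq_add])) i
  have h3 : av Λ (fun f => ind (2 ^ i * (2 * a + 4) < |X f - m|)) g ≤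
      av Λ (fun f => ind (2 ^ i * (2 * a + 4) - a - 4 < X f - m) +
        ind (2 ^ i * (2 * a + 4) - a - 4 < -X f - -m)) g := av_le fun f _ => by
    by_cases e : 2 ^ i * (2 * a + 4) < |X f - m|
    · rw [ind_pos e]
      rcases lt_abs.1 e with e | e
      · rw [ind_pos (by linarith)]
        exact le_add_of_nonneg_right (ind_mem _).1
      · rw [ind_pos (p := _ < -X f - -m) (by linarith)]
        exact le_add_of_nonneg_left (ind_mem _).1
    · rw [ind_neg e]
      exact add_nonneg (ind_mem _).1 (ind_mem _).1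
  rw [av_add] at h3
  have h4 : 0 ≤ (c / (1 - c)) ^ 2 ^ i := pow_nonneg (div_nonneg h0 (sub_pos.2 hc).le) _
  nlinarith [mul_nonneg h0 h4]

end Pool.Agent.MP_151d89_pr.H58
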