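import Pool.Agent.MP_151d89_pr.H58.Spec3

/-!
The entropy at consecutive scales.
-/

set_option autoImplicit false
open MeasureTheory Finset Filter

namespace Pool.Agent.MP_151d89_pr.H58
open Pool.Agent.MP_151d89_pr.H82 Pool.Agent.MP_151d89_pr.H33 Pool.Agent.MP_151d89_pr.H67
  Pool.Agent.MP_151d89_pr.H30
open Classical

namespace TelP

/-- the centres of the four cells -/
def ctr (s : ℤ) : Finset (ℤ × ℤ) := {(s, s), (s, -s), (-s, s), (-s, -s)}

theorem mem_ctr {s : ℤ} {x : ℤ × ℤ} :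
    x ∈ ctr s ↔ (x.1 = s ∨ x.1 = -s) ∧ (x.2 = s ∨ x.2 = -s) := by
  simp only [ctr, mem_insert, mem_singleton, Prod.ext_iff]
  tauto

theorem card_ctr {s : ℤ} (h : 0 < s) : (ctr s).card = 4 := by
  unfold ctr
  rw [card_insert_of_notMem, card_insert_of_notMem, card_insert_of_notMem, card_singleton] <;>
    simp only [mem_insert, mem_singleton, Prod.ext_iff] <;> omega

theorem mem_cells {r : ℕ} {y : ℤ × ℤ} : y ∈ (ctr (r + 1)).biUnion (fun x => box x r) ↔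
    y ∈ box 0 (2 * r + 1) ∧ y.1 ≠ 0 ∧ y.2 ≠ 0 := by
  rw [mem_biUnion, mem_box]
  simp only [Prod.fst_zero, Prod.snd_zero]
  constructor
  · rintro ⟨x, hx, hy⟩
    rw [mem_ctr] at hx
    rw [mem_box] at hy
    omega
  · intro h
    refine ⟨(if 0 < y.1 then r + 1 else -(r + 1), if 0 < y.2 then r + 1 else -(r + 1)), ?_, ?_⟩
    · rw [mem_ctr]
      constructor <;> dsimp only <;> split_ifs <;> simp
    · rw [mem_box]
      dsimp only
      split_ifs <;> omega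

theorem sep {r : ℕ} : ∀ x ∈ ctr (r + 1), ∀ x' ∈ ctr (r + 1), x ≠ x' →
    2 * (r : ℤ) + 2 ≤ nrm (x - x') := fun x hx x' hx' h => by
  rw [mem_ctr] at hx hx'
  rw [Ne, Prod.ext_iff] at h
  simp only [nrm, Int.abs_eq_natAbs, Prod.fst_sub, Prod.snd_sub]
  omega

theorem card_rest (r : ℕ) :
    (box 0 (2 * r + 1) \ (ctr (r + 1)).biUnion (fun x => box x r)).card ≤ 8 * (r + 1) := by
  have h : box 0 (2 * r + 1) \ (ctr (r + 1)).biUnion (fun x => box x r) ⊆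
      ({0} ×ˢ Icc (-(2 * r + 1 : ℤ)) (2 * r + 1)) ∪ (Icc (-(2 * r + 1 : ℤ)) (2 * r + 1) ×ˢ {0}) := by
    intro y hy
    rw [Finset.mem_sdiff, mem_cells, mem_box] at hy
    simp only [Prod.fst_zero, Prod.snd_zero] at hy
    simp only [mem_union, mem_product, mem_singleton, mem_Icc]
    omega
  refine (card_le_card h).trans ((card_union_le _ _).trans ?_)
  simp only [card_product, card_singleton, Int.card_Icc]
  omega

theorem ring_in {r : ℕ} {x y : ℤ × ℤ} (hx : x ∈ ctr (r + 1)) (hy : nrm (y - x) = (r + 1 : ℕ)) :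
    y ∈ box 0 (2 * r + 1 + 1) := by
  rw [mem_ctr] at hx
  rw [mem_box]
  simp only [nrm, Int.abs_eq_natAbs, Prod.fst_sub, Prod.snd_sub, Prod.fst_zero, Prod.snd_zero] at *
  omega

theorem rank {r : ℕ} : ∀ y ∈ box 0 (2 * r + 1), y ∉ (ctr (r + 1)).biUnion (fun x => box x r) →
    ∃ y', dist1 y y' = 1 ∧ y' ∉ (ctr (r + 1)).biUnion (fun x => box x r) ∧
      (y' ∉ box 0 (2 * r + 1) ∨ y'.1 + y'.2 < y.1 + y.2) := fun y h1 h2 => by
  rw [mem_cells] at h2
  by_cases h : y.1 = 0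
  · exact ⟨(y.1, y.2 - 1), by simp [dist1], fun e => (mem_cells.1 e).2.1 h, Or.inr (by simp)⟩
  · have h' : y.2 = 0 := by_contra fun e => h2 ⟨h1, h, e⟩
    exact ⟨(y.1 - 1, y.2), by simp [dist1], fun e => (mem_cells.1 e).2.2 h', Or.inr (by simp)⟩

/-- a class of three quarters of the fillings -/
theorem big {Λ : Finset (ℤ × ℤ)} {g : Conf} (hg : Hom g) {p q : Conf → Prop}
    (h : av Λ (fun f => ind (¬ (p f ∧ q f))) g ≤ 1 / 4) :
    ((FS Λ g).card : ℝ) ≤ 2 * ((FS Λ g).filter q).card := by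
  have h1 := av_mul_card Λ (fun f => ind (¬ (p f ∧ q f))) hg
  have h2 : ((FS Λ g).card : ℝ) ≤ ((FS Λ g).filter q).card + ∑ f ∈ FS Λ g, ind (¬ (p f ∧ q f)) := by
    rw [card_filter, Nat.cast_sum, ← sum_add_distrib, card_eq_sum_ones, Nat.cast_sum]
    refine sum_le_sum fun f _ => ?_
    by_cases a : p f <;> by_cases b : q f <;> simp [ind, a, b]
  have h3 := card_pos Λ hg
  nlinarith

end TelP

open TelP in
theorem tel_row (h1 : StrStmt) (h2 : ClsStmt) (h3 : ProdStmt) (h4 : PoneStmt) : TelStmt := by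
  intro δ hδ
  obtain ⟨C₀, hC₀, h1⟩ := h1
  obtain ⟨C, hC, h4⟩ := h4 δ hδ
  refine ⟨9 + 4 * C * (7 + 27 * C₀), by positivity, fun u J hu => ?_⟩
  obtain ⟨r, hr⟩ : ∃ r : ℕ, 2 ^ J = r + 1 := ⟨2 ^ J - 1, by have := Nat.one_le_two_pow (n := J); omega⟩
  have e1 : 2 ^ J - 1 = r := by omega
  have e2 : 2 ^ (J + 1) - 1 = 2 * r + 1 := by rw [pow_succ]; omega
  have hg := hom_pc hδ hu
  have hs : (2 : ℝ) ^ J = r + 1 := by exact_mod_cast hr
  have h23 : (2 : ℝ) ^ J ≤ 3 ^ J := pow_le_pow_left₀ (by norm_num) (by norm_num) J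
  have h13 : (1 : ℝ) ≤ 3 ^ J := one_le_pow₀ (by norm_num)
  have hI : (ctr (r + 1)).card = 4 := card_ctr (by positivity)
  have hsub : (ctr (r + 1)).biUnion (fun x => box x r) ⊆ box 0 (2 * r + 1) :=
    fun y hy => (mem_cells.1 hy).1
  have cell : ∀ (a : ℝ) (f : Conf), Hom f → (∀ x ∈ ctr (r + 1), Ring u 0 a x (r + 1) f) →
      |lz ((ctr (r + 1)).biUnion fun x => box x r) f - 4 ^ (J + 2) * zz J u| ≤
        4 * (C * (a * 2 ^ J + 3 ^ J)) := fun a f hf hR => by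
    have k : ∀ x ∈ ctr (r + 1), |lz (box x r) f - 4 ^ (J + 1) * zz J u| ≤ C * (a * 2 ^ J + 3 ^ J) :=
      fun x hx => e1 ▸ h4 u 0 a x J f hu hf (hr ▸ hR x hx)
    have k1 : (4 : ℝ) ^ (J + 2) * zz J u = ∑ _x ∈ ctr (r + 1), 4 ^ (J + 1) * zz J u := by
      rw [sum_const, hI, nsmul_eq_mul]
      push_cast
      ring
    rw [h3 _ r f hf sep, k1, ← sum_sub_distrib]
    refine (abs_sum_le_sum_abs _ _).trans ((sum_le_card_nsmul _ _ _ k).trans ?_)
    rw [hI, nsmul_eq_mul]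
    push_cast
    exact le_rfl
  have low := (abs_le.1 (cell 2 (pc u) hg fun x _ => ring_pc u x _)).1
  have lm := lz_mono hsub (self_FS _ hg)
  have hb := big hg (h1 u 0 2 0 (2 * r + 1) (pc u) hg (by omega) (ring_pc u 0 _))
  have hl : lg (2 * r + 1) * √((2 * r + 1 : ℕ) : ℝ) * 2 ^ (J + 1) ≤ 18 * 3 ^ (J + 1) :=
    lg_sqrt (by rw [pow_succ]; omega)
  have hc := (h2 _ _ (pc u) (fun y => y.1 + y.2) hg hsub rank).1
    ((FS (box 0 (2 * r + 1)) (pc u)).filter fun f =>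
      Band u 0 (3 * 2 + C₀ * lg (2 * r + 1) * √((2 * r + 1 : ℕ) : ℝ)) (box 0 (2 * r + 1 + 1)) f)
    (4 ^ (J + 2) * zz J u + 4 * C * (7 + 27 * C₀) * 3 ^ J) (filter_subset _ _) fun f hf => by
      rw [mem_filter] at hf
      have k := (abs_le.1 (cell _ f (mem_FS.1 hf.1).1 fun x hx y hy => hf.2 y (ring_in hx hy))).2
      have k1 : (3 * 2 + C₀ * lg (2 * r + 1) * √((2 * r + 1 : ℕ) : ℝ)) * 2 ^ J + 3 ^ J ≤
          (7 + 27 * C₀) * 3 ^ J := by
        rw [pow_succ, pow_succ] at hl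
        nlinarith
      nlinarith [mul_le_mul_of_nonneg_left k1 hC]
  have up : lz (box 0 (2 * r + 1)) (pc u) ≤
      4 ^ (J + 2) * zz J u + (9 + 4 * C * (7 + 27 * C₀)) * 3 ^ J := by
    rw [← Real.exp_le_exp, exp_lz _ hg]
    refine hb.trans ((mul_le_mul_of_nonneg_left hc (by norm_num)).trans ?_)
    have k1 : (2 : ℝ) ≤ Real.exp 1 := by linarith [Real.add_one_le_exp (1 : ℝ)]
    have k2 : (2 : ℝ) ^ (box 0 (2 * r + 1) \ (ctr (r + 1)).biUnion (fun x => box x r)).card ≤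
        Real.exp (8 * 2 ^ J) := by
      calc _ ≤ (2 : ℝ) ^ (8 * (r + 1)) := pow_le_pow_right₀ (by norm_num) (card_rest r)
        _ ≤ Real.exp 1 ^ (8 * (r + 1)) := pow_le_pow_left₀ (by norm_num) k1 _
        _ = _ := by rw [← Real.exp_nat_mul, hs]; push_cast; ring_nf
    calc _ ≤ Real.exp 1 * (Real.exp (8 * 2 ^ J) *
          Real.exp (4 ^ (J + 2) * zz J u + 4 * C * (7 + 27 * C₀) * 3 ^ J)) := by gcongr
      _ ≤ _ := by
        rw [← Real.exp_add, ← Real.exp_add, Real.exp_le_exp]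
        linarith
  have e3 : zz (J + 1) u = lz (box 0 (2 * r + 1)) (pc u) / 4 ^ (J + 2) := by rw [zz, e2]
  have p4 : (0 : ℝ) < 4 ^ (J + 2) := by positivity
  have e4 : zz (J + 1) u - zz J u =
      (lz (box 0 (2 * r + 1)) (pc u) - 4 ^ (J + 2) * zz J u) / 4 ^ (J + 2) := by
    rw [e3]
    field_simp
  have e5 : (3 / 4 : ℝ) ^ J * 4 ^ (J + 2) = 16 * 3 ^ J := by
    rw [pow_add, ← mul_assoc, ← mul_pow]
    norm_num
    ring
  have k0 : 0 ≤ C * C₀ * 3 ^ J := by positivity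
  have k1 : 0 ≤ C * 3 ^ J := by positivity
  have k2 := mul_le_mul_of_nonneg_left h23 hC
  rw [e4, abs_div, abs_of_pos p4, div_le_iff₀ p4, mul_assoc, e5, abs_le]
  constructor <;> nlinarith

end Pool.Agent.MP_151d89_pr.H58
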