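import Pool.Agent.MP_151d89_pr.H58.Spec3

/-! Summation by parts against a tent. -/

set_option autoImplicit false
open MeasureTheory Finset Filter

namespace Pool.Agent.MP_151d89_pr.H58
open Pool.Agent.MP_151d89_pr.H82 Pool.Agent.MP_151d89_pr.H33 Pool.Agent.MP_151d89_pr.H67
  Pool.Agent.MP_151d89_pr.H30
open Classical

namespace TentP

/-- the tent -/
def tn (m : ℕ) (n : ℤ) : ℤ := max 0 (min m (2 * m - n))

/-- the indicator of a window -/
def wi (T : ℕ) (u : ℤ) : ℤ := if |u| ≤ 2 * T then 1 else 0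

theorem cnt (m : ℕ) (n : ℤ) (s : ℝ) :
    ∑ k ∈ Ico m (2 * m), (if n ≤ (k : ℤ) then s else 0) = tn m n * s := by
  rw [← Finset.sum_filter, Finset.sum_const, nsmul_eq_mul]
  have e : (Ico m (2 * m)).filter (fun k : ℕ => n ≤ (k : ℤ)) = Ico (max m n.toNat) (2 * m) := by
    ext k
    simp only [Finset.mem_filter, Finset.mem_Ico]
    omega
  rw [e, Nat.card_Ico]
  have : ((2 * m - max m n.toNat : ℕ) : ℤ) = tn m n := by
    unfold tn
    omega
  rw [← this, Int.cast_natCast]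

theorem shift (σ : ℤ × ℤ → ℝ) (m : ℕ) (c : ℤ × ℤ) (hc : nrm c ≤ 2 * m) :
    ∑ k ∈ Ico m (2 * m), ∑ x ∈ box 0 k, σ (x + c) =
      ∑ y ∈ box 0 (4 * m), tn m (nrm (y - c)) * σ y := by
  rw [← Finset.sum_congr rfl fun y _ => cnt m (nrm (y - c)) (σ y), Finset.sum_comm]
  refine Finset.sum_congr rfl fun k hk => ?_
  rw [← Finset.sum_filter]
  have hk' := (Finset.mem_Ico.1 hk).2
  refine Finset.sum_bij' (fun x _ => x + c) (fun y _ => y - c) (fun x hx => ?_) (fun y hy => ?_)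
    (fun x _ => add_sub_cancel_right _ _) (fun y _ => sub_add_cancel _ _) fun _ _ => rfl
  · rw [mem_box0] at hx
    rw [Finset.mem_filter, add_sub_cancel_right, mem_box0]
    refine ⟨?_, hx⟩
    simp only [nrm, Int.abs_eq_natAbs, Prod.fst_add, Prod.snd_add] at hx hc ⊢
    omega
  · exact mem_box0.2 (Finset.mem_filter.1 hy).2

theorem lip (x c : ℤ × ℤ) : nrm (x - c) ≤ nrm x + nrm c ∧ nrm x ≤ nrm (x - c) + nrm c ∧
    nrm (x + c) ≤ nrm x + nrm c ∧ nrm x ≤ nrm (x + c) + nrm c := by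
  simp only [nrm, Int.abs_eq_natAbs, Prod.fst_add, Prod.snd_add, Prod.fst_sub, Prod.snd_sub]
  omega

theorem lin {T : ℕ} {x a : ℤ × ℤ} (ha : nrm a ≤ T) (h1 : ¬|x.2 - x.1| ≤ 2 * T)
    (h2 : ¬|x.2 - -x.1| ≤ 2 * T) : nrm (x - a) + nrm (x + a) = 2 * nrm x := by
  simp only [nrm, Int.abs_eq_natAbs, Prod.fst_add, Prod.snd_add, Prod.fst_sub, Prod.snd_sub] at *
  omega

theorem far {T : ℕ} {x : ℤ × ℤ} {c : ℤ} (h1 : ¬|x.2 - c| ≤ 2 * T) (h2 : ¬|x.2 - -c| ≤ 2 * T)
    (h3 : ¬|x.1 - c| ≤ 2 * T) (h4 : ¬|x.1 - -c| ≤ 2 * T) :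
    nrm x + T < c ∨ c + T < nrm x := by
  simp only [nrm, Int.abs_eq_natAbs] at *
  omega

theorem pt {m T : ℕ} {a b : ℤ × ℤ} (ha : nrm a ≤ T) (hb : nrm (a + b) ≤ 1) (x : ℤ × ℤ) :
    2 * tn m (nrm x) - tn m (nrm (x - a)) - tn m (nrm (x - b)) ≤ 1 + 2 * T *
      (wi T (x.2 - x.1) + wi T (x.2 - -x.1) + wi T (x.2 - m) + wi T (x.2 - -m) +
        wi T (x.2 - 2 * m) + wi T (x.2 - -(2 * m)) + wi T (x.1 - m) + wi T (x.1 - -m) +
        wi T (x.1 - 2 * m) + wi T (x.1 - -(2 * m))) := by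
  obtain ⟨l1, l2, l3, l4⟩ := lip x a
  obtain ⟨l5, l6, -, -⟩ := lip (x + a) (a + b)
  rw [show x + a - (a + b) = x - b by ring] at l5 l6
  set W := wi T (x.2 - x.1) + wi T (x.2 - -x.1) + wi T (x.2 - m) + wi T (x.2 - -m) +
        wi T (x.2 - 2 * m) + wi T (x.2 - -(2 * m)) + wi T (x.1 - m) + wi T (x.1 - -m) +
        wi T (x.1 - 2 * m) + wi T (x.1 - -(2 * m)) with hW
  have w0 : ∀ u, 0 ≤ wi T u := fun u => by unfold wi; split_ifs <;> norm_num
  have w1 : ∀ u, wi T u ≤ 0 → ¬|u| ≤ 2 * T := fun u h e => by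
    unfold wi at h
    rw [if_pos e] at h
    omega
  by_cases h : 1 ≤ W
  · have : (2 * T : ℤ) * 1 ≤ 2 * T * W := mul_le_mul_of_nonneg_left h (by positivity)
    unfold tn
    omega
  · have a1 := w0 (x.2 - x.1)
    have a2 := w0 (x.2 - -x.1)
    have a3 := w0 (x.2 - m)
    have a4 := w0 (x.2 - -m)
    have a5 := w0 (x.2 - 2 * m)
    have a6 := w0 (x.2 - -(2 * m))
    have a7 := w0 (x.1 - m)
    have a8 := w0 (x.1 - -m)
    have a9 := w0 (x.1 - 2 * m)
    have a10 := w0 (x.1 - -(2 * m))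
    have b1 := lin ha (w1 (x.2 - x.1) (by omega)) (w1 (x.2 - -x.1) (by omega))
    have b2 := far (w1 (x.2 - m) (by omega)) (w1 (x.2 - -m) (by omega))
      (w1 (x.1 - m) (by omega)) (w1 (x.1 - -m) (by omega))
    have b3 := far (w1 (x.2 - 2 * m) (by omega)) (w1 (x.2 - -(2 * m)) (by omega))
      (w1 (x.1 - 2 * m) (by omega)) (w1 (x.1 - -(2 * m)) (by omega))
    rw [show W = 0 by omega, mul_zero]
    unfold tn
    omega

theorem line (T : ℕ) (I : Finset ℤ) (c : ℤ) : ∑ u ∈ I, wi T (u - c) ≤ 4 * T + 1 := by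
  unfold wi
  rw [Finset.sum_boole]
  have : (I.filter fun u => |u - c| ≤ 2 * T) ⊆ Icc (c - 2 * T) (c + 2 * T) := fun u hu => by
    have := (Finset.mem_filter.1 hu).2
    rw [Finset.mem_Icc]
    rw [Int.abs_eq_natAbs] at this
    omega
  have h := Finset.card_le_card this
  rw [Int.card_Icc] at h
  omega

theorem line2 (T n : ℕ) (c : ℤ → ℤ) :
    ∑ x ∈ box 0 n, wi T (x.2 - c x.1) ≤ (2 * n + 1) * (4 * T + 1) := by
  unfold H82.box
  rw [Finset.sum_product]
  refine (Finset.sum_le_card_nsmul _ _ _ fun u _ => line T _ (c u)).trans (le_of_eq ?_)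
  rw [Int.card_Icc, nsmul_eq_mul]
  congr 1
  simp only [Prod.fst_zero]
  omega

theorem line1 (T n : ℕ) (c : ℤ) :
    ∑ x ∈ box 0 n, wi T (x.1 - c) ≤ (2 * n + 1) * (4 * T + 1) := by
  unfold H82.box
  rw [Finset.sum_product_right]
  refine (Finset.sum_le_card_nsmul _ _ _ fun u _ => line T _ c).trans (le_of_eq ?_)
  rw [Int.card_Icc, nsmul_eq_mul]
  congr 1
  simp only [Prod.snd_zero]
  omega

end TentP

open TentP in
theorem tent_row : TentStmt := by
  refine ⟨900, by norm_num, fun σ S m T a b hσ ha hb h1 hm => ?_⟩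
  have hS : 0 ≤ S := (hσ 0).1.trans (hσ 0).2
  have h0 := shift σ m 0 (by simp [nrm])
  have h2 := shift σ m a (by omega)
  have h3 := shift σ m b (by
    have := (lip (a + b) a).1
    rw [add_sub_cancel_left] at this
    omega)
  simp only [add_zero, sub_zero] at h0
  simp only [Finset.sum_sub_distrib, ← Finset.mul_sum]
  rw [h0, h2, h3, Finset.mul_sum, ← Finset.sum_sub_distrib, ← Finset.sum_sub_distrib]
  set W : ℤ × ℤ → ℤ := fun x => 1 + 2 * T *
      (wi T (x.2 - x.1) + wi T (x.2 - -x.1) + wi T (x.2 - m) + wi T (x.2 - -m) +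
        wi T (x.2 - 2 * m) + wi T (x.2 - -(2 * m)) + wi T (x.1 - m) + wi T (x.1 - -m) +
        wi T (x.1 - 2 * m) + wi T (x.1 - -(2 * m))) with hW
  have w0 : ∀ u, 0 ≤ wi T u := fun u => by unfold wi; split_ifs <;> norm_num
  have k1 : ∀ x, 2 * (tn m (nrm x) * σ x) - tn m (nrm (x - a)) * σ x -
      tn m (nrm (x - b)) * σ x ≤ S * (W x : ℝ) := fun x => by
    have e : ((2 * tn m (nrm x) - tn m (nrm (x - a)) - tn m (nrm (x - b)) : ℤ) : ℝ) ≤ W x :=
      Int.cast_le.2 (pt ha hb x)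
    have e0 : (0 : ℝ) ≤ W x := Int.cast_nonneg (by
      simp only [hW]
      have := w0
      refine add_nonneg zero_le_one (mul_nonneg (by positivity) ?_)
      repeat' refine add_nonneg ?_ ?_
      all_goals exact w0 _)
    push_cast at e
    nlinarith [mul_le_mul_of_nonneg_right e (hσ x).1, mul_le_mul_of_nonneg_right (hσ x).2 e0]
  refine (Finset.sum_le_sum fun x _ => k1 x).trans ?_
  rw [← Finset.mul_sum, ← Int.cast_sum]
  have k2 : ∑ x ∈ box 0 (4 * m), W x ≤ 900 * (T ^ 2 * m + m ^ 2) := by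
    simp only [hW, Finset.sum_add_distrib, ← Finset.mul_sum, Finset.sum_const, card_box,
      nsmul_eq_mul, mul_one]
    have c1 := line2 T (4 * m) fun u => u
    have c2 := line2 T (4 * m) fun u => -u
    have c3 := line2 T (4 * m) fun _ => m
    have c4 := line2 T (4 * m) fun _ => -m
    have c5 := line2 T (4 * m) fun _ => 2 * m
    have c6 := line2 T (4 * m) fun _ => -(2 * m)
    have c7 := line1 T (4 * m) m
    have c8 := line1 T (4 * m) (-m)
    have c9 := line1 T (4 * m) (2 * m)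
    have c10 := line1 T (4 * m) (-(2 * m))
    have t1 : (1 : ℤ) ≤ T := by exact_mod_cast h1
    have t2 : (1 : ℤ) ≤ m := by exact_mod_cast h1.trans hm
    have t3 : (2 * ((4 * m : ℕ) : ℤ) + 1) * (4 * T + 1) ≤ (9 * m) * (5 * T) :=
      mul_le_mul (by push_cast; omega) (by omega) (by omega) (by omega)
    have t4 := mul_le_mul_of_nonneg_left (add_le_add (add_le_add (add_le_add (add_le_add
      (add_le_add (add_le_add (add_le_add (add_le_add (add_le_add (c1.trans t3) (c2.trans t3))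
      (c3.trans t3)) (c4.trans t3)) (c5.trans t3)) (c6.trans t3)) (c7.trans t3)) (c8.trans t3))
      (c9.trans t3)) (c10.trans t3)) (show (0 : ℤ) ≤ 2 * T by omega)
    refine le_trans (add_le_add le_rfl t4) ?_
    push_cast
    nlinarith
  have k3 : ((∑ x ∈ box 0 (4 * m), W x : ℤ) : ℝ) ≤ 900 * (T ^ 2 * m + m ^ 2) := by
    exact_mod_cast k2
  calc _ ≤ S * (900 * (T ^ 2 * m + m ^ 2)) := mul_le_mul_of_nonneg_left k3 hS
    _ = _ := by ring

end Pool.Agent.MP_151d89_pr.H58
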