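import Pool.Agent.MP_151d89_pr.H58.Spec3

/-!
The second moment of a concentrated functional.
-/

set_option autoImplicit false
open MeasureTheory Finset Filter

namespace Pool.Agent.MP_151d89_pr.H58
open Pool.Agent.MP_151d89_pr.H82 Pool.Agent.MP_151d89_pr.H33 Pool.Agent.MP_151d89_pr.H67
  Pool.Agent.MP_151d89_pr.H30
open Classical

namespace Var3P

theorem pt {e x : ℝ} (h1 : e ≤ 1) (N : ℕ) (hx : |x| ≤ 2 ^ N * (2 * e + 4)) :
    x ^ 2 ≤ e ^ 2 + 36 * (1 - ind (|x| ≤ e))
      + ∑ i ∈ range N, 36 * 4 ^ (i + 1) * ind (2 ^ i * (2 * e + 4) < |x|) := by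
  have a := abs_nonneg x
  rw [← sq_abs]
  induction N with
  | zero =>
    rw [sum_range_zero]
    by_cases c : |x| ≤ e
    · rw [ind_pos c]
      nlinarith
    · rw [ind_neg c]
      nlinarith
  | succ N ih =>
    rw [sum_range_succ]
    by_cases c : 2 ^ N * (2 * e + 4) < |x|
    · have s : 0 ≤ ∑ i ∈ range N, (36 : ℝ) * 4 ^ (i + 1) * ind (2 ^ i * (2 * e + 4) < |x|) :=
        sum_nonneg fun i _ => mul_nonneg (by positivity) (ind_mem _).1
      have b : |x| ≤ 2 ^ (N + 1) * 6 := hx.trans (by gcongr; linarith)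
      have d := pow_le_pow_left₀ a b 2
      rw [mul_pow, ← pow_mul, mul_comm (N + 1), pow_mul, show (2 : ℝ) ^ 2 = 4 by norm_num] at d
      rw [ind_pos c]
      linarith [(ind_mem (|x| ≤ e)).2, sq_nonneg e]
    · rw [ind_neg c, mul_zero, add_zero]
      exact ih (not_lt.1 c)

end Var3P

open Var3P in
theorem var3_row (h : Tail3Stmt) : Var3Stmt := by
  intro Λ g X m e c hg hX h0 h1 hc ha
  have c0 : 0 ≤ c := by linarith [(av_mem Λ (fun f => |X f - m| ≤ e) g).2]
  have t0 : 0 ≤ c / (1 - c) := div_nonneg c0 (by linarith)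
  have t1 : c / (1 - c) ≤ 2 * c := by
    rw [div_le_iff₀ (by linarith)]
    nlinarith
  obtain ⟨B, hB⟩ := ((FS Λ g).image fun f => |X f - m|).bddAbove
  obtain ⟨N, hN⟩ := pow_unbounded_of_one_lt B (one_lt_two (α := ℝ))
  have p : (0 : ℝ) < 2 ^ N := by positivity
  refine (av_le fun f hf => pt h1 N ((hB (mem_coe.2 (mem_image_of_mem _ hf))).trans
    (by nlinarith))).trans ?_
  rw [av_add, av_add, av_const _ _ hg, av_smul, av_sub, av_const _ _ hg, av_sum]
  have s : ∑ i ∈ range N, av Λ (fun f => 36 * 4 ^ (i + 1) *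
      ind (2 ^ i * (2 * e + 4) < |X f - m|)) g ≤ ∑ i ∈ range N, 576 * c * (1 / 2) ^ i :=
    sum_le_sum fun i _ => by
      rw [av_smul]
      have a := h Λ g X m e c i hg hX h0 (by linarith) ha
      have b : (c / (1 - c)) ^ 2 ^ i ≤ 2 * c * (1 / 8) ^ i :=
        calc (c / (1 - c)) ^ 2 ^ i ≤ (c / (1 - c)) ^ (i + 1) :=
              pow_le_pow_of_le_one t0 (by linarith) Nat.lt_two_pow_self
          _ ≤ _ := by
            rw [pow_succ']
            exact mul_le_mul t1 (pow_le_pow_left₀ t0 (by linarith) i) (by positivity) (by linarith)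
      calc _ ≤ 36 * 4 ^ (i + 1) * (2 * (2 * c * (1 / 8) ^ i)) := by gcongr; linarith
        _ = 576 * c * (4 * (1 / 8)) ^ i := by rw [mul_pow]; ring
        _ = _ := by norm_num
  rw [← mul_sum] at s
  nlinarith [sum_geometric_two_le N]

end Pool.Agent.MP_151d89_pr.H58
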