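import Pool.Agent.MP_151d89_pr.H58.Spec3

/-!
Strict concavity of the entropy at all scales.
-/

set_option autoImplicit false
open MeasureTheory Finset Filter

namespace Pool.Agent.MP_151d89_pr.H58
open Pool.Agent.MP_151d89_pr.H82 Pool.Agent.MP_151d89_pr.H33 Pool.Agent.MP_151d89_pr.H67
  Pool.Agent.MP_151d89_pr.H30
open Classical

namespace ZedP

theorem tel {f : ℕ → ℝ} {C : ℝ} (hC : 0 ≤ C) (h : ∀ J, |f (J + 1) - f J| ≤ C * (3 / 4) ^ J)
    {J₀ J : ℕ} (hJ : J₀ ≤ J) : |f J - f J₀| ≤ 4 * C * (3 / 4) ^ J₀ := by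
  have a : |f J - f J₀| ≤ 4 * C * (3 / 4) ^ J₀ - 4 * C * (3 / 4) ^ J := by
    induction J, hJ using Nat.le_induction with
    | base => simp
    | succ J _ ih =>
      have b := abs_sub_le (f (J + 1)) (f J) (f J₀)
      have c := h J
      rw [pow_succ]
      linarith
  have b : 0 ≤ 4 * C * (3 / 4 : ℝ) ^ J := by positivity
  linarith

theorem small {A c : ℝ} (hA : 0 ≤ A) (hc : 0 < c) (m₀ : ℕ) : ∃ m₁, m₀ ≤ m₁ ∧ ∀ m, m₁ ≤ m →
    A * (3 / 4) ^ (25 * m) ≤ c / 2 / 2 ^ (10 * m) := by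
  have q : ((3 / 4 : ℝ) ^ 25 * 2 ^ 10) < 1 := by norm_num
  obtain ⟨k, hk⟩ := exists_pow_lt_of_lt_one (show 0 < c / 2 / (A + 1) by positivity) q
  refine ⟨max m₀ k, le_max_left _ _, fun m hm => ?_⟩
  have a := (pow_le_pow_of_le_one (by positivity) q.le ((le_max_right _ _).trans hm)).trans hk.le
  rw [le_div_iff₀ (by positivity)] at a ⊢
  rw [pow_mul, pow_mul, mul_assoc, ← mul_pow]
  have b : 0 ≤ ((3 / 4 : ℝ) ^ 25 * 2 ^ 10) ^ m := by positivity
  nlinarith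

theorem scale {β : ℝ} (h0 : 0 < β) (h2 : β ≤ 2) (m₁ : ℕ) : ∃ m, m₁ ≤ m ∧ 2 / 2 ^ m ≤ β ∧
    β ^ 10 ≤ 4 ^ 10 * 2 ^ (10 * m₁) / 2 ^ (10 * m) := by
  have ex : ∃ m, m₁ ≤ m ∧ 2 / 2 ^ m ≤ β := by
    obtain ⟨k, hk⟩ := pow_unbounded_of_one_lt (2 / β) (show (1 : ℝ) < 2 by norm_num)
    refine ⟨max m₁ k, le_max_left _ _, ?_⟩
    have a := hk.le.trans (pow_le_pow_right₀ (by norm_num) (le_max_right m₁ k))
    rw [div_le_iff₀ h0] at a
    rw [div_le_iff₀ (by positivity)]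
    linarith
  refine ⟨Nat.find ex, (Nat.find_spec ex).1, (Nat.find_spec ex).2, ?_⟩
  rcases (Nat.find_spec ex).1.eq_or_lt with e | e
  · rw [← e, mul_div_assoc, div_self (by positivity), mul_one]
    exact pow_le_pow_left₀ h0.le (by linarith) 10
  · obtain ⟨k, hk⟩ : ∃ k, Nat.find ex = k + 1 := ⟨Nat.find ex - 1, by omega⟩
    have a := Nat.find_min ex (show k < Nat.find ex by omega)
    have b : β ≤ 4 / 2 ^ (k + 1) := by
      have c := not_le.1 fun c => a ⟨by omega, c⟩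
      have d : (4 : ℝ) / 2 ^ (k + 1) = 2 / 2 ^ k := by
        rw [pow_succ]; field_simp; norm_num
      rw [d]
      exact c.le
    rw [hk]
    refine (pow_le_pow_left₀ h0.le b 10).trans ?_
    rw [div_pow, ← pow_mul, mul_comm (k + 1)]
    exact div_le_div_of_nonneg_right (le_mul_of_one_le_right (by positivity)
      (one_le_pow₀ (by norm_num))) (by positivity)

theorem nm_le {δ : ℝ} (hδ : 0 < δ) {u v : ℝ × ℝ} (hu : Sl δ u) (hv : Sl δ v) : nm (u - v) ≤ 2 := by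
  have a := abs_sub u.1 v.1
  have b := abs_sub u.2 v.2
  exact max_le (by rw [Prod.fst_sub]; linarith [hu.1, hv.1])
    (by rw [Prod.snd_sub]; linarith [hu.2, hv.2])

end ZedP

open ZedP in
theorem zed_row (h1 : GainStmt) (h2 : TelStmt) (h3 : PLzStmt) : ZedStmt := by
  intro δ hδ hδ1
  obtain ⟨c, C, m₀, hc, hC, hG⟩ := h1 δ hδ hδ1
  obtain ⟨CT, hCT, hT⟩ := h2 δ hδ
  obtain ⟨CP, hCP, hP⟩ := h3 δ hδ
  obtain ⟨m₁, hm₁, hs⟩ := small (show 0 ≤ C + 8 * CT by positivity) hc m₀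
  refine ⟨c / 2 / (4 ^ 10 * 2 ^ (10 * m₁)), CP + c / 2, by positivity, by positivity,
    fun u v J hu hv => ?_⟩
  have p : 0 ≤ (4 / 5 : ℝ) ^ J := by positivity
  have a : (zz J u + zz J v) / 2 ≤ zz J (md u v) + CP * (4 / 5) ^ J :=
    (hP u v J hu hv).trans (add_le_add le_rfl (mul_le_mul_of_nonneg_left
      (pow_le_pow_left₀ (by norm_num) (by norm_num) J) hCP))
  have p1 : 0 ≤ c / 2 * (4 / 5 : ℝ) ^ J := by positivity
  have p2 : 0 ≤ CP * (4 / 5 : ℝ) ^ J := by positivity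
  rcases (show 0 ≤ nm (u - v) from le_max_of_le_left (abs_nonneg _)).eq_or_lt with e | e
  · rw [← e, zero_pow (by norm_num), mul_zero, add_mul]
    linarith
  obtain ⟨m, hm, b1, b2⟩ := scale e (nm_le hδ hu hv) m₁
  have b : c / 2 / (4 ^ 10 * 2 ^ (10 * m₁)) * nm (u - v) ^ 10 ≤ c / 2 / 2 ^ (10 * m) := by
    refine (mul_le_mul_of_nonneg_left b2 (by positivity)).trans (le_of_eq ?_)
    field_simp
  rw [add_mul]
  rcases le_total (25 * m) J with hJ | hJ
  · have g := hG u v m (hm₁.trans hm) hu hv b1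
    have t1 := abs_le.1 (tel (f := fun J => zz J u) hCT (fun J => hT u J hu) hJ)
    have t2 := abs_le.1 (tel (f := fun J => zz J v) hCT (fun J => hT v J hv) hJ)
    have t3 := abs_le.1 (tel (f := fun J => zz J (md u v)) hCT (fun J => hT _ J (sl_md hu hv)) hJ)
    have s := hs m hm
    have d : c / 2 ^ (10 * m) = 2 * (c / 2 / 2 ^ (10 * m)) := by ring
    linarith [t1.2, t2.2, t3.1]
  · have d : c / 2 / 2 ^ (10 * m) ≤ c / 2 * (4 / 5) ^ J := by
      rw [div_eq_mul_inv (c / 2), ← inv_pow]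
      refine mul_le_mul_of_nonneg_left (le_trans ?_
        (pow_le_pow_of_le_one (by norm_num) (by norm_num) hJ)) (by positivity)
      rw [pow_mul, pow_mul]
      exact pow_le_pow_left₀ (by positivity) (by norm_num) m
    linarith

end Pool.Agent.MP_151d89_pr.H58
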