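import Pool.Agent.MP_151d89_pr.H58.All2
import Pool.Agent.MP_151d89_pr.H58.Tail3
import Pool.Agent.MP_151d89_pr.H58.Incr
import Pool.Agent.MP_151d89_pr.H58.Var3
import Pool.Agent.MP_151d89_pr.H58.Conc
import Pool.Agent.MP_151d89_pr.H58.Dev
import Pool.Agent.MP_151d89_pr.H58.MP
import Pool.Agent.MP_151d89_pr.H58.MP2
import Pool.Agent.MP_151d89_pr.H58.Pla
import Pool.Agent.MP_151d89_pr.H58.Pla2
import Pool.Agent.MP_151d89_pr.H58.Str
import Pool.Agent.MP_151d89_pr.H58.Cls
import Pool.Agent.MP_151d89_pr.H58.Prod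
import Pool.Agent.MP_151d89_pr.H58.Pone
import Pool.Agent.MP_151d89_pr.H58.Tel
import Pool.Agent.MP_151d89_pr.H58.PLz
import Pool.Agent.MP_151d89_pr.H58.Fold1
import Pool.Agent.MP_151d89_pr.H58.Fold2
import Pool.Agent.MP_151d89_pr.H58.Rad
import Pool.Agent.MP_151d89_pr.H58.Fold3
import Pool.Agent.MP_151d89_pr.H58.Fold4
import Pool.Agent.MP_151d89_pr.H58.Loc3
import Pool.Agent.MP_151d89_pr.H58.Cov3
import Pool.Agent.MP_151d89_pr.H58.Anti
import Pool.Agent.MP_151d89_pr.H58.BProd
import Pool.Agent.MP_151d89_pr.H58.Pair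
import Pool.Agent.MP_151d89_pr.H58.BCore
import Pool.Agent.MP_151d89_pr.H58.Gain
import Pool.Agent.MP_151d89_pr.H58.Zed
import Pool.Agent.MP_151d89_pr.H58.Cell
import Pool.Agent.MP_151d89_pr.H58.Rich
import Pool.Agent.MP_151d89_pr.H58.RichP
import Pool.Agent.MP_151d89_pr.H58.Mol
import Pool.Agent.MP_151d89_pr.H58.Aff
import Pool.Agent.MP_151d89_pr.H58.Mac3
import Pool.Agent.MP_151d89_pr.H58.Comp
import Pool.Agent.MP_151d89_pr.H58.Ent
import Pool.Agent.MP_151d89_pr.H58.Tent
import Pool.Agent.MP_151d89_pr.H58.Eone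
import Pool.Agent.MP_151d89_pr.H58.Etwo
import Pool.Agent.MP_151d89_pr.H58.Sone
import Pool.Agent.MP_151d89_pr.H58.Stwo
import Pool.Agent.MP_151d89_pr.H58.Sthree
import Pool.Agent.MP_151d89_pr.H58.Sfour
import Pool.Agent.MP_151d89_pr.H58.Ana
import Pool.Agent.MP_151d89_pr.H58.Corr
import Pool.Agent.MP_151d89_pr.H58.Par
import Pool.Agent.MP_151d89_pr.H58.One
import Pool.Agent.MP_151d89_pr.H58.Half
import Pool.Agent.MP_151d89_pr.H58.Down
import Pool.Agent.MP_151d89_pr.H58.Boot
import Pool.Agent.MP_151d89_pr.H58.Res3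

/-!
Almost frozen segments of linear length: assembly.
-/

set_option autoImplicit false

namespace Pool.Agent.MP_151d89_pr.H58
open Pool.Agent.MP_151d89_pr.H30

theorem scale_all : ScaleStmt :=
  scale_row runF_row (fin2_row (tow_row
    (prob2_row (tc_row pl_row flip_row) (shift2_row mac_row
      (loc2_row pred_row cnt_row (low2_row glue2_row flip_row) surg_row) glue2_row)) mom_row)
    (energy2_row null_row near_row))

theorem incr_all : IncrStmt := incr_row tail3_row

theorem mp2_all : MP2Stmt := mp2_row incr_all mp_row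

theorem str_all : StrStmt := str_row incr_all (pla2_row mp2_all (pla_row mp2_all))

theorem pone_all : PoneStmt := pone_row str_all

theorem anti_all : AntiStmt :=
  anti_row scale_all (cov3_row mac_row (loc3_row pred_row cnt_row (low2_row glue2_row flip_row)))
    (var3_row tail3_row)

theorem zed_all : ZedStmt :=
  zed_row (gain_row (bcore_row str_all fold1_row (fold3_row fold1_row) (fold4_row fold1_row rad_row)
    anti_all (pair_row fold1_row (fold2_row fold1_row) bprod_row)) pone_all)
    (tel_row str_all cls_row prod_row pone_all) (plz_row pone_all)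

theorem etwo_all : EtwoStmt :=
  etwo_row (eone_row mol_row aff_row mac3_row comp_row
    (richP_row rich_row (conc_row incr_all) mol_row) (cell_row zed_all pone_all))
    (ent_row cls_row prod_row) tent_row mol_row (conc_row incr_all)

theorem long_segments : Res3Stmt :=
  res3_row segments (dev_row (conc_row incr_all)) (boot_row (down_row (half_row
    (one_row etwo_all (ana_row (sone_row mol_row) (sthree_row mol_row stwo_row) (sfour_row mol_row))
      (corr_row mp2_all) par_row) par_row)))

end Pool.Agent.MP_151d89_pr.H58
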