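import Pool.Agent.MP_151d89_pr.H58.Spec3

/-!
The entropy of the competitor.
-/

set_option autoImplicit false
open MeasureTheory Finset Filter

namespace Pool.Agent.MP_151d89_pr.H58
open Pool.Agent.MP_151d89_pr.H82 Pool.Agent.MP_151d89_pr.H33 Pool.Agent.MP_151d89_pr.H67
  Pool.Agent.MP_151d89_pr.H30
open Classical

namespace EoneP

/-- small second differences -/
def SD (η : ℝ) (P : ℤ × ℤ → ℝ) : Prop := ∀ b b' y, |dd b P (y + dir b') - dd b P y| ≤ η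

variable {η : ℝ} {P Q : ℤ × ℤ → ℝ}

theorem half {p q p' q' e : ℝ} (h : |p - p'| ≤ e) (h' : |q - q'| ≤ e) :
    |(p + q) / 2 - (p' + q') / 2| ≤ e := by
  rw [abs_le] at *
  constructor <;> linarith [h.1, h.2, h'.1, h'.2]

theorem dd_half (b : Bool) (P Q : ℤ × ℤ → ℝ) (y : ℤ × ℤ) :
    dd b (fun y => (P y + Q y) / 2) y = (dd b P y + dd b Q y) / 2 := by
  unfold dd; ring

theorem dd_add (b : Bool) (P : ℤ × ℤ → ℝ) (w y : ℤ × ℤ) :
    dd b (fun y => P (y + w)) y = dd b P (y + w) := by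
  unfold dd; beta_reduce; rw [add_right_comm]

theorem dd_sub (b : Bool) (P : ℤ × ℤ → ℝ) (w y : ℤ × ℤ) :
    dd b (fun y => P (y - w)) y = dd b P (y - w) := by
  simpa only [sub_eq_add_neg] using dd_add b P (-w) y

theorem SD.half (h : SD η P) (h' : SD η Q) : SD η fun y => (P y + Q y) / 2 := fun b b' y => by
  rw [dd_half, dd_half]; exact EoneP.half (h b b' y) (h' b b' y)

theorem SD.add (h : SD η P) (w : ℤ × ℤ) : SD η fun y => P (y + w) := fun b b' y => by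
  rw [dd_add, dd_add, add_right_comm]; exact h b b' _

theorem SD.sub (h : SD η P) (w : ℤ × ℤ) : SD η fun y => P (y - w) := by
  simpa only [sub_eq_add_neg] using h.add (-w)

theorem rng (h2 : AffStmt) (h : SD η P) {x : ℤ × ℤ} {r : ℕ} (hr : 1 ≤ r) {g : Conf} {e : ℝ}
    (k : ∀ y, nrm (y - x) = r → |(g y : ℝ) - P y| ≤ e) :
    Ring (sl P x) (P x - pl (sl P x) 0 x) (e + 6 * η * r ^ 2) x r g := fun y hy =>
  (abs_sub_le _ (P y) _).trans (add_le_add (k y hy) (h2 P η x r hr h y hy.le))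

theorem lip_dd (h : Lip P) (b : Bool) (y : ℤ × ℤ) : |dd b P y| ≤ 1 := by
  have := h (y + dir b) y
  cases b <;> simpa [dist1, dir, dd] using this

theorem near (h1 : MolStmt) {M : ℤ × ℤ → ℝ} (hM : Lip M) {j i : ℕ} (hj : j ≤ i) {y z : ℤ × ℤ}
    (h : nrm (z - y) ≤ 2 * 2 ^ i) : |M y - pr (2 ^ j) (2 ^ i) M z| ≤ 6 * 2 ^ i := by
  have a := abs_le.1 (((h1 (2 ^ j) M Nat.one_le_two_pow).2.2.2 hM).2.1 z)
  have b := abs_le.1 (((h1 (2 ^ i) M Nat.one_le_two_pow).2.2.2 hM).2.1 z)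
  have c : (dist1 y z : ℝ) ≤ 4 * 2 ^ i := by
    have : dist1 y z ≤ 4 * 2 ^ i := by
      simp only [nrm, dist1, Int.abs_eq_natAbs, Prod.fst_sub, Prod.snd_sub] at *
      omega
    exact_mod_cast this
  have d := abs_le.1 ((hM y z).trans c)
  have e : (2 : ℝ) ^ j ≤ 2 ^ i := pow_le_pow_right₀ one_le_two hj
  push_cast at a b
  unfold pr
  rw [abs_le]
  constructor <;> linarith [a.1, a.2, b.1, b.2, d.1, d.2]

theorem slope (h1 : MolStmt) {M : ℤ × ℤ → ℝ} (hM : Lip M) {δ : ℝ} {R j i : ℕ}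
    (hI : Inc M 0 R (2 * 2 ^ i) ((1 - δ) * (2 * 2 ^ i))) (b : Bool) {y : ℤ × ℤ}
    (h : nrm y + 3 * 2 ^ i ≤ R) : |dd b (pr (2 ^ j) (2 ^ i) M) y| ≤ 1 - δ / 2 := by
  have a := abs_le.1 (lip_dd ((h1 (2 ^ j) M Nat.one_le_two_pow).2.2.2 hM).1 b y)
  have c := (h1 (2 ^ i) M Nat.one_le_two_pow).2.2.1 b y _ fun z hz => hI b z ?_ ?_
  · push_cast at c
    rw [mul_div_cancel_right₀ _ (by positivity), abs_le] at c
    have e := dd_half b (ml (2 ^ j) M) (ml (2 ^ i) M) y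
    change |dd b (fun y => (ml (2 ^ j) M y + ml (2 ^ i) M y) / 2) y| ≤ _
    rw [e, abs_le]
    constructor <;> linarith [a.1, a.2, c.1, c.2]
  all_goals
    have p : (0 : ℤ) < 2 ^ i := by positivity
    push_cast at hz
    generalize hT : (2 : ℤ) ^ i = T at *
    cases b <;> simp only [mem_box, pt, dir, nrm, Int.abs_eq_natAbs, Prod.fst_sub, Prod.snd_sub,
      Prod.fst_add, Prod.snd_add, Prod.smul_mk, smul_eq_mul, Prod.fst_zero, Prod.snd_zero,
      Nat.cast_mul, Nat.cast_pow, Nat.cast_ofNat, hT, mul_zero, mul_one] at * <;> omega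

theorem sd_pr (h1 : MolStmt) {M : ℤ × ℤ → ℝ} (hM : Lip M) {i₀ j i : ℕ} (hj : i₀ ≤ j) (hi : i₀ ≤ i) :
    SD (1 / 2 ^ i₀) (pr (2 ^ j) (2 ^ i) M) := by
  have a : ∀ l, i₀ ≤ l → SD (1 / 2 ^ i₀) (ml (2 ^ l) M) := fun l hl b b' y =>
    (((h1 (2 ^ l) M Nat.one_le_two_pow).2.2.2 hM).2.2 b b' y).trans (by
      push_cast
      exact one_div_le_one_div_of_le (by positivity) (pow_le_pow_right₀ one_le_two hl))
  exact (a j hj).half (a i hi)

theorem num {p i s t e C C₀ q : ℝ} (hp : 0 ≤ p) (hi : 0 ≤ i) (hs : 0 < s) (ht : 0 < t) (hq : 0 ≤ q)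
    (h0 : 0 ≤ C₀) (hC : 6 * C₀ + 1 ≤ C) (he : e = (p + i + 1) / s + s / t + q) (h1 : 1 ≤ s ^ 2 * q) :
    1 + C₀ * ((p + 2 * i + 4 + 6 * (1 / t) * s ^ 2) * s + s ^ 2 * q) ≤ C * s ^ 2 * e := by
  have a : s ^ 2 * e = (p + i + 1) * s + 1 / t * s ^ 2 * s + s ^ 2 * q := by
    rw [he]; field_simp
  have b : 0 ≤ 1 / t * s ^ 2 * s := by positivity
  have c : (p + 2 * i + 4 + 6 * (1 / t) * s ^ 2) * s + s ^ 2 * q ≤ 6 * (s ^ 2 * e) := by
    rw [a]; nlinarith [mul_nonneg hp hs.le, mul_nonneg hi hs.le]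
  have d : 1 ≤ s ^ 2 * e := by rw [a]; nlinarith [mul_nonneg hp hs.le, mul_nonneg hi hs.le]
  nlinarith [mul_le_mul_of_nonneg_left c h0, mul_le_mul_of_nonneg_right hC (zero_le_one.trans d)]

theorem scales {R J i₀ i : ℕ} (h : (R : ℝ) ^ 2 * er R J i₀ i ≤ 4 ^ i) (hR : (2 : ℝ) ^ i ≤ R)
    (hi : i₀ ≤ i) : ph R ≤ 2 ^ J ∧ (2 : ℝ) ^ J ≤ 2 ^ i := by
  have p := ph_nonneg R
  have t : (0 : ℝ) < 2 ^ i := by positivity
  have a : er R J i₀ i ≤ 1 := by
    by_contra k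
    have e : (4 : ℝ) ^ i = (2 ^ i) ^ 2 := by rw [← pow_mul, mul_comm, pow_mul]; norm_num
    rw [e] at h
    nlinarith [pow_le_pow_left₀ t.le hR 2, pow_pos t 2, not_le.1 k]
  unfold er at a
  have b : 0 ≤ (ph R + i + 1) / 2 ^ J := by positivity
  have c : (0 : ℝ) ≤ 2 ^ J / 2 ^ i₀ := by positivity
  have d : (0 : ℝ) ≤ (4 / 5) ^ J := by positivity
  have e := (div_le_one (by positivity)).1 (show (ph R + i + 1) / 2 ^ J ≤ 1 by linarith)
  have f := (div_le_one (by positivity)).1 (show (2 : ℝ) ^ J / 2 ^ i₀ ≤ 1 by linarith)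
  exact ⟨by linarith [Nat.cast_nonneg (α := ℝ) i], f.trans (pow_le_pow_right₀ one_le_two hi)⟩

end EoneP

open EoneP

theorem eone_row (h1 : MolStmt) (h2 : AffStmt) (h3 : Mac3Stmt) (h4 : CompStmt) (h5 : RichPStmt)
    (h6 : CellStmt) : EoneStmt := by
  intro δ d0 d1
  obtain ⟨c, C₀, c0, C0, hc⟩ := h6 (δ / 2) (by linarith) (by linarith)
  have d6 : 0 < 6 / δ := by positivity
  refine ⟨c, 6 * C₀ + 1 + 6 / δ + 3, c0, by linarith, ?_⟩
  rintro R J i₀ j i m k g f w ⟨hg, -, hi, hI, hS⟩ hj hji hm hR hw hk hf hD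
  set M := mn (box 0 R) g with hM
  set P := pr (2 ^ j) (2 ^ i) M with hP
  have lM : Lip M := lip_mn _ hg
  have t0 : (0 : ℝ) < 2 ^ i := by positivity
  have t1 : (1 : ℝ) ≤ 2 ^ i := one_le_pow₀ one_le_two
  have m3 : (3 : ℝ) * 2 ^ i ≤ m := by nlinarith [mul_pos d6 t0, mul_nonneg C0 t0.le]
  have m6 : 6 * 2 ^ i ≤ δ * m := by
    have : δ * (6 / δ * 2 ^ i) = 6 * 2 ^ i := by field_simp
    rw [← this]
    exact mul_le_mul_of_nonneg_left (by nlinarith [mul_nonneg C0 t0.le]) d0.le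
  have r8 : (8 : ℝ) * m ≤ R := by exact_mod_cast hR
  obtain ⟨s1, s2⟩ := scales hS (by linarith) hi
  have m3' : 3 * 2 ^ i ≤ m := by exact_mod_cast m3
  have s2' : 2 ^ J ≤ 2 ^ i := by exact_mod_cast s2
  have z3 : (3 : ℤ) * 2 ^ i ≤ m := by exact_mod_cast m3
  have z0 : (0 : ℤ) < 2 ^ i := by positivity
  have sl1 : ∀ b y, y ∈ box 0 (6 * m) → |dd b P (y + w)| ≤ 1 - δ / 2 ∧
      |dd b P (y - w)| ≤ 1 - δ / 2 := fun b y hy => by
    constructor <;> refine slope h1 lM hI b ?_ <;>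
      simp only [mem_box, nrm, Int.abs_eq_natAbs, Prod.fst_sub, Prod.snd_sub, Prod.fst_add,
        Prod.snd_add, Prod.fst_zero, Prod.snd_zero] at hy hw ⊢ <;> omega
  have d2 : ∀ b y, dd b (av2 P w) y = (dd b P (y + w) + dd b P (y - w)) / 2 := fun b y => by
    rw [← dd_add, ← dd_sub, ← dd_half]; rfl
  obtain ⟨P', l', e'⟩ := h3 (δ / 2) (av2 P w) (6 * m) (by linarith) fun b y hy => by
    simpa [d2] using half (p' := 0) (q' := 0) (by simpa using (sl1 b y hy).1)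
      (by simpa using (sl1 b y hy).2)
  obtain ⟨γ, hγ, hB⟩ := h4 (δ / 2) P' (fun y => |M y - av2 P w y| + ph R + 2) f (k + 2 ^ J) (6 * m)
    (by linarith) l' (mem_FS.1 hf).1 (by omega) (fun y hy => by
      have := hD y
      rw [mn_congr hf] at this
      rw [e' y hy]
      linarith [abs_sub_le (f y : ℝ) (M y) (av2 P w y)]) fun y _ => by
      have a : |M y - av2 P w y| ≤ 6 * 2 ^ i := by
        have := half (near h1 lM hji (y := y) (z := y + w) (by simpa using hw))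
          (near h1 lM hji (y := y) (z := y - w) (by simpa [nrm] using hw))
        rwa [add_self_div_two] at this
      have b : (k : ℝ) ≤ 2 * m := by exact_mod_cast hk
      have e : 3 * (m : ℝ) ≤ 6 * m - (k + 2 ^ J) := by linarith
      push_cast
      nlinarith [mul_le_mul_of_nonneg_left e d0.le]
  refine ⟨γ, hγ, fun x hx => ?_⟩
  have x6 : x ∈ box 0 (6 * m) := by
    simp only [mem_box] at hx ⊢
    omega
  have R1 : 1 ≤ R := by have := @Nat.one_le_two_pow i; omega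
  obtain ⟨g₁, a1, a2, a3⟩ := h5 R (2 ^ J - 1) j i g x w hg R1 (by omega) hji
  obtain ⟨g₂, b1, b2, b3⟩ := h5 R (2 ^ J - 1) j i g x (-w) hg R1 (by omega) hji
  simp only [← sub_eq_add_neg] at b2 b3
  have sP : SD (1 / 2 ^ i₀) P := sd_pr h1 lM hj hi
  have r1 := EoneP.rng h2 (sP.add w) (x := x) (@Nat.one_le_two_pow J) fun y _ => a2 y
  have r2 := EoneP.rng h2 (sP.sub w) (x := x) (@Nat.one_le_two_pow J) fun y _ => b2 y
  have r3 := EoneP.rng h2 (P := av2 P w) ((sP.add w).half (sP.sub w)) (x := x) (@Nat.one_le_two_pow J)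
    (g := γ) (e := ph R + 2 * i + 4) fun y hy => by
      have y1 : y ∈ box 0 (k + 2 ^ J) := by
        simp only [mem_box, nrm, Int.abs_eq_natAbs, Prod.fst_sub, Prod.snd_sub, Prod.fst_zero,
          Prod.snd_zero] at hx hy ⊢
        omega
      have y2 : y ∈ box 0 (6 * m) := by
        simp only [mem_box] at y1 ⊢
        omega
      rw [← e' y y2]
      linarith [hB y y1, ph_nonneg R, Nat.cast_nonneg (α := ℝ) i]
  have e1 : sl (fun y => P (y + w)) x = sl P (x + w) := Prod.ext (dd_add ..) (dd_add ..)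
  have e2 : sl (fun y => P (y - w)) x = sl P (x - w) := Prod.ext (dd_sub ..) (dd_sub ..)
  have e3 : sl (av2 P w) x = md (sl P (x + w)) (sl P (x - w)) := Prod.ext (d2 ..) (d2 ..)
  rw [e1] at r1
  rw [e2] at r2
  rw [e3] at r3
  have H := hc _ _ _ _ _ _ x J g₁ g₂ γ ⟨(sl1 true x x6).1, (sl1 false x x6).1⟩
    ⟨(sl1 true x x6).2, (sl1 false x x6).2⟩ a1 b1 (mem_FS.1 hγ).1 r1 r2 r3
  have e4 : (4 : ℝ) ^ J = (2 ^ J) ^ 2 := by rw [← pow_mul, mul_comm, pow_mul]; norm_num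
  have N := EoneP.num (ph_nonneg R) (Nat.cast_nonneg i) (pow_pos two_pos J) (pow_pos two_pos i₀)
    (q := (4 / 5) ^ J) (by positivity) C0 (C := 6 * C₀ + 1 + 6 / δ + 3) (by linarith)
    (e := er R J i₀ i) rfl (by rw [← e4, ← mul_pow]; exact one_le_pow₀ (by norm_num))
  push_cast at H
  rw [e4] at H ⊢
  unfold av2 ds
  linarith

end Pool.Agent.MP_151d89_pr.H58
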