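import Pool.Agent.MP_151d89_pr.H58.Spec2
import Pool.Agent.MP_151d89_pr.H58.Low

/-!
Positive entropy in a box in which the boundary function is close to a contracting profile.
-/

set_option autoImplicit false
open MeasureTheory Finset Filter

namespace Pool.Agent.MP_151d89_pr.H58
open Pool.Agent.MP_151d89_pr.H82 Pool.Agent.MP_151d89_pr.H33 Pool.Agent.MP_151d89_pr.H67
  Pool.Agent.MP_151d89_pr.H30
open Classical

namespace Low2P

theorem ex_base {δ : ℝ} (hδ : 0 < δ) {P : ℤ × ℤ → ℝ} (hu : Lp δ P) {g : Conf} (hg : Hom g) :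
    ∃ f : Conf, Hom f ∧ (∀ y, (f y - g y) % 2 = 0) ∧
      ∀ y, P y ≤ f y ∧ (f y : ℝ) < P y + 2 := by
  have key : ∀ y, P y ≤ ((g y + 2 * ⌈(P y - g y) / 2⌉ : ℤ) : ℝ) ∧
      ((g y + 2 * ⌈(P y - g y) / 2⌉ : ℤ) : ℝ) < P y + 2 := fun y => by
    have h1 := Int.le_ceil ((P y - g y) / 2)
    have h2 := Int.ceil_lt_add_one ((P y - g y) / 2)
    push_cast
    constructor <;> linarith
  refine ⟨fun y => g y + 2 * ⌈(P y - g y) / 2⌉, fun x y hxy => ?_, fun y => by
    simp only; omega, key⟩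
  have h0 := hg x y hxy
  have e1 : dist1 x y = 1 := hxy
  have e2 : dist1 y x = 1 := by unfold dist1; rw [abs_sub_comm y.1, abs_sub_comm y.2]; exact hxy
  have h1 := hu x y
  have h2 := hu y x
  rw [e1] at h1
  rw [e2] at h2
  have kx := key x
  have ky := key y
  have h3 : (g x + 2 * ⌈(P x - g x) / 2⌉ : ℤ) < g y + 2 * ⌈(P y - g y) / 2⌉ + 3 := by
    have : ((g x + 2 * ⌈(P x - g x) / 2⌉ : ℤ) : ℝ) <
        ((g y + 2 * ⌈(P y - g y) / 2⌉ : ℤ) : ℝ) + 3 := by
      simp only [Int.cast_one] at h2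
      linarith [kx.2, ky.1]
    exact_mod_cast this
  have h4 : (g y + 2 * ⌈(P y - g y) / 2⌉ : ℤ) < g x + 2 * ⌈(P x - g x) / 2⌉ + 3 := by
    have : ((g y + 2 * ⌈(P y - g y) / 2⌉ : ℤ) : ℝ) <
        ((g x + 2 * ⌈(P x - g x) / 2⌉ : ℤ) : ℝ) + 3 := by
      simp only [Int.cast_one] at h1
      linarith [ky.2, kx.1]
    exact_mod_cast this
  rw [abs_eq (by norm_num)] at h0 ⊢
  simp only
  omega

/-- a function close to the profile with local maxima on a sparse set -/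
theorem ex_peaks {δ : ℝ} (hδ : 0 < δ) {P : ℤ × ℤ → ℝ} (hu : Lp δ P) {g : Conf} (hg : Hom g)
    {m : ℕ} (hm : 8 ≤ δ * m) (Y : Finset (ℤ × ℤ))
    (hY : ∀ z ∈ Y, ∀ w ∈ Y, z ≠ w → (m : ℤ) ≤ dist1 z w) :
    ∃ f : Conf, Hom f ∧ (∀ y, (f y - g y) % 2 = 0) ∧ (∀ y, |(f y : ℝ) - P y| ≤ 4) ∧
      ∀ z ∈ Y, Ext (-1) z f := by
  obtain ⟨φ, p1, p2, p3⟩ := ex_base hδ hu hg
  obtain ⟨f, h1, h2, h3, h4, h5⟩ := LowP.ex_sup p1 Y
  have hδ1 : δ ≤ 1 := by
    have a1 := hu (0, 0) (1, 0)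
    have a2 := hu (1, 0) (0, 0)
    have e1 : dist1 ((0, 0) : ℤ × ℤ) (1, 0) = 1 := by simp [dist1]
    have e2 : dist1 ((1, 0) : ℤ × ℤ) (0, 0) = 1 := by simp [dist1]
    rw [e1] at a1
    rw [e2] at a2
    simp only [Int.cast_one] at a1 a2
    linarith
  have hc : ∀ y z, ((φ z + 2 - dist1 y z : ℤ) : ℝ) < P y + 4 - δ * (dist1 y z : ℝ) := by
    intro y z
    have := hu y z
    have := (p3 z).2
    push_cast
    linarith
  have hd : ∀ y z, (0 : ℝ) ≤ (dist1 y z : ℝ) := fun y z => by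
    have : 0 ≤ dist1 y z := add_nonneg (abs_nonneg _) (abs_nonneg _)
    exact_mod_cast this
  refine ⟨f, h1, fun y => by have := h2 y; have := p2 y; omega, fun y => ?_, fun z hz y hy => ?_⟩
  · rw [abs_le]
    have a1 : (φ y : ℝ) ≤ f y := by exact_mod_cast h3 y
    refine ⟨by linarith [(p3 y).1], ?_⟩
    rcases h5 y with e | ⟨z, _, e⟩
    · rw [e]; linarith [(p3 y).2]
    · rw [e]; linarith [hc y z, mul_nonneg hδ.le (hd y z)]
  · have a1 := h1 z y hy
    have a2 := p1 z y hy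
    have a3 := h4 z hz
    have a4 : f y ≤ φ z + 1 := by
      rw [abs_eq (by norm_num)] at a2
      rcases h5 y with e | ⟨w, hw, e⟩
      · omega
      · by_cases hzw : z = w
        · subst hzw
          have : dist1 y z = 1 := by
            unfold dist1; rw [abs_sub_comm y.1, abs_sub_comm y.2]; exact hy
          omega
        · have b1 := hY z hz w hw hzw
          have b2 : (m : ℤ) - 1 ≤ dist1 y w := by
            simp only [dist1, Int.abs_eq_natAbs] at b1 hy ⊢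
            omega
          have b3 : (m : ℝ) - 1 ≤ (dist1 y w : ℝ) := by exact_mod_cast b2
          have b4 := mul_le_mul_of_nonneg_left b3 hδ.le
          have b5 : (f y : ℝ) < φ y := by
            rw [e]
            have := hc y w
            have := (p3 y).1
            nlinarith
          have b6 : f y < φ y := by exact_mod_cast b5
          omega
    rw [abs_eq (by norm_num)] at a1
    omega

end Low2P

theorem low2_row (h1 : Glue2Stmt) (h2 : FlipStmt) : Low2Stmt := by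
  intro δ hδ
  obtain ⟨m, hm⟩ : ∃ m : ℕ, 4 / δ ≤ m := exists_nat_ge _
  have hm4 : 4 ≤ δ * m := by rw [div_le_iff₀ hδ] at hm; linarith
  have hm1 : 1 ≤ m := by
    rcases Nat.eq_zero_or_pos m with e | e
    · rw [e] at hm4; norm_num at hm4
    · exact e
  have hm0 : (0 : ℝ) < m := by exact_mod_cast hm1
  refine ⟨Real.log 2 / (16 * m) ^ 2, 24 / δ + 4 + 4 * m,
    div_pos (Real.log_pos one_lt_two) (by positivity), fun a P x ρ g hu hg ha hρ hb => ?_⟩
  have hδ' : 0 < 1 / δ := by positivity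
  obtain ⟨w, hw1, hw2⟩ : ∃ w : ℕ, a + 4 + 2 ≤ δ * w ∧ 4 * w ≤ ρ := by
    refine ⟨⌈(a + 6) / δ⌉₊, ?_, ?_⟩
    · have := Nat.le_ceil ((a + 6) / δ)
      rw [div_le_iff₀ hδ] at this
      linarith
    · have h3 := Nat.ceil_lt_add_one (show 0 ≤ (a + 6) / δ by positivity)
      have e1 : (a + 6) / δ = a * (1 / δ) + 6 * (1 / δ) := by ring
      have e2 : (24 / δ + 4 + 4 * m) * (a + 1) =
          24 * (a * (1 / δ)) + 24 * (1 / δ) + 4 * a + 4 + 4 * (m * a) + 4 * m := by ring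
      have : (4 : ℝ) * ⌈(a + 6) / δ⌉₊ ≤ ρ := by
        have := mul_nonneg ha hδ'.le
        have := mul_nonneg hm0.le ha
        linarith
      exact_mod_cast this
  have hρm : 4 * m ≤ ρ := by
    have : (4 : ℝ) * m ≤ ρ := by
      have e2 : (24 / δ + 4 + 4 * m) * (a + 1) =
          24 * (a * (1 / δ)) + 24 * (1 / δ) + 4 * a + 4 + 4 * (m * a) + 4 * m := by ring
      have := mul_nonneg ha hδ'.le
      have := mul_nonneg hm0.le ha
      linarith
    exact_mod_cast this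
  obtain ⟨k, hk1, hk2⟩ : ∃ k : ℕ, 2 * (2 * m * k) ≤ ρ ∧ 2 * ρ + 1 ≤ 16 * m * k := by
    have a1 : 0 < ρ / (4 * m) := Nat.div_pos hρm (by omega)
    have a2 := Nat.div_add_mod ρ (4 * m)
    have a3 := Nat.mod_lt ρ (show 0 < 4 * m by omega)
    have a4 : 4 * m * 1 ≤ 4 * m * (ρ / (4 * m)) := Nat.mul_le_mul_left _ a1
    refine ⟨ρ / (4 * m), ?_, ?_⟩
    · have : 2 * (2 * m * (ρ / (4 * m))) = 4 * m * (ρ / (4 * m)) := by ring
      omega
    · have : 16 * m * (ρ / (4 * m)) = 4 * (4 * m * (ρ / (4 * m))) := by ring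
      omega
  obtain ⟨Y, y1, y2, y3, y4⟩ := LowP.ex_grid x hm1 k
  obtain ⟨f, f1, f2, f3, f4⟩ := Low2P.ex_peaks hδ hu hg (m := 2 * m) (by push_cast; linarith) Y y3
  obtain ⟨γ, g1, g2⟩ := h1 δ (a + 4) P x ρ (2 * m * k) w g f hδ hu hg f1 (f2 x) hw1 (by omega)
    (fun y hy => (hb y hy).trans (by linarith)) (fun y _ => (f3 y).trans (by linarith))
  have hF := h2 (FS (box x ρ) g) Y (fun _ => -1) y2 (fun _ => Or.inr rfl)
    fun a ha y hy τ hτ h => LowP.upd ha (by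
      have := y4 y hy
      rw [mem_box]
      omega) hτ h
  have hpos : 1 ≤ ((FS (box x ρ) g).filter fun a => ∀ y ∈ Y, Ext (-1) y a).card := by
    refine card_pos.2 ⟨γ, mem_filter.2 ⟨g1, fun z hz y hy => ?_⟩⟩
    have a1 := y4 z hz
    simp only [Int.abs_eq_natAbs] at hy
    rw [g2 y (by rw [mem_box]; omega), g2 z (by rw [mem_box]; omega)]
    exact f4 z hz y (by simpa only [Int.abs_eq_natAbs] using hy)
  have hle : 2 ^ k ^ 2 ≤ (FS (box x ρ) g).card := by
    rw [← y1]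
    exact (Nat.le_mul_of_pos_left _ hpos).trans hF
  have hle' : (2 : ℝ) ^ k ^ 2 ≤ (FS (box x ρ) g).card := by exact_mod_cast hle
  refine le_trans ?_ hle'
  rw [← Real.exp_log (show (0 : ℝ) < 2 ^ k ^ 2 by positivity), Real.exp_le_exp, Real.log_pow,
    div_mul_eq_mul_div, div_le_iff₀ (by positivity)]
  have a1 : (2 * ρ + 1 : ℝ) ≤ 16 * m * k := by exact_mod_cast hk2
  have a2 : (2 * ρ + 1 : ℝ) ^ 2 ≤ (16 * m * k) ^ 2 := pow_le_pow_left₀ (by positivity) a1 2
  have a3 := mul_le_mul_of_nonneg_left a2 (Real.log_pos one_lt_two).le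
  push_cast
  linarith

end Pool.Agent.MP_151d89_pr.H58
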