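import Pool.Agent.MP_151d89_pr.H58.Spec3

/-!
Row Pair: the weighted count of folded pairs.
-/

set_option autoImplicit false
open MeasureTheory Finset Filter

namespace Pool.Agent.MP_151d89_pr.H58
open Pool.Agent.MP_151d89_pr.H82 Pool.Agent.MP_151d89_pr.H33 Pool.Agent.MP_151d89_pr.H67
  Pool.Agent.MP_151d89_pr.H30
open Classical

namespace PairP

/-- the local weight -/
noncomputable def pw (K : ℕ) (δ a e : ℝ) (b : Conf) (x : ℤ × ℤ) (f : Conf) : ℝ :=
  1 / 2 + 1 / 2 * ind (|FF x K f - FF x K b| ≤ e ∧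
    Sg δ a (box x (11 * K) : Finset (ℤ × ℤ)) f)

theorem pw_nonneg (K : ℕ) (δ a e : ℝ) (b : Conf) (x : ℤ × ℤ) (f : Conf) :
    0 ≤ pw K δ a e b x f := add_nonneg (by norm_num) (mul_nonneg (by norm_num) (ind_mem _).1)

theorem pw_loc (K : ℕ) (δ a e : ℝ) (b : Conf) (x : ℤ × ℤ) (f f' : Conf)
    (h : ∀ y ∈ box x (11 * K), f y = f' y) : pw K δ a e b x f = pw K δ a e b x f' := by
  have e1 : FF x K f = FF x K f' := by
    unfold FF
    rw [sum_congr rfl fun y hy => by rw [h y (by rw [mem_box] at *; push_cast; omega)]]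
  have e2 : Sg δ a (box x (11 * K) : Finset (ℤ × ℤ)) f ↔
      Sg δ a (box x (11 * K) : Finset (ℤ × ℤ)) f' :=
    forall₃_congr fun b y l => forall_congr' fun hl => by
      have h0 := hl 0 l.zero_le
      rw [Nat.cast_zero, pt_zero] at h0
      rw [h _ (hl l le_rfl), h y h0]
  rw [pw, pw, e1, e2]

theorem out (h1 : Fold1Stmt) {Λ : Finset (ℤ × ℤ)} {g g' a b : Conf} {w : ℤ → ℤ} (hg : Hom g)
    (hg' : Hom g') (hp : ∀ y, (g y - g' y) % 2 = 0) (hw : ∀ k, |w k - w (k - 1)| = 1)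
    (ha : a ∈ FS Λ g) (hb : b ∈ FS Λ g') :
    mA Λ w a b ∈ FS Λ (mA Λ w g g') ∧ mB Λ w a b ∈ FS Λ (mB Λ w g g') := by
  obtain ⟨-, -, t1, -, t2⟩ :=
    h1 Λ a b (mem_FS.1 ha).1 (mem_FS.1 hb).1 (par_FS (fun y _ => hp y) ha hb)
  obtain ⟨-, -, t3, -⟩ := h1 Λ g g' hg hg' hp
  rw [mem_FS] at ha hb
  exact ⟨mem_FS.2 ⟨(t2 w hw).1, fun y hy => by
      simp only [mA, fld, t1 y hy, t3 y hy, hf, ha.2 y hy, hb.2 y hy]⟩,
    mem_FS.2 ⟨(t2 w hw).2, fun y hy => by
      simp only [mB, fld, t1 y hy, t3 y hy, hf, ha.2 y hy, hb.2 y hy]⟩⟩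

end PairP

open PairP

theorem pair_row (h1 : Fold1Stmt) (h2 : Fold2Stmt) (h3 : BProdStmt) : PairStmt := by
  intro Λ I g g' w K δ a e c S hg hg' hp hw hc hI hsep hav hS hSg
  obtain ⟨ha, hb⟩ := (h1 Λ g g' hg hg' hp).2.2.2.2 w hw
  have mem : ∀ p ∈ S, p.1 ∈ FS Λ g ∧ p.2 ∈ FS Λ g' := fun p h => mem_product.1 (hS h)
  have hq : 0 ≤ 1 - c / 2 := by linarith
  calc _ ≤ ∑ p ∈ S, ∏ x ∈ I, pw K δ a e (mB Λ w p.1 p.2) x (mA Λ w p.1 p.2) := by
        refine sum_le_sum fun p h => ?_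
        rw [num_eq, ← sum_neg_distrib, Real.exp_sum]
        refine prod_le_prod (fun _ _ => (Real.exp_pos _).le) fun x hx => ?_
        by_cases h4 : e < |FF x K (mA Λ w p.1 p.2) - FF x K (mB Λ w p.1 p.2)|
        · rw [ind_pos h4, pw, ind_neg fun h5 => h4.not_ge h5.1, Real.exp_neg, mul_zero, add_zero,
            one_div]
          exact inv_anti₀ two_pos (by linarith [Real.add_one_le_exp (1 : ℝ)])
        · rw [ind_neg h4, pw, ind_pos ⟨not_lt.1 h4, (hSg p h).sub (coe_subset.2 (hI x hx))⟩]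
          norm_num
    _ = ∑ q ∈ S.image fun p => (mA Λ w p.1 p.2, mB Λ w p.1 p.2),
          ∏ x ∈ I, pw K δ a e q.2 x q.1 := by
        rw [sum_image fun p h p' h' e => Prod.ext_iff.2 (h2 Λ g g' _ _ _ _ w (fun y _ => hp y) hw
          (mem p h).1 (mem p h).2 (mem p' h').1 (mem p' h').2 (congrArg Prod.fst e)
          (congrArg Prod.snd e))]
    _ ≤ ∑ q ∈ FS Λ (mA Λ w g g') ×ˢ FS Λ (mB Λ w g g'), ∏ x ∈ I, pw K δ a e q.2 x q.1 :=
        sum_le_sum_of_subset_of_nonneg (image_subset_iff.2 fun p h =>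
          mem_product.2 (out h1 hg hg' hp hw (mem p h).1 (mem p h).2))
          fun _ _ _ => prod_nonneg fun _ _ => pw_nonneg ..
    _ ≤ ∑ b ∈ FS Λ (mB Λ w g g'), (FS Λ (mA Λ w g g')).card * (1 - c / 2) ^ I.card := by
        rw [sum_product_right]
        refine sum_le_sum fun b _ => (av_mul_card Λ (fun f => ∏ x ∈ I, pw K δ a e b x f) ha).trans_le
          (mul_le_mul_of_nonneg_left (h3 Λ I (11 * K) _ (pw K δ a e b) _ ha hq hI
            (fun x h x' h' ne => ?_) (pw_nonneg K δ a e b) (fun x _ => pw_loc K δ a e b x)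
            fun x hx f hf => ?_) (Nat.cast_nonneg _))
        · have := hsep x h x' h' ne
          push_cast
          linarith
        · unfold pw
          rw [av_add, av_smul, av_const _ _ hf]
          linarith [hav x hx (FF x K b) f hf]
    _ ≤ _ := by
        rw [sum_const, nsmul_eq_mul, sub_eq_add_neg _ (c / 2 * _), Real.exp_add, Real.exp_add,
          exp_lz _ ha, exp_lz _ hb, mul_left_comm, mul_assoc, ← neg_mul, mul_comm (-(c / 2)),
          Real.exp_nat_mul]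
        gcongr
        linarith [Real.add_one_le_exp (-(c / 2))]

end Pool.Agent.MP_151d89_pr.H58
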