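import Pool.Agent.MP_151d89_pr.H58.Spec3

/-!
Separated boxes are independent.
-/

set_option autoImplicit false
open MeasureTheory Finset Filter

namespace Pool.Agent.MP_151d89_pr.H58
open Pool.Agent.MP_151d89_pr.H82 Pool.Agent.MP_151d89_pr.H33 Pool.Agent.MP_151d89_pr.H67
  Pool.Agent.MP_151d89_pr.H30
open Classical

namespace ProdP

theorem glue {X Y : Finset (ℤ × ℤ)} (hs : ∀ y ∈ X, ∀ y' ∈ Y, 1 < |y.1 - y'.1| + |y.2 - y'.2|)
    {a b : Conf} (ha : Hom a) (hb : Hom b) (h : ∀ y, y ∉ X → y ∉ Y → a y = b y) :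
    Hom fun y => if y ∈ X then a y else b y := by
  intro y y' e
  by_cases h1 : y ∈ X <;> by_cases h2 : y' ∈ X <;> simp only [h1, h2, if_true, if_false]
  · exact ha y y' e
  · rw [← h y' h2 fun c => (hs y h1 y' c).ne' e]
    exact ha y y' e
  · rw [← h y h1 fun c => (hs y' h2 y c).ne' (by rw [abs_sub_comm y'.1, abs_sub_comm y'.2, e])]
    exact ha y y' e
  · exact hb y y' e

theorem card_union {X Y : Finset (ℤ × ℤ)}
    (hs : ∀ y ∈ X, ∀ y' ∈ Y, 1 < |y.1 - y'.1| + |y.2 - y'.2|) {g : Conf} (hg : Hom g) :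
    (FS (X ∪ Y) g).card = (FS X g).card * (FS Y g).card := by
  have hs' : ∀ y ∈ Y, ∀ y' ∈ X, 1 < |y.1 - y'.1| + |y.2 - y'.2| := fun y a y' b => by
    rw [abs_sub_comm y.1, abs_sub_comm y.2]
    exact hs y' b y a
  have dj : ∀ y ∈ X, y ∉ Y := fun y a b => by simpa using hs y a y b
  rw [← card_product]
  refine card_nbij' (fun f => (fun y => if y ∈ X then f y else g y,
    fun y => if y ∈ Y then f y else g y)) (fun p y => if y ∈ X then p.1 y else p.2 y)
    (fun f hf => ?_) (fun p hp => ?_) (fun f hf => ?_) fun p hp => ?_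
  · obtain ⟨h1, h2⟩ := mem_FS.1 (mem_coe.1 hf)
    exact mem_coe.2 (mem_product.2
      ⟨mem_FS.2 ⟨glue hs h1 hg fun y a b => h2 y (by simp [a, b]), fun y a => if_neg a⟩,
        mem_FS.2 ⟨glue hs' h1 hg fun y a b => h2 y (by simp [a, b]), fun y a => if_neg a⟩⟩)
  · obtain ⟨h1, h2⟩ := mem_product.1 (mem_coe.1 hp)
    rw [mem_FS] at h1 h2
    refine mem_coe.2 (mem_FS.2
      ⟨glue hs h1.1 h2.1 fun y a b => (h1.2 y a).trans (h2.2 y b).symm, fun y a => ?_⟩)
    rw [notMem_union] at a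
    exact (if_neg a.1).trans (h2.2 y a.2)
  · obtain ⟨-, h2⟩ := mem_FS.1 (mem_coe.1 hf)
    funext y
    by_cases a : y ∈ X <;> by_cases b : y ∈ Y <;> simp only [a, b, if_true, if_false]
    exact (h2 y (by simp [a, b])).symm
  · obtain ⟨h1, h2⟩ := mem_product.1 (mem_coe.1 hp)
    rw [mem_FS] at h1 h2
    refine Prod.ext (funext fun y => ?_) (funext fun y => ?_)
    · by_cases a : y ∈ X <;> simp only [a, if_true, if_false]
      exact (h1.2 y a).symm
    · by_cases b : y ∈ Y <;> simp only [b, if_true, if_false]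
      · exact if_neg fun a => dj y a b
      · exact (h2.2 y b).symm

end ProdP

theorem prod_row : ProdStmt := by
  intro I ρ g hg
  induction I using Finset.induction_on with
  | empty => simp [lz, FS_empty, hg]
  | insert x I hx ih =>
    intro h
    rw [biUnion_insert, sum_insert hx,
      ← ih fun a ha b hb => h a (mem_insert_of_mem ha) b (mem_insert_of_mem hb), lz, lz, lz,
      ← Real.log_mul (card_pos _ hg).ne' (card_pos _ hg).ne', ProdP.card_union _ hg, Nat.cast_mul]
    intro y a y' b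
    obtain ⟨x', c, d⟩ := mem_biUnion.1 b
    have := h x (mem_insert_self _ _) x' (mem_insert_of_mem c) fun e => hx (e ▸ c)
    simp only [mem_box, nrm, Int.abs_eq_natAbs, Prod.fst_sub, Prod.snd_sub] at a d this ⊢
    omega

end Pool.Agent.MP_151d89_pr.H58
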