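import Pool.Agent.MP_151d89_pr.H58.Spec3

/-!
Row Res3: macroscopic almost frozen segments at all radii.
-/

set_option autoImplicit false
open MeasureTheory Finset Filter

namespace Pool.Agent.MP_151d89_pr.H58
open Pool.Agent.MP_151d89_pr.H82 Pool.Agent.MP_151d89_pr.H33 Pool.Agent.MP_151d89_pr.H67
  Pool.Agent.MP_151d89_pr.H30
open Classical

namespace Res3P

theorem back (b : Bool) (x : ℤ × ℤ) {l t : ℕ} (ht : t ≤ l) :
    pt b x l + (t : ℤ) • -dir b = pt b x (l - t : ℕ) := by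
  rw [pt, pt, Nat.cast_sub ht, smul_neg, sub_smul]
  abel

theorem units {e : ℤ × ℤ} (he : |e.1| + |e.2| = 1) : ∃ b, e = dir b ∨ e = -dir b := by
  obtain ⟨p, q⟩ := e
  have : (p = 1 ∧ q = 0) ∨ (p = -1 ∧ q = 0) ∨ (p = 0 ∧ q = 1) ∨ (p = 0 ∧ q = -1) := by
    simp only [Int.abs_eq_natAbs] at he
    omega
  rcases this with ⟨rfl, rfl⟩ | ⟨rfl, rfl⟩ | ⟨rfl, rfl⟩ | ⟨rfl, rfl⟩
  exacts [⟨true, .inl rfl⟩, ⟨true, .inr rfl⟩, ⟨false, .inl rfl⟩, ⟨false, .inr rfl⟩]

theorem not_sg {δ a : ℝ} {S : Set (ℤ × ℤ)} {f : Conf} : ¬ Sg δ a S f ↔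
    ∃ (x e : ℤ × ℤ) (n : ℕ), |e.1| + |e.2| = 1 ∧ (∀ t : ℕ, t ≤ n → x + (t : ℤ) • e ∈ S) ∧
      (1 - δ) * n + a < ((f (x + (n : ℤ) • e) - f x : ℤ) : ℝ) := by
  constructor
  · intro h
    simp only [Sg, not_forall, not_le] at h
    obtain ⟨b, x, l, a1, a2⟩ := h
    rcases lt_abs.1 a2 with a5 | a5
    · exact ⟨x, dir b, l, by cases b <;> rfl, a1, by rw [Int.cast_sub]; exact a5⟩
    · refine ⟨pt b x l, -dir b, l, by cases b <;> rfl, fun t ht => ?_, ?_⟩
      · rw [back b x ht]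
        exact a1 _ (Nat.sub_le _ _)
      · have : pt b x l + (l : ℤ) • -dir b = x := by rw [pt, smul_neg, add_neg_cancel_right]
        rw [this, Int.cast_sub]
        exact a5.trans_eq (neg_sub _ _)
  · rintro ⟨x, e, n, he, ht, hlt⟩ h
    rw [Int.cast_sub] at hlt
    obtain ⟨b, rfl | rfl⟩ := units he
    · exact hlt.not_ge ((le_abs_self _).trans (h b x n ht))
    · have e1 : ∀ t : ℕ, t ≤ n → pt b (x + (n : ℤ) • -dir b) t = x + ((n - t : ℕ) : ℤ) • -dir b :=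
        fun t h => by
          rw [pt, Nat.cast_sub h, smul_neg, smul_neg, sub_smul]
          abel
      have := h b (x + (n : ℤ) • -dir b) n fun t h => by
        rw [e1 t h]
        exact ht _ (Nat.sub_le _ _)
      rw [e1 n le_rfl, Nat.sub_self, Nat.cast_zero, zero_smul, add_zero, abs_sub_comm] at this
      exact hlt.not_ge ((le_abs_self _).trans this)

end Res3P

open Res3P in
theorem res3_row (h1 : ResStmt) (h2 : DevStmt) (h3 : BootStmt) : Res3Stmt := by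
  intro δ ε hδ hε
  have d0 : 0 < min δ 1 := lt_min hδ one_pos
  have e0 : 0 < min ε 1 := lt_min hε one_pos
  have d1 := min_le_left δ 1
  have e1 := min_le_left ε 1
  have e2 := min_le_right ε 1
  obtain ⟨c, hc, hB⟩ := h3 _ _ d0 (min_le_right _ _) e0 e2
  generalize min δ 1 = d at *
  generalize min ε 1 = s at *
  refine ⟨c, hc, fun μ hμ => ?_⟩
  filter_upwards [hμ.2.1, h2 μ hμ, h1 μ hμ (1 / 5) (d / 2) (s / 8) (by norm_num) (by positivity)
    (by positivity)] with f hf hD hR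
  obtain ⟨ρ₀, hρ⟩ := eventually_atTop.1 hD
  have hle : ∀ R : ℕ, (R : ℝ) ≤ (⌈(1 + s / 4) * R⌉₊ : ℕ) := fun R =>
    le_trans (le_mul_of_one_le_left R.cast_nonneg (by linarith)) (Nat.le_ceil _)
  have hT : Tendsto (fun R : ℕ => ⌈(1 + s / 4) * R⌉₊) atTop atTop :=
    tendsto_atTop_mono (fun R => by exact_mod_cast hle R) tendsto_id
  filter_upwards [hB ρ₀, hT.eventually hR,
    (tendsto_natCast_atTop_atTop (R := ℝ)).eventually_ge_atTop (8 / s)] with R b1 b2 b3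
  have R0 : (0 : ℝ) ≤ R := R.cast_nonneg
  have ns : ¬ Sg d (c * R) (anr R ((1 + s) * R)) f := fun hs => by
    obtain ⟨x, e, n, he, ht, hlt⟩ := b2
    refine absurd (b1 f hf hρ hs) (not_sg.2 ⟨x, e, n, he, fun t h => And.intro ?_ ?_, ?_⟩)
    · exact (Nat.le_ceil _).trans (by exact_mod_cast (ht t h).1)
    · refine (ht t h).2.trans ?_
      have a1 := (Nat.ceil_lt_add_one (show 0 ≤ (1 + s / 4) * (R : ℝ) by positivity)).le
      have a2 := mul_le_mul_of_nonneg_left a1 (show 0 ≤ 1 + s / 8 by positivity)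
      rw [div_le_iff₀ e0] at b3
      have a3 := mul_le_mul_of_nonneg_left e2 (show 0 ≤ (R : ℝ) * s by positivity)
      linarith
    · refine lt_of_le_of_lt ?_ hlt
      have := Real.rpow_le_rpow R0 (hle R) (show (0 : ℝ) ≤ 1 / 5 by norm_num)
      linarith
  obtain ⟨x, e, n, he, ht, hlt⟩ := not_sg.1 ns
  refine ⟨x, e, n, he, fun t h => ⟨by exact_mod_cast (ht t h).1, (ht t h).2.trans ?_⟩,
    lt_of_le_of_lt ?_ hlt⟩
  · exact mul_le_mul_of_nonneg_right (by linarith) R0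
  · have := mul_le_mul_of_nonneg_right d1 n.cast_nonneg
    linarith

end Pool.Agent.MP_151d89_pr.H58
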