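import Pool.Agent.MP_151d89_pr.H30.Core

/-!
Polynomial distance from planes: definitions, basic lemmas and the statements of the steps.
-/

set_option autoImplicit false
open MeasureTheory Finset

namespace Pool.Agent.MP_151d89_pr.H58
open Pool.Agent.MP_151d89_pr.H82 Pool.Agent.MP_151d89_pr.H33 Pool.Agent.MP_151d89_pr.H67
  Pool.Agent.MP_151d89_pr.H30
open Classical

/-- the lower midpoint -/
def lo (u v : Conf) : Conf := fun y => u y + 2 * ((v y - u y) / 4)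

/-- the upper midpoint -/
def hi (u v : Conf) : Conf := fun y => v y - 2 * ((v y - u y) / 4)

/-- all neighbours of y are higher (σ = 1) or lower (σ = -1) -/
def Ext (σ : ℤ) (y : ℤ × ℤ) (a : Conf) : Prop :=
  ∀ y' : ℤ × ℤ, |y.1 - y'.1| + |y.2 - y'.2| = 1 → a y' = a y + σ

/-- the pattern opposite to the one at an inner site of a tower -/
def Opp (b : Bool) (s : ℤ) (y : ℤ × ℤ) (v : Conf) : Prop :=
  v (pt b y 1) = v y - 1 ∧ v (pt b y (-1)) = v y + 1 ∧ v (y + dir (!b)) = v y - s ∧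
    v (y - dir (!b)) = v y - s

/-- the even inner sites of the towers of length l starting in X -/
noncomputable def inn (b : Bool) (l : ℕ) (X : Finset (ℤ × ℤ)) : Finset (ℤ × ℤ) :=
  (X.biUnion fun x => (Ioo 0 l).image fun t : ℕ => pt b x t).filter fun y => (y.1 + y.2) % 2 = 0

/-- an affine function -/
def pl (u : ℝ × ℝ) (c : ℝ) (y : ℤ × ℤ) : ℝ := u.1 * y.1 + u.2 * y.2 + c

/-- slopes away from the boundary -/
def Sl (δ : ℝ) (u : ℝ × ℝ) : Prop := |u.1| ≤ 1 - δ ∧ |u.2| ≤ 1 - δ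

/-- f is close to a plane on S -/
def Band (u : ℝ × ℝ) (c a : ℝ) (S : Finset (ℤ × ℤ)) (f : Conf) : Prop :=
  ∀ y ∈ S, |(f y : ℝ) - pl u c y| ≤ a

/-- a turn at y in direction b -/
def Tn (b : Bool) (y : ℤ × ℤ) (f : Conf) : Prop := f (pt b y 1) - f y ≠ f y - f (pt b y (-1))

/-- the horizontal prediction is used at y -/
def Trig (r : ℕ) (y : ℤ × ℤ) (f : Conf) : Prop :=
  ∀ i : ℕ, 2 ≤ i → i ≤ r → ¬ Tn true (pt true y (-i)) f

/-- the prediction at y is wrong -/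
def Err (r : ℕ) (y : ℤ × ℤ) (f : Conf) : Prop :=
  (Trig r y f ∧ Tn true (pt true y (-1)) f) ∨ (¬ Trig r y f ∧ Tn false (pt false y (-1)) f)

/-- there are turns in all four directions -/
def Liq (L : ℕ) (y : ℤ × ℤ) (f : Conf) : Prop :=
  ∀ b, (∃ i : ℕ, 1 ≤ i ∧ i < L ∧ Tn b (pt b y i) f) ∧ ∃ i : ℕ, 1 ≤ i ∧ i < L ∧ Tn b (pt b y (-i)) f

/-- interacting towers -/
def Near (m n : Mv) : Prop := ∃ y ∈ tow m, ∃ y' ∈ tow n, y ∈ box y' 1

/-- the number of sites of S with property p -/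
noncomputable def num (S : Finset (ℤ × ℤ)) (p : ℤ × ℤ → Prop) : ℕ := (S.filter p).card

/-- Row PL: the discrete Prekopa-Leindler inequality -/
def PLStmt : Prop :=
  ∀ (Λ : Finset (ℤ × ℤ)) (g g' : Conf) (F G H K : Conf → ℝ), (∀ y, y ∉ Λ → (g y - g' y) % 2 = 0) →
    (∀ a, 0 ≤ F a) → (∀ a, 0 ≤ G a) → (∀ a, 0 ≤ H a) → (∀ a, 0 ≤ K a) →
    (∀ u ∈ FS Λ g, ∀ v ∈ FS Λ g', F u * G v ≤ H (lo u v) * K (hi u v)) →
    (∑ a ∈ FS Λ g, F a) * ∑ a ∈ FS Λ g', G a ≤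
      (∑ a ∈ FS Λ (lo g g'), H a) * ∑ a ∈ FS Λ (hi g g'), K a

/-- Row Flip: prescribed local extrema are unlikely -/
def FlipStmt : Prop :=
  ∀ (S : Finset Conf) (Y : Finset (ℤ × ℤ)) (σ : ℤ × ℤ → ℤ), (∀ y ∈ Y, (y.1 + y.2) % 2 = 0) →
    (∀ y, σ y = 1 ∨ σ y = -1) → (∀ a ∈ S, ∀ y ∈ Y, ∀ τ : ℤ, τ = 1 ∨ τ = -1 → Ext τ y a →
      Function.update a y (a y + 2 * τ) ∈ S) →
    (S.filter fun a => ∀ y ∈ Y, Ext (σ y) y a).card * 2 ^ Y.card ≤ S.card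

/-- Row TC: the two copy inequality -/
def TCStmt : Prop :=
  ∀ (Λ : Finset (ℤ × ℤ)) (g : Conf) (b : Bool) (s : ℤ) (l k : ℕ) (X : Finset (ℤ × ℤ)),
    s = 1 ∨ s = -1 → inn b l X ⊆ Λ →
    ((FS Λ g).filter fun u => ∀ x ∈ X, Av s (b, x, l) u).card *
      ((FS Λ g).filter fun v => k ≤ num (inn b l X) fun y => Opp b s y v).card * 2 ^ k ≤
      2 ^ X.card * (FS Λ g).card ^ 2

/-- Row Pred: few configurations are predictable -/
def PredStmt : Prop :=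
  ∀ (r : ℕ) (Λ : Finset (ℤ × ℤ)) (g : Conf) (t : ℝ), 0 ≤ t → t ≤ 1 →
    ∑ f ∈ FS Λ g, t ^ (num Λ fun y => Err r y f) ≤ (1 + t) ^ Λ.card

/-- Row Cnt: frozen sites are mostly predictable -/
def CntStmt : Prop :=
  ∀ (r L ρ : ℕ) (x : ℤ × ℤ) (f : Conf), 1 ≤ r → r < L →
    ((num (box x ρ) fun y => Err r y f : ℕ) : ℝ) ≤ (num (box x ρ) fun y => Liq L y f : ℕ) +
      (2 * (ρ + 2 * L) + 1) ^ 2 * (1 / r + (r + 3) / L)

/-- Row Glue: interpolation between two functions close to a plane -/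
def GlueStmt : Prop :=
  ∀ (δ c a : ℝ) (u : ℝ × ℝ) (x : ℤ × ℤ) (n r w : ℕ) (g v : Conf), 0 < δ → Sl δ u → Hom g → Hom v →
    (v x - g x) % 2 = 0 → a + 2 ≤ δ * w → r + 2 * w ≤ n → Band u c a (box x (n + 1)) g →
    Band u c a (box x (r + w)) v → ∃ γ ∈ FS (box x n) g, ∀ y ∈ box x r, γ y = v y

/-- Row Low: positive entropy -/
def LowStmt : Prop :=
  ∀ δ : ℝ, 0 < δ → ∃ κ C : ℝ, 0 < κ ∧ ∀ (c a : ℝ) (u : ℝ × ℝ) (x : ℤ × ℤ) (ρ : ℕ) (g : Conf),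
    Sl δ u → Hom g → 0 ≤ a → C * (a + 1) ≤ ρ → Band u c a (box x (ρ + 1)) g →
    Real.exp (κ * (2 * ρ + 1) ^ 2) ≤ (FS (box x ρ) g).card

/-- Row Surg: creating a pattern at a liquid site -/
def SurgStmt : Prop :=
  ∀ (L : ℕ) (y : ℤ × ℤ) (f : Conf) (b : Bool) (s : ℤ), s = 1 ∨ s = -1 → Hom f → Liq L y f →
    ∃ f' ∈ FS (box y L) f, Opp b s y f'

/-- Row Loc: positive density of the patterns -/
def LocStmt : Prop :=
  ∀ δ : ℝ, 0 < δ → ∃ p C : ℝ, 0 < p ∧ ∀ (c a : ℝ) (u : ℝ × ℝ) (x : ℤ × ℤ) (ρ : ℕ) (g : Conf)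
    (b : Bool) (s : ℤ), s = 1 ∨ s = -1 → Sl δ u → Hom g → 0 ≤ a → C * (a + 1) ≤ ρ →
    Band u c a (box x (ρ + 1)) g →
    p * (2 * ρ + 1) ^ 2 ≤ av (box x ρ) (fun f => (num (box x ρ) fun y => Opp b s y f : ℕ)) g

/-- Row Shift: the patterns are dense on a given set with probability exp (- C a n) -/
def ShiftStmt : Prop :=
  ∀ δ : ℝ, 0 < δ → ∃ p C : ℝ, 0 < p ∧ 0 ≤ C ∧ ∀ (c a : ℝ) (u : ℝ × ℝ) (n r : ℕ) (g : Conf)
    (b : Bool) (s : ℤ) (A : Finset (ℤ × ℤ)), s = 1 ∨ s = -1 → Sl δ u → Hom g → 0 ≤ a →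
    r + C * (a + 1) ≤ n → A ⊆ box 0 r →
    av (box 0 n) (fun f => ind (¬ Band u c a (box 0 (n + 1)) f)) g ≤ p →
    Real.exp (-(C * (a + 1) * n)) ≤
      av (box 0 n) (fun f => ind (p * A.card ≤ (num A fun y => Opp b s y f : ℕ))) g

/-- Row Prob: many long towers are unlikely -/
def ProbStmt : Prop :=
  ∀ δ : ℝ, 0 < δ → ∃ p C θ : ℝ, 0 < p ∧ 0 ≤ C ∧ 0 < θ ∧ θ < 1 ∧ ∀ (c a : ℝ) (u : ℝ × ℝ) (n r : ℕ)
    (g : Conf) (b : Bool) (s : ℤ) (l : ℕ) (X : Finset (ℤ × ℤ)), s = 1 ∨ s = -1 → Sl δ u → Hom g →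
    0 ≤ a → r + C * (a + 1) ≤ n → (∀ x ∈ X, tow (b, x, l) ⊆ box 0 r) →
    av (box 0 n) (fun f => ind (¬ Band u c a (box 0 (n + 1)) f)) g ≤ p →
    av (box 0 n) (fun f => ind (∀ x ∈ X, Av s (b, x, l) f)) g ≤
      Real.exp (C * (a + 1) * n) * (C * θ ^ l) ^ X.card

/-- Row Mom: the entropy inequality -/
def MomStmt : Prop :=
  ∀ (Λ Q : Finset (ℤ × ℤ)) (g : Conf) (P : ℤ × ℤ → Conf → Prop) (D q z : ℝ), Hom g → 0 ≤ q → 0 ≤ z →
    (∀ X ⊆ Q, av Λ (fun f => ind (∀ x ∈ X, P x f)) g ≤ Real.exp D * q ^ X.card) →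
    Real.log (1 + z) * av Λ (fun f => ∑ x ∈ Q, ind (P x f)) g ≤ D + Q.card * (z * q)

/-- Row Tail: log-concave tails -/
def TailStmt : Prop :=
  ∀ (Λ : Finset (ℤ × ℤ)) (g : Conf) (y : ℤ × ℤ) (m a ε : ℝ) (j : ℕ), Hom g → 0 ≤ a → 0 < ε →
    ε ≤ av Λ (fun f => ind (|(f y : ℝ) - m| ≤ a)) g →
    av Λ (fun f => ind ((2 * j + 1) * (a + 2) < |(f y : ℝ) - m|)) g ≤ 2 * (1 - ε) ^ j

/-- Row Near: the number of shorter towers close to a tower -/
def NearStmt : Prop :=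
  ∀ (I : Finset Mv) (m : Mv) (s s' : ℤ) (f : Conf), s' = 1 ∨ s' = -1 → Av s m f →
    (I.filter fun n => Near m n ∧ n.2.2 ≤ m.2.2 ∧ Av s' n f).card ≤ 21 * (m.2.2 + 1)

/-- Row Energy: the second moment of the weighted drift -/
def EnergyStmt : Prop :=
  ∀ (Λ : Finset (ℤ × ℤ)) (g : Conf) (r K : ℕ), Hom g → 1 ≤ K → box 0 (r + 9 * K) ⊆ Λ →
    av Λ (fun f => SS r K f ^ 2) g ≤ 168 / K ^ 2 * ∑ m ∈ idx r K, ((m.2.2 : ℝ) + 1) ^ 3 *
      (av Λ (fun f => ind (Av (-1) m f)) g + av Λ (fun f => ind (Av 1 m f)) g) +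
      4 * ((idx r K).card ^ 2 * av Λ (fun f => ind (Bad r K f)) g)

/-- Row Cov: the covariance bound -/
def CovStmt : Prop :=
  ∀ (Λ : Finset (ℤ × ℤ)) (g : Conf) (r K : ℕ) (x : ℤ × ℤ) (t : ℤ) (lam : ℝ), Hom g → 1 ≤ K →
    box 0 (r + 9 * K) ⊆ Λ → nrm x ≤ r → 0 < lam →
    av Λ (fun f => ind (Av (-1) (true, x, 0) f ∧ f x = t)) g ≤
      lam * av Λ (fun f => (av (box 0 r) (fun f => ind (t ≤ f x)) f -
        av Λ (fun f => ind (t ≤ f x)) f) ^ 2) g + av Λ (fun f => SS r K f ^ 2) g / (4 * lam) +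
      4 * ((idx r K).card * av Λ (fun f => ind (Bad r K f)) g)

/-- Row Fin: the energy in a box in which the function is close to a plane -/
def FinStmt : Prop :=
  ∀ δ : ℝ, 0 < δ → ∃ p C : ℝ, 0 < p ∧ 0 ≤ C ∧ ∀ (c a β : ℝ) (u : ℝ × ℝ) (K : ℕ) (g : Conf),
    Sl δ u → Hom g → 0 ≤ a → 1 ≤ K → C * (a + 1) ≤ K → β ≤ p →
    av (box 0 (11 * K)) (fun f => ind (¬ Band u c a (box 0 (11 * K + 1)) f)) g ≤ β →
    av (box 0 (11 * K)) (fun f => ind (Bad K K f)) g ≤ β ∧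
    av (box 0 (11 * K)) (fun f => SS K K f ^ 2) g ≤ C * (1 + (a + 1) ^ 4 / K + K ^ 6 * β)

theorem fib (Λ : Finset (ℤ × ℤ)) (g : Conf) {z : ℤ × ℤ} (hz : z ∉ Λ) (t : ℤ) :
    (FS (insert z Λ) g).filter (fun a => a z = t) = FS Λ (Function.update g z t) := by
  ext a
  simp only [mem_filter, mem_FS, mem_insert, not_or]
  refine ⟨fun h => ⟨h.1.1, fun x hx => ?_⟩, fun h => ⟨⟨h.1, fun x hx => ?_⟩, ?_⟩⟩
  · by_cases e : x = z
    · rw [e, Function.update_self, h.2]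
    · rw [Function.update_of_ne e, h.1.2 x ⟨e, hx⟩]
  · rw [h.2 x hx.2, Function.update_of_ne hx.1]
  · rw [h.2 z hz, Function.update_self]

/-- summing over the two possible values at a site whose left neighbour is outside -/
theorem split (Λ : Finset (ℤ × ℤ)) (g : Conf) {z : ℤ × ℤ} (hz : z ∉ Λ)
    (hz' : (z.1 - 1, z.2) ∉ Λ) (F : Conf → ℝ) : ∑ a ∈ FS (insert z Λ) g, F a =
      ∑ a ∈ FS Λ (Function.update g z (g (z.1 - 1, z.2) - 1)), F a +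
        ∑ a ∈ FS Λ (Function.update g z (g (z.1 - 1, z.2) + 1)), F a := by
  rw [← fib Λ g hz, ← fib Λ g hz, ← sum_filter_add_sum_filter_not (FS (insert z Λ) g)
    (fun a => a z = g (z.1 - 1, z.2) - 1)]
  congr 1
  refine sum_congr (filter_congr fun a ha => ?_) fun _ _ => rfl
  rw [mem_FS] at ha
  have h1 := ha.1 z (z.1 - 1, z.2) (by simp)
  rw [ha.2 (z.1 - 1, z.2) (by
    simp only [mem_insert, not_or]
    exact ⟨fun e => by have := congrArg Prod.fst e; simp only at this; omega, hz'⟩),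
    abs_eq (by norm_num)] at h1
  omega

/-- two fibres -/
theorem split_le (Λ : Finset (ℤ × ℤ)) (g : Conf) {z : ℤ × ℤ} (hz : z ∉ Λ) {t t' : ℤ} (h : t ≠ t')
    {F : Conf → ℝ} (hF : ∀ a, 0 ≤ F a) : ∑ a ∈ FS Λ (Function.update g z t), F a +
      ∑ a ∈ FS Λ (Function.update g z t'), F a ≤ ∑ a ∈ FS (insert z Λ) g, F a := by
  rw [← fib Λ g hz, ← fib Λ g hz, ← sum_union (disjoint_filter.2 fun a _ (e : a z = t) e' =>
    h (e.symm.trans e'))]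
  exact sum_le_sum_of_subset_of_nonneg (union_subset (filter_subset _ _) (filter_subset _ _))
    fun a _ _ => hF a

/-- induction removing the lexicographically first site -/
theorem lex_ind {P : Finset (ℤ × ℤ) → Prop} (h0 : P ∅) (h1 : ∀ (z : ℤ × ℤ) (Λ : Finset (ℤ × ℤ)),
    (∀ y ∈ Λ, z.2 < y.2 ∨ (z.2 = y.2 ∧ z.1 < y.1)) → P Λ → P (insert z Λ))
    (Λ : Finset (ℤ × ℤ)) : P Λ := by
  induction Λ using Finset.induction_on_min_value (fun y : ℤ × ℤ => toLex (y.2, y.1)) with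
  | empty => exact h0
  | insert z Λ hz h ih =>
    refine h1 z Λ (fun y hy => ?_) ih
    have h2 := Prod.Lex.toLex_le_toLex.1 (h y hy)
    have h3 : ¬ (z.1 = y.1 ∧ z.2 = y.2) := fun e => hz (Prod.ext e.1 e.2 ▸ hy)
    simp only at h2
    omega

theorem FS_empty (g : Conf) : FS ∅ g = if Hom g then {g} else ∅ := by
  ext a
  rw [mem_FS]
  split_ifs with h
  · exact ⟨fun e => mem_singleton.2 (funext fun x => e.2 x (notMem_empty x)),
      fun e => by rw [mem_singleton.1 e]; exact ⟨h, fun _ _ => rfl⟩⟩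
  · exact ⟨fun e => absurd ((funext fun x => e.2 x (notMem_empty x) : a = g) ▸ e.1) h,
      fun e => absurd e (notMem_empty a)⟩

theorem card_le (Λ : Finset (ℤ × ℤ)) : ∀ g : Conf, (FS Λ g).card ≤ 2 ^ Λ.card := by
  induction Λ using lex_ind with
  | h0 => intro g; rw [FS_empty]; split_ifs <;> simp
  | h1 z Λ h ih =>
    intro g
    have hz : z ∉ Λ := fun e => by have := h z e; omega
    have := split Λ g hz (fun e => by have := h _ e; simp only at this; omega) fun _ => 1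
    simp only [sum_const, nsmul_eq_mul, mul_one] at this
    norm_cast at this
    rw [this, card_insert_of_notMem hz, pow_succ, mul_two]
    exact add_le_add (ih _) (ih _)

theorem av_sum {ι : Type} (I : Finset ι) (Λ : Finset (ℤ × ℤ)) (φ : ι → Conf → ℝ) (g : Conf) :
    av Λ (fun a => ∑ i ∈ I, φ i a) g = ∑ i ∈ I, av Λ (φ i) g := by
  unfold av; rw [sum_comm, sum_div]

theorem av_sub (Λ : Finset (ℤ × ℤ)) (φ ψ : Conf → ℝ) (g : Conf) :
    av Λ (fun a => φ a - ψ a) g = av Λ φ g - av Λ ψ g := by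
  unfold av; rw [sum_sub_distrib, sub_div]

theorem av_nonneg {Λ : Finset (ℤ × ℤ)} {φ : Conf → ℝ} (h : ∀ a, 0 ≤ φ a) (g : Conf) :
    0 ≤ av Λ φ g := div_nonneg (sum_nonneg fun a _ => h a) (Nat.cast_nonneg _)

theorem av_ind (Λ : Finset (ℤ × ℤ)) (p : Conf → Prop) (g : Conf) :
    av Λ (fun f => ind (p f)) g = ((FS Λ g).filter p).card / (FS Λ g).card := by
  unfold av ind; rw [sum_boole]

theorem num_eq (S : Finset (ℤ × ℤ)) (p : ℤ × ℤ → Prop) : (num S p : ℝ) = ∑ y ∈ S, ind (p y) := by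
  unfold num ind; rw [sum_boole]

/-- reversibility in a finite volume -/
theorem av_rev {Λ : Finset (ℤ × ℤ)} {m : Mv} (hm : tow m ⊆ Λ) (G : Conf → ℝ) (g : Conf) :
    av Λ (fun f => ind (Av (-1) m f) * G (H30.flip m f)) g = av Λ (fun f => ind (Av 1 m f) * G f) g := by
  simp only [av]
  congr 1
  have e : ∀ (p : Conf → Prop) (H : Conf → ℝ), ∑ a ∈ FS Λ g, ind (p a) * H a =
      ∑ a ∈ (FS Λ g).filter p, H a := fun p H => by
    rw [sum_filter]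
    exact sum_congr rfl fun a _ => by unfold ind; split_ifs <;> simp
  rw [e, e]
  refine sum_nbij' (H30.flip m) (fun a y => if y ∈ tow m then a y + 2 else a y) ?_ ?_ ?_ ?_ ?_
  · intro a ha
    rw [mem_filter, mem_FS] at ha ⊢
    exact ⟨⟨hom_flip ha.1.1 ha.2, fun x hx => (flip_out a fun e => hx (hm e)).trans (ha.1.2 x hx)⟩,
      av_flip ha.2⟩
  · intro a ha
    rw [mem_filter, mem_FS] at ha ⊢
    refine ⟨⟨hom_move (Or.inl rfl) ha.1.1 ha.2 (fun y hy => by simp [hy]) fun y hy => by simp [hy],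
      fun x hx => by rw [if_neg fun e => hx (hm e), ha.1.2 x hx]⟩, ?_⟩
    exact av_shift_iff m (-1) 2 (fun y hy => by simp [hy]) (fun y hy => by simp [hy]) ha.2
  · intro a _
    funext y
    by_cases hy : y ∈ tow m <;> simp [H30.flip, hy]
  · intro a _
    funext y
    by_cases hy : y ∈ tow m <;> simp [H30.flip, hy]
  · intro a _
    rfl

theorem av_dr {Λ : Finset (ℤ × ℤ)} {m : Mv} (hm : tow m ⊆ Λ) (G : Conf → ℝ) (g : Conf) :
    av Λ (fun f => dr m f * G f) g =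
      av Λ (fun f => ind (Av (-1) m f) * (G f - G (H30.flip m f))) g := by
  simp only [dr, sub_mul, mul_sub, av_sub, av_rev hm]

theorem tow_idx {r K : ℕ} {m : Mv} (hm : m ∈ idx r K) : tow m ⊆ box 0 (r + 9 * K) := by
  intro y hy
  obtain ⟨t, ht, rfl⟩ := mem_tow.1 hy
  rw [mem_idx] at hm
  have := nrm_conv m.1 m.2.1 ht
  rw [mem_box0]
  push_cast
  omega

end Pool.Agent.MP_151d89_pr.H58
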