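import Pool.Agent.MP_151d89_pr.H58.Spec

/-!
Almost frozen segments in annuli: definitions, basic lemmas and the statements of the steps.
-/

set_option autoImplicit false
open MeasureTheory Finset Filter

namespace Pool.Agent.MP_151d89_pr.H58
open Pool.Agent.MP_151d89_pr.H82 Pool.Agent.MP_151d89_pr.H33 Pool.Agent.MP_151d89_pr.H67
  Pool.Agent.MP_151d89_pr.H30
open Classical

/-- a strictly contracting profile -/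
def Lp (δ : ℝ) (P : ℤ × ℤ → ℝ) : Prop := ∀ y z, P z ≤ P y + (1 - δ) * (dist1 y z : ℝ)

/-- f is close to the profile on S -/
def Bd (P : ℤ × ℤ → ℝ) (a : ℝ) (S : Finset (ℤ × ℤ)) (f : Conf) : Prop :=
  ∀ y ∈ S, |(f y : ℝ) - P y| ≤ a

/-- there is no almost frozen segment in S -/
def Sg (δ a : ℝ) (S : Set (ℤ × ℤ)) (f : Conf) : Prop :=
  ∀ (b : Bool) (x : ℤ × ℤ) (l : ℕ), (∀ t : ℕ, t ≤ l → pt b x t ∈ S) →
    |(f (pt b x l) : ℝ) - f x| ≤ (1 - δ) * l + a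

/-- the annulus -/
def ann (r K : ℕ) : Set (ℤ × ℤ) := {y | (r : ℤ) ≤ nrm y ∧ nrm y ≤ r + 10 * K}

/-- the starting points of the towers that carry energy -/
noncomputable def rng (r K : ℕ) : Finset (ℤ × ℤ) :=
  (box 0 (r + 9 * K)).filter fun x => (r : ℤ) + K ≤ nrm x

/-- the doubling property -/
def Dbl (δ C a : ℝ) (S : Set (ℤ × ℤ)) (Λ : Finset (ℤ × ℤ)) (g : Conf) : Prop :=
  av Λ (fun f => ind (Sg δ (C * (a + 1)) S f)) g ≤ 2 * av Λ (fun f => ind (Sg δ a S f)) g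

/-- Row Mac: McShane extension -/
def MacStmt : Prop :=
  ∀ (δ a : ℝ) (S : Set (ℤ × ℤ)) (z : ℤ × ℤ) (ρ : ℕ) (f : Conf), δ ≤ 1 → Sg δ a S f →
    (∀ y ∈ box z ρ, y ∈ S) → ∃ P, Lp δ P ∧ Bd P (2 * a) (box z ρ) f

/-- Row Glue2: interpolation between two functions close to a profile -/
def Glue2Stmt : Prop :=
  ∀ (δ a : ℝ) (P : ℤ × ℤ → ℝ) (x : ℤ × ℤ) (n r w : ℕ) (g v : Conf), 0 < δ → Lp δ P → Hom g →
    Hom v → (v x - g x) % 2 = 0 → a + 2 ≤ δ * w → r + 2 * w ≤ n → Bd P a (box x (n + 1)) g →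
    Bd P a (box x (r + w)) v → ∃ γ ∈ FS (box x n) g, ∀ y ∈ box x r, γ y = v y

/-- Row Low2: positive entropy -/
def Low2Stmt : Prop :=
  ∀ δ : ℝ, 0 < δ → ∃ κ C : ℝ, 0 < κ ∧ ∀ (a : ℝ) (P : ℤ × ℤ → ℝ) (x : ℤ × ℤ) (ρ : ℕ) (g : Conf),
    Lp δ P → Hom g → 0 ≤ a → C * (a + 1) ≤ ρ → Bd P a (box x (ρ + 1)) g →
    Real.exp (κ * (2 * ρ + 1) ^ 2) ≤ (FS (box x ρ) g).card

/-- Row Loc2: positive density of the patterns -/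
def Loc2Stmt : Prop :=
  ∀ δ : ℝ, 0 < δ → ∃ p C : ℝ, 0 < p ∧ ∀ (a : ℝ) (P : ℤ × ℤ → ℝ) (x : ℤ × ℤ) (ρ : ℕ) (g : Conf)
    (b : Bool) (s : ℤ), s = 1 ∨ s = -1 → Lp δ P → Hom g → 0 ≤ a → C * (a + 1) ≤ ρ →
    Bd P a (box x (ρ + 1)) g →
    p * (2 * ρ + 1) ^ 2 ≤ av (box x ρ) (fun f => (num (box x ρ) fun y => Opp b s y f : ℕ)) g

/-- Row Shift2: the patterns are dense on a given set with a probability that is not too small -/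
def Shift2Stmt : Prop :=
  ∀ δ : ℝ, 0 < δ → δ ≤ 1 → ∃ p C : ℝ, 0 < p ∧ 0 ≤ C ∧ ∀ (a : ℝ) (S : Set (ℤ × ℤ))
    (Λ : Finset (ℤ × ℤ)) (z : ℤ × ℤ) (n r : ℕ) (g : Conf) (b : Bool) (s : ℤ) (A : Finset (ℤ × ℤ)),
    s = 1 ∨ s = -1 → Hom g → 0 ≤ a → r + C * (a + 1) ≤ n → A ⊆ box z r → box z n ⊆ Λ →
    (∀ y ∈ box z (n + 1), y ∈ S) → Dbl δ C a S Λ g →
    av Λ (fun f => ind (Sg δ a S f)) g * Real.exp (-(C * (a + 1) * n)) ≤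
      av Λ (fun f => ind (p * A.card ≤ (num A fun y => Opp b s y f : ℕ))) g

/-- Row Prob2: many long towers are unlikely -/
def Prob2Stmt : Prop :=
  ∀ δ : ℝ, 0 < δ → δ ≤ 1 → ∃ C θ : ℝ, 0 ≤ C ∧ 0 < θ ∧ θ < 1 ∧ ∀ (a : ℝ) (S : Set (ℤ × ℤ))
    (Λ : Finset (ℤ × ℤ)) (z : ℤ × ℤ) (n r : ℕ) (g : Conf) (b : Bool) (s : ℤ) (l : ℕ)
    (X : Finset (ℤ × ℤ)), s = 1 ∨ s = -1 → Hom g → 0 ≤ a → r + C * (a + 1) ≤ n →
    (∀ x ∈ X, tow (b, x, l) ⊆ box z r) → box z n ⊆ Λ → (∀ y ∈ box z (n + 1), y ∈ S) →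
    Real.exp (-n) ≤ av Λ (fun f => ind (Sg δ a S f)) g → Dbl δ C a S Λ g →
    av Λ (fun f => ind (∀ x ∈ X, Av s (b, x, l) f)) g ≤
      Real.exp (C * (a + 1) * n) * (C * θ ^ l) ^ X.card

/-- Row RunF: long runs are unlikely -/
def RunFStmt : Prop :=
  ∀ (δ a ε : ℝ) (S : Set (ℤ × ℤ)) (Λ : Finset (ℤ × ℤ)) (g : Conf) (b : Bool) (x : ℤ × ℤ) (l : ℕ),
    Hom g → 0 ≤ ε → (∀ t : ℕ, t ≤ l → pt b x t ∈ S) → ε ≤ av Λ (fun f => ind (Sg δ a S f)) g →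
    av Λ (fun f => ind (Run b x l f)) g ≤ 2 * Real.exp (-(ε * (δ * l - a) / 4))

/-- Row Tow: the expected number of towers -/
def TowStmt : Prop :=
  ∀ δ : ℝ, 0 < δ → δ ≤ 1 → ∀ m : ℕ, ∃ C θ : ℝ, 0 ≤ C ∧ 0 < θ ∧ θ < 1 ∧ ∀ (a : ℝ) (r K l : ℕ)
    (Λ : Finset (ℤ × ℤ)) (g : Conf) (b : Bool) (s : ℤ), s = 1 ∨ s = -1 → Hom g → 0 ≤ a →
    r ≤ m * K → C * (a + 1) ≤ K → 4 * l ≤ K → box 0 (r + 10 * K) ⊆ Λ →
    Real.exp (-(K / 2)) ≤ av Λ (fun f => ind (Sg δ a (ann r K) f)) g → Dbl δ C a (ann r K) Λ g →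
    ((l : ℝ) + 1) * ∑ x ∈ rng r K, av Λ (fun f => ind (Av s (b, x, l) f)) g ≤
      C * ((a + 1) * K + K ^ 2 * θ ^ l)

/-- Row Energy2: the second moment of the weighted drift, towers in the annulus only -/
def Energy2Stmt : Prop :=
  ∀ (Λ : Finset (ℤ × ℤ)) (g : Conf) (r K : ℕ), Hom g → 1 ≤ K → box 0 (r + 9 * K) ⊆ Λ →
    av Λ (fun f => SS r K f ^ 2) g ≤ 168 / K ^ 2 * ∑ b : Bool, ∑ l ∈ range (K + 1), ∑ x ∈ rng r K,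
      ((l : ℝ) + 1) ^ 3 * (av Λ (fun f => ind (Av (-1) (b, x, l) f)) g +
        av Λ (fun f => ind (Av 1 (b, x, l) f)) g) +
      4 * ((idx r K).card ^ 2 * av Λ (fun f => ind (Bad r K f)) g)

/-- Row Fin2: the energy without almost frozen segments in the annulus -/
def Fin2Stmt : Prop :=
  ∀ δ : ℝ, 0 < δ → δ ≤ 1 → ∀ m : ℕ, ∃ C : ℝ, 0 ≤ C ∧ ∀ (a β : ℝ) (r K L : ℕ) (Λ : Finset (ℤ × ℤ))
    (g : Conf), Hom g → 0 ≤ a → 0 ≤ β → 1 ≤ K → r ≤ m * K → C * (a + 1) ≤ K → 4 * L ≤ K →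
    box 0 (r + 10 * K) ⊆ Λ → Real.exp (-(K / 2)) ≤ av Λ (fun f => ind (Sg δ a (ann r K) f)) g →
    Dbl δ C a (ann r K) Λ g →
    (∀ (b : Bool) (x : ℤ × ℤ) (l : ℕ), L ≤ l → Ann r K b x l →
      av Λ (fun f => ind (Run b x l f)) g ≤ β) →
    (idx r K).card ^ 2 * av Λ (fun f => ind (Bad r K f)) g ≤ C * (K ^ 8 * β) ∧
    av Λ (fun f => SS r K f ^ 2) g ≤ C * (1 + L ^ 3 * (a + 1) / K + K ^ 8 * β)

/-- Row Scale: bounded energy at one scale -/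
def ScaleStmt : Prop :=
  ∀ δ : ℝ, 0 < δ → δ ≤ 1 → ∀ m : ℕ, ∃ (C : ℝ) (M : ℕ), 0 ≤ C ∧ ∀ (a : ℝ) (k r K : ℕ)
    (Λ : Finset (ℤ × ℤ)) (g : Conf), Hom g → 1 ≤ a → 1 ≤ K → K ≤ 12 ^ k → r ≤ m * K →
    box 0 (r + 10 * K) ⊆ Λ → C * (((k : ℝ) + 1) ^ M * a) ^ 4 ≤ K →
    1 / ((k : ℝ) + 1) ^ 2 ≤ av Λ (fun f => ind (Sg δ a (ann r K) f)) g →
    (idx r K).card * av Λ (fun f => ind (Bad r K f)) g ≤ C / K ∧
    av Λ (fun f => SS r K f ^ 2) g ≤ C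

/-- Row Small: polynomial factors are negligible along geometric scales -/
def SmallStmt : Prop :=
  ∀ (α C : ℝ) (m M : ℕ) (K : ℕ → ℕ), 0 ≤ α → α < 1 / 4 → 1 ≤ m → 1 ≤ K 0 →
    (∀ k, (m + 10) * K k ≤ m * K (k + 1)) →
    ∀ᶠ k : ℕ in atTop, C * (((k : ℝ) + 1) ^ M * ((m * K k : ℕ) : ℝ) ^ α) ^ 4 ≤ K k

/-- Row Last: the statement along a sequence of scales -/
def LastStmt : Prop :=
  ∀ μ : Measure Conf, Gibbs μ → ∀ (α δ : ℝ) (m : ℕ) (K : ℕ → ℕ), 0 ≤ α → α < 1 / 4 → 0 < δ → δ ≤ 1 →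
    1 ≤ m → 1 ≤ K 0 → (∀ k, K k ≤ 12 ^ k) → (∀ k, (m + 10) * K k ≤ m * K (k + 1)) →
    ∀ᵐ f ∂μ, ∀ᶠ k : ℕ in atTop, ¬ Sg δ (((m * K k : ℕ) : ℝ) ^ α) (ann (m * K k) (K k)) f

/-- Row Res: the theorem -/
def ResStmt : Prop :=
  ∀ μ : Measure Conf, Gibbs μ → ∀ α δ ε : ℝ, α < 1 / 4 → 0 < δ → 0 < ε →
    ∀ᵐ f ∂μ, ∀ᶠ R : ℕ in atTop, ∃ (x e : ℤ × ℤ) (n : ℕ), |e.1| + |e.2| = 1 ∧
      (∀ t : ℕ, t ≤ n → (R : ℤ) ≤ max |(x + (t : ℤ) • e).1| |(x + (t : ℤ) • e).2| ∧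
        ((max |(x + (t : ℤ) • e).1| |(x + (t : ℤ) • e).2| : ℤ) : ℝ) ≤ (1 + ε) * R) ∧
      (1 - δ) * n + (R : ℝ) ^ α < ((f (x + (n : ℤ) • e) - f x : ℤ) : ℝ)

theorem Sg.mono {δ a a' : ℝ} {S : Set (ℤ × ℤ)} {f : Conf} (h : Sg δ a S f) (ha : a ≤ a') :
    Sg δ a' S f := fun b x l hl => (h b x l hl).trans (by linarith)

theorem av_mono' {Λ : Finset (ℤ × ℤ)} {p q : Conf → Prop} {g : Conf}
    (h : ∀ f ∈ FS Λ g, p f → q f) : av Λ (fun f => ind (p f)) g ≤ av Λ (fun f => ind (q f)) g :=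
  av_le fun f hf => by
    by_cases e : p f
    · rw [ind_pos e, ind_pos (h f hf e)]
    · rw [ind_neg e]; exact (ind_mem _).1

theorem av_mem (Λ : Finset (ℤ × ℤ)) (p : Conf → Prop) (g : Conf) :
    0 ≤ av Λ (fun f => ind (p f)) g ∧ av Λ (fun f => ind (p f)) g ≤ 1 :=
  ⟨av_nonneg (fun _ => (ind_mem _).1) g, (le_abs_self _).trans (av_abs (fun _ => ind_abs _) g)⟩

theorem Dbl.mono {δ C C' a : ℝ} {S : Set (ℤ × ℤ)} {Λ : Finset (ℤ × ℤ)} {g : Conf}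
    (h : Dbl δ C a S Λ g) (ha : 0 ≤ a) (hC : C' ≤ C) : Dbl δ C' a S Λ g :=
  (av_mono' fun _ _ e => e.mono (mul_le_mul_of_nonneg_right hC (by linarith))).trans h

/-- resampling in a box changes the values by a bounded amount -/
theorem res_le {y : ℤ × ℤ} {ρ : ℕ} {f f' : Conf} (hf : Hom f) (h : f' ∈ FS (box y ρ) f)
    (x : ℤ × ℤ) : |(f' x : ℝ) - f x| ≤ 2 * (ρ + 1) := by
  rw [mem_FS] at h
  by_cases hx : x ∈ box y ρ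
  · obtain ⟨w, h1, h2⟩ : ∃ w, w ∉ box y ρ ∧ dist1 x w ≤ ρ + 1 := by
      rw [mem_box] at hx
      rcases le_total x.1 y.1 with e | e
      · exact ⟨(y.1 - ρ - 1, x.2), by rw [mem_box]; omega, by
          simp only [dist1, Int.abs_eq_natAbs]; omega⟩
      · exact ⟨(y.1 + ρ + 1, x.2), by rw [mem_box]; omega, by
          simp only [dist1, Int.abs_eq_natAbs]; omega⟩
    have h3 := abs_le.1 (inc_abs hf x w)
    have h4 := abs_le.1 (inc_abs h.1 x w)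
    have h5 : (dist1 x w : ℝ) ≤ ρ + 1 := by exact_mod_cast h2
    rw [h.2 w h1] at h4
    rw [abs_le]
    constructor <;> linarith
  · rw [h.2 x hx, sub_self, abs_zero]
    positivity

theorem Sg.res {δ a : ℝ} {S : Set (ℤ × ℤ)} {y : ℤ × ℤ} {ρ : ℕ} {f f' : Conf} (hf : Hom f)
    (h : f' ∈ FS (box y ρ) f) (hS : Sg δ a S f) : Sg δ (a + 4 * (ρ + 1)) S f' := fun b x l hl => by
  have h1 := abs_le.1 (hS b x l hl)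
  have h2 := abs_le.1 (res_le hf h x)
  have h3 := abs_le.1 (res_le hf h (pt b x l))
  rw [abs_le]
  constructor <;> linarith

theorem ann_iff {r K l : ℕ} {b : Bool} {x : ℤ × ℤ} :
    Ann r K b x l ↔ ∀ t : ℕ, t ≤ l → pt b x t ∈ ann r K := Iff.rfl

theorem mem_rng {r K : ℕ} {x : ℤ × ℤ} :
    x ∈ rng r K ↔ (r : ℤ) + K ≤ nrm x ∧ nrm x ≤ r + 9 * K := by
  rw [rng, mem_filter, mem_box0, and_comm]
  push_cast
  rfl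

end Pool.Agent.MP_151d89_pr.H58
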