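import Pool.Agent.MP_151d89_pr.H58.Spec2
import Pool.Agent.MP_151d89_pr.H58.Glue
import Pool.Agent.MP_151d89_pr.H58.PL
import Pool.Agent.MP_151d89_pr.H58.Loc

/-!
Macroscopic almost frozen segments: definitions, basic lemmas and the statements of the steps.
-/

set_option autoImplicit false
open MeasureTheory Finset Filter

namespace Pool.Agent.MP_151d89_pr.H58
open Pool.Agent.MP_151d89_pr.H82 Pool.Agent.MP_151d89_pr.H33 Pool.Agent.MP_151d89_pr.H67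
  Pool.Agent.MP_151d89_pr.H30
open Classical

/-- the mean height -/
noncomputable def mn (Λ : Finset (ℤ × ℤ)) (g : Conf) (y : ℤ × ℤ) : ℝ := av Λ (fun f => (f y : ℝ)) g

/-- the logarithm of the partition function -/
noncomputable def lz (Λ : Finset (ℤ × ℤ)) (g : Conf) : ℝ := Real.log (FS Λ g).card

/-- the logarithmic factor -/
noncomputable def lg (n : ℕ) : ℝ := Real.log n + 1

/-- functionals that respect the midpoints -/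
def Mid (X : Conf → ℝ) : Prop :=
  ∀ u v : Conf, (∀ y, (u y - v y) % 2 = 0) →
    X (lo u v) + X (hi u v) = X u + X v ∧ |X (hi u v) - X (lo u v)| ≤ 4

/-- the typical deviation from the mean in a box -/
noncomputable def ph (ρ : ℕ) : ℝ := 40 * lg ρ * (6 * √(ρ + 1) + 4)

/-- f is close to the mean given by its own boundary values -/
def Dv (z : ℤ × ℤ) (ρ : ℕ) (f : Conf) : Prop := ∀ y, |(f y : ℝ) - mn (box z ρ) f y| ≤ ph ρ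

/-- the outer boundary -/
def Bdy (D : Finset (ℤ × ℤ)) (y : ℤ × ℤ) : Prop := y ∉ D ∧ ∃ y' ∈ D, dist1 y y' = 1

/-- g is close to a plane on a square -/
def Ring (u : ℝ × ℝ) (c a : ℝ) (x : ℤ × ℤ) (r : ℕ) (g : Conf) : Prop :=
  ∀ y, nrm (y - x) = r → |(g y : ℝ) - pl u c y| ≤ a

/-- all increments of f are close to those of a plane -/
def Str (u : ℝ × ℝ) (a A : ℝ) (x : ℤ × ℤ) (n : ℕ) (f : Conf) : Prop :=
  ∀ y ∈ box x (n + 1), ∀ y' ∈ box x (n + 1),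
    |((f y' : ℝ) - f y) - (pl u 0 y' - pl u 0 y)| ≤ a + A * (√(dist1 y y') + 1)

/-- the rounded plane -/
noncomputable def pc (u : ℝ × ℝ) : Conf := GlueP.rd (fun y => y.1 + y.2) (pl u 0)

/-- the entropy per site at scale J -/
noncomputable def zz (J : ℕ) (u : ℝ × ℝ) : ℝ := lz (box 0 (2 ^ J - 1)) (pc u) / 4 ^ (J + 1)

/-- the midpoint of two slopes -/
noncomputable def md (u v : ℝ × ℝ) : ℝ × ℝ := ((u.1 + v.1) / 2, (u.2 + v.2) / 2)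

/-- the supremum norm of a slope -/
noncomputable def nm (u : ℝ × ℝ) : ℝ := max |u.1| |u.2|

/-- a coordinate of a slope -/
def crd : Bool → ℝ × ℝ → ℝ
  | true, u => u.1
  | false, u => u.2

/-- half of the difference -/
def hf (a b : Conf) : Conf := fun y => (a y - b y) / 2

/-- y is joined to the outside through sites with h at least k -/
def Con (Λ : Finset (ℤ × ℤ)) (h : Conf) (k : ℤ) (y : ℤ × ℤ) : Prop :=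
  ∃ y₀, y₀ ∉ Λ ∧ k ≤ h y₀ ∧ Relation.ReflTransGen (fun p q => dist1 p q = 1 ∧ k ≤ h q) y₀ y

/-- the highest level at which y is joined to the outside -/
noncomputable def TT (Λ : Finset (ℤ × ℤ)) (h : Conf) (y : ℤ × ℤ) : ℤ := sSup {k | Con Λ h k y}

/-- folding h along the walk w -/
noncomputable def fld (Λ : Finset (ℤ × ℤ)) (w : ℤ → ℤ) (h : Conf) : Conf := fun y =>
  w (TT Λ h y) + (w (TT Λ h y) - w (TT Λ h y - 1)) * (h y - TT Λ h y)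

/-- the first folded function -/
noncomputable def mA (Λ : Finset (ℤ × ℤ)) (w : ℤ → ℤ) (a b : Conf) : Conf := fun y =>
  (a y + b y) / 2 + fld Λ w (hf a b) y

/-- the second folded function -/
noncomputable def mB (Λ : Finset (ℤ × ℤ)) (w : ℤ → ℤ) (a b : Conf) : Conf := fun y =>
  (a y + b y) / 2 - fld Λ w (hf a b) y

/-- the walk given by a set of signs -/
def wk (U : Finset ℤ) (k : ℤ) : ℤ := if k % 2 = 0 then 0 else if (k - 1) / 2 ∈ U then 1 else -1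

/-- the average height in a box -/
noncomputable def FF (x : ℤ × ℤ) (K : ℕ) (f : Conf) : ℝ :=
  (∑ y ∈ box x K, (f y : ℝ)) / (2 * K + 1) ^ 2

/-- Lipschitz functions -/
def Lip (M : ℤ × ℤ → ℝ) : Prop := ∀ y y', |M y - M y'| ≤ dist1 y y'

/-- the square of shifts -/
noncomputable def sqr (h : ℕ) : Finset (ℤ × ℤ) := Ico (-h : ℤ) h ×ˢ Ico (-h : ℤ) h

/-- the mollifier -/
noncomputable def ml (h : ℕ) (M : ℤ × ℤ → ℝ) (y : ℤ × ℤ) : ℝ :=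
  (∑ v ∈ sqr h, M (y + v)) / (4 * h ^ 2)

/-- the mixture of two mollifiers -/
noncomputable def pr (h h' : ℕ) (M : ℤ × ℤ → ℝ) (y : ℤ × ℤ) : ℝ := (ml h M y + ml h' M y) / 2

/-- the mean of two translates -/
noncomputable def av2 (P : ℤ × ℤ → ℝ) (w y : ℤ × ℤ) : ℝ := (P (y + w) + P (y - w)) / 2

/-- the unit increment -/
def dd (b : Bool) (P : ℤ × ℤ → ℝ) (y : ℤ × ℤ) : ℝ := P (y + dir b) - P y

/-- the discrete slope -/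
def sl (P : ℤ × ℤ → ℝ) (y : ℤ × ℤ) : ℝ × ℝ := (dd true P y, dd false P y)

/-- the difference of the slopes of two translates -/
noncomputable def ds (P : ℤ × ℤ → ℝ) (w x : ℤ × ℤ) : ℝ := nm (sl P (x + w) - sl P (x - w))

/-- the mean entropy of a cell -/
noncomputable def sg (Λ : Finset (ℤ × ℤ)) (g : Conf) (ρ : ℕ) (x : ℤ × ℤ) : ℝ :=
  av Λ (fun f => lz (box x ρ) f) g

/-- the gluing layer -/
noncomputable def lay (δ : ℝ) (d : ℤ × ℤ → ℝ) (m R : ℕ) : Finset (ℤ × ℤ) :=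
  (box 0 R).filter fun y => (m : ℤ) < nrm y ∧ δ * ((nrm y : ℝ) - m) < d y

/-- the error per site -/
noncomputable def er (R J i₀ i : ℕ) : ℝ := (ph R + i + 1) / 2 ^ J + 2 ^ J / 2 ^ i₀ + (4 / 5) ^ J

/-- the increments of length l in a box are bounded by A -/
def Inc (M : ℤ × ℤ → ℝ) (z : ℤ × ℤ) (R l : ℕ) (A : ℝ) : Prop :=
  ∀ b x, x ∈ box z R → pt b x l ∈ box z R → |M (pt b x l) - M x| ≤ A

/-- the assumptions of the energy inequality -/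
def Setup (δ : ℝ) (R : ℕ) (g : Conf) (J i₀ i : ℕ) : Prop :=
  Hom g ∧ 1 ≤ J ∧ i₀ ≤ i ∧ Inc (mn (box 0 R) g) 0 R (2 * 2 ^ i) ((1 - δ) * (2 * 2 ^ i)) ∧
    (R : ℝ) ^ 2 * er R J i₀ i ≤ 4 ^ i

/-- the energy inequality -/
def EP (c C : ℝ) (M : ℤ × ℤ → ℝ) (j i m : ℕ) : Prop :=
  ∀ w, nrm w ≤ 2 * 2 ^ i → c * ∑ x ∈ box 0 m, ds (pr (2 ^ j) (2 ^ i) M) w x ^ 10 ≤
    C * (4 ^ i + (∑ y ∈ box 0 (6 * m), |M y - av2 (pr (2 ^ j) (2 ^ i) M) w y|) / m)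

/-- an annulus with real radii -/
def anr (a b : ℝ) : Set (ℤ × ℤ) := {y | a ≤ (nrm y : ℝ) ∧ (nrm y : ℝ) ≤ b}

/-- Row Tail3: log-concave tails -/
def Tail3Stmt : Prop :=
  ∀ (Λ : Finset (ℤ × ℤ)) (g : Conf) (X : Conf → ℝ) (m a c : ℝ) (i : ℕ), Hom g → Mid X → 0 ≤ a →
    c < 1 → 1 - c ≤ av Λ (fun f => ind (|X f - m| ≤ a)) g →
    av Λ (fun f => ind (2 ^ i * (2 * a + 4) < |X f - m|)) g ≤ 2 * (c / (1 - c)) ^ 2 ^ i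

/-- Row Incr: concentration of increments -/
def IncrStmt : Prop :=
  ∀ (Λ : Finset (ℤ × ℤ)) (g : Conf) (x y : ℤ × ℤ) (t : ℝ), Hom g → 1 ≤ t →
    av Λ (fun f => ind (t * (6 * √(dist1 x y) + 4) <
      |((f y : ℝ) - f x) - (mn Λ g y - mn Λ g x)|)) g ≤ 2 * Real.exp (-(t / 2))

/-- Row Var3: the second moment of a concentrated functional -/
def Var3Stmt : Prop :=
  ∀ (Λ : Finset (ℤ × ℤ)) (g : Conf) (X : Conf → ℝ) (m e c : ℝ), Hom g → Mid X → 0 ≤ e → e ≤ 1 →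
    c ≤ 1 / 16 → 1 - c ≤ av Λ (fun f => ind (|X f - m| ≤ e)) g →
    av Λ (fun f => (X f - m) ^ 2) g ≤ e ^ 2 + 1200 * c

/-- Row Conc: concentration in a box -/
def ConcStmt : Prop :=
  ∀ (z : ℤ × ℤ) (ρ : ℕ) (g : Conf), Hom g → 1 ≤ ρ →
    av (box z ρ) (fun f => ind (¬ Dv z ρ f)) g ≤ 1 / (18 * ρ ^ 18)

/-- Row Dev: almost sure concentration in all boxes -/
def DevStmt : Prop :=
  ∀ μ : Measure Conf, Gibbs μ → ∀ᵐ f ∂μ, ∀ᶠ ρ : ℕ in atTop, ∀ z, nrm z ≤ ρ ^ 6 → Dv z ρ f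

/-- Row MP: the maximum principle for means -/
def MPStmt : Prop :=
  ∀ (Λ Λ' D : Finset (ℤ × ℤ)) (g g' : Conf) (x w w' : ℤ × ℤ) (α β : ℤ × ℤ → ℝ) (c ε N : ℝ),
    Hom g → Hom g' → D ⊆ Λ → D ⊆ Λ' → x ∈ D → w ∉ Λ → w' ∉ Λ' → (dist1 x w : ℝ) ≤ N →
    (dist1 x w' : ℝ) ≤ N → ε < 1 → (∀ y, Bdy D y → α y ≤ β y + c) →
    av Λ (fun f => ind (¬ ∀ y, Bdy D y → (f y : ℝ) ≤ α y)) g ≤ ε →
    av Λ' (fun f => ind (¬ ∀ y, Bdy D y → β y ≤ (f y : ℝ))) g' ≤ ε →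
    mn Λ g x ≤ mn Λ' g' x + c + 2 + 4 * N * ε

/-- Row MP2: the maximum principle with a logarithmic loss -/
def MP2Stmt : Prop :=
  ∃ C : ℝ, 0 ≤ C ∧ ∀ (Λ Λ' D : Finset (ℤ × ℤ)) (g g' : Conf) (x z : ℤ × ℤ) (c : ℝ) (d N : ℕ),
    Hom g → Hom g' → D ⊆ Λ → D ⊆ Λ' → x ∈ D → 1 ≤ N → D ⊆ box z N →
    (∃ w, w ∉ Λ ∧ dist1 x w ≤ 8 * N) → (∃ w, w ∉ Λ' ∧ dist1 x w ≤ 8 * N) →
    (∀ y, Bdy D y → (∃ w, w ∉ Λ ∧ dist1 y w ≤ d) ∧ (∃ w, w ∉ Λ' ∧ dist1 y w ≤ d) ∧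
      mn Λ g y ≤ mn Λ' g' y + c) →
    mn Λ g x ≤ mn Λ' g' x + c + C * lg N * (√d + 1)

/-- Row Pla: the mean for almost planar boundary values -/
def PlaStmt : Prop :=
  ∃ C : ℝ, 0 ≤ C ∧ ∀ (u : ℝ × ℝ) (c a : ℝ) (x y : ℤ × ℤ) (n d : ℕ) (g : Conf), Hom g → 1 ≤ n →
    Ring u c a x (n + 1) g → y ∈ box x (n + 1) → (n : ℤ) + 1 - nrm (y - x) ≤ d →
    |mn (box x n) g y - pl u c y| ≤ a + C * lg n * (√d + 1)

/-- Row Pla2: the increments of the mean for almost planar boundary values -/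
def Pla2Stmt : Prop :=
  ∃ C : ℝ, 0 ≤ C ∧ ∀ (u : ℝ × ℝ) (c a : ℝ) (x y y' : ℤ × ℤ) (n : ℕ) (g : Conf), Hom g → 1 ≤ n →
    Ring u c a x (n + 1) g → y ∈ box x (n + 1) → y' ∈ box x (n + 1) →
    |(mn (box x n) g y' - mn (box x n) g y) - (pl u 0 y' - pl u 0 y)| ≤
      2 * a + C * lg n * (√(dist1 y y') + 1)

/-- Row Str: typical functions with almost planar boundary values -/
def StrStmt : Prop :=
  ∃ C : ℝ, 1 ≤ C ∧ ∀ (u : ℝ × ℝ) (c a : ℝ) (x : ℤ × ℤ) (n : ℕ) (g : Conf), Hom g → 1 ≤ n →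
    Ring u c a x (n + 1) g → av (box x n) (fun f => ind (¬ (Str u (2 * a) (C * lg n) x n f ∧
      Band u c (3 * a + C * lg n * √n) (box x (n + 1)) f))) g ≤ 1 / 4

/-- Row Cls: counting the classes -/
def ClsStmt : Prop :=
  ∀ (Λ X : Finset (ℤ × ℤ)) (g : Conf) (rk : ℤ × ℤ → ℤ), Hom g → X ⊆ Λ →
    (∀ y ∈ Λ, y ∉ X → ∃ y', dist1 y y' = 1 ∧ y' ∉ X ∧ (y' ∉ Λ ∨ rk y' < rk y)) →
    (∀ (S : Finset Conf) (B : ℝ), S ⊆ FS Λ g → (∀ f ∈ S, lz X f ≤ B) →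
      (S.card : ℝ) ≤ 2 ^ (Λ \ X).card * Real.exp B) ∧
    lz Λ g ≤ (Λ \ X).card + av Λ (lz X) g

/-- Row Prod: separated boxes are independent -/
def ProdStmt : Prop :=
  ∀ (I : Finset (ℤ × ℤ)) (ρ : ℕ) (g : Conf), Hom g →
    (∀ x ∈ I, ∀ x' ∈ I, x ≠ x' → 2 * (ρ : ℤ) + 2 ≤ nrm (x - x')) →
    lz (I.biUnion fun x => box x ρ) g = ∑ x ∈ I, lz (box x ρ) g

/-- Row Pone: the entropy for almost planar boundary values -/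
def PoneStmt : Prop :=
  ∀ δ : ℝ, 0 < δ → ∃ C : ℝ, 0 ≤ C ∧ ∀ (u : ℝ × ℝ) (c a : ℝ) (x : ℤ × ℤ) (J : ℕ) (g : Conf),
    Sl δ u → Hom g → Ring u c a x (2 ^ J) g →
    |lz (box x (2 ^ J - 1)) g - 4 ^ (J + 1) * zz J u| ≤ C * (a * 2 ^ J + 3 ^ J)

/-- Row Tel: the entropy at consecutive scales -/
def TelStmt : Prop :=
  ∀ δ : ℝ, 0 < δ → ∃ C : ℝ, 0 ≤ C ∧ ∀ (u : ℝ × ℝ) (J : ℕ), Sl δ u →
    |zz (J + 1) u - zz J u| ≤ C * (3 / 4) ^ J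

/-- Row PLz: approximate concavity of the entropy -/
def PLzStmt : Prop :=
  ∀ δ : ℝ, 0 < δ → ∃ C : ℝ, 0 ≤ C ∧ ∀ (u v : ℝ × ℝ) (J : ℕ), Sl δ u → Sl δ v →
    (zz J u + zz J v) / 2 ≤ zz J (md u v) + C * (3 / 4) ^ J

/-- Row Fold1: basic properties of the folding -/
def Fold1Stmt : Prop :=
  ∀ (Λ : Finset (ℤ × ℤ)) (a b : Conf), Hom a → Hom b → (∀ y, (a y - b y) % 2 = 0) →
    (∀ y k, Con Λ (hf a b) k y ↔ k ≤ TT Λ (hf a b) y) ∧ (∀ y, TT Λ (hf a b) y ≤ hf a b y) ∧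
    (∀ y, y ∉ Λ → TT Λ (hf a b) y = hf a b y) ∧
    (∀ (y : ℤ × ℤ) (d : Bool) (l : ℕ) (k : ℤ), pt d y l ∉ Λ →
      (∀ t : ℕ, t ≤ l → k ≤ hf a b (pt d y t)) → k ≤ TT Λ (hf a b) y) ∧
    ∀ w : ℤ → ℤ, (∀ k, |w k - w (k - 1)| = 1) → Hom (mA Λ w a b) ∧ Hom (mB Λ w a b)

/-- Row Fold2: the folding is injective -/
def Fold2Stmt : Prop :=
  ∀ (Λ : Finset (ℤ × ℤ)) (g g' a b a' b' : Conf) (w : ℤ → ℤ), (∀ y, y ∉ Λ → (g y - g' y) % 2 = 0) →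
    (∀ k, |w k - w (k - 1)| = 1) → a ∈ FS Λ g → b ∈ FS Λ g' → a' ∈ FS Λ g → b' ∈ FS Λ g' →
    mA Λ w a b = mA Λ w a' b' → mB Λ w a b = mB Λ w a' b' → a = a' ∧ b = b'

/-- Row Rad: the second moment of a random signed sum -/
def RadStmt : Prop :=
  ∀ (I : Finset ℤ) (c : ℤ → ℝ), ∑ U ∈ I.powerset, (∑ i ∈ I, (if i ∈ U then 1 else -1) * c i) ^ 2 =
    2 ^ I.card * ∑ i ∈ I, c i ^ 2

/-- Row Fold3: the folded function is small and has no almost frozen segments -/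
def Fold3Stmt : Prop :=
  ∀ (δ β A : ℝ) (u v : ℝ × ℝ) (d : Bool) (n : ℕ) (a b : Conf), 0 < δ → δ ≤ 1 → 0 < β → β ≤ 1 →
    1 ≤ A → Sl δ u → Sl δ v → 2 * β ≤ crd d (u - v) → Hom a → Hom b → (∀ y, (a y - b y) % 2 = 0) →
    Str u 0 A 0 n a → Str v 0 A 0 n b →
    (∀ y ∈ box 0 n, (hf a b y : ℝ) - 2 * A ^ 2 / β ≤ TT (box 0 n) (hf a b) y) ∧
    ∀ U : Finset ℤ, Sg (δ / 2) (8 * A ^ 2 / (β * δ)) (box 0 n : Finset (ℤ × ℤ))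
      (mA (box 0 n) (wk U) a b)

/-- Row Fold4: the average of the folded function over a box -/
def Fold4Stmt : Prop :=
  ∀ (β A : ℝ) (u v : ℝ × ℝ) (d : Bool) (n K : ℕ) (x : ℤ × ℤ) (a b : Conf) (I : Finset ℤ), 0 < β →
    β ≤ 1 → 1 ≤ A → 2 * β ≤ crd d (u - v) → Hom a → Hom b → (∀ y, (a y - b y) % 2 = 0) →
    Str u 0 A 0 n a → Str v 0 A 0 n b → box x K ⊆ box 0 n →
    (∀ y ∈ box 0 n, (hf a b y : ℝ) - 2 * A ^ 2 / β ≤ TT (box 0 n) (hf a b) y) →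
    (∀ y ∈ box x K, (TT (box 0 n) (hf a b) y - 1) / 2 ∈ I) →
    ∑ U ∈ I.powerset, (FF x K (mA (box 0 n) (wk U) a b) - FF x K (mB (box 0 n) (wk U) a b)) ^ 2 ≤
      2 ^ I.card * (500 * A ^ 6 / (β ^ 4 * (2 * K + 1)))

/-- Row Loc3: positive density of local maxima -/
def Loc3Stmt : Prop :=
  ∀ δ : ℝ, 0 < δ → ∃ p C : ℝ, 0 < p ∧ ∀ (a : ℝ) (P : ℤ × ℤ → ℝ) (x : ℤ × ℤ) (ρ : ℕ) (g : Conf),
    Lp δ P → Hom g → 0 ≤ a → C * (a + 1) ≤ ρ → Bd P a (box x (ρ + 1)) g →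
    p * (2 * ρ + 1) ^ 2 ≤
      av (box x ρ) (fun f => (num (box x ρ) fun y => Av (-1) (true, y, 0) f : ℕ)) g

/-- Row Cov3: the covariance of the average height and the drift -/
def Cov3Stmt : Prop :=
  ∀ δ : ℝ, 0 < δ → δ ≤ 1 → ∃ p C : ℝ, 0 < p ∧ ∀ (a s : ℝ) (K : ℕ) (g : Conf), Hom g → 0 ≤ a →
    1 ≤ K → C * (a + 1) ≤ K →
    1 / 2 ≤ av (box 0 (11 * K)) (fun f => ind (Sg δ a (box 0 (11 * K) : Finset (ℤ × ℤ)) f)) g →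
    p ≤ av (box 0 (11 * K)) (fun f => (FF 0 K f - s) * SS K K f) g

/-- Row Anti: anti-concentration of the average height -/
def AntiStmt : Prop :=
  ∀ δ : ℝ, 0 < δ → δ ≤ 1 → ∃ (c e C : ℝ) (M : ℕ), 0 < c ∧ c ≤ 1 ∧ 0 < e ∧ 0 ≤ C ∧
    ∀ (a s : ℝ) (K k : ℕ) (x : ℤ × ℤ) (g : Conf), Hom g → 1 ≤ a → 1 ≤ K → K ≤ 12 ^ k →
    C * (((k : ℝ) + 1) ^ M * a) ^ 4 ≤ K → av (box x (11 * K)) (fun f => ind (|FF x K f - s| ≤ e ∧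
      Sg δ a (box x (11 * K) : Finset (ℤ × ℤ)) f)) g ≤ 1 - c

/-- Row BProd: products of local weights -/
def BProdStmt : Prop :=
  ∀ (Λ I : Finset (ℤ × ℤ)) (r : ℕ) (g : Conf) (W : ℤ × ℤ → Conf → ℝ) (q : ℝ), Hom g → 0 ≤ q →
    (∀ x ∈ I, box x r ⊆ Λ) → (∀ x ∈ I, ∀ x' ∈ I, x ≠ x' → 2 * (r : ℤ) + 1 ≤ nrm (x - x')) →
    (∀ x f, 0 ≤ W x f) → (∀ x ∈ I, ∀ f f', (∀ y ∈ box x r, f y = f' y) → W x f = W x f') →
    (∀ x ∈ I, ∀ f, Hom f → av (box x r) (W x) f ≤ q) →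
    av Λ (fun f => ∏ x ∈ I, W x f) g ≤ q ^ I.card

/-- Row Pair: the weighted count of folded pairs -/
def PairStmt : Prop :=
  ∀ (Λ I : Finset (ℤ × ℤ)) (g g' : Conf) (w : ℤ → ℤ) (K : ℕ) (δ a e c : ℝ) (S : Finset (Conf × Conf)),
    Hom g → Hom g' → (∀ y, (g y - g' y) % 2 = 0) → (∀ k, |w k - w (k - 1)| = 1) → c ≤ 1 →
    (∀ x ∈ I, box x (11 * K) ⊆ Λ) →
    (∀ x ∈ I, ∀ x' ∈ I, x ≠ x' → 22 * (K : ℤ) + 1 ≤ nrm (x - x')) →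
    (∀ x ∈ I, ∀ (s : ℝ) (f : Conf), Hom f → av (box x (11 * K)) (fun f => ind (|FF x K f - s| ≤ e ∧
      Sg δ a (box x (11 * K) : Finset (ℤ × ℤ)) f)) f ≤ 1 - c) →
    S ⊆ FS Λ g ×ˢ FS Λ g' → (∀ p ∈ S, Sg δ a Λ (mA Λ w p.1 p.2)) →
    ∑ p ∈ S, Real.exp (-(num I fun x =>
        e < |FF x K (mA Λ w p.1 p.2) - FF x K (mB Λ w p.1 p.2)| : ℕ)) ≤
      Real.exp (lz Λ (mA Λ w g g') + lz Λ (mB Λ w g g') - c / 2 * I.card)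

/-- Row BCore: the entropy gain of the folding -/
def BCoreStmt : Prop :=
  ∀ δ : ℝ, 0 < δ → δ ≤ 1 → ∃ (c C : ℝ) (M : ℕ), 0 < c ∧ 0 ≤ C ∧ ∀ (β : ℝ) (u v : ℝ × ℝ) (d : Bool)
    (n K k H : ℕ), Sl δ u → Sl δ v → 0 < β → β ≤ 1 → 2 * β ≤ crd d (u - v) → 1 ≤ K → K ≤ 12 ^ k →
    (22 * K + 1) * H + 11 * K ≤ n → C * (((k : ℝ) + 1) ^ M * (lg n ^ 2 / β)) ^ 4 ≤ K →
    ∃ g g' : Conf, Hom g ∧ Hom g' ∧ Ring (md u v) 0 3 0 (n + 1) g ∧ Ring (md u v) 0 3 0 (n + 1) g' ∧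
      lz (box 0 n) (pc u) + lz (box 0 n) (pc v) + c * (2 * H + 1) ^ 2 ≤
        lz (box 0 n) g + lz (box 0 n) g' + 1

/-- Row Gain: strict concavity at one scale -/
def GainStmt : Prop :=
  ∀ δ : ℝ, 0 < δ → δ ≤ 1 → ∃ (c C : ℝ) (m₀ : ℕ), 0 < c ∧ 0 ≤ C ∧ ∀ (u v : ℝ × ℝ) (m : ℕ), m₀ ≤ m →
    Sl δ u → Sl δ v → 2 / 2 ^ m ≤ nm (u - v) →
    (zz (25 * m) u + zz (25 * m) v) / 2 + c / 2 ^ (10 * m) ≤
      zz (25 * m) (md u v) + C * (3 / 4) ^ (25 * m)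

/-- Row Zed: strict concavity at all scales -/
def ZedStmt : Prop :=
  ∀ δ : ℝ, 0 < δ → δ ≤ 1 → ∃ c C : ℝ, 0 < c ∧ 0 ≤ C ∧ ∀ (u v : ℝ × ℝ) (J : ℕ), Sl δ u → Sl δ v →
    (zz J u + zz J v) / 2 + c * nm (u - v) ^ 10 ≤ zz J (md u v) + C * (4 / 5) ^ J

/-- Row Cell: strict concavity for almost planar boundary values -/
def CellStmt : Prop :=
  ∀ δ : ℝ, 0 < δ → δ ≤ 1 → ∃ c C : ℝ, 0 < c ∧ 0 ≤ C ∧ ∀ (u v : ℝ × ℝ) (c₁ c₂ c₃ a : ℝ) (x : ℤ × ℤ)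
    (J : ℕ) (g₁ g₂ g₃ : Conf), Sl δ u → Sl δ v → Hom g₁ → Hom g₂ → Hom g₃ →
    Ring u c₁ a x (2 ^ J) g₁ → Ring v c₂ a x (2 ^ J) g₂ → Ring (md u v) c₃ a x (2 ^ J) g₃ →
    (lz (box x (2 ^ J - 1)) g₁ + lz (box x (2 ^ J - 1)) g₂) / 2 + c * 4 ^ J * nm (u - v) ^ 10 ≤
      lz (box x (2 ^ J - 1)) g₃ + C * (a * 2 ^ J + 4 ^ J * (4 / 5) ^ J)

/-- Row Rich: the Prekopa-Leindler inequality for many copies -/
def RichStmt : Prop :=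
  ∀ (ι : Type) (X : Finset (ℤ × ℤ)) (g₀ : Conf) (g : ι → Conf) (k : ℕ) (I : Finset ι),
    I.card = 2 ^ k → (∀ i ∈ I, Hom (g i) ∧ ∀ y, (g i y - g₀ y) % 2 = 0) →
    ∃ γ : Conf, Hom γ ∧ (∀ y, (γ y - g₀ y) % 2 = 0) ∧
      (∀ y, |(γ y : ℝ) - (∑ i ∈ I, (g i y : ℝ)) / 2 ^ k| ≤ k) ∧
      (∑ i ∈ I, lz X (g i)) / 2 ^ k ≤ lz X γ

/-- Row RichP: boundary values close to the mollified mean with large entropy -/
def RichPStmt : Prop :=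
  ∀ (R ρ j i : ℕ) (g : Conf) (x w : ℤ × ℤ), Hom g → 1 ≤ R → ρ ≤ R → j ≤ i →
    ∃ γ : Conf, Hom γ ∧
      (∀ y, |(γ y : ℝ) - pr (2 ^ j) (2 ^ i) (mn (box 0 R) g) (y + w)| ≤ ph R + 2 * i + 4) ∧
      pr (2 ^ j) (2 ^ i) (sg (box 0 R) g ρ) (x + w) - 1 ≤ lz (box x ρ) γ

/-- Row Mol: properties of the mollifier -/
def MolStmt : Prop :=
  ∀ (h : ℕ) (M : ℤ × ℤ → ℝ), 1 ≤ h → (sqr h).card = 4 * h ^ 2 ∧
    (∀ y w, ml h M (y + w) + ml h M (y - w) =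
      (∑ v ∈ sqr h, (M (y + (w + v)) + M (y + (-(w + v) - (1, 1))))) / (4 * h ^ 2)) ∧
    (∀ (b : Bool) (y : ℤ × ℤ) (A : ℝ), (∀ z, nrm (z - y) ≤ h →
      |M (pt b z (2 * h : ℕ)) - M z| ≤ A) → |dd b (ml h M) y| ≤ A / (2 * h)) ∧
    (Lip M → Lip (ml h M) ∧ (∀ y, |ml h M y - M y| ≤ 2 * h) ∧
      ∀ b b' y, |dd b (ml h M) (y + dir b') - dd b (ml h M) y| ≤ 1 / h)

/-- Row Aff: functions with small second differences are almost affine -/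
def AffStmt : Prop :=
  ∀ (P : ℤ × ℤ → ℝ) (η : ℝ) (x : ℤ × ℤ) (r : ℕ), 1 ≤ r →
    (∀ b b' y, |dd b P (y + dir b') - dd b P y| ≤ η) →
    ∀ y, nrm (y - x) ≤ r → |P y - pl (sl P x) (P x - pl (sl P x) 0 x) y| ≤ 6 * η * r ^ 2

/-- Row Mac3: extension of a contracting function from a box -/
def Mac3Stmt : Prop :=
  ∀ (δ : ℝ) (P : ℤ × ℤ → ℝ) (R : ℕ), δ ≤ 1 → (∀ b, ∀ y ∈ box 0 R, |dd b P y| ≤ 1 - δ) →
    ∃ P', Lp δ P' ∧ ∀ y ∈ box 0 R, P' y = P y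

/-- Row Comp: gluing the competitor -/
def CompStmt : Prop :=
  ∀ (δ : ℝ) (P d : ℤ × ℤ → ℝ) (f : Conf) (m R : ℕ), 0 < δ → Lp δ P → Hom f → m ≤ R →
    (∀ y ∈ box 0 R, |(f y : ℝ) - P y| + 2 ≤ d y) → (∀ y, nrm y = R → d y ≤ δ * (R - m)) →
    ∃ γ ∈ FS (box 0 m ∪ lay δ d m R) f, Bd P 2 (box 0 m) γ

/-- Row Ent: a competitor does not have more entropy than the typical functions -/
def EntStmt : Prop :=
  ∃ C : ℝ, 0 ≤ C ∧ ∀ (Λ Y : Finset (ℤ × ℤ)) (g : Conf) (k ρ : ℕ) (G : ℤ × ℤ → ℝ) (good : Conf → Prop),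
    Hom g → box 0 (k + ρ + 1) ∪ Y ⊆ Λ → (∀ y ∈ Y, (k : ℤ) + ρ + 1 < nrm y) →
    av Λ (fun f => ind (¬ good f)) g * (2 * (k + ρ + 1) + 1) ^ 2 ≤ 1 →
    (∀ f ∈ FS Λ g, good f → ∃ γ ∈ FS (box 0 (k + ρ + 1) ∪ Y) f, ∀ x ∈ box 0 k,
      G x ≤ lz (box x ρ) γ) →
    ∑ x ∈ box 0 k, (G x - sg Λ g ρ x) ≤ C * ((ρ + 1) ^ 2 * Y.card +
      (k + ρ + 1) ^ 2 * (ρ + 1) + (k + ρ + 1) * (ρ + 1) ^ 3)

/-- Row Tent: summation by parts against a tent -/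
def TentStmt : Prop :=
  ∃ C : ℝ, 0 ≤ C ∧ ∀ (σ : ℤ × ℤ → ℝ) (S : ℝ) (m T : ℕ) (a b : ℤ × ℤ), (∀ x, 0 ≤ σ x ∧ σ x ≤ S) →
    nrm a ≤ T → nrm (a + b) ≤ 1 → 1 ≤ T → T ≤ m →
    ∑ k ∈ Ico m (2 * m), ∑ x ∈ box 0 k, (2 * σ x - σ (x + a) - σ (x + b)) ≤
      C * S * (T ^ 2 * m + m ^ 2)

/-- Row Eone: the entropy of the competitor -/
def EoneStmt : Prop :=
  ∀ δ : ℝ, 0 < δ → δ ≤ 1 → ∃ c C : ℝ, 0 < c ∧ 3 ≤ C ∧ ∀ (R J i₀ j i m k : ℕ) (g f : Conf) (w : ℤ × ℤ),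
    Setup δ R g J i₀ i → i₀ ≤ j → j ≤ i → C * 2 ^ i ≤ m → 8 * m ≤ R → nrm w ≤ 2 * 2 ^ i →
    k ≤ 2 * m → f ∈ FS (box 0 R) g → Dv 0 R f →
    ∃ γ ∈ FS (box 0 (k + 2 ^ J) ∪ lay (δ / 2) (fun y => |mn (box 0 R) g y -
      av2 (pr (2 ^ j) (2 ^ i) (mn (box 0 R) g)) w y| + ph R + 2) (k + 2 ^ J) (6 * m)) f,
      ∀ x ∈ box 0 k, av2 (pr (2 ^ j) (2 ^ i) (sg (box 0 R) g (2 ^ J - 1))) w x +
        c * 4 ^ J * ds (pr (2 ^ j) (2 ^ i) (mn (box 0 R) g)) w x ^ 10 - C * 4 ^ J * er R J i₀ i ≤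
        lz (box x (2 ^ J - 1)) γ

/-- Row Etwo: the energy inequality -/
def EtwoStmt : Prop :=
  ∀ δ : ℝ, 0 < δ → δ ≤ 1 → ∃ c C : ℝ, 0 < c ∧ 0 ≤ C ∧ ∀ (R J i₀ j i m : ℕ) (g : Conf),
    Setup δ R g J i₀ i → i₀ ≤ j → j ≤ i → C * 2 ^ i ≤ m → 8 * m ≤ R →
    EP c C (mn (box 0 R) g) j i m

/-- Row Sone: the slopes of translates are close on average -/
def SoneStmt : Prop :=
  ∀ c C : ℝ, 0 < c → 0 ≤ C → ∃ B : ℝ, 0 ≤ B ∧ ∀ (M : ℤ × ℤ → ℝ) (i₀ i m : ℕ) (κ : ℝ), Lip M →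
    i₀ ≤ i → 0 < κ → κ ≤ 1 → 2 ^ i ≤ κ ^ 10 * m → EP c C M i₀ i (7 * m) → EP c C M i i (7 * m) →
    ∀ w, nrm w ≤ 2 * 2 ^ i → ∑ x ∈ box 0 (7 * m), ds (ml (2 ^ i₀) M) w x ≤ B * κ * m ^ 2

/-- Row Stwo: second differences are small on average -/
def StwoStmt : Prop :=
  ∃ C : ℝ, 0 ≤ C ∧ ∀ (Q : ℤ × ℤ → ℝ) (t m : ℕ) (η E : ℝ) (a : ℤ × ℤ), 1 ≤ t → 8 * t ≤ m →
    (∀ b b' y, |dd b Q (y + dir b') - dd b Q y| ≤ η) →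
    (∀ w, nrm w ≤ 2 * t → ∑ x ∈ box 0 (7 * m), ds Q w x ≤ E) → nrm a ≤ 3 * t →
    ∑ y ∈ box 0 (6 * m), |Q (y + a) + Q (y - a) - 2 * Q y| ≤ C * t * (E + η * m ^ 2)

/-- Row Sthree: the cost of gluing is small -/
def SthreeStmt : Prop :=
  ∀ B : ℝ, 0 ≤ B → ∃ B' : ℝ, 0 ≤ B' ∧ ∀ (M : ℤ × ℤ → ℝ) (i₀ j i m : ℕ) (κ : ℝ) (w : ℤ × ℤ), Lip M →
    j ≤ i → 2 ^ i₀ ≤ κ * 2 ^ i → 1 ≤ κ * 2 ^ i₀ → 8 * 2 ^ i ≤ m →
    (∀ w, nrm w ≤ 2 * 2 ^ i → ∑ x ∈ box 0 (7 * m), ds (ml (2 ^ i₀) M) w x ≤ B * κ * m ^ 2) →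
    nrm w ≤ 2 * 2 ^ i →
    ∑ y ∈ box 0 (6 * m), |M y - av2 (pr (2 ^ j) (2 ^ i) M) w y| ≤ B' * κ * 2 ^ i * m ^ 2

/-- Row Sfour: a corridor of negative second differences costs energy -/
def SfourStmt : Prop :=
  ∀ B : ℝ, 0 ≤ B → ∃ B' : ℝ, 0 ≤ B' ∧ ∀ (M : ℤ × ℤ → ℝ) (i₀ i m : ℕ) (ζ η : ℝ) (b : Bool), Lip M →
    1 ≤ i → 0 < ζ → 2 ^ i₀ ≤ ζ * 2 ^ i → 8 * 2 ^ i ≤ m →
    (∀ w, nrm w ≤ 2 ^ i → ∑ x ∈ box 0 m, ds (ml (2 ^ i₀) M) w x ^ 10 ≤ B * ζ ^ 11 * 2 ^ i * m) →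
    (∀ r : ℕ, 1 ≤ r → 2 * r ≤ m → ∃ y, nrm y = r ∧
      M (pt b y (2 * 2 ^ i : ℕ)) - 2 * M (pt b y (2 ^ i : ℕ)) + M y ≤ -(η * 2 ^ i)) → η ≤ B' * ζ

/-- Row Ana: the analytic part -/
def AnaStmt : Prop :=
  ∀ c C : ℝ, 0 < c → 0 ≤ C → ∃ B : ℝ, 0 ≤ B ∧ ∀ (M : ℤ × ℤ → ℝ) (i₀ i m : ℕ) (ζ η : ℝ) (b : Bool),
    Lip M → 1 ≤ i → i₀ ≤ i → 0 < ζ → ζ ≤ 1 → 2 ^ i ≤ ζ ^ 110 * m → 2 ^ i₀ ≤ ζ ^ 11 * 2 ^ i →
    1 ≤ ζ ^ 11 * 2 ^ i₀ → 8 * 2 ^ i ≤ m → EP c C M i₀ i (7 * m) → EP c C M i i (7 * m) →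
    EP c C M i₀ i m → EP c C M i i m →
    (∀ r : ℕ, 1 ≤ r → 2 * r ≤ m → ∃ y, nrm y = r ∧
      M (pt b y (2 * 2 ^ i : ℕ)) - 2 * M (pt b y (2 ^ i : ℕ)) + M y ≤ -(η * 2 ^ i)) → η ≤ B * ζ

/-- Row Corr: corridors of large increments -/
def CorrStmt : Prop :=
  ∃ C : ℝ, 0 ≤ C ∧ ∀ (R r : ℕ) (g : Conf) (v : ℤ × ℤ), Hom g → 1 ≤ r → r + nrm v ≤ R →
    ∃ y, nrm y = r ∧ mn (box 0 R) g v - mn (box 0 R) g 0 ≤
      mn (box 0 R) g (y + v) - mn (box 0 R) g y + C * ph R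

/-- Row Par: the choice of the parameters -/
def ParStmt : Prop :=
  ∀ C : ℝ, ∃ p₀ : ℕ, 1 ≤ p₀ ∧ ∀ i p : ℕ, p₀ ≤ p → 3000 * p ≤ i →
    ((56 * 2 ^ (i + 110 * p) : ℕ) : ℝ) ^ 2 * er (56 * 2 ^ (i + 110 * p)) (7 * i / 10) (8 * i / 10) i ≤
      4 ^ i ∧ C * ph (56 * 2 ^ (i + 110 * p)) ≤ 2 ^ i / 2 ^ p ∧ C ≤ 2 ^ p ∧
      8 * i / 10 + 11 * p ≤ i ∧ 11 * p ≤ 8 * i / 10 ∧ 1 ≤ 7 * i / 10

/-- Row One: halving the scale, for the mean -/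
def OneStmt : Prop :=
  ∀ δ : ℝ, 0 < δ → δ ≤ 1 → ∃ (C : ℝ) (p₀ : ℕ), 0 ≤ C ∧ ∀ (i p : ℕ) (g : Conf) (b : Bool) (A : ℝ),
    p₀ ≤ p → 3000 * p ≤ i → Hom g → A ≤ (1 - δ) * (2 * 2 ^ i) →
    Inc (mn (box 0 (56 * 2 ^ (i + 110 * p))) g) 0 (56 * 2 ^ (i + 110 * p)) (2 * 2 ^ i) A →
    mn (box 0 (56 * 2 ^ (i + 110 * p))) g (pt b 0 (2 ^ i : ℕ)) -
      mn (box 0 (56 * 2 ^ (i + 110 * p))) g 0 ≤ A / 2 + C * 2 ^ i / 2 ^ p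

/-- Row Half: halving the scale -/
def HalfStmt : Prop :=
  ∀ δ : ℝ, 0 < δ → δ ≤ 1 → ∃ (C : ℝ) (p₀ : ℕ), 0 ≤ C ∧ ∀ (i p : ℕ) (f : Conf) (z : ℤ × ℤ) (b : Bool)
    (A : ℝ), p₀ ≤ p → 3000 * p ≤ i → Hom f → Dv z (56 * 2 ^ (i + 110 * p)) f →
    A ≤ (1 - δ) * (2 * 2 ^ i) → Inc (fun y => f y) z (56 * 2 ^ (i + 110 * p)) (2 * 2 ^ i) A →
    |(f (pt b z (2 ^ i : ℕ)) : ℝ) - f z| ≤ A / 2 + C * 2 ^ i / 2 ^ p

/-- Row Down: descending the scales -/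
def DownStmt : Prop :=
  ∀ δ : ℝ, 0 < δ → δ ≤ 1 → ∃ p₁ : ℕ, ∀ (I L : ℕ) (a b : ℝ) (f : Conf), Hom f → L ≤ I →
    3000 * p₁ + I / 8 ≤ L →
    (∀ ρ : ℕ, 2 ^ L ≤ ρ → ∀ z ∈ anr a b, Dv z ρ f) → Sg δ (δ / 2 * 2 ^ I) (anr a b) f →
    Sg (δ / 2) (2 ^ L) (anr (a + 224 * 2 ^ (I + 110 * p₁)) (b - 224 * 2 ^ (I + 110 * p₁))) f

/-- Row Boot: from the macroscopic scale to a small power -/
def BootStmt : Prop :=
  ∀ δ ε : ℝ, 0 < δ → δ ≤ 1 → 0 < ε → ε ≤ 1 → ∃ c : ℝ, 0 < c ∧ ∀ ρ₀ : ℕ, ∀ᶠ R : ℕ in atTop,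
    ∀ f : Conf, Hom f → (∀ ρ : ℕ, ρ₀ ≤ ρ → ∀ z, nrm z ≤ ρ ^ 6 → Dv z ρ f) →
    Sg δ (c * R) (anr R ((1 + ε) * R)) f →
    Sg (δ / 2) ((R : ℝ) ^ (1 / 5 : ℝ)) (anr ((1 + ε / 4) * R) ((1 + 3 * ε / 4) * R)) f

/-- Row Res3: the theorem -/
def Res3Stmt : Prop :=
  ∀ δ ε : ℝ, 0 < δ → 0 < ε → ∃ c : ℝ, 0 < c ∧ ∀ μ : Measure Conf, Gibbs μ →
    ∀ᵐ f ∂μ, ∀ᶠ R : ℕ in atTop, ∃ (x e : ℤ × ℤ) (n : ℕ), |e.1| + |e.2| = 1 ∧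
      (∀ t : ℕ, t ≤ n → (R : ℤ) ≤ max |(x + (t : ℤ) • e).1| |(x + (t : ℤ) • e).2| ∧
        ((max |(x + (t : ℤ) • e).1| |(x + (t : ℤ) • e).2| : ℤ) : ℝ) ≤ (1 + ε) * R) ∧
      (1 - δ) * n + c * R < ((f (x + (n : ℤ) • e) - f x : ℤ) : ℝ)

/-- lattice symmetries combined with a sign and a height shift -/
def tr (τ : ℤ × ℤ ≃ ℤ × ℤ) (σ k : ℤ) (f : Conf) : Conf := fun y => σ * f (τ y) + k

/-- isometries -/
def Iso (τ : ℤ × ℤ ≃ ℤ × ℤ) : Prop := ∀ y y', dist1 (τ y) (τ y') = dist1 y y'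

theorem iso_add (v : ℤ × ℤ) : Iso (Equiv.addRight v) := fun y y' => by simp [dist1]

theorem iso_sub (v : ℤ × ℤ) : Iso (Equiv.subLeft v) := fun y y' => by
  simp only [dist1, Equiv.subLeft_apply, Prod.fst_sub, Prod.snd_sub, Int.abs_eq_natAbs]
  omega

theorem box_add (x v y : ℤ × ℤ) (n : ℕ) : y ∈ box (x - v) n ↔ Equiv.addRight v y ∈ box x n := by
  simp only [mem_box, Equiv.coe_addRight, Prod.fst_add, Prod.snd_add, Prod.fst_sub, Prod.snd_sub]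
  omega

theorem box_add0 (x y : ℤ × ℤ) (n : ℕ) : y ∈ box 0 n ↔ Equiv.addRight x y ∈ box x n := by
  rw [← box_add, sub_self]

theorem box_sub (x v y : ℤ × ℤ) (n : ℕ) : y ∈ box (v - x) n ↔ Equiv.subLeft v y ∈ box x n := by
  simp only [mem_box, Equiv.subLeft_apply, Prod.fst_sub, Prod.snd_sub]
  omega

theorem hom_tr {τ : ℤ × ℤ ≃ ℤ × ℤ} (hτ : Iso τ) {σ : ℤ} (hσ : σ = 1 ∨ σ = -1) (k : ℤ) {f : Conf}
    (hf : Hom f) : Hom (tr τ σ k f) := fun y y' h => by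
  have h1 := hf (τ y) (τ y') ((hτ y y').trans h)
  unfold tr
  rw [abs_eq (by norm_num)] at h1 ⊢
  rcases hσ with rfl | rfl <;> omega

theorem tr_inj (τ : ℤ × ℤ ≃ ℤ × ℤ) {σ : ℤ} (hσ : σ = 1 ∨ σ = -1) (k : ℤ) :
    Function.Injective (tr τ σ k) := fun f f' h => funext fun y => by
  have := congrFun h (τ.symm y)
  simp only [tr, Equiv.apply_symm_apply] at this
  rcases hσ with rfl | rfl <;> omega

theorem FS_tr {τ : ℤ × ℤ ≃ ℤ × ℤ} (hτ : Iso τ) {σ : ℤ} (hσ : σ = 1 ∨ σ = -1) (k : ℤ)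
    {Λ Λ' : Finset (ℤ × ℤ)} (h : ∀ y, y ∈ Λ' ↔ τ y ∈ Λ) (g : Conf) :
    FS Λ' (tr τ σ k g) = (FS Λ g).image (tr τ σ k) := by
  ext f
  rw [mem_image, mem_FS]
  constructor
  · intro hf
    have hτ' : Iso τ.symm := fun y y' => by
      rw [← hτ, Equiv.apply_symm_apply, Equiv.apply_symm_apply]
    refine ⟨tr τ.symm σ (-(σ * k)) f, mem_FS.2 ⟨hom_tr hτ' hσ _ hf.1, fun y hy => ?_⟩,
      funext fun y => ?_⟩
    · have := hf.2 (τ.symm y) (by rw [h, Equiv.apply_symm_apply]; exact hy)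
      simp only [tr, Equiv.apply_symm_apply] at this ⊢
      rcases hσ with rfl | rfl <;> omega
    · simp only [tr, Equiv.symm_apply_apply]
      rcases hσ with rfl | rfl <;> omega
  · rintro ⟨a, ha, rfl⟩
    rw [mem_FS] at ha
    exact ⟨hom_tr hτ hσ k ha.1, fun y hy => by
      simp only [tr, ha.2 (τ y) fun e => hy ((h y).2 e)]⟩

theorem av_tr {τ : ℤ × ℤ ≃ ℤ × ℤ} (hτ : Iso τ) {σ : ℤ} (hσ : σ = 1 ∨ σ = -1) (k : ℤ)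
    {Λ Λ' : Finset (ℤ × ℤ)} (h : ∀ y, y ∈ Λ' ↔ τ y ∈ Λ) (φ : Conf → ℝ) (g : Conf) :
    av Λ' φ (tr τ σ k g) = av Λ (fun f => φ (tr τ σ k f)) g := by
  unfold av
  rw [FS_tr hτ hσ k h, card_image_of_injective _ (tr_inj τ hσ k),
    sum_image fun _ _ _ _ e => tr_inj τ hσ k e]

theorem lz_tr {τ : ℤ × ℤ ≃ ℤ × ℤ} (hτ : Iso τ) {σ : ℤ} (hσ : σ = 1 ∨ σ = -1) (k : ℤ)
    {Λ Λ' : Finset (ℤ × ℤ)} (h : ∀ y, y ∈ Λ' ↔ τ y ∈ Λ) (g : Conf) :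
    lz Λ' (tr τ σ k g) = lz Λ g := by
  unfold lz
  rw [FS_tr hτ hσ k h, card_image_of_injective _ (tr_inj τ hσ k)]

theorem mn_tr {τ : ℤ × ℤ ≃ ℤ × ℤ} (hτ : Iso τ) {σ : ℤ} (hσ : σ = 1 ∨ σ = -1) (k : ℤ)
    {Λ Λ' : Finset (ℤ × ℤ)} (h : ∀ y, y ∈ Λ' ↔ τ y ∈ Λ) {g : Conf} (hg : Hom g) (y : ℤ × ℤ) :
    mn Λ' (tr τ σ k g) y = σ * mn Λ g (τ y) + k := by
  unfold mn
  rw [av_tr hτ hσ k h, ← av_smul, ← av_const Λ (k : ℝ) hg, ← av_add]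
  exact av_eq fun f _ => by simp [tr]

theorem mn_congr {Λ : Finset (ℤ × ℤ)} {g f : Conf} (h : f ∈ FS Λ g) : mn Λ f = mn Λ g :=
  funext fun _ => av_congr _ (mem_FS.1 h).2

theorem mn_out {Λ : Finset (ℤ × ℤ)} {g : Conf} (hg : Hom g) {y : ℤ × ℤ} (hy : y ∉ Λ) :
    mn Λ g y = g y := by
  rw [← av_const Λ (g y : ℝ) hg]
  exact av_eq fun f hf => by rw [(mem_FS.1 hf).2 y hy]

theorem lip_mn (Λ : Finset (ℤ × ℤ)) {g : Conf} (hg : Hom g) : Lip (mn Λ g) := fun y y' => by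
  unfold mn
  rw [← av_sub, abs_le, ← av_const Λ (dist1 y y' : ℝ) hg, ← neg_one_mul, ← av_smul]
  exact ⟨av_le fun f h => by linarith [(abs_le.1 (inc_abs (mem_FS.1 h).1 y y')).1],
    av_le fun f h => (abs_le.1 (inc_abs (mem_FS.1 h).1 y y')).2⟩

theorem exp_lz (Λ : Finset (ℤ × ℤ)) {g : Conf} (hg : Hom g) :
    Real.exp (lz Λ g) = (FS Λ g).card := Real.exp_log (card_pos Λ hg)

theorem lz_nonneg (Λ : Finset (ℤ × ℤ)) (g : Conf) : 0 ≤ lz Λ g := Real.log_natCast_nonneg _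

theorem lz_le (Λ : Finset (ℤ × ℤ)) (g : Conf) : lz Λ g ≤ Λ.card := by
  by_cases h : (FS Λ g).card = 0
  · simp [lz, h]
  · have h1 : ((FS Λ g).card : ℝ) ≤ 2 ^ Λ.card := by exact_mod_cast card_le Λ g
    have h2 := Real.log_le_log (by positivity) h1
    rw [Real.log_pow] at h2
    have h3 := Real.log_two_lt_d9
    have h4 : (0 : ℝ) ≤ Λ.card := Nat.cast_nonneg _
    unfold lz
    nlinarith

theorem FS_sub {X Y : Finset (ℤ × ℤ)} (h : X ⊆ Y) {g f : Conf} (hf : f ∈ FS Y g) :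
    FS X f ⊆ FS Y g := fun a ha => by
  rw [mem_FS] at *
  exact ⟨ha.1, fun y hy => (ha.2 y fun e => hy (h e)).trans (hf.2 y hy)⟩

theorem lz_mono {X Y : Finset (ℤ × ℤ)} (h : X ⊆ Y) {g f : Conf} (hf : f ∈ FS Y g) :
    lz X f ≤ lz Y g :=
  Real.log_le_log (card_pos X (mem_FS.1 hf).1) (Nat.cast_le.2 (card_le_card (FS_sub h hf)))

theorem lz_congr {Λ : Finset (ℤ × ℤ)} {g g' : Conf} (h : ∀ y, y ∉ Λ → g y = g' y) :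
    lz Λ g = lz Λ g' := by
  unfold lz
  rw [FS_congr h]

theorem sg_mem (Λ : Finset (ℤ × ℤ)) (g : Conf) (ρ : ℕ) (x : ℤ × ℤ) :
    0 ≤ sg Λ g ρ x ∧ sg Λ g ρ x ≤ (2 * ρ + 1) ^ 2 := by
  refine ⟨av_nonneg (fun _ => lz_nonneg _ _) g, (le_abs_self _).trans (av_abs (fun f => ?_) g)⟩
  rw [abs_of_nonneg (lz_nonneg _ _)]
  refine (lz_le _ _).trans ?_
  rw [card_box]
  push_cast
  exact le_rfl

theorem par_FS {Λ : Finset (ℤ × ℤ)} {g g' a b : Conf} (h : ∀ y, y ∉ Λ → (g y - g' y) % 2 = 0)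
    (ha : a ∈ FS Λ g) (hb : b ∈ FS Λ g') (y : ℤ × ℤ) : (a y - b y) % 2 = 0 := by
  obtain ⟨z, hz⟩ := Infinite.exists_notMem_finset Λ
  rw [mem_FS] at ha hb
  exact par ha.1 hb.1 (z := z) (by rw [ha.2 z hz, hb.2 z hz]; exact h z hz) y

theorem one_le_lg {n : ℕ} : 1 ≤ lg n := le_add_of_nonneg_left (Real.log_natCast_nonneg n)

theorem lg_le {n J : ℕ} (h : n ≤ 2 ^ J) : lg n ≤ J + 1 := by
  unfold lg
  rcases Nat.eq_zero_or_pos n with rfl | h0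
  · simp
  · have h1 : (n : ℝ) ≤ 2 ^ J := by exact_mod_cast h
    have h2 := Real.log_le_log (by positivity) h1
    rw [Real.log_pow] at h2
    have h3 := Real.log_two_lt_d9
    have h4 : (0 : ℝ) ≤ J := Nat.cast_nonneg _
    nlinarith

theorem exp_lg {n : ℕ} (h : 1 ≤ n) (k : ℕ) : Real.exp (-(k * lg n)) = Real.exp (-k) / n ^ k := by
  have h0 : (0 : ℝ) < n := by exact_mod_cast h
  rw [lg, mul_add, mul_one, neg_add, Real.exp_add, ← Real.log_pow, Real.exp_neg (Real.log _),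
    Real.exp_log (by positivity)]
  ring

theorem lg_sqrt {n J : ℕ} (h : n ≤ 2 ^ J) : lg n * √n * 2 ^ J ≤ 18 * 3 ^ J := by
  have h1 : √(n : ℝ) ≤ (17 / 12) ^ J := by
    rw [Real.sqrt_le_left (by positivity), ← pow_mul, mul_comm, pow_mul]
    exact (show (n : ℝ) ≤ 2 ^ J by exact_mod_cast h).trans
      (pow_le_pow_left₀ (by norm_num) (by norm_num) J)
  have h2 : ∀ j : ℕ, ((j : ℝ) + 18) * (17 / 18) ^ j ≤ 18 := fun j => by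
    induction j with
    | zero => simp
    | succ j ih =>
      have : (0 : ℝ) ≤ (17 / 18) ^ j := by positivity
      have h0 : (0 : ℝ) ≤ j := Nat.cast_nonneg j
      push_cast
      rw [pow_succ]
      nlinarith
  have h3 : (17 / 12 : ℝ) ^ J * 2 ^ J = (17 / 18) ^ J * 3 ^ J := by
    rw [← mul_pow, ← mul_pow]
    norm_num
  calc _ ≤ ((J : ℝ) + 18) * (17 / 12) ^ J * 2 ^ J := by
        have := lg_le h
        gcongr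
        linarith
    _ = ((J : ℝ) + 18) * (17 / 18) ^ J * 3 ^ J := by rw [mul_assoc, h3, mul_assoc]
    _ ≤ _ := by gcongr; exact h2 J

theorem ph_nonneg (ρ : ℕ) : 0 ≤ ph ρ := by
  have := @one_le_lg ρ
  unfold ph
  positivity

theorem exit (x y : ℤ × ℤ) (n : ℕ) (h : y ∈ box x (n + 1)) :
    ∃ w, nrm (w - x) = (n + 1 : ℕ) ∧ w ∉ box x n ∧ dist1 y w = n + 1 - nrm (y - x) := by
  rw [mem_box] at h
  by_cases h1 : |y.2 - x.2| ≤ |y.1 - x.1|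
  · rcases le_total x.1 y.1 with e | e
    · refine ⟨(x.1 + n + 1, y.2), ?_, by rw [mem_box]; omega, ?_⟩ <;>
        simp only [nrm, dist1, Int.abs_eq_natAbs, Prod.fst_sub, Prod.snd_sub] at * <;> omega
    · refine ⟨(x.1 - n - 1, y.2), ?_, by rw [mem_box]; omega, ?_⟩ <;>
        simp only [nrm, dist1, Int.abs_eq_natAbs, Prod.fst_sub, Prod.snd_sub] at * <;> omega
  · rcases le_total x.2 y.2 with e | e
    · refine ⟨(y.1, x.2 + n + 1), ?_, by rw [mem_box]; omega, ?_⟩ <;>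
        simp only [nrm, dist1, Int.abs_eq_natAbs, Prod.fst_sub, Prod.snd_sub] at * <;> omega
    · refine ⟨(y.1, x.2 - n - 1), ?_, by rw [mem_box]; omega, ?_⟩ <;>
        simp only [nrm, dist1, Int.abs_eq_natAbs, Prod.fst_sub, Prod.snd_sub] at * <;> omega

theorem nrm_nonneg (y : ℤ × ℤ) : 0 ≤ nrm y := (abs_nonneg _).trans (le_max_left _ _)

theorem Ring.nonneg {u : ℝ × ℝ} {c a : ℝ} {x : ℤ × ℤ} {r : ℕ} {g : Conf} (h : Ring u c a x r g) :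
    0 ≤ a := (abs_nonneg _).trans (h (x + ((r : ℤ), 0)) (by simp [nrm]))

theorem hom_par : Hom fun y => y.1 + y.2 := fun x y h => by
  simp only [Int.abs_eq_natAbs] at h ⊢
  omega

theorem hom_pc {δ : ℝ} (hδ : 0 < δ) {u : ℝ × ℝ} (hu : Sl δ u) : Hom (pc u) :=
  GlueP.hom_rd hom_par fun _ _ h => (GlueP.pl_edge hu 0 h).trans (by linarith)

theorem pc_near (u : ℝ × ℝ) (y : ℤ × ℤ) : pl u 0 y ≤ pc u y ∧ (pc u y : ℝ) < pl u 0 y + 2 :=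
  ⟨GlueP.le_rd _ _ y, GlueP.rd_lt _ _ y⟩

theorem ring_pc (u : ℝ × ℝ) (x : ℤ × ℤ) (r : ℕ) : Ring u 0 2 x r (pc u) := fun y _ => by
  have := pc_near u y
  rw [abs_le]
  constructor <;> linarith

theorem pc_par (u v : ℝ × ℝ) (y : ℤ × ℤ) : (pc u y - pc v y) % 2 = 0 := by
  have h1 := GlueP.rd_par (fun y => y.1 + y.2) (pl u 0) y
  have h2 := GlueP.rd_par (fun y => y.1 + y.2) (pl v 0) y
  unfold pc
  omega

theorem pl_md (u v : ℝ × ℝ) (y : ℤ × ℤ) : pl (md u v) 0 y = (pl u 0 y + pl v 0 y) / 2 := by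
  simp only [pl, md]
  ring

theorem sl_md {δ : ℝ} {u v : ℝ × ℝ} (hu : Sl δ u) (hv : Sl δ v) : Sl δ (md u v) := by
  unfold Sl md at *
  simp only [abs_le] at *
  refine ⟨⟨?_, ?_⟩, ?_, ?_⟩ <;> linarith [hu.1.1, hu.1.2, hu.2.1, hu.2.2, hv.1.1, hv.1.2, hv.2.1, hv.2.2]

theorem pl_pt (u : ℝ × ℝ) (c : ℝ) (b : Bool) (y : ℤ × ℤ) (t : ℤ) :
    pl u c (pt b y t) = pl u c y + crd b u * t := by
  cases b <;> simp [pl, pt, dir, crd] <;> ring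

theorem crd_le (b : Bool) (u : ℝ × ℝ) : |crd b u| ≤ nm u := by
  cases b
  · exact le_max_right _ _
  · exact le_max_left _ _

theorem crd_sl (b : Bool) (P : ℤ × ℤ → ℝ) (y : ℤ × ℤ) : crd b (sl P y) = dd b P y := by
  cases b <;> rfl

theorem nm_nonneg (u : ℝ × ℝ) : 0 ≤ nm u := (abs_nonneg _).trans (le_max_left _ _)

theorem hom_hi {g g' : Conf} (h : Hom g) (h' : Hom g') (p : ∀ y, (g y - g' y) % 2 = 0) :
    Hom (hi g g') := fun x y e => by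
  have h1 := h x y e
  have h2 := h' x y e
  have h3 := p x
  have h4 := p y
  simp only [hi]
  rw [abs_eq (by norm_num)] at h1 h2 ⊢
  omega

theorem lo_hi {u v : Conf} {y : ℤ × ℤ} (h : (u y - v y) % 2 = 0) :
    (lo u v y : ℝ) + hi u v y = u y + v y ∧ (lo u v y : ℝ) ≤ hi u v y ∧
      (hi u v y : ℝ) ≤ lo u v y + 2 := by
  refine ⟨?_, ?_, ?_⟩ <;> norm_cast <;> simp only [lo, hi] <;> omega

theorem lo_self (g : Conf) : lo g g = g := funext fun y => by simp [lo]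

theorem hi_self (g : Conf) : hi g g = g := funext fun y => by simp [hi]

theorem mid_inc (x y : ℤ × ℤ) : Mid fun f => (f y : ℝ) - f x := fun u v h => by
  obtain ⟨a1, a2, a3⟩ := lo_hi (h x)
  obtain ⟨b1, b2, b3⟩ := lo_hi (h y)
  refine ⟨by linarith, abs_le.2 ⟨by linarith, by linarith⟩⟩

theorem Mid.neg {X : Conf → ℝ} (h : Mid X) : Mid fun f => -X f := fun u v e => by
  obtain ⟨h1, h2⟩ := h u v e
  exact ⟨by linarith, by rwa [neg_sub_neg, abs_sub_comm]⟩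

theorem mid_FF (x : ℤ × ℤ) (K : ℕ) : Mid (FF x K) := fun u v h => by
  have hN : (0 : ℝ) < (2 * K + 1) ^ 2 := by positivity
  unfold FF
  constructor
  · rw [← add_div, ← add_div, ← sum_add_distrib, ← sum_add_distrib,
      sum_congr rfl fun y _ => (lo_hi (h y)).1]
  · rw [← sub_div, ← sum_sub_distrib, abs_div, abs_of_pos hN, div_le_iff₀ hN]
    refine (abs_sum_le_sum_abs _ _).trans ((sum_le_card_nsmul _ _ 4 fun y _ => ?_).trans ?_)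
    · obtain ⟨-, a2, a3⟩ := lo_hi (h y)
      exact abs_le.2 ⟨by linarith, by linarith⟩
    · rw [card_box, nsmul_eq_mul]
      push_cast
      linarith

theorem wk_step (U : Finset ℤ) (k : ℤ) : |wk U k - wk U (k - 1)| = 1 := by
  unfold wk
  rw [abs_eq (by norm_num)]
  split_ifs <;> omega

theorem wk_abs (U : Finset ℤ) (k : ℤ) : |wk U k| ≤ 1 := by
  unfold wk
  split_ifs <;> simp

theorem Sg.sub {δ a : ℝ} {S S' : Set (ℤ × ℤ)} {f : Conf} (h : Sg δ a S f) (hS : S' ⊆ S) :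
    Sg δ a S' f := fun b x l hl => h b x l fun t ht => hS (hl t ht)

end Pool.Agent.MP_151d89_pr.H58
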